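import Pool.Agent.Lib_MP_cc07e8_co.ShelfDec

/-!
# Staircases (helper60, for MP_cc07e8_co)

A partition of the box `W × H` given by a matrix `x r i` of left ends and a matrix `y r i` of bottoms:
* cells `[x r i, x r (i + 1)] × [y r i, y (r + 1) i]`, `r ≤ k`, `i ≤ l`,
* pockets `[x r (i + 1), x (r + 1) (i + 1)] × [y (r + 1) (i + 1), y (r + 1) i]`, `r < k`, `i < l`,
* left gaps `[0, x r 0] × [y r 0, y (r + 1) 0]`,
* top gaps `[x k i, x k (i + 1)] × [y (k + 1) i, H]`,
* the corner `[0, x k 0] × [y (k + 1) 0, H]`.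
-/

namespace Pool.Agent.Stair

open Finset Pool.Agent.Shelf

/-- the hypotheses on the two matrices -/
structure Prof (W H : ℝ) (k l : ℕ) (x y : ℕ → ℕ → ℝ) : Prop where
  xn : 0 ≤ x 0 0
  xs : ∀ r i, x r i ≤ x r (i + 1)
  xr : ∀ r i, x r i ≤ x (r + 1) i
  xl : ∀ r, x r (l + 1) = W
  yz : ∀ i, y 0 i = 0
  ys : ∀ r i, y r i ≤ y (r + 1) i
  yc : ∀ r i, y r (i + 1) ≤ y r i
  yt : y (k + 1) 0 ≤ H

section

variable {W H : ℝ} {k l : ℕ} {x y : ℕ → ℕ → ℝ}

theorem X_mono (ha : Prof W H k l x y) (r : ℕ) {i j : ℕ} (h : i ≤ j) : x r i ≤ x r j :=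
  monotone_nat_of_le_succ (f := fun i => x r i) (ha.xs r) h

theorem X_row (ha : Prof W H k l x y) (i : ℕ) {r s : ℕ} (h : r ≤ s) : x r i ≤ x s i :=
  monotone_nat_of_le_succ (f := fun r => x r i) (fun r => ha.xr r i) h

theorem Y_mono (ha : Prof W H k l x y) (i : ℕ) {r s : ℕ} (h : r ≤ s) : y r i ≤ y s i :=
  monotone_nat_of_le_succ (f := fun r => y r i) (fun r => ha.ys r i) h

theorem Y_col (ha : Prof W H k l x y) (r : ℕ) {i j : ℕ} (h : i ≤ j) : y r j ≤ y r i :=
  antitone_nat_of_succ_le (f := fun i => y r i) (ha.yc r) h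

theorem X_nonneg (ha : Prof W H k l x y) (r i : ℕ) : 0 ≤ x r i :=
  ha.xn.trans ((X_mono ha 0 (Nat.zero_le i)).trans (X_row ha i (Nat.zero_le r)))

theorem X_le_W (ha : Prof W H k l x y) (r : ℕ) {i : ℕ} (hi : i ≤ l + 1) : x r i ≤ W := by
  rw [← ha.xl r]
  exact X_mono ha r hi

theorem Y_nonneg (ha : Prof W H k l x y) (r i : ℕ) : 0 ≤ y r i := by
  rw [← ha.yz i]
  exact Y_mono ha i (Nat.zero_le r)

theorem Y_le_H (ha : Prof W H k l x y) {r : ℕ} (hr : r ≤ k + 1) (i : ℕ) : y r i ≤ H :=
  (Y_mono ha i hr).trans ((Y_col ha (k + 1) (Nat.zero_le i)).trans ha.yt)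

variable (H k l x y)

/-- positions of the pieces -/
def pos : Piece k l → Rect
  | Sum.inl (r, i) => ofBounds (x r i) (x r (i + 1)) (y r i) (y (r + 1) i)
  | Sum.inr (Sum.inl (r, i)) =>
      ofBounds (x r (i + 1)) (x (r + 1) (i + 1)) (y (r + 1) (i + 1)) (y (r + 1) i)
  | Sum.inr (Sum.inr (Sum.inl r)) => ofBounds 0 (x r 0) (y r 0) (y (r + 1) 0)
  | Sum.inr (Sum.inr (Sum.inr (Sum.inl i))) => ofBounds (x k i) (x k (i + 1)) (y (k + 1) i) H
  | Sum.inr (Sum.inr (Sum.inr (Sum.inr _))) => ofBounds 0 (x k 0) (y (k + 1) 0) H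

variable {H k l x y}

theorem inside (ha : Prof W H k l x y) (p : Piece k l) : Inside W H (pos H k l x y p) := by
  rcases p with ⟨r, i⟩ | ⟨r, i⟩ | r | i | u
  · exact inside_ofBounds (X_nonneg ha _ _) (X_mono ha _ (Nat.le_succ _)) (X_le_W ha _ (by omega))
      (Y_nonneg ha _ _) (Y_mono ha _ (Nat.le_succ _)) (Y_le_H ha (by omega) _)
  · exact inside_ofBounds (X_nonneg ha _ _) (X_row ha _ (Nat.le_succ _)) (X_le_W ha _ (by omega))
      (Y_nonneg ha _ _) (Y_col ha _ (Nat.le_succ _)) (Y_le_H ha (by omega) _)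
  · exact inside_ofBounds le_rfl (X_nonneg ha _ _) (X_le_W ha _ (by omega))
      (Y_nonneg ha _ _) (Y_mono ha _ (Nat.le_succ _)) (Y_le_H ha (by omega) _)
  · exact inside_ofBounds (X_nonneg ha _ _) (X_mono ha _ (Nat.le_succ _)) (X_le_W ha _ (by omega))
      (Y_nonneg ha _ _) (Y_le_H ha le_rfl _) le_rfl
  · exact inside_ofBounds le_rfl (X_nonneg ha _ _) (X_le_W ha _ (by omega))
      (Y_nonneg ha _ _) (Y_le_H ha le_rfl _) le_rfl

theorem ap_sq_sq (ha : Prof W H k l x y) {r i s j : ℕ} (h : (r, i) ≠ (s, j)) :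
    Apart (ofBounds (x r i) (x r (i + 1)) (y r i) (y (r + 1) i))
      (ofBounds (x s j) (x s (j + 1)) (y s j) (y (s + 1) j)) := by
  wlog hrs : r ≤ s generalizing r i s j
  · exact (this (Ne.symm h) (by omega)).symm
  apply apart_ofBounds
  rcases Nat.lt_or_ge r s with hlt | hge
  · rcases Nat.lt_or_ge i j with hij | hij
    · left
      exact (X_mono ha r (by omega : i + 1 ≤ j)).trans (X_row ha j hrs)
    · right; right; left
      exact (Y_col ha (r + 1) hij).trans (Y_mono ha j (by omega : r + 1 ≤ s))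
  · have hrs' : r = s := le_antisymm hrs hge
    subst hrs'
    have hij : i ≠ j := fun e => h (by rw [e])
    rcases Nat.lt_or_gt_of_ne hij with h1 | h1
    · left; exact X_mono ha r (by omega)
    · right; left; exact X_mono ha r (by omega)

theorem ap_sq_po (ha : Prof W H k l x y) (r i s j : ℕ) :
    Apart (ofBounds (x r i) (x r (i + 1)) (y r i) (y (r + 1) i))
      (ofBounds (x s (j + 1)) (x (s + 1) (j + 1)) (y (s + 1) (j + 1)) (y (s + 1) j)) := by
  apply apart_ofBounds
  rcases Nat.lt_or_ge s r with hlt | hge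
  · rcases Nat.lt_or_ge j i with hij | hij
    · right; left
      exact (X_mono ha (s + 1) (by omega : j + 1 ≤ i)).trans (X_row ha i (by omega))
    · right; right; right
      exact (Y_col ha (s + 1) hij).trans (Y_mono ha i (by omega : s + 1 ≤ r))
  · rcases Nat.lt_or_ge j i with hij | hij
    · right; right; left
      exact (Y_mono ha i (by omega : r + 1 ≤ s + 1)).trans (Y_col ha (s + 1) (by omega))
    · left
      exact (X_mono ha r (by omega : i + 1 ≤ j + 1)).trans (X_row ha (j + 1) hge)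

theorem ap_po_po (ha : Prof W H k l x y) {r i s j : ℕ} (h : (r, i) ≠ (s, j)) :
    Apart (ofBounds (x r (i + 1)) (x (r + 1) (i + 1)) (y (r + 1) (i + 1)) (y (r + 1) i))
      (ofBounds (x s (j + 1)) (x (s + 1) (j + 1)) (y (s + 1) (j + 1)) (y (s + 1) j)) := by
  wlog hrs : r ≤ s generalizing r i s j
  · exact (this (Ne.symm h) (by omega)).symm
  apply apart_ofBounds
  rcases Nat.lt_or_ge r s with hlt | hge
  · rcases Nat.lt_or_ge j i with hij | hij
    · right; right; left
      exact (Y_mono ha i (by omega : r + 1 ≤ s + 1)).trans (Y_col ha (s + 1) (by omega))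
    · left
      exact (X_mono ha (r + 1) (by omega : i + 1 ≤ j + 1)).trans (X_row ha (j + 1) (by omega))
  · have hrs' : r = s := le_antisymm hrs hge
    subst hrs'
    have hij : i ≠ j := fun e => h (by rw [e])
    rcases Nat.lt_or_gt_of_ne hij with h1 | h1
    · right; right; right; exact Y_col ha (r + 1) (by omega)
    · right; right; left; exact Y_col ha (r + 1) (by omega)

theorem ap_sq_le (ha : Prof W H k l x y) (r i s : ℕ) :
    Apart (ofBounds (x r i) (x r (i + 1)) (y r i) (y (r + 1) i))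
      (ofBounds 0 (x s 0) (y s 0) (y (s + 1) 0)) := by
  apply apart_ofBounds
  rcases Nat.lt_or_ge r s with hlt | hge
  · right; right; left
    exact (Y_col ha (r + 1) (Nat.zero_le i)).trans (Y_mono ha 0 (by omega))
  · right; left
    exact (X_mono ha s (Nat.zero_le i)).trans (X_row ha i hge)

theorem ap_po_le (ha : Prof W H k l x y) (r i s : ℕ) :
    Apart (ofBounds (x r (i + 1)) (x (r + 1) (i + 1)) (y (r + 1) (i + 1)) (y (r + 1) i))
      (ofBounds 0 (x s 0) (y s 0) (y (s + 1) 0)) := by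
  apply apart_ofBounds
  rcases Nat.lt_or_ge r s with hlt | hge
  · right; right; left
    exact (Y_col ha (r + 1) (Nat.zero_le i)).trans (Y_mono ha 0 (by omega))
  · right; left
    exact (X_mono ha s (Nat.zero_le (i + 1))).trans (X_row ha (i + 1) hge)

theorem ap_le_le (ha : Prof W H k l x y) {r s : ℕ} (h : r ≠ s) :
    Apart (ofBounds 0 (x r 0) (y r 0) (y (r + 1) 0))
      (ofBounds 0 (x s 0) (y s 0) (y (s + 1) 0)) := by
  apply apart_ofBounds
  rcases Nat.lt_or_gt_of_ne h with h1 | h1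
  · right; right; left; exact Y_mono ha 0 (by omega)
  · right; right; right; exact Y_mono ha 0 (by omega)

theorem ap_sq_to (ha : Prof W H k l x y) {r : ℕ} (hr : r ≤ k) (i j : ℕ) :
    Apart (ofBounds (x r i) (x r (i + 1)) (y r i) (y (r + 1) i))
      (ofBounds (x k j) (x k (j + 1)) (y (k + 1) j) H) := by
  apply apart_ofBounds
  rcases Nat.lt_or_ge i j with hlt | hge
  · left
    exact (X_mono ha r (by omega)).trans (X_row ha j hr)
  · right; right; left
    exact (Y_col ha (r + 1) hge).trans (Y_mono ha j (by omega))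

theorem ap_po_to (ha : Prof W H k l x y) {r : ℕ} (hr : r < k) (i j : ℕ) :
    Apart (ofBounds (x r (i + 1)) (x (r + 1) (i + 1)) (y (r + 1) (i + 1)) (y (r + 1) i))
      (ofBounds (x k j) (x k (j + 1)) (y (k + 1) j) H) := by
  apply apart_ofBounds
  rcases Nat.lt_or_ge i j with hlt | hge
  · left
    exact (X_mono ha (r + 1) (by omega : i + 1 ≤ j)).trans (X_row ha j (by omega))
  · right; right; left
    exact (Y_col ha (r + 1) hge).trans (Y_mono ha j (by omega))

theorem ap_le_to (ha : Prof W H k l x y) {r : ℕ} (hr : r ≤ k) (j : ℕ) :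
    Apart (ofBounds 0 (x r 0) (y r 0) (y (r + 1) 0))
      (ofBounds (x k j) (x k (j + 1)) (y (k + 1) j) H) := by
  apply apart_ofBounds
  left
  exact (X_row ha 0 hr).trans (X_mono ha k (Nat.zero_le j))

theorem ap_to_to (ha : Prof W H k l x y) {i j : ℕ} (h : i ≠ j) :
    Apart (ofBounds (x k i) (x k (i + 1)) (y (k + 1) i) H)
      (ofBounds (x k j) (x k (j + 1)) (y (k + 1) j) H) := by
  apply apart_ofBounds
  rcases Nat.lt_or_gt_of_ne h with h1 | h1
  · left; exact X_mono ha k (by omega)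
  · right; left; exact X_mono ha k (by omega)

theorem ap_sq_co (ha : Prof W H k l x y) {r : ℕ} (hr : r ≤ k) (i : ℕ) :
    Apart (ofBounds (x r i) (x r (i + 1)) (y r i) (y (r + 1) i))
      (ofBounds 0 (x k 0) (y (k + 1) 0) H) := by
  apply apart_ofBounds
  right; right; left
  exact (Y_col ha (r + 1) (Nat.zero_le i)).trans (Y_mono ha 0 (by omega))

theorem ap_po_co (ha : Prof W H k l x y) {r : ℕ} (hr : r < k) (i : ℕ) :
    Apart (ofBounds (x r (i + 1)) (x (r + 1) (i + 1)) (y (r + 1) (i + 1)) (y (r + 1) i))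
      (ofBounds 0 (x k 0) (y (k + 1) 0) H) := by
  apply apart_ofBounds
  right; right; left
  exact (Y_col ha (r + 1) (Nat.zero_le i)).trans (Y_mono ha 0 (by omega))

theorem ap_le_co (ha : Prof W H k l x y) {r : ℕ} (hr : r ≤ k) :
    Apart (ofBounds 0 (x r 0) (y r 0) (y (r + 1) 0))
      (ofBounds 0 (x k 0) (y (k + 1) 0) H) := by
  apply apart_ofBounds
  right; right; left
  exact Y_mono ha 0 (by omega)

theorem ap_to_co (ha : Prof W H k l x y) (j : ℕ) :
    Apart (ofBounds (x k j) (x k (j + 1)) (y (k + 1) j) H)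
      (ofBounds 0 (x k 0) (y (k + 1) 0) H) := by
  apply apart_ofBounds
  right; left
  exact X_mono ha k (Nat.zero_le j)

/-- all pieces have pairwise disjoint interiors -/
theorem apart (ha : Prof W H k l x y) (p q : Piece k l) (h : p ≠ q) :
    Apart (pos H k l x y p) (pos H k l x y q) := by
  rcases p with ⟨r, i⟩ | ⟨r, i⟩ | r | i | u <;> rcases q with ⟨s, j⟩ | ⟨s, j⟩ | s | j | v
  · apply ap_sq_sq ha
    intro e
    apply h
    simp only [Prod.mk.injEq] at e
    simp [Fin.ext e.1, Fin.ext e.2]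
  · exact ap_sq_po ha _ _ _ _
  · exact ap_sq_le ha _ _ _
  · exact ap_sq_to ha (by omega) _ _
  · exact ap_sq_co ha (by omega) _
  · exact (ap_sq_po ha _ _ _ _).symm
  · apply ap_po_po ha
    intro e
    apply h
    simp only [Prod.mk.injEq] at e
    simp [Fin.ext e.1, Fin.ext e.2]
  · exact ap_po_le ha _ _ _
  · exact ap_po_to ha (by omega) _ _
  · exact ap_po_co ha (by omega) _
  · exact (ap_sq_le ha _ _ _).symm
  · exact (ap_po_le ha _ _ _).symm
  · apply ap_le_le ha
    intro e
    apply h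
    simp [Fin.ext e]
  · exact ap_le_to ha (by omega) _
  · exact ap_le_co ha (by omega)
  · exact (ap_sq_to ha (by omega) _ _).symm
  · exact (ap_po_to ha (by omega) _ _).symm
  · exact (ap_le_to ha (by omega) _).symm
  · apply ap_to_to ha
    intro e
    apply h
    simp [Fin.ext e]
  · exact ap_to_co ha _
  · exact (ap_sq_co ha (by omega) _).symm
  · exact (ap_po_co ha (by omega) _).symm
  · exact (ap_le_co ha (by omega)).symm
  · exact (ap_to_co ha _).symm
  · exact absurd rfl h

theorem pocket_row (ha : Prof W H k l x y) (r : ℕ) :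
    ∑ i ∈ range l, (x (r + 1) (i + 1) - x r (i + 1)) * (y (r + 1) i - y (r + 1) (i + 1)) =
      (∑ i ∈ range (l + 1), (x (r + 1) (i + 1) - x (r + 1) i) * y (r + 1) i +
        x (r + 1) 0 * y (r + 1) 0) -
      (∑ i ∈ range (l + 1), (x r (i + 1) - x r i) * y (r + 1) i + x r 0 * y (r + 1) 0) := by
  have h := abel (fun i => x (r + 1) i - x r i) (fun i => y (r + 1) i) l
  simp only [ha.xl, sub_self, zero_mul, zero_add] at h
  rw [← h]
  have h3 : ∑ i ∈ range (l + 1), (x (r + 1) (i + 1) - x r (i + 1) -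
        (x (r + 1) i - x r i)) * y (r + 1) i =
      ∑ i ∈ range (l + 1), (x (r + 1) (i + 1) - x (r + 1) i) * y (r + 1) i -
      ∑ i ∈ range (l + 1), (x r (i + 1) - x r i) * y (r + 1) i := by
    rw [← Finset.sum_sub_distrib]
    apply Finset.sum_congr rfl
    intro i _
    ring
  rw [h3]
  ring

/-- area below the upper profile of row `r` -/
theorem area_below (ha : Prof W H k l x y) (r : ℕ) :
    ∑ i ∈ range (l + 1), (x r (i + 1) - x r i) * y (r + 1) i + x r 0 * y (r + 1) 0 =
      ∑ s ∈ range (r + 1), ∑ i ∈ range (l + 1), (x s (i + 1) - x s i) * (y (s + 1) i - y s i) +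
      ∑ s ∈ range (r + 1), x s 0 * (y (s + 1) 0 - y s 0) +
      ∑ s ∈ range r, ∑ i ∈ range l, (x (s + 1) (i + 1) - x s (i + 1)) *
        (y (s + 1) i - y (s + 1) (i + 1)) := by
  have hrow : ∀ s, ∑ i ∈ range (l + 1), (x s (i + 1) - x s i) * y (s + 1) i + x s 0 * y (s + 1) 0 =
      (∑ i ∈ range (l + 1), (x s (i + 1) - x s i) * y s i + x s 0 * y s 0) +
      (∑ i ∈ range (l + 1), (x s (i + 1) - x s i) * (y (s + 1) i - y s i) +
        x s 0 * (y (s + 1) 0 - y s 0)) := by
    intro s
    have : ∑ i ∈ range (l + 1), (x s (i + 1) - x s i) * y (s + 1) i =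
        ∑ i ∈ range (l + 1), (x s (i + 1) - x s i) * y s i +
          ∑ i ∈ range (l + 1), (x s (i + 1) - x s i) * (y (s + 1) i - y s i) := by
      rw [← Finset.sum_add_distrib]
      apply Finset.sum_congr rfl
      intro i _
      ring
    rw [this]
    ring
  induction r with
  | zero =>
    rw [hrow 0]
    simp [ha.yz]
  | succ r ih =>
    have hp := pocket_row ha r
    rw [hrow (r + 1), Finset.sum_range_succ (fun s => ∑ i ∈ range (l + 1),
        (x s (i + 1) - x s i) * (y (s + 1) i - y s i)) (r + 1),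
      Finset.sum_range_succ (fun s => x s 0 * (y (s + 1) 0 - y s 0)) (r + 1),
      Finset.sum_range_succ (fun s => ∑ i ∈ range l, (x (s + 1) (i + 1) -
        x s (i + 1)) * (y (s + 1) i - y (s + 1) (i + 1))) r]
    linear_combination ih - hp

/-- the areas of the pieces sum up to `W * H` -/
theorem area (ha : Prof W H k l x y) : ∑ p : Piece k l, (pos H k l x y p).area = W * H := by
  rw [Fintype.sum_sum_type, Fintype.sum_sum_type, Fintype.sum_sum_type, Fintype.sum_sum_type]
  have s1 : ∑ p : Fin (k + 1) × Fin (l + 1), (pos H k l x y (Sum.inl p)).area =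
      ∑ s ∈ range (k + 1), ∑ i ∈ range (l + 1), (x s (i + 1) - x s i) * (y (s + 1) i - y s i) := by
    rw [Fintype.sum_prod_type, Finset.sum_range fun s => ∑ i ∈ range (l + 1),
      (x s (i + 1) - x s i) * (y (s + 1) i - y s i)]
    apply Finset.sum_congr rfl
    intro r _
    rw [Finset.sum_range fun i => (x r (i + 1) - x r i) * (y (r + 1) i - y r i)]
    rfl
  have s2 : ∑ p : Fin k × Fin l, (pos H k l x y (Sum.inr (Sum.inl p))).area =
      ∑ s ∈ range k, ∑ i ∈ range l, (x (s + 1) (i + 1) - x s (i + 1)) *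
        (y (s + 1) i - y (s + 1) (i + 1)) := by
    rw [Fintype.sum_prod_type, Finset.sum_range fun s => ∑ i ∈ range l,
      (x (s + 1) (i + 1) - x s (i + 1)) * (y (s + 1) i - y (s + 1) (i + 1))]
    apply Finset.sum_congr rfl
    intro r _
    rw [Finset.sum_range fun i =>
      (x (r + 1) (i + 1) - x r (i + 1)) * (y (r + 1) i - y (r + 1) (i + 1))]
    rfl
  have s3 : ∑ p : Fin (k + 1), (pos H k l x y (Sum.inr (Sum.inr (Sum.inl p)))).area =
      ∑ s ∈ range (k + 1), x s 0 * (y (s + 1) 0 - y s 0) := by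
    rw [Finset.sum_range fun s => x s 0 * (y (s + 1) 0 - y s 0)]
    apply Finset.sum_congr rfl
    intro r _
    show (x r 0 - 0) * (y (r + 1) 0 - y r 0) = _
    ring
  have s4 : ∑ p : Fin (l + 1), (pos H k l x y (Sum.inr (Sum.inr (Sum.inr (Sum.inl p))))).area =
      ∑ i ∈ range (l + 1), (x k (i + 1) - x k i) * (H - y (k + 1) i) := by
    rw [Finset.sum_range fun i => (x k (i + 1) - x k i) * (H - y (k + 1) i)]
    rfl
  have s5 : ∑ p : Unit, (pos H k l x y (Sum.inr (Sum.inr (Sum.inr (Sum.inr p))))).area =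
      x k 0 * (H - y (k + 1) 0) := by
    simp only [Finset.univ_unique, Finset.sum_singleton]
    show (x k 0 - 0) * (H - y (k + 1) 0) = _
    ring
  rw [s1, s2, s3, s4, s5]
  have hA := area_below ha k
  have hW : x k 0 + ∑ i ∈ range (l + 1), (x k (i + 1) - x k i) = W := by
    rw [Finset.sum_range_sub (fun i => x k i), ha.xl]
    ring
  have s6 : ∑ i ∈ range (l + 1), (x k (i + 1) - x k i) * (H - y (k + 1) i) =
      (∑ i ∈ range (l + 1), (x k (i + 1) - x k i)) * H -
        ∑ i ∈ range (l + 1), (x k (i + 1) - x k i) * y (k + 1) i := by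
    rw [Finset.sum_mul, ← Finset.sum_sub_distrib]
    apply Finset.sum_congr rfl
    intro i _
    ring
  rw [s6]
  linear_combination (-1 : ℝ) * hA + H * hW

end

end Pool.Agent.Stair

namespace Pool.Agent.Moser

open Finset Pool.Agent.Shelf

/-- the staircase, all hypotheses global -/
theorem stair_dec_aux {W H : ℝ} {k l : ℕ} {x y : ℕ → ℕ → ℝ} (ha : Stair.Prof W H k l x y)
    (S : ℕ → ℕ → Multiset ℕ) (ρ : ℕ → ℕ → Multiset (ℝ × ℝ))
    (hd : ∀ r ≤ k, ∀ i ≤ l, Dec (x r (i + 1) - x r i) (y (r + 1) i - y r i) (S r i) (ρ r i)) :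
    Dec W H (∑ r ∈ range (k + 1), ∑ i ∈ range (l + 1), S r i)
      ((∑ r ∈ range (k + 1), ∑ i ∈ range (l + 1), ρ r i) +
        ((∑ r ∈ range k, ∑ i ∈ range l,
            {(x (r + 1) (i + 1) - x r (i + 1), y (r + 1) i - y (r + 1) (i + 1))}) +
          ((∑ r ∈ range (k + 1), {(x r 0, y (r + 1) 0 - y r 0)}) +
            ((∑ i ∈ range (l + 1), {(x k (i + 1) - x k i, H - y (k + 1) i)}) +
              {(x k 0, H - y (k + 1) 0)})))) := by
  have hWn : 0 ≤ W := by
    rw [← ha.xl 0]
    exact Stair.X_nonneg ha 0 (l + 1)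
  have hHn : 0 ≤ H := (Stair.Y_nonneg ha (k + 1) 0).trans ha.yt
  have key := Dec.packι (ι := Piece k l) (w := W) (h := H) (Stair.pos H k l x y)
    (fun p => match p with
      | Sum.inl (r, i) => S r i
      | _ => 0)
    (fun p => match p with
      | Sum.inl (r, i) => ρ r i
      | Sum.inr q => {((Stair.pos H k l x y (Sum.inr q)).w, (Stair.pos H k l x y (Sum.inr q)).h)})
    hWn hHn (Stair.inside ha) (Stair.apart ha) (Stair.area ha)
    (by
      intro p
      have hin := Stair.inside ha p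
      rcases p with ⟨r, i⟩ | q
      · exact hd r (by omega) i (by omega)
      · exact Dec.leaf hin.2.2.2.2.1 hin.2.2.2.2.2)
  have eS : (∑ p : Piece k l, (match p with
      | Sum.inl (r, i) => S r i
      | _ => 0)) = ∑ r ∈ range (k + 1), ∑ i ∈ range (l + 1), S r i := by
    rw [Fintype.sum_sum_type]
    have : ∑ q : (Fin k × Fin l) ⊕ Fin (k + 1) ⊕ Fin (l + 1) ⊕ Unit, (match
        (Sum.inr q : Piece k l) with
      | Sum.inl (r, i) => S r i
      | _ => 0) = 0 := Finset.sum_eq_zero fun q _ => rfl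
    rw [this, add_zero, Fintype.sum_prod_type,
      Finset.sum_range fun r => ∑ i ∈ range (l + 1), S r i]
    apply Finset.sum_congr rfl
    intro r _
    rw [Finset.sum_range fun i => S r i]
  have eρ : (∑ p : Piece k l, (match p with
      | Sum.inl (r, i) => ρ r i
      | Sum.inr q => {((Stair.pos H k l x y (Sum.inr q)).w,
          (Stair.pos H k l x y (Sum.inr q)).h)})) =
      (∑ r ∈ range (k + 1), ∑ i ∈ range (l + 1), ρ r i) +
        ((∑ r ∈ range k, ∑ i ∈ range l,
            {(x (r + 1) (i + 1) - x r (i + 1), y (r + 1) i - y (r + 1) (i + 1))}) +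
          ((∑ r ∈ range (k + 1), {(x r 0, y (r + 1) 0 - y r 0)}) +
            ((∑ i ∈ range (l + 1), {(x k (i + 1) - x k i, H - y (k + 1) i)}) +
              {(x k 0, H - y (k + 1) 0)}))) := by
    rw [Fintype.sum_sum_type, Fintype.sum_sum_type, Fintype.sum_sum_type, Fintype.sum_sum_type]
    congr 1
    · rw [Fintype.sum_prod_type, Finset.sum_range fun r => ∑ i ∈ range (l + 1), ρ r i]
      apply Finset.sum_congr rfl
      intro r _
      rw [Finset.sum_range fun i => ρ r i]
    · congr 1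
      · rw [Fintype.sum_prod_type, Finset.sum_range fun r => ∑ i ∈ range l,
          ({(x (r + 1) (i + 1) - x r (i + 1), y (r + 1) i - y (r + 1) (i + 1))} :
            Multiset (ℝ × ℝ))]
        apply Finset.sum_congr rfl
        intro r _
        rw [Finset.sum_range fun i => ({(x (r + 1) (i + 1) - x r (i + 1),
            y (r + 1) i - y (r + 1) (i + 1))} : Multiset (ℝ × ℝ))]
        rfl
      · congr 1
        · rw [Finset.sum_range fun r => ({(x r 0, y (r + 1) 0 - y r 0)} : Multiset (ℝ × ℝ))]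
          apply Finset.sum_congr rfl
          intro r _
          show ({(x r 0 - 0, y (r + 1) 0 - y r 0)} : Multiset (ℝ × ℝ)) = _
          rw [sub_zero]
        · congr 1
          · rw [Finset.sum_range fun i =>
              ({(x k (i + 1) - x k i, H - y (k + 1) i)} : Multiset (ℝ × ℝ))]
            rfl
          · simp only [Finset.univ_unique, Finset.sum_singleton]
            show ({(x k 0 - 0, H - y (k + 1) 0)} : Multiset (ℝ × ℝ)) = _
            rw [sub_zero]
  rw [eS, eρ] at key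
  exact key

/-- **Staircase.**  `x r i` (`r ≤ k`, `i ≤ l + 1`) are the left ends, `y r i` (`r ≤ k + 1`, `i ≤ l`)
the bottoms; the cell `(r, i)` is decomposed into the squares `S r i` and the rectangles `ρ r i`. -/
theorem stair_dec {W H : ℝ} {k l : ℕ} {x y : ℕ → ℕ → ℝ} (xn : 0 ≤ x 0 0)
    (xs : ∀ r ≤ k, ∀ i ≤ l, x r i ≤ x r (i + 1)) (xr : ∀ r < k, ∀ i ≤ l, x r i ≤ x (r + 1) i)
    (xl : ∀ r ≤ k, x r (l + 1) = W) (yz : ∀ i ≤ l, y 0 i = 0)
    (ys : ∀ r ≤ k, ∀ i ≤ l, y r i ≤ y (r + 1) i)
    (yc : ∀ r ≤ k + 1, ∀ i < l, y r (i + 1) ≤ y r i) (yt : y (k + 1) 0 ≤ H)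
    (S : ℕ → ℕ → Multiset ℕ) (ρ : ℕ → ℕ → Multiset (ℝ × ℝ))
    (hd : ∀ r ≤ k, ∀ i ≤ l, Dec (x r (i + 1) - x r i) (y (r + 1) i - y r i) (S r i) (ρ r i)) :
    Dec W H (∑ r ∈ range (k + 1), ∑ i ∈ range (l + 1), S r i)
      ((∑ r ∈ range (k + 1), ∑ i ∈ range (l + 1), ρ r i) +
        ((∑ r ∈ range k, ∑ i ∈ range l,
            {(x (r + 1) (i + 1) - x r (i + 1), y (r + 1) i - y (r + 1) (i + 1))}) +
          ((∑ r ∈ range (k + 1), {(x r 0, y (r + 1) 0 - y r 0)}) +
            ((∑ i ∈ range (l + 1), {(x k (i + 1) - x k i, H - y (k + 1) i)}) +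
              {(x k 0, H - y (k + 1) 0)})))) := by
  have ha : Stair.Prof W H k l (fun r i => x (min r k) (min i (l + 1)))
      (fun r i => y (min r (k + 1)) (min i l)) := by
    refine ⟨?_, ?_, ?_, ?_, ?_, ?_, ?_, ?_⟩
    · show 0 ≤ x (min 0 k) (min 0 (l + 1))
      rw [Nat.zero_min, Nat.zero_min]
      exact xn
    · intro r i
      show x (min r k) (min i (l + 1)) ≤ x (min r k) (min (i + 1) (l + 1))
      rcases Nat.lt_or_ge i (l + 1) with h | h
      · rw [min_eq_left h.le, min_eq_left (show i + 1 ≤ l + 1 by omega)]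
        exact xs _ (min_le_right _ _) i (by omega)
      · rw [min_eq_right h, min_eq_right (show l + 1 ≤ i + 1 by omega)]
    · intro r i
      show x (min r k) (min i (l + 1)) ≤ x (min (r + 1) k) (min i (l + 1))
      rcases Nat.lt_or_ge r k with h | h
      · rw [min_eq_left h.le, min_eq_left (show r + 1 ≤ k by omega)]
        rcases Nat.lt_or_ge i (l + 1) with h' | h'
        · rw [min_eq_left h'.le]
          exact xr r h i (by omega)
        · rw [min_eq_right h', xl r h.le, xl (r + 1) h]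
      · rw [min_eq_right h, min_eq_right (show k ≤ r + 1 by omega)]
    · intro r
      show x (min r k) (min (l + 1) (l + 1)) = W
      rw [min_self]
      exact xl _ (min_le_right _ _)
    · intro i
      show y (min 0 (k + 1)) (min i l) = 0
      rw [Nat.zero_min]
      exact yz _ (min_le_right _ _)
    · intro r i
      show y (min r (k + 1)) (min i l) ≤ y (min (r + 1) (k + 1)) (min i l)
      rcases Nat.lt_or_ge r (k + 1) with h | h
      · rw [min_eq_left h.le, min_eq_left (show r + 1 ≤ k + 1 by omega)]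
        exact ys r (by omega) _ (min_le_right _ _)
      · rw [min_eq_right h, min_eq_right (show k + 1 ≤ r + 1 by omega)]
    · intro r i
      show y (min r (k + 1)) (min (i + 1) l) ≤ y (min r (k + 1)) (min i l)
      rcases Nat.lt_or_ge i l with h | h
      · rw [min_eq_left h.le, min_eq_left (show i + 1 ≤ l by omega)]
        exact yc _ (min_le_right _ _) i h
      · rw [min_eq_right h, min_eq_right (show l ≤ i + 1 by omega)]
    · show y (min (k + 1) (k + 1)) (min 0 l) ≤ H
      rw [min_self, Nat.zero_min]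
      exact yt
  have hx : ∀ r ≤ k, ∀ i ≤ l + 1, x (min r k) (min i (l + 1)) = x r i := by
    intro r hr i hi
    rw [min_eq_left hr, min_eq_left hi]
  have hy : ∀ r ≤ k + 1, ∀ i ≤ l, y (min r (k + 1)) (min i l) = y r i := by
    intro r hr i hi
    rw [min_eq_left hr, min_eq_left hi]
  have key := stair_dec_aux ha S ρ (by
    intro r hr i hi
    simp only [hx r hr i (by omega), hx r hr (i + 1) (by omega), hy r (by omega) i hi,
      hy (r + 1) (by omega) i hi]
    exact hd r hr i hi)
  have e1 : (∑ r ∈ range k, ∑ i ∈ range l,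
      ({(x (min (r + 1) k) (min (i + 1) (l + 1)) - x (min r k) (min (i + 1) (l + 1)),
        y (min (r + 1) (k + 1)) (min i l) - y (min (r + 1) (k + 1)) (min (i + 1) l))} :
        Multiset (ℝ × ℝ))) = ∑ r ∈ range k, ∑ i ∈ range l,
            {(x (r + 1) (i + 1) - x r (i + 1), y (r + 1) i - y (r + 1) (i + 1))} := by
    apply Finset.sum_congr rfl
    intro r hr
    apply Finset.sum_congr rfl
    intro i hi
    rw [mem_range] at hr hi
    rw [hx (r + 1) (by omega) (i + 1) (by omega), hx r (by omega) (i + 1) (by omega),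
      hy (r + 1) (by omega) i (by omega), hy (r + 1) (by omega) (i + 1) (by omega)]
  have e2 : (∑ r ∈ range (k + 1), ({(x (min r k) (min 0 (l + 1)),
      y (min (r + 1) (k + 1)) (min 0 l) - y (min r (k + 1)) (min 0 l))} : Multiset (ℝ × ℝ))) =
      ∑ r ∈ range (k + 1), {(x r 0, y (r + 1) 0 - y r 0)} := by
    apply Finset.sum_congr rfl
    intro r hr
    rw [mem_range] at hr
    rw [hx r (by omega) 0 (by omega), hy (r + 1) (by omega) 0 (by omega),
      hy r (by omega) 0 (by omega)]
  have e3 : (∑ i ∈ range (l + 1), ({(x (min k k) (min (i + 1) (l + 1)) - x (min k k)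
      (min i (l + 1)), H - y (min (k + 1) (k + 1)) (min i l))} : Multiset (ℝ × ℝ))) =
      ∑ i ∈ range (l + 1), {(x k (i + 1) - x k i, H - y (k + 1) i)} := by
    apply Finset.sum_congr rfl
    intro i hi
    rw [mem_range] at hi
    rw [hx k le_rfl (i + 1) (by omega), hx k le_rfl i (by omega),
      hy (k + 1) le_rfl i (by omega)]
  have e4 : ({(x (min k k) (min 0 (l + 1)), H - y (min (k + 1) (k + 1)) (min 0 l))} :
      Multiset (ℝ × ℝ)) = {(x k 0, H - y (k + 1) 0)} := by
    rw [hx k le_rfl 0 (by omega), hy (k + 1) le_rfl 0 (by omega)]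
  simp only [e1, e2, e3, e4] at key
  exact key

/-! ### Staircase blocks of squares -/

/-- degenerate rectangle -/
theorem Dec.nil_left {a : ℝ} (ha : 0 ≤ a) : Dec 0 a 0 0 := by
  have := Dec.pack (w := 0) (h := a) (n := 0) (fun i => i.elim0) (fun i => i.elim0)
    (fun i => i.elim0) (fun i => i.elim0) (fun i => i.elim0) (fun i => i.elim0) le_rfl ha
    (fun i => i.elim0) (fun i => i.elim0) (by simp) (fun i => i.elim0)
  simpa using this

theorem Dec.nil_right {a : ℝ} (ha : 0 ≤ a) : Dec a 0 0 0 := (Dec.nil_left ha).turn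

/-- degenerate rectangles can be dropped -/
theorem Dec.drop {w h : ℝ} {S : Multiset ℕ} (Z ρ : Multiset (ℝ × ℝ))
    (hZ : ∀ r ∈ Z, r.1 = 0 ∨ r.2 = 0) (hd : Dec w h S (Z + ρ)) : Dec w h S ρ := by
  induction Z using Multiset.induction_on with
  | empty => rwa [zero_add] at hd
  | cons r Z ih =>
    rw [Multiset.cons_add] at hd
    have h1 := hd.rect_nonneg r (Multiset.mem_cons_self r _)
    have h2 : Dec r.1 r.2 0 0 := by
      rcases hZ r (Multiset.mem_cons_self r _) with h | h
      · rw [h]; exact Dec.nil_left h1.2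
      · rw [h]; exact Dec.nil_right h1.1
    have h3 := hd.subst r (Z + ρ) 0 0 rfl h2
    rw [zero_add, zero_add] at h3
    exact ih (fun x hx => hZ x (Multiset.mem_cons_of_mem hx)) h3

theorem Ref.drop {a b : ℝ} (ha : 0 ≤ a) (hb : 0 ≤ b) (h : a = 0 ∨ b = 0) :
    Ref {(a, b)} 0 0 := by
  apply Ref.of_dec
  rcases h with h | h
  · rw [h]; exact Dec.nil_left hb
  · rw [h]; exact Dec.nil_right ha

section

variable (H : ℝ) (k l : ℕ) (m : ℕ → ℕ → ℕ) (c : ℕ → ℕ)

/-- width of the cell `(r, i)` -/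
noncomputable def sA (r i : ℕ) : ℝ := 1 / (m (min r (c i - 1)) i : ℝ)

/-- distance of the cell `(r, i)` from the right border -/
noncomputable def sX (r i : ℕ) : ℝ := ∑ j ∈ Ico i (l + 1), sA m c r j

/-- height of the column `i` -/
noncomputable def sC (i : ℕ) : ℝ := ∑ t ∈ range (c i), 1 / (m t i : ℝ)

/-- bottom of the cell `(r, i)` -/
noncomputable def sH (r i : ℕ) : ℝ := if r ≤ c i then ∑ t ∈ range r, 1 / (m t i : ℝ) else H

end

/-- **Staircase block.**  Column `i` (`i ≤ l`) consists of the `c i` squares `m 0 i .. m (c i - 1) i`,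
`1 ≤ c 0 ≤ c 1 ≤ .. ≤ c l = k + 1`; the rows are aligned to the right. -/
theorem stair_block {H : ℝ} {k l : ℕ} {m : ℕ → ℕ → ℕ} {c : ℕ → ℕ}
    (hpos : ∀ i ≤ l, ∀ r < c i, 0 < m r i) (hrow : ∀ i ≤ l, ∀ r, r + 1 < c i → m r i ≤ m (r + 1) i)
    (hcol : ∀ i < l, ∀ r < c i, m r i ≤ m r (i + 1))
    (hc0 : 1 ≤ c 0) (hc : ∀ i < l, c i ≤ c (i + 1)) (hcl : c l = k + 1)
    (hH : ∀ i ≤ l, sC m c i ≤ H) :
    Dec (sX l m c 0 0) H (∑ i ∈ range (l + 1), ∑ r ∈ range (c i), {m r i})
      ((∑ i ∈ range (l + 1), {(1 / (m (c i - 1) i : ℝ), H - sC m c i)}) +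
        ((∑ r ∈ range k, ∑ i ∈ range l, {(sX l m c r (i + 1) - sX l m c (r + 1) (i + 1),
            sH H m c (r + 1) i - sH H m c (r + 1) (i + 1))}) +
          ((∑ r ∈ range k, {(sX l m c 0 0 - sX l m c (r + 1) 0,
              sH H m c (r + 2) 0 - sH H m c (r + 1) 0)}) +
            (if c 0 = k + 1 then {(sX l m c 0 0 - sX l m c k 0, H - sC m c 0)} else 0)))) := by
  -- the columns
  have hcm : ∀ i j, i ≤ j → j ≤ l → c i ≤ c j := by
    intro i j hij
    induction j, hij using Nat.le_induction with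
    | base => intro _; exact le_rfl
    | succ j hij ih =>
      intro hj
      exact (ih (by omega)).trans (hc j (by omega))
  have hc1 : ∀ i ≤ l, 1 ≤ c i := fun i hi => hc0.trans (hcm 0 i (Nat.zero_le i) hi)
  have hck : ∀ i ≤ l, c i ≤ k + 1 := fun i hi => hcl ▸ hcm i l hi le_rfl
  have hsq : ∀ i ≤ l, ∀ r < c i, 0 ≤ 1 / (m r i : ℝ) := fun i _ r _ => by positivity
  have hrow' : ∀ i ≤ l, ∀ r s, r ≤ s → s < c i → m r i ≤ m s i := by
    intro i hi r s hrs
    induction s, hrs using Nat.le_induction with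
    | base => intro _; exact le_rfl
    | succ s hrs ih =>
      intro hs
      exact (ih (by omega)).trans (hrow i hi s hs)
  have hA_nonneg : ∀ r i, 0 ≤ sA m c r i := fun r i => by unfold sA; positivity
  have hA_row : ∀ r, ∀ i ≤ l, sA m c (r + 1) i ≤ sA m c r i := by
    intro r i hi
    have h1 := hc1 i hi
    unfold sA
    have h2 : min r (c i - 1) < c i := lt_of_le_of_lt (min_le_right _ _) (by omega)
    apply one_div_le_one_div_of_le
    · exact_mod_cast hpos i hi _ h2
    · exact_mod_cast hrow' i hi _ _ (min_le_min_right _ (Nat.le_succ r))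
        (lt_of_le_of_lt (min_le_right _ _) (by omega))
  have hX_row : ∀ r i, sX l m c (r + 1) i ≤ sX l m c r i := by
    intro r i
    unfold sX
    apply Finset.sum_le_sum
    intro j hj
    rw [mem_Ico] at hj
    exact hA_row r j (by omega)
  have hX_succ : ∀ r, ∀ i ≤ l, sX l m c r i = sA m c r i + sX l m c r (i + 1) := by
    intro r i hi
    unfold sX
    rw [Finset.sum_eq_sum_Ico_succ_bot (by omega)]
  -- heights
  have hCc : ∀ i < l, ∀ r ≤ c i, ∑ t ∈ range r, 1 / (m t (i + 1) : ℝ) ≤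
      ∑ t ∈ range r, 1 / (m t i : ℝ) := by
    intro i hi r hr
    apply Finset.sum_le_sum
    intro t ht
    rw [mem_range] at ht
    apply one_div_le_one_div_of_le
    · exact_mod_cast hpos i hi.le t (by omega)
    · exact_mod_cast hcol i hi t (by omega)
  have hPle : ∀ i ≤ l, ∀ r ≤ c i, ∑ t ∈ range r, 1 / (m t i : ℝ) ≤ H := by
    intro i hi r hr
    refine le_trans ?_ (hH i hi)
    unfold sC
    apply Finset.sum_le_sum_of_subset_of_nonneg
    · intro t ht
      rw [mem_range] at ht ⊢
      omega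
    · intro t _ _
      positivity
  have hHle : ∀ r, ∀ i ≤ l, sH H m c r i ≤ H := by
    intro r i hi
    unfold sH
    split_ifs with h
    · exact hPle i hi r h
    · exact le_rfl
  have hH0 : ∀ i, sH H m c 0 i = 0 := by
    intro i
    unfold sH
    rw [if_pos (Nat.zero_le _)]
    simp
  have hHlt : ∀ r i, r + 1 ≤ c i → sH H m c (r + 1) i = sH H m c r i + 1 / (m r i : ℝ) := by
    intro r i h
    unfold sH
    rw [if_pos h, if_pos (show r ≤ c i by omega), Finset.sum_range_succ]
  have hHeq : ∀ i, sH H m c (c i) i = sC m c i := by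
    intro i
    unfold sH
    rw [if_pos le_rfl]
    rfl
  have hHgt : ∀ r i, c i < r → sH H m c r i = H := by
    intro r i h
    unfold sH
    rw [if_neg (by omega)]
  have hX_last : ∀ r, sX l m c r (l + 1) = 0 := by
    intro r
    unfold sX
    simp
  have hX_same : ∀ i, sX l m c (k + 1) i = sX l m c k i := by
    intro i
    unfold sX
    apply Finset.sum_congr rfl
    intro j hj
    rw [mem_Ico] at hj
    have h1 := hck j (by omega)
    unfold sA
    rw [min_eq_right (show c j - 1 ≤ k + 1 by omega), min_eq_right (show c j - 1 ≤ k by omega)]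
  have key := stair_dec (W := sX l m c 0 0) (H := H) (k := k + 1) (l := l)
    (x := fun r i => sX l m c 0 0 - sX l m c r i) (y := sH H m c)
    (by simp)
    (by
      intro r _ i hi
      have := hX_succ r i hi
      have := hA_nonneg r i
      show sX l m c 0 0 - sX l m c r i ≤ sX l m c 0 0 - sX l m c r (i + 1)
      linarith)
    (by
      intro r _ i hi
      have := hX_row r i
      show sX l m c 0 0 - sX l m c r i ≤ sX l m c 0 0 - sX l m c (r + 1) i
      linarith)
    (by
      intro r _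
      show sX l m c 0 0 - sX l m c r (l + 1) = sX l m c 0 0
      rw [hX_last, sub_zero])
    (fun i _ => hH0 i)
    (by
      intro r _ i hi
      rcases Nat.lt_or_ge r (c i) with h | h
      · rw [hHlt r i h]
        have := hsq i hi r h
        linarith
      · rw [hHgt (r + 1) i (by omega)]
        exact hHle r i hi)
    (by
      intro r _ i hi
      rcases Nat.lt_or_ge (c i) r with h | h
      · rw [hHgt r i h]
        exact hHle r (i + 1) (by omega)
      · unfold sH
        rw [if_pos h, if_pos (h.trans (hc i hi))]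
        exact hCc i hi r h)
    (hHle _ 0 (Nat.zero_le l))
    (fun r i => if r < c i then {m r i} else 0)
    (fun r i => if r = c i then {(1 / (m (c i - 1) i : ℝ), H - sC m c i)} else 0)
    (by
      intro r hr i hi
      show Dec (sX l m c 0 0 - sX l m c r (i + 1) - (sX l m c 0 0 - sX l m c r i))
        (sH H m c (r + 1) i - sH H m c r i) _ _
      have e1 : sX l m c 0 0 - sX l m c r (i + 1) - (sX l m c 0 0 - sX l m c r i) = sA m c r i := by
        have := hX_succ r i hi
        linarith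
      rw [e1]
      have hci := hc1 i hi
      rcases Nat.lt_trichotomy r (c i) with h | h | h
      · rw [if_pos h, if_neg (by omega), hHlt r i h, add_sub_cancel_left]
        have e2 : sA m c r i = 1 / (m r i : ℝ) := by
          unfold sA
          rw [min_eq_left (show r ≤ c i - 1 by omega)]
        rw [e2]
        exact Dec.sq _
      · rw [if_neg (by omega), if_pos h, h, hHgt (c i + 1) i (by omega), hHeq]
        have e2 : sA m c (c i) i = 1 / (m (c i - 1) i : ℝ) := by
          unfold sA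
          rw [min_eq_right (show c i - 1 ≤ c i by omega)]
        rw [e2]
        apply Dec.leaf
        · positivity
        · have := hH i hi
          linarith
      · rw [if_neg (by omega), if_neg (by omega), hHgt (r + 1) i (by omega), hHgt r i h, sub_self]
        exact Dec.nil_right (hA_nonneg r i))
  -- the squares
  have eS : (∑ r ∈ range (k + 1 + 1), ∑ i ∈ range (l + 1),
      (if r < c i then ({m r i} : Multiset ℕ) else 0)) =
      ∑ i ∈ range (l + 1), ∑ r ∈ range (c i), {m r i} := by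
    rw [Finset.sum_comm]
    apply Finset.sum_congr rfl
    intro i hi
    rw [mem_range] at hi
    have h1 := hck i (by omega)
    rw [← Finset.sum_filter]
    apply Finset.sum_congr _ (fun _ _ => rfl)
    ext r
    rw [mem_filter, mem_range, mem_range]
    omega
  -- the top gaps
  have eT : (∑ r ∈ range (k + 1 + 1), ∑ i ∈ range (l + 1),
      (if r = c i then ({(1 / (m (c i - 1) i : ℝ), H - sC m c i)} : Multiset (ℝ × ℝ)) else 0)) =
      ∑ i ∈ range (l + 1), {(1 / (m (c i - 1) i : ℝ), H - sC m c i)} := by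
    rw [Finset.sum_comm]
    apply Finset.sum_congr rfl
    intro i hi
    rw [mem_range] at hi
    have h1 := hck i (by omega)
    rw [Finset.sum_ite_eq' (range (k + 1 + 1)) (c i)
      (fun _ => ({(1 / (m (c i - 1) i : ℝ), H - sC m c i)} : Multiset (ℝ × ℝ))),
      if_pos (mem_range.2 (by omega))]
  rw [eS, eT] at key
  -- simplify the pockets
  have eP : ∀ r i, (sX l m c 0 0 - sX l m c (r + 1) (i + 1) - (sX l m c 0 0 - sX l m c r (i + 1)),
      sH H m c (r + 1) i - sH H m c (r + 1) (i + 1)) = (sX l m c r (i + 1) - sX l m c (r + 1) (i + 1),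
      sH H m c (r + 1) i - sH H m c (r + 1) (i + 1)) := by
    intro r i
    rw [Prod.mk.injEq]
    exact ⟨by ring, rfl⟩
  simp only [eP] at key
  rw [Finset.sum_range_succ (fun r => ∑ i ∈ range l, ({(sX l m c r (i + 1) -
      sX l m c (r + 1) (i + 1), sH H m c (r + 1) i - sH H m c (r + 1) (i + 1))} :
        Multiset (ℝ × ℝ))) k,
    Finset.sum_range_succ' (fun r => ({(sX l m c 0 0 - sX l m c r 0,
      sH H m c (r + 1) 0 - sH H m c r 0)} : Multiset (ℝ × ℝ))) (k + 1),
    Finset.sum_range_succ (fun r => ({(sX l m c 0 0 - sX l m c (r + 1) 0,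
      sH H m c (r + 1 + 1) 0 - sH H m c (r + 1) 0)} : Multiset (ℝ × ℝ))) k] at key
  set T := ∑ i ∈ range (l + 1), ({(1 / (m (c i - 1) i : ℝ), H - sC m c i)} : Multiset (ℝ × ℝ))
    with hT
  set P := ∑ r ∈ range k, ∑ i ∈ range l, ({(sX l m c r (i + 1) - sX l m c (r + 1) (i + 1),
            sH H m c (r + 1) i - sH H m c (r + 1) (i + 1))} : Multiset (ℝ × ℝ)) with hP
  set Lf := ∑ r ∈ range k, ({(sX l m c 0 0 - sX l m c (r + 1) 0,
              sH H m c (r + 2) 0 - sH H m c (r + 1) 0)} : Multiset (ℝ × ℝ)) with hLf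
  set Z1 := ∑ i ∈ range l, ({(sX l m c k (i + 1) - sX l m c (k + 1) (i + 1),
    sH H m c (k + 1) i - sH H m c (k + 1) (i + 1))} : Multiset (ℝ × ℝ)) with hZ1
  set Z2 : Multiset (ℝ × ℝ) := {(sX l m c 0 0 - sX l m c 0 0,
    sH H m c (0 + 1) 0 - sH H m c 0 0)} with hZ2
  set Z3 := ∑ i ∈ range (l + 1), ({(sX l m c 0 0 - sX l m c (k + 1) (i + 1) -
    (sX l m c 0 0 - sX l m c (k + 1) i), H - sH H m c (k + 1 + 1) i)} : Multiset (ℝ × ℝ)) with hZ3
  set Z4 : Multiset (ℝ × ℝ) := {(sX l m c 0 0 - sX l m c (k + 1) 0,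
    H - sH H m c (k + 1 + 1) 0)} with hZ4
  set Co : Multiset (ℝ × ℝ) := {(sX l m c 0 0 - sX l m c (k + 1) 0,
    sH H m c (k + 1 + 1) 0 - sH H m c (k + 1) 0)} with hCo
  have hz1 : ∀ r ∈ Z1, r.1 = 0 ∨ r.2 = 0 := by
    intro r hr
    rw [hZ1, Multiset.mem_sum] at hr
    obtain ⟨i, _, hi⟩ := hr
    rw [Multiset.mem_singleton] at hi
    left
    rw [hi]
    show sX l m c k (i + 1) - sX l m c (k + 1) (i + 1) = 0
    rw [hX_same, sub_self]
  have hz2 : ∀ r ∈ Z2, r.1 = 0 ∨ r.2 = 0 := by
    intro r hr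
    rw [hZ2, Multiset.mem_singleton] at hr
    left
    rw [hr]
    exact sub_self _
  have hz3 : ∀ r ∈ Z3, r.1 = 0 ∨ r.2 = 0 := by
    intro r hr
    rw [hZ3, Multiset.mem_sum] at hr
    obtain ⟨i, hi0, hi⟩ := hr
    rw [mem_range] at hi0
    rw [Multiset.mem_singleton] at hi
    right
    rw [hi]
    show H - sH H m c (k + 1 + 1) i = 0
    have := hck i (by omega)
    rw [hHgt _ _ (by omega), sub_self]
  have hz4 : ∀ r ∈ Z4, r.1 = 0 ∨ r.2 = 0 := by
    intro r hr
    rw [hZ4, Multiset.mem_singleton] at hr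
    right
    rw [hr]
    show H - sH H m c (k + 1 + 1) 0 = 0
    have := hck 0 (Nat.zero_le l)
    rw [hHgt _ _ (by omega), sub_self]
  have eAll : T + (P + Z1 + (Lf + Co + Z2 + (Z3 + Z4))) =
      Z1 + (Z2 + (Z3 + (Z4 + (T + (P + (Lf + Co)))))) := by
    abel
  rw [eAll] at key
  have key2 := Dec.drop _ _ hz4 (Dec.drop _ _ hz3 (Dec.drop _ _ hz2 (Dec.drop _ _ hz1 key)))
  have hk0 := hck 0 (Nat.zero_le l)
  by_cases h0 : c 0 = k + 1
  · rw [if_pos h0]
    have e : Co = {(sX l m c 0 0 - sX l m c k 0, H - sC m c 0)} := by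
      rw [hCo, hX_same, hHgt (k + 1 + 1) 0 (by omega), ← hHeq 0, h0]
    rw [e] at key2
    exact key2
  · rw [if_neg h0]
    have hzc : ∀ r ∈ Co, r.1 = 0 ∨ r.2 = 0 := by
      intro r hr
      rw [hCo, Multiset.mem_singleton] at hr
      right
      rw [hr]
      show sH H m c (k + 1 + 1) 0 - sH H m c (k + 1) 0 = 0
      rw [hHgt _ _ (by omega), hHgt _ _ (by omega), sub_self]
    have eAll2 : T + (P + (Lf + Co)) = Co + (T + (P + (Lf + 0))) := by
      rw [add_zero]
      abel
    rw [eAll2] at key2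
    exact Dec.drop _ _ hzc key2

/-- **Staircase block of consecutive squares.**  Column `i` consists of `q i, .., q i + c i - 1`. -/
theorem stair_block' {H : ℝ} {k l : ℕ} {q c : ℕ → ℕ} (hq0 : 0 < q 0)
    (hq : ∀ i < l, q i ≤ q (i + 1))
    (hc0 : 1 ≤ c 0) (hc : ∀ i < l, c i ≤ c (i + 1)) (hcl : c l = k + 1)
    (hH : ∀ i ≤ l, sC (fun r i => q i + r) c i ≤ H) :
    Dec (sX l (fun r i => q i + r) c 0 0) H (∑ i ∈ range (l + 1), (Ico (q i) (q i + c i)).val)
      ((∑ i ∈ range (l + 1), {(1 / ((q i + (c i - 1) : ℕ) : ℝ),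
          H - sC (fun r i => q i + r) c i)}) +
        ((∑ r ∈ range k, ∑ i ∈ range l,
            {(sX l (fun r i => q i + r) c r (i + 1) - sX l (fun r i => q i + r) c (r + 1) (i + 1),
            sH H (fun r i => q i + r) c (r + 1) i - sH H (fun r i => q i + r) c (r + 1) (i + 1))}) +
          ((∑ r ∈ range k, {(sX l (fun r i => q i + r) c 0 0 -
              sX l (fun r i => q i + r) c (r + 1) 0,
              sH H (fun r i => q i + r) c (r + 2) 0 - sH H (fun r i => q i + r) c (r + 1) 0)}) +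
            (if c 0 = k + 1 then {(sX l (fun r i => q i + r) c 0 0 -
              sX l (fun r i => q i + r) c k 0, H - sC (fun r i => q i + r) c 0)} else 0)))) := by
  have hq' : ∀ i ≤ l, 0 < q i := by
    intro i
    induction i with
    | zero => intro _; exact hq0
    | succ i ih => intro hi; exact lt_of_lt_of_le (ih (by omega)) (hq i (by omega))
  have key := stair_block (H := H) (k := k) (l := l) (m := fun r i => q i + r) (c := c)
    (fun i hi r _ => Nat.add_pos_left (hq' i hi) r)
    (fun i _ r _ => Nat.le_succ (q i + r))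
    (fun i hi r _ => Nat.add_le_add_right (hq i hi) r) hc0 hc hcl hH
  have e : ∑ i ∈ range (l + 1), ∑ r ∈ range (c i), ({q i + r} : Multiset ℕ) =
      ∑ i ∈ range (l + 1), (Ico (q i) (q i + c i)).val := by
    apply Finset.sum_congr rfl
    intro i _
    have h1 : ∑ x ∈ Ico (q i) (q i + c i), ({x} : Multiset ℕ) = (Ico (q i) (q i + c i)).val := by
      rw [Finset.sum_eq_multiset_sum, Multiset.sum_map_singleton]
    rw [← h1, Finset.sum_Ico_eq_sum_range, Nat.add_sub_cancel_left]
  have e2 : (∑ i ∈ range (l + 1), ∑ r ∈ range (c i), ({(fun r i => q i + r) r i} : Multiset ℕ)) =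
      ∑ i ∈ range (l + 1), (Ico (q i) (q i + c i)).val := e
  rw [e2] at key
  exact key

end Pool.Agent.Moser
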