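import Pool.Agent.Lib_MP_cc07e8_co.Geo

/-!
# MP_cc07e8_co, full problem: definitions of the engine (time from `tau 10320 = 40707584` on)

* `tau i`: the windows are `[tau i, tau (i + 1))`; `DD i`: number of squares in the range of a strip
  of window `i` (the windows `i + 4 .. i + 15`).
* strips are pairs `(w, l)`, `w` the width, `l` the length.
* `xx k r`: load of the row `k` by the strip `r`; `phi k i`: bound for the load of row `k` by all
  children of one slot-per-square strip of window `i`; `yy k r`: expected load of row `k` by the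
  children of the strip `r`.
-/

namespace Pool.Agent.Moser.Eng

/-- window boundaries, multiples of 64, about `i ^ 3 / 27000` -/
def tau (i : ℕ) : ℕ := 64 * (i ^ 3 / 1728000)

/-- number of squares in the range of a strip of window `i` -/
def DD (i : ℕ) : ℕ := tau (i + 16) - tau (i + 4)

/-- a strip of width `w` is in window `i`: `tau i ≤ 1 / w < tau (i + 1)` -/
def InW (i : ℕ) (w : ℝ) : Prop := (tau i : ℝ) * w ≤ 1 ∧ 1 < (tau (i + 1) : ℝ) * w

/-- number of slots of a strip of window `i` and length `l` -/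
noncomputable def slots (i : ℕ) (l : ℝ) : ℕ := ⌊l * (tau (i + 16) : ℝ)⌋₊

open Classical in
/-- load of the row `k` by the strip `r = (w, l)` -/
noncomputable def xx (k : ℕ) (r : ℝ × ℝ) : ℝ :=
  ∑ i ∈ Finset.Icc (k - 15) (k - 4), if InW i r.1 then (slots i r.2 : ℝ) / (DD i : ℝ) else 0

open Classical in
/-- bound for the total load of the row `k` by the children `(w - 1 / q, 1 / q)`, `q` in the range
of window `i`, of a strip of window `i` -/
noncomputable def phi (k i : ℕ) : ℝ :=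
  if 8.95 * (k : ℝ) ^ 3 ≤ (i : ℝ) ^ 4 ∧ (i : ℝ) ^ 4 ≤ 48.2 * (k : ℝ) ^ 3 then
    (1.0015 + 800 / (k : ℝ)) * ((i : ℝ) ^ 3 / (k : ℝ) ^ 3 + 750 * (k : ℝ) / (i : ℝ) ^ 3)
  else 0

open Classical in
/-- expected load of the row `k` by the children of the strip `r` -/
noncomputable def yy (k : ℕ) (r : ℝ × ℝ) : ℝ :=
  ∑ i ∈ Finset.Ico 10320 k, if InW i r.1 then (slots i r.2 : ℝ) / (DD i : ℝ) * phi k i else 0

/-- total load of the row `k` -/
noncomputable def XX (k : ℕ) (S : Multiset (ℝ × ℝ)) : ℝ := (S.map (xx k)).sum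

/-- total expected load of the row `k` by children -/
noncomputable def YY (k : ℕ) (S : Multiset (ℝ × ℝ)) : ℝ := (S.map (yy k)).sum

/-- what the explicit part has to deliver: the rectangle `a × b` is decomposed into the squares
`2 .. tau 10320 - 1`, the main rectangle `X × Y` and the strips `G`, with bounds for the row loads -/
structure Start (a b X Y : ℝ) (G : Multiset (ℝ × ℝ)) : Prop where
  area : a * b = Real.pi ^ 2 / 6 - 1
  dec : Dec a b (Finset.Ico 2 (tau 10320)).val ((X, Y) ::ₘ G)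
  hY : 0 < Y
  hXY : Y ≤ X
  hX : X ≤ 3 / 2 * Y
  hS : X + Y ≤ 0.00028
  strip : ∀ r ∈ G, 0 < r.1 ∧ (tau 10320 : ℝ) * r.1 ≤ 1 ∧ 0 ≤ r.2
  width : (G.map Prod.fst).sum ≤ 0.0038
  rowA : ∀ k : ℕ, 10320 ≤ k → k < 61730 → XX k G ≤ 0.42
  rowB : ∀ k : ℕ, 61730 ≤ k → k < 80000 → XX k G + YY k G ≤ 0.51
  rowC : ∀ k : ℕ, 80000 ≤ k → k < 119940 → XX k G + YY k G ≤ 0.5602
  rowC2 : ∀ k : ℕ, 119940 ≤ k → k < 160000 → XX k G + YY k G ≤ 0.5535
  rowD : ∀ k : ℕ, 160000 ≤ k → k < 670000 → XX k G + YY k G ≤ 0.5538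
  rowE : ∀ k : ℕ, 670000 ≤ k → k < 946000 → XX k G ≤ 0.09
  rowF : ∀ k : ℕ, 946000 ≤ k → k < 1600000 → XX k G ≤ 0.0235
  rowG : ∀ k : ℕ, 1600000 ≤ k → k < 16000000 → XX k G ≤ 0.03
  rowH : ∀ k : ℕ, 16000000 ≤ k → XX k G ≤ 0.015

end Pool.Agent.Moser.Eng
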