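import Mathlib

/-!
# MP_cc07e8_co (Moser, squares of side 1/n): decompositions of rectangles

`Dec w h S ρ`: the rectangle `w × h` is decomposed into the squares of side `1 / m`, `m ∈ S`, and the
rectangles of `ρ` (pairs of side lengths; degenerate rectangles are allowed; rectangles may be turned).
`DecL cs S ρ`: the same for a list `cs` of containers.
`Ref ρ S σ`: the rectangles `ρ` can be refined to the squares `S` and the rectangles `σ`.
-/

namespace Pool.Agent.Moser

/-- Two placed boxes `[x, x + a] × [y, y + b]` and `[x', x' + a'] × [y', y' + b']` are separated. -/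
def Sep (x y a b x' y' a' b' : ℝ) : Prop :=
  x + a ≤ x' ∨ x' + a' ≤ x ∨ y + b ≤ y' ∨ y' + b' ≤ y

/-- The rectangle `w × h` is decomposed into squares of side `1 / m` (`m ∈ S`) and rectangles `ρ`. -/
inductive Dec : ℝ → ℝ → Multiset ℕ → Multiset (ℝ × ℝ) → Prop
  | leaf {w h : ℝ} (hw : 0 ≤ w) (hh : 0 ≤ h) : Dec w h 0 {(w, h)}
  | sq (m : ℕ) : Dec (1 / (m : ℝ)) (1 / (m : ℝ)) {m} 0
  | turn {w h : ℝ} {S : Multiset ℕ} {ρ : Multiset (ℝ × ℝ)} : Dec w h S ρ → Dec h w S ρ
  | pack {w h : ℝ} {n : ℕ} (X Y A B : Fin n → ℝ) (S : Fin n → Multiset ℕ)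
      (ρ : Fin n → Multiset (ℝ × ℝ)) (hw : 0 ≤ w) (hh : 0 ≤ h)
      (hin : ∀ i, 0 ≤ X i ∧ X i + A i ≤ w ∧ 0 ≤ Y i ∧ Y i + B i ≤ h)
      (hsep : ∀ i j, i ≠ j → Sep (X i) (Y i) (A i) (B i) (X j) (Y j) (A j) (B j))
      (harea : ∑ i, A i * B i = w * h) (hdec : ∀ i, Dec (A i) (B i) (S i) (ρ i)) :
      Dec w h (∑ i, S i) (∑ i, ρ i)

/-- The containers `cs` are decomposed into squares of side `1 / m` (`m ∈ S`) and rectangles `ρ`. -/
inductive DecL : List (ℝ × ℝ) → Multiset ℕ → Multiset (ℝ × ℝ) → Prop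
  | nil : DecL [] 0 0
  | cons {w h : ℝ} {cs : List (ℝ × ℝ)} {S T : Multiset ℕ} {ρ σ : Multiset (ℝ × ℝ)} :
      Dec w h S ρ → DecL cs T σ → DecL ((w, h) :: cs) (S + T) (ρ + σ)

/-- The rectangles `ρ` can be refined to the squares `S` and the rectangles `σ`. -/
def Ref (ρ : Multiset (ℝ × ℝ)) (S : Multiset ℕ) (σ : Multiset (ℝ × ℝ)) : Prop :=
  ∀ (cs : List (ℝ × ℝ)) (T : Multiset ℕ) (τ : Multiset (ℝ × ℝ)),
    DecL cs T (ρ + τ) → DecL cs (S + T) (σ + τ)

/-- total area -/
noncomputable def area (ρ : Multiset (ℝ × ℝ)) : ℝ := (ρ.map fun r => r.1 * r.2).sum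

/-- total area of the squares -/
noncomputable def sqa (S : Multiset ℕ) : ℝ := (S.map fun m => (1 / (m : ℝ)) ^ 2).sum

@[simp] theorem area_zero : area 0 = 0 := by simp [area]

@[simp] theorem area_add (ρ σ : Multiset (ℝ × ℝ)) : area (ρ + σ) = area ρ + area σ := by
  simp [area]

@[simp] theorem area_singleton (r : ℝ × ℝ) : area {r} = r.1 * r.2 := by simp [area]

@[simp] theorem area_cons (r : ℝ × ℝ) (ρ : Multiset (ℝ × ℝ)) :
    area (r ::ₘ ρ) = r.1 * r.2 + area ρ := by simp [area]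

@[simp] theorem sqa_zero : sqa 0 = 0 := by simp [sqa]

@[simp] theorem sqa_add (S T : Multiset ℕ) : sqa (S + T) = sqa S + sqa T := by simp [sqa]

@[simp] theorem sqa_singleton (m : ℕ) : sqa {m} = (1 / (m : ℝ)) ^ 2 := by simp [sqa]

/-- `area` as an additive homomorphism -/
noncomputable def areaHom : Multiset (ℝ × ℝ) →+ ℝ := ⟨⟨area, area_zero⟩, area_add⟩

/-- `sqa` as an additive homomorphism -/
noncomputable def sqaHom : Multiset ℕ →+ ℝ := ⟨⟨sqa, sqa_zero⟩, sqa_add⟩

theorem area_sum {ι : Type} (s : Finset ι) (f : ι → Multiset (ℝ × ℝ)) :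
    area (∑ i ∈ s, f i) = ∑ i ∈ s, area (f i) := map_sum areaHom f s

theorem sqa_sum {ι : Type} (s : Finset ι) (f : ι → Multiset ℕ) :
    sqa (∑ i ∈ s, f i) = ∑ i ∈ s, sqa (f i) := map_sum sqaHom f s

theorem Dec.nonneg {w h : ℝ} {S : Multiset ℕ} {ρ : Multiset (ℝ × ℝ)} (hd : Dec w h S ρ) :
    0 ≤ w ∧ 0 ≤ h := by
  induction hd with
  | leaf hw hh => exact ⟨hw, hh⟩
  | sq m => exact ⟨by positivity, by positivity⟩
  | turn _ ih => exact ⟨ih.2, ih.1⟩
  | pack X Y A B S ρ hw hh hin hsep harea hdec ih => exact ⟨hw, hh⟩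

/-- the rectangles of a decomposition have nonnegative sides -/
theorem Dec.rect_nonneg {w h : ℝ} {S : Multiset ℕ} {ρ : Multiset (ℝ × ℝ)} (hd : Dec w h S ρ) :
    ∀ r ∈ ρ, 0 ≤ r.1 ∧ 0 ≤ r.2 := by
  induction hd with
  | leaf hw hh =>
    intro r hr
    rw [Multiset.mem_singleton] at hr
    rw [hr]
    exact ⟨hw, hh⟩
  | sq m =>
    intro r hr
    exact absurd hr (Multiset.notMem_zero r)
  | turn _ ih => exact ih
  | pack X Y A B S ρ hw hh hin hsep harea hdec ih =>
    intro r hr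
    rw [Multiset.mem_sum] at hr
    obtain ⟨i, -, hi⟩ := hr
    exact ih i r hi

/-- area identity -/
theorem Dec.area_eq {w h : ℝ} {S : Multiset ℕ} {ρ : Multiset (ℝ × ℝ)} (hd : Dec w h S ρ) :
    w * h = sqa S + area ρ := by
  induction hd with
  | leaf hw hh => simp
  | sq m =>
    rw [sqa_singleton, area_zero]
    ring
  | turn _ ih => rw [mul_comm, ih]
  | pack X Y A B S ρ hw hh hin hsep harea hdec ih =>
    rw [area_sum, sqa_sum, ← Finset.sum_add_distrib, ← harea]
    exact Finset.sum_congr rfl fun i _ => ih i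

/-- stacking two decompositions -/
theorem Dec.stack {w h₁ h₂ : ℝ} {S₁ S₂ : Multiset ℕ} {ρ₁ ρ₂ : Multiset (ℝ × ℝ)}
    (h1 : Dec w h₁ S₁ ρ₁) (h2 : Dec w h₂ S₂ ρ₂) : Dec w (h₁ + h₂) (S₁ + S₂) (ρ₁ + ρ₂) := by
  have n1 := h1.nonneg
  have n2 := h2.nonneg
  have key := Dec.pack (w := w) (h := h₁ + h₂) (n := 2) ![0, 0] ![0, h₁] ![w, w] ![h₁, h₂]
    ![S₁, S₂] ![ρ₁, ρ₂] n1.1 (add_nonneg n1.2 n2.2)
    (by
      intro i
      fin_cases i
      · simp [n2.2]
      · simp [n1.2])
    (by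
      intro i j hij
      fin_cases i <;> fin_cases j
      · exact absurd rfl hij
      · right; right; left
        simp
      · right; right; right
        simp
      · exact absurd rfl hij)
    (by
      rw [Fin.sum_univ_two]
      simp
      ring)
    (by
      intro i
      fin_cases i
      · exact h1
      · exact h2)
  rw [Fin.sum_univ_two, Fin.sum_univ_two] at key
  exact key

/-- replace one rectangle of a decomposition by a decomposition of it -/
theorem Dec.subst {w h : ℝ} {S : Multiset ℕ} {ρ : Multiset (ℝ × ℝ)} (hd : Dec w h S ρ) :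
    ∀ (r : ℝ × ℝ) (τ : Multiset (ℝ × ℝ)) (S' : Multiset ℕ) (σ : Multiset (ℝ × ℝ)),
      ρ = r ::ₘ τ → Dec r.1 r.2 S' σ → Dec w h (S' + S) (σ + τ) := by
  induction hd with
  | leaf hw hh =>
    intro r τ S' σ he hr
    have h1 : r ∈ ({(_, _)} : Multiset (ℝ × ℝ)) := he ▸ Multiset.mem_cons_self r τ
    rw [Multiset.mem_singleton] at h1
    subst h1
    have h2 : τ = 0 := by
      have := congrArg Multiset.card he
      rw [Multiset.card_singleton, Multiset.card_cons] at this
      exact Multiset.card_eq_zero.1 (by omega)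
    rw [h2, add_zero, add_zero]
    exact hr
  | sq m =>
    intro r τ S' σ he hr
    exact absurd he.symm (Multiset.cons_ne_zero)
  | turn _ ih =>
    intro r τ S' σ he hr
    exact (ih r τ S' σ he hr).turn
  | pack X Y A B S ρ hw hh hin hsep harea hdec ih =>
    intro r τ S' σ he hr
    have h1 : r ∈ ∑ i, ρ i := he ▸ Multiset.mem_cons_self r τ
    rw [Multiset.mem_sum] at h1
    obtain ⟨i, -, hi⟩ := h1
    obtain ⟨ρ', hρ'⟩ := Multiset.exists_cons_of_mem hi
    have h2 := ih i r ρ' S' σ hρ' hr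
    have key := Dec.pack X Y A B (Function.update S i (S' + S i))
      (Function.update ρ i (σ + ρ')) hw hh hin hsep harea
      (by
        intro j
        by_cases hj : j = i
        · subst hj
          rw [Function.update_self, Function.update_self]
          exact h2
        · rw [Function.update_of_ne hj, Function.update_of_ne hj]
          exact hdec j)
    have e1 : ∑ j, Function.update S i (S' + S i) j = S' + ∑ j, S j := by
      rw [Finset.sum_update_of_mem (Finset.mem_univ i), add_assoc]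
      congr 1
      rw [Finset.sdiff_singleton_eq_erase, Finset.add_sum_erase _ _ (Finset.mem_univ i)]
    have e2 : ∑ j, Function.update ρ i (σ + ρ') j = σ + τ := by
      rw [Finset.sum_update_of_mem (Finset.mem_univ i), add_assoc]
      congr 1
      rw [Finset.sdiff_singleton_eq_erase]
      have h3 := Finset.add_sum_erase Finset.univ ρ (Finset.mem_univ i)
      rw [he, hρ', Multiset.cons_add, Multiset.cons_inj_right] at h3
      exact h3
    rw [e1, e2] at key
    exact key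

theorem DecL.rect_nonneg {cs : List (ℝ × ℝ)} {S : Multiset ℕ} {ρ : Multiset (ℝ × ℝ)}
    (hd : DecL cs S ρ) : ∀ r ∈ ρ, 0 ≤ r.1 ∧ 0 ≤ r.2 := by
  induction hd with
  | nil =>
    intro r hr
    exact absurd hr (Multiset.notMem_zero r)
  | cons h1 _ ih =>
    intro r hr
    rcases Multiset.mem_add.1 hr with hr | hr
    · exact h1.rect_nonneg r hr
    · exact ih r hr

/-- area identity -/
theorem DecL.area_eq {cs : List (ℝ × ℝ)} {S : Multiset ℕ} {ρ : Multiset (ℝ × ℝ)}
    (hd : DecL cs S ρ) : area (cs : Multiset (ℝ × ℝ)) = sqa S + area ρ := by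
  induction hd with
  | nil => simp
  | cons h1 _ ih =>
    rw [← Multiset.cons_coe, area_cons, ih, sqa_add, area_add, h1.area_eq]
    ring

theorem DecL.subst {cs : List (ℝ × ℝ)} {S : Multiset ℕ} {ρ : Multiset (ℝ × ℝ)}
    (hd : DecL cs S ρ) : ∀ (r : ℝ × ℝ) (τ : Multiset (ℝ × ℝ)) (S' : Multiset ℕ)
      (σ : Multiset (ℝ × ℝ)), ρ = r ::ₘ τ → Dec r.1 r.2 S' σ → DecL cs (S' + S) (σ + τ) := by
  induction hd with
  | nil =>
    intro r τ S' σ he hr
    exact absurd he.symm (Multiset.cons_ne_zero)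
  | @cons w h cs S T ρ₁ ρ₂ h1 h2 ih =>
    intro r τ S' σ he hr
    have h3 : r ∈ ρ₁ + ρ₂ := he ▸ Multiset.mem_cons_self r τ
    rcases Multiset.mem_add.1 h3 with h4 | h4
    · obtain ⟨ρ', hρ'⟩ := Multiset.exists_cons_of_mem h4
      have h5 := h1.subst r ρ' S' σ hρ' hr
      have h6 := DecL.cons h5 h2
      have e : τ = ρ' + ρ₂ := by
        rw [hρ', Multiset.cons_add, Multiset.cons_inj_right] at he
        exact he.symm
      rw [e, ← add_assoc, ← add_assoc]
      exact h6
    · obtain ⟨ρ', hρ'⟩ := Multiset.exists_cons_of_mem h4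
      have h5 := ih r ρ' S' σ hρ' hr
      have h6 := DecL.cons h1 h5
      have e : τ = ρ₁ + ρ' := by
        rw [hρ', Multiset.add_cons, Multiset.cons_inj_right] at he
        exact he.symm
      rw [e]
      have e1 : S' + (S + T) = S + (S' + T) := by
        rw [← add_assoc, ← add_assoc, add_comm S']
      have e2 : σ + (ρ₁ + ρ') = ρ₁ + (σ + ρ') := by
        rw [← add_assoc, ← add_assoc, add_comm σ]
      rw [e1, e2]
      exact h6

/-- the trivial decomposition -/
theorem DecL.refl (cs : List (ℝ × ℝ)) (h : ∀ r ∈ cs, 0 ≤ r.1 ∧ 0 ≤ r.2) :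
    DecL cs 0 (cs : Multiset (ℝ × ℝ)) := by
  induction cs with
  | nil => exact DecL.nil
  | cons r cs ih =>
    have h1 := h r (List.mem_cons_self)
    have h2 := ih fun r hr => h r (List.mem_cons_of_mem _ hr)
    have h3 := DecL.cons (Dec.leaf h1.1 h1.2) h2
    rw [zero_add, Multiset.singleton_add] at h3
    exact h3

/-! ### refinements -/

theorem Ref.refl (ρ : Multiset (ℝ × ℝ)) : Ref ρ 0 ρ := by
  intro cs T τ h
  rw [zero_add]
  exact h

theorem Ref.of_dec {w h : ℝ} {S : Multiset ℕ} {ρ : Multiset (ℝ × ℝ)} (hd : Dec w h S ρ) :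
    Ref {(w, h)} S ρ := by
  intro cs T τ h'
  rw [Multiset.singleton_add] at h'
  exact h'.subst (w, h) τ S ρ rfl hd

theorem Ref.trans {ρ σ τ : Multiset (ℝ × ℝ)} {S T : Multiset ℕ} (h1 : Ref ρ S σ)
    (h2 : Ref σ T τ) : Ref ρ (S + T) τ := by
  intro cs U υ h
  have h3 := h2 cs _ υ (h1 cs U υ h)
  rw [add_comm S T, add_assoc]
  exact h3

theorem Ref.add {ρ ρ' σ σ' : Multiset (ℝ × ℝ)} {S S' : Multiset ℕ} (h1 : Ref ρ S σ)
    (h2 : Ref ρ' S' σ') : Ref (ρ + ρ') (S + S') (σ + σ') := by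
  intro cs T τ h
  rw [add_assoc] at h
  have h3 := h1 cs T (ρ' + τ) h
  rw [add_left_comm] at h3
  have h4 := h2 cs _ (σ + τ) h3
  have e1 : S + S' + T = S' + (S + T) := by
    rw [add_comm S S', add_assoc]
  have e2 : σ + σ' + τ = σ' + (σ + τ) := by
    rw [add_comm σ σ', add_assoc]
  rw [e1, e2]
  exact h4

theorem Ref.sum {ι : Type} (s : Finset ι) (ρ σ : ι → Multiset (ℝ × ℝ)) (S : ι → Multiset ℕ)
    (h : ∀ i ∈ s, Ref (ρ i) (S i) (σ i)) : Ref (∑ i ∈ s, ρ i) (∑ i ∈ s, S i) (∑ i ∈ s, σ i) := by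
  classical
  induction s using Finset.induction_on with
  | empty => simpa using Ref.refl 0
  | insert a s ha ih =>
    rw [Finset.sum_insert ha, Finset.sum_insert ha, Finset.sum_insert ha]
    exact (h a (Finset.mem_insert_self a s)).add
      (ih fun i hi => h i (Finset.mem_insert_of_mem hi))

/-- turning a rectangle -/
theorem Ref.turn {a b : ℝ} (ha : 0 ≤ a) (hb : 0 ≤ b) : Ref {(a, b)} 0 {(b, a)} :=
  Ref.of_dec (Dec.leaf hb ha).turn

/-- cutting a rectangle -/
theorem Ref.cut {a b c : ℝ} (ha : 0 ≤ a) (hb : 0 ≤ b) (hc : 0 ≤ c) :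
    Ref {(a, b + c)} 0 {(a, b), (a, c)} := by
  have h := (Dec.leaf ha hb).stack (Dec.leaf ha hc)
  exact Ref.of_dec h

/-- cutting a rectangle in the other direction -/
theorem Ref.cut' {a b c : ℝ} (ha : 0 ≤ a) (hb : 0 ≤ b) (hc : 0 ≤ c) :
    Ref {(a + b, c)} 0 {(a, c), (b, c)} := by
  have h := ((Dec.leaf (w := a) (h := c) ha hc).turn.stack
    (Dec.leaf (w := b) (h := c) hb hc).turn).turn
  exact Ref.of_dec h

/-- placing a square -/
theorem Ref.put (m : ℕ) : Ref {(1 / (m : ℝ), 1 / (m : ℝ))} {m} 0 := Ref.of_dec (Dec.sq m)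

/-- a refinement applied to a decomposition -/
theorem DecL.ref {cs : List (ℝ × ℝ)} {T : Multiset ℕ} {ρ σ τ : Multiset (ℝ × ℝ)}
    {S : Multiset ℕ} (h : DecL cs T (ρ + τ)) (hr : Ref ρ S σ) : DecL cs (S + T) (σ + τ) :=
  hr cs T τ h

/-! ### soundness: from decompositions to positions -/

/-- The squares of a decomposition of one rectangle can be placed. -/
theorem Dec.sound {w h : ℝ} {S : Multiset ℕ} {ρ : Multiset (ℝ × ℝ)} (hd : Dec w h S ρ)
    (hS : S.Nodup) : ∃ px py : ℕ → ℝ,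
      (∀ m ∈ S, 0 ≤ px m ∧ px m + 1 / (m : ℝ) ≤ w ∧ 0 ≤ py m ∧ py m + 1 / (m : ℝ) ≤ h) ∧
      ∀ m ∈ S, ∀ k ∈ S, m ≠ k → Sep (px m) (py m) (1 / (m : ℝ)) (1 / (m : ℝ))
        (px k) (py k) (1 / (k : ℝ)) (1 / (k : ℝ)) := by
  induction hd with
  | leaf hw hh =>
    exact ⟨0, 0, fun m hm => absurd hm (Multiset.notMem_zero m),
      fun m hm => absurd hm (Multiset.notMem_zero m)⟩
  | sq m =>
    refine ⟨0, 0, ?_, ?_⟩
    · intro k hk
      rw [Multiset.mem_singleton] at hk
      subst hk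
      simp
    · intro k hk l hl hkl
      rw [Multiset.mem_singleton] at hk hl
      exact absurd (hk.trans hl.symm) hkl
  | turn _ ih =>
    obtain ⟨px, py, h1, h2⟩ := ih hS
    refine ⟨py, px, fun m hm => ?_, fun m hm k hk hmk => ?_⟩
    · obtain ⟨a1, a2, a3, a4⟩ := h1 m hm
      exact ⟨a3, a4, a1, a2⟩
    · rcases h2 m hm k hk hmk with h3 | h3 | h3 | h3
      · exact Or.inr (Or.inr (Or.inl h3))
      · exact Or.inr (Or.inr (Or.inr h3))
      · exact Or.inl h3
      · exact Or.inr (Or.inl h3)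
  | @pack w h n X Y A B S ρ hw hh hin hsep harea hdec ih =>
    have hnod : ∀ i, (S i).Nodup := fun i =>
      Multiset.nodup_of_le (Finset.single_le_sum (f := S) (fun j _ => Multiset.zero_le _)
        (Finset.mem_univ i)) hS
    have hdisj : ∀ i j, i ≠ j → ∀ m, m ∈ S i → m ∈ S j → False := by
      intro i j hij m hi hj
      have h1 : S i + S j ≤ ∑ l, S l := by
        rw [← Finset.sum_pair hij]
        exact Finset.sum_le_sum_of_subset (Finset.subset_univ _)
      have h2 := Multiset.nodup_of_le h1 hS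
      rw [Multiset.nodup_add] at h2
      exact Multiset.disjoint_left.1 h2.2.2 hi hj
    choose px py hp1 hp2 using fun i => ih i (hnod i)
    classical
    have hex : ∀ m, m ∈ ∑ i, S i → ∃ i, m ∈ S i := by
      intro m hm
      rw [Multiset.mem_sum] at hm
      obtain ⟨i, -, hi⟩ := hm
      exact ⟨i, hi⟩
    refine ⟨fun m => if hm : m ∈ ∑ i, S i then X (hex m hm).choose + px (hex m hm).choose m else 0,
      fun m => if hm : m ∈ ∑ i, S i then Y (hex m hm).choose + py (hex m hm).choose m else 0,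
      ?_, ?_⟩
    · intro m hm
      simp only [dif_pos hm]
      set i := (hex m hm).choose with hi
      have hmi : m ∈ S i := (hex m hm).choose_spec
      obtain ⟨a1, a2, a3, a4⟩ := hp1 i m hmi
      obtain ⟨b1, b2, b3, b4⟩ := hin i
      refine ⟨by linarith, by linarith, by linarith, by linarith⟩
    · intro m hm k hk hmk
      simp only [dif_pos hm, dif_pos hk]
      set i := (hex m hm).choose with hi
      set j := (hex k hk).choose with hj
      have hmi : m ∈ S i := (hex m hm).choose_spec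
      have hkj : k ∈ S j := (hex k hk).choose_spec
      by_cases hij : i = j
      · rw [← hij] at hkj ⊢
        rcases hp2 i m hmi k hkj hmk with h3 | h3 | h3 | h3
        · exact Or.inl (by linarith)
        · exact Or.inr (Or.inl (by linarith))
        · exact Or.inr (Or.inr (Or.inl (by linarith)))
        · exact Or.inr (Or.inr (Or.inr (by linarith)))
      · obtain ⟨a1, a2, a3, a4⟩ := hp1 i m hmi
        obtain ⟨b1, b2, b3, b4⟩ := hp1 j k hkj
        rcases hsep i j hij with h3 | h3 | h3 | h3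
        · exact Or.inl (by linarith)
        · exact Or.inr (Or.inl (by linarith))
        · exact Or.inr (Or.inr (Or.inl (by linarith)))
        · exact Or.inr (Or.inr (Or.inr (by linarith)))

/-- `Packed k w h S`: the squares of side `1 / m`, `m ∈ S`, are placed in the `k` containers
`w i × h i`. -/
def Packed {k : ℕ} (w h : Fin k → ℝ) (S : Set ℕ) (c : ℕ → Fin k) (px py : ℕ → ℝ) : Prop :=
  (∀ m ∈ S, 0 ≤ px m ∧ px m + 1 / (m : ℝ) ≤ w (c m) ∧ 0 ≤ py m ∧
      py m + 1 / (m : ℝ) ≤ h (c m)) ∧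
    ∀ m ∈ S, ∀ l ∈ S, m ≠ l → c m = c l → Sep (px m) (py m) (1 / (m : ℝ)) (1 / (m : ℝ))
        (px l) (py l) (1 / (l : ℝ)) (1 / (l : ℝ))

theorem DecL.sound_aux {cs : List (ℝ × ℝ)} {S : Multiset ℕ} {ρ : Multiset (ℝ × ℝ)}
    (hd : DecL cs S ρ) : S.Nodup → ∃ (c : ℕ → ℕ) (px py : ℕ → ℝ),
      (∀ m ∈ S, ∃ r, cs[c m]? = some r ∧ 0 ≤ px m ∧ px m + 1 / (m : ℝ) ≤ r.1 ∧ 0 ≤ py m ∧
        py m + 1 / (m : ℝ) ≤ r.2) ∧
      ∀ m ∈ S, ∀ l ∈ S, m ≠ l → c m = c l → Sep (px m) (py m) (1 / (m : ℝ)) (1 / (m : ℝ))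
        (px l) (py l) (1 / (l : ℝ)) (1 / (l : ℝ)) := by
  induction hd with
  | nil =>
    intro _
    exact ⟨0, 0, 0, fun m hm => absurd hm (Multiset.notMem_zero m),
      fun m hm => absurd hm (Multiset.notMem_zero m)⟩
  | @cons w h cs S T ρ σ h1 h2 ih =>
    intro hS
    rw [Multiset.nodup_add] at hS
    obtain ⟨hS1, hS2, hS3⟩ := hS
    obtain ⟨px, py, hp1, hp2⟩ := h1.sound hS1
    obtain ⟨c, qx, qy, hq1, hq2⟩ := ih hS2
    classical
    refine ⟨fun m => if m ∈ S then 0 else c m + 1, fun m => if m ∈ S then px m else qx m,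
      fun m => if m ∈ S then py m else qy m, ?_, ?_⟩
    · intro m hm
      by_cases hmS : m ∈ S
      · simp only [if_pos hmS]
        exact ⟨(w, h), rfl, hp1 m hmS⟩
      · simp only [if_neg hmS]
        have hmT : m ∈ T := (Multiset.mem_add.1 hm).resolve_left hmS
        obtain ⟨r, hr, hr'⟩ := hq1 m hmT
        exact ⟨r, by simpa using hr, hr'⟩
    · intro m hm l hl hml hc
      by_cases hmS : m ∈ S
      · by_cases hlS : l ∈ S
        · simp only [if_pos hmS, if_pos hlS]
          exact hp2 m hmS l hlS hml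
        · simp only [if_pos hmS, if_neg hlS] at hc
          omega
      · have hmT : m ∈ T := (Multiset.mem_add.1 hm).resolve_left hmS
        by_cases hlS : l ∈ S
        · simp only [if_neg hmS, if_pos hlS] at hc
          omega
        · have hlT : l ∈ T := (Multiset.mem_add.1 hl).resolve_left hlS
          simp only [if_neg hmS, if_neg hlS] at hc ⊢
          exact hq2 m hmT l hlT hml (by omega)

/-- The squares of a decomposition of the containers can be placed. -/
theorem DecL.sound {k : ℕ} {w h : Fin (k + 1) → ℝ} {S : Multiset ℕ} {ρ : Multiset (ℝ × ℝ)}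
    (hd : DecL (List.ofFn fun i => (w i, h i)) S ρ) (hS : S.Nodup) :
    ∃ (c : ℕ → Fin (k + 1)) (px py : ℕ → ℝ), Packed w h {m | m ∈ S} c px py := by
  obtain ⟨c, px, py, h1, h2⟩ := hd.sound_aux hS
  have hlt : ∀ m ∈ S, c m < k + 1 := by
    intro m hm
    obtain ⟨r, hr, -⟩ := h1 m hm
    have := (List.getElem?_eq_some_iff.1 hr).1
    rwa [List.length_ofFn] at this
  refine ⟨fun m => if hm : c m < k + 1 then ⟨c m, hm⟩ else 0, px, py, ?_, ?_⟩
  · intro m hm
    have hm' := hlt m hm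
    obtain ⟨r, hr, hr'⟩ := h1 m hm
    obtain ⟨h3, h4⟩ := List.getElem?_eq_some_iff.1 hr
    rw [List.getElem_ofFn] at h4
    simp only [dif_pos hm']
    rw [← h4] at hr'
    exact hr'
  · intro m hm l hl hml hc
    simp only [dif_pos (hlt m hm), dif_pos (hlt l hl)] at hc
    exact h2 m hm l hl hml (by simpa using hc)

end Pool.Agent.Moser
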