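import Pool.Agent.Lib_MP_cc07e8_co.EngState

/-!
# MP_cc07e8_co, engine piece TAU: facts about `tau`, `sig`, `DD`

All are elementary: `i ^ 3 / 1728000 - 1 < sig i ≤ i ^ 3 / 1728000` (reals).
-/

namespace Pool.Agent.Moser.Eng

theorem tau_eq (i : ℕ) : tau i = 64 * sig i := rfl

theorem tau_le (i : ℕ) : (tau i : ℝ) ≤ (i : ℝ) ^ 3 / 27000 := by
  have h := Nat.div_mul_le_self (i ^ 3) 1728000
  have h' : ((i ^ 3 / 1728000 : ℕ) : ℝ) * 1728000 ≤ (i : ℝ) ^ 3 := by exact_mod_cast h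
  unfold tau
  push_cast [-Nat.cast_div_charZero]
  linarith

theorem lt_tau (i : ℕ) : (i : ℝ) ^ 3 / 27000 - 64 < (tau i : ℝ) := by
  have h := Nat.lt_div_mul_add (a := i ^ 3) (b := 1728000) (by norm_num)
  have h' : (i : ℝ) ^ 3 < ((i ^ 3 / 1728000 : ℕ) : ℝ) * 1728000 + 1728000 := by exact_mod_cast h
  unfold tau
  push_cast [-Nat.cast_div_charZero]
  linarith

theorem sig_mono {i j : ℕ} (h : i ≤ j) : sig i ≤ sig j :=
  Nat.div_le_div_right (Nat.pow_le_pow_left h 3)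

theorem tau_mono {i j : ℕ} (h : i ≤ j) : tau i ≤ tau j := by
  rw [tau_eq, tau_eq]
  exact Nat.mul_le_mul_left _ (sig_mono h)

/-- `3 i ^ 2 / 1728000 > 180` -/
theorem sig_lt {i j : ℕ} (hi : 10300 ≤ i) (h : i < j) : sig i + 100 ≤ sig j := by
  have h1 : i ^ 3 + 100 * 1728000 ≤ j ^ 3 := by
    have h2 : (i + 1) ^ 3 ≤ j ^ 3 := Nat.pow_le_pow_left h 3
    have h3 : i ^ 3 + 100 * 1728000 ≤ (i + 1) ^ 3 := by nlinarith
    exact h3.trans h2
  have h4 : (i ^ 3 + 100 * 1728000) / 1728000 = i ^ 3 / 1728000 + 100 :=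
    Nat.add_mul_div_right _ _ (by norm_num)
  unfold sig
  rw [← h4]
  exact Nat.div_le_div_right h1

theorem tau_lt {i j : ℕ} (hi : 10300 ≤ i) (h : i < j) : tau i + 6400 ≤ tau j := by
  have := sig_lt hi h
  rw [tau_eq, tau_eq]
  omega

theorem tau_pos {i : ℕ} (hi : 10300 ≤ i) : 4e7 ≤ (tau i : ℝ) := by
  have h1 := lt_tau i
  have h2 : (10300 : ℝ) ≤ i := by exact_mod_cast hi
  have h3 : (10300 : ℝ) ^ 3 ≤ (i : ℝ) ^ 3 := by gcongr
  have h4 : (4e7 : ℝ) ≤ (10300 : ℝ) ^ 3 / 27000 - 64 := by norm_num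
  linarith

/-- `DD i = 64 * (number of blocks of the range)` -/
theorem DD_eq (i : ℕ) : DD i = 64 * (sig (i + 16) - sig (i + 4)) := by
  unfold DD
  rw [tau_eq, tau_eq, Nat.mul_sub]

theorem DD_cast (i : ℕ) : (DD i : ℝ) = (tau (i + 16) : ℝ) - tau (i + 4) := by
  unfold DD
  rw [Nat.cast_sub (tau_mono (by omega))]

theorem DD_le (i : ℕ) : (DD i : ℝ) ≤ (36 * (i : ℝ) ^ 2 + 720 * i + 4032) / 27000 + 64 := by
  rw [DD_cast]
  have h1 := tau_le (i + 16)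
  have h2 := lt_tau (i + 4)
  push_cast at h1 h2
  have h3 : ((i : ℝ) + 16) ^ 3 - ((i : ℝ) + 4) ^ 3 = 36 * (i : ℝ) ^ 2 + 720 * i + 4032 := by ring
  linarith

theorem le_DD (i : ℕ) : (36 * (i : ℝ) ^ 2 + 720 * i + 4032) / 27000 - 64 ≤ (DD i : ℝ) := by
  rw [DD_cast]
  have h1 := lt_tau (i + 16)
  have h2 := tau_le (i + 4)
  push_cast at h1 h2
  have h3 : ((i : ℝ) + 16) ^ 3 - ((i : ℝ) + 4) ^ 3 = 36 * (i : ℝ) ^ 2 + 720 * i + 4032 := by ring
  linarith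

theorem DD_pos {i : ℕ} (hi : 10300 ≤ i) : 0 < (DD i : ℝ) := by
  have h1 := le_DD i
  have h2 : (10300 : ℝ) ≤ i := by exact_mod_cast hi
  nlinarith

/-- `tau (i + 16) / DD i ≤ (i + 28.5) / 36`; real value about `(i + 28) / 36 + 13000 / (i + 10)`... the
correction by the floor is `48000 / i ^ 2` relative, so at most `5 * 10 ^ (-4)` of `i / 36` at `i = 10300`:
hence the factor `1.0005`. -/
theorem tau_div_DD {i : ℕ} (hi : 10300 ≤ i) :
    (tau (i + 16) : ℝ) / (DD i : ℝ) ≤ 1.0005 * ((i : ℝ) + 28) / 36 := by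
  have h0 := DD_pos hi
  rw [div_le_iff₀ h0]
  have h1 := le_DD i
  have h2 : (10300 : ℝ) ≤ i := by exact_mod_cast hi
  have h3 := tau_le (i + 16)
  push_cast at h3
  have h4 : 1.0005 * ((i : ℝ) + 28) / 36 * ((36 * (i : ℝ) ^ 2 + 720 * i + 4032) / 27000 - 64) ≤
      1.0005 * ((i : ℝ) + 28) / 36 * (DD i : ℝ) := by
    apply mul_le_mul_of_nonneg_left h1
    positivity
  refine h3.trans (le_trans ?_ h4)
  have h5 : (10300 : ℝ) * i ≤ (i : ℝ) * i := by nlinarith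
  have h6 : (10300 : ℝ) ^ 2 * i ≤ (i : ℝ) ^ 3 := by nlinarith
  nlinarith

end Pool.Agent.Moser.Eng
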