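import Mathlib

/-!
# MP_cc07e8_co, tail theorem: injections into the sub-blocks
-/

namespace Pool.Agent.Moser

open Classical in
/-- injections of the fibres of `f` into disjoint sets -/
theorem inject {σ o : Type} (S : Finset σ) (f : σ → o) (D : o → Finset ℕ)
    (hdis : ∀ b b', b ≠ b' → Disjoint (D b) (D b'))
    (hcard : ∀ b, (S.filter fun s => f s = b).card ≤ (D b).card) :
    ∃ g : σ → ℕ, Set.InjOn g S ∧ ∀ s ∈ S, g s ∈ D (f s) := by
  have hemb : ∀ b, Nonempty (↥(S.filter fun s => f s = b) ↪ ↥(D b)) := by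
    intro b
    apply Function.Embedding.nonempty_of_card_le
    rw [Fintype.card_coe, Fintype.card_coe]
    exact hcard b
  have e : ∀ b, ↥(S.filter fun s => f s = b) ↪ ↥(D b) := fun b => (hemb b).some
  have hmem : ∀ s, s ∈ S → s ∈ S.filter fun s' => f s' = f s := by
    intro s hs
    exact Finset.mem_filter.2 ⟨hs, rfl⟩
  have hval : ∀ b s (hs : s ∈ S) (hb : f s = b),
      ((e (f s) ⟨s, hmem s hs⟩ : ↥(D (f s))) : ℕ) =
        ((e b ⟨s, Finset.mem_filter.2 ⟨hs, hb⟩⟩ : ↥(D b)) : ℕ) := by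
    rintro b s hs rfl
    rfl
  refine ⟨fun s => if h : s ∈ S then ((e (f s) ⟨s, hmem s h⟩ : ↥(D (f s))) : ℕ) else 0, ?_, ?_⟩
  · intro s hs t ht hst
    rw [Finset.mem_coe] at hs ht
    simp only [dif_pos hs, dif_pos ht] at hst
    by_cases hb : f s = f t
    · rw [hval (f t) s hs hb] at hst
      have h1 := (e (f t)).injective (Subtype.ext hst)
      exact congrArg (fun z => (z : ↥(S.filter fun s' => f s' = f t)).1) h1
    · exfalso
      have h1 := hdis _ _ hb
      rw [Finset.disjoint_left] at h1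
      refine h1 (e (f s) ⟨s, hmem s hs⟩).2 ?_
      rw [hst]
      exact (e (f t) ⟨t, hmem t ht⟩).2
  · intro s hs
    simp only [dif_pos hs]
    exact (e (f s) ⟨s, hmem s hs⟩).2

end Pool.Agent.Moser
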