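import Pool.Agent.Lib_MP_cc07e8_co.Spread
import Pool.Agent.Lib_MP_cc07e8_co.Inject

/-!
# MP_cc07e8_co, tail theorem: assignment of the squares of a batch
-/

namespace Pool.Agent.Moser

/-- the slots `(m, k)`, `m ∈ A`, `k < K m` -/
def slots (A : Finset ℕ) (K : ℕ → ℕ) : Finset (ℕ × ℕ) :=
  A.disjiUnion (fun m => (Finset.range (K m)).map ⟨fun k => (m, k), fun _ _ h => (Prod.ext_iff.1 h).2⟩)
    (by
      intro a _ b _ hab
      rw [Function.onFun, Finset.disjoint_left]
      intro x hx hx'
      obtain ⟨k, _, rfl⟩ := Finset.mem_map.1 hx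
      obtain ⟨k', _, h⟩ := Finset.mem_map.1 hx'
      exact hab (Prod.ext_iff.1 h).1.symm)

theorem mem_slots {A : Finset ℕ} {K : ℕ → ℕ} {s : ℕ × ℕ} :
    s ∈ slots A K ↔ s.1 ∈ A ∧ s.2 < K s.1 := by
  unfold slots
  rw [Finset.mem_disjiUnion]
  constructor
  · rintro ⟨a, ha, hs⟩
    obtain ⟨k, hk, rfl⟩ := Finset.mem_map.1 hs
    exact ⟨ha, Finset.mem_range.1 hk⟩
  · rintro ⟨h1, h2⟩
    exact ⟨s.1, h1, Finset.mem_map.2 ⟨s.2, Finset.mem_range.2 h2, rfl⟩⟩

theorem card_slots (A : Finset ℕ) (K : ℕ → ℕ) : (slots A K).card = ∑ m ∈ A, K m := by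
  unfold slots
  rw [Finset.card_disjiUnion]
  simp

theorem slots_map (A : Finset ℕ) (K : ℕ → ℕ) (g : ℕ × ℕ → ℕ) :
    (slots A K).val.map g = ∑ m ∈ A, (Multiset.range (K m)).map (fun k => g (m, k)) := by
  have h1 : (slots A K).val = ∑ m ∈ A, (Multiset.range (K m)).map (fun k => (m, k)) := rfl
  rw [h1]
  have h2 := map_sum (Multiset.mapAddMonoidHom g)
    (fun m => (Multiset.range (K m)).map (fun k => (m, k))) A
  rw [Multiset.coe_mapAddMonoidHom] at h2
  rw [h2]
  apply Finset.sum_congr rfl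
  intro m _
  rw [Multiset.map_map]
  rfl

open Classical in
/-- Slots `S = {(m, k) : m ∈ A, k < K m}`, `#S ≤ 2.5 i ^ 2`, `#S / #Bl i ≤ 500` (`card_Bl`).
If `A` is empty: `F = MM n0 i`, `src = i ^ 3`, count by `touch_blocks` (each sub-block has `600` elements).
Otherwise `MM n0 i = ⋃ sub i b` (`MM_eq`): `f` from `spread`, the fibres have at most `506 ≤ 600` elements,
`inject` gives `g`, `F` = the rest, `src (g s) = T s.1`. Count for `IJ i j`: the squares `g s` by the third
property of `spread`; the squares of `F`: they are in a sub-block touching the window (for `c = i ^ 3`), at most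
`om i j / 9000 + 2` blocks, and each block has at most `600 - (#S / #Bl i - 6)` elements of `F`. Sum:
`(om i j / 9000 + 2) 606 + 6 = cnt i j`. -/
theorem assign : ∃ i0 : ℕ, ∀ i n0 : ℕ, i0 ≤ i → ∀ (A : Finset ℕ) (T : ℕ → ℝ) (K : ℕ → ℕ),
    (∀ m ∈ A, (i : ℝ) ^ 3 ≤ T m ∧ T m < ((i : ℝ) + 1) ^ 3) →
    ((∑ m ∈ A, K m : ℕ) : ℝ) ≤ 2.5 * (i : ℝ) ^ 2 → (A.Nonempty → n0 ≤ (i + 2) ^ 3) →
    ∃ (g : ℕ → ℕ → ℕ) (F : Finset ℕ) (src : ℕ → ℝ),
      (MM n0 i).val = F.val + ∑ m ∈ A, (Multiset.range (K m)).map (g m) ∧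
      (∀ m ∈ A, ∀ k, k < K m → src (g m k) = T m) ∧
      (∀ m ∈ F, src m = (i : ℝ) ^ 3) ∧
      ∀ j : ℕ, IJ i j →
        (((MM n0 i).filter fun m => Wd j (Tc (src m) m)).card : ℝ) ≤ cnt i j := by
  obtain ⟨i1, h1⟩ := spread
  obtain ⟨i2, h2⟩ := card_Bl
  obtain ⟨i3, h3⟩ := touch_blocks
  refine ⟨max (max i1 i2) (max i3 1), fun i n0 hi A T K hT hK hn => ?_⟩
  have hi1 : i1 ≤ i := by omega
  have hi2 : i2 ≤ i := by omega
  have hi3 : i3 ≤ i := by omega
  have hipos : 1 ≤ i := by omega
  have hir : (1 : ℝ) ≤ i := by exact_mod_cast hipos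
  have hc1 : (i : ℝ) ^ 3 < ((i : ℝ) + 1) ^ 3 :=
    pow_lt_pow_left₀ (by linarith) (by linarith) (by norm_num)
  -- the blocks touched by the window `j` for `c = i ^ 3`
  have htouch : ∀ j, IJ i j → (((Bl i).filter fun b => ∃ m ∈ sub i b,
      Wd j (Tc ((i : ℝ) ^ 3) m)).card : ℝ) ≤ om i j / 9000 + 2 :=
    fun j hj => h3 i j hi3 hj _ le_rfl hc1
  rcases A.eq_empty_or_nonempty with rfl | hA
  · refine ⟨fun _ _ => 0, MM n0 i, fun _ => (i : ℝ) ^ 3, by simp, by simp, fun _ _ => rfl,
      fun j hj => ?_⟩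
    have h4 := htouch j hj
    set B := (Bl i).filter fun b => ∃ m ∈ sub i b, Wd j (Tc ((i : ℝ) ^ 3) m) with hB
    have h5 : ((MM n0 i).filter fun m => Wd j (Tc ((i : ℝ) ^ 3) m)) ⊆ B.biUnion (sub i) := by
      intro m hm
      obtain ⟨hm1, hm2⟩ := Finset.mem_filter.1 hm
      obtain ⟨b, hb, hmb⟩ := Finset.mem_biUnion.1 (MM_subset hipos hm1)
      exact Finset.mem_biUnion.2 ⟨b, Finset.mem_filter.2 ⟨hb, m, hmb, hm2⟩, hmb⟩
    have h6 : ((MM n0 i).filter fun m => Wd j (Tc ((i : ℝ) ^ 3) m)).card ≤ B.card * 600 := by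
      refine (Finset.card_le_card h5).trans (Finset.card_biUnion_le_card_mul _ _ _ ?_)
      intro b hb
      exact (card_sub hipos (Finset.mem_filter.1 hb).1).le
    have h7 : (((MM n0 i).filter fun m => Wd j (Tc ((i : ℝ) ^ 3) m)).card : ℝ) ≤
        (B.card : ℝ) * 600 := by exact_mod_cast h6
    refine h7.trans ?_
    unfold cnt
    have h8 : (0 : ℝ) ≤ B.card := Nat.cast_nonneg _
    linarith
  · have hn' := hn hA
    have hMM : MM n0 i = (Bl i).biUnion (sub i) := MM_eq hipos hn'
    set S := slots A K with hS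
    have hST : ∀ s ∈ S, (i : ℝ) ^ 3 ≤ T s.1 ∧ T s.1 < ((i : ℝ) + 1) ^ 3 := fun s hs =>
      hT s.1 (mem_slots.1 hs).1
    obtain ⟨f, hf1, hf2, hf3⟩ := h1 i hi1 S T hST
    set q : ℝ := (S.card : ℝ) / (Bl i).card with hq
    have hi2pos : (0 : ℝ) < (i : ℝ) ^ 2 / 200 := by positivity
    have hBlpos : (0 : ℝ) < (Bl i).card := lt_of_lt_of_le hi2pos (h2 i hi2).1
    have hq500 : q ≤ 500 := by
      rw [hq, div_le_iff₀ hBlpos, hS, card_slots]
      have := (h2 i hi2).1
      calc ((∑ m ∈ A, K m : ℕ) : ℝ) ≤ 2.5 * (i : ℝ) ^ 2 := hK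
        _ = 500 * ((i : ℝ) ^ 2 / 200) := by ring
        _ ≤ 500 * (Bl i).card := by linarith
    have hdis : ∀ b b', b ≠ b' → Disjoint (sub i b) (sub i b') := by
      intro b b' hbb
      rw [Finset.disjoint_left]
      intro m hm hm'
      have e1 := Finset.mem_Ico.1 (Finset.mem_filter.1 hm).1
      have e2 := Finset.mem_Ico.1 (Finset.mem_filter.1 hm').1
      omega
    have hfib : ∀ b ∈ Bl i, q - 6 ≤ ((S.filter fun s => f s = b).card : ℝ) ∧
        ((S.filter fun s => f s = b).card : ℝ) ≤ 600 := by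
      intro b hb
      have := abs_lt.1 (hf2 b hb)
      constructor <;> linarith [this.1, this.2]
    obtain ⟨g, hg1, hg2⟩ := inject S f (sub i) hdis (by
      intro b
      by_cases hb : b ∈ Bl i
      · rw [card_sub hipos hb]
        have h9 : (S.filter fun s => f s = b).card ≤ 600 := by exact_mod_cast (hfib b hb).2
        convert h9
      · refine (le_of_eq ?_).trans (Nat.zero_le _)
        apply Finset.card_eq_zero.2
        apply Finset.eq_empty_of_forall_notMem
        intro s hs
        obtain ⟨hs1, hs2⟩ := (@Finset.mem_filter _ _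
          (fun a => Classical.propDecidable (f a = b)) S s).1 hs
        exact hb (hs2 ▸ hf1 s hs1))
    set X := S.image g with hX
    have hXM : X ⊆ MM n0 i := by
      intro m hm
      obtain ⟨s, hs, rfl⟩ := Finset.mem_image.1 hm
      rw [hMM]
      exact Finset.mem_biUnion.2 ⟨f s, hf1 s hs, hg2 s hs⟩
    let src : ℕ → ℝ := fun m => if h : ∃ s ∈ S, g s = m then T (Classical.choose h).1
      else (i : ℝ) ^ 3
    have hsrc1 : ∀ s ∈ S, src (g s) = T s.1 := by
      intro s hs
      have hex : ∃ s' ∈ S, g s' = g s := ⟨s, hs, rfl⟩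
      show (if h : ∃ s' ∈ S, g s' = g s then T (Classical.choose h).1 else (i : ℝ) ^ 3) = T s.1
      rw [dif_pos hex]
      have h4 := Classical.choose_spec hex
      rw [hg1 h4.1 hs h4.2]
    have hsrc2 : ∀ m, m ∉ X → src m = (i : ℝ) ^ 3 := by
      intro m hm
      apply dif_neg
      rintro ⟨s, hs, rfl⟩
      exact hm (Finset.mem_image_of_mem g hs)
    refine ⟨fun m k => g (m, k), MM n0 i \ X, src, ?_, ?_, ?_, ?_⟩
    · rw [← slots_map A K g, ← hS, Finset.sdiff_val]
      have hXv : X.val = S.val.map g := Finset.image_val_of_injOn hg1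
      rw [← hXv]
      exact (tsub_add_cancel_of_le (Finset.val_le_iff.2 hXM)).symm
    · intro m hm k hk
      exact hsrc1 (m, k) (mem_slots.2 ⟨hm, hk⟩)
    · intro m hm
      exact hsrc2 m (Finset.mem_sdiff.1 hm).2
    · intro j hj
      have h4 := htouch j hj
      have h5 := hf3 j hj
      set B := (Bl i).filter fun b => ∃ m ∈ sub i b, Wd j (Tc ((i : ℝ) ^ 3) m) with hB
      set P : ℕ → Prop := fun m => Wd j (Tc (src m) m) with hP
      have hsplit : (MM n0 i).filter P ⊆
          ((S.filter fun s => ∃ m ∈ sub i (f s), Wd j (Tc (T s.1) m)).image g) ∪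
          B.biUnion (fun b => sub i b \ (S.filter fun s => f s = b).image g) := by
        intro m hm
        obtain ⟨hm1, hm2⟩ := Finset.mem_filter.1 hm
        by_cases hmX : m ∈ X
        · obtain ⟨s, hs, rfl⟩ := Finset.mem_image.1 hmX
          apply Finset.mem_union_left
          apply Finset.mem_image_of_mem
          refine Finset.mem_filter.2 ⟨hs, g s, hg2 s hs, ?_⟩
          have : Wd j (Tc (src (g s)) (g s)) := hm2
          rwa [hsrc1 s hs] at this
        · apply Finset.mem_union_right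
          rw [hMM] at hm1
          obtain ⟨b, hb, hmb⟩ := Finset.mem_biUnion.1 hm1
          have hm3 : Wd j (Tc (src m) m) := hm2
          rw [hsrc2 m hmX] at hm3
          refine Finset.mem_biUnion.2 ⟨b, Finset.mem_filter.2 ⟨hb, m, hmb, hm3⟩, ?_⟩
          refine Finset.mem_sdiff.2 ⟨hmb, fun h => hmX ?_⟩
          obtain ⟨s, hs, rfl⟩ := Finset.mem_image.1 h
          exact Finset.mem_image_of_mem g (Finset.mem_filter.1 hs).1
      have hsd : ∀ b ∈ Bl i, ((sub i b \ (S.filter fun s => f s = b).image g).card : ℝ) ≤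
          606 - q := by
        intro b hb
        have hsub : (S.filter fun s => f s = b).image g ⊆ sub i b := by
          intro m hm
          obtain ⟨s, hs, rfl⟩ := Finset.mem_image.1 hm
          have h6 := Finset.mem_filter.1 hs
          have h7 := hg2 s h6.1
          rwa [h6.2] at h7
        have hcard : ((S.filter fun s => f s = b).image g).card =
            (S.filter fun s => f s = b).card :=
          Finset.card_image_of_injOn (fun x hx y hy h =>
            hg1 (Finset.mem_filter.1 hx).1 (Finset.mem_filter.1 hy).1 h)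
        have h6 : (sub i b \ (S.filter fun s => f s = b).image g).card +
            (S.filter fun s => f s = b).card = 600 := by
          rw [← hcard, Finset.card_sdiff_add_card_eq_card hsub, card_sub hipos hb]
        have h7 : ((sub i b \ (S.filter fun s => f s = b).image g).card : ℝ) +
            ((S.filter fun s => f s = b).card : ℝ) = 600 := by exact_mod_cast h6
        have h8 := (hfib b hb).1
        linarith
      have hcount2 : ((B.biUnion (fun b => sub i b \ (S.filter fun s => f s = b).image g)).card :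
          ℝ) ≤ (om i j / 9000 + 2) * (606 - q) := by
        have h6 : ((B.biUnion (fun b => sub i b \ (S.filter fun s => f s = b).image g)).card : ℝ)
            ≤ ∑ b ∈ B, ((sub i b \ (S.filter fun s => f s = b).image g).card : ℝ) := by
          exact_mod_cast Finset.card_biUnion_le
        have h7 : ∑ b ∈ B, ((sub i b \ (S.filter fun s => f s = b).image g).card : ℝ) ≤
            B.card * (606 - q) := by
          rw [← nsmul_eq_mul]
          exact Finset.sum_le_card_nsmul _ _ _ (fun b hb => hsd b (Finset.mem_filter.1 hb).1)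
        have h8 : (B.card : ℝ) * (606 - q) ≤ (om i j / 9000 + 2) * (606 - q) :=
          mul_le_mul_of_nonneg_right h4 (by linarith)
        linarith
      have hcount1 : ((((S.filter fun s => ∃ m ∈ sub i (f s),
          Wd j (Tc (T s.1) m)).image g).card : ℕ) : ℝ) ≤ q * (om i j / 9000 + 2) + 6 := by
        refine le_trans ?_ h5
        exact_mod_cast Finset.card_image_le
      have htot : (((MM n0 i).filter P).card : ℝ) ≤
          ((((S.filter fun s => ∃ m ∈ sub i (f s), Wd j (Tc (T s.1) m)).image g).card : ℕ) : ℝ) +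
          ((B.biUnion (fun b => sub i b \ (S.filter fun s => f s = b).image g)).card : ℝ) := by
        exact_mod_cast (Finset.card_le_card hsplit).trans (Finset.card_union_le _ _)
      unfold cnt
      have e : q * (om i j / 9000 + 2) + 6 + (om i j / 9000 + 2) * (606 - q) =
          (om i j / 9000 + 2) * 606 + 6 := by ring
      linarith

end Pool.Agent.Moser
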