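import Pool.Agent.Lib_MP_cc07e8_co.TailDefs

/-!
# MP_cc07e8_co, tail theorem: blocks, sub-blocks, batches
-/

namespace Pool.Agent.Moser

theorem cr_spec (x : ℕ) : cr x ^ 3 ≤ x ∧ x < (cr x + 1) ^ 3 := by
  constructor
  · have h0 : (fun k : ℕ => k ^ 3 ≤ x) 0 := by simp
    exact Nat.findGreatest_spec (P := fun k : ℕ => k ^ 3 ≤ x) (Nat.zero_le x) h0
  · by_contra h
    rw [not_lt] at h
    have h1 : cr x + 1 ≤ (cr x + 1) ^ 3 := Nat.le_self_pow (by norm_num) _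
    have h2 : cr x + 1 ≤ cr x :=
      Nat.le_findGreatest (P := fun k : ℕ => k ^ 3 ≤ x) (h1.trans h) h
    omega

namespace Blocks

theorem lt_of_cube_lt {a b : ℕ} (h : a ^ 3 < b ^ 3) : a < b := lt_of_pow_lt_pow_left₀ 3 (by omega) h

theorem cr_le {x k : ℕ} (h : x < (k + 1) ^ 3) : cr x ≤ k := by
  have h1 := (cr_spec x).1.trans_lt h
  have := lt_of_cube_lt h1
  omega

theorem le_cr {x k : ℕ} (h : k ^ 3 ≤ x) : k ≤ cr x := by
  have h1 := h.trans_lt (cr_spec x).2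
  have := lt_of_cube_lt h1
  omega

theorem cr_le_self (x : ℕ) : cr x ≤ x := Nat.findGreatest_le x

theorem mem_Bl {i b : ℕ} : b ∈ Bl i ↔ (i + 2) ^ 3 ≤ 9000 * b ∧ 9000 * b < (i + 17) ^ 3 := by
  rw [Bl, Finset.mem_filter, Finset.mem_range]
  constructor
  · exact fun h => h.2
  · intro h
    exact ⟨by omega, h⟩

theorem mem_sub {i b m : ℕ} : m ∈ Moser.sub i b ↔ (9000 * b ≤ m ∧ m < 9000 * (b + 1)) ∧ bat m = i := by
  rw [Moser.sub, Finset.mem_filter, Finset.mem_Ico]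

end Blocks

open Blocks

theorem bat_block {i m : ℕ} (hi : 1 ≤ i) (h : bat m = i) :
    m / 9000 ∈ Bl i ∧ m ∈ sub i (m / 9000) := by
  constructor
  · rw [mem_Bl]
    have h1 := cr_spec (9000 * (m / 9000))
    unfold bat at h
    have hq : m % 9000 / 600 < 15 := by omega
    constructor
    · have h2 : i + 2 ≤ cr (9000 * (m / 9000)) := by omega
      exact (Nat.pow_le_pow_left h2 3).trans h1.1
    · have h2 : cr (9000 * (m / 9000)) + 1 ≤ i + 17 := by omega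
      exact h1.2.trans_le (Nat.pow_le_pow_left h2 3)
  · rw [mem_sub]
    refine ⟨⟨by omega, by omega⟩, h⟩

theorem mem_sub_bounds {i b m : ℕ} (hi : 1 ≤ i) (hb : b ∈ Bl i) (hm : m ∈ sub i b) :
    (i + 2) ^ 3 ≤ m ∧ m < (i + 17) ^ 3 + 9000 ∧ bat m = i ∧ m / 9000 = b := by
  rw [mem_Bl] at hb
  rw [mem_sub] at hm
  refine ⟨by omega, by omega, hm.2, by omega⟩

/-- `sub i b = [9000 b + 600 q, 9000 b + 600 (q + 1))` with `q = cr (9000 b) - 2 - i` -/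
theorem sub_eq {i b : ℕ} (hi : 1 ≤ i) (hb : b ∈ Bl i) :
    ∃ q : ℕ, q < 15 ∧ sub i b = Finset.Ico (9000 * b + 600 * q) (9000 * b + 600 * (q + 1)) := by
  rw [mem_Bl] at hb
  have h1 : i + 2 ≤ cr (9000 * b) := le_cr hb.1
  have h2 : cr (9000 * b) ≤ i + 16 := cr_le hb.2
  obtain ⟨q, hq⟩ : ∃ q : ℕ, cr (9000 * b) = i + 2 + q := ⟨cr (9000 * b) - (i + 2), by omega⟩
  have hq15 : q < 15 := by omega
  refine ⟨q, hq15, ?_⟩
  ext m
  rw [mem_sub, Finset.mem_Ico]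
  clear hb h1 h2
  constructor
  · rintro ⟨⟨h3, h4⟩, h5⟩
    have e : m / 9000 = b := by omega
    have e2 : m % 9000 = m - 9000 * b := by omega
    unfold bat at h5
    rw [e, e2, hq] at h5
    clear e e2 hq
    omega
  · rintro ⟨h3, h4⟩
    have hlt : m < 9000 * (b + 1) := by clear hq; linarith
    have e : m / 9000 = b := by clear hq; omega
    have e2 : m % 9000 = m - 9000 * b := by clear hq; omega
    refine ⟨⟨by clear hq; omega, hlt⟩, ?_⟩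
    unfold bat
    rw [e, e2, hq]
    clear e e2 hq
    omega

theorem card_sub {i b : ℕ} (hi : 1 ≤ i) (hb : b ∈ Bl i) : (sub i b).card = 600 := by
  obtain ⟨q, hq, h⟩ := sub_eq hi hb
  rw [h, Nat.card_Ico]
  omega

/-- `#Bl i = ((i + 17) ^ 3 - (i + 2) ^ 3) / 9000` up to `1` -/
theorem card_Bl : ∃ i0 : ℕ, ∀ i : ℕ, i0 ≤ i →
    (i : ℝ) ^ 2 / 200 ≤ ((Bl i).card : ℝ) ∧ ((Bl i).card : ℝ) ≤ (i : ℝ) ^ 2 / 150 := by
  refine ⟨1000, fun i hi => ?_⟩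
  have hB : Bl i = Finset.Ico (((i + 2) ^ 3 + 8999) / 9000) (((i + 17) ^ 3 + 8999) / 9000) := by
    ext b
    rw [mem_Bl, Finset.mem_Ico]
    omega
  have hle : (i + 2) ^ 3 ≤ (i + 17) ^ 3 := Nat.pow_le_pow_left (by omega) 3
  have hlo : (i + 17) ^ 3 ≤ 9000 * (Bl i).card + (i + 2) ^ 3 + 9000 := by
    rw [hB, Nat.card_Ico]; omega
  have hhi : 9000 * (Bl i).card + (i + 2) ^ 3 ≤ (i + 17) ^ 3 + 9000 := by
    rw [hB, Nat.card_Ico]; omega
  have hlo' : ((i : ℝ) + 17) ^ 3 ≤ 9000 * ((Bl i).card : ℝ) + ((i : ℝ) + 2) ^ 3 + 9000 := by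
    exact_mod_cast hlo
  have hhi' : 9000 * ((Bl i).card : ℝ) + ((i : ℝ) + 2) ^ 3 ≤ ((i : ℝ) + 17) ^ 3 + 9000 := by
    exact_mod_cast hhi
  have hi' : (1000 : ℝ) ≤ i := by exact_mod_cast hi
  constructor
  · nlinarith
  · nlinarith

theorem mem_MM {n0 i m : ℕ} (hi : 1 ≤ i) : m ∈ MM n0 i ↔ n0 ≤ m ∧ bat m = i := by
  rw [MM, Finset.mem_filter, Finset.mem_range]
  constructor
  · exact fun h => h.2
  · intro h
    obtain ⟨h1, h2⟩ := bat_block hi h.2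
    exact ⟨(mem_sub_bounds hi h1 h2).2.1, h⟩

theorem mem_SS {n0 i m : ℕ} (hi : 1 ≤ i) : m ∈ SS n0 i ↔ n0 ≤ m ∧ bat m < i := by
  rw [SS, Finset.mem_filter, Finset.mem_range]
  constructor
  · exact fun h => h.2
  · intro h
    refine ⟨?_, h⟩
    have h1 := cr_spec (9000 * (m / 9000))
    have h2 := h.2
    unfold bat at h2
    have hq : m % 9000 / 600 < 15 := by omega
    have h3 : cr (9000 * (m / 9000)) + 1 ≤ i + 17 := by omega
    have h4 := h1.2.trans_le (Nat.pow_le_pow_left h3 3)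
    omega

theorem MM_bounds {n0 i m : ℕ} (hi : 1 ≤ i) (hm : m ∈ MM n0 i) :
    n0 ≤ m ∧ (i + 2) ^ 3 ≤ m ∧ m < (i + 17) ^ 3 + 9000 := by
  rw [mem_MM hi] at hm
  obtain ⟨h1, h2⟩ := bat_block hi hm.2
  have := mem_sub_bounds hi h1 h2
  exact ⟨hm.1, this.1, this.2.1⟩

theorem MM_subset {n0 i : ℕ} (hi : 1 ≤ i) : MM n0 i ⊆ (Bl i).biUnion (sub i) := by
  intro m hm
  rw [mem_MM hi] at hm
  obtain ⟨h1, h2⟩ := bat_block hi hm.2
  rw [Finset.mem_biUnion]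
  exact ⟨_, h1, h2⟩

theorem MM_eq {n0 i : ℕ} (hi : 1 ≤ i) (h : n0 ≤ (i + 2) ^ 3) :
    MM n0 i = (Bl i).biUnion (sub i) := by
  apply Finset.Subset.antisymm (MM_subset hi)
  intro m hm
  rw [Finset.mem_biUnion] at hm
  obtain ⟨b, hb, hm⟩ := hm
  have := mem_sub_bounds hi hb hm
  rw [mem_MM hi]
  exact ⟨h.trans this.1, this.2.2.1⟩

/-- `#MM ≤ 600 #Bl` -/
theorem card_MM : ∃ i0 : ℕ, ∀ n0 i : ℕ, i0 ≤ i → ((MM n0 i).card : ℝ) ≤ 4 * (i : ℝ) ^ 2 := by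
  obtain ⟨i0, h0⟩ := card_Bl
  refine ⟨max i0 1, fun n0 i hi => ?_⟩
  have hi1 : 1 ≤ i := (le_max_right _ _).trans hi
  have h1 := (h0 i ((le_max_left _ _).trans hi)).2
  have h2 : (MM n0 i).card ≤ 600 * (Bl i).card := by
    refine (Finset.card_le_card (MM_subset hi1)).trans ?_
    refine Finset.card_biUnion_le.trans ?_
    rw [Finset.sum_congr rfl fun b hb => card_sub hi1 hb, Finset.sum_const, smul_eq_mul, mul_comm]
  have h3 : ((MM n0 i).card : ℝ) ≤ 600 * ((Bl i).card : ℝ) := by exact_mod_cast h2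
  linarith

theorem SS_succ {n0 i : ℕ} (hi : 1 ≤ i) :
    (SS n0 (i + 1)).val = (MM n0 i).val + (SS n0 i).val := by
  have hd : Disjoint (MM n0 i) (SS n0 i) := by
    rw [Finset.disjoint_left]
    intro m h1 h2
    rw [mem_MM hi] at h1
    rw [mem_SS hi] at h2
    omega
  have : SS n0 (i + 1) = (MM n0 i).disjUnion (SS n0 i) hd := by
    ext m
    rw [Finset.mem_disjUnion, mem_MM hi, mem_SS hi, mem_SS (by omega)]
    omega
  rw [this]
  rfl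

/-- `m ≥ (s + 17) ^ 3` implies `9000 (m / 9000) ≥ (s + 16) ^ 3`, so `bat m ≥ s` -/
theorem SS_start : ∃ s0 : ℕ, ∀ s n0 : ℕ, s0 ≤ s → (s + 17) ^ 3 ≤ n0 → SS n0 s = ∅ := by
  refine ⟨100, fun s n0 hs hn => ?_⟩
  rw [Finset.eq_empty_iff_forall_notMem]
  intro m hm
  rw [mem_SS (by omega)] at hm
  have h1 : (s + 16) ^ 3 + 8999 ≤ (s + 17) ^ 3 := by nlinarith
  have h2 : (s + 16) ^ 3 ≤ 9000 * (m / 9000) := by omega
  have h3 := le_cr h2
  have h4 := hm.2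
  unfold bat at h4
  omega

theorem SS_exhaust (n0 n : ℕ) : ∃ i0 : ℕ, ∀ i : ℕ, i0 ≤ i → ∀ m : ℕ, n0 ≤ m → m ≤ n →
    m ∈ SS n0 i := by
  refine ⟨n + 1, fun i hi m h1 h2 => ?_⟩
  rw [mem_SS (by omega)]
  refine ⟨h1, ?_⟩
  have := cr_le_self (9000 * (m / 9000))
  unfold bat
  omega

end Pool.Agent.Moser
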