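import Pool.Agent.Lib_MP_cc07e8_co.TailDefs

/-!
# MP_cc07e8_co, tail theorem: children of a square
-/

namespace Pool.Agent.Moser

theorem Tc_inv {c : ℝ} {m : ℕ} (hc : 0 < c) (h : c < m) : 1 / Tc c m = 1 / c - 1 / (m : ℝ) := by
  have hm : (0 : ℝ) < m := hc.trans h
  have h1 : (m : ℝ) - c ≠ 0 := by
    have : (0 : ℝ) < m - c := by linarith
    exact this.ne'
  unfold Tc
  field_simp

namespace Child

/-- the inverse of `Tc c m` is at least `2.95 / i ^ 4` -/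
theorem inv_lower {i : ℕ} (hi : 10000 ≤ i) {m : ℕ} (hm : (i + 2) ^ 3 ≤ m) {c : ℝ} (hc : 0 < c)
    (hc2 : c < ((i : ℝ) + 1) ^ 3) : 2.95 / (i : ℝ) ^ 4 ≤ 1 / c - 1 / (m : ℝ) := by
  obtain ⟨n, rfl⟩ := Nat.exists_eq_add_of_le hi
  have hm' : ((((10000 + n : ℕ) : ℝ)) + 2) ^ 3 ≤ (m : ℝ) := by exact_mod_cast hm
  have hn : (0 : ℝ) ≤ n := Nat.cast_nonneg n
  push_cast at hm' hc2 ⊢
  have h1 : 1 / (m : ℝ) ≤ 1 / ((10000 + (n : ℝ)) + 2) ^ 3 :=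
    one_div_le_one_div_of_le (by positivity) hm'
  have h2 : 1 / ((10000 + (n : ℝ)) + 1) ^ 3 ≤ 1 / c := one_div_le_one_div_of_le hc hc2.le
  have h3 : 2.95 / (10000 + (n : ℝ)) ^ 4 ≤
      1 / ((10000 + (n : ℝ)) + 1) ^ 3 - 1 / ((10000 + (n : ℝ)) + 2) ^ 3 := by
    rw [div_sub_div _ _ (by positivity) (by positivity), div_le_div_iff₀ (by positivity)
      (by positivity), ← sub_nonneg]
    ring_nf
    positivity
  linarith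

/-- the inverse of `Tc c m` is at most `51.5 / i ^ 4` -/
theorem inv_upper {i : ℕ} (hi : 10000 ≤ i) {m : ℕ} (hm0 : 0 < m)
    (hm : m < (i + 17) ^ 3 + 9000) {c : ℝ}
    (hc : (i : ℝ) ^ 3 ≤ c) : 1 / c - 1 / (m : ℝ) ≤ 51.5 / (i : ℝ) ^ 4 := by
  obtain ⟨n, rfl⟩ := Nat.exists_eq_add_of_le hi
  have hm' : (m : ℝ) ≤ ((((10000 + n : ℕ) : ℝ)) + 17) ^ 3 + 9000 := by exact_mod_cast hm.le
  have hn : (0 : ℝ) ≤ n := Nat.cast_nonneg n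
  push_cast at hm' hc ⊢
  have hm1 : (0 : ℝ) < m := by exact_mod_cast hm0
  have h1 : 1 / (((10000 + (n : ℝ)) + 17) ^ 3 + 9000) ≤ 1 / (m : ℝ) :=
    one_div_le_one_div_of_le hm1 hm'
  have h2 : 1 / c ≤ 1 / (10000 + (n : ℝ)) ^ 3 := one_div_le_one_div_of_le (by positivity) hc
  have h3 : 1 / (10000 + (n : ℝ)) ^ 3 - 1 / (((10000 + (n : ℝ)) + 17) ^ 3 + 9000) ≤
      51.5 / (10000 + (n : ℝ)) ^ 4 := by
    rw [div_sub_div _ _ (by positivity) (by positivity), div_le_div_iff₀ (by positivity)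
      (by positivity), ← sub_nonneg]
    ring_nf
    positivity
  linarith

end Child

/-- `Tc c m = c + c ^ 2 / (m - c)` is between `i ^ 6 / ((i + 17) ^ 3 + 9000 - i ^ 3)` and
`(i + 1) ^ 3 + (i + 1) ^ 6 / ((i + 2) ^ 3 - (i + 1) ^ 3)`. -/
theorem child_props : ∃ i0 : ℕ, ∀ i m : ℕ, i0 ≤ i → (i + 2) ^ 3 ≤ m → m < (i + 17) ^ 3 + 9000 →
    ∀ c : ℝ, (i : ℝ) ^ 3 ≤ c → c < ((i : ℝ) + 1) ^ 3 →
    c < m ∧ ((i : ℝ) + 1) ^ 3 ≤ Tc c m ∧ 8 * Tc c m ^ 3 ≤ (m : ℝ) ^ 4 ∧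
      (m : ℝ) ^ 4 ≤ (60 * Tc c m) ^ 3 ∧ 2.95 * Tc c m ≤ (i : ℝ) ^ 4 ∧
      (i : ℝ) ^ 4 ≤ 51.5 * Tc c m := by
  refine ⟨10000, fun i m hi hm1 hm2 c hc1 hc2 => ?_⟩
  have hi' : (10000 : ℝ) ≤ i := by exact_mod_cast hi
  have hi0 : (0 : ℝ) < (i : ℝ) ^ 3 := by positivity
  have hc0 : 0 < c := hi0.trans_le hc1
  have hm1' : ((i : ℝ) + 2) ^ 3 ≤ (m : ℝ) := by exact_mod_cast hm1
  have hm2' : (m : ℝ) ≤ ((i : ℝ) + 17) ^ 3 + 9000 := by exact_mod_cast hm2.le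
  have hcm : c < m := by
    have : ((i : ℝ) + 1) ^ 3 ≤ ((i : ℝ) + 2) ^ 3 := by gcongr; norm_num
    linarith
  have hm0 : (0 : ℝ) < m := hc0.trans hcm
  have hinv := Tc_inv hc0 hcm
  have hT : 0 < Tc c m := by
    unfold Tc
    have : (0 : ℝ) < m - c := by linarith
    positivity
  have hlo := Child.inv_lower hi hm1 hc0 hc2
  have hup := Child.inv_upper hi (by exact_mod_cast hm0) hm2 hc1
  rw [← hinv] at hlo hup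
  have hU : 2.95 * Tc c m ≤ (i : ℝ) ^ 4 := by
    rw [div_le_div_iff₀ (by positivity) hT] at hlo
    linarith
  have hL : (i : ℝ) ^ 4 ≤ 51.5 * Tc c m := by
    rw [div_le_div_iff₀ hT (by positivity)] at hup
    linarith
  refine ⟨hcm, ?_, ?_, ?_, hU, hL⟩
  · have h1 : 51.5 * ((i : ℝ) + 1) ^ 3 ≤ (i : ℝ) ^ 4 := by
      obtain ⟨n, rfl⟩ := Nat.exists_eq_add_of_le hi
      push_cast
      have hn : (0 : ℝ) ≤ n := Nat.cast_nonneg n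
      rw [← sub_nonneg]
      ring_nf
      positivity
    linarith
  · have h1 : Tc c m ≤ (i : ℝ) ^ 4 / 2.95 := by
      rw [le_div_iff₀ (by norm_num)]; linarith
    have h2 : Tc c m ^ 3 ≤ ((i : ℝ) ^ 4 / 2.95) ^ 3 := by gcongr
    have h3 : (i : ℝ) ^ 3 ≤ m := by
      have : (i : ℝ) ^ 3 ≤ ((i : ℝ) + 2) ^ 3 := by gcongr; linarith
      linarith
    have h4 : ((i : ℝ) ^ 3) ^ 4 ≤ (m : ℝ) ^ 4 := by gcongr
    have h5 : 8 * ((i : ℝ) ^ 4 / 2.95) ^ 3 ≤ ((i : ℝ) ^ 3) ^ 4 := by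
      have e : 8 * ((i : ℝ) ^ 4 / 2.95) ^ 3 = (8 / 2.95 ^ 3) * ((i : ℝ) ^ 3) ^ 4 := by ring
      rw [e]
      have : (0 : ℝ) ≤ ((i : ℝ) ^ 3) ^ 4 := by positivity
      nlinarith
    linarith
  · have h1 : (i : ℝ) ^ 4 / 51.5 ≤ Tc c m := by
      rw [div_le_iff₀ (by norm_num)]; linarith
    have h2 : (m : ℝ) ≤ 1.01 * (i : ℝ) ^ 3 := by
      refine hm2'.trans ?_
      obtain ⟨n, rfl⟩ := Nat.exists_eq_add_of_le hi
      push_cast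
      have hn : (0 : ℝ) ≤ n := Nat.cast_nonneg n
      rw [← sub_nonneg]
      ring_nf
      positivity
    have h3 : (m : ℝ) ^ 4 ≤ (1.01 * (i : ℝ) ^ 3) ^ 4 := by gcongr
    have h4 : (60 * ((i : ℝ) ^ 4 / 51.5)) ^ 3 ≤ (60 * Tc c m) ^ 3 := by gcongr
    have h5 : (1.01 * (i : ℝ) ^ 3) ^ 4 ≤ (60 * ((i : ℝ) ^ 4 / 51.5)) ^ 3 := by
      have e1 : (1.01 * (i : ℝ) ^ 3) ^ 4 = 1.01 ^ 4 * (i : ℝ) ^ 12 := by ring
      have e2 : (60 * ((i : ℝ) ^ 4 / 51.5)) ^ 3 = (60 / 51.5) ^ 3 * (i : ℝ) ^ 12 := by ring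
      rw [e1, e2]
      gcongr
      norm_num
    linarith

theorem IJ_of_Wd {i j : ℕ} {t : ℝ} (h1 : 2.95 * t ≤ (i : ℝ) ^ 4) (h2 : (i : ℝ) ^ 4 ≤ 51.5 * t)
    (h : Wd j t) : IJ i j := by
  obtain ⟨h3, h4⟩ := h
  exact ⟨by linarith, by linarith⟩

end Pool.Agent.Moser
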