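import Pool.Agent.Lib_MP_cc07e8_co.Geo

/-!
# MP_cc07e8_co, tail theorem: compactness
-/

namespace Pool.Agent.Moser

open Filter Topology

private theorem compact_lim_fin {k : ℕ} (U : Ultrafilter ℕ) (c : ℕ → Fin (k + 1)) :
    ∃ a, ∀ᶠ n in (U : Filter ℕ), c n = a := by
  by_contra hcon
  push Not at hcon
  have h1 : ∀ a, ∀ᶠ n in (U : Filter ℕ), c n ≠ a := fun a => by
    exact hcon a
  have h2 : ∀ᶠ n in (U : Filter ℕ), ∀ a, c n ≠ a := eventually_all.2 h1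
  obtain ⟨n, hn⟩ := h2.exists
  exact hn (c n) rfl

private theorem compact_lim_real (U : Ultrafilter ℕ) (M : ℝ) (x : ℕ → ℝ)
    (hx : ∀ᶠ n in (U : Filter ℕ), x n ∈ Set.Icc 0 M) :
    ∃ a, Tendsto x (U : Filter ℕ) (𝓝 a) := by
  have h1 := (isCompact_Icc (a := (0 : ℝ)) (b := M)).ultrafilter_le_nhds (U.map x)
    (by
      rw [le_principal_iff]
      exact hx)
  obtain ⟨a, -, ha⟩ := h1
  exact ⟨a, ha⟩

private theorem sep_closed (a b a' b' : ℝ) :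
    IsClosed {p : ℝ × ℝ × ℝ × ℝ | Sep p.1 p.2.1 a b p.2.2.1 p.2.2.2 a' b'} := by
  unfold Sep
  have h1 : IsClosed {p : ℝ × ℝ × ℝ × ℝ | p.1 + a ≤ p.2.2.1} :=
    isClosed_le (by fun_prop) (by fun_prop)
  have h2 : IsClosed {p : ℝ × ℝ × ℝ × ℝ | p.2.2.1 + a' ≤ p.1} :=
    isClosed_le (by fun_prop) (by fun_prop)
  have h3 : IsClosed {p : ℝ × ℝ × ℝ × ℝ | p.2.1 + b ≤ p.2.2.2} :=
    isClosed_le (by fun_prop) (by fun_prop)
  have h4 : IsClosed {p : ℝ × ℝ × ℝ × ℝ | p.2.2.2 + b' ≤ p.2.1} :=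
    isClosed_le (by fun_prop) (by fun_prop)
  exact h1.union (h2.union (h3.union h4))

/-- Compactness: along a nonprincipal ultrafilter `c n m` is constant, `px n m`, `py n m` converge (they are
bounded), the conditions are closed and finite disjunctions pass to the limit. -/
theorem compact_packing {k : ℕ} (w h : Fin (k + 1) → ℝ) (n0 : ℕ)
    (H : ∀ n : ℕ, ∃ (c : ℕ → Fin (k + 1)) (px py : ℕ → ℝ),
      Packed w h {m | n0 ≤ m ∧ m ≤ n} c px py) :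
    ∃ (c : ℕ → Fin (k + 1)) (px py : ℕ → ℝ), Packed w h {m | n0 ≤ m} c px py := by
  choose c px py hP using H
  set U : Ultrafilter ℕ := hyperfilter ℕ with hU
  have hge : ∀ m : ℕ, ∀ᶠ n in (U : Filter ℕ), m ≤ n := by
    intro m
    have h1 : (U : Filter ℕ) ≤ atTop := Nat.hyperfilter_le_atTop
    exact h1 (eventually_ge_atTop m)
  choose c' hc' using fun m => compact_lim_fin U (fun n => c n m)
  obtain ⟨Mw, hMw⟩ : ∃ M : ℝ, ∀ i, w i ≤ M :=
    ⟨Finset.univ.sup' ⟨0, Finset.mem_univ 0⟩ w, fun i => Finset.le_sup' w (Finset.mem_univ i)⟩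
  obtain ⟨Mh, hMh⟩ : ∃ M : ℝ, ∀ i, h i ≤ M :=
    ⟨Finset.univ.sup' ⟨0, Finset.mem_univ 0⟩ h, fun i => Finset.le_sup' h (Finset.mem_univ i)⟩
  have hbx : ∀ m, n0 ≤ m → ∀ᶠ n in (U : Filter ℕ), px n m ∈ Set.Icc 0 Mw := by
    intro m hm
    filter_upwards [hge m] with n hn
    obtain ⟨a1, a2, a3, a4⟩ := (hP n).1 m ⟨hm, hn⟩
    have h0 : (0 : ℝ) ≤ 1 / (m : ℝ) := by positivity
    exact ⟨a1, by linarith [hMw (c n m)]⟩
  have hby : ∀ m, n0 ≤ m → ∀ᶠ n in (U : Filter ℕ), py n m ∈ Set.Icc 0 Mh := by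
    intro m hm
    filter_upwards [hge m] with n hn
    obtain ⟨a1, a2, a3, a4⟩ := (hP n).1 m ⟨hm, hn⟩
    have h0 : (0 : ℝ) ≤ 1 / (m : ℝ) := by positivity
    exact ⟨a3, by linarith [hMh (c n m)]⟩
  have hex : ∀ m, ∃ a, n0 ≤ m → Tendsto (fun n => px n m) (U : Filter ℕ) (𝓝 a) := by
    intro m
    by_cases hm : n0 ≤ m
    · obtain ⟨a, ha⟩ := compact_lim_real U Mw _ (hbx m hm)
      exact ⟨a, fun _ => ha⟩
    · exact ⟨0, fun h => absurd h hm⟩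
  have hey : ∀ m, ∃ a, n0 ≤ m → Tendsto (fun n => py n m) (U : Filter ℕ) (𝓝 a) := by
    intro m
    by_cases hm : n0 ≤ m
    · obtain ⟨a, ha⟩ := compact_lim_real U Mh _ (hby m hm)
      exact ⟨a, fun _ => ha⟩
    · exact ⟨0, fun h => absurd h hm⟩
  choose qx hqx using hex
  choose qy hqy using hey
  refine ⟨c', qx, qy, ?_, ?_⟩
  · intro m hm
    have hm' : n0 ≤ m := hm
    have e1 : ∀ᶠ n in (U : Filter ℕ), 0 ≤ px n m ∧ px n m + 1 / (m : ℝ) ≤ w (c' m) ∧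
        0 ≤ py n m ∧ py n m + 1 / (m : ℝ) ≤ h (c' m) := by
      filter_upwards [hge m, hc' m] with n hn hcn
      have h1 := (hP n).1 m ⟨hm', hn⟩
      rw [hcn] at h1
      exact h1
    refine ⟨?_, ?_, ?_, ?_⟩
    · exact ge_of_tendsto (hqx m hm') (e1.mono fun n h => h.1)
    · exact le_of_tendsto ((hqx m hm').add_const (1 / (m : ℝ))) (e1.mono fun n h => h.2.1)
    · exact ge_of_tendsto (hqy m hm') (e1.mono fun n h => h.2.2.1)
    · exact le_of_tendsto ((hqy m hm').add_const (1 / (m : ℝ))) (e1.mono fun n h => h.2.2.2)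
  · intro m hm l hl hml hcc
    have hm' : n0 ≤ m := hm
    have hl' : n0 ≤ l := hl
    have e1 : ∀ᶠ n in (U : Filter ℕ), (px n m, py n m, px n l, py n l) ∈
        {p : ℝ × ℝ × ℝ × ℝ | Sep p.1 p.2.1 (1 / (m : ℝ)) (1 / (m : ℝ)) p.2.2.1 p.2.2.2
          (1 / (l : ℝ)) (1 / (l : ℝ))} := by
      filter_upwards [hge m, hge l, hc' m, hc' l] with n hn hn' hcm hcl
      exact (hP n).2 m ⟨hm', hn⟩ l ⟨hl', hn'⟩ hml (by rw [hcm, hcl, hcc])
    have e2 : Tendsto (fun n => (px n m, py n m, px n l, py n l)) (U : Filter ℕ)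
        (𝓝 (qx m, qy m, qx l, qy l)) :=
      (hqx m hm').prodMk_nhds ((hqy m hm').prodMk_nhds ((hqx l hl').prodMk_nhds (hqy l hl')))
    exact (sep_closed _ _ _ _).mem_of_tendsto e2 e1

end Pool.Agent.Moser
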