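import Pool.Agent.Lib_MP_cc07e8_co.EngState

/-!
# MP_cc07e8_co, engine piece AREA: area identities

`Dec.area_eq` (file `Geo.lean`): `a * b = sqa S + area ρ`; `∑ n ≥ 2, 1 / n ^ 2 = π ^ 2 / 6 - 1` (`hasSum_zeta_two`).
Split the series at `N`, `N'`; `1 / N' ≤ ∑ n ≥ N', 1 / n ^ 2 ≤ 1 / (N' - 1)` (telescoping with
`1 / (n (n + 1)) ≤ 1 / n ^ 2 ≤ 1 / ((n - 1) n)`).
-/

namespace Pool.Agent.Moser.Eng

private theorem area_tendsto :
    Filter.Tendsto (fun M : ℕ => ∑ q ∈ Finset.Ico 2 (M + 2), 1 / (q : ℝ) ^ 2) Filter.atTop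
      (nhds (Real.pi ^ 2 / 6 - 1)) := by
  have h1 := hasSum_zeta_two.tendsto_sum_nat
  have h2 := (h1.comp (Filter.tendsto_add_atTop_nat 2)).sub_const 1
  refine h2.congr fun M => ?_
  simp only [Function.comp]
  have h3 := Finset.sum_range_add_sum_Ico (fun n : ℕ => 1 / (n : ℝ) ^ 2) (show 2 ≤ M + 2 by omega)
  rw [← h3, Finset.sum_range_succ, Finset.sum_range_succ, Finset.sum_range_zero]
  push_cast
  norm_num

private theorem area_tail_low {M : ℕ} (hM : 2 ≤ M) :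
    ∑ q ∈ Finset.Ico 2 M, 1 / (q : ℝ) ^ 2 + 1 / (M : ℝ) ≤ Real.pi ^ 2 / 6 - 1 := by
  obtain ⟨m, rfl⟩ := Nat.exists_eq_add_of_le' hM
  have hmono : Monotone (fun M : ℕ => ∑ q ∈ Finset.Ico 2 (M + 2), 1 / (q : ℝ) ^ 2 +
      1 / ((M + 2 : ℕ) : ℝ)) := by
    refine monotone_nat_of_le_succ fun n => ?_
    rw [show n + 1 + 2 = (n + 2) + 1 by ring, Finset.sum_Ico_succ_top (show 2 ≤ n + 2 by omega)]
    have h0 : (0 : ℝ) < ((n + 2 : ℕ) : ℝ) := by positivity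
    have h1 : (0 : ℝ) < ((n + 2 + 1 : ℕ) : ℝ) := by positivity
    have h2 : 1 / ((n + 2 : ℕ) : ℝ) ≤ 1 / ((n + 2 : ℕ) : ℝ) ^ 2 + 1 / ((n + 2 + 1 : ℕ) : ℝ) := by
      push_cast
      push_cast at h0 h1
      rw [div_add_div _ _ (by positivity) (by positivity), div_le_div_iff₀ h0 (by positivity)]
      nlinarith
    linarith
  have hlim : Filter.Tendsto (fun M : ℕ => ∑ q ∈ Finset.Ico 2 (M + 2), 1 / (q : ℝ) ^ 2 +
      1 / ((M + 2 : ℕ) : ℝ)) Filter.atTop (nhds (Real.pi ^ 2 / 6 - 1)) := by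
    have h1 : Filter.Tendsto (fun M : ℕ => 1 / ((M + 2 : ℕ) : ℝ)) Filter.atTop (nhds 0) :=
      (tendsto_one_div_atTop_nhds_zero_nat (𝕜 := ℝ)).comp (Filter.tendsto_add_atTop_nat 2)
    have h2 := area_tendsto.add h1
    rw [add_zero] at h2
    exact h2
  exact hmono.ge_of_tendsto hlim m

private theorem area_tail_up {M : ℕ} (hM : 2 ≤ M) :
    Real.pi ^ 2 / 6 - 1 ≤ ∑ q ∈ Finset.Ico 2 M, 1 / (q : ℝ) ^ 2 + 1 / ((M : ℝ) - 1) := by
  obtain ⟨m, rfl⟩ := Nat.exists_eq_add_of_le' hM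
  have hanti : Antitone (fun M : ℕ => ∑ q ∈ Finset.Ico 2 (M + 2), 1 / (q : ℝ) ^ 2 +
      1 / (((M + 2 : ℕ) : ℝ) - 1)) := by
    refine antitone_nat_of_succ_le fun n => ?_
    rw [show n + 1 + 2 = (n + 2) + 1 by ring, Finset.sum_Ico_succ_top (show 2 ≤ n + 2 by omega)]
    have h0 : (0 : ℝ) ≤ (n : ℝ) := Nat.cast_nonneg n
    have h2 : 1 / ((n + 2 : ℕ) : ℝ) ^ 2 + 1 / (((n + 2 + 1 : ℕ) : ℝ) - 1) ≤
        1 / (((n + 2 : ℕ) : ℝ) - 1) := by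
      push_cast
      have e1 : (n : ℝ) + 2 + 1 - 1 = (n : ℝ) + 2 := by ring
      have e2 : (n : ℝ) + 2 - 1 = (n : ℝ) + 1 := by ring
      rw [e1, e2, div_add_div _ _ (by positivity) (by positivity),
        div_le_div_iff₀ (by positivity) (by positivity)]
      nlinarith
    linarith
  have hlim : Filter.Tendsto (fun M : ℕ => ∑ q ∈ Finset.Ico 2 (M + 2), 1 / (q : ℝ) ^ 2 +
      1 / (((M + 2 : ℕ) : ℝ) - 1)) Filter.atTop (nhds (Real.pi ^ 2 / 6 - 1)) := by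
    have h1 : Filter.Tendsto (fun M : ℕ => 1 / (((M + 2 : ℕ) : ℝ) - 1)) Filter.atTop (nhds 0) := by
      have h3 : (fun M : ℕ => 1 / (((M + 2 : ℕ) : ℝ) - 1)) = fun M : ℕ => 1 / ((M : ℝ) + 1) := by
        funext M
        push_cast
        congr 1
        ring
      rw [h3]
      exact tendsto_one_div_add_atTop_nhds_zero_nat
    have h2 := area_tendsto.add h1
    rw [add_zero] at h2
    exact h2
  exact hanti.le_of_tendsto hlim m

private theorem sqa_val (U : Finset ℕ) : sqa U.val = ∑ q ∈ U, 1 / (q : ℝ) ^ 2 := by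
  have h := sqa_sum U fun q => ({q} : Multiset ℕ)
  rw [Finset.sum_multiset_singleton] at h
  rw [h]
  refine Finset.sum_congr rfl fun q _ => ?_
  rw [sqa_singleton, div_pow, one_pow]

theorem main_area_low {a b X Y : ℝ} (hab : a * b = Real.pi ^ 2 / 6 - 1) {N N' : ℕ} (hN : 2 ≤ N)
    (hNN : N ≤ N') {U : Finset ℕ} (hU : ∀ q ∈ U, N ≤ q ∧ q < N') {T : Multiset (ℝ × ℝ)}
    (hd : Dec a b (U.val + (Finset.Ico 2 N).val) ((X, Y) ::ₘ T)) :
    ∑ q ∈ Finset.Ico N N' \ U, 1 / (q : ℝ) ^ 2 + 1 / (N' : ℝ) ≤ X * Y + area T := by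
  have h1 := hd.area_eq
  rw [sqa_add, sqa_val, sqa_val, area_cons, hab] at h1
  have h2 := area_tail_low (hN.trans hNN)
  have h3 := Finset.sum_Ico_consecutive (fun q : ℕ => 1 / (q : ℝ) ^ 2) hN hNN
  have hsub : U ⊆ Finset.Ico N N' := fun q hq => Finset.mem_Ico.2 (hU q hq)
  have h4 := Finset.sum_sdiff (f := fun q : ℕ => 1 / (q : ℝ) ^ 2) hsub
  linarith

theorem main_area_up {a b X Y : ℝ} (hab : a * b = Real.pi ^ 2 / 6 - 1) {N : ℕ} (hN : 2 ≤ N)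
    {T : Multiset (ℝ × ℝ)} (hT : ∀ r ∈ T, 0 ≤ r.1 ∧ 0 ≤ r.2)
    (hd : Dec a b (Finset.Ico 2 N).val ((X, Y) ::ₘ T)) : X * Y * ((N : ℝ) - 1) ≤ 1 := by
  have h1 := hd.area_eq
  rw [sqa_val, area_cons, hab] at h1
  have h2 := area_tail_up hN
  have hT' : 0 ≤ area T := by
    unfold area
    refine Multiset.sum_nonneg fun x hx => ?_
    obtain ⟨r, hr, rfl⟩ := Multiset.mem_map.1 hx
    exact mul_nonneg (hT r hr).1 (hT r hr).2
  have hN' : (2 : ℝ) ≤ N := by exact_mod_cast hN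
  have h3 : X * Y ≤ 1 / ((N : ℝ) - 1) := by linarith
  rwa [le_div_iff₀ (by linarith)] at h3

end Pool.Agent.Moser.Eng
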