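import Pool.Agent.Lib_MP_cc07e8_co.EngHit

/-!
# MP_cc07e8_co, engine piece CHILDK: loads by one child

`xx_child_le`: if `xx k c ≠ 0` then `k ≥ 61000` (`child_hit`) and `xx k c = ⌊(1 / q) tau (i' + 16)⌋ / DD i'` with `i' + 4 ≤ k ≤ i' + 15`;
`tau (i' + 16) / DD i' ≤ 1.00002 (i' + 28) / 36` for `i' ≥ 60985` (as `tau_div_DD`, now the floor error `64 * 750 / i' ^ 2` is
`≤ 1.3e-5`), `i' ≤ k - 4`.
`child_xx`: `q ≥ tau K ≥ K ^ 3 / 27000 - 64`: `xx k c ≤ 1.00002 (k + 24) / 36 * 27000 / (K ^ 3 - 1728000) ≤ 751 k / K ^ 3` (real maximum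
`750.28`).
`child_rows`: the window `i'` of the child is unique: it is `≥ 10305` for a hit row `k ≥ 10320` (`i' ≥ k - 15`), `InW_unique`; so the
rows which are hit lie in `[i' + 4, i' + 15]`, at most 12, each term is `≤ 1` by `child_xx`.
-/

namespace Pool.Agent.Moser.Eng

/-- `tau (j + 16) / DD j` for large `j` -/
private lemma tau_div_DD' {j : ℕ} (hj : 60985 ≤ j) :
    (tau (j + 16) : ℝ) / (DD j : ℝ) ≤ 1.00002 * ((j : ℝ) + 28) / 36 := by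
  have h0 := DD_pos (i := j) (by omega)
  rw [div_le_iff₀ h0]
  have h1 := le_DD j
  have h2 : (60985 : ℝ) ≤ j := by exact_mod_cast hj
  have h3 := tau_le (j + 16)
  push_cast at h3
  have h4 : 1.00002 * ((j : ℝ) + 28) / 36 * ((36 * (j : ℝ) ^ 2 + 720 * j + 4032) / 27000 - 64) ≤
      1.00002 * ((j : ℝ) + 28) / 36 * (DD j : ℝ) := by
    apply mul_le_mul_of_nonneg_left h1
    positivity
  refine h3.trans (le_trans ?_ h4)
  have h5 : (60985 : ℝ) * j ≤ (j : ℝ) * j := by nlinarith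
  have h6 : (60985 : ℝ) ^ 2 * j ≤ (j : ℝ) ^ 3 := by nlinarith
  nlinarith

/-- the window of a child with a nonzero load -/
private lemma xx_child_window {i q k : ℕ} (hi : 10305 ≤ i) (hk : 10320 ≤ k) {w : ℝ} (h : InW i w)
    (h1 : tau (i + 4) ≤ q) (h2 : q < tau (i + 16))
    (hx : xx k (w - 1 / (q : ℝ), 1 / (q : ℝ)) ≠ 0) :
    ∃ j, 60985 ≤ j ∧ j + 4 ≤ k ∧ k ≤ j + 15 ∧ InW j (w - 1 / (q : ℝ)) ∧
      xx k (w - 1 / (q : ℝ), 1 / (q : ℝ)) = (slots j (1 / (q : ℝ)) : ℝ) / (DD j : ℝ) := by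
  obtain ⟨-, -, hk61⟩ := child_hit hi hk h h1 h2 hx
  obtain ⟨j, hj1, hj2, hj⟩ := xx_window hx
  simp only at hj
  refine ⟨j, by omega, by omega, by omega, hj, ?_⟩
  rw [xx_eq (by omega) (by omega) (r := (w - 1 / (q : ℝ), 1 / (q : ℝ))) hj, if_pos]
  exact ⟨by omega, by omega⟩

theorem xx_child_le {i q k : ℕ} (hi : 10305 ≤ i) (hk : 10320 ≤ k) {w : ℝ} (h : InW i w)
    (h1 : tau (i + 4) ≤ q) (h2 : q < tau (i + 16)) :
    xx k (w - 1 / (q : ℝ), 1 / (q : ℝ)) ≤ 1.00002 * ((k : ℝ) + 24) / 36 / (q : ℝ) := by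
  by_cases hx : xx k (w - 1 / (q : ℝ), 1 / (q : ℝ)) = 0
  · rw [hx]; positivity
  obtain ⟨j, hj, hj1, hj2, -, he⟩ := xx_child_window hi hk h h1 h2 hx
  rw [he]
  have hD := DD_pos (i := j) (by omega)
  have e1 : (slots j (1 / (q : ℝ)) : ℝ) ≤ 1 / (q : ℝ) * (tau (j + 16) : ℝ) := by
    unfold slots
    exact Nat.floor_le (by positivity)
  have e2 := tau_div_DD' hj
  have e3 : (j : ℝ) + 28 ≤ (k : ℝ) + 24 := by
    have : (j : ℝ) + 4 ≤ k := by exact_mod_cast hj1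
    linarith
  calc (slots j (1 / (q : ℝ)) : ℝ) / (DD j : ℝ)
      ≤ (1 / (q : ℝ) * (tau (j + 16) : ℝ)) / (DD j : ℝ) := div_le_div_of_nonneg_right e1 hD.le
    _ = (tau (j + 16) : ℝ) / (DD j : ℝ) / (q : ℝ) := by ring
    _ ≤ 1.00002 * ((j : ℝ) + 28) / 36 / (q : ℝ) :=
        div_le_div_of_nonneg_right e2 (Nat.cast_nonneg _)
    _ ≤ 1.00002 * ((k : ℝ) + 24) / 36 / (q : ℝ) := by gcongr

theorem child_xx {i q K k : ℕ} (hi : 10305 ≤ i) (hK : 10320 ≤ K) (hKi : K ≤ i + 15)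
    (hk : 10320 ≤ k) {w : ℝ} (h : InW i w) (h1 : tau (i + 4) ≤ q) (h2 : q < tau (i + 16))
    (h3 : tau K ≤ q) :
    xx k (w - 1 / (q : ℝ), 1 / (q : ℝ)) ≤ 751 * (k : ℝ) / (K : ℝ) ^ 3 := by
  by_cases hx : xx k (w - 1 / (q : ℝ), 1 / (q : ℝ)) = 0
  · rw [hx]; positivity
  obtain ⟨-, -, hk61⟩ := child_hit hi hk h h1 h2 hx
  refine (xx_child_le hi hk h h1 h2).trans ?_
  have hkR : (61000 : ℝ) ≤ k := by exact_mod_cast hk61
  have hKR : (10320 : ℝ) ≤ K := by exact_mod_cast hK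
  have hK3 : (10320 : ℝ) ^ 3 ≤ (K : ℝ) ^ 3 := by gcongr
  have hq : (K : ℝ) ^ 3 / 27000 - 64 ≤ (q : ℝ) :=
    (lt_tau K).le.trans (by exact_mod_cast h3)
  have hq2 : (K : ℝ) ^ 3 * (1 - 0.000002) / 27000 ≤ (q : ℝ) := by
    norm_num at hK3
    linarith
  have hK0 : (0 : ℝ) < (K : ℝ) ^ 3 := by positivity
  have hl : (0 : ℝ) < (K : ℝ) ^ 3 * (1 - 0.000002) / 27000 := by
    have : (0 : ℝ) < 1 - 0.000002 := by norm_num
    positivity
  calc 1.00002 * ((k : ℝ) + 24) / 36 / (q : ℝ)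
      ≤ 1.00002 * ((k : ℝ) + 24) / 36 / ((K : ℝ) ^ 3 * (1 - 0.000002) / 27000) := by
        gcongr
    _ ≤ 751 * (k : ℝ) / (K : ℝ) ^ 3 := by
        rw [div_le_div_iff₀ hl hK0]
        have e1 : (k : ℝ) + 24 ≤ 1.0004 * k := by linarith
        have e2 : 1.00002 * ((k : ℝ) + 24) / 36 ≤ 1.00002 * (1.0004 * k) / 36 := by gcongr
        have e3 : 1.00002 * (1.0004 * (k : ℝ)) / 36 ≤ 751 * (k : ℝ) * ((1 - 0.000002) / 27000) := by
          linarith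
        calc 1.00002 * ((k : ℝ) + 24) / 36 * (K : ℝ) ^ 3
            ≤ 751 * (k : ℝ) * ((1 - 0.000002) / 27000) * (K : ℝ) ^ 3 := by
              apply mul_le_mul_of_nonneg_right (e2.trans e3) hK0.le
          _ = 751 * (k : ℝ) * ((K : ℝ) ^ 3 * (1 - 0.000002) / 27000) := by ring

/-- normalised sum over any finite set of rows: at most 12 rows are hit -/
theorem child_rows {i q K : ℕ} (hi : 10305 ≤ i) (hK : 10320 ≤ K) (hKi : K ≤ i + 15)
    (R : Finset ℕ) (hR : ∀ k ∈ R, 10320 ≤ k) {w : ℝ} (h : InW i w) (h1 : tau (i + 4) ≤ q)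
    (h2 : q < tau (i + 16)) (h3 : tau K ≤ q) :
    ∑ k ∈ R, (K : ℝ) ^ 3 / (751 * (k : ℝ)) * xx k (w - 1 / (q : ℝ), 1 / (q : ℝ)) ≤ 12 := by
  by_cases hall : ∀ k ∈ R, xx k (w - 1 / (q : ℝ), 1 / (q : ℝ)) = 0
  · rw [Finset.sum_eq_zero fun k hk => by rw [hall k hk, mul_zero]]
    norm_num
  push Not at hall
  obtain ⟨k0, hk0, hx0⟩ := hall
  obtain ⟨j, hj, -, -, hjw, -⟩ := xx_child_window hi (hR k0 hk0) h h1 h2 hx0
  have hK0 : (0 : ℝ) < (K : ℝ) ^ 3 := by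
    have : (10320 : ℝ) ≤ K := by exact_mod_cast hK
    positivity
  have hterm : ∀ k ∈ R, (K : ℝ) ^ 3 / (751 * (k : ℝ)) * xx k (w - 1 / (q : ℝ), 1 / (q : ℝ)) ≤
      if k ∈ Finset.Icc (j + 4) (j + 15) then (1 : ℝ) else 0 := by
    intro k hk
    by_cases hx : xx k (w - 1 / (q : ℝ), 1 / (q : ℝ)) = 0
    · rw [hx, mul_zero]
      split_ifs <;> norm_num
    obtain ⟨j', hj', hk1, hk2, hjw', -⟩ := xx_child_window hi (hR k hk) h h1 h2 hx
    have hjj : j' = j := InW_unique (by omega) (by omega) hjw' hjw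
    subst hjj
    rw [if_pos (Finset.mem_Icc.2 ⟨hk1, hk2⟩)]
    have e1 := child_xx hi hK hKi (hR k hk) h h1 h2 h3
    have hkR : (0 : ℝ) < k := by
      have : (10320 : ℝ) ≤ k := by exact_mod_cast hR k hk
      linarith
    calc (K : ℝ) ^ 3 / (751 * (k : ℝ)) * xx k (w - 1 / (q : ℝ), 1 / (q : ℝ))
        ≤ (K : ℝ) ^ 3 / (751 * (k : ℝ)) * (751 * (k : ℝ) / (K : ℝ) ^ 3) := by
          apply mul_le_mul_of_nonneg_left e1
          positivity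
      _ = 1 := by field_simp
  refine (Finset.sum_le_sum hterm).trans ?_
  rw [Finset.sum_ite_mem, Finset.sum_const, nsmul_eq_mul, mul_one]
  have e2 : (R ∩ Finset.Icc (j + 4) (j + 15)).card ≤ 12 := by
    refine (Finset.card_le_card Finset.inter_subset_right).trans ?_
    rw [Nat.card_Icc]
    omega
  exact_mod_cast e2

end Pool.Agent.Moser.Eng
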