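import Pool.Agent.Lib_MP_cc07e8_co.EngMaster
import Pool.Agent.Lib_MP_cc07e8_co.EngChildK

/-!
# MP_cc07e8_co, engine piece ASG (E1, core): blocks for the slots, indexed form

Strips `s : Fin n` of width `w s` in window `i s ∈ [K, K')` with `m s` slots. Every slot gets a block of the range of
`i s`. (`ld s b` = expected number of slots of `s` in block `b`.)

Proof. Items = slots `(s, j)`, `j < m s` (a sigma type), options of `(s, j)` = the blocks `b` with
`sig (i s + 4) ≤ b < sig (i s + 16)` (`DD (i s) / 64` many, nonempty by `sig_lt`). Rows of `master`: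
* capacity rows `b ∈ [sig K, sig (K' + 15))`: `a = 1` if the block is `b`, else `0`; `lam = 1 / 3`, `th = 2` (the
  sum over `Φ` is an integer, so `> 2` means `≥ 3`); a block outside gets no slot;
* test rows `k ∈ RR` (finite set, all `≥ 10320`): `a = ff k (w s) b`, `th k = 72.9 * 751 k / K ^ 3`, `lam = 1 / th`;
* width row: `a = fw (w s) b`, `th = 72.9 / 0.12 * 1.301e6 / K ^ 4 = 7.9036e8 / K ^ 4`, `lam = 1 / th`.
`hcol`: `1 / 3 + (∑ k ∈ RR, K ^ 3 / (751 k) ff k w b) / 72.9 + 0.12 / 72.9 ≤ 1 / 3 + 12.12 / 72.9 < 1 / 2` by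
`child_rows` (average over the 64 squares `q` of the block; `q ≥ 64 b ≥ tau (i + 4) ≥ tau K`, `q < 64 (b + 1) ≤ tau (i + 16)`)
and `child_width` (`(i + 15) ^ 4 ≥ K ^ 4`), `child_pos` (everything is nonnegative).
Averages over the options: capacity: `64 / DD` for the blocks in the range. Test: `(∑ b, ff k w b) / (DD / 64) =
(∑ q in the range, xx k (child)) / DD` (the range `Ico (tau (i + 4)) (tau (i + 16))` is the disjoint union of its blocks,
`Finset.sum_Ico_consecutive` / induction). Width: the same. `72.9 * 751 ≤ 54760`, `7.9036e8 ≤ 8e8`.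
-/

namespace Pool.Agent.Moser.Eng

/-- a sum over a union of consecutive blocks -/
theorem sum_blocks (f : ℕ → ℝ) {a b : ℕ} (h : a ≤ b) :
    ∑ c ∈ Finset.Ico a b, ∑ q ∈ Finset.Ico (64 * c) (64 * c + 64), f q =
      ∑ q ∈ Finset.Ico (64 * a) (64 * b), f q := by
  induction b, h using Nat.le_induction with
  | base => simp
  | succ n hn ih =>
    rw [Finset.sum_Ico_succ_top hn, ih, Nat.mul_succ,
      Finset.sum_Ico_consecutive _ (by omega) (by omega)]

/-- average of `ff` over the blocks of the range -/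
theorem avg_ff {i : ℕ} (hi : 10300 ≤ i) (k : ℕ) (w : ℝ) :
    (∑ o ∈ Finset.Ico (sig (i + 4)) (sig (i + 16)), ff k w o) /
        ((Finset.Ico (sig (i + 4)) (sig (i + 16))).card : ℝ) =
      (∑ q ∈ Finset.Ico (tau (i + 4)) (tau (i + 16)), xx k (w - 1 / (q : ℝ), 1 / (q : ℝ))) /
        (DD i : ℝ) := by
  have hle : sig (i + 4) ≤ sig (i + 16) := sig_mono (by omega)
  have hlt := sig_lt (i := i + 4) (j := i + 16) (by omega) (by omega)
  simp only [ff]
  rw [← Finset.sum_div, sum_blocks (fun q => xx k (w - 1 / (q : ℝ), 1 / (q : ℝ))) hle, Nat.card_Ico,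
    DD_eq, tau_eq, tau_eq, div_div]
  congr 1
  push_cast
  ring

/-- average of `fw` over the blocks of the range -/
theorem avg_fw {i : ℕ} (hi : 10300 ≤ i) (w : ℝ) :
    (∑ o ∈ Finset.Ico (sig (i + 4)) (sig (i + 16)), fw w o) /
        ((Finset.Ico (sig (i + 4)) (sig (i + 16))).card : ℝ) =
      (∑ q ∈ Finset.Ico (tau (i + 4)) (tau (i + 16)), (w - 1 / (q : ℝ))) / (DD i : ℝ) := by
  have hle : sig (i + 4) ≤ sig (i + 16) := sig_mono (by omega)
  have hlt := sig_lt (i := i + 4) (j := i + 16) (by omega) (by omega)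
  simp only [fw]
  rw [← Finset.sum_div, sum_blocks (fun q => (w - 1 / (q : ℝ))) hle, Nat.card_Ico,
    DD_eq, tau_eq, tau_eq, div_div]
  congr 1
  push_cast
  ring

theorem ff_nonneg (k : ℕ) (w : ℝ) (b : ℕ) : 0 ≤ ff k w b := by
  unfold ff
  exact div_nonneg (Finset.sum_nonneg fun q _ => xx_nonneg _ _) (by norm_num)

/-- the squares of a block of the range are in the range -/
theorem blk_sq {i b q : ℕ} (h1 : sig (i + 4) ≤ b) (h2 : b < sig (i + 16))
    (hq : q ∈ Finset.Ico (64 * b) (64 * b + 64)) : tau (i + 4) ≤ q ∧ q < tau (i + 16) := by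
  rw [Finset.mem_Ico] at hq
  rw [tau_eq, tau_eq]
  omega

theorem fw_nonneg {i b : ℕ} (hi : 10305 ≤ i) {w : ℝ} (h : InW i w) (h1 : sig (i + 4) ≤ b)
    (h2 : b < sig (i + 16)) : 0 ≤ fw w b := by
  unfold fw
  refine div_nonneg (Finset.sum_nonneg fun q hq => ?_) (by norm_num)
  exact (child_pos hi h (blk_sq h1 h2 hq).1).le

theorem fw_bd {i b K : ℕ} (hK : 10320 ≤ K) (hKi : K ≤ i) {w : ℝ} (h : InW i w)
    (h1 : sig (i + 4) ≤ b) (h2 : b < sig (i + 16)) : fw w b ≤ 1.301e6 / (K : ℝ) ^ 4 := by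
  have hi : 10305 ≤ i := by omega
  unfold fw
  rw [div_le_iff₀ (by norm_num)]
  have hKpos : (0 : ℝ) < K := by
    have : (10320 : ℝ) ≤ K := by exact_mod_cast hK
    linarith
  have hb : ∀ q ∈ Finset.Ico (64 * b) (64 * b + 64), w - 1 / (q : ℝ) ≤ 1.301e6 / (K : ℝ) ^ 4 := by
    intro q hq
    obtain ⟨hq1, hq2⟩ := blk_sq h1 h2 hq
    have hq0 : 0 < q := by
      have h3 := tau_lt (i := 10300) (j := i + 4) le_rfl (by omega)
      omega
    refine (child_width hi h hq0 hq2).trans ?_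
    have hKi' : (K : ℝ) ≤ (i : ℝ) + 15 := by
      have : (K : ℝ) ≤ i := by exact_mod_cast hKi
      linarith
    apply div_le_div_of_nonneg_left (by norm_num) (by positivity)
    exact pow_le_pow_left₀ hKpos.le hKi' 4
  refine (Finset.sum_le_sum hb).trans ?_
  rw [Finset.sum_const, Nat.card_Ico]
  simp only [add_tsub_cancel_left, nsmul_eq_mul]
  push_cast
  linarith

/-- normalised sum of the loads over all test rows -/
theorem ff_rows {i b K : ℕ} (hK : 10320 ≤ K) (hKi : K ≤ i) (RR : Finset ℕ)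
    (hRR : ∀ k ∈ RR, 10320 ≤ k) {w : ℝ} (h : InW i w)
    (h1 : sig (i + 4) ≤ b) (h2 : b < sig (i + 16)) :
    ∑ k ∈ RR, (K : ℝ) ^ 3 / (751 * (k : ℝ)) * ff k w b ≤ 12 := by
  have hi : 10305 ≤ i := by omega
  have key : ∑ k ∈ RR, (K : ℝ) ^ 3 / (751 * (k : ℝ)) * ff k w b =
      (∑ q ∈ Finset.Ico (64 * b) (64 * b + 64),
        ∑ k ∈ RR, (K : ℝ) ^ 3 / (751 * (k : ℝ)) * xx k (w - 1 / (q : ℝ), 1 / (q : ℝ))) / 64 := by
    rw [Finset.sum_comm, Finset.sum_div]
    refine Finset.sum_congr rfl fun k _ => ?_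
    rw [← Finset.mul_sum, ff, mul_div_assoc]
  rw [key, div_le_iff₀ (by norm_num)]
  have hb : ∀ q ∈ Finset.Ico (64 * b) (64 * b + 64),
      ∑ k ∈ RR, (K : ℝ) ^ 3 / (751 * (k : ℝ)) * xx k (w - 1 / (q : ℝ), 1 / (q : ℝ)) ≤ 12 := by
    intro q hq
    obtain ⟨hq1, hq2⟩ := blk_sq h1 h2 hq
    exact child_rows hi hK (by omega) RR hRR h hq1 hq2 ((tau_mono (by omega)).trans hq1)
  refine (Finset.sum_le_sum hb).trans ?_
  rw [Finset.sum_const, Nat.card_Ico]
  simp only [add_tsub_cancel_left, nsmul_eq_mul]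
  norm_num

theorem assign_core {K K' n : ℕ} (hK : 10320 ≤ K) (hKK : K < K') (w : Fin n → ℝ) (i m : Fin n → ℕ)
    (hi1 : ∀ s, K ≤ i s) (hi2 : ∀ s, i s < K') (hw : ∀ s, InW (i s) (w s)) (RR : Finset ℕ)
    (hRR : ∀ k ∈ RR, 10320 ≤ k) :
    ∃ Bl : Fin n → Multiset ℕ, (∀ s, (Bl s).card = m s) ∧
      (∀ s, ∀ b ∈ Bl s, sig (i s + 4) ≤ b ∧ b < sig (i s + 16)) ∧
      (∀ b, ((∑ s, (Bl s).count b : ℕ) : ℝ) ≤
        ∑ s, (if sig (i s + 4) ≤ b ∧ b < sig (i s + 16) then 64 * (m s : ℝ) / (DD (i s) : ℝ) else 0)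
          + 2) ∧
      (∀ k ∈ RR, ∑ s, ((Bl s).map (ff k (w s))).sum ≤
        ∑ s, (m s : ℝ) / (DD (i s) : ℝ) *
            ∑ q ∈ Finset.Ico (tau (i s + 4)) (tau (i s + 16)),
              xx k (w s - 1 / (q : ℝ), 1 / (q : ℝ)) +
          54760 * (k : ℝ) / (K : ℝ) ^ 3) ∧
      ∑ s, ((Bl s).map (fw (w s))).sum ≤
        ∑ s, (m s : ℝ) / (DD (i s) : ℝ) *
            ∑ q ∈ Finset.Ico (tau (i s + 4)) (tau (i s + 16)), (w s - 1 / (q : ℝ)) +
          8e8 / (K : ℝ) ^ 4 := by
  classical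
  have hKpos : (0 : ℝ) < K := by
    have : (10320 : ℝ) ≤ K := by exact_mod_cast hK
    linarith
  have hi300 : ∀ s, 10300 ≤ i s := fun s => by have := hi1 s; omega
  set N : ℕ := sig (K' + 15) with hN
  -- the data for `master`
  let opt : (Σ s : Fin n, Fin (m s)) → Finset ℕ :=
    fun p => Finset.Ico (sig (i p.1 + 4)) (sig (i p.1 + 16))
  let a : (Fin N ⊕ RR) ⊕ Unit → (Σ s : Fin n, Fin (m s)) → ℕ → ℝ := fun r p o =>
    match r with
    | Sum.inl (Sum.inl b) => if o = (b : ℕ) then 1 else 0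
    | Sum.inl (Sum.inr k) => ff (k : ℕ) (w p.1) o
    | Sum.inr _ => fw (w p.1) o
  let th : (Fin N ⊕ RR) ⊕ Unit → ℝ := fun r =>
    match r with
    | Sum.inl (Sum.inl _) => 2
    | Sum.inl (Sum.inr k) => 72.9 * (751 * ((k : ℕ) : ℝ) / (K : ℝ) ^ 3)
    | Sum.inr _ => 72.9 / 0.12 * (1.301e6 / (K : ℝ) ^ 4)
  let lam : (Fin N ⊕ RR) ⊕ Unit → ℝ := fun r =>
    match r with
    | Sum.inl (Sum.inl _) => 1 / 3
    | Sum.inl (Sum.inr k) => 1 / (72.9 * (751 * ((k : ℕ) : ℝ) / (K : ℝ) ^ 3))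
    | Sum.inr _ => 1 / (72.9 / 0.12 * (1.301e6 / (K : ℝ) ^ 4))
  have hthk : ∀ k : RR, 0 < 72.9 * (751 * ((k : ℕ) : ℝ) / (K : ℝ) ^ 3) := by
    intro k
    have h1 : (10320 : ℝ) ≤ ((k : ℕ) : ℝ) := by exact_mod_cast hRR k k.2
    positivity
  have hthw : 0 < 72.9 / 0.12 * (1.301e6 / (K : ℝ) ^ 4) := by positivity
  have hne : ∀ p, (opt p).Nonempty := by
    intro p
    have h1 := sig_lt (i := i p.1 + 4) (j := i p.1 + 16) (by have := hi1 p.1; omega) (by omega)
    exact Finset.nonempty_Ico.mpr (by omega)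
  have hlam : ∀ r, 0 ≤ lam r := by
    rintro ((b | k) | u)
    · simp only [lam]; norm_num
    · simp only [lam]; exact (one_div_pos.mpr (hthk k)).le
    · simp only [lam]; exact (one_div_pos.mpr hthw).le
  have hrow : ∀ (r : (Fin N ⊕ RR) ⊕ Unit) (Φ : Finset ((Σ s : Fin n, Fin (m s)) × ℕ)),
      (∀ p ∈ Φ, p.2 ∈ opt p.1) → th r < ∑ p ∈ Φ, |a r p.1 p.2| →
      1 ≤ lam r * ∑ p ∈ Φ, |a r p.1 p.2| := by
    rintro ((b | k) | u) Φ - hΦ
    · simp only [a, th, lam] at hΦ ⊢
      have h1 : ∑ p ∈ Φ, |if p.2 = (b : ℕ) then (1 : ℝ) else 0| =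
          ((Φ.filter fun p => p.2 = (b : ℕ)).card : ℝ) := by
        rw [Finset.card_filter]
        push_cast
        refine Finset.sum_congr rfl fun p _ => ?_
        split_ifs <;> simp
      rw [h1] at hΦ ⊢
      have h2 : 3 ≤ (Φ.filter fun p => p.2 = (b : ℕ)).card := by
        have : 2 < (Φ.filter fun p => p.2 = (b : ℕ)).card := by exact_mod_cast hΦ
        omega
      have h3 : (3 : ℝ) ≤ ((Φ.filter fun p => p.2 = (b : ℕ)).card : ℝ) := by exact_mod_cast h2
      linarith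
    · simp only [a, th, lam] at hΦ ⊢
      rw [one_div_mul_eq_div, le_div_iff₀ (hthk k), one_mul]
      exact hΦ.le
    · simp only [a, th, lam] at hΦ ⊢
      rw [one_div_mul_eq_div, le_div_iff₀ hthw, one_mul]
      exact hΦ.le
  have hcol : ∀ p, ∀ o ∈ opt p, ∑ r, lam r * |a r p o| < 1 / 2 := by
    rintro ⟨s, j⟩ o ho
    simp only [opt, Finset.mem_Ico] at ho
    rw [Fintype.sum_sum_type, Fintype.sum_sum_type]
    simp only [a, lam, Finset.univ_unique, Finset.sum_singleton]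
    have hff : ∀ k, |ff k (w s) o| = ff k (w s) o := fun k => abs_of_nonneg (ff_nonneg _ _ _)
    have hfw : |fw (w s) o| = fw (w s) o :=
      abs_of_nonneg (fw_nonneg (by have := hi1 s; omega) (hw s) ho.1 ho.2)
    simp only [hff, hfw]
    have h1 : ∑ x : Fin N, (1 / 3 : ℝ) * |if o = (x : ℕ) then (1 : ℝ) else 0| ≤ 1 / 3 := by
      rw [← Finset.mul_sum]
      have h2 : ∑ x : Fin N, |if o = (x : ℕ) then (1 : ℝ) else 0| ≤ 1 := by
        have h3 : ∑ x : Fin N, |if o = (x : ℕ) then (1 : ℝ) else 0| =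
            ((Finset.univ.filter fun x : Fin N => o = (x : ℕ)).card : ℝ) := by
          rw [Finset.card_filter]
          push_cast
          refine Finset.sum_congr rfl fun p _ => ?_
          split_ifs <;> simp
        rw [h3]
        have h4 : (Finset.univ.filter fun x : Fin N => o = (x : ℕ)).card ≤ 1 := by
          rw [Finset.card_le_one]
          intro x hx y hy
          rw [Finset.mem_filter] at hx hy
          exact Fin.ext (hx.2.symm.trans hy.2)
        exact_mod_cast h4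
      linarith
    have h2 : ∑ x : RR, 1 / (72.9 * (751 * ((x : ℕ) : ℝ) / (K : ℝ) ^ 3)) * ff (x : ℕ) (w s) o
        ≤ 12 / 72.9 := by
      rw [Finset.sum_coe_sort RR
        (fun x : ℕ => 1 / (72.9 * (751 * (x : ℝ) / (K : ℝ) ^ 3)) * ff x (w s) o)]
      have h3 := ff_rows hK (hi1 s) RR hRR (hw s) ho.1 ho.2
      have h4 : ∑ x ∈ RR, 1 / (72.9 * (751 * (x : ℝ) / (K : ℝ) ^ 3)) * ff x (w s) o =
          (∑ k ∈ RR, (K : ℝ) ^ 3 / (751 * (k : ℝ)) * ff k (w s) o) / 72.9 := by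
        rw [Finset.sum_div]
        refine Finset.sum_congr rfl fun k hk => ?_
        have h5 : (10320 : ℝ) ≤ (k : ℝ) := by exact_mod_cast hRR k hk
        have h6 : (k : ℝ) ≠ 0 := by linarith
        have h7 : (K : ℝ) ≠ 0 := hKpos.ne'
        field_simp
      rw [h4]
      gcongr
    have h3 : 1 / (72.9 / 0.12 * (1.301e6 / (K : ℝ) ^ 4)) * fw (w s) o ≤ 0.12 / 72.9 := by
      have h4 := fw_bd hK (hi1 s) (hw s) ho.1 ho.2
      rw [one_div_mul_eq_div, div_le_iff₀ hthw]
      calc fw (w s) o ≤ 1.301e6 / (K : ℝ) ^ 4 := h4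
        _ = 0.12 / 72.9 * (72.9 / 0.12 * (1.301e6 / (K : ℝ) ^ 4)) := by ring
    have h4 : (1 / 3 : ℝ) + 12 / 72.9 + 0.12 / 72.9 < 1 / 2 := by norm_num
    linarith
  obtain ⟨f, hf1, hf2⟩ := master opt hne a lam th hlam hrow hcol
  -- sums over the items
  have hsum : ∀ g : Fin n → ℕ → ℝ,
      ∑ p : (Σ s : Fin n, Fin (m s)), g p.1 (f p) =
        ∑ s, ((Finset.univ.val.map fun j : Fin (m s) => f ⟨s, j⟩).map (g s)).sum := by
    intro g
    rw [Fintype.sum_sigma]
    refine Finset.sum_congr rfl fun s _ => ?_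
    rw [Multiset.map_map]
    rfl
  have hcst : ∀ g : Fin n → ℝ,
      ∑ p : (Σ s : Fin n, Fin (m s)), g p.1 = ∑ s, (m s : ℝ) * g s := by
    intro g
    rw [Fintype.sum_sigma]
    refine Finset.sum_congr rfl fun s _ => ?_
    simp
  refine ⟨fun s => Finset.univ.val.map fun j : Fin (m s) => f ⟨s, j⟩, ?_, ?_, ?_, ?_, ?_⟩
  · intro s
    simp
  · intro s b hb
    simp only [Multiset.mem_map] at hb
    obtain ⟨j, -, rfl⟩ := hb
    have := hf1 ⟨s, j⟩
    simpa only [opt, Finset.mem_Ico] using this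
  · intro b
    have hcount : ((∑ s, (Finset.univ.val.map fun j : Fin (m s) => f ⟨s, j⟩).count b : ℕ) : ℝ) =
        ∑ p : (Σ s : Fin n, Fin (m s)), (if f p = b then (1 : ℝ) else 0) := by
      rw [hsum (fun _ o => if o = b then (1 : ℝ) else 0)]
      push_cast
      refine Finset.sum_congr rfl fun s _ => ?_
      generalize (Finset.univ.val.map fun j : Fin (m s) => f ⟨s, j⟩) = M
      induction M using Multiset.induction with
      | empty => simp
      | cons x M ih =>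
        rw [Multiset.count_cons, Multiset.map_cons, Multiset.sum_cons, ← ih]
        push_cast
        by_cases hx : b = x
        · subst hx; simp; ring
        · simp [hx, Ne.symm hx]
    have hR : 0 ≤ ∑ s, (if sig (i s + 4) ≤ b ∧ b < sig (i s + 16) then
        64 * (m s : ℝ) / (DD (i s) : ℝ) else 0) := by
      refine Finset.sum_nonneg fun s _ => ?_
      split_ifs
      · positivity
      · exact le_rfl
    by_cases hbN : b < N
    · have h1 := hf2 (Sum.inl (Sum.inl ⟨b, hbN⟩))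
      simp only [a, th, opt] at h1
      have h2 := (abs_le.mp h1).2
      have h3 : ∑ p : (Σ s : Fin n, Fin (m s)),
          (∑ o ∈ Finset.Ico (sig (i p.1 + 4)) (sig (i p.1 + 16)), if o = b then (1 : ℝ) else 0) /
            ((Finset.Ico (sig (i p.1 + 4)) (sig (i p.1 + 16))).card : ℝ) =
          ∑ s, (if sig (i s + 4) ≤ b ∧ b < sig (i s + 16) then
            64 * (m s : ℝ) / (DD (i s) : ℝ) else 0) := by
        rw [hcst (fun s =>
          (∑ o ∈ Finset.Ico (sig (i s + 4)) (sig (i s + 16)), if o = b then (1 : ℝ) else 0) /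
            ((Finset.Ico (sig (i s + 4)) (sig (i s + 16))).card : ℝ))]
        refine Finset.sum_congr rfl fun s _ => ?_
        rw [Finset.sum_ite_eq' (Finset.Ico (sig (i s + 4)) (sig (i s + 16))) b (fun _ => (1 : ℝ))]
        simp only [Finset.mem_Ico]
        have hle : sig (i s + 4) ≤ sig (i s + 16) := sig_mono (by omega)
        have hlt := sig_lt (i := i s + 4) (j := i s + 16) (by have := hi1 s; omega) (by omega)
        have hD : ((Finset.Ico (sig (i s + 4)) (sig (i s + 16))).card : ℝ) =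
            (DD (i s) : ℝ) / 64 := by
          rw [Nat.card_Ico, DD_eq]
          push_cast
          ring
        rw [hD]
        have hDD := DD_pos (hi300 s)
        split_ifs
        · field_simp
        · simp
      rw [hcount]
      rw [h3] at h2
      linarith
    · rw [hcount]
      have h0 : ∑ p : (Σ s : Fin n, Fin (m s)), (if f p = b then (1 : ℝ) else 0) = 0 := by
        refine Finset.sum_eq_zero fun p _ => ?_
        rw [if_neg]
        intro hp
        have h1 := hf1 p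
        simp only [opt, Finset.mem_Ico] at h1
        have h2 : sig (i p.1 + 16) ≤ N := sig_mono (by have := hi2 p.1; omega)
        omega
      rw [h0]
      linarith
  · intro k hk
    have h1 := hf2 (Sum.inl (Sum.inr ⟨k, hk⟩))
    simp only [a, th, opt] at h1
    have h2 := (abs_le.mp h1).2
    rw [hsum (fun s o => ff k (w s) o)] at h2
    have h3 : ∑ p : (Σ s : Fin n, Fin (m s)),
        (∑ o ∈ Finset.Ico (sig (i p.1 + 4)) (sig (i p.1 + 16)), ff k (w p.1) o) /
          ((Finset.Ico (sig (i p.1 + 4)) (sig (i p.1 + 16))).card : ℝ) =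
        ∑ s, (m s : ℝ) / (DD (i s) : ℝ) *
            ∑ q ∈ Finset.Ico (tau (i s + 4)) (tau (i s + 16)),
              xx k (w s - 1 / (q : ℝ), 1 / (q : ℝ)) := by
      rw [hcst (fun s =>
        (∑ o ∈ Finset.Ico (sig (i s + 4)) (sig (i s + 16)), ff k (w s) o) /
          ((Finset.Ico (sig (i s + 4)) (sig (i s + 16))).card : ℝ))]
      refine Finset.sum_congr rfl fun s _ => ?_
      rw [avg_ff (hi300 s)]
      ring
    rw [h3] at h2
    have h4 : 72.9 * (751 * (k : ℝ) / (K : ℝ) ^ 3) ≤ 54760 * (k : ℝ) / (K : ℝ) ^ 3 := by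
      have h5 : 72.9 * (751 * (k : ℝ) / (K : ℝ) ^ 3) = (72.9 * 751) * ((k : ℝ) / (K : ℝ) ^ 3) := by
        ring
      have h6 : 54760 * (k : ℝ) / (K : ℝ) ^ 3 = 54760 * ((k : ℝ) / (K : ℝ) ^ 3) := by ring
      rw [h5, h6]
      apply mul_le_mul_of_nonneg_right (by norm_num) (by positivity)
    linarith
  · have h1 := hf2 (Sum.inr ())
    simp only [a, th, opt] at h1
    have h2 := (abs_le.mp h1).2
    rw [hsum (fun s o => fw (w s) o)] at h2
    have h3 : ∑ p : (Σ s : Fin n, Fin (m s)),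
        (∑ o ∈ Finset.Ico (sig (i p.1 + 4)) (sig (i p.1 + 16)), fw (w p.1) o) /
          ((Finset.Ico (sig (i p.1 + 4)) (sig (i p.1 + 16))).card : ℝ) =
        ∑ s, (m s : ℝ) / (DD (i s) : ℝ) *
            ∑ q ∈ Finset.Ico (tau (i s + 4)) (tau (i s + 16)), (w s - 1 / (q : ℝ)) := by
      rw [hcst (fun s =>
        (∑ o ∈ Finset.Ico (sig (i s + 4)) (sig (i s + 16)), fw (w s) o) /
          ((Finset.Ico (sig (i s + 4)) (sig (i s + 16))).card : ℝ))]
      refine Finset.sum_congr rfl fun s _ => ?_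
      rw [avg_fw (hi300 s)]
      ring
    rw [h3] at h2
    have h4 : 72.9 / 0.12 * (1.301e6 / (K : ℝ) ^ 4) ≤ 8e8 / (K : ℝ) ^ 4 := by
      have h5 : 72.9 / 0.12 * (1.301e6 / (K : ℝ) ^ 4) = (72.9 / 0.12 * 1.301e6) / (K : ℝ) ^ 4 := by
        ring
      rw [h5]
      apply div_le_div_of_nonneg_right (by norm_num) (by positivity)
    linarith

end Pool.Agent.Moser.Eng
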