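import Pool.Agent.Lib_MP_cc07e8_co.EngChildK

/-!
# MP_cc07e8_co, engine piece DRIFT: all children of a strip together

The load of row `k` by the children of `w` (window `i ≥ 10320`) by all `q` in the range of window `i`
(one slot per square) is at most `phi k i`.

Proof. If `xx k (w - 1 / q, 1 / q) = 0` for all `q` of the range the sum is `0 ≤ phi`. Otherwise by `child_hit`
`8.95 k ^ 3 ≤ i ^ 4 ≤ 48.2 k ^ 3`, `k ≥ 61000`, and `phi k i = (1.0015 + 800 / k) (i ^ 3 / k ^ 3 + 750 k / i ^ 3)`.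
The `q` with nonzero term have `1 / tau (k - 3) < w - 1 / q ≤ 1 / tau (k - 15)`, a condition on `1 / q`: they are
consecutive integers `q1, .., q2` (or bound the sum over this set directly) with
`1 / q1 - 1 / q2 < δ = 1 / tau (k - 15) - 1 / tau (k - 3)`. Each term is at most
`m / q` with `m = 1.00002 (k + 24) / 36` (`xx_child_le`). As
`1 / q = (q + 1) / (q (q + 1)) ≤ q2 (1 / q - 1 / (q + 1))` for `q < q2`:
`∑ q ∈ [q1, q2], 1 / q ≤ q2 δ + 1 / q2 ≤ tau (i + 16) δ + 1 / tau (i + 4)`. With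
`δ = (tau (k - 3) - tau (k - 15)) / (tau (k - 15) tau (k - 3))`, `tau (k - 3) - tau (k - 15) ≤
(36 k ^ 2 - 648 k + 3348) / 27000 + 64 `, `tau (k - 15) ≥ (k - 15) ^ 3 / 27000 - 64`:
`m tau (i + 16) δ ≤ (1.0015 + 800 / k) i ^ 3 / k ^ 3` (the exact main term is `(1 + 48 / i + ..)
(1 + 50 / k + ..) i ^ 3 / k ^ 3`; use `i ≥ 10320` and `i ^ 4 ≥ 8.95 k ^ 3`: `48 / i ≤ 0.0015 + 700 / k`, since
for `k ≤ 150000` `48 / i ≤ 48 / 10320 = 0.00466 ≤ 700 / 150000`, for `k ≥ 150000` `i ≥ 13000`: `48 / i ≤ 0.0037` and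
`i ≥ (8.95 k ^ 3) ^ (1 / 4)`: `48 / i ≤ 0.0015 + 700 / k` up to `k = 320000`, and for `k ≥ 320000`, `i ≥ 23000`:
`48 / 23000 = 0.0021 ≤ 0.0015 + 700 / k` up to `k = 10 ^ 6`, then `i ≥ 54000`: `0.0009`), and
`m / tau (i + 4) ≤ (1.0015 + 800 / k) 750 k / i ^ 3`.
-/

namespace Pool.Agent.Moser.Eng

/-- sum of reciprocals over a finite set of integers in an interval of reciprocals -/
private lemma sum_inv_le (T : Finset ℕ) (hne : T.Nonempty) {a b δ : ℝ} (ha : 0 < a)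
    (hT : ∀ q ∈ T, a ≤ (q : ℝ) ∧ (q : ℝ) ≤ b)
    (hd : ∀ q ∈ T, ∀ q' ∈ T, 1 / (q : ℝ) - 1 / (q' : ℝ) ≤ δ) (hδ : 0 ≤ δ) :
    ∑ q ∈ T, 1 / (q : ℝ) ≤ b * δ + 1 / a := by
  classical
  · obtain ⟨q1, h1⟩ : ∃ q1, q1 = T.min' hne := ⟨_, rfl⟩
    obtain ⟨q2, h2⟩ : ∃ q2, q2 = T.max' hne := ⟨_, rfl⟩
    have m1 : q1 ∈ T := h1 ▸ T.min'_mem hne
    have m2 : q2 ∈ T := h2 ▸ T.max'_mem hne
    have h12 : q1 ≤ q2 := by rw [h1]; exact T.min'_le _ m2
    have hsub : T ⊆ insert q2 (Finset.Ico q1 q2) := by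
      intro q hq
      rw [Finset.mem_insert, Finset.mem_Ico]
      have e1 : q1 ≤ q := by rw [h1]; exact T.min'_le _ hq
      have e2 : q ≤ q2 := by rw [h2]; exact T.le_max' _ hq
      omega
    have hq1 : 0 < q1 := by
      have : (0 : ℝ) < q1 := ha.trans_le (hT q1 m1).1
      exact_mod_cast this
    have hq2R : (0 : ℝ) < q2 := ha.trans_le (hT q2 m2).1
    have hs : ∑ q ∈ T, 1 / (q : ℝ) ≤ 1 / (q2 : ℝ) + ∑ q ∈ Finset.Ico q1 q2, 1 / (q : ℝ) := by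
      have e0 : ∑ q ∈ insert q2 (Finset.Ico q1 q2), 1 / (q : ℝ) =
          1 / (q2 : ℝ) + ∑ q ∈ Finset.Ico q1 q2, 1 / (q : ℝ) :=
        Finset.sum_insert (by simp)
      rw [← e0]
      exact Finset.sum_le_sum_of_subset_of_nonneg hsub fun q _ _ => by positivity
    have hterm : ∀ q ∈ Finset.Ico q1 q2,
        1 / (q : ℝ) ≤ (q2 : ℝ) * (1 / (q : ℝ) - 1 / ((q + 1 : ℕ) : ℝ)) := by
      intro q hq
      rw [Finset.mem_Ico] at hq
      have hq0 : (0 : ℝ) < q := by exact_mod_cast (by omega : 0 < q)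
      have e1 : ((q : ℝ) + 1) ≤ q2 := by exact_mod_cast hq.2
      have e2 : 1 / (q : ℝ) - 1 / ((q + 1 : ℕ) : ℝ) = 1 / ((q : ℝ) * (q + 1)) := by
        push_cast
        field_simp
        ring
      rw [e2]
      have e3 : 1 / (q : ℝ) = ((q : ℝ) + 1) * (1 / ((q : ℝ) * (q + 1))) := by
        field_simp
      rw [e3]
      exact mul_le_mul_of_nonneg_right e1 (by positivity)
    have htel : ∑ q ∈ Finset.Ico q1 q2, (1 / (q : ℝ) - 1 / ((q + 1 : ℕ) : ℝ)) =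
        1 / (q1 : ℝ) - 1 / (q2 : ℝ) := by
      have e1 := Finset.sum_Ico_sub (f := fun q : ℕ => - (1 / (q : ℝ))) h12
      have e2 : ∀ q ∈ Finset.Ico q1 q2, (1 / (q : ℝ) - 1 / ((q + 1 : ℕ) : ℝ)) =
          (fun q : ℕ => - (1 / (q : ℝ))) (q + 1) - (fun q : ℕ => - (1 / (q : ℝ))) q := by
        intro q _
        simp only
        ring
      rw [Finset.sum_congr rfl e2, e1]
      ring
    have h3 : ∑ q ∈ Finset.Ico q1 q2, 1 / (q : ℝ) ≤ (q2 : ℝ) * (1 / (q1 : ℝ) - 1 / (q2 : ℝ)) := by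
      refine (Finset.sum_le_sum hterm).trans ?_
      rw [← Finset.mul_sum, htel]
    have h4 : (q2 : ℝ) * (1 / (q1 : ℝ) - 1 / (q2 : ℝ)) ≤ b * δ :=
      (mul_le_mul_of_nonneg_left (hd q1 m1 q2 m2) hq2R.le).trans
        (mul_le_mul_of_nonneg_right (hT q2 m2).2 hδ)
    have h5 : 1 / (q2 : ℝ) ≤ 1 / a := one_div_le_one_div_of_le ha (hT q2 m2).1
    linarith

/-- `48.2 / i ≤ 0.00145 + 700 / k` -/
private lemma recip_bound {x y : ℝ} (hx : 10320 ≤ x) (hy : 61000 ≤ y)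
    (hxy : 8.95 * y ^ 3 ≤ x ^ 4) : 48.2 * y ≤ x * (0.00145 * y + 700) := by
  by_contra hc
  push Not at hc
  have hx0 : 0 < x := by linarith
  have hy0 : 0 < y := by linarith
  have a1 : 14.52 * x ≤ y := by nlinarith
  have a2 : x ≤ 33242 := by
    by_contra h
    push Not at h
    nlinarith
  have a3 : 27390 ≤ x := by
    have b1 : (14.52 * x) ^ 3 ≤ y ^ 3 := by gcongr
    have b2 : 8.95 * (14.52 * x) ^ 3 ≤ x ^ 4 := by linarith
    have b3 : 27390 * x ^ 3 ≤ x * x ^ 3 := by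
      have : x * x ^ 3 = x ^ 4 := by ring
      rw [this]
      refine le_trans ?_ b2
      have : 8.95 * (14.52 * x) ^ 3 = 8.95 * 14.52 ^ 3 * x ^ 3 := by ring
      rw [this]
      gcongr
      norm_num
    exact le_of_mul_le_mul_right b3 (by positivity)
  have a4 : 2259000 ≤ y := by
    have : 27390 * (0.00145 * y + 700) ≤ x * (0.00145 * y + 700) := by gcongr
    linarith
  have a5 : (2259000 : ℝ) ^ 3 ≤ y ^ 3 := by gcongr
  have a6 : x ^ 4 ≤ 33242 ^ 4 := by gcongr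
  norm_num at a5 a6
  linarith

private lemma poly_i {x : ℝ} (hx : 10320 ≤ x) : (x + 16) ^ 3 * x ≤ x ^ 3 * (x + 48.1) := by
  have e1 : x ^ 3 * (x + 48.1) - (x + 16) ^ 3 * x = x * (0.1 * x ^ 2 - 768 * x - 4096) := by ring
  have e2 : 0 ≤ 0.1 * x ^ 2 - 768 * x - 4096 := by nlinarith
  have e3 : 0 ≤ x * (0.1 * x ^ 2 - 768 * x - 4096) := mul_nonneg (by linarith) e2
  linarith

private lemma poly_k {y : ℝ} (hy : 61000 ≤ y) :
    (y + 24) * (y ^ 2 - 18 * y + 48093) * y ^ 4 ≤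
      (y + 61) * (((y - 15) ^ 3 - 1728000) * ((y - 3) ^ 3 - 1728000)) := by
  obtain ⟨n, hn, rfl⟩ : ∃ n : ℝ, 0 ≤ n ∧ y = n + 61000 := ⟨y - 61000, by linarith, by ring⟩
  rw [← sub_nonneg]
  have : (n + 61000 + 61) * (((n + 61000 - 15) ^ 3 - 1728000) * ((n + 61000 - 3) ^ 3 - 1728000)) -
      (n + 61000 + 24) * ((n + 61000) ^ 2 - 18 * (n + 61000) + 48093) * (n + 61000) ^ 4 =
      1 * n ^ 6 +
        316152 * n ^ 5 +
        40606806603 * n ^ 4 +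
        2683664773025603 * n ^ 3 +
        94440445369589254365 * n ^ 2 +
        1612504938870172603190775 * n ^ 1 +
        9355865546827367349099849625 := by ring
  rw [this]
  positivity

private lemma main_bound {x y T δ M : ℝ} (hx : 10320 ≤ x) (hy : 61000 ≤ y)
    (hxy : 8.95 * y ^ 3 ≤ x ^ 4) (hM : M = 1.00002 * (y + 24) / 36)
    (hT : T ≤ (x + 16) ^ 3 / 27000)
    (hδ : δ ≤ ((36 * y ^ 2 - 648 * y + 3348) / 27000 + 64) /
      (((y - 15) ^ 3 / 27000 - 64) * ((y - 3) ^ 3 / 27000 - 64))) (hδ0 : 0 ≤ δ) :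
    M * (T * δ) ≤ (1.0015 + 800 / y) * (x ^ 3 / y ^ 3) := by
  have hx0 : 0 < x := by linarith
  have hy0 : 0 < y := by linarith
  have hP1 : 0 < (y - 15) ^ 3 - 1728000 := by
    have : (60985 : ℝ) ^ 3 ≤ (y - 15) ^ 3 := by
      gcongr
      linarith
    norm_num at this
    linarith
  have hP2 : 0 < (y - 3) ^ 3 - 1728000 := by
    have : (60997 : ℝ) ^ 3 ≤ (y - 3) ^ 3 := by
      gcongr
      linarith
    norm_num at this
    linarith
  have hD : ((36 * y ^ 2 - 648 * y + 3348) / 27000 + 64) /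
      (((y - 15) ^ 3 / 27000 - 64) * ((y - 3) ^ 3 / 27000 - 64)) =
      27000 * 36 * (y ^ 2 - 18 * y + 48093) /
        (((y - 15) ^ 3 - 1728000) * ((y - 3) ^ 3 - 1728000)) := by
    have e1 : ((y - 15) ^ 3 / 27000 - 64) = ((y - 15) ^ 3 - 1728000) / 27000 := by ring
    have e2 : ((y - 3) ^ 3 / 27000 - 64) = ((y - 3) ^ 3 - 1728000) / 27000 := by ring
    rw [e1, e2]
    field_simp
    ring
  rw [hD] at hδ
  have hq0 : 0 < y ^ 2 - 18 * y + 48093 := by nlinarith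
  set P := ((y - 15) ^ 3 - 1728000) * ((y - 3) ^ 3 - 1728000) with hP
  have hP0 : 0 < P := mul_pos hP1 hP2
  have c1 : M * (T * δ) ≤ 1.00002 * (y + 24) / 36 *
      ((x + 16) ^ 3 / 27000 * (27000 * 36 * (y ^ 2 - 18 * y + 48093) / P)) := by
    rw [hM]
    gcongr
  have c2 : 1.00002 * (y + 24) / 36 *
      ((x + 16) ^ 3 / 27000 * (27000 * 36 * (y ^ 2 - 18 * y + 48093) / P)) =
      1.00002 * ((y + 24) * (y ^ 2 - 18 * y + 48093) / P) * (x + 16) ^ 3 := by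
    ring
  have c3 : (y + 24) * (y ^ 2 - 18 * y + 48093) / P ≤ (1 + 61 / y) / y ^ 3 := by
    have e1 : (1 + 61 / y) / y ^ 3 = (y + 61) / y ^ 4 := by
      field_simp
    rw [e1, div_le_div_iff₀ hP0 (by positivity)]
    exact poly_k hy
  have c4 : (x + 16) ^ 3 ≤ x ^ 3 * (1.00145 + 700 / y) := by
    have e1 := poly_i hx
    have e2 := recip_bound hx hy hxy
    have e3 : (x + 16) ^ 3 ≤ x ^ 3 * (1 + 48.1 / x) := by
      have : x ^ 3 * (1 + 48.1 / x) = x ^ 3 * (x + 48.1) / x := by field_simp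
      rw [this, le_div_iff₀ hx0]
      exact e1
    refine e3.trans ?_
    have e4 : 48.1 / x ≤ 0.00145 + 700 / y := by
      have : 0.00145 + 700 / y = (0.00145 * y + 700) / y := by field_simp
      rw [this, div_le_div_iff₀ hx0 hy0]
      nlinarith
    have e5 : 1 + 48.1 / x ≤ 1.00145 + 700 / y := by linarith
    exact mul_le_mul_of_nonneg_left e5 (by positivity)
  have c5 : 1.00002 * ((1 + 61 / y) / y ^ 3) * (x ^ 3 * (1.00145 + 700 / y)) ≤
      (1.0015 + 800 / y) * (x ^ 3 / y ^ 3) := by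
    have e1 : 1.00002 * ((1 + 61 / y) / y ^ 3) * (x ^ 3 * (1.00145 + 700 / y)) =
        (1.00002 * (1 + 61 / y) * (1.00145 + 700 / y)) * (x ^ 3 / y ^ 3) := by ring
    rw [e1]
    apply mul_le_mul_of_nonneg_right _ (by positivity)
    have e2 : 1 / y ≤ 1 / 61000 := one_div_le_one_div_of_le (by norm_num) hy
    have e3 : 0 < 1 / y := by positivity
    have e4 : 61 / y = 61 * (1 / y) := by ring
    have e5 : 700 / y = 700 * (1 / y) := by ring
    have e6 : 800 / y = 800 * (1 / y) := by ring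
    rw [e4, e5, e6]
    nlinarith
  calc M * (T * δ) ≤ _ := c1
    _ = _ := c2
    _ ≤ 1.00002 * ((1 + 61 / y) / y ^ 3) * (x ^ 3 * (1.00145 + 700 / y)) := by
        gcongr
    _ ≤ _ := c5

theorem drift_le {i k : ℕ} (hi : 10320 ≤ i) (hk : 10320 ≤ k) {w : ℝ} (h : InW i w) :
    ∑ q ∈ Finset.Ico (tau (i + 4)) (tau (i + 16)), xx k (w - 1 / (q : ℝ), 1 / (q : ℝ)) ≤
      phi k i := by
  classical
  set T := (Finset.Ico (tau (i + 4)) (tau (i + 16))).filter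
    (fun q : ℕ => xx k (w - 1 / (q : ℝ), 1 / (q : ℝ)) ≠ 0) with hTdef
  have hsum : ∑ q ∈ Finset.Ico (tau (i + 4)) (tau (i + 16)),
      xx k (w - 1 / (q : ℝ), 1 / (q : ℝ)) = ∑ q ∈ T, xx k (w - 1 / (q : ℝ), 1 / (q : ℝ)) := by
    rw [hTdef, Finset.sum_filter_ne_zero]
  rw [hsum]
  rcases T.eq_empty_or_nonempty with hT | ⟨q0, hq0⟩
  · rw [hT, Finset.sum_empty]
    exact phi_nonneg k i
  have hmem : ∀ q ∈ T, tau (i + 4) ≤ q ∧ q < tau (i + 16) ∧
      xx k (w - 1 / (q : ℝ), 1 / (q : ℝ)) ≠ 0 := by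
    intro q hq
    rw [hTdef, Finset.mem_filter, Finset.mem_Ico] at hq
    exact ⟨hq.1.1, hq.1.2, hq.2⟩
  obtain ⟨a1, a2, a3⟩ := hmem q0 hq0
  obtain ⟨b1, b2, b3⟩ := child_hit (by omega) hk h a1 a2 a3
  have hiR : (10320 : ℝ) ≤ i := by exact_mod_cast hi
  have hkR : (61000 : ℝ) ≤ k := by exact_mod_cast b3
  have hi0 : (0 : ℝ) < i := by linarith
  have hk0 : (0 : ℝ) < k := by linarith
  have b2' : (i : ℝ) ^ 4 ≤ 48.2 * (k : ℝ) ^ 3 := by
    refine le_trans ?_ b2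
    gcongr
    linarith
  have hphi : phi k i = (1.0015 + 800 / (k : ℝ)) *
      ((i : ℝ) ^ 3 / (k : ℝ) ^ 3 + 750 * (k : ℝ) / (i : ℝ) ^ 3) := by
    unfold phi
    rw [if_pos ⟨b1, b2'⟩]
  -- the interval of reciprocals
  have t3 : 4e7 ≤ (tau (k - 3) : ℝ) := tau_pos (by omega)
  have t15 : 4e7 ≤ (tau (k - 15) : ℝ) := tau_pos (by omega)
  have hint : ∀ q ∈ T, 1 / (tau (k - 3) : ℝ) ≤ w - 1 / (q : ℝ) ∧
      w - 1 / (q : ℝ) ≤ 1 / (tau (k - 15) : ℝ) := by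
    intro q hq
    obtain ⟨-, -, hx⟩ := hmem q hq
    obtain ⟨j, hj1, hj2, hj⟩ := xx_window hx
    simp only at hj
    have hc := InW_pos hj
    have f1 : (tau (k - 15) : ℝ) ≤ tau j := by exact_mod_cast tau_mono hj1
    have f2 : (tau (j + 1) : ℝ) ≤ tau (k - 3) := by exact_mod_cast tau_mono (by omega)
    constructor
    · rw [div_le_iff₀ (by linarith)]
      have := mul_le_mul_of_nonneg_right f2 hc.le
      linarith [hj.2]
    · rw [le_div_iff₀ (by linarith)]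
      have := mul_le_mul_of_nonneg_right f1 hc.le
      linarith [hj.1]
  set δ := 1 / (tau (k - 15) : ℝ) - 1 / (tau (k - 3) : ℝ) with hδdef
  have hδ0 : 0 ≤ δ := by
    obtain ⟨f1, f2⟩ := hint q0 hq0
    rw [hδdef]
    linarith
  set M := 1.00002 * ((k : ℝ) + 24) / 36 with hMdef
  have hM0 : 0 < M := by rw [hMdef]; positivity
  have hs1 : ∑ q ∈ T, xx k (w - 1 / (q : ℝ), 1 / (q : ℝ)) ≤ M * ∑ q ∈ T, 1 / (q : ℝ) := by
    rw [Finset.mul_sum]
    apply Finset.sum_le_sum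
    intro q hq
    obtain ⟨g1, g2, -⟩ := hmem q hq
    have := xx_child_le (by omega) hk h g1 g2
    rw [← hMdef] at this
    rw [mul_one_div]
    exact this
  have t4 : 4e7 ≤ (tau (i + 4) : ℝ) := tau_pos (by omega)
  have hs2 : ∑ q ∈ T, 1 / (q : ℝ) ≤ (tau (i + 16) : ℝ) * δ + 1 / (tau (i + 4) : ℝ) := by
    apply sum_inv_le T ⟨q0, hq0⟩ (by linarith) _ _ hδ0
    · intro q hq
      obtain ⟨g1, g2, -⟩ := hmem q hq
      exact ⟨by exact_mod_cast g1, by exact_mod_cast g2.le⟩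
    · intro q hq q' hq'
      obtain ⟨g1, g2⟩ := hint q hq
      obtain ⟨g3, g4⟩ := hint q' hq'
      rw [hδdef]
      linarith
  -- bounds for the two parts
  have hk3 : ((k - 3 : ℕ) : ℝ) = (k : ℝ) - 3 := by
    rw [Nat.cast_sub (by omega)]; norm_num
  have hk15 : ((k - 15 : ℕ) : ℝ) = (k : ℝ) - 15 := by
    rw [Nat.cast_sub (by omega)]; norm_num
  have l3 := lt_tau (k - 3)
  have l15 := lt_tau (k - 15)
  have u3 := tau_le (k - 3)
  rw [hk3] at l3 u3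
  rw [hk15] at l15
  have hp15 : 0 < ((k : ℝ) - 15) ^ 3 / 27000 - 64 := by
    have : (60985 : ℝ) ^ 3 ≤ ((k : ℝ) - 15) ^ 3 := by
      gcongr
      linarith
    norm_num at this
    linarith
  have hp3 : 0 < ((k : ℝ) - 3) ^ 3 / 27000 - 64 := by
    have : (60997 : ℝ) ^ 3 ≤ ((k : ℝ) - 3) ^ 3 := by
      gcongr
      linarith
    norm_num at this
    linarith
  have hδle : δ ≤ ((36 * (k : ℝ) ^ 2 - 648 * k + 3348) / 27000 + 64) /
      ((((k : ℝ) - 15) ^ 3 / 27000 - 64) * (((k : ℝ) - 3) ^ 3 / 27000 - 64)) := by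
    have e1 : δ = ((tau (k - 3) : ℝ) - tau (k - 15)) / ((tau (k - 15) : ℝ) * tau (k - 3)) := by
      rw [hδdef]
      have : (tau (k - 15) : ℝ) ≠ 0 := by linarith
      have : (tau (k - 3) : ℝ) ≠ 0 := by linarith
      field_simp
    have e2 : (tau (k - 3) : ℝ) - tau (k - 15) ≤ (36 * (k : ℝ) ^ 2 - 648 * k + 3348) / 27000 + 64 := by
      have : ((k : ℝ) - 3) ^ 3 - ((k : ℝ) - 15) ^ 3 = 36 * (k : ℝ) ^ 2 - 648 * k + 3348 := by ring
      linarith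
    have e3 : (0 : ℝ) ≤ (36 * (k : ℝ) ^ 2 - 648 * k + 3348) / 27000 + 64 := by
      have : 0 ≤ (36 * (k : ℝ) ^ 2 - 648 * k + 3348) := by nlinarith
      positivity
    rw [e1]
    apply div_le_div₀ e3 e2 (mul_pos hp15 hp3)
    exact mul_le_mul l15.le l3.le hp3.le (by linarith)
  have hT16 : (tau (i + 16) : ℝ) ≤ ((i : ℝ) + 16) ^ 3 / 27000 := by
    have := tau_le (i + 16)
    push_cast at this
    exact this
  have hA : M * ((tau (i + 16) : ℝ) * δ) ≤ (1.0015 + 800 / (k : ℝ)) * ((i : ℝ) ^ 3 / (k : ℝ) ^ 3) :=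
    main_bound hiR hkR b1 hMdef hT16 hδle hδ0
  have hB : M * (1 / (tau (i + 4) : ℝ)) ≤
      (1.0015 + 800 / (k : ℝ)) * (750 * (k : ℝ) / (i : ℝ) ^ 3) := by
    have e1 : (i : ℝ) ^ 3 / 27000 ≤ (tau (i + 4) : ℝ) := by
      have := lt_tau (i + 4)
      push_cast at this
      nlinarith
    have e2 : 1 / (tau (i + 4) : ℝ) ≤ 1 / ((i : ℝ) ^ 3 / 27000) :=
      one_div_le_one_div_of_le (by positivity) e1
    refine (mul_le_mul_of_nonneg_left e2 hM0.le).trans ?_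
    have e3 : M * (1 / ((i : ℝ) ^ 3 / 27000)) = 1.00002 * ((k : ℝ) + 24) * 750 / (i : ℝ) ^ 3 := by
      rw [hMdef]
      field_simp
      ring
    have e4 : (1.0015 + 800 / (k : ℝ)) * (750 * (k : ℝ) / (i : ℝ) ^ 3) =
        (1.0015 * k + 800) * 750 / (i : ℝ) ^ 3 := by
      field_simp
    rw [e3, e4]
    gcongr
    linarith
  calc ∑ q ∈ T, xx k (w - 1 / (q : ℝ), 1 / (q : ℝ)) ≤ M * ∑ q ∈ T, 1 / (q : ℝ) := hs1
    _ ≤ M * ((tau (i + 16) : ℝ) * δ + 1 / (tau (i + 4) : ℝ)) :=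
        mul_le_mul_of_nonneg_left hs2 hM0.le
    _ = M * ((tau (i + 16) : ℝ) * δ) + M * (1 / (tau (i + 4) : ℝ)) := by ring
    _ ≤ (1.0015 + 800 / (k : ℝ)) * ((i : ℝ) ^ 3 / (k : ℝ) ^ 3) +
        (1.0015 + 800 / (k : ℝ)) * (750 * (k : ℝ) / (i : ℝ) ^ 3) := add_le_add hA hB
    _ = phi k i := by rw [hphi]; ring

end Pool.Agent.Moser.Eng
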