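import Pool.Agent.Lib_MP_cc07e8_co.EngChildW

/-!
# MP_cc07e8_co, engine piece WAVG: sum of the widths of all children of a strip

`∑ q in the range of i, (w - 1 / q) ≤ 7.56 / j ^ 2` for `i ∈ [12 j, 12 j + 12)` (real maximum of the left side
times `j ^ 2`: `7.5043`). With `w ≤ 1 / tau i`, `n = DD i` numbers `q = tau (i + 4) + s`, `s < n`:
`1 / tau i - 1 / q = (q - tau i) / (q * tau i) ≤ (q - tau i) / (tau i * tau (i + 4))`, or better by convexity. Since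
`(q - tau i) / (q tau i)` is increasing in `q`, split the range into the 12 windows: for `q < tau (i + m + 1)`,
`m = 4, .., 15`, the term is `≤ (tau (i + m + 1) - tau i) / (tau i * tau (i + m + 1))`, and the number of `q` in window
`i + m` is `tau (i + m + 1) - tau (i + m)`. This loses `1 / 2` window of 10 (5 percent), too much. So use
halves: `(q - tau i) / (tau i q) ≤ (q - tau i) / (tau i tau (i + 4))` and `∑ q = n (tau (i + 4) + tau (i + 16) - 1) / 2`: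
`∑ (q - tau i) / (tau i tau (i + 4)) ≤ n ((tau (i + 4) + tau (i + 16)) / 2 - tau i) / (tau i tau (i + 4))`, about
`(i ^ 2 / 750) (30 i ^ 2 / 27000) / (i ^ 3 / 27000) ^ 2 = 1080 / i ^ 2 = 7.5 / j ^ 2` (the second order terms are
`(1 + 20 / i) (1 + 13.6 / i) (1 - 12 / i)` and `+ 4.5e-4 + 2e-4` from the floors: about `1.003`, so `7.52 / j ^ 2`).
Everything is then a polynomial inequality in `j ≥ 860` (`12 j ≤ i ≤ 12 j + 11`).
-/

namespace Pool.Agent.Moser.Eng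

/-- the sum `∑ q in [A, B), (q - T)` -/
lemma wavg_sum (A B : ℕ) (hAB : A ≤ B) (T : ℝ) :
    ∑ q ∈ Finset.Ico A B, ((q : ℝ) - T) ≤ ((B : ℝ) - A) * (((A : ℝ) + B) / 2 - T) := by
  obtain ⟨n, rfl⟩ := Nat.exists_eq_add_of_le hAB
  rw [Finset.sum_Ico_eq_sum_range]
  have hn : A + n - A = n := by omega
  rw [hn]
  clear hn hAB
  have key : ∑ k ∈ Finset.range n, (((A + k : ℕ) : ℝ) - T)
      = (n : ℝ) * ((A : ℝ) + ((A : ℝ) + n)) / 2 - (n : ℝ) / 2 - (n : ℝ) * T := by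
    induction n with
    | zero => simp
    | succ n ih =>
      rw [Finset.sum_range_succ, ih]
      push_cast
      ring
  rw [key]
  push_cast
  have : (0 : ℝ) ≤ n := Nat.cast_nonneg n
  nlinarith

/-- the polynomial inequality -/
lemma wavg_poly (x : ℝ) (hx : 10320 ≤ x) :
    x ^ 2 * ((36 * x ^ 2 + 720 * x + 1732032) * (30 * x ^ 2 + 408 * x + 1730080)) ≤
      1088.64 * ((x ^ 3 - 1728000) * ((x + 4) ^ 3 - 1728000)) := by
  obtain ⟨t, rfl⟩ : ∃ t, x = t + 10320 := ⟨x - 10320, by ring⟩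
  have ht : 0 ≤ t := by linarith
  rw [← sub_nonneg]
  ring_nf
  positivity

theorem wavg_le {i j : ℕ} (hj : 860 ≤ j) (h1 : 12 * j ≤ i) (h2 : i < 12 * j + 12) {w : ℝ}
    (h : InW i w) :
    ∑ q ∈ Finset.Ico (tau (i + 4)) (tau (i + 16)), (w - 1 / (q : ℝ)) ≤ 7.56 / (j : ℝ) ^ 2 := by
  have hi : 10320 ≤ i := by omega
  have hiR : (10320 : ℝ) ≤ (i : ℝ) := by exact_mod_cast hi
  have hT0 : (4e7 : ℝ) ≤ (tau i : ℝ) := tau_pos (by omega)
  have hA0 : (4e7 : ℝ) ≤ (tau (i + 4) : ℝ) := tau_pos (by omega)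
  have hTA : tau i ≤ tau (i + 4) := tau_mono (by omega)
  have hAB : tau (i + 4) ≤ tau (i + 16) := tau_mono (by omega)
  have hTpos : (0 : ℝ) < (tau i : ℝ) := by linarith
  have hApos : (0 : ℝ) < (tau (i + 4) : ℝ) := by linarith
  have hTAR : (tau i : ℝ) ≤ (tau (i + 4) : ℝ) := by exact_mod_cast hTA
  have hABR : (tau (i + 4) : ℝ) ≤ (tau (i + 16) : ℝ) := by exact_mod_cast hAB
  have hw : w ≤ 1 / (tau i : ℝ) := by
    rw [le_div_iff₀ hTpos]
    have := h.1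
    linarith
  -- termwise bound
  have hterm : ∀ q ∈ Finset.Ico (tau (i + 4)) (tau (i + 16)),
      w - 1 / (q : ℝ) ≤ ((q : ℝ) - (tau i : ℝ)) * (1 / ((tau i : ℝ) * (tau (i + 4) : ℝ))) := by
    intro q hq
    have hq1 : tau (i + 4) ≤ q := (Finset.mem_Ico.1 hq).1
    have hqR : (tau (i + 4) : ℝ) ≤ (q : ℝ) := by exact_mod_cast hq1
    have hqpos : (0 : ℝ) < (q : ℝ) := by linarith
    have e1 : w - 1 / (q : ℝ) ≤ 1 / (tau i : ℝ) - 1 / (q : ℝ) := by linarith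
    have e2 : 1 / (tau i : ℝ) - 1 / (q : ℝ)
        = ((q : ℝ) - (tau i : ℝ)) * (1 / ((tau i : ℝ) * (q : ℝ))) := by
      field_simp
    have e3 : (1 / ((tau i : ℝ) * (q : ℝ))) ≤ 1 / ((tau i : ℝ) * (tau (i + 4) : ℝ)) := by
      apply one_div_le_one_div_of_le (by positivity)
      exact mul_le_mul_of_nonneg_left hqR hTpos.le
    rw [e2] at e1
    exact e1.trans (mul_le_mul_of_nonneg_left e3 (by linarith))
  refine (Finset.sum_le_sum hterm).trans ?_
  rw [← Finset.sum_mul]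
  have hsum := wavg_sum (tau (i + 4)) (tau (i + 16)) hAB (tau i : ℝ)
  have hpos : (0 : ℝ) < 1 / ((tau i : ℝ) * (tau (i + 4) : ℝ)) := by positivity
  refine (mul_le_mul_of_nonneg_right hsum hpos.le).trans ?_
  -- bounds of the ingredients
  set x : ℝ := (i : ℝ) with hx
  have t1 := lt_tau i
  have t2 := tau_le i
  have a1 := lt_tau (i + 4)
  have a2 := tau_le (i + 4)
  have b1 := lt_tau (i + 16)
  have b2 := tau_le (i + 16)
  push_cast at a1 a2 b1 b2
  rw [← hx] at t1 t2 a1 a2 b1 b2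
  have hD : (tau (i + 16) : ℝ) - (tau (i + 4) : ℝ) ≤ (36 * x ^ 2 + 720 * x + 1732032) / 27000 := by
    nlinarith
  have hM : ((tau (i + 4) : ℝ) + (tau (i + 16) : ℝ)) / 2 - (tau i : ℝ)
      ≤ (30 * x ^ 2 + 408 * x + 1730080) / 27000 := by
    nlinarith
  have hM0 : (0 : ℝ) ≤ ((tau (i + 4) : ℝ) + (tau (i + 16) : ℝ)) / 2 - (tau i : ℝ) := by linarith
  have hD0 : (0 : ℝ) ≤ (tau (i + 16) : ℝ) - (tau (i + 4) : ℝ) := by linarith
  have hT : (x ^ 3 - 1728000) / 27000 ≤ (tau i : ℝ) := by linarith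
  have hA : ((x + 4) ^ 3 - 1728000) / 27000 ≤ (tau (i + 4) : ℝ) := by linarith
  have hprod : ((tau (i + 16) : ℝ) - (tau (i + 4) : ℝ)) *
      (((tau (i + 4) : ℝ) + (tau (i + 16) : ℝ)) / 2 - (tau i : ℝ)) ≤
      (36 * x ^ 2 + 720 * x + 1732032) / 27000 * ((30 * x ^ 2 + 408 * x + 1730080) / 27000) :=
    mul_le_mul hD hM hM0 (by positivity)
  have hx3 : (0 : ℝ) ≤ x ^ 3 - 1728000 := by nlinarith [pow_le_pow_left₀ (by norm_num) hiR 3]
  have hx43 : (0 : ℝ) ≤ (x + 4) ^ 3 - 1728000 := by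
    have h5 : (x : ℝ) ^ 3 ≤ (x + 4) ^ 3 := pow_le_pow_left₀ (by linarith) (by linarith) 3
    linarith
  have hTAprod : (x ^ 3 - 1728000) / 27000 * (((x + 4) ^ 3 - 1728000) / 27000) ≤
      (tau i : ℝ) * (tau (i + 4) : ℝ) :=
    mul_le_mul hT hA (by positivity) hTpos.le
  have hjpos : (0 : ℝ) < (j : ℝ) := by
    have : 0 < j := by omega
    exact_mod_cast this
  have hjx : 12 * (j : ℝ) ≤ x := by rw [hx]; exact_mod_cast h1
  have hpoly := wavg_poly x hiR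
  rw [mul_one_div, div_le_div_iff₀ (by positivity) (by positivity)]
  have hj2 : 144 * (j : ℝ) ^ 2 ≤ x ^ 2 := by nlinarith
  have hpr0 : (0 : ℝ) ≤ ((tau (i + 16) : ℝ) - (tau (i + 4) : ℝ)) *
      (((tau (i + 4) : ℝ) + (tau (i + 16) : ℝ)) / 2 - (tau i : ℝ)) := mul_nonneg hD0 hM0
  calc ((tau (i + 16) : ℝ) - (tau (i + 4) : ℝ)) *
      (((tau (i + 4) : ℝ) + (tau (i + 16) : ℝ)) / 2 - (tau i : ℝ)) * (j : ℝ) ^ 2
      ≤ ((36 * x ^ 2 + 720 * x + 1732032) / 27000 * ((30 * x ^ 2 + 408 * x + 1730080) / 27000)) *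
        (x ^ 2 / 144) := by
        apply mul_le_mul hprod (by linarith) (by positivity) (by positivity)
    _ = (x ^ 2 * ((36 * x ^ 2 + 720 * x + 1732032) * (30 * x ^ 2 + 408 * x + 1730080))) /
        (144 * 27000 ^ 2) := by ring
    _ ≤ (1088.64 * ((x ^ 3 - 1728000) * ((x + 4) ^ 3 - 1728000))) / (144 * 27000 ^ 2) := by
        apply div_le_div_of_nonneg_right hpoly (by norm_num)
    _ = 7.56 * ((x ^ 3 - 1728000) / 27000 * (((x + 4) ^ 3 - 1728000) / 27000)) := by ring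
    _ ≤ 7.56 * ((tau i : ℝ) * (tau (i + 4) : ℝ)) :=
        mul_le_mul_of_nonneg_left hTAprod (by norm_num)

end Pool.Agent.Moser.Eng
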