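import Pool.Agent.Lib_MP_cc07e8_co.EngAsg
import Pool.Agent.Lib_MP_cc07e8_co.EngDrift
import Pool.Agent.Lib_MP_cc07e8_co.EngWavg

/-!
# MP_cc07e8_co, engine piece ASSIGN (E1): running strips from the active strips

`K = 12 κ`, `K' = 12 κ'`, `A` = the active strips (windows in `[K, K')`). Every strip `r` of window `i` gets
`slots i r.2` slots. Result: a multiset `Q` of running strips.

Proof. Index `A` by `Fin n` (`A.toList`), windows `i s` (`InW_exists`, `InW_lt`), `m s = slots (i s) (r s).2`, `RR` = the `k` with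
`10320 ≤ k`, `8.95 k ^ 3 ≤ K' ^ 4`, `K ^ 4 ≤ 48.2 k ^ 3` (a filter of `range (K' ^ 2)`). Apply `assign_core`; `Q` = image of
`s ↦ ⟨w s, l s, i s, Bl s⟩`. `Run`: `slot` from `⌊x⌋ > x - 1`, `blk` from `sig K ≤ sig (i + 4)`.
Capacity: for `b` of window `k` `blk_range` and `xx_eq` turn the sum into `64 * XX k A`.
Row `k ≥ K'`: if `k ∈ RR`: `drift_le`, `yy_eq` (`k > i s`): `≤ YY k A + 54760 k / K ^ 3`; if `k ∉ RR` all `ff k (w s) b = 0` (`child_hit`:
a nonzero term would give `8.95 k ^ 3 ≤ i ^ 4 ≤ K' ^ 4`, `K ^ 4 ≤ (i + 15) ^ 4 ≤ 48.2 k ^ 3`) and `YY k A ≥ 0`. Widths: `wavg_le` with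
`j = i / 12`: `∑ slots / DD * 7.56 / j ^ 2 ≤ ∑ j ∈ [κ, κ'), XX (12 j + 15) A * 7.56 / j ^ 2 ≤ ∑ j, 0.88 * 7.56 / j ^ 2 ≤
∑ j, 6.66 / j ^ 2` (a strip of window `i ∈ [12 j, 12 j + 12)` has `xx (12 j + 15) r = slots / DD`); times `bet ≥ 0`.
-/

namespace Pool.Agent.Moser.Eng

open Classical in
/-- error of E1 in row `k` -/
noncomputable def E1err (K K' k : ℕ) : ℝ :=
  if (K : ℝ) ^ 4 ≤ 48.2 * (k : ℝ) ^ 3 ∧ 8.95 * (k : ℝ) ^ 3 ≤ (K' : ℝ) ^ 4 then
    54760 * (k : ℝ) / (K : ℝ) ^ 3 else 0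

theorem bet_nonneg' (K k : ℕ) : 0 ≤ bet K k := by
  unfold bet
  split_ifs <;> norm_num

/-- a block whose average load of row `k` is nonzero contains a child which hits row `k` -/
theorem ff_hit {i k b : ℕ} (hi : 10305 ≤ i) (hk : 10320 ≤ k) {w : ℝ} (h : InW i w)
    (h1 : sig (i + 4) ≤ b) (h2 : b < sig (i + 16)) (hf : ff k w b ≠ 0) :
    8.95 * (k : ℝ) ^ 3 ≤ (i : ℝ) ^ 4 ∧ ((i : ℝ) + 15) ^ 4 ≤ 48.2 * (k : ℝ) ^ 3 := by
  have hex : ∃ q ∈ Finset.Ico (64 * b) (64 * b + 64), xx k (w - 1 / (q : ℝ), 1 / (q : ℝ)) ≠ 0 := by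
    by_contra hc
    push Not at hc
    apply hf
    unfold ff
    rw [Finset.sum_eq_zero hc, zero_div]
  obtain ⟨q, hq, hx⟩ := hex
  rw [Finset.mem_Ico] at hq
  have h3 : tau (i + 4) ≤ q := by rw [tau_eq]; omega
  have h4 : q < tau (i + 16) := by rw [tau_eq]; omega
  obtain ⟨h5, h6, -⟩ := child_hit hi hk h h3 h4 hx
  exact ⟨h5, h6⟩

theorem assign {κ κ' : ℕ} (hκ : 860 ≤ κ) (hκ1 : κ < κ') (hκ2 : 4 * κ' ≤ 5 * κ)
    (A : Multiset (ℝ × ℝ))
    (hA : ∀ r ∈ A, (tau (12 * κ) : ℝ) * r.1 ≤ 1 ∧ ¬ (tau (12 * κ') : ℝ) * r.1 ≤ 1 ∧ 0 ≤ r.2)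
    (hload : ∀ j ∈ Finset.Ico κ κ', XX (12 * j + 15) A ≤ 0.88) :
    ∃ Q : Multiset Pend, Q.map Pend.rect = A ∧
      (∀ p ∈ Q, p.Run (12 * κ) (12 * κ') ∧ 12 * κ ≤ p.i) ∧
      (∀ k b : ℕ, 10320 ≤ k → sig k ≤ b → b < sig (k + 1) →
        (slotsAt Q b : ℝ) ≤ 64 * XX k A + 2) ∧
      ∀ k : ℕ, 12 * κ' ≤ k →
        (Q.map fun p => (p.B.map fun b => ff k p.w b + bet (12 * κ) k * fw p.w b).sum).sum ≤
          YY k A + bet (12 * κ) k *
            (∑ j ∈ Finset.Ico κ κ', 6.66 / (j : ℝ) ^ 2 + 8e8 / (12 * (κ : ℝ)) ^ 4) +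
          E1err (12 * κ) (12 * κ') k := by
  classical
  obtain ⟨n, r, hAr⟩ : ∃ (n : ℕ) (r : Fin n → ℝ × ℝ), A = Finset.univ.val.map r := by
    obtain ⟨L, rfl⟩ := Quot.exists_rep A
    refine ⟨L.length, L.get, ?_⟩
    rw [Fin.univ_val_map, List.ofFn_get]
    rfl
  have hmem : ∀ s, r s ∈ A := by
    intro s
    rw [hAr]
    exact Multiset.mem_map_of_mem r (Finset.mem_univ s)
  have hsumA : ∀ f : ℝ × ℝ → ℝ, (A.map f).sum = ∑ s, f (r s) := by
    intro f
    rw [hAr, Multiset.map_map]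
    rfl
  set K : ℕ := 12 * κ with hK
  set K' : ℕ := 12 * κ' with hK'
  have hK0 : 10320 ≤ K := by omega
  have hKK : K < K' := by omega
  have hpos : ∀ s, 0 < (r s).1 := by
    intro s
    by_contra hc
    push Not at hc
    apply (hA _ (hmem s)).2.1
    have : (tau K' : ℝ) * (r s).1 ≤ 0 := mul_nonpos_of_nonneg_of_nonpos (Nat.cast_nonneg _) hc
    linarith
  choose i hi1 hw using fun s => InW_exists (by omega : 10300 ≤ K) (hpos s) (hA _ (hmem s)).1
  have hi2 : ∀ s, i s < K' := fun s =>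
    InW_lt (by have := hi1 s; omega) (hw s) (hA _ (hmem s)).2.1
  set RR : Finset ℕ := (Finset.range (K' ^ 2 + 1)).filter fun k =>
    10320 ≤ k ∧ (K : ℝ) ^ 4 ≤ 48.2 * (k : ℝ) ^ 3 ∧ 8.95 * (k : ℝ) ^ 3 ≤ (K' : ℝ) ^ 4 with hRRdef
  have hRR : ∀ k ∈ RR, 10320 ≤ k := by
    intro k hk
    rw [hRRdef, Finset.mem_filter] at hk
    exact hk.2.1
  obtain ⟨Bl, hcard, hrange, hcap, htest, hwidth⟩ :=
    assign_core hK0 hKK (fun s => (r s).1) i (fun s => slots (i s) (r s).2) hi1 hi2 hw RR hRR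
  have hmD : ∀ s, 0 ≤ (slots (i s) (r s).2 : ℝ) / (DD (i s) : ℝ) := fun s => by positivity
  refine ⟨Finset.univ.val.map fun s => ⟨(r s).1, (r s).2, i s, Bl s⟩, ?_, ?_, ?_, ?_⟩
  · rw [Multiset.map_map, hAr]
    rfl
  · intro p hp
    obtain ⟨s, -, rfl⟩ := Multiset.mem_map.1 hp
    refine ⟨⟨hw s, ?_, hi2 s, (hA _ (hmem s)).2.2, ?_, ?_⟩, hi1 s⟩
    · have := hi1 s
      show K ≤ i s + 15
      omega
    · intro b hb
      obtain ⟨h1, h2⟩ := hrange s b hb
      have h3 : sig K ≤ sig (i s + 4) := sig_mono (by have := hi1 s; omega)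
      exact ⟨h3.trans h1, h1, h2⟩
    · show (r s).2 * (tau (i s + 16) : ℝ) < ((Bl s).card : ℝ) + 1
      rw [hcard s]
      exact Nat.lt_floor_add_one _
  · intro k b hk hb1 hb2
    have h1 : slotsAt (Finset.univ.val.map fun s => (⟨(r s).1, (r s).2, i s, Bl s⟩ : Pend)) b =
        ∑ s, (Bl s).count b := by
      unfold slotsAt
      rw [Multiset.map_map]
      rfl
    rw [h1]
    refine (hcap b).trans (le_of_eq ?_)
    congr 1
    unfold XX
    rw [hsumA, Finset.mul_sum]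
    refine Finset.sum_congr rfl fun s _ => ?_
    rw [xx_eq (by have := hi1 s; omega) (by omega) (hw s)]
    simp only [blk_range hb1 hb2]
    split_ifs
    · ring
    · ring
  · intro k hk
    have hk0 : 10320 ≤ k := by omega
    have hLHS : ((Finset.univ.val.map fun s => (⟨(r s).1, (r s).2, i s, Bl s⟩ : Pend)).map
        fun p => (p.B.map fun b => ff k p.w b + bet K k * fw p.w b).sum).sum =
        ∑ s, ((Bl s).map (ff k (r s).1)).sum + bet K k * ∑ s, ((Bl s).map (fw (r s).1)).sum := by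
      rw [Multiset.map_map, Finset.mul_sum, ← Finset.sum_add_distrib]
      show ∑ s, _ = _
      refine Finset.sum_congr rfl fun s _ => ?_
      show ((Bl s).map fun b => ff k (r s).1 b + bet K k * fw (r s).1 b).sum = _
      rw [Multiset.sum_map_add, Multiset.sum_map_mul_left]
    rw [hLHS]
    -- loads
    have hff : ∑ s, ((Bl s).map (ff k (r s).1)).sum ≤ YY k A + E1err K K' k := by
      by_cases hcond : (K : ℝ) ^ 4 ≤ 48.2 * (k : ℝ) ^ 3 ∧ 8.95 * (k : ℝ) ^ 3 ≤ (K' : ℝ) ^ 4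
      · have hkRR : k ∈ RR := by
          rw [hRRdef, Finset.mem_filter, Finset.mem_range]
          refine ⟨?_, hk0, hcond⟩
          by_contra hc
          have hc1 : K' ^ 2 + 1 ≤ k := by omega
          have hc2 : ((K' : ℝ)) ^ 2 ≤ k := by
            have : K' ^ 2 ≤ k := by omega
            exact_mod_cast this
          have hK1 : (1 : ℝ) ≤ K' := by
            have : 1 ≤ K' := by omega
            exact_mod_cast this
          have hc3 : ((K' : ℝ) ^ 2) ^ 3 ≤ (k : ℝ) ^ 3 := by gcongr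
          have hc4 : (K' : ℝ) ^ 4 ≤ ((K' : ℝ) ^ 2) ^ 3 := by
            rw [← pow_mul]
            exact pow_le_pow_right₀ hK1 (by norm_num)
          have hc5 : (1 : ℝ) ≤ (K' : ℝ) ^ 4 := one_le_pow₀ hK1
          linarith [hcond.2]
        refine (htest k hkRR).trans ?_
        have hE : E1err K K' k = 54760 * (k : ℝ) / (K : ℝ) ^ 3 := by
          unfold E1err
          rw [if_pos hcond]
        rw [hE]
        have hYY : ∑ s, (slots (i s) (r s).2 : ℝ) / (DD (i s) : ℝ) *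
            ∑ q ∈ Finset.Ico (tau (i s + 4)) (tau (i s + 16)),
              xx k ((r s).1 - 1 / (q : ℝ), 1 / (q : ℝ)) ≤ YY k A := by
          unfold YY
          rw [hsumA]
          refine Finset.sum_le_sum fun s _ => ?_
          rw [yy_eq (by have := hi1 s; omega) (by have := hi2 s; omega) (hw s)]
          exact mul_le_mul_of_nonneg_left (drift_le (by have := hi1 s; omega) hk0 (hw s)) (hmD s)
        linarith
      · have hE : E1err K K' k = 0 := by
          unfold E1err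
          rw [if_neg hcond]
        have hYY : 0 ≤ YY k A := by
          unfold YY
          rw [hsumA]
          exact Finset.sum_nonneg fun s _ => yy_nonneg _ _
        have hz : ∑ s, ((Bl s).map (ff k (r s).1)).sum = 0 := by
          refine Finset.sum_eq_zero fun s _ => ?_
          refine Multiset.sum_eq_zero fun x hx => ?_
          obtain ⟨b, hb, rfl⟩ := Multiset.mem_map.1 hx
          by_contra hne
          obtain ⟨h1, h2⟩ := hrange s b hb
          obtain ⟨h3, h4⟩ := ff_hit (by have := hi1 s; omega) hk0 (hw s) h1 h2 hne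
          apply hcond
          constructor
          · have h5 : (K : ℝ) ≤ (i s : ℝ) + 15 := by
              have : K ≤ i s + 15 := by have := hi1 s; omega
              exact_mod_cast this
            have h6 : (K : ℝ) ^ 4 ≤ ((i s : ℝ) + 15) ^ 4 := by gcongr
            linarith
          · have h5 : (i s : ℝ) ≤ K' := by exact_mod_cast (hi2 s).le
            have h6 : (i s : ℝ) ^ 4 ≤ (K' : ℝ) ^ 4 := by gcongr
            linarith
        rw [hz, hE]
        linarith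
    -- widths
    have hfw : ∑ s, ((Bl s).map (fw (r s).1)).sum ≤
        ∑ j ∈ Finset.Ico κ κ', 6.66 / (j : ℝ) ^ 2 + 8e8 / (12 * (κ : ℝ)) ^ 4 := by
      refine hwidth.trans ?_
      have hKc : (K : ℝ) = 12 * (κ : ℝ) := by rw [hK]; push_cast; ring
      rw [hKc]
      have h1 : ∑ s, (slots (i s) (r s).2 : ℝ) / (DD (i s) : ℝ) *
          ∑ q ∈ Finset.Ico (tau (i s + 4)) (tau (i s + 16)), ((r s).1 - 1 / (q : ℝ)) ≤
          ∑ s, ∑ j ∈ Finset.Ico κ κ', xx (12 * j + 15) (r s) * (7.56 / (j : ℝ) ^ 2) := by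
        refine Finset.sum_le_sum fun s _ => ?_
        have hj1 : i s / 12 ∈ Finset.Ico κ κ' := by
          rw [Finset.mem_Ico]
          have := hi1 s
          have := hi2 s
          omega
        have h2 := wavg_le (i := i s) (j := i s / 12) (by have := hi1 s; omega) (by omega)
          (by omega) (hw s)
        have h3 : xx (12 * (i s / 12) + 15) (r s) = (slots (i s) (r s).2 : ℝ) / (DD (i s) : ℝ) := by
          rw [xx_eq (by have := hi1 s; omega) (by have := hi1 s; omega) (hw s), if_pos]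
          omega
        calc (slots (i s) (r s).2 : ℝ) / (DD (i s) : ℝ) *
              ∑ q ∈ Finset.Ico (tau (i s + 4)) (tau (i s + 16)), ((r s).1 - 1 / (q : ℝ))
            ≤ (slots (i s) (r s).2 : ℝ) / (DD (i s) : ℝ) * (7.56 / ((i s / 12 : ℕ) : ℝ) ^ 2) :=
              mul_le_mul_of_nonneg_left h2 (hmD s)
          _ = xx (12 * (i s / 12) + 15) (r s) * (7.56 / ((i s / 12 : ℕ) : ℝ) ^ 2) := by rw [h3]
          _ ≤ ∑ j ∈ Finset.Ico κ κ', xx (12 * j + 15) (r s) * (7.56 / (j : ℝ) ^ 2) :=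
              Finset.single_le_sum
                (f := fun j => xx (12 * j + 15) (r s) * (7.56 / (j : ℝ) ^ 2))
                (fun j _ => mul_nonneg (xx_nonneg _ _) (by positivity)) hj1
      have h2 : ∑ s, ∑ j ∈ Finset.Ico κ κ', xx (12 * j + 15) (r s) * (7.56 / (j : ℝ) ^ 2) ≤
          ∑ j ∈ Finset.Ico κ κ', 6.66 / (j : ℝ) ^ 2 := by
        rw [Finset.sum_comm]
        refine Finset.sum_le_sum fun j hj => ?_
        rw [← Finset.sum_mul]
        have h3 := hload j hj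
        unfold XX at h3
        rw [hsumA] at h3
        calc (∑ s, xx (12 * j + 15) (r s)) * (7.56 / (j : ℝ) ^ 2)
            ≤ 0.88 * (7.56 / (j : ℝ) ^ 2) := mul_le_mul_of_nonneg_right h3 (by positivity)
          _ = 6.6528 / (j : ℝ) ^ 2 := by ring
          _ ≤ 6.66 / (j : ℝ) ^ 2 := div_le_div_of_nonneg_right (by norm_num) (by positivity)
      linarith
    have hb := mul_le_mul_of_nonneg_left hfw (bet_nonneg' K k)
    linarith

end Pool.Agent.Moser.Eng
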