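import Pool.Agent.Lib_MP_cc07e8_co.EngSplit

/-!
# MP_cc07e8_co, engine piece BUTTER: positions in the blocks

Every slot gets a position in its block of `2 ^ n` positions, different slots of a block get different
positions, and every row keeps the average over all positions up to `4.005 * n * D / wt r`.

Proof: induction on `n` (for `n = 0` every block has at most one slot). Step `n + 1`: positions of
`Fin (2 ^ (n + 1))` are `h * 2 ^ n + p'`, `h ∈ {0, 1}`, `p' < 2 ^ n`. Apply `split_half` with `M = 2 ^ n` and
`v r s h` = average of `val r s` over the half `h` (it satisfies `∑ r, wt r * v r s h ≤ D`). Then apply the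
induction hypothesis to the blocks `blk' s = 2 * blk s + h s` and the values
`val' r s p' = val r s (h s * 2 ^ n + p')`: their average over `p'` is `v r s (h s)`.
It may be easier to state the induction with functions on `ℕ` (positions `p < 2 ^ n`) and to pass to
`Fin 64` at the end: `4.005 * 6 = 24.03`.
-/

namespace Pool.Agent.Moser.Eng

namespace Butter

/-- offset of a half -/
def off (n : ℕ) (h : Bool) : ℕ := cond h (2 ^ n) 0

/-- number of a half -/
def bit (h : Bool) : ℕ := cond h 1 0

theorem off_inj {n : ℕ} {h h' : Bool} {p p' : ℕ} (hp : p < 2 ^ n) (hp' : p' < 2 ^ n)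
    (he : off n h + p = off n h' + p') : h = h' ∧ p = p' := by
  cases h <;> cases h' <;> simp only [off, cond_true, cond_false, true_and] at he ⊢
  · omega
  · exfalso; omega
  · exfalso; omega
  · omega

theorem bit_inj {h h' : Bool} (he : bit h = bit h') : h = h' := by
  cases h <;> cases h' <;> simp_all [bit]

theorem bit_lt (h : Bool) : bit h < 2 := by
  cases h <;> simp [bit]

theorem bfly {S R : Type} [Fintype S] [Fintype R] (wt : R → ℝ)
    (hwt : ∀ r, 0 < wt r) (D : ℝ) (hD : 0 < D) (n : ℕ) : ∀ (blk : S → ℕ)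
    (_ : ∀ b, (Finset.univ.filter fun s => blk s = b).card ≤ 2 ^ n)
    (val : R → S → ℕ → ℝ) (_ : ∀ r s p, 0 ≤ val r s p)
    (_ : ∀ s p, ∑ r, wt r * val r s p ≤ D),
    ∃ pos : S → ℕ, (∀ s, pos s < 2 ^ n) ∧ (∀ s s', blk s = blk s' → pos s = pos s' → s = s') ∧
      ∀ r, |∑ s, val r s (pos s) - ∑ s, (∑ p ∈ Finset.range (2 ^ n), val r s p) / 2 ^ n| ≤
        4.005 * n * D / wt r := by
  classical
  induction n with
  | zero =>
    intro blk hcap val hval hsum
    refine ⟨fun _ => 0, fun _ => by norm_num, ?_, ?_⟩
    · intro s s' hb _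
      have h1 := hcap (blk s)
      rw [pow_zero, Finset.card_le_one] at h1
      exact h1 s (by simp) s' (by simp [hb])
    · intro r
      simp
  | succ n ih =>
    intro blk hcap val hval hsum
    have h2n : (0 : ℝ) < 2 ^ n := by positivity
    let v : R → S → Bool → ℝ := fun r s h =>
      (∑ p ∈ Finset.range (2 ^ n), val r s (off n h + p)) / 2 ^ n
    have hv : ∀ r s h, 0 ≤ v r s h := fun r s h =>
      div_nonneg (Finset.sum_nonneg fun p _ => hval r s _) h2n.le
    have hvs : ∀ s h, ∑ r, wt r * v r s h ≤ D := by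
      intro s h
      have h1 : ∑ r, wt r * v r s h =
          (∑ p ∈ Finset.range (2 ^ n), ∑ r, wt r * val r s (off n h + p)) / 2 ^ n := by
        rw [Finset.sum_comm, Finset.sum_div]
        apply Finset.sum_congr rfl
        intro r _
        rw [← Finset.mul_sum, mul_div_assoc]
      rw [h1, div_le_iff₀ h2n]
      have h2 : ∑ p ∈ Finset.range (2 ^ n), ∑ r, wt r * val r s (off n h + p) ≤
          (Finset.range (2 ^ n)).card • D :=
        Finset.sum_le_card_nsmul _ _ _ fun p _ => hsum s _
      refine h2.trans (le_of_eq ?_)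
      rw [Finset.card_range, nsmul_eq_mul]
      push_cast
      ring
    obtain ⟨h, hh1, hh2⟩ := split_half blk (2 ^ n) (by
      intro b
      refine (hcap b).trans (le_of_eq ?_)
      rw [pow_succ]
      ring) v hv wt hwt D hD hvs
    obtain ⟨pos, hp1, hp2, hp3⟩ := ih (fun s => 2 * blk s + bit (h s))
      (by
        intro b
        by_cases hb : ∃ s, 2 * blk s + bit (h s) = b
        · obtain ⟨s₀, hs₀⟩ := hb
          refine le_trans (Finset.card_le_card ?_) (hh1 (blk s₀) (h s₀))
          intro s hs
          rw [Finset.mem_filter] at hs ⊢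
          have h1 := hs.2.trans hs₀.symm
          have h2 := bit_lt (h s)
          have h3 := bit_lt (h s₀)
          refine ⟨Finset.mem_univ _, by omega, bit_inj (by omega)⟩
        · rw [Finset.filter_eq_empty_iff.2]
          · simp
          · intro s _ hs
            exact hb ⟨s, hs⟩)
      (fun r s p => val r s (off n (h s) + p)) (fun r s p => hval r s _) (fun s p => hsum s _)
    refine ⟨fun s => off n (h s) + pos s, ?_, ?_, ?_⟩
    · intro s
      have h1 := hp1 s
      have h2 : off n (h s) ≤ 2 ^ n := by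
        cases h s <;> simp [off]
      have h3 : 2 ^ (n + 1) = 2 ^ n + 2 ^ n := by rw [pow_succ]; ring
      show off n (h s) + pos s < 2 ^ (n + 1)
      omega
    · intro s s' hb hpos
      have h1 := off_inj (hp1 s) (hp1 s') hpos
      exact hp2 s s' (by simp only [hb, h1.1]) h1.2
    · intro r
      have e1 := hh2 r
      have e2 := hp3 r
      have e3 : ∑ s, (∑ p ∈ Finset.range (2 ^ n), val r s (off n (h s) + p)) / 2 ^ n =
          ∑ s, v r s (h s) := rfl
      have e4 : ∑ s, (∑ p ∈ Finset.range (2 ^ (n + 1)), val r s p) / 2 ^ (n + 1) =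
          ∑ s, (v r s false + v r s true) / 2 := by
        apply Finset.sum_congr rfl
        intro s _
        have h3 : 2 ^ (n + 1) = 2 ^ n + 2 ^ n := by rw [pow_succ]; ring
        rw [h3, Finset.sum_range_add]
        simp only [v, off, cond_true, cond_false, zero_add]
        rw [pow_succ]
        field_simp
      rw [e3] at e2
      rw [e4]
      have h5 : 4.005 * ((n + 1 : ℕ) : ℝ) * D / wt r =
          4.005 * (n : ℝ) * D / wt r + 4.005 * D / wt r := by
        push_cast
        ring
      rw [h5]
      have h6 : ∑ s, val r s (off n (h s) + pos s) - ∑ s, (v r s false + v r s true) / 2 =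
          (∑ s, val r s (off n (h s) + pos s) - ∑ s, v r s (h s)) +
            (∑ s, v r s (h s) - ∑ s, (v r s false + v r s true) / 2) := by ring
      rw [h6]
      exact (abs_add_le _ _).trans (add_le_add e2 e1)

end Butter

theorem butterfly {S R : Type} [Fintype S] [Fintype R] (blk : S → ℕ)
    (hcap : ∀ b, (Finset.univ.filter fun s => blk s = b).card ≤ 64)
    (val : R → S → Fin 64 → ℝ) (hval : ∀ r s p, 0 ≤ val r s p) (wt : R → ℝ)
    (hwt : ∀ r, 0 < wt r) (D : ℝ) (hD : 0 < D) (hsum : ∀ s p, ∑ r, wt r * val r s p ≤ D) :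
    ∃ pos : S → Fin 64, (∀ s s', blk s = blk s' → pos s = pos s' → s = s') ∧
      ∀ r, |∑ s, val r s (pos s) - ∑ s, (∑ p, val r s p) / 64| ≤ 24.03 * D / wt r := by
  classical
  obtain ⟨pos, h1, h2, h3⟩ := Butter.bfly (S := S) wt hwt D hD 6 blk (by simpa using hcap)
    (fun r s p => val r s (Fin.ofNat 64 p)) (fun r s p => hval r s _) (fun s p => hsum s _)
  refine ⟨fun s => Fin.ofNat 64 (pos s), ?_, ?_⟩
  · intro s s' hb hp
    have h4 : (Fin.ofNat 64 (pos s)).val = (Fin.ofNat 64 (pos s')).val := congrArg Fin.val hp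
    have h5 := h1 s
    have h6 := h1 s'
    norm_num at h5 h6
    simp only [Fin.ofNat, Fin.val_mk] at h4
    rw [Nat.mod_eq_of_lt h5, Nat.mod_eq_of_lt h6] at h4
    exact h2 s s' hb h4
  · intro r
    have h4 := h3 r
    have h5 : ∀ s, ∑ p ∈ Finset.range (2 ^ 6), val r s (Fin.ofNat 64 p) = ∑ p, val r s p := by
      intro s
      rw [show (2 : ℕ) ^ 6 = 64 by norm_num, ← Fin.sum_univ_eq_sum_range
        (fun p => val r s (Fin.ofNat 64 p)) 64]
      apply Finset.sum_congr rfl
      intro p _
      congr 1
      apply Fin.ext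
      simp only [Fin.ofNat, Fin.val_mk]
      exact Nat.mod_eq_of_lt p.2
    have h6 : ∑ s, (∑ p ∈ Finset.range (2 ^ 6), val r s (Fin.ofNat 64 p)) / 2 ^ 6 =
        ∑ s, (∑ p, val r s p) / 64 := by
      apply Finset.sum_congr rfl
      intro s _
      rw [h5 s]
      norm_num
    rw [h6] at h4
    refine h4.trans (le_of_eq ?_)
    push_cast
    ring

end Pool.Agent.Moser.Eng
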