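import Pool.Agent.Lib_MP_cc07e8_co.EngEE

/-!
# MP_cc07e8_co, engine piece CC: cost functions for the pieces of the main rectangle

`s = x tau k`, `M = cuts x y ≤ y / (4 x) + 1`, so `M EE ≤ (y / 4) (EE / x) + EE ≤ 1.35 y + 5.4 x` (`EE_le`); for
`s < 256 / 49` `EE = 0` (`EE_small`) and `10.76 / s ≤ 10.76 * 7 / 16 ≤ 4.72` (the first term of `kc` needs `s ≥ 16 / 7`); for
`s ≥ 256 / 49` `10.76 / s ≤ 2.07`, `2.07 + 1.35 ≤ 4.72`; for `s > 16.1` there is no first term. `x = 0`: `kc = 0`.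
-/

namespace Pool.Agent.Moser.Eng

/-- cost functions of the main rectangle -/
noncomputable def c1 (r : ℝ × ℝ) : ℝ := 4.72 * max r.1 r.2 + 5.4 * min r.1 r.2

open Classical in
noncomputable def c2 (t : ℝ) (r : ℝ × ℝ) : ℝ :=
  (if min r.1 r.2 * t ≤ 16.1 then 4.72 else 1.35) * max r.1 r.2 + 5.4 * min r.1 r.2

private lemma cuts_EE_le (k : ℕ) {x y : ℝ} (hx : 0 < x) (hy : 0 ≤ y) :
    (cuts x y : ℝ) * EE k x ≤ 1.35 * y + 5.4 * x := by
  have h1 : (cuts x y : ℝ) ≤ y / (4 * x) + 1 := by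
    unfold cuts
    exact (Nat.ceil_lt_add_one (by positivity)).le
  have h2 : EE k x ≤ 5.4 * x := EE_le k hx.le
  have h3 : 0 ≤ EE k x := EE_nonneg k hx.le
  have h4 : 0 ≤ y / (4 * x) + 1 := by positivity
  calc (cuts x y : ℝ) * EE k x ≤ (y / (4 * x) + 1) * EE k x := mul_le_mul_of_nonneg_right h1 h3
    _ ≤ (y / (4 * x) + 1) * (5.4 * x) := mul_le_mul_of_nonneg_left h2 h4
    _ = 1.35 * y + 5.4 * x := by field_simp; ring

private lemma kc_bound {k : ℕ} (hk : 10320 ≤ k) {x y : ℝ} (hx : 0 ≤ x) (hy : 0 ≤ y) :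
    kc k x y ≤ (if x * (tau k : ℝ) ≤ 16.1 then 4.72 else 1.35) * y + 5.4 * x := by
  have ht : (0 : ℝ) < tau k := lt_of_lt_of_le (by norm_num) (tau_pos (i := k) (by omega))
  unfold kc
  rcases lt_or_ge (x * (tau k : ℝ)) (256 / 49) with hs | hs
  · rw [EE_small hk hx hs, mul_zero, add_zero, if_pos (by linarith : x * (tau k : ℝ) ≤ 16.1)]
    split_ifs with hc
    · have h1 : (0 : ℝ) < x * (tau k : ℝ) := lt_of_lt_of_le (by norm_num) hc.1
      rw [div_le_iff₀ h1]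
      have h2 : 4.72 * y * (16 / 7) ≤ 4.72 * y * (x * (tau k : ℝ)) :=
        mul_le_mul_of_nonneg_left hc.1 (by positivity)
      have h3 : 0 ≤ 5.4 * x * (x * (tau k : ℝ)) := by positivity
      linarith
    · positivity
  · have hx' : 0 < x := by
      rcases hx.eq_or_lt with h | h
      · rw [← h] at hs; norm_num at hs
      · exact h
    have h5 := cuts_EE_le k hx' hy
    split_ifs with hc h16 h16
    · have h1 : (0 : ℝ) < x * (tau k : ℝ) := lt_of_lt_of_le (by norm_num) hc.1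
      have h6 : 10.76 * y / (x * (tau k : ℝ)) ≤ 3 * y := by
        rw [div_le_iff₀ h1]
        have h2 : 3 * y * (256 / 49) ≤ 3 * y * (x * (tau k : ℝ)) :=
          mul_le_mul_of_nonneg_left hs (by positivity)
        linarith
      linarith
    · exact absurd hc.2 h16
    · linarith
    · linarith

theorem kr_le_c1 {k : ℕ} (hk : 10320 ≤ k) {r : ℝ × ℝ} (h1 : 0 ≤ r.1) (h2 : 0 ≤ r.2) :
    kr k r ≤ c1 r := by
  have hy : 0 ≤ max r.1 r.2 := le_max_of_le_left h1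
  have h := kc_bound hk (le_min h1 h2) hy
  unfold kr c1
  refine h.trans ?_
  split_ifs
  · exact le_rfl
  · linarith

theorem kr_le_c2 {k : ℕ} (hk : 10320 ≤ k) {r : ℝ × ℝ} (h1 : 0 ≤ r.1) (h2 : 0 ≤ r.2) :
    kr k r ≤ c2 (tau k : ℝ) r := by
  unfold kr c2
  exact kc_bound hk (le_min h1 h2) (le_max_of_le_left h1)

end Pool.Agent.Moser.Eng
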