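import Pool.Agent.Lib_MP_cc07e8_co.EngWin

/-!
# MP_cc07e8_co, engine piece CHILDW: widths of the children

`w` in window `i` (so `1 / tau (i + 1) < w ≤ 1 / tau i`), `q` in the range of window `i`.
`0 < w - 1 / q` as `tau (i + 1) ≤ tau (i + 4) ≤ q`.
Upper bound: `w - 1 / q ≤ 1 / tau i - 1 / tau (i + 16) = (tau (i + 16) - tau i) / (tau i * tau (i + 16))`; with
`tau (i + 16) - tau i ≤ (48 i ^ 2 + 768 i + 4096) / 27000 + 64`, `tau i ≥ i ^ 3 / 27000 - 64` (see `EngTau`) this is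
`≤ 1.301e6 / (i + 15) ^ 4` for `i ≥ 10305` (checked: the maximum of `(1 / tau i - 1 / tau (i + 16)) (i + 15) ^ 4` is
`1.29991e6`). Method: write `i = 10305 + n`, clear denominators, all coefficients of the polynomial in `n` are
nonnegative (`ring_nf; positivity`, as in `Lib_MP_cc07e8_co/Child.lean`).
-/

namespace Pool.Agent.Moser.Eng

theorem child_pos {i q : ℕ} (hi : 10305 ≤ i) {w : ℝ} (h : InW i w) (h1 : tau (i + 4) ≤ q) :
    0 < w - 1 / (q : ℝ) := by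
  have hw := InW_pos h
  have h2 : tau (i + 1) ≤ q := (tau_mono (by omega)).trans h1
  have h3 : (tau (i + 1) : ℝ) ≤ q := by exact_mod_cast h2
  have h4 : 1 < (q : ℝ) * w := h.2.trans_le (mul_le_mul_of_nonneg_right h3 hw.le)
  have hq : (0 : ℝ) < q := by
    by_contra hq
    push Not at hq
    nlinarith
  rw [sub_pos, div_lt_iff₀ hq]
  linarith

theorem childW_poly (n : ℕ) : 1 / ((10305 + (n : ℝ)) ^ 3 / 27000 - 64) -
    1 / ((10305 + (n : ℝ) + 16) ^ 3 / 27000) ≤ 1.301e6 / (10305 + (n : ℝ) + 15) ^ 4 := by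
  have hn : (0 : ℝ) ≤ n := Nat.cast_nonneg n
  have h0 : 0 < (10305 + (n : ℝ)) ^ 3 / 27000 - 64 := by
    have : (0 : ℝ) < (10305 + (n : ℝ)) ^ 3 - 1728000 := by
      ring_nf
      positivity
    linarith
  rw [div_sub_div _ _ h0.ne' (by positivity), div_le_div_iff₀ (by positivity)
      (by positivity), ← sub_nonneg]
  ring_nf
  positivity

theorem child_width {i q : ℕ} (hi : 10305 ≤ i) {w : ℝ} (h : InW i w) (h0 : 0 < q)
    (h2 : q < tau (i + 16)) : w - 1 / (q : ℝ) ≤ 1.301e6 / ((i : ℝ) + 15) ^ 4 := by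
  obtain ⟨n, rfl⟩ := Nat.exists_eq_add_of_le hi
  have hq : (0 : ℝ) < q := by exact_mod_cast h0
  have hn : (0 : ℝ) ≤ n := Nat.cast_nonneg n
  have hp := childW_poly n
  have ht0 := lt_tau (10305 + n)
  have ht1 := tau_le (10305 + n + 16)
  push_cast at ht0 ht1 ⊢
  have hc : 0 < (10305 + (n : ℝ)) ^ 3 / 27000 - 64 := by
    have : (0 : ℝ) < (10305 + (n : ℝ)) ^ 3 - 1728000 := by
      ring_nf
      positivity
    linarith
  have ht : (0 : ℝ) < (tau (10305 + n) : ℝ) := hc.trans ht0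
  have h3 : w ≤ 1 / (tau (10305 + n) : ℝ) := by
    rw [le_div_iff₀ ht]
    linarith [h.1]
  have h4 : 1 / (tau (10305 + n) : ℝ) ≤ 1 / ((10305 + (n : ℝ)) ^ 3 / 27000 - 64) :=
    one_div_le_one_div_of_le hc ht0.le
  have h5 : (q : ℝ) ≤ (10305 + (n : ℝ) + 16) ^ 3 / 27000 := by
    have : (q : ℝ) ≤ (tau (10305 + n + 16) : ℝ) := by exact_mod_cast h2.le
    exact this.trans ht1
  have h6 : 1 / ((10305 + (n : ℝ) + 16) ^ 3 / 27000) ≤ 1 / (q : ℝ) :=
    one_div_le_one_div_of_le hq h5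
  linarith

/-- the child has no potential in row `k` if `K ^ 4 > 21.2 k ^ 3`: `K ≤ i + 15`, so
`(w - 1 / q) * tau k ≤ 1.301e6 / K ^ 4 * k ^ 3 / 27000 < 48.19 / 21.2 < 16 / 7`; and `pot ≤ 5.4 * width` always. -/
theorem child_pot {i q K k : ℕ} (hi : 10305 ≤ i) (hK : 10320 ≤ K) (hKi : K ≤ i + 15) {w : ℝ}
    (h : InW i w) (h1 : tau (i + 4) ≤ q) (h2 : q < tau (i + 16)) :
    pot k (w - 1 / (q : ℝ)) ≤ bet K k * (w - 1 / (q : ℝ)) := by
  have hpos := child_pos hi h h1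
  unfold bet
  split_ifs with hb
  · exact pot_le k hpos.le
  · push Not at hb
    rw [zero_mul]
    unfold pot
    rw [if_neg]
    push Not
    have hq0 : 0 < q := by
      have h3 : (4e7 : ℝ) ≤ (tau (i + 4) : ℝ) := tau_pos (by omega)
      have h4 : (tau (i + 4) : ℝ) ≤ q := by exact_mod_cast h1
      have h5 : (0 : ℝ) < q := by linarith
      exact_mod_cast h5
    have hwid := child_width hi h hq0 h2
    have hKi' : (K : ℝ) ≤ (i : ℝ) + 15 := by exact_mod_cast hKi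
    have hK0 : (0 : ℝ) < K := by
      have : 0 < K := by omega
      exact_mod_cast this
    have hwid2 : w - 1 / (q : ℝ) ≤ 1.301e6 / (K : ℝ) ^ 4 := by
      refine hwid.trans ?_
      gcongr
    have htk := tau_le k
    have hk0 : (0 : ℝ) ≤ (tau k : ℝ) := Nat.cast_nonneg _
    calc (w - 1 / (q : ℝ)) * (tau k : ℝ) ≤ 1.301e6 / (K : ℝ) ^ 4 * (tau k : ℝ) :=
          mul_le_mul_of_nonneg_right hwid2 hk0
      _ ≤ 1.301e6 / (K : ℝ) ^ 4 * ((k : ℝ) ^ 3 / 27000) :=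
          mul_le_mul_of_nonneg_left htk (by positivity)
      _ < 16 / 7 := by
          rw [div_mul_eq_mul_div, div_lt_iff₀ (by positivity)]
          linarith

/-- the child is a strip of window `≥ K'` (`K' ≤ 5 / 4 K`): `tau K' * (w - 1 / q) ≤
(5 / 4) ^ 3 K ^ 3 / 27000 * 1.301e6 / K ^ 4 ≤ 95 / K ≤ 1` -/
theorem child_late {i q K K' : ℕ} (hi : 10305 ≤ i) (hK : 10320 ≤ K) (hKi : K ≤ i + 15)
    (hKK : 4 * K' ≤ 5 * K) {w : ℝ} (h : InW i w) (h0 : 0 < q) (h2 : q < tau (i + 16)) :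
    (tau K' : ℝ) * (w - 1 / (q : ℝ)) ≤ 1 := by
  have hwid := child_width hi h h0 h2
  have hKi' : (K : ℝ) ≤ (i : ℝ) + 15 := by exact_mod_cast hKi
  have hK1 : (10320 : ℝ) ≤ K := by exact_mod_cast hK
  have hK0 : (0 : ℝ) < K := by linarith
  have hwid2 : w - 1 / (q : ℝ) ≤ 1.301e6 / (K : ℝ) ^ 4 := by
    refine hwid.trans ?_
    gcongr
  have hKK' : (K' : ℝ) ≤ 5 / 4 * K := by
    have : (4 : ℝ) * K' ≤ 5 * K := by exact_mod_cast hKK
    linarith
  have htk : (tau K' : ℝ) ≤ (5 / 4 * (K : ℝ)) ^ 3 / 27000 := by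
    refine (tau_le K').trans ?_
    gcongr
  have hk0 : (0 : ℝ) ≤ (tau K' : ℝ) := Nat.cast_nonneg _
  calc (tau K' : ℝ) * (w - 1 / (q : ℝ)) ≤ (tau K' : ℝ) * (1.301e6 / (K : ℝ) ^ 4) :=
        mul_le_mul_of_nonneg_left hwid2 hk0
    _ ≤ (5 / 4 * (K : ℝ)) ^ 3 / 27000 * (1.301e6 / (K : ℝ) ^ 4) :=
        mul_le_mul_of_nonneg_right htk (by positivity)
    _ ≤ 1 := by
        rw [mul_div_assoc', div_le_iff₀ (by positivity)]
        have h5 : (0 : ℝ) < (K : ℝ) ^ 3 := by positivity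
        nlinarith [mul_le_mul_of_nonneg_right hK1 h5.le]

end Pool.Agent.Moser.Eng
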