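import Pool.Agent.Lib_MP_cc07e8_co.EngWin

/-!
# MP_cc07e8_co, engine piece COLP: column sum of the potentials of a split, centred

Let `t = tau k`, `s = x t`, `w1, w2 ∈ [x / 16, 7 x / 16]`, `w1 + w2 = x / 2`.
* `s ≥ 256 / 7`: both `w t ≥ 16 / 7`, the sum of the potentials is `5.4 x / 2 - 3.1 / t = cen`.
* `64 / 7 ≤ s < 256 / 7`: either both are `≥ 16 / 7` (difference `0`) or exactly one, say `w2 t < 16 / 7`, and then the
  difference is `1.55 / t - 5.4 w2`, absolute value `≤ 10.8 / t`.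
* `s < 64 / 7`: `w1 t + w2 t < 32 / 7`, at most one is `≥ 16 / 7`, the sum of the potentials is `≤ (5.4 * 7 s / 16 - 1.55) / t ≤
  20.05 / t`, and it is `0` if `s < 256 / 49`.
`k ^ 2 / t ≤ 27001 / k`. The `k` with `64 / 7 ≤ s < 256 / 7` lie in an interval `[k1, k2]` (`k1`, `k2` the smallest and the
largest element) with `tau k2 < 4 tau k1`, so `k2 ≤ 1.588 k1`, `∑ 1 / k ≤ (0.588 k1 + 1) / k1 ≤ 0.5881`; the `k` with
`256 / 49 ≤ s < 64 / 7`: `tau k2 < 1.75 tau k1`, `k2 ≤ 1.2052 k1`, `∑ 1 / k ≤ 0.2053`. Together at most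
`27001 (10.8 * 0.5881 + 20.05 * 0.2053) ≤ 282950`, and `282950 / 2e6 ≤ 0.1415`.
-/

namespace Pool.Agent.Moser.Eng

open Classical in
noncomputable def cen (k : ℕ) (x : ℝ) : ℝ :=
  if 64 / 7 ≤ x * (tau k : ℝ) then 2.7 * x - 3.1 / (tau k : ℝ) else 0

theorem pot_two_far {k : ℕ} (hk : 10320 ≤ k) {x w1 w2 : ℝ} (hw : w1 + w2 = x / 2)
    (h1 : x / 16 ≤ w1) (h2 : x / 16 ≤ w2) (h : 256 / 7 ≤ x * (tau k : ℝ)) :
    pot k w1 + pot k w2 = 2.7 * x - 3.1 / (tau k : ℝ) := by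
  have ht : (0 : ℝ) < tau k := by
    have := tau_pos (i := k) (by omega)
    linarith
  have a1 : 16 / 7 ≤ w1 * (tau k : ℝ) := by
    have := mul_le_mul_of_nonneg_right h1 ht.le
    linarith
  have a2 : 16 / 7 ≤ w2 * (tau k : ℝ) := by
    have := mul_le_mul_of_nonneg_right h2 ht.le
    linarith
  unfold pot
  rw [if_pos a1, if_pos a2]
  have : w2 = x / 2 - w1 := by linarith
  subst this
  ring

/-- `k ^ 2 / tau k` -/
theorem sq_div_tau {k : ℕ} (hk : 12900 ≤ k) : (k : ℝ) ^ 2 / (tau k : ℝ) ≤ 27001 / (k : ℝ) := by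
  have ht : (0 : ℝ) < tau k := by
    have := tau_pos (i := k) (by omega)
    linarith
  have h2 : (12900 : ℝ) ≤ k := by exact_mod_cast hk
  have h1 := lt_tau k
  rw [div_le_div_iff₀ ht (by linarith)]
  have h3 : (12900 : ℝ) ^ 3 ≤ (k : ℝ) ^ 3 := by gcongr
  nlinarith

theorem cube_root {A : Finset ℕ} (hA : ∀ k ∈ A, 12900 ≤ k) {x lo hi c : ℝ} (hx : 0 < x)
    (h : ∀ k ∈ A, lo ≤ x * (tau k : ℝ) ∧ x * (tau k : ℝ) < hi) (hc : 0 ≤ c) (hlo : 0 < lo)
    (hcc : hi / lo + 1e-5 ≤ (1 + c) ^ 3) :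
    ∀ k1 ∈ A, ∀ k2 ∈ A, (k2 : ℝ) ≤ (1 + c) * k1 := by
  intro k1 h1 k2 h2
  have b1 := (h k1 h1).1
  have b2 := (h k2 h2).2
  have e1 : (12900 : ℝ) ≤ k1 := by exact_mod_cast hA k1 h1
  have e3 : (12900 : ℝ) ^ 3 ≤ (k1 : ℝ) ^ 3 := by gcongr
  have t1 := tau_le k1
  have t2 := lt_tau k2
  have hhi : 0 < hi / lo := by
    apply div_pos _ hlo
    have : lo ≤ x * (tau k1 : ℝ) := b1
    linarith [(h k1 h1).2]
  have hr : (tau k2 : ℝ) < hi / lo * tau k1 := by
    have f1 : x * (tau k2 : ℝ) < hi / lo * (x * (tau k1 : ℝ)) := by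
      have : hi / lo * lo ≤ hi / lo * (x * (tau k1 : ℝ)) := mul_le_mul_of_nonneg_left b1 hhi.le
      rw [div_mul_cancel₀ _ hlo.ne'] at this
      linarith
    have f2 : x * (tau k2 : ℝ) < x * (hi / lo * (tau k1 : ℝ)) := by linarith
    exact lt_of_mul_lt_mul_left f2 hx.le
  have hq : (k2 : ℝ) ^ 3 ≤ ((1 + c) * k1) ^ 3 := by
    have g1 : hi / lo * (tau k1 : ℝ) ≤ hi / lo * ((k1 : ℝ) ^ 3 / 27000) :=
      mul_le_mul_of_nonneg_left t1 hhi.le
    have g2 : (k2 : ℝ) ^ 3 / 27000 - 64 ≤ hi / lo * ((k1 : ℝ) ^ 3 / 27000) := by linarith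
    have g3 : (k2 : ℝ) ^ 3 ≤ hi / lo * (k1 : ℝ) ^ 3 + 1728000 := by linarith
    have g4 : (hi / lo + 1e-5) * (k1 : ℝ) ^ 3 ≤ (1 + c) ^ 3 * (k1 : ℝ) ^ 3 := by gcongr
    rw [mul_pow]
    nlinarith
  exact le_of_pow_le_pow_left₀ (by norm_num) (by positivity) hq

theorem sum_inv_le {A : Finset ℕ} (hA : ∀ k ∈ A, 12900 ≤ k) {c : ℝ} (hc : 0 ≤ c)
    (h : ∀ k1 ∈ A, ∀ k2 ∈ A, (k2 : ℝ) ≤ (1 + c) * k1) :
    ∑ k ∈ A, 1 / (k : ℝ) ≤ c + 1 / 12900 := by
  rcases A.eq_empty_or_nonempty with rfl | hne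
  · simp; positivity
  set a := A.min' hne with ha
  set b := A.max' hne with hb
  have hab : a ≤ b := A.min'_le_max' hne
  have haA : a ∈ A := A.min'_mem hne
  have hbA : b ∈ A := A.max'_mem hne
  have ha1 : (12900 : ℝ) ≤ a := by exact_mod_cast hA a haA
  have hsub : A ⊆ Finset.Icc a b := fun k hk =>
    Finset.mem_Icc.2 ⟨A.min'_le k hk, A.le_max' k hk⟩
  have hcard : (A.card : ℝ) ≤ b + 1 - a := by
    have h1 := Finset.card_le_card hsub
    rw [Nat.card_Icc] at h1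
    have h2 : (A.card : ℝ) ≤ ((b + 1 - a : ℕ) : ℝ) := by exact_mod_cast h1
    rw [Nat.cast_sub (by omega)] at h2
    push_cast at h2
    exact h2
  have hs : ∑ k ∈ A, 1 / (k : ℝ) ≤ A.card • (1 / (a : ℝ)) := by
    apply Finset.sum_le_card_nsmul
    intro k hk
    apply one_div_le_one_div_of_le (by linarith)
    exact_mod_cast A.min'_le k hk
  rw [nsmul_eq_mul] at hs
  have h5 := h a haA b hbA
  have h6 : (A.card : ℝ) ≤ c * a + 1 := by linarith
  have h7 : (A.card : ℝ) * (1 / (a : ℝ)) ≤ (c * a + 1) * (1 / (a : ℝ)) := by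
    apply mul_le_mul_of_nonneg_right h6
    positivity
  have h8 : (c * a + 1) * (1 / (a : ℝ)) = c + 1 / (a : ℝ) := by
    have : (a : ℝ) ≠ 0 := by linarith
    field_simp
  have h9 : 1 / (a : ℝ) ≤ 1 / 12900 := one_div_le_one_div_of_le (by norm_num) ha1
  linarith

open Classical in
theorem col_pot_point {k : ℕ} (hk : 12900 ≤ k) {x w1 w2 : ℝ} (hx : 0 < x)
    (hw : w1 + w2 = x / 2) (h1 : x / 16 ≤ w1) (h2 : x / 16 ≤ w2) :
    |pot k w1 + pot k w2 - cen k x| ≤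
      (if 64 / 7 ≤ x * (tau k : ℝ) ∧ x * (tau k : ℝ) < 256 / 7 then 10.8 / (tau k : ℝ) else 0) +
      (if 256 / 49 ≤ x * (tau k : ℝ) ∧ x * (tau k : ℝ) < 64 / 7 then 20.05 / (tau k : ℝ) else 0) := by
  have ht : (0 : ℝ) < tau k := by
    have := tau_pos (i := k) (by omega)
    linarith
  have hs : w1 * (tau k : ℝ) + w2 * (tau k : ℝ) = x * (tau k : ℝ) / 2 := by
    rw [← add_mul, hw]; ring
  have hw1 : w1 ≤ 7 * x / 16 := by linarith
  have hw2 : w2 ≤ 7 * x / 16 := by linarith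
  have hv1 : w1 * (tau k : ℝ) ≤ 7 * (x * (tau k : ℝ)) / 16 := by
    have := mul_le_mul_of_nonneg_right hw1 ht.le
    linarith
  have hv2 : w2 * (tau k : ℝ) ≤ 7 * (x * (tau k : ℝ)) / 16 := by
    have := mul_le_mul_of_nonneg_right hw2 ht.le
    linarith
  have hp1 : 0 ≤ w1 * (tau k : ℝ) := by
    apply mul_nonneg _ ht.le
    linarith
  have hp2 : 0 ≤ w2 * (tau k : ℝ) := by
    apply mul_nonneg _ ht.le
    linarith
  -- work with multiples of `1 / tau k`
  have e1 : w1 = (w1 * (tau k : ℝ)) / (tau k : ℝ) := by field_simp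
  have e2 : w2 = (w2 * (tau k : ℝ)) / (tau k : ℝ) := by field_simp
  have e0 : x = (x * (tau k : ℝ)) / (tau k : ℝ) := by field_simp
  set s : ℝ := x * (tau k : ℝ) with hsd
  set u : ℝ := w1 * (tau k : ℝ) with hu
  set v : ℝ := w2 * (tau k : ℝ) with hv
  have P1 : pot k w1 = (if 16 / 7 ≤ u then 5.4 * u - 1.55 else 0) / (tau k : ℝ) := by
    unfold pot
    rw [← hu]
    split_ifs
    · nth_rewrite 1 [e1]; ring
    · simp
  have P2 : pot k w2 = (if 16 / 7 ≤ v then 5.4 * v - 1.55 else 0) / (tau k : ℝ) := by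
    unfold pot
    rw [← hv]
    split_ifs
    · nth_rewrite 1 [e2]; ring
    · simp
  have P0 : cen k x = (if 64 / 7 ≤ s then 2.7 * s - 3.1 else 0) / (tau k : ℝ) := by
    unfold cen
    rw [← hsd]
    split_ifs
    · nth_rewrite 1 [e0]; ring
    · simp
  rw [P1, P2, P0]
  have Q1 : (if 64 / 7 ≤ s ∧ s < 256 / 7 then 10.8 / (tau k : ℝ) else 0) =
      (if 64 / 7 ≤ s ∧ s < 256 / 7 then (10.8 : ℝ) else 0) / (tau k : ℝ) := by
    split_ifs <;> simp
  have Q2 : (if 256 / 49 ≤ s ∧ s < 64 / 7 then 20.05 / (tau k : ℝ) else 0) =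
      (if 256 / 49 ≤ s ∧ s < 64 / 7 then (20.05 : ℝ) else 0) / (tau k : ℝ) := by
    split_ifs <;> simp
  rw [Q1, Q2, ← add_div, ← sub_div, ← add_div, abs_div, abs_of_pos ht]
  apply div_le_div_of_nonneg_right _ ht.le
  rw [abs_le]
  by_cases c1 : 16 / 7 ≤ u <;> by_cases c2 : 16 / 7 ≤ v <;> by_cases c3 : 64 / 7 ≤ s
  · rw [if_pos c1, if_pos c2, if_pos c3]
    constructor
    · split_ifs <;> linarith
    · split_ifs <;> linarith
  · exfalso; push Not at c3; linarith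
  · rw [if_pos c1, if_neg c2, if_pos c3]
    push Not at c2
    by_cases c4 : s < 256 / 7
    · rw [if_pos ⟨c3, c4⟩, if_neg (by intro h; linarith [h.2])]
      constructor <;> linarith
    · exfalso
      push Not at c4
      have : s / 16 ≤ v := by
        have := mul_le_mul_of_nonneg_right h2 ht.le
        rw [← hv] at this
        have e : x / 16 * (tau k : ℝ) = s / 16 := by rw [hsd]; ring
        linarith
      linarith
  · rw [if_pos c1, if_neg c2, if_neg c3]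
    push Not at c2 c3
    rw [if_neg (by intro h; linarith [h.1])]
    rw [if_pos ⟨by linarith, c3⟩]
    constructor <;> linarith
  · rw [if_neg c1, if_pos c2, if_pos c3]
    push Not at c1
    by_cases c4 : s < 256 / 7
    · rw [if_pos ⟨c3, c4⟩, if_neg (by intro h; linarith [h.2])]
      constructor <;> linarith
    · exfalso
      push Not at c4
      have : s / 16 ≤ u := by
        have := mul_le_mul_of_nonneg_right h1 ht.le
        rw [← hu] at this
        have e : x / 16 * (tau k : ℝ) = s / 16 := by rw [hsd]; ring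
        linarith
      linarith
  · rw [if_neg c1, if_pos c2, if_neg c3]
    push Not at c1 c3
    rw [if_neg (by intro h; linarith [h.1])]
    rw [if_pos ⟨by linarith, c3⟩]
    constructor <;> linarith
  · exfalso; push Not at c1 c2; linarith
  · rw [if_neg c1, if_neg c2, if_neg c3]
    constructor
    · split_ifs <;> norm_num
    · split_ifs <;> norm_num

open Classical in
theorem col_pot (R : Finset ℕ) (hR : ∀ k ∈ R, 12900 ≤ k) {x w1 w2 : ℝ} (hx : 0 < x)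
    (hw : w1 + w2 = x / 2) (h1 : x / 16 ≤ w1) (h2 : x / 16 ≤ w2) :
    ∑ k ∈ R, (k : ℝ) ^ 2 / 2e6 * |pot k w1 + pot k w2 - cen k x| ≤ 0.1415 := by
  have key : ∀ k ∈ R, (k : ℝ) ^ 2 / 2e6 * |pot k w1 + pot k w2 - cen k x| ≤
      (if 64 / 7 ≤ x * (tau k : ℝ) ∧ x * (tau k : ℝ) < 256 / 7 then
        0.1458054 * (1 / (k : ℝ)) else 0) +
      (if 256 / 49 ≤ x * (tau k : ℝ) ∧ x * (tau k : ℝ) < 64 / 7 then
        0.270686 * (1 / (k : ℝ)) else 0) := by
    intro k hk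
    have hk0 := hR k hk
    have ht : (0 : ℝ) < tau k := by
      have := tau_pos (i := k) (by omega)
      linarith
    have hkp : (0 : ℝ) < k := by
      have : (12900 : ℝ) ≤ k := by exact_mod_cast hk0
      linarith
    have h3 := col_pot_point hk0 hx hw h1 h2
    have h4 := sq_div_tau hk0
    have h5 : (k : ℝ) ^ 2 / 2e6 * |pot k w1 + pot k w2 - cen k x| ≤ (k : ℝ) ^ 2 / 2e6 *
        ((if 64 / 7 ≤ x * (tau k : ℝ) ∧ x * (tau k : ℝ) < 256 / 7 then 10.8 / (tau k : ℝ) else 0) +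
      (if 256 / 49 ≤ x * (tau k : ℝ) ∧ x * (tau k : ℝ) < 64 / 7 then 20.05 / (tau k : ℝ) else 0)) :=
      mul_le_mul_of_nonneg_left h3 (by positivity)
    refine h5.trans ?_
    rw [mul_add]
    apply add_le_add
    · split_ifs
      · have : (k : ℝ) ^ 2 / 2e6 * (10.8 / (tau k : ℝ)) = (k : ℝ) ^ 2 / (tau k : ℝ) * (10.8 / 2e6) := by
          ring
        rw [this]
        have h6 : (k : ℝ) ^ 2 / (tau k : ℝ) * (10.8 / 2e6) ≤ 27001 / (k : ℝ) * (10.8 / 2e6) := by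
          gcongr
        refine h6.trans (le_of_eq ?_)
        ring
      · simp
    · split_ifs
      · have : (k : ℝ) ^ 2 / 2e6 * (20.05 / (tau k : ℝ)) = (k : ℝ) ^ 2 / (tau k : ℝ) * (20.05 / 2e6) := by
          ring
        rw [this]
        have h6 : (k : ℝ) ^ 2 / (tau k : ℝ) * (20.05 / 2e6) ≤ 27001 / (k : ℝ) * (20.05 / 2e6) := by
          gcongr
        refine h6.trans ?_
        have h7 : 27001 / (k : ℝ) * (20.05 / 2e6) = 0.270685025 * (1 / (k : ℝ)) := by ring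
        rw [h7]
        gcongr
        norm_num
      · simp
  refine (Finset.sum_le_sum key).trans ?_
  rw [Finset.sum_add_distrib, ← Finset.sum_filter, ← Finset.sum_filter, ← Finset.mul_sum,
    ← Finset.mul_sum]
  have s1 : ∑ k ∈ R.filter (fun k : ℕ => 64 / 7 ≤ x * (tau k : ℝ) ∧ x * (tau k : ℝ) < 256 / 7),
      1 / (k : ℝ) ≤ 0.588 + 1 / 12900 := by
    have hA : ∀ k ∈ R.filter (fun k : ℕ => 64 / 7 ≤ x * (tau k : ℝ) ∧ x * (tau k : ℝ) < 256 / 7),
        12900 ≤ k := fun k hk => hR k (Finset.mem_filter.1 hk).1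
    apply sum_inv_le hA (by norm_num)
    exact cube_root hA (lo := 64 / 7) (hi := 256 / 7) hx (fun k hk => (Finset.mem_filter.1 hk).2)
      (by norm_num) (by norm_num) (by norm_num)
  have s2 : ∑ k ∈ R.filter (fun k : ℕ => 256 / 49 ≤ x * (tau k : ℝ) ∧ x * (tau k : ℝ) < 64 / 7),
      1 / (k : ℝ) ≤ 0.2052 + 1 / 12900 := by
    have hA : ∀ k ∈ R.filter (fun k : ℕ => 256 / 49 ≤ x * (tau k : ℝ) ∧ x * (tau k : ℝ) < 64 / 7),
        12900 ≤ k := fun k hk => hR k (Finset.mem_filter.1 hk).1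
    apply sum_inv_le hA (by norm_num)
    exact cube_root hA (lo := 256 / 49) (hi := 64 / 7) hx (fun k hk => (Finset.mem_filter.1 hk).2)
      (by norm_num) (by norm_num) (by norm_num)
  have : 0.1458054 * (0.588 + 1 / 12900 : ℝ) + 0.270686 * (0.2052 + 1 / 12900) ≤ 0.1415 := by
    norm_num
  linarith

end Pool.Agent.Moser.Eng
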