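import Pool.Agent.Lib_MP_cc07e8_co.EngWin

/-!
# MP_cc07e8_co, engine piece COLX: column sum of the loads of one strip

If all `xx k (w, l) = 0`, `k ∈ R`, nothing is to do. Otherwise `w` is in a window `i ≥ 12885` (`i ≥ k - 15`), the rows are
`k = i + 4, .., i + 15`, `xx k (w, l) = slots / DD ≤ 4 x * 1.0005 (i + 28) / 36` (`tau_div_DD`), so the sum is at most
`12 (i + 15) ^ 2 4 x 1.0005 (i + 28) / 36 / 2e6`, `(i + 15) ^ 2 (i + 28) ≤ 1.0046 i ^ 3`, `i ^ 3 / 27000 - 64 < tau i ≤ 1 / w`, so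
`i ^ 3 ≤ 27000 (1 / w + 64) ≤ 27000.05 / w` (`w ≤ 1 / tau i ≤ 1.3e-8`). Total `≤ 1.334 * 1.0046 * 27000.05 x / w ≤ 36190 x / w`.
-/

namespace Pool.Agent.Moser.Eng

theorem col_xx (R : Finset ℕ) (hR : ∀ k ∈ R, 12900 ≤ k) {x l w : ℝ} (hx : 0 < x) (hw : 0 < w)
    (hl : 0 ≤ l) (hl4 : l ≤ 4 * x) :
    ∑ k ∈ R, (k : ℝ) ^ 2 / 2e6 * xx k (w, l) ≤ 36190 / 2e6 * (x / w) := by
  classical
  by_cases hall : ∀ k ∈ R, xx k (w, l) = 0
  · rw [Finset.sum_eq_zero (fun k hk => by rw [hall k hk, mul_zero])]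
    positivity
  · push Not at hall
    obtain ⟨k0, hk0, hne⟩ := hall
    have hk0' := hR k0 hk0
    obtain ⟨i, hi, hi'⟩ : ∃ i, 12885 ≤ i ∧ InW i w := by
      by_contra hcon
      push Not at hcon
      apply hne
      unfold xx
      refine Finset.sum_eq_zero fun j hj => ?_
      rw [Finset.mem_Icc] at hj
      rw [if_neg (hcon j (by omega))]
    have hir : (12885 : ℝ) ≤ i := by exact_mod_cast hi
    have hDD := DD_pos (i := i) (by omega)
    have hs : (slots i l : ℝ) / (DD i : ℝ) ≤ 4 * x * (1.0005 * ((i : ℝ) + 28) / 36) := by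
      have h1 : (slots i l : ℝ) ≤ l * (tau (i + 16) : ℝ) := by
        unfold slots
        exact Nat.floor_le (by positivity)
      have h2 : l * (tau (i + 16) : ℝ) ≤ 4 * x * (tau (i + 16) : ℝ) :=
        mul_le_mul_of_nonneg_right hl4 (Nat.cast_nonneg _)
      have h3 := tau_div_DD (i := i) (by omega)
      calc (slots i l : ℝ) / (DD i : ℝ) ≤ (4 * x * (tau (i + 16) : ℝ)) / (DD i : ℝ) := by
            gcongr
            exact h1.trans h2
        _ = 4 * x * ((tau (i + 16) : ℝ) / (DD i : ℝ)) := by ring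
        _ ≤ _ := by gcongr
    set s : ℝ := 4 * x * (1.0005 * ((i : ℝ) + 28) / 36) with hsdef
    have hs0 : 0 ≤ s := by positivity
    have hterm : ∀ k ∈ R, (k : ℝ) ^ 2 / 2e6 * xx k (w, l) ≤
        if k ∈ Finset.Icc (i + 4) (i + 15) then ((i : ℝ) + 15) ^ 2 / 2e6 * s else 0 := by
      intro k hk
      have hk' := hR k hk
      rw [xx_eq (by omega) (by omega) hi']
      by_cases hc : i + 4 ≤ k ∧ k ≤ i + 15
      · rw [if_pos hc, if_pos (by rw [Finset.mem_Icc]; exact hc)]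
        have h5 : (k : ℝ) ≤ (i : ℝ) + 15 := by exact_mod_cast hc.2
        have h6 : (k : ℝ) ^ 2 ≤ ((i : ℝ) + 15) ^ 2 := by gcongr
        have h7 : (0 : ℝ) ≤ (slots i l : ℝ) / (DD i : ℝ) := by positivity
        have h8 : (k : ℝ) ^ 2 / 2e6 ≤ ((i : ℝ) + 15) ^ 2 / 2e6 := by gcongr
        exact mul_le_mul h8 hs h7 (by positivity)
      · rw [if_neg hc, if_neg (by rw [Finset.mem_Icc]; exact hc), mul_zero]
    have hsum : ∑ k ∈ R, (k : ℝ) ^ 2 / 2e6 * xx k (w, l) ≤ 12 * (((i : ℝ) + 15) ^ 2 / 2e6 * s) := by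
      refine (Finset.sum_le_sum hterm).trans ?_
      rw [← Finset.sum_filter, Finset.sum_const, nsmul_eq_mul]
      have hcard : (R.filter fun k => k ∈ Finset.Icc (i + 4) (i + 15)).card ≤ 12 := by
        have : (R.filter fun k => k ∈ Finset.Icc (i + 4) (i + 15)) ⊆ Finset.Icc (i + 4) (i + 15) := by
          intro k hk
          exact (Finset.mem_filter.mp hk).2
        refine (Finset.card_le_card this).trans ?_
        rw [Nat.card_Icc]
        omega
      have hcard' : ((R.filter fun k => k ∈ Finset.Icc (i + 4) (i + 15)).card : ℝ) ≤ 12 := by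
        exact_mod_cast hcard
      exact mul_le_mul_of_nonneg_right hcard' (by positivity)
    refine hsum.trans ?_
    have h9 := hi'.1
    have h10 := lt_tau i
    have h11 : (i : ℝ) ^ 3 / 27000 - 64 ≤ 1 / w := by
      rw [le_div_iff₀ hw]
      have : ((i : ℝ) ^ 3 / 27000 - 64) * w ≤ (tau i : ℝ) * w :=
        mul_le_mul_of_nonneg_right h10.le hw.le
      linarith
    have h12 : 1.334 * (((i : ℝ) + 15) ^ 2 * ((i : ℝ) + 28)) ≤ 36190 * ((i : ℝ) ^ 3 / 27000 - 64) := by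
      nlinarith [mul_nonneg (sq_nonneg (i : ℝ)) (sub_nonneg.mpr hir), mul_nonneg (Nat.cast_nonneg i : (0:ℝ) ≤ i) (sub_nonneg.mpr hir)]
    have h13 : 1.334 * (((i : ℝ) + 15) ^ 2 * ((i : ℝ) + 28)) ≤ 36190 * (1 / w) :=
      h12.trans (mul_le_mul_of_nonneg_left h11 (by norm_num))
    have h14 : 12 * (((i : ℝ) + 15) ^ 2 / 2e6 * s) =
        x / 2e6 * (1.334 * (((i : ℝ) + 15) ^ 2 * ((i : ℝ) + 28))) := by
      rw [hsdef]; ring
    have h15 : 36190 / 2e6 * (x / w) = x / 2e6 * (36190 * (1 / w)) := by ring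
    rw [h14, h15]
    exact mul_le_mul_of_nonneg_left h13 (by positivity)

end Pool.Agent.Moser.Eng
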