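import Pool.Agent.Lib_MP_cc07e8_co.EngWin

/-!
# MP_cc07e8_co, engine piece DSUM: expected load by the children of the active strips, by groups

A strip `r ∈ A` of window `i ∈ [12 j, 12 j + 12)`, `j ∈ [κ, κ')`: `yy k r = slots / DD * phi k i ≤ slots / DD * Ph j k`
(`yy_eq`, `Finset.le_sup'`) and `xx (12 j + 15) r = slots / DD` (`xx_eq`), all other terms `xx (12 j' + 15) r ≥ 0`.
-/

namespace Pool.Agent.Moser.Eng

theorem Ph_nonneg (j k : ℕ) : 0 ≤ Ph j k := by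
  unfold Ph
  refine (phi_nonneg k (12 * j)).trans ?_
  exact Finset.le_sup' (phi k) (by simp)

private lemma yy_le_groups_aux {κ κ' k : ℕ} (hκ : 860 ≤ κ) (hk : 12 * κ' ≤ k) {r : ℝ × ℝ}
    (hr : 0 < r.1 ∧ (tau (12 * κ) : ℝ) * r.1 ≤ 1 ∧ ¬ (tau (12 * κ') : ℝ) * r.1 ≤ 1) :
    yy k r ≤ ∑ j ∈ Finset.Ico κ κ', xx (12 * j + 15) r * Ph j k := by
  obtain ⟨i, hi, hw⟩ := InW_exists (K := 12 * κ) (by omega) hr.1 hr.2.1
  have hi2 : i < 12 * κ' := InW_lt (by omega) hw hr.2.2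
  rw [yy_eq (by omega) (by omega) hw]
  have hmem : i / 12 ∈ Finset.Ico κ κ' := by rw [Finset.mem_Ico]; omega
  have h1 : xx (12 * (i / 12) + 15) r = (slots i r.2 : ℝ) / (DD i : ℝ) := by
    rw [xx_eq (by omega) (by omega) hw, if_pos (by omega)]
  have h2 : phi k i ≤ Ph (i / 12) k := by
    unfold Ph
    exact Finset.le_sup' (phi k) (by rw [Finset.mem_Ico]; omega)
  have h3 : (slots i r.2 : ℝ) / (DD i : ℝ) * phi k i ≤ xx (12 * (i / 12) + 15) r * Ph (i / 12) k := by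
    rw [h1]
    exact mul_le_mul_of_nonneg_left h2 (by positivity)
  refine h3.trans ?_
  exact Finset.single_le_sum (f := fun j => xx (12 * j + 15) r * Ph j k)
    (fun j _ => mul_nonneg (xx_nonneg _ _) (Ph_nonneg _ _)) hmem

theorem YY_le_groups {κ κ' k : ℕ} (hκ : 860 ≤ κ) (hk : 12 * κ' ≤ k) (A : Multiset (ℝ × ℝ))
    (hA : ∀ r ∈ A, 0 < r.1 ∧ (tau (12 * κ) : ℝ) * r.1 ≤ 1 ∧ ¬ (tau (12 * κ') : ℝ) * r.1 ≤ 1) :
    YY k A ≤ ∑ j ∈ Finset.Ico κ κ', XX (12 * j + 15) A * Ph j k := by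
  induction A using Multiset.induction_on with
  | empty => simp [YY, XX]
  | cons r A ih =>
    have h1 := ih (fun s hs => hA s (Multiset.mem_cons_of_mem hs))
    have h2 := yy_le_groups_aux hκ hk (hA r (Multiset.mem_cons_self r A))
    have h3 : YY k (r ::ₘ A) = yy k r + YY k A := by simp [YY]
    have h4 : ∀ m, XX m (r ::ₘ A) = xx m r + XX m A := by intro m; simp [XX]
    rw [h3]
    simp only [h4, add_mul, Finset.sum_add_distrib]
    exact add_le_add h2 h1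

/-- groups which hit a row `k < 670000` are in class A: `Ph j k ≠ 0` gives a window `i ≥ 12 j` with
`i ^ 4 ≤ 48.2 k ^ 3 < 48.2 * 670000 ^ 3`, so `i ≤ 61704` -/
theorem Ph_class {j k : ℕ} (hk : k < 670000) (h : Ph j k ≠ 0) : 12 * j + 15 < 61730 := by
  obtain ⟨i, hi, he⟩ := Finset.exists_mem_eq_sup' (s := Finset.Ico (12 * j) (12 * j + 12))
    ⟨12 * j, by simp⟩ (phi k)
  unfold Ph at h
  rw [he] at h
  rw [Finset.mem_Ico] at hi
  unfold phi at h
  split_ifs at h with hc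
  · by_contra hcon
    have h1 : (61715 : ℝ) ≤ i := by exact_mod_cast (by omega : 61715 ≤ i)
    have h2 : (k : ℝ) ≤ 670000 := by exact_mod_cast hk.le
    have h3 : (61715 : ℝ) ^ 4 ≤ (i : ℝ) ^ 4 := by gcongr
    have h4 : (k : ℝ) ^ 3 ≤ (670000 : ℝ) ^ 3 := by gcongr
    have h5 : 48.2 * (670000 : ℝ) ^ 3 < (61715 : ℝ) ^ 4 := by norm_num
    linarith [hc.2]
  · exact (h rfl).elim

end Pool.Agent.Moser.Eng
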