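import Pool.Agent.Lib_MP_cc07e8_co.EngWin

/-!
# MP_cc07e8_co, engine piece EE: the expected potential `EE`

Notation: `t = tau k > 0`, `s = x * t`, `z = 7 s / 16`. `EE k x = 0` for `s < 256 / 49` (then
`16 / (7 t) > 7 x / 16`). For `256 / 49 ≤ s ≤ 256 / 7`: `loE = 16 / (7 t)` and
`t * EE = (14 / 3) (z - 16 / 7) (2.7 (z + 16 / 7) - 1.55) / z`. For `s ≥ 256 / 7`: `loE = x / 16`,
`EE = 5.4 x - 6.2 / t`. In all cases `0 ≤ EE ≤ 5.4 x` (`H = 7 x / 16`, `L = loE ≥ x / 16`: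
`EE = 32 / (3 x) (H - L) (2.7 (H + L) - 1.55 / t)`, `L ≥ 16 / (7 t)`, `H ^ 2 - L ^ 2 ≤ 48 x ^ 2 / 256`).
-/

namespace Pool.Agent.Moser.Eng

theorem EE_nonneg (k : ℕ) {x : ℝ} (hx : 0 ≤ x) : 0 ≤ EE k x := by
  unfold EE
  split_ifs with h
  · have hL1 : x / 16 ≤ loE k x := le_max_left _ _
    have hL2 : 16 / (7 * (tau k : ℝ)) ≤ loE k x := le_max_right _ _
    have e1 : 16 / (7 * (tau k : ℝ)) = 16 / 7 * (1 / (tau k : ℝ)) := by
      rw [div_mul_div_comm, mul_one]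
    have e2 : 1.55 / (tau k : ℝ) = 1.55 * (1 / (tau k : ℝ)) := by ring
    have hr : 0 ≤ 1 / (tau k : ℝ) := by positivity
    rw [e1] at hL2
    rw [e2]
    set r := 1 / (tau k : ℝ) with hr'
    set L := loE k x with hL
    have h1 : 5.4 * ((7 * x / 16) ^ 2 - L ^ 2) / 2 - 1.55 * r * (7 * x / 16 - L) =
        (7 * x / 16 - L) * (2.7 * (7 * x / 16 + L) - 1.55 * r) := by ring
    rw [h1]
    refine mul_nonneg (by positivity) (mul_nonneg (by linarith) (by nlinarith))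
  · exact le_rfl

theorem EE_le (k : ℕ) {x : ℝ} (hx : 0 ≤ x) : EE k x ≤ 5.4 * x := by
  unfold EE
  split_ifs with h
  · rcases hx.eq_or_lt with h0 | h0
    · rw [← h0]; simp
    have hL1 : x / 16 ≤ loE k x := le_max_left _ _
    have hr : 0 ≤ 1.55 / (tau k : ℝ) := by positivity
    set r := 1.55 / (tau k : ℝ) with hr'
    set L := loE k x with hL
    have h1 : 5.4 * ((7 * x / 16) ^ 2 - L ^ 2) / 2 - r * (7 * x / 16 - L) ≤
        5.4 * x * (3 * x / 32) := by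
      have h2 : 0 ≤ r * (7 * x / 16 - L) := mul_nonneg hr (by linarith)
      have h3 : (x / 16) ^ 2 ≤ L ^ 2 := pow_le_pow_left₀ (by positivity) hL1 2
      nlinarith
    calc 32 / (3 * x) * (5.4 * ((7 * x / 16) ^ 2 - L ^ 2) / 2 - r * (7 * x / 16 - L)) ≤
        32 / (3 * x) * (5.4 * x * (3 * x / 32)) := mul_le_mul_of_nonneg_left h1 (by positivity)
      _ = 5.4 * x := by field_simp
  · positivity

private lemma EE_taupos {k : ℕ} (hk : 10320 ≤ k) : (0 : ℝ) < tau k :=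
  lt_of_lt_of_le (by norm_num) (tau_pos (i := k) (by omega))

theorem EE_small {k : ℕ} (hk : 10320 ≤ k) {x : ℝ} (hx : 0 ≤ x)
    (h : x * (tau k : ℝ) < 256 / 49) : EE k x = 0 := by
  have ht := EE_taupos hk
  unfold EE
  rw [if_neg]
  intro hc
  have hL2 : 16 / (7 * (tau k : ℝ)) ≤ 7 * x / 16 := (le_max_right _ _).trans hc
  rw [div_le_iff₀ (by positivity)] at hL2
  nlinarith

/-- middle range -/
theorem EE_mid {k : ℕ} (hk : 10320 ≤ k) {x : ℝ} (hx : 0 < x) (h1 : 256 / 49 ≤ x * (tau k : ℝ))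
    (h2 : x * (tau k : ℝ) ≤ 256 / 7) :
    (tau k : ℝ) * EE k x = 14 / 3 * (7 * (x * (tau k : ℝ)) / 16 - 16 / 7) *
      (2.7 * (7 * (x * (tau k : ℝ)) / 16 + 16 / 7) - 1.55) / (7 * (x * (tau k : ℝ)) / 16) := by
  have ht := EE_taupos hk
  have hL : loE k x = 16 / (7 * (tau k : ℝ)) := by
    unfold loE
    apply max_eq_right
    rw [le_div_iff₀ (by positivity)]
    nlinarith
  unfold EE
  rw [hL, if_pos]
  · field_simp
    ring
  · rw [div_le_iff₀ (by positivity)]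
    nlinarith

/-- value for large `x * tau k` -/
theorem EE_far {k : ℕ} (hk : 10320 ≤ k) {x : ℝ} (hx : 0 < x) (h : 256 / 7 ≤ x * (tau k : ℝ)) :
    EE k x = 5.4 * x - 6.2 / (tau k : ℝ) := by
  have ht := EE_taupos hk
  have hL : loE k x = x / 16 := by
    unfold loE
    apply max_eq_left
    rw [div_le_iff₀ (by positivity)]
    nlinarith
  unfold EE
  rw [hL, if_pos (by linarith)]
  field_simp
  ring

theorem kc_nonneg (k : ℕ) {x y : ℝ} (hx : 0 ≤ x) (hy : 0 ≤ y) : 0 ≤ kc k x y := by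
  unfold kc
  refine add_nonneg ?_ (mul_nonneg (Nat.cast_nonneg _) (EE_nonneg k hx))
  split_ifs
  · positivity
  · exact le_rfl

end Pool.Agent.Moser.Eng
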