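import Pool.Agent.Lib_MP_cc07e8_co.EngNumT

/-!
# MP_cc07e8_co, engine piece NUMA: rows of class A, `k < 61730`

`12 kap e ≤ k < 61730`, so `e ≤ 8` (`12 kap 8 = 61416`). No births (`10320 ^ 4 > 21.2 k ^ 3`), no errors `Eerr`
(`10320 ^ 4 > 48.2 k ^ 3` for `k < 61738`), no drift (`rho_zero`, `sum_Ph`, `sum_YY`, `YY_zero`; `Ph ≥ 0`). Left:
`0.02052 + 905 (1 / 10319.5 - 1 / (12 kap e - 0.5)) + (sum of 16 / √) + 2.15e6 e / k ^ 2 + 0.0098 ≤ 0.12`. With `k ≥ 12 kap e`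
(values 10320, 12900, 16116, 20136, 25164, 31452, 39312, 49140, 61416 for `e = 0, .., 8`): the worst case is
`e = 8`: `0.02052 + 0.0730 + 0.0083 + 0.0046 + 0.0098 = 0.1162`.
-/

namespace Pool.Agent.Moser.Eng

theorem numA_kap : kap 0 = 860 ∧ kap 1 = 1075 ∧ kap 2 = 1343 ∧ kap 3 = 1678 ∧ kap 4 = 2097 ∧
    kap 5 = 2621 ∧ kap 6 = 3276 ∧ kap 7 = 4095 ∧ kap 8 = 5118 ∧ kap 9 = 6397 ∧ kap 10 = 7996 := by
  refine ⟨rfl, rfl, rfl, rfl, rfl, rfl, rfl, rfl, rfl, rfl, rfl⟩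

/-- the sum of the costs of the main rectangle -/
theorem numA_shelf (e k : ℕ) :
    ∑ d ∈ Finset.range e, shelf (kap d) (kap (d + 1)) k ≤
      905 * (1 / 10319.5 - 1 / (12 * (kap e : ℝ) - 1 / 2)) + 0.0089 := by
  have h1 : ∑ d ∈ Finset.range e, shelf (kap d) (kap (d + 1)) k ≤
      ∑ d ∈ Finset.range e, (905 * ∑ i ∈ Finset.Ico (12 * kap d) (12 * kap (d + 1)),
        1 / (i : ℝ) ^ 2 + 16 / √((tau (12 * kap d) : ℝ) - 1)) := by
    refine Finset.sum_le_sum fun d _ => ?_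
    unfold shelf
    have h0 : 0 ≤ ∑ i ∈ Finset.Ico (12 * kap d) (12 * kap (d + 1)), 1 / (i : ℝ) ^ 2 :=
      Finset.sum_nonneg fun i _ => by positivity
    split_ifs
    · nlinarith
    · exact le_rfl
  refine h1.trans ?_
  rw [Finset.sum_add_distrib, ← Finset.mul_sum]
  have h2 := sum_u (Nat.zero_le e)
  rw [← Finset.range_eq_Ico, numA_kap.1] at h2
  have h3 := sum_sqrt e
  have h4 : (12 * ((860 : ℕ) : ℝ) - 1 / 2) = 10319.5 := by norm_num
  rw [h4] at h2
  have h5 := mul_le_mul_of_nonneg_left h2 (by norm_num : (0 : ℝ) ≤ 905)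
  linarith

theorem num_A {a b X Y : ℝ} {G : Multiset (ℝ × ℝ)} (hS : Start a b X Y G) {e k : ℕ}
    (hk : 12 * kap e ≤ k) (hk2 : k < 61730) : UU G e k + 0.0098 ≤ 0.12 := by
  obtain ⟨c0, c1, c2, c3, c4, c5, c6, c7, c8, c9, c10⟩ := numA_kap
  have hke := kap_ge e
  have hk0 : 10320 ≤ k := by omega
  have he : e ≤ 8 := by
    by_contra hc
    have h1 : kap 9 ≤ kap e := kap_mono (by omega)
    rw [c9] at h1
    omega
  have hlow := UU_low (G := G) (e := e) hk0 (by omega : k < 670000)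
  rw [YY_zero (fun r hr => ⟨(hS.strip r hr).2.1, (hS.strip r hr).1⟩) hk2,
    rho_zero hk0 hk2] at hlow
  have hkr : (k : ℝ) ≤ 61729 := by
    have : k ≤ 61729 := by omega
    exact_mod_cast this
  have hkr0 : (10320 : ℝ) ≤ k := by exact_mod_cast hk0
  have hk3 : (k : ℝ) ^ 3 ≤ 61729 ^ 3 := pow_le_pow_left₀ (by linarith) hkr 3
  have hsum : ∑ d ∈ Finset.range e, (bet (12 * kap d) k * births (kap d) (kap (d + 1)) +
        shelf (kap d) (kap (d + 1)) k + Eerr (12 * kap d) (12 * kap (d + 1)) k +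
        2.15e6 / (k : ℝ) ^ 2) =
      ∑ d ∈ Finset.range e, shelf (kap d) (kap (d + 1)) k + e * (2.15e6 / (k : ℝ) ^ 2) := by
    rw [← nsmul_eq_mul, ← Finset.card_range e, ← Finset.sum_const, Finset.card_range,
      ← Finset.sum_add_distrib]
    refine Finset.sum_congr rfl fun d _ => ?_
    have hd := kap_ge d
    have hdr : (10320 : ℝ) ≤ ((12 * kap d : ℕ) : ℝ) := by
      have : 10320 ≤ 12 * kap d := by omega
      exact_mod_cast this
    have hd4 : (10320 : ℝ) ^ 4 ≤ ((12 * kap d : ℕ) : ℝ) ^ 4 :=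
      pow_le_pow_left₀ (by norm_num) hdr 4
    have h1 : bet (12 * kap d) k = 0 := by
      unfold bet
      rw [if_neg]
      intro h
      norm_num at hd4 hk3 h
      linarith
    have h2 : Eerr (12 * kap d) (12 * kap (d + 1)) k = 0 := by
      unfold Eerr
      rw [if_neg]
      rintro ⟨h, _⟩
      norm_num at hd4 hk3 h
      linarith
    rw [h1, h2]
    ring
  rw [hsum] at hlow
  have hsh := numA_shelf e k
  have hkk : (12 * (kap e : ℝ)) ≤ k := by exact_mod_cast hk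
  have hkp : 0 < 12 * (kap e : ℝ) := by
    have : 0 < kap e := by omega
    have : (0 : ℝ) < kap e := by exact_mod_cast this
    linarith
  have hinv : 2.15e6 / (k : ℝ) ^ 2 ≤ 2.15e6 / (12 * (kap e : ℝ)) ^ 2 :=
    div_le_div_of_nonneg_left (by norm_num) (by positivity) (pow_le_pow_left₀ hkp.le hkk 2)
  have hfin : 905 * (1 / 10319.5 - 1 / (12 * (kap e : ℝ) - 1 / 2)) +
      e * (2.15e6 / (12 * (kap e : ℝ)) ^ 2) ≤ 0.0776 := by
    interval_cases e
    · rw [c0]; norm_num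
    · rw [c1]; norm_num
    · rw [c2]; norm_num
    · rw [c3]; norm_num
    · rw [c4]; norm_num
    · rw [c5]; norm_num
    · rw [c6]; norm_num
    · rw [c7]; norm_num
    · rw [c8]; norm_num
  have he0 : (0 : ℝ) ≤ e := by positivity
  have h9 := mul_le_mul_of_nonneg_left hinv he0
  linarith

end Pool.Agent.Moser.Eng
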