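import Pool.Agent.Lib_MP_cc07e8_co.EngNumU

/-!
# MP_cc07e8_co, engine piece NUMB: rows `80000 ≤ k < 160000`

`rowC`, `rowC2`: `XX + YY ≤ 0.5602` for `k < 119940`, `≤ 0.5535` above; at the end the rows `160000 ≤ k < 220000` (`rowD`: `≤ 0.5538`).
`12 kap e ≤ k < 160000`, so `e ≤ 12` (`12 kap 12 = 149916`, `12 kap 13 = 187392`). `UU_low`, `rho_le`, `rowC`:
`XX k G + UU G e k + 0.0098 ≤ 0.553 + 0.12 rhoB k + 0.03032 + ∑ d < e (bet * births + shelf + Eerr + 2.15e6 / k ^ 2)`. Limit `0.85`.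
The epochs are `K_d = 12 kap d` = 10320, 12900, 16116, 20136, 25164, 31452, 39312, 49140, 61416, 76764, 95952, 119940, 149916.
Terms of epoch `d`: births `5.4 * births` only if `K_d ^ 4 ≤ 21.2 k ^ 3` (`d = 0`: `k ≥ 81183`, `d = 1`: `k ≥ 109314`, `d = 2`: `k ≥ 147084`);
the `u`-coefficient is `625` if `10 K_(d + 1) ≤ k` (`tau_ten`; only `d = 0`, `k ≥ 129000`) else `905`; `Eerr = 273600 k / K_d ^ 3` only if
`K_d ^ 4 ≤ 48.2 k ^ 3` and `8.95 k ^ 3 ≤ K_(d + 1) ^ 4` (`d = 0`: `k ≤ 145717`; `d = 1`: `k ≥ 83133`; `d = 2`: `k ≥ 111857`; `d = 3`: `k ≥ 150528`).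
`sum_u`, `sum_births`, `sum_sqrt` (`≤ 0.0089`) give the sums. Totals on cells (all terms at the worse end), limit `0.85`:
[80000, 95952): 0.8103 (births d = 0: 0.0084, u 0.0759, Eerr 0.0361, e ≤ 9: 0.0029), [95952, 109314): 0.8170 (e ≤ 10: u 0.0783,
Eerr 0.0411), [109314, 119940): 0.8345 (births 0.0151, Eerr 0.0531), [119940, 129000): 0.8400 (e ≤ 11: u 0.0802, Eerr 0.0570),
[129000, 138000): 0.8383 (u 0.0747, Eerr 0.0610), [138000, 145718): 0.8417 (Eerr 0.0644), [145718, 149916): 0.8110 (births 0.0204, Eerr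
0.0290), [149916, 160000): 0.8200 (e ≤ 12: u 0.0762, Eerr 0.0362). `rhoB` (decreasing): 0.8613 at 80000, 0.8564 at 95952, 0.8533 at 109314,
0.8513 at 119940, 0.8498 at 129000, 0.8485 at 138000, 0.8474 at 145718, 0.8469 at 149916.
-/

namespace Pool.Agent.Moser.Eng

/-- the total on a cell `K0 ≤ k ≤ K1` of rows -/
theorem numB_cell {G : Multiset (ℝ × ℝ)} {k : ℕ} {cc : ℝ} (g2 : XX k G + YY k G ≤ cc)
    {e E c m a b : ℕ} {K0 K1 s t : ℝ} (hk : 12 * kap e ≤ k) (hk1 : 80000 ≤ k) (hk2 : k < 670000)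
    (h00 : 0 < K0) (h0 : K0 ≤ (k : ℝ)) (h1 : (k : ℝ) ≤ K1) (hE : k < 12 * kap (E + 1)) (hc : c ≤ E)
    (hcc : 21.2 * K1 ^ 3 < (12 * (kap c : ℝ)) ^ 4) (hm : m ≤ E)
    (hmm : m = 0 ∨ 10 * (12 * kap m) ≤ k) (hab : a ≤ b) (hb : b ≤ E)
    (ha : a = 0 ∨ (12 * (kap a : ℝ)) ^ 4 < 8.95 * K0 ^ 3)
    (hbb : 48.2 * K1 ^ 3 < (12 * (kap b : ℝ)) ^ 4) (hs : 0 < s) (ht : 0 < t)
    (hs2 : s ^ 2 ≤ K0) (ht2 : t ^ 2 ≤ s) :
    XX k G + UU G e k + 0.0098 ≤ cc + 0.03032 +
      0.12 * ((1.0015 + 800 / K0) * (0.8178 + 5.95 / s + 60 / (s * t))) +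
      5.4 * (6.66 * (1 / (859.5 : ℝ) - 1 / ((kap c : ℝ) - 1 / 2)) + 1e-6) +
      (625 * (1 / (10319.5 : ℝ) - 1 / (12 * (kap m : ℝ) - 1 / 2)) +
        905 * (1 / (12 * (kap m : ℝ) - 1 / 2) - 1 / (12 * (kap E : ℝ) - 1 / 2)) + 0.0089) +
      273600 * K1 * ∑ d ∈ Finset.Ico a b, 1 / (12 * (kap d : ℝ)) ^ 3 +
      (E : ℝ) * (2.15e6 / K0 ^ 2) := by
  have hk0 : (0 : ℝ) ≤ (k : ℝ) := Nat.cast_nonneg k
  have g1 := UU_parts (G := G) (show 10320 ≤ k by omega) (show k < 670000 by omega)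
    (epoch_le hk hE)
  have g3 := (rho_le (show 10320 ≤ k by omega) (kap E)).trans (rhoB_le h00 hs ht h0 hs2 ht2)
  have c1 : (k : ℝ) ^ 3 ≤ K1 ^ 3 := pow_le_pow_left₀ hk0 h1 3
  have c0 : K0 ^ 3 ≤ (k : ℝ) ^ 3 := pow_le_pow_left₀ h00.le h0 3
  have g4 := part_births (k := k) hc (by linarith)
  have g5 := part_shelf hm hmm
  have g6 := part_Eerr (k := k) hab hb
    (by
      rcases ha with ha | ha
      · exact Or.inl ha
      · exact Or.inr (by linarith))
    (Or.inr (by linarith))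
  have g7 : ∑ d ∈ Finset.Ico a b, 273600 * (k : ℝ) / (12 * (kap d : ℝ)) ^ 3 ≤
      273600 * K1 * ∑ d ∈ Finset.Ico a b, 1 / (12 * (kap d : ℝ)) ^ 3 := by
    rw [Finset.mul_sum]
    refine Finset.sum_le_sum fun d _ => ?_
    rw [mul_one_div]
    apply div_le_div_of_nonneg_right _ (by positivity)
    linarith
  have g8 : (E : ℝ) * (2.15e6 / (k : ℝ) ^ 2) ≤ (E : ℝ) * (2.15e6 / K0 ^ 2) := by
    apply mul_le_mul_of_nonneg_left _ (Nat.cast_nonneg E)
    apply div_le_div_of_nonneg_left (by norm_num) (by positivity)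
    exact pow_le_pow_left₀ h00.le h0 2
  linarith

theorem numB_1 {a b X Y : ℝ} {G : Multiset (ℝ × ℝ)} (hS : Start a b X Y G) {e k : ℕ}
    (hk : 12 * kap e ≤ k) (hk1 : 80000 ≤ k) (hk2 : k < 95952) :
    XX k G + UU G e k + 0.0098 ≤ 0.85 := by
  obtain ⟨k1, k2, k3, k4, k5, k6, k7, k8, k9, k10, k11, k12, k13, k14⟩ := kap_val
  have h0 : (80000 : ℝ) ≤ (k : ℝ) := by exact_mod_cast hk1
  have h1 : (k : ℝ) ≤ 95951 := by
    have : k ≤ 95951 := by omega
    exact_mod_cast this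
  refine (numB_cell (hS.rowC k (by omega) (by omega)) (E := 9) (c := 1) (m := 0) (a := 0) (b := 2) (s := 282.8) (t := 16.8) hk
    (by omega) (by omega) (by norm_num) h0 h1 (by rw [k10]; omega) (by norm_num)
    (by rw [k1]; norm_num) (by norm_num)
    (Or.inl rfl) (by norm_num) (by norm_num)
    (Or.inl rfl) (by rw [k2]; norm_num) (by norm_num) (by norm_num)
    (by norm_num) (by norm_num)).trans ?_
  rw [k1, kap_zero]
  norm_num [Finset.sum_Ico_eq_sum_range, Finset.sum_range_succ, kap_zero, k1, k2, k3, k4, k9, k10, k11, k12]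

theorem numB_2 {a b X Y : ℝ} {G : Multiset (ℝ × ℝ)} (hS : Start a b X Y G) {e k : ℕ}
    (hk : 12 * kap e ≤ k) (hk1 : 95952 ≤ k) (hk2 : k < 109314) :
    XX k G + UU G e k + 0.0098 ≤ 0.85 := by
  obtain ⟨k1, k2, k3, k4, k5, k6, k7, k8, k9, k10, k11, k12, k13, k14⟩ := kap_val
  have h0 : (95952 : ℝ) ≤ (k : ℝ) := by exact_mod_cast hk1
  have h1 : (k : ℝ) ≤ 109313 := by
    have : k ≤ 109313 := by omega
    exact_mod_cast this
  refine (numB_cell (hS.rowC k (by omega) (by omega)) (E := 10) (c := 1) (m := 0) (a := 0) (b := 2) (s := 309.7) (t := 17.5) hk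
    (by omega) (by omega) (by norm_num) h0 h1 (by rw [k11]; omega) (by norm_num)
    (by rw [k1]; norm_num) (by norm_num)
    (Or.inl rfl) (by norm_num) (by norm_num)
    (Or.inl rfl) (by rw [k2]; norm_num) (by norm_num) (by norm_num)
    (by norm_num) (by norm_num)).trans ?_
  rw [k1, kap_zero]
  norm_num [Finset.sum_Ico_eq_sum_range, Finset.sum_range_succ, kap_zero, k1, k2, k3, k4, k9, k10, k11, k12]

theorem numB_3 {a b X Y : ℝ} {G : Multiset (ℝ × ℝ)} (hS : Start a b X Y G) {e k : ℕ}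
    (hk : 12 * kap e ≤ k) (hk1 : 109314 ≤ k) (hk2 : k < 119940) :
    XX k G + UU G e k + 0.0098 ≤ 0.85 := by
  obtain ⟨k1, k2, k3, k4, k5, k6, k7, k8, k9, k10, k11, k12, k13, k14⟩ := kap_val
  have h0 : (109314 : ℝ) ≤ (k : ℝ) := by exact_mod_cast hk1
  have h1 : (k : ℝ) ≤ 119939 := by
    have : k ≤ 119939 := by omega
    exact_mod_cast this
  refine (numB_cell (hS.rowC k (by omega) (by omega)) (E := 10) (c := 2) (m := 0) (a := 0) (b := 3) (s := 330.6) (t := 18.1) hk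
    (by omega) (by omega) (by norm_num) h0 h1 (by rw [k11]; omega) (by norm_num)
    (by rw [k2]; norm_num) (by norm_num)
    (Or.inl rfl) (by norm_num) (by norm_num)
    (Or.inl rfl) (by rw [k3]; norm_num) (by norm_num) (by norm_num)
    (by norm_num) (by norm_num)).trans ?_
  rw [k2, kap_zero]
  norm_num [Finset.sum_Ico_eq_sum_range, Finset.sum_range_succ, kap_zero, k1, k2, k3, k4, k9, k10, k11, k12]

theorem numB_4 {a b X Y : ℝ} {G : Multiset (ℝ × ℝ)} (hS : Start a b X Y G) {e k : ℕ}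
    (hk : 12 * kap e ≤ k) (hk1 : 119940 ≤ k) (hk2 : k < 129000) :
    XX k G + UU G e k + 0.0098 ≤ 0.85 := by
  obtain ⟨k1, k2, k3, k4, k5, k6, k7, k8, k9, k10, k11, k12, k13, k14⟩ := kap_val
  have h0 : (119940 : ℝ) ≤ (k : ℝ) := by exact_mod_cast hk1
  have h1 : (k : ℝ) ≤ 128999 := by
    have : k ≤ 128999 := by omega
    exact_mod_cast this
  refine (numB_cell (hS.rowC2 k (by omega) (by omega)) (E := 11) (c := 2) (m := 0) (a := 0) (b := 3) (s := 346.3) (t := 18.6) hk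
    (by omega) (by omega) (by norm_num) h0 h1 (by rw [k12]; omega) (by norm_num)
    (by rw [k2]; norm_num) (by norm_num)
    (Or.inl rfl) (by norm_num) (by norm_num)
    (Or.inl rfl) (by rw [k3]; norm_num) (by norm_num) (by norm_num)
    (by norm_num) (by norm_num)).trans ?_
  rw [k2, kap_zero]
  norm_num [Finset.sum_Ico_eq_sum_range, Finset.sum_range_succ, kap_zero, k1, k2, k3, k4, k9, k10, k11, k12]

theorem numB_5 {a b X Y : ℝ} {G : Multiset (ℝ × ℝ)} (hS : Start a b X Y G) {e k : ℕ}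
    (hk : 12 * kap e ≤ k) (hk1 : 129000 ≤ k) (hk2 : k < 138000) :
    XX k G + UU G e k + 0.0098 ≤ 0.85 := by
  obtain ⟨k1, k2, k3, k4, k5, k6, k7, k8, k9, k10, k11, k12, k13, k14⟩ := kap_val
  have h0 : (129000 : ℝ) ≤ (k : ℝ) := by exact_mod_cast hk1
  have h1 : (k : ℝ) ≤ 137999 := by
    have : k ≤ 137999 := by omega
    exact_mod_cast this
  refine (numB_cell (hS.rowC2 k (by omega) (by omega)) (E := 11) (c := 2) (m := 1) (a := 0) (b := 3) (s := 359.1) (t := 18.9) hk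
    (by omega) (by omega) (by norm_num) h0 h1 (by rw [k12]; omega) (by norm_num)
    (by rw [k2]; norm_num) (by norm_num)
    (Or.inr (by rw [k1]; omega)) (by norm_num) (by norm_num)
    (Or.inl rfl) (by rw [k3]; norm_num) (by norm_num) (by norm_num)
    (by norm_num) (by norm_num)).trans ?_
  rw [k2, k1]
  norm_num [Finset.sum_Ico_eq_sum_range, Finset.sum_range_succ, kap_zero, k1, k2, k3, k4, k9, k10, k11, k12]

theorem numB_6 {a b X Y : ℝ} {G : Multiset (ℝ × ℝ)} (hS : Start a b X Y G) {e k : ℕ}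
    (hk : 12 * kap e ≤ k) (hk1 : 138000 ≤ k) (hk2 : k < 145718) :
    XX k G + UU G e k + 0.0098 ≤ 0.85 := by
  obtain ⟨k1, k2, k3, k4, k5, k6, k7, k8, k9, k10, k11, k12, k13, k14⟩ := kap_val
  have h0 : (138000 : ℝ) ≤ (k : ℝ) := by exact_mod_cast hk1
  have h1 : (k : ℝ) ≤ 145717 := by
    have : k ≤ 145717 := by omega
    exact_mod_cast this
  refine (numB_cell (hS.rowC2 k (by omega) (by omega)) (E := 11) (c := 2) (m := 1) (a := 0) (b := 3) (s := 371.4) (t := 19.2) hk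
    (by omega) (by omega) (by norm_num) h0 h1 (by rw [k12]; omega) (by norm_num)
    (by rw [k2]; norm_num) (by norm_num)
    (Or.inr (by rw [k1]; omega)) (by norm_num) (by norm_num)
    (Or.inl rfl) (by rw [k3]; norm_num) (by norm_num) (by norm_num)
    (by norm_num) (by norm_num)).trans ?_
  rw [k2, k1]
  norm_num [Finset.sum_Ico_eq_sum_range, Finset.sum_range_succ, kap_zero, k1, k2, k3, k4, k9, k10, k11, k12]

theorem numB_7 {a b X Y : ℝ} {G : Multiset (ℝ × ℝ)} (hS : Start a b X Y G) {e k : ℕ}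
    (hk : 12 * kap e ≤ k) (hk1 : 145718 ≤ k) (hk2 : k < 149916) :
    XX k G + UU G e k + 0.0098 ≤ 0.85 := by
  obtain ⟨k1, k2, k3, k4, k5, k6, k7, k8, k9, k10, k11, k12, k13, k14⟩ := kap_val
  have h0 : (145718 : ℝ) ≤ (k : ℝ) := by exact_mod_cast hk1
  have h1 : (k : ℝ) ≤ 149915 := by
    have : k ≤ 149915 := by omega
    exact_mod_cast this
  refine (numB_cell (hS.rowC2 k (by omega) (by omega)) (E := 11) (c := 3) (m := 1) (a := 1) (b := 3) (s := 381.7) (t := 19.5) hk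
    (by omega) (by omega) (by norm_num) h0 h1 (by rw [k12]; omega) (by norm_num)
    (by rw [k3]; norm_num) (by norm_num)
    (Or.inr (by rw [k1]; omega)) (by norm_num) (by norm_num)
    (Or.inr (by rw [k1]; norm_num)) (by rw [k3]; norm_num) (by norm_num) (by norm_num)
    (by norm_num) (by norm_num)).trans ?_
  rw [k3, k1]
  norm_num [Finset.sum_Ico_eq_sum_range, Finset.sum_range_succ, kap_zero, k1, k2, k3, k4, k9, k10, k11, k12]

theorem numB_8 {a b X Y : ℝ} {G : Multiset (ℝ × ℝ)} (hS : Start a b X Y G) {e k : ℕ}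
    (hk : 12 * kap e ≤ k) (hk1 : 149916 ≤ k) (hk2 : k < 160000) :
    XX k G + UU G e k + 0.0098 ≤ 0.85 := by
  obtain ⟨k1, k2, k3, k4, k5, k6, k7, k8, k9, k10, k11, k12, k13, k14⟩ := kap_val
  have h0 : (149916 : ℝ) ≤ (k : ℝ) := by exact_mod_cast hk1
  have h1 : (k : ℝ) ≤ 159999 := by
    have : k ≤ 159999 := by omega
    exact_mod_cast this
  refine (numB_cell (hS.rowC2 k (by omega) (by omega)) (E := 12) (c := 3) (m := 1) (a := 1) (b := 4) (s := 387.1) (t := 19.6) hk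
    (by omega) (by omega) (by norm_num) h0 h1 (by rw [k13]; omega) (by norm_num)
    (by rw [k3]; norm_num) (by norm_num)
    (Or.inr (by rw [k1]; omega)) (by norm_num) (by norm_num)
    (Or.inr (by rw [k1]; norm_num)) (by rw [k4]; norm_num) (by norm_num) (by norm_num)
    (by norm_num) (by norm_num)).trans ?_
  rw [k3, k1]
  norm_num [Finset.sum_Ico_eq_sum_range, Finset.sum_range_succ, kap_zero, k1, k2, k3, k4, k9, k10, k11, k12]

theorem numB_9 {a b X Y : ℝ} {G : Multiset (ℝ × ℝ)} (hS : Start a b X Y G) {e k : ℕ}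
    (hk : 12 * kap e ≤ k) (hk1 : 160000 ≤ k) (hk2 : k < 180000) :
    XX k G + UU G e k + 0.0098 ≤ 0.85 := by
  obtain ⟨k1, k2, k3, k4, k5, k6, k7, k8, k9, k10, k11, k12, k13, k14⟩ := kap_val
  have h0 : (160000 : ℝ) ≤ (k : ℝ) := by exact_mod_cast hk1
  have h1 : (k : ℝ) ≤ 179999 := by
    have : k ≤ 179999 := by omega
    exact_mod_cast this
  refine (numB_cell (hS.rowD k (by omega) (by omega)) (E := 12) (c := 3) (m := 1) (a := 1) (b := 4) (s := 400) (t := 20) hk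
    (by omega) (by omega) (by norm_num) h0 h1 (by rw [k13]; omega) (by norm_num)
    (by rw [k3]; norm_num) (by norm_num)
    (Or.inr (by rw [k1]; omega)) (by norm_num) (by norm_num)
    (Or.inr (by rw [k1]; norm_num)) (by rw [k4]; norm_num) (by norm_num) (by norm_num)
    (by norm_num) (by norm_num)).trans ?_
  rw [k3, k1]
  norm_num [Finset.sum_Ico_eq_sum_range, Finset.sum_range_succ, kap_zero, k1, k2, k3, k4, k5, k9, k10, k11, k12, k13]

theorem numB_10 {a b X Y : ℝ} {G : Multiset (ℝ × ℝ)} (hS : Start a b X Y G) {e k : ℕ}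
    (hk : 12 * kap e ≤ k) (hk1 : 180000 ≤ k) (hk2 : k < 187392) :
    XX k G + UU G e k + 0.0098 ≤ 0.85 := by
  obtain ⟨k1, k2, k3, k4, k5, k6, k7, k8, k9, k10, k11, k12, k13, k14⟩ := kap_val
  have h0 : (180000 : ℝ) ≤ (k : ℝ) := by exact_mod_cast hk1
  have h1 : (k : ℝ) ≤ 187391 := by
    have : k ≤ 187391 := by omega
    exact_mod_cast this
  refine (numB_cell (hS.rowD k (by omega) (by omega)) (E := 12) (c := 3) (m := 2) (a := 1) (b := 4) (s := 424.2) (t := 20.5) hk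
    (by omega) (by omega) (by norm_num) h0 h1 (by rw [k13]; omega) (by norm_num)
    (by rw [k3]; norm_num) (by norm_num)
    (Or.inr (by rw [k2]; omega)) (by norm_num) (by norm_num)
    (Or.inr (by rw [k1]; norm_num)) (by rw [k4]; norm_num) (by norm_num) (by norm_num)
    (by norm_num) (by norm_num)).trans ?_
  rw [k3, k2]
  norm_num [Finset.sum_Ico_eq_sum_range, Finset.sum_range_succ, kap_zero, k1, k2, k3, k4, k5, k9, k10, k11, k12, k13]

theorem numB_11 {a b X Y : ℝ} {G : Multiset (ℝ × ℝ)} (hS : Start a b X Y G) {e k : ℕ}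
    (hk : 12 * kap e ≤ k) (hk1 : 187392 ≤ k) (hk2 : k < 200000) :
    XX k G + UU G e k + 0.0098 ≤ 0.85 := by
  obtain ⟨k1, k2, k3, k4, k5, k6, k7, k8, k9, k10, k11, k12, k13, k14⟩ := kap_val
  have h0 : (187392 : ℝ) ≤ (k : ℝ) := by exact_mod_cast hk1
  have h1 : (k : ℝ) ≤ 199999 := by
    have : k ≤ 199999 := by omega
    exact_mod_cast this
  refine (numB_cell (hS.rowD k (by omega) (by omega)) (E := 13) (c := 4) (m := 2) (a := 1) (b := 4) (s := 432.8) (t := 20.8) hk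
    (by omega) (by omega) (by norm_num) h0 h1 (by rw [k14]; omega) (by norm_num)
    (by rw [k4]; norm_num) (by norm_num)
    (Or.inr (by rw [k2]; omega)) (by norm_num) (by norm_num)
    (Or.inr (by rw [k1]; norm_num)) (by rw [k4]; norm_num) (by norm_num) (by norm_num)
    (by norm_num) (by norm_num)).trans ?_
  rw [k4, k2]
  norm_num [Finset.sum_Ico_eq_sum_range, Finset.sum_range_succ, kap_zero, k1, k2, k3, k4, k5, k9, k10, k11, k12, k13]

theorem numB_12 {a b X Y : ℝ} {G : Multiset (ℝ × ℝ)} (hS : Start a b X Y G) {e k : ℕ}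
    (hk : 12 * kap e ≤ k) (hk1 : 200000 ≤ k) (hk2 : k < 220000) :
    XX k G + UU G e k + 0.0098 ≤ 0.85 := by
  obtain ⟨k1, k2, k3, k4, k5, k6, k7, k8, k9, k10, k11, k12, k13, k14⟩ := kap_val
  have h0 : (200000 : ℝ) ≤ (k : ℝ) := by exact_mod_cast hk1
  have h1 : (k : ℝ) ≤ 219999 := by
    have : k ≤ 219999 := by omega
    exact_mod_cast this
  refine (numB_cell (hS.rowD k (by omega) (by omega)) (E := 13) (c := 4) (m := 2) (a := 2) (b := 5) (s := 447.2) (t := 21.1) hk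
    (by omega) (by omega) (by norm_num) h0 h1 (by rw [k14]; omega) (by norm_num)
    (by rw [k4]; norm_num) (by norm_num)
    (Or.inr (by rw [k2]; omega)) (by norm_num) (by norm_num)
    (Or.inr (by rw [k2]; norm_num)) (by rw [k5]; norm_num) (by norm_num) (by norm_num)
    (by norm_num) (by norm_num)).trans ?_
  rw [k4, k2]
  norm_num [Finset.sum_Ico_eq_sum_range, Finset.sum_range_succ, kap_zero, k1, k2, k3, k4, k5, k9, k10, k11, k12, k13]

/-- rows `160000 ≤ k < 220000` -/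
theorem num_D1 {a b X Y : ℝ} {G : Multiset (ℝ × ℝ)} (hS : Start a b X Y G) {e k : ℕ}
    (hk : 12 * kap e ≤ k) (hk1 : 160000 ≤ k) (hk2 : k < 220000) :
    XX k G + UU G e k + 0.0098 ≤ 0.85 := by
  by_cases h1 : k < 180000
  · exact numB_9 hS hk hk1 h1
  by_cases h2 : k < 187392
  · exact numB_10 hS hk (by omega) h2
  by_cases h3 : k < 200000
  · exact numB_11 hS hk (by omega) h3
  exact numB_12 hS hk (by omega) hk2

theorem num_B {a b X Y : ℝ} {G : Multiset (ℝ × ℝ)} (hS : Start a b X Y G) {e k : ℕ}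
    (hk : 12 * kap e ≤ k) (hk1 : 80000 ≤ k) (hk2 : k < 160000) :
    XX k G + UU G e k + 0.0098 ≤ lamR k := by
  have h0 : lamR k = 0.85 := by
    unfold lamR
    rw [if_neg (by omega), if_neg (by omega), if_pos (by omega)]
  rw [h0]
  by_cases h1 : k < 95952
  · exact numB_1 hS hk (by omega) h1
  by_cases h2 : k < 109314
  · exact numB_2 hS hk (by omega) h2
  by_cases h3 : k < 119940
  · exact numB_3 hS hk (by omega) h3
  by_cases h4 : k < 129000
  · exact numB_4 hS hk (by omega) h4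
  by_cases h5 : k < 138000
  · exact numB_5 hS hk (by omega) h5
  by_cases h6 : k < 145718
  · exact numB_6 hS hk (by omega) h6
  by_cases h7 : k < 149916
  · exact numB_7 hS hk (by omega) h7
  exact numB_8 hS hk (by omega) hk2

end Pool.Agent.Moser.Eng
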