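import Pool.Agent.Lib_MP_cc07e8_co.EngNumT

/-!
# MP_cc07e8_co, engine piece NUMB0: rows `61730 ≤ k < 80000`

`12 kap e ≤ k < 80000`, so `e ≤ 9` (`12 kap 9 = 76764`, `12 kap 10 = 95952`); use `UU_low` and `UU_mono` (first replace `e` by `8`
for `k < 76764` and by `9` for `k ≥ 76764`; the bound does not need `12 kap e ≤ k` otherwise). With `XX k G + YY k G ≤ 0.51` (`rowB`),
`rho_le`, `rhoB k ≤ rhoB 61730 ≤ 0.8695`: the total is at most `0.51 + 0.02052 + 0.0098 + 0.12 * 0.8695 + sum`. The sum over the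
epochs `d < 9`: no births (`10320 ^ 4 > 21.2 k ^ 3`), `u` part `≤ 905 (1 / 10319.5 - 1 / (12 kap e - 0.5))`: `0.0730` for `e = 8`, `0.0759` for
`e = 9`, `√` part `≤ 0.0085`, `Eerr` only for `d = 0` (`12900 ^ 4 > 48.2 k ^ 3`): `273600 k / 10320 ^ 3 ≤ 0.0200`, `2.15e6 e / k ^ 2`: `0.0046`
at `61730` (`e = 8`), `0.0033` at `76764` (`e = 9`). Totals `0.7415`, `0.7425` `≤ 0.76`.
-/

namespace Pool.Agent.Moser.Eng

theorem numB0_kap : kap 0 = 860 ∧ kap 1 = 1075 ∧ kap 8 = 5118 ∧ kap 9 = 6397 ∧ kap 10 = 7996 := by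
  refine ⟨rfl, rfl, rfl, rfl, rfl⟩

/-- the sum of the costs of the main rectangle -/
theorem numB0_shelf (e k : ℕ) :
    ∑ d ∈ Finset.range e, shelf (kap d) (kap (d + 1)) k ≤
      905 * (1 / 10319.5 - 1 / (12 * (kap e : ℝ) - 1 / 2)) + 0.0089 := by
  have h1 : ∑ d ∈ Finset.range e, shelf (kap d) (kap (d + 1)) k ≤
      ∑ d ∈ Finset.range e, (905 * ∑ i ∈ Finset.Ico (12 * kap d) (12 * kap (d + 1)),
        1 / (i : ℝ) ^ 2 + 16 / √((tau (12 * kap d) : ℝ) - 1)) := by
    refine Finset.sum_le_sum fun d _ => ?_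
    unfold shelf
    have h0 : 0 ≤ ∑ i ∈ Finset.Ico (12 * kap d) (12 * kap (d + 1)), 1 / (i : ℝ) ^ 2 :=
      Finset.sum_nonneg fun i _ => by positivity
    split_ifs
    · nlinarith
    · exact le_rfl
  refine h1.trans ?_
  rw [Finset.sum_add_distrib, ← Finset.mul_sum]
  have h2 := sum_u (Nat.zero_le e)
  rw [← Finset.range_eq_Ico, numB0_kap.1] at h2
  have h3 := sum_sqrt e
  have h4 : (12 * ((860 : ℕ) : ℝ) - 1 / 2) = 10319.5 := by norm_num
  rw [h4] at h2
  have h5 := mul_le_mul_of_nonneg_left h2 (by norm_num : (0 : ℝ) ≤ 905)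
  linarith

theorem numB0_rho {k : ℕ} (hk1 : 61730 ≤ k) : rhoB k ≤ 0.87 := by
  have hk : (61730 : ℝ) ≤ k := by exact_mod_cast hk1
  have hk0 : (0 : ℝ) < k := by linarith
  have hs : (248.4 : ℝ) ≤ √(k : ℝ) := by
    apply Real.le_sqrt_of_sq_le
    norm_num
    linarith
  have hs0 : 0 < √(k : ℝ) := by linarith
  have hss : (15.76 : ℝ) ≤ √√(k : ℝ) := by
    apply Real.le_sqrt_of_sq_le
    norm_num
    linarith
  unfold rhoB
  have h1 : 800 / (k : ℝ) ≤ 800 / 61730 :=
    div_le_div_of_nonneg_left (by norm_num) (by norm_num) hk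
  have h2 : 5.95 / √(k : ℝ) ≤ 5.95 / 248.4 :=
    div_le_div_of_nonneg_left (by norm_num) (by norm_num) hs
  have h3 : 60 / (√(k : ℝ) * √√(k : ℝ)) ≤ 60 / (248.4 * 15.76) := by
    apply div_le_div_of_nonneg_left (by norm_num) (by norm_num)
    exact mul_le_mul hs hss (by norm_num) hs0.le
  have h4 : (1.0015 + 800 / (k : ℝ)) * (0.8178 + 5.95 / √(k : ℝ) + 60 / (√(k : ℝ) * √√(k : ℝ))) ≤
      (1.0015 + 800 / 61730) * (0.8178 + 5.95 / 248.4 + 60 / (248.4 * 15.76)) := by
    apply mul_le_mul (by linarith) (by linarith) (by positivity) (by norm_num)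
  refine h4.trans (by norm_num)

theorem num_B0 {a b X Y : ℝ} {G : Multiset (ℝ × ℝ)} (hS : Start a b X Y G) {e k : ℕ}
    (hk : 12 * kap e ≤ k) (hk1 : 61730 ≤ k) (hk2 : k < 80000) :
    XX k G + UU G e k + 0.0098 ≤ lamR k := by
  obtain ⟨c0, c1, c8, c9, c10⟩ := numB0_kap
  have hlam : lamR k = 0.76 := by
    unfold lamR
    rw [if_neg (by omega), if_pos hk2]
  have hrow := hS.rowB k hk1 hk2
  have hkr : (k : ℝ) ≤ 79999 := by
    have : k ≤ 79999 := by omega
    exact_mod_cast this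
  have hkr0 : (61730 : ℝ) ≤ k := by exact_mod_cast hk1
  have hk3 : (k : ℝ) ^ 3 ≤ 79999 ^ 3 := pow_le_pow_left₀ (by linarith) hkr 3
  -- the error of the first epoch
  have hE0 : ∀ e' : ℕ, 1 ≤ e' → ∑ d ∈ Finset.range e', Eerr (12 * kap d) (12 * kap (d + 1)) k ≤
      0.02 := by
    intro e' he'
    have h1 : ∀ d ∈ Finset.range e', d ≠ 0 → Eerr (12 * kap d) (12 * kap (d + 1)) k = 0 := by
      intro d _ hd
      have hd1 : kap 1 ≤ kap d := kap_mono (by omega)
      rw [c1] at hd1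
      have hdr : (12900 : ℝ) ≤ ((12 * kap d : ℕ) : ℝ) := by
        have : 12900 ≤ 12 * kap d := by omega
        exact_mod_cast this
      have hd4 : (12900 : ℝ) ^ 4 ≤ ((12 * kap d : ℕ) : ℝ) ^ 4 :=
        pow_le_pow_left₀ (by norm_num) hdr 4
      unfold Eerr
      rw [if_neg]
      rintro ⟨h, _⟩
      norm_num at hd4 hk3 h
      linarith
    rw [Finset.sum_eq_single_of_mem 0 (Finset.mem_range.2 (by omega)) h1]
    unfold Eerr
    split_ifs
    · rw [c0]
      rw [div_le_iff₀ (by norm_num)]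
      norm_num
      linarith
    · norm_num
  have hmain : ∀ e' : ℕ, 1 ≤ e' → XX k G + UU G e' k + 0.0098 ≤
      0.51 + 0.02052 + 0.0098 + 0.12 * 0.87 +
        (905 * (1 / 10319.5 - 1 / (12 * (kap e' : ℝ) - 1 / 2)) + 0.0089) + 0.02 +
        e' * (2.15e6 / (k : ℝ) ^ 2) := by
    intro e' he'
    have hlow := UU_low (G := G) (e := e') (by omega : 10320 ≤ k) (by omega : k < 670000)
    have hsum : ∑ d ∈ Finset.range e', (bet (12 * kap d) k * births (kap d) (kap (d + 1)) +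
          shelf (kap d) (kap (d + 1)) k + Eerr (12 * kap d) (12 * kap (d + 1)) k +
          2.15e6 / (k : ℝ) ^ 2) =
        ∑ d ∈ Finset.range e', shelf (kap d) (kap (d + 1)) k +
          ∑ d ∈ Finset.range e', Eerr (12 * kap d) (12 * kap (d + 1)) k +
          e' * (2.15e6 / (k : ℝ) ^ 2) := by
      rw [← nsmul_eq_mul, ← Finset.card_range e', ← Finset.sum_const, Finset.card_range,
        ← Finset.sum_add_distrib, ← Finset.sum_add_distrib]
      refine Finset.sum_congr rfl fun d _ => ?_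
      have hd := kap_ge d
      have hdr : (10320 : ℝ) ≤ ((12 * kap d : ℕ) : ℝ) := by
        have : 10320 ≤ 12 * kap d := by omega
        exact_mod_cast this
      have hd4 : (10320 : ℝ) ^ 4 ≤ ((12 * kap d : ℕ) : ℝ) ^ 4 :=
        pow_le_pow_left₀ (by norm_num) hdr 4
      have h1 : bet (12 * kap d) k = 0 := by
        unfold bet
        rw [if_neg]
        intro h
        norm_num at hd4 hk3 h
        linarith
      rw [h1]
      ring
    rw [hsum] at hlow
    have hsh := numB0_shelf e' k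
    have hE := hE0 e' he'
    have hρ := (rho_le (by omega : 10320 ≤ k) (kap e')).trans (numB0_rho hk1)
    linarith
  rw [hlam]
  rcases Nat.lt_or_ge k 76764 with h7 | h7
  · have he : e ≤ 8 := by
      by_contra hc
      have h1 : kap 9 ≤ kap e := kap_mono (by omega)
      rw [c9] at h1
      omega
    have hU := UU_mono G he k
    have hm := hmain 8 (by norm_num)
    have h1 : 2.15e6 / (k : ℝ) ^ 2 ≤ 2.15e6 / 61730 ^ 2 :=
      div_le_div_of_nonneg_left (by norm_num) (by norm_num)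
        (pow_le_pow_left₀ (by norm_num) hkr0 2)
    rw [c8] at hm
    norm_num at hm h1 ⊢
    linarith
  · have he : e ≤ 9 := by
      by_contra hc
      have h1 : kap 10 ≤ kap e := kap_mono (by omega)
      rw [c10] at h1
      omega
    have hU := UU_mono G he k
    have hm := hmain 9 (by norm_num)
    have h7' : (76764 : ℝ) ≤ k := by exact_mod_cast h7
    have h1 : 2.15e6 / (k : ℝ) ^ 2 ≤ 2.15e6 / 76764 ^ 2 :=
      div_le_div_of_nonneg_left (by norm_num) (by norm_num)
        (pow_le_pow_left₀ (by norm_num) h7' 2)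
    rw [c9] at hm
    norm_num at hm h1 ⊢
    linarith

end Pool.Agent.Moser.Eng
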