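import Pool.Agent.Lib_MP_cc07e8_co.EngNumS

/-!
# MP_cc07e8_co, engine piece NUME: the sum of the rounding errors

An epoch `c` with `Eerr ≠ 0` has `K_(c + 1) ^ 4 ≥ 8.95 k ^ 3`, so `K_c ≥ 4 / 5 K_(c + 1) ≥ 0.8 lo`, `lo = √√(8.95 k ^ 3)` (`lo ^ 4 = 8.95 k ^ 3`).
Let `c0` be the first such epoch; all others are `c0 + d` with `K ≥ 1.249 ^ d * 0.8 lo` (`kap_grow`). So
`∑ 273600 k / K_c ^ 3 ≤ 273600 k (1.25 / lo) ^ 3 ∑ d, 1.249 ^ (-3 d) ≤ 273600 * 1.953125 / (1 - 1.249 ^ (-3)) k / lo ^ 3 ≤ 1.1e6 k / lo ^ 3`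
(`1.249 ^ 3 = 1.94845`, `1 - 1 / 1.94845 = 0.48677`, `534375 / 0.48677 = 1.0978e6`).
-/

namespace Pool.Agent.Moser.Eng

/-- a bound for a geometric sum -/
theorem numE_geom {r : ℝ} (h0 : 0 ≤ r) (h1 : r < 1) (n : ℕ) :
    ∑ i ∈ Finset.range n, r ^ i ≤ 1 / (1 - r) := by
  rw [one_div, ← tsum_geometric_of_lt_one h0 h1]
  exact (summable_geometric_of_lt_one h0 h1).sum_le_tsum _ (fun i _ => pow_nonneg h0 i)

theorem sum_Eerr {e k : ℕ} (hk : 160000 ≤ k) :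
    ∑ c ∈ Finset.range e, Eerr (12 * kap c) (12 * kap (c + 1)) k ≤
      1.1e6 * (k : ℝ) / √√(8.95 * (k : ℝ) ^ 3) ^ 3 := by
  have hk0 : (160000 : ℝ) ≤ k := by exact_mod_cast hk
  have hkp : (0 : ℝ) < k := by linarith
  set lo : ℝ := √√(8.95 * (k : ℝ) ^ 3) with hlo
  have hlo0 : 0 < lo := Real.sqrt_pos.2 (Real.sqrt_pos.2 (by positivity))
  have hlo4 : lo ^ 4 = 8.95 * (k : ℝ) ^ 3 := by
    have h1 : lo ^ 2 = √(8.95 * (k : ℝ) ^ 3) := Real.sq_sqrt (Real.sqrt_nonneg _)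
    have h2 : √(8.95 * (k : ℝ) ^ 3) ^ 2 = 8.95 * (k : ℝ) ^ 3 := Real.sq_sqrt (by positivity)
    calc lo ^ 4 = (lo ^ 2) ^ 2 := by ring
      _ = _ := by rw [h1, h2]
  have hR : 0 ≤ 1.1e6 * (k : ℝ) / lo ^ 3 := by positivity
  by_cases hall : ∀ c ∈ Finset.range e, Eerr (12 * kap c) (12 * kap (c + 1)) k = 0
  · rw [Finset.sum_eq_zero hall]
    exact hR
  · push Not at hall
    classical
    have hex : ∃ c, c < e ∧ Eerr (12 * kap c) (12 * kap (c + 1)) k ≠ 0 := by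
      obtain ⟨c, hc, h⟩ := hall
      exact ⟨c, Finset.mem_range.1 hc, h⟩
    set c0 := Nat.find hex with hc0
    obtain ⟨hc0e, hne⟩ := Nat.find_spec hex
    rw [← hc0] at hc0e hne
    have hmin : ∀ c < c0, Eerr (12 * kap c) (12 * kap (c + 1)) k = 0 := by
      intro c hc
      by_contra h
      exact Nat.find_min hex hc ⟨by omega, h⟩
    -- the first epoch
    have hcond : 8.95 * (k : ℝ) ^ 3 ≤ ((12 * kap (c0 + 1) : ℕ) : ℝ) ^ 4 := by
      unfold Eerr at hne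
      split_ifs at hne with h
      · exact h.2
      · exact absurd rfl hne
    have h1 : lo ≤ ((12 * kap (c0 + 1) : ℕ) : ℝ) := by
      rw [← hlo4] at hcond
      exact le_of_pow_le_pow_left₀ (by norm_num) (by positivity) hcond
    have h2 : (4 : ℝ) * kap (c0 + 1) ≤ 5 * kap c0 := by exact_mod_cast kap_le c0
    have h3 : 0.8 * lo ≤ 12 * (kap c0 : ℝ) := by
      push_cast at h1
      linarith
    -- all epochs
    have hterm : ∀ d : ℕ, Eerr (12 * kap (c0 + d)) (12 * kap (c0 + d + 1)) k ≤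
        273600 * (k : ℝ) / (0.8 * lo) ^ 3 * (1 / 1.249 ^ 3) ^ d := by
      intro d
      have hd : (1.249 : ℝ) ^ d * (kap c0 : ℝ) ≤ (kap (c0 + d) : ℝ) := kap_grow c0 d
      have hK : (1.249 : ℝ) ^ d * (0.8 * lo) ≤ 12 * (kap (c0 + d) : ℝ) := by
        have h4 : (1.249 : ℝ) ^ d * (0.8 * lo) ≤ (1.249 : ℝ) ^ d * (12 * (kap c0 : ℝ)) :=
          mul_le_mul_of_nonneg_left h3 (by positivity)
        nlinarith
      have hpos : 0 < (1.249 : ℝ) ^ d * (0.8 * lo) := by positivity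
      have hle : 273600 * (k : ℝ) / ((12 * kap (c0 + d) : ℕ) : ℝ) ^ 3 ≤
          273600 * (k : ℝ) / ((1.249 : ℝ) ^ d * (0.8 * lo)) ^ 3 := by
        apply div_le_div_of_nonneg_left (by positivity) (by positivity)
        apply pow_le_pow_left₀ hpos.le
        push_cast
        exact hK
      have heq : 273600 * (k : ℝ) / ((1.249 : ℝ) ^ d * (0.8 * lo)) ^ 3 =
          273600 * (k : ℝ) / (0.8 * lo) ^ 3 * (1 / 1.249 ^ 3) ^ d := by
        rw [mul_pow, div_pow, one_pow, ← pow_mul, ← pow_mul, mul_comm d 3]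
        field_simp
      rw [← heq]
      refine le_trans ?_ hle
      unfold Eerr
      split_ifs
      · exact le_rfl
      · positivity
    have hsum : ∑ c ∈ Finset.range e, Eerr (12 * kap c) (12 * kap (c + 1)) k =
        ∑ d ∈ Finset.range (e - c0), Eerr (12 * kap (c0 + d)) (12 * kap (c0 + d + 1)) k := by
      rw [Finset.range_eq_Ico, ← Finset.sum_Ico_consecutive _ (Nat.zero_le c0) hc0e.le,
        Finset.sum_eq_zero (s := Finset.Ico 0 c0)
          (fun c hc => hmin c (Finset.mem_Ico.1 hc).2), zero_add,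
        Finset.sum_Ico_eq_sum_range]
    rw [hsum]
    refine (Finset.sum_le_sum fun d _ => hterm d).trans ?_
    rw [← Finset.mul_sum]
    have hg := numE_geom (r := 1 / 1.249 ^ 3) (by norm_num) (by norm_num) (e - c0)
    have hc : (1 : ℝ) / (1 - 1 / 1.249 ^ 3) ≤ 2.0544 := by norm_num
    have h5 : 273600 * (k : ℝ) / (0.8 * lo) ^ 3 = 534375 * ((k : ℝ) / lo ^ 3) := by
      field_simp
      norm_num
    rw [h5]
    have h6 : 0 ≤ (k : ℝ) / lo ^ 3 := by positivity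
    have h7 : 534375 * ((k : ℝ) / lo ^ 3) * ∑ i ∈ Finset.range (e - c0), (1 / 1.249 ^ 3 : ℝ) ^ i ≤
        534375 * ((k : ℝ) / lo ^ 3) * 2.0544 :=
      mul_le_mul_of_nonneg_left (hg.trans hc) (by positivity)
    refine h7.trans ?_
    have h8 : 1.1e6 * (k : ℝ) / lo ^ 3 = 1.1e6 * ((k : ℝ) / lo ^ 3) := by ring
    rw [h8]
    nlinarith

end Pool.Agent.Moser.Eng
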