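import Pool.Agent.Lib_MP_cc07e8_co.EngNumT
import Pool.Agent.Lib_MP_cc07e8_co.EngNumE
import Pool.Agent.Lib_MP_cc07e8_co.EngNumB

/-!
# MP_cc07e8_co, engine piece NUMC: rows `160000 ≤ k`

General bounds for the sums over `c < e` (all `e` with `12 kap e ≤ k`):
(a) `sum_Eerr` (file `EngNumE`): `≤ 1.1e6 k / lo ^ 3`, `lo = √√(8.95 k ^ 3)`, i.e. `212600 / k ^ (5 / 4)`: `0.0665` at `160000`, `0.0447` at
    `220000`, `0.0111` at `670000`, `0.0073` at `946000`, `0.0038` at `1.6e6`, `0.0003` at `1.6e7`.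
(b) births: only epochs with `K_c ^ 4 ≤ 21.2 k ^ 3`; `5.4 * 6.66 = 35.964`: `≤ 35.964 (1 / 859.5 - 1 / (kap c2 - 0.5))`, `c2` = first
    epoch which does not count, `kap c2 ≤ 1.25 * √√(21.2 k ^ 3) / 12`: `≤ 0.0261` for `k < 220000`, `≤ 0.0351` for
    `k < 670000`; always `≤ 0.0419`.
(c) `u`: `905 = 625 + 280`, the 280 only for epochs with `10 K_(c + 1) > k`, so `K_c > k / 12.5`:
    `≤ 625 (1 / 10319.5 - 1 / (K_e - 0.5)) + 280 (12.51 / k - 1 / (K_e - 0.5)) ≤ 0.06057 + 2598 / k` (`K_e ≤ k`; if no epoch has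
    `10 K_(c + 1) > k` it is `≤ 0.06057`): `0.0769` at `160000`, `0.0724` at `220000`, `0.0645` at `670000`.
(d) `√`: `0.0089`; (e) `2.15e6 e / k ^ 2`: `e ≤ 13` for `k < 220000`, `e ≤ k / 2569` in general.
(f) drift: `k < 670000`: `YY` (with `XX + YY ≤ 0.5538`) `+ 0.12 rhoB k`; `k ≥ 670000`: `∑ lamR (12 j + 15) Ph j k` where
    `Ph j k ≠ 0` implies `(12 j) ^ 4 ≤ 48.2 k ^ 3`: for `k < 946000` `12 j ≤ 79925`, so `lamR ≤ 0.76`; for `k < 1.6e7` `12 j ≤ 666580`,
    `lamR ≤ 0.85`; always `lamR ≤ 0.88`. `rhoB`: 0.8457 at 160000, 0.8407 at 220000, 0.8299 at 670000, 0.8279 at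
    946000, 0.8255 at 1.6e6, 0.8208 at 1.6e7 (decreasing).
-/

namespace Pool.Agent.Moser.Eng

/-! ### births -/

theorem numC_births_nonneg (κ κ' : ℕ) : 0 ≤ births κ κ' := by
  unfold births
  positivity

theorem numC_bet_cases (e k : ℕ) : ∃ c2 ≤ e, (c2 = 0 ∨ ∃ c1, c2 = c1 + 1 ∧
      ((12 * kap c1 : ℕ) : ℝ) ^ 4 ≤ 21.2 * (k : ℝ) ^ 3) ∧
    ∑ c ∈ Finset.range e, bet (12 * kap c) k * births (kap c) (kap (c + 1)) ≤
      5.4 * ∑ c ∈ Finset.Ico 0 c2, births (kap c) (kap (c + 1)) := by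
  induction e with
  | zero => exact ⟨0, le_rfl, Or.inl rfl, by simp⟩
  | succ e ih =>
    obtain ⟨c2, hc2, hc, hs⟩ := ih
    by_cases hb : ((12 * kap e : ℕ) : ℝ) ^ 4 ≤ 21.2 * (k : ℝ) ^ 3
    · refine ⟨e + 1, le_rfl, Or.inr ⟨e, rfl, hb⟩, ?_⟩
      rw [Finset.mul_sum, ← Finset.range_eq_Ico]
      refine Finset.sum_le_sum fun c _ => ?_
      refine mul_le_mul_of_nonneg_right ?_ (numC_births_nonneg _ _)
      unfold bet
      split_ifs <;> norm_num
    · refine ⟨c2, hc2.trans (Nat.le_succ e), hc, ?_⟩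
      rw [Finset.sum_range_succ]
      have h0 : bet (12 * kap e) k = 0 := by
        unfold bet
        rw [if_neg hb]
      rw [h0, zero_mul, add_zero]
      exact hs

theorem numC_births_all (e k : ℕ) :
    ∑ c ∈ Finset.range e, bet (12 * kap c) k * births (kap c) (kap (c + 1)) ≤ 0.04186 := by
  obtain ⟨c2, -, -, hs⟩ := numC_bet_cases e k
  have h1 := sum_births (Nat.zero_le c2)
  have h2 : (860 : ℝ) ≤ kap c2 := by exact_mod_cast kap_ge c2
  have h3 : (0 : ℝ) ≤ 1 / ((kap c2 : ℝ) - 1 / 2) := by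
    apply div_nonneg zero_le_one
    linarith
  have h4 : ((kap 0 : ℕ) : ℝ) = 860 := by simp [kap]
  rw [h4] at h1
  have h6 : (860 : ℝ) - 1 / 2 = 859.5 := by norm_num
  rw [h6] at h1
  have h5 : ∑ c ∈ Finset.Ico 0 c2, births (kap c) (kap (c + 1)) ≤ 6.66 * (1 / 859.5) + 1e-6 := by
    have h7 : 6.66 * (1 / 859.5 - 1 / ((kap c2 : ℝ) - 1 / 2)) ≤ 6.66 * (1 / 859.5) :=
      mul_le_mul_of_nonneg_left (by linarith) (by norm_num)
    linarith
  calc _ ≤ 5.4 * ∑ c ∈ Finset.Ico 0 c2, births (kap c) (kap (c + 1)) := hs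
    _ ≤ 5.4 * (6.66 * (1 / 859.5) + 1e-6) := mul_le_mul_of_nonneg_left h5 (by norm_num)
    _ ≤ 0.04186 := by norm_num

theorem numC_births_range {e k : ℕ} {M : ℝ} (hM : 8256 ≤ M)
    (hk : 21.2 * (k : ℝ) ^ 3 ≤ M ^ 4) :
    ∑ c ∈ Finset.range e, bet (12 * kap c) k * births (kap c) (kap (c + 1)) ≤
      5.4 * (6.66 * (1 / 859.5 - 1 / (5 / 48 * M - 1 / 2)) + 1e-6) := by
  obtain ⟨c2, -, hc, hs⟩ := numC_bet_cases e k
  have h1 := sum_births (Nat.zero_le c2)
  have h4 : ((kap 0 : ℕ) : ℝ) = 860 := by simp [kap]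
  rw [h4] at h1
  have hM1 : 859.5 ≤ 5 / 48 * M - 1 / 2 := by norm_num; linarith
  rcases hc with rfl | ⟨c1, rfl, hc1⟩
  · rw [Finset.Ico_self, Finset.sum_empty, mul_zero] at hs
    refine hs.trans ?_
    have h5 : 1 / (5 / 48 * M - 1 / 2) ≤ 1 / 859.5 := one_div_le_one_div_of_le (by norm_num) hM1
    have h6 : 0 ≤ 1 / 859.5 - 1 / (5 / 48 * M - 1 / 2) := by linarith
    positivity
  · have h5 : ((12 * kap c1 : ℕ) : ℝ) ≤ M := by
      have h6 : ((12 * kap c1 : ℕ) : ℝ) ^ 4 ≤ M ^ 4 := hc1.trans hk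
      exact le_of_pow_le_pow_left₀ (by norm_num) (by linarith) h6
    have h6 : (4 : ℝ) * kap (c1 + 1) ≤ 5 * kap c1 := by exact_mod_cast kap_le c1
    have h7 : (860 : ℝ) ≤ kap (c1 + 1) := by exact_mod_cast kap_ge (c1 + 1)
    push_cast at h5
    have h8 : (kap (c1 + 1) : ℝ) - 1 / 2 ≤ 5 / 48 * M - 1 / 2 := by linarith
    have h9 : 1 / (5 / 48 * M - 1 / 2) ≤ 1 / ((kap (c1 + 1) : ℝ) - 1 / 2) :=
      one_div_le_one_div_of_le (by linarith) h8
    refine hs.trans ?_
    have h10 : (860 : ℝ) - 1 / 2 = 859.5 := by norm_num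
    rw [h10] at h1
    have h11 : ∑ c ∈ Finset.Ico 0 (c1 + 1), births (kap c) (kap (c + 1)) ≤
        6.66 * (1 / 859.5 - 1 / (5 / 48 * M - 1 / 2)) + 1e-6 := by
      refine h1.trans ?_
      have : 6.66 * (1 / 859.5 - 1 / ((kap (c1 + 1) : ℝ) - 1 / 2)) ≤
          6.66 * (1 / 859.5 - 1 / (5 / 48 * M - 1 / 2)) :=
        mul_le_mul_of_nonneg_left (by linarith) (by norm_num)
      linarith
    exact mul_le_mul_of_nonneg_left h11 (by norm_num)

/-! ### the main rectangle -/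

/-- `u` of an epoch -/
noncomputable def numC_u (c : ℕ) : ℝ :=
  ∑ i ∈ Finset.Ico (12 * kap c) (12 * kap (c + 1)), 1 / (i : ℝ) ^ 2

theorem numC_u_nonneg (c : ℕ) : 0 ≤ numC_u c := by
  unfold numC_u
  positivity

theorem numC_shelf {e k : ℕ} (hk : 12 * kap e ≤ k) (hk1 : 160000 ≤ k) :
    ∑ c ∈ Finset.range e, shelf (kap c) (kap (c + 1)) k ≤ 0.060566 + 2598 / (k : ℝ) + 0.0089 := by
  classical
  have hk1' : (160000 : ℝ) ≤ k := by exact_mod_cast hk1
  have hex : ∃ c, c = e ∨ k < 120 * kap (c + 1) := ⟨e, Or.inl rfl⟩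
  obtain ⟨d0, hd0, hd1⟩ : ∃ d0, (d0 = e ∨ k < 120 * kap (d0 + 1)) ∧
      ∀ c < d0, ¬ (c = e ∨ k < 120 * kap (c + 1)) :=
    ⟨Nat.find hex, Nat.find_spec hex, fun c hc => Nat.find_min hex hc⟩
  have hde : d0 ≤ e := by
    by_contra hcon
    push Not at hcon
    exact hd1 e hcon (Or.inl rfl)
  have hsplit : ∑ c ∈ Finset.range e, shelf (kap c) (kap (c + 1)) k ≤
      625 * ∑ c ∈ Finset.Ico 0 e, numC_u c + 280 * ∑ c ∈ Finset.Ico d0 e, numC_u c +
        ∑ c ∈ Finset.range e, 16 / √((tau (12 * kap c) : ℝ) - 1) := by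
    have h1 : ∑ c ∈ Finset.range e, shelf (kap c) (kap (c + 1)) k ≤
        ∑ c ∈ Finset.range e, ((625 + if d0 ≤ c then (280 : ℝ) else 0) * numC_u c +
          16 / √((tau (12 * kap c) : ℝ) - 1)) := by
      refine Finset.sum_le_sum fun c hc => ?_
      unfold shelf
      change (if 1000 * tau (12 * kap (c + 1)) ≤ tau k then (625 : ℝ) else 905) * numC_u c + _ ≤ _
      refine add_le_add ?_ le_rfl
      refine mul_le_mul_of_nonneg_right ?_ (numC_u_nonneg c)
      by_cases hdc : d0 ≤ c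
      · rw [if_pos hdc]
        split_ifs <;> norm_num
      · rw [if_neg hdc]
        push Not at hdc
        have h2 := hd1 c hdc
        push Not at h2
        rw [if_pos (tau_ten (by omega))]
        norm_num
    refine h1.trans ?_
    rw [Finset.sum_add_distrib]
    refine add_le_add ?_ le_rfl
    have h3 : ∑ c ∈ Finset.range e, (625 + if d0 ≤ c then (280 : ℝ) else 0) * numC_u c =
        625 * ∑ c ∈ Finset.range e, numC_u c +
          ∑ c ∈ Finset.range e, if d0 ≤ c then 280 * numC_u c else 0 := by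
      rw [Finset.mul_sum, ← Finset.sum_add_distrib]
      refine Finset.sum_congr rfl fun c _ => ?_
      split_ifs <;> ring
    rw [h3, ← Finset.sum_filter, Finset.mul_sum (s := Finset.Ico d0 e), ← Finset.range_eq_Ico]
    refine add_le_add le_rfl (le_of_eq ?_)
    refine Finset.sum_congr ?_ fun _ _ => rfl
    ext c
    simp only [Finset.mem_filter, Finset.mem_range, Finset.mem_Ico]
    tauto
  have hs := sum_sqrt e
  have hu0 := sum_u (Nat.zero_le e)
  have hud := sum_u hde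
  have h4 : ((kap 0 : ℕ) : ℝ) = 860 := by simp [kap]
  rw [h4] at hu0
  change ∑ c ∈ Finset.Ico 0 e, numC_u c ≤ _ at hu0
  change ∑ c ∈ Finset.Ico d0 e, numC_u c ≤ _ at hud
  have hke : (12 : ℝ) * kap e ≤ k := by exact_mod_cast hk
  have hke0 : (860 : ℝ) ≤ kap e := by exact_mod_cast kap_ge e
  have h5 : 1 / (k : ℝ) ≤ 1 / (12 * (kap e : ℝ) - 1 / 2) :=
    one_div_le_one_div_of_le (by linarith) (by linarith)
  have hkpos : (0 : ℝ) < 1 / (k : ℝ) := by positivity
  have h6 : (1 : ℝ) / (12 * 860 - 1 / 2) ≤ 96904 / 1000000000 := by norm_num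
  have h7 : (2598 : ℝ) / k = 2598 * (1 / (k : ℝ)) := by ring
  have h14 : ∑ c ∈ Finset.Ico 0 e, numC_u c ≤ 96904 / 1000000000 - 1 / (k : ℝ) := by linarith
  have hn1 : (0.060566 : ℝ) = 60566 / 1000000 := by norm_num
  have hn2 : (0.0089 : ℝ) = 89 / 10000 := by norm_num
  rw [hn2] at hs
  rw [h7, hn1, hn2]
  rcases hd0 with hd0 | hd0
  · subst hd0
    rw [Finset.Ico_self, Finset.sum_empty, mul_zero, add_zero] at hsplit
    linarith
  · have h8 : (k : ℝ) < 120 * kap (d0 + 1) := by exact_mod_cast hd0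
    have h9 : (4 : ℝ) * kap (d0 + 1) ≤ 5 * kap d0 := by exact_mod_cast kap_le d0
    have h10 : 0.08 * (k : ℝ) - 1 / 2 ≤ 12 * (kap d0 : ℝ) - 1 / 2 := by norm_num; linarith
    have h11 : 1 / (12 * (kap d0 : ℝ) - 1 / 2) ≤ 1 / (0.08 * (k : ℝ) - 1 / 2) :=
      one_div_le_one_div_of_le (by norm_num; linarith) h10
    have h12 : 1 / (0.08 * (k : ℝ) - 1 / 2) ≤ 1251 / 100 * (1 / (k : ℝ)) := by
      rw [mul_one_div, div_le_div_iff₀ (by norm_num; linarith) (by linarith)]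
      norm_num
      linarith
    have h13 : 1 / (12 * (kap d0 : ℝ) - 1 / 2) ≤ 1251 / 100 * (1 / (k : ℝ)) := h11.trans h12
    have h15 : ∑ c ∈ Finset.Ico d0 e, numC_u c ≤ 1251 / 100 * (1 / (k : ℝ)) - 1 / (k : ℝ) := by
      linarith
    linarith

/-! ### errors -/

theorem numC_err {k : ℕ} {k1 c : ℝ} (hk1 : 0 < k1) (hk : k1 ≤ (k : ℝ)) (hc : 0 < c)
    (h : 1 ≤ c ^ 4 * (8.95 ^ 3 * k1 ^ 5)) :
    (k : ℝ) / √√(8.95 * (k : ℝ) ^ 3) ^ 3 ≤ c := by
  have hk0 : (0 : ℝ) < k := hk1.trans_le hk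
  have h8 : (0 : ℝ) < 8.95 * (k : ℝ) ^ 3 := by positivity
  set lo := √√(8.95 * (k : ℝ) ^ 3) with hlo
  have hlo0 : 0 < lo := Real.sqrt_pos.2 (Real.sqrt_pos.2 h8)
  have hlo4 : lo ^ 4 = 8.95 * (k : ℝ) ^ 3 := by
    have h1 : lo ^ 2 = √(8.95 * (k : ℝ) ^ 3) := Real.sq_sqrt (Real.sqrt_nonneg _)
    have h2 : √(8.95 * (k : ℝ) ^ 3) ^ 2 = 8.95 * (k : ℝ) ^ 3 := Real.sq_sqrt h8.le
    calc lo ^ 4 = (lo ^ 2) ^ 2 := by ring
      _ = _ := by rw [h1, h2]
  rw [div_le_iff₀ (by positivity)]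
  refine le_of_pow_le_pow_left₀ (n := 4) (by norm_num) (by positivity) ?_
  have h12 : (c * lo ^ 3) ^ 4 = c ^ 4 * (8.95 ^ 3 * (k : ℝ) ^ 5) * (k : ℝ) ^ 4 := by
    calc (c * lo ^ 3) ^ 4 = c ^ 4 * (lo ^ 4) ^ 3 := by ring
      _ = _ := by rw [hlo4]; ring
  rw [h12]
  have h5 : k1 ^ 5 ≤ (k : ℝ) ^ 5 := pow_le_pow_left₀ hk1.le hk 5
  have h6 : 1 ≤ c ^ 4 * (8.95 ^ 3 * (k : ℝ) ^ 5) := by
    refine h.trans ?_
    gcongr
  nlinarith [pow_pos hk0 4]

/-! ### number of epochs -/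

theorem numC_e_lin {e k : ℕ} (hk : 12 * kap e ≤ k) : (e : ℝ) * 2569 ≤ (k : ℝ) := by
  have h := epoch_pow hk
  have h1 : 1 + (e : ℝ) * 0.249 ≤ (1.249 : ℝ) ^ e := by
    have h2 := one_add_mul_le_pow (a := (0.249 : ℝ)) (by norm_num) e
    have h3 : (1 : ℝ) + 0.249 = 1.249 := by norm_num
    rwa [h3] at h2
  have he : (0 : ℝ) ≤ e := Nat.cast_nonneg e
  norm_num at h h1
  linarith

theorem numC_e_le {e k : ℕ} (hk : 12 * kap e ≤ k) (hk2 : k < 220000) : e ≤ 13 := by
  by_contra hcon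
  push Not at hcon
  have h := epoch_pow hk
  have h1 : (1.249 : ℝ) ^ 14 ≤ (1.249 : ℝ) ^ e := pow_le_pow_right₀ (by norm_num) (by omega)
  have h2 : (k : ℝ) < 220000 := by exact_mod_cast hk2
  have h3 : (22 : ℝ) ≤ (1.249 : ℝ) ^ 14 := by norm_num
  linarith

/-! ### `rhoB` -/

theorem numC_rho {k : ℕ} {k1 s t : ℝ} (hk : k1 ≤ (k : ℝ)) (hs : 0 < s) (ht : 0 < t)
    (h1 : s ^ 2 ≤ k1) (h2 : t ^ 2 ≤ s) :
    rhoB k ≤ (1.0015 + 800 / k1) * (0.8178 + 5.95 / s + 60 / (s * t)) := by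
  have hk1 : 0 < k1 := (by positivity : (0 : ℝ) < s ^ 2).trans_le h1
  have hk0 : (0 : ℝ) < k := hk1.trans_le hk
  have h3 : s ≤ √(k : ℝ) := Real.le_sqrt_of_sq_le (h1.trans hk)
  have h4 : t ≤ √√(k : ℝ) := Real.le_sqrt_of_sq_le (h2.trans h3)
  unfold rhoB
  gcongr

/-! ### drift, `k ≥ 670000` -/

theorem numC_Ph {j k : ℕ} (h : Ph j k ≠ 0) : ((12 * j : ℕ) : ℝ) ^ 4 ≤ 48.2 * (k : ℝ) ^ 3 := by
  unfold Ph at h
  obtain ⟨i, hi, hi2⟩ := Finset.exists_mem_eq_sup' (s := Finset.Ico (12 * j) (12 * j + 12))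
    ⟨12 * j, by simp⟩ (phi k)
  rw [hi2] at h
  rw [Finset.mem_Ico] at hi
  have h1 : (i : ℝ) ^ 4 ≤ 48.2 * (k : ℝ) ^ 3 := by
    by_contra hcon
    apply h
    unfold phi
    rw [if_neg]
    intro hh
    exact hcon hh.2
  have h2 : ((12 * j : ℕ) : ℝ) ≤ (i : ℝ) := by exact_mod_cast hi.1
  calc ((12 * j : ℕ) : ℝ) ^ 4 ≤ (i : ℝ) ^ 4 := by gcongr
    _ ≤ _ := h1

theorem numC_lamR_le (k : ℕ) : lamR k ≤ 0.88 := by
  unfold lamR
  split_ifs <;> norm_num

theorem numC_lamR_low {k : ℕ} (h : k < 80000) : lamR k ≤ 0.76 := by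
  unfold lamR
  split_ifs <;> norm_num

theorem numC_lamR_mid {k : ℕ} (h : k < 670000) : lamR k ≤ 0.85 := by
  unfold lamR
  split_ifs <;> norm_num

theorem numC_drift {e k : ℕ} (hk0 : 10320 ≤ k) {L : ℝ} (hL0 : 0 ≤ L)
    (hL : ∀ j, Ph j k ≠ 0 → lamR (12 * j + 15) ≤ L) :
    ∑ c ∈ Finset.range e, ∑ j ∈ Finset.Ico (kap c) (kap (c + 1)), lamR (12 * j + 15) * Ph j k ≤
      L * rhoB k := by
  calc ∑ c ∈ Finset.range e, ∑ j ∈ Finset.Ico (kap c) (kap (c + 1)), lamR (12 * j + 15) * Ph j k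
      ≤ ∑ c ∈ Finset.range e, ∑ j ∈ Finset.Ico (kap c) (kap (c + 1)), L * Ph j k := by
        refine Finset.sum_le_sum fun c _ => Finset.sum_le_sum fun j _ => ?_
        by_cases h : Ph j k = 0
        · rw [h, mul_zero, mul_zero]
        · exact mul_le_mul_of_nonneg_right (hL j h) (Ph_nonneg j k)
    _ = L * ∑ j ∈ Finset.Ico 860 (kap e), Ph j k := by
        rw [← sum_Ph, Finset.mul_sum]
        refine Finset.sum_congr rfl fun c _ => ?_
        rw [Finset.mul_sum]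
    _ ≤ L * rhoB k := mul_le_mul_of_nonneg_left (rho_le hk0 _) hL0

theorem numC_UU_high {G : Multiset (ℝ × ℝ)} {e k : ℕ} (hk : 670000 ≤ k) {L : ℝ} (hL0 : 0 ≤ L)
    (hL : ∀ j, Ph j k ≠ 0 → lamR (12 * j + 15) ≤ L) :
    UU G e k ≤ 0.02052 + L * rhoB k +
      ∑ d ∈ Finset.range e, (bet (12 * kap d) k * births (kap d) (kap (d + 1)) +
        shelf (kap d) (kap (d + 1)) k + Eerr (12 * kap d) (12 * kap (d + 1)) k +
        2.15e6 / (k : ℝ) ^ 2) := by
  rw [UU_eq]
  have h1 := numC_drift (e := e) (k := k) (by omega) hL0 hL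
  have h2 : ∑ d ∈ Finset.range e, inc G (kap d) (kap (d + 1)) k =
      ∑ d ∈ Finset.range e, (bet (12 * kap d) k * births (kap d) (kap (d + 1)) +
        shelf (kap d) (kap (d + 1)) k + Eerr (12 * kap d) (12 * kap (d + 1)) k +
        2.15e6 / (k : ℝ) ^ 2) +
      ∑ c ∈ Finset.range e, ∑ j ∈ Finset.Ico (kap c) (kap (c + 1)), lamR (12 * j + 15) * Ph j k := by
    rw [← Finset.sum_add_distrib]
    refine Finset.sum_congr rfl fun d _ => ?_
    unfold inc drift
    rw [if_neg (by omega)]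
  rw [h2]
  linarith

/-- the sum of all other terms -/
theorem numC_rest {e k : ℕ} (hk : 12 * kap e ≤ k) (hk1 : 160000 ≤ k) {b z t : ℝ}
    (hb : ∑ c ∈ Finset.range e, bet (12 * kap c) k * births (kap c) (kap (c + 1)) ≤ b)
    (hz : (k : ℝ) / √√(8.95 * (k : ℝ) ^ 3) ^ 3 ≤ z) (ht : (e : ℝ) * (2.15e6 / (k : ℝ) ^ 2) ≤ t) :
    ∑ d ∈ Finset.range e, (bet (12 * kap d) k * births (kap d) (kap (d + 1)) +
        shelf (kap d) (kap (d + 1)) k + Eerr (12 * kap d) (12 * kap (d + 1)) k +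
        2.15e6 / (k : ℝ) ^ 2) ≤
      b + (0.060566 + 2598 / (k : ℝ) + 0.0089) + 1.1e6 * z + t := by
  rw [Finset.sum_add_distrib, Finset.sum_add_distrib, Finset.sum_add_distrib, Finset.sum_const,
    Finset.card_range, nsmul_eq_mul]
  have h1 := numC_shelf hk hk1
  have h2 := sum_Eerr (e := e) hk1
  have h3 : 1.1e6 * (k : ℝ) / √√(8.95 * (k : ℝ) ^ 3) ^ 3 ≤ 1.1e6 * z := by
    rw [mul_div_assoc]
    exact mul_le_mul_of_nonneg_left hz (by norm_num)
  linarith

/-- linear bound for the number of epochs -/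
theorem numC_t {e k : ℕ} (hk : 12 * kap e ≤ k) (hk0 : 0 < k) :
    (e : ℝ) * (2.15e6 / (k : ℝ) ^ 2) ≤ 837 / (k : ℝ) := by
  have h := numC_e_lin hk
  have hk' : (0 : ℝ) < k := by exact_mod_cast hk0
  rw [mul_div_assoc', div_le_div_iff₀ (by positivity) hk']
  norm_num
  nlinarith

theorem num_C {a b X Y : ℝ} {G : Multiset (ℝ × ℝ)} (hS : Start a b X Y G) {e k : ℕ}
    (hk : 12 * kap e ≤ k) (hk1 : 160000 ≤ k) :
    XX k G + UU G e k + 0.0098 ≤ lamR k := by
  have hk1' : (160000 : ℝ) ≤ k := by exact_mod_cast hk1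
  have hk0 : (0 : ℝ) < k := by linarith
  have hlam : lamR k = if k < 670000 then 0.85 else 0.88 := by
    unfold lamR
    rw [if_neg (by omega), if_neg (by omega)]
  by_cases hA : k < 670000
  · have hlow := UU_low (G := G) (e := e) (k := k) (by omega) hA
    have hrho := rho_le (k := k) (by omega) (kap e)
    have hrow := hS.rowD k hk1 hA
    rw [hlam, if_pos hA]
    by_cases hB : k < 220000
    · exact num_D1 hS hk hk1 hB
    · have hB2 : (220000 : ℝ) ≤ k := by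
        have : 220000 ≤ k := by omega
        exact_mod_cast this
      have hB' : (k : ℝ) ≤ 670000 := by exact_mod_cast hA.le
      have hb := numC_births_range (e := e) (k := k) (M := 50260) (by norm_num) (by
        calc 21.2 * (k : ℝ) ^ 3 ≤ 21.2 * 670000 ^ 3 := by gcongr
          _ ≤ _ := by norm_num)
      have hz := numC_err (k := k) (k1 := 220000) (c := 4.06e-8) (by norm_num) hB2 (by norm_num)
        (by norm_num)
      have ht := numC_t hk (by omega)
      have hr := numC_rest hk hk1 hb hz ht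
      have hrb := numC_rho (k := k) (k1 := 220000) (s := 469) (t := 21.65) hB2 (by norm_num)
        (by norm_num) (by norm_num) (by norm_num)
      have hq : (2598 : ℝ) / k ≤ 2598 / 220000 := by gcongr
      have hq2 : (837 : ℝ) / k ≤ 837 / 220000 := by gcongr
      norm_num at hr hrb hq hq2 hlow hrow ⊢
      linarith
  · have hA2 : 670000 ≤ k := by omega
    have hA' : (670000 : ℝ) ≤ k := by exact_mod_cast hA2
    rw [hlam, if_neg hA]
    have hb := numC_births_all e k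
    have ht := numC_t hk (by omega)
    by_cases hB : k < 946000
    · have hrow := hS.rowE k hA2 hB
      have hB' : (k : ℝ) ≤ 946000 := by exact_mod_cast hB.le
      have hL : ∀ j, Ph j k ≠ 0 → lamR (12 * j + 15) ≤ 0.76 := by
        intro j hj
        refine numC_lamR_low ?_
        have h1 := numC_Ph hj
        have h2 : ((12 * j : ℕ) : ℝ) ^ 4 ≤ 79980 ^ 4 := by
          calc ((12 * j : ℕ) : ℝ) ^ 4 ≤ 48.2 * (k : ℝ) ^ 3 := h1
            _ ≤ 48.2 * 946000 ^ 3 := by gcongr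
            _ ≤ _ := by norm_num
        have h3 : ((12 * j : ℕ) : ℝ) ≤ 79980 := le_of_pow_le_pow_left₀ (by norm_num) (by norm_num) h2
        have h4 : 12 * j ≤ 79980 := by exact_mod_cast h3
        omega
      have hU := numC_UU_high (G := G) (e := e) hA2 (by norm_num) hL
      have hz := numC_err (k := k) (k1 := 670000) (c := 1.009e-8) (by norm_num) hA' (by norm_num)
        (by norm_num)
      have hr := numC_rest hk hk1 hb hz ht
      have hrb := numC_rho (k := k) (k1 := 670000) (s := 818.5) (t := 28.6) hA' (by norm_num)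
        (by norm_num) (by norm_num) (by norm_num)
      have hq : (2598 : ℝ) / k ≤ 2598 / 670000 := by gcongr
      have hq2 : (837 : ℝ) / k ≤ 837 / 670000 := by gcongr
      norm_num at hr hrb hq hq2 hU hrow ⊢
      linarith
    · have hB2 : 946000 ≤ k := by omega
      have hB2' : (946000 : ℝ) ≤ k := by exact_mod_cast hB2
      by_cases hC : k < 16000000
      · have hC' : (k : ℝ) ≤ 16000000 := by exact_mod_cast hC.le
        have hL : ∀ j, Ph j k ≠ 0 → lamR (12 * j + 15) ≤ 0.85 := by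
          intro j hj
          refine numC_lamR_mid ?_
          have h1 := numC_Ph hj
          have h2 : ((12 * j : ℕ) : ℝ) ^ 4 ≤ 669900 ^ 4 := by
            calc ((12 * j : ℕ) : ℝ) ^ 4 ≤ 48.2 * (k : ℝ) ^ 3 := h1
              _ ≤ 48.2 * 16000000 ^ 3 := by gcongr
              _ ≤ _ := by norm_num
          have h3 : ((12 * j : ℕ) : ℝ) ≤ 669900 :=
            le_of_pow_le_pow_left₀ (by norm_num) (by norm_num) h2
          have h4 : 12 * j ≤ 669900 := by exact_mod_cast h3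
          omega
        have hU := numC_UU_high (G := G) (e := e) hA2 (by norm_num) hL
        by_cases hD : k < 1600000
        · have hrow := hS.rowF k hB2 hD
          have hz := numC_err (k := k) (k1 := 946000) (c := 6.56e-9) (by norm_num) hB2'
            (by norm_num) (by norm_num)
          have hr := numC_rest hk hk1 hb hz ht
          have hrb := numC_rho (k := k) (k1 := 946000) (s := 972.6) (t := 31.18) hB2' (by norm_num)
            (by norm_num) (by norm_num) (by norm_num)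
          have hq : (2598 : ℝ) / k ≤ 2598 / 946000 := by gcongr
          have hq2 : (837 : ℝ) / k ≤ 837 / 946000 := by gcongr
          norm_num at hr hrb hq hq2 hU hrow ⊢
          linarith
        · have hD2 : 1600000 ≤ k := by omega
          have hD' : (1600000 : ℝ) ≤ k := by exact_mod_cast hD2
          have hrow := hS.rowG k hD2 hC
          have hz := numC_err (k := k) (k1 := 1600000) (c := 3.41e-9) (by norm_num) hD'
            (by norm_num) (by norm_num)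
          have hr := numC_rest hk hk1 hb hz ht
          have hrb := numC_rho (k := k) (k1 := 1600000) (s := 1264.9) (t := 35.56) hD'
            (by norm_num) (by norm_num) (by norm_num) (by norm_num)
          have hq : (2598 : ℝ) / k ≤ 2598 / 1600000 := by gcongr
          have hq2 : (837 : ℝ) / k ≤ 837 / 1600000 := by gcongr
          norm_num at hr hrb hq hq2 hU hrow ⊢
          linarith
      · have hC2 : 16000000 ≤ k := by omega
        have hC' : (16000000 : ℝ) ≤ k := by exact_mod_cast hC2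
        have hrow := hS.rowH k hC2
        have hU := numC_UU_high (G := G) (e := e) hA2 (by norm_num)
          (fun j _ => numC_lamR_le (12 * j + 15))
        have hz := numC_err (k := k) (k1 := 16000000) (c := 1.92e-10) (by norm_num) hC'
          (by norm_num) (by norm_num)
        have hr := numC_rest hk hk1 hb hz ht
        have hrb := numC_rho (k := k) (k1 := 16000000) (s := 4000) (t := 63.24) hC'
          (by norm_num) (by norm_num) (by norm_num) (by norm_num)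
        have hq : (2598 : ℝ) / k ≤ 2598 / 16000000 := by gcongr
        have hq2 : (837 : ℝ) / k ≤ 837 / 16000000 := by gcongr
        norm_num at hr hrb hq hq2 hU hrow ⊢
        linarith

end Pool.Agent.Moser.Eng
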