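import Pool.Agent.Lib_MP_cc07e8_co.EngNumT

/-!
# MP_cc07e8_co, engine piece NUMF: far rows, fixed epoch

For fixed `e` and `k` large: `Eerr = 0`, drift `= 0` (`rho_far`, `lamR ≤ 0.88`; `k ≥ 670000`), `u`-coefficient `625`
(`tau_ten`), `2.15e6 e / k ^ 2 ≤ 0.001`; so `UU + 0.0098 ≤ 0.03032 + 5.4 (6.66 / 859.5 + 1e-6) + 625 / 10319.5 + 0.0089 + 0.001 ≤
0.1428`.
-/

namespace Pool.Agent.Moser.Eng

theorem numF_births (κ κ' : ℕ) : 0 ≤ births κ κ' := by
  unfold births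
  have h1 : 0 ≤ ∑ j ∈ Finset.Ico κ κ', 6.66 / (j : ℝ) ^ 2 :=
    Finset.sum_nonneg fun j _ => by positivity
  positivity

theorem num_far (G : Multiset (ℝ × ℝ)) (e : ℕ) :
    ∃ k0 : ℕ, ∀ k : ℕ, k0 ≤ k → UU G e k + 0.0098 ≤ 0.1455 := by
  obtain ⟨k1, hk1⟩ := rho_far (kap e)
  -- a threshold for the errors
  have hE : ∃ k2 : ℕ, ∀ k : ℕ, k2 ≤ k → (12 * (kap e : ℝ)) ^ 4 < 8.95 * (k : ℝ) ^ 3 := by
    refine ⟨12 * kap e * (12 * kap e) + 1, fun k hk => ?_⟩
    have h0 : (12 * (kap e : ℝ)) * (12 * (kap e : ℝ)) + 1 ≤ k := by exact_mod_cast hk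
    have h1 : (1 : ℝ) ≤ k := by nlinarith [mul_self_nonneg (12 * (kap e : ℝ))]
    set a : ℝ := 12 * (kap e : ℝ) with ha
    have h2 : a ^ 4 = (a * a) ^ 2 := by ring
    have h3 : (a * a) ^ 2 ≤ (k : ℝ) ^ 2 :=
      pow_le_pow_left₀ (mul_self_nonneg a) (by linarith) 2
    have h4 : (k : ℝ) ^ 2 ≤ (k : ℝ) ^ 3 := pow_le_pow_right₀ h1 (by norm_num)
    have h5 : 0 < (k : ℝ) ^ 3 := by positivity
    rw [h2]
    linarith
  obtain ⟨k2, hk2⟩ := hE
  refine ⟨k1 + k2 + 670000 + 120 * kap e + 50000 * (e + 1), fun k hk => ?_⟩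
  have hke : ∀ d < e, kap (d + 1) ≤ kap e := fun d hd => kap_mono (by omega)
  have hkr : (50000 : ℝ) * (e + 1) ≤ k := by
    have h1 : 50000 * (e + 1) ≤ k := le_trans (Nat.le_add_left _ _) hk
    have h2 : ((50000 * (e + 1) : ℕ) : ℝ) ≤ (k : ℝ) := Nat.cast_le.2 h1
    push_cast at h2
    exact h2
  have hk670 : 670000 ≤ k := by
    refine le_trans ?_ hk
    exact (Nat.le_add_left 670000 (k1 + k2)).trans
      ((Nat.le_add_right _ (120 * kap e)).trans (Nat.le_add_right _ _))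
  have hk0 : (670000 : ℝ) ≤ k := by
    have h2 : ((670000 : ℕ) : ℝ) ≤ (k : ℝ) := Nat.cast_le.2 hk670
    exact_mod_cast h2
  have hinc : ∀ d ∈ Finset.range e, inc G (kap d) (kap (d + 1)) k ≤
      5.4 * births (kap d) (kap (d + 1)) +
        (625 * ∑ i ∈ Finset.Ico (12 * kap d) (12 * kap (d + 1)), 1 / (i : ℝ) ^ 2 +
          16 / √((tau (12 * kap d) : ℝ) - 1)) + 2.15e6 / (k : ℝ) ^ 2 +
        0.88 * ∑ j ∈ Finset.Ico (kap d) (kap (d + 1)), Ph j k := by
    intro d hd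
    rw [Finset.mem_range] at hd
    have hd1 := hke d hd
    unfold inc
    have h1 : bet (12 * kap d) k * births (kap d) (kap (d + 1)) ≤
        5.4 * births (kap d) (kap (d + 1)) := by
      apply mul_le_mul_of_nonneg_right _ (numF_births _ _)
      unfold bet
      split_ifs <;> norm_num
    have h2 : shelf (kap d) (kap (d + 1)) k =
        625 * ∑ i ∈ Finset.Ico (12 * kap d) (12 * kap (d + 1)), 1 / (i : ℝ) ^ 2 +
          16 / √((tau (12 * kap d) : ℝ) - 1) := by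
      unfold shelf
      rw [if_pos (tau_ten (by omega))]
    have h3 : Eerr (12 * kap d) (12 * kap (d + 1)) k = 0 := by
      unfold Eerr
      rw [if_neg]
      rintro ⟨_, h⟩
      have h4 := hk2 k (by omega)
      have h5 : (((12 * kap (d + 1) : ℕ) : ℝ)) ^ 4 ≤ (12 * (kap e : ℝ)) ^ 4 := by
        apply pow_le_pow_left₀ (by positivity)
        exact_mod_cast Nat.mul_le_mul_left 12 hd1
      linarith
    have h4 : drift G (kap d) (kap (d + 1)) k ≤
        0.88 * ∑ j ∈ Finset.Ico (kap d) (kap (d + 1)), Ph j k := by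
      unfold drift
      rw [if_neg (by omega), Finset.mul_sum]
      refine Finset.sum_le_sum fun j _ => ?_
      apply mul_le_mul_of_nonneg_right _ (Ph_nonneg j k)
      unfold lamR
      split_ifs <;> norm_num
    rw [h2, h3]
    linarith
  rw [UU_eq]
  have hs := Finset.sum_le_sum hinc
  simp only [Finset.sum_add_distrib, ← Finset.mul_sum] at hs
  rw [sum_Ph, hk1 k (by omega)] at hs
  have hB := sum_births (Nat.zero_le e)
  have hU := sum_u (Nat.zero_le e)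
  have hQ := sum_sqrt e
  rw [← Finset.range_eq_Ico] at hB hU
  have h860 : kap 0 = 860 := rfl
  rw [h860] at hB hU
  have hkeR : (860 : ℝ) ≤ kap e := by exact_mod_cast kap_ge e
  have p1 : 0 ≤ ((kap e : ℝ) - 1 / 2)⁻¹ := inv_nonneg.2 (by linarith)
  have p2 : 0 ≤ (12 * (kap e : ℝ) - 1 / 2)⁻¹ := inv_nonneg.2 (by linarith)
  have hconst : ∑ _d ∈ Finset.range e, 2.15e6 / (k : ℝ) ^ 2 ≤ 0.001 := by
    rw [Finset.sum_const, Finset.card_range, nsmul_eq_mul, mul_div_assoc',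
      div_le_iff₀ (by positivity)]
    have he0 : (0 : ℝ) ≤ e := by positivity
    nlinarith
  norm_num at hB hU hs hconst hQ ⊢
  linarith

end Pool.Agent.Moser.Eng
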