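import Pool.Agent.Lib_MP_cc07e8_co.EngStep
import Pool.Agent.Lib_MP_cc07e8_co.EngNumA
import Pool.Agent.Lib_MP_cc07e8_co.EngNumB0
import Pool.Agent.Lib_MP_cc07e8_co.EngNumB
import Pool.Agent.Lib_MP_cc07e8_co.EngNumC
import Pool.Agent.Lib_MP_cc07e8_co.EngNumF
import Pool.Agent.Lib_MP_cc07e8_co.Compact

/-!
# MP_cc07e8_co, engine piece END: from the start to the perfect packing

`init`: `Start` gives the state of epoch 0 with `B = 0`, `P = 0`, `po = 0`: `Grem G 10320 = G`, `Gpast G 10320 = 0`, row: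
`∑ pot k w ≤ 5.4 ∑ w ≤ 5.4 * 0.0038 = 0.02052` (`pot_le`).
`states`: induction over `e` with `step`: `XX k G + UU G e k + 35 (S0 - (X + Y)) ≤ XX k G + UU G e k + 35 S0 ≤ .. + 0.0098`
(`S0 = X0 + Y0 ≤ 0.00028`), `num_A`, `num_B0`, `num_B`, `num_C` (all rows `k ≥ 12 kap e`; class A rows: `XX ≤ 0.42` and `num_A`), for `hT'` the same
with `e + 1` (`UU G (e + 1) k = UU G e k + inc`, `lamR ≤ 0.88`), `num_far`.
`result`: for every `e` the squares `2 .. tau (12 kap e) - 1` are packed into `a × b` (`Dec.sound` or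
`DecL.sound`), `tau (12 kap e) → ∞`; `compact_packing`.
-/

namespace Pool.Agent.Moser.Eng

theorem end_map_sum_le {α : Type} (f g : α → ℝ) (s : Multiset α) (h : ∀ x ∈ s, f x ≤ g x) :
    (s.map f).sum ≤ (s.map g).sum := by
  induction s using Multiset.induction_on with
  | empty => simp
  | cons a s ih =>
    rw [Multiset.map_cons, Multiset.map_cons, Multiset.sum_cons, Multiset.sum_cons]
    exact add_le_add (h a (Multiset.mem_cons_self a s))
      (ih fun x hx => h x (Multiset.mem_cons_of_mem hx))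

theorem end_map_mul_sum (c : ℝ) (s : Multiset (ℝ × ℝ)) :
    (s.map fun r => c * r.1).sum = c * (s.map Prod.fst).sum := by
  induction s using Multiset.induction_on with
  | empty => simp
  | cons a s ih =>
    rw [Multiset.map_cons, Multiset.map_cons, Multiset.sum_cons, Multiset.sum_cons, ih]
    ring

theorem end_Grem {a b X Y : ℝ} {G : Multiset (ℝ × ℝ)} (hS : Start a b X Y G) :
    Grem G 10320 = G := by
  unfold Grem
  exact Multiset.filter_eq_self.2 fun r hr => (hS.strip r hr).2.1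

theorem init {a b X Y : ℝ} {G : Multiset (ℝ × ℝ)} (hS : Start a b X Y G) :
    St a b G (12 * kap 0) (fun k => UU G 0 k + 35 * ((X + Y) - (X + Y))) X Y 0 0 (fun _ => 0) := by
  have hK : 12 * kap 0 = 10320 := rfl
  have hG := end_Grem hS
  rw [hK]
  refine ⟨?_, hS.hY, hS.hXY, ?_, ?_, ?_, ?_, ?_, ?_⟩
  · rw [hG, Multiset.map_zero, add_zero, add_zero]
    exact hS.dec
  · have h1 := hS.hX
    have h2 := hS.hY
    linarith
  · intro r hr
    exact absurd hr (Multiset.notMem_zero r)
  · intro p hp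
    exact absurd hp (Multiset.notMem_zero p)
  · intro k
    exact le_refl _
  · intro k b _ _ _
    have h1 : slotsAt 0 b = 0 := by simp [slotsAt]
    have h2 : 0 ≤ XX k (Gpast G 10320) := by
      unfold XX
      apply Multiset.sum_nonneg
      intro x hx
      obtain ⟨r, _, rfl⟩ := Multiset.mem_map.1 hx
      exact xx_nonneg k r
    rw [h1]
    push_cast
    linarith
  · intro k _
    rw [hG]
    have h1 : (G.map fun r => pot k r.1).sum ≤ (G.map fun r => 5.4 * r.1).sum :=
      end_map_sum_le _ _ G fun r hr => pot_le k (hS.strip r hr).1.le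
    rw [end_map_mul_sum] at h1
    have h2 := hS.width
    have h3 : UU G 0 k = 0.02052 := rfl
    simp only [Multiset.map_zero, Multiset.sum_zero]
    rw [h3]
    linarith

theorem end_lamR {a b X Y : ℝ} {G : Multiset (ℝ × ℝ)} (hS : Start a b X Y G) {e k : ℕ}
    (hk : 12 * kap e ≤ k) : XX k G + UU G e k + 0.0098 ≤ lamR k := by
  by_cases h1 : k < 61730
  · have h2 := num_A hS hk h1
    have hge := kap_ge e
    have h3 := hS.rowA k (by omega) h1
    have h4 : lamR k = 0.54 := by
      unfold lamR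
      rw [if_pos h1]
    rw [h4]
    linarith
  · by_cases h2 : k < 80000
    · exact num_B0 hS hk (by omega) h2
    · by_cases h3 : k < 160000
      · exact num_B hS hk (by omega) h3
      · exact num_C hS hk (by omega)

theorem end_lamR_le (k : ℕ) : lamR k ≤ 0.88 := by
  unfold lamR
  split_ifs <;> norm_num

theorem states (hME : MainEpochStmt) {a b X0 Y0 : ℝ} {G : Multiset (ℝ × ℝ)} (hS : Start a b X0 Y0 G) (e : ℕ) :
    ∃ (X Y : ℝ) (B : Multiset (ℝ × ℝ)) (P : Multiset Pend) (po : ℕ → ℝ), X + Y ≤ X0 + Y0 ∧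
      St a b G (12 * kap e) (fun k => UU G e k + 35 * ((X0 + Y0) - (X + Y))) X Y B P po := by
  induction e with
  | zero => exact ⟨X0, Y0, 0, 0, fun _ => 0, le_refl _, init hS⟩
  | succ e ih =>
    obtain ⟨X, Y, B, P, po, hXY, hst⟩ := ih
    have hc : 35 * ((X0 + Y0) - (X + Y)) ≤ 0.0098 := by
      have h1 := hst.hY
      have h2 := hst.hXY
      have h3 := hS.hS
      linarith
    have hκ' : kap (e + 1) = 5 * kap e / 4 := rfl
    have hU : ∀ k, UU G e k + inc G (kap e) (kap (e + 1)) k = UU G (e + 1) k := fun k => rfl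
    obtain ⟨k0, hk0⟩ := num_far G (e + 1)
    obtain ⟨X', Y', B', P', po', h1, h2⟩ := step hME hS.area (κ := kap e) (κ' := kap (e + 1))
      (kap_ge e) hκ' hS.strip hst
      (by
        intro k hk hk2
        have := num_A hS hk hk2
        linarith)
      (by
        intro k hk
        have := end_lamR hS hk
        linarith)
      (by
        intro k hk
        have h1 := end_lamR hS hk
        have h2 := end_lamR_le k
        rw [hU]
        linarith)
      ⟨k0, fun k hk => by
        have h1 := hk0 k hk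
        rw [hU]
        linarith⟩
    exact ⟨X', Y', B', P', po', h1.trans hXY, h2⟩

theorem end_kap_large (e : ℕ) : 860 + e ≤ kap e := by
  induction e with
  | zero => exact le_refl _
  | succ e ih =>
    have : kap (e + 1) = 5 * kap e / 4 := rfl
    rw [this]
    omega

theorem end_tau_large (n : ℕ) : n < tau (12 * kap n) := by
  have h1 := end_kap_large n
  have h2 : n < 12 * kap n := by omega
  have h3 := lt_tau (12 * kap n)
  have h4 : (10320 : ℝ) ≤ ((12 * kap n : ℕ) : ℝ) := by
    have : 10320 ≤ 12 * kap n := by omega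
    exact_mod_cast this
  have h5 : (n : ℝ) ≤ ((12 * kap n : ℕ) : ℝ) := by exact_mod_cast h2.le
  set x : ℝ := ((12 * kap n : ℕ) : ℝ) with hx
  have h6 : x + 64 ≤ x ^ 3 / 27000 := by
    have h7 : (10320 : ℝ) ^ 2 ≤ x ^ 2 := by nlinarith
    have h8 : x * 10320 ^ 2 ≤ x ^ 3 := by nlinarith
    linarith
  have h9 : (n : ℝ) < (tau (12 * kap n) : ℝ) := by linarith
  exact_mod_cast h9

/-- the perfect packing from the start -/
theorem packing_of_start (hME : MainEpochStmt) {a b X0 Y0 : ℝ} {G : Multiset (ℝ × ℝ)} (hS : Start a b X0 Y0 G) :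
    ∃ px py : ℕ → ℝ,
      (∀ n : ℕ, 2 ≤ n → 0 ≤ px n ∧ px n + 1 / (n : ℝ) ≤ a ∧ 0 ≤ py n ∧ py n + 1 / (n : ℝ) ≤ b) ∧
      ∀ m n : ℕ, 2 ≤ m → 2 ≤ n → m ≠ n →
        Sep (px m) (py m) (1 / (m : ℝ)) (1 / (m : ℝ)) (px n) (py n) (1 / (n : ℝ)) (1 / (n : ℝ)) := by
  obtain ⟨c, px, py, hp1, hp2⟩ := compact_packing (k := 0) (fun _ => a) (fun _ => b) 2 (by
    intro n
    obtain ⟨X, Y, B, P, po, _, hst⟩ := states hME hS n
    obtain ⟨px, py, h1, h2⟩ := hst.dec.sound (Finset.Ico 2 (tau (12 * kap n))).nodup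
    have hmem : ∀ m : ℕ, 2 ≤ m ∧ m ≤ n → m ∈ (Finset.Ico 2 (tau (12 * kap n))).val := by
      intro m hm
      have := end_tau_large n
      exact Finset.mem_Ico.2 ⟨hm.1, by omega⟩
    exact ⟨fun _ => 0, px, py, fun m hm => h1 m (hmem m hm),
      fun m hm l hl hml _ => h2 m (hmem m hm) l (hmem l hl) hml⟩)
  refine ⟨px, py, fun n hn => hp1 n hn, fun m n hm hn hmn => hp2 m hm n hn hmn ?_⟩
  exact Fin.ext (by have h1 := (c m).isLt; have h2 := (c n).isLt; omega)

end Pool.Agent.Moser.Eng
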