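import Pool.Agent.Lib_MP_cc07e8_co.Child

/-!
# MP_cc07e8_co, tail theorem: filling strips and segments
-/

namespace Pool.Agent.Moser

/-- squares side by side in a strip `l × w`: children `1 / m × (w - 1 / m)` and the gap at the end -/
theorem fill_strip {l w : ℝ} (hw : 0 ≤ w) (ms : Multiset ℕ) (h : ∀ m ∈ ms, 1 / (m : ℝ) ≤ w)
    (hl : (ms.map fun m : ℕ => 1 / (m : ℝ)).sum ≤ l) :
    Ref {(l, w)} ms (ms.map (fun m : ℕ => (1 / (m : ℝ), w - 1 / (m : ℝ))) +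
      {(l - (ms.map fun m : ℕ => 1 / (m : ℝ)).sum, w)}) := by
  induction ms using Multiset.induction_on generalizing l with
  | empty => simpa using Ref.refl {(l, w)}
  | cons m s ih =>
    rw [Multiset.map_cons, Multiset.sum_cons] at hl
    have hm0 : (0 : ℝ) ≤ 1 / (m : ℝ) := by positivity
    have hs0 : 0 ≤ (s.map fun m : ℕ => 1 / (m : ℝ)).sum := by
      apply Multiset.sum_nonneg
      intro x hx
      rw [Multiset.mem_map] at hx
      obtain ⟨a, -, rfl⟩ := hx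
      positivity
    have hmw := h m (Multiset.mem_cons_self m s)
    have h1 : Ref {(l, w)} 0 ({(1 / (m : ℝ), w)} + {(l - 1 / (m : ℝ), w)}) := by
      have := Ref.cut' (a := 1 / (m : ℝ)) (b := l - 1 / (m : ℝ)) (c := w) hm0 (by linarith) hw
      rw [add_sub_cancel] at this
      exact this
    have h2 : Ref {(1 / (m : ℝ), w)} 0
        ({(1 / (m : ℝ), 1 / (m : ℝ))} + {(1 / (m : ℝ), w - 1 / (m : ℝ))}) := by
      have := Ref.cut (a := 1 / (m : ℝ)) (b := 1 / (m : ℝ)) (c := w - 1 / (m : ℝ)) hm0 hm0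
        (by linarith)
      rw [add_sub_cancel] at this
      exact this
    have h3 : Ref {(1 / (m : ℝ), w)} {m} {(1 / (m : ℝ), w - 1 / (m : ℝ))} := by
      have := h2.trans ((Ref.put m).add (Ref.refl {(1 / (m : ℝ), w - 1 / (m : ℝ))}))
      simpa using this
    have h4 := ih (l := l - 1 / (m : ℝ)) (fun k hk => h k (Multiset.mem_cons_of_mem hk))
      (by linarith)
    have h5 := h1.trans (h3.add h4)
    rw [Multiset.map_cons, Multiset.map_cons, Multiset.sum_cons, ← Multiset.singleton_add,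
      ← Multiset.singleton_add, add_assoc]
    rw [zero_add] at h5
    have e : l - (1 / (m : ℝ) + (s.map fun m : ℕ => 1 / (m : ℝ)).sum) =
        l - 1 / (m : ℝ) - (s.map fun m : ℕ => 1 / (m : ℝ)).sum := by ring
    rw [e]
    exact h5

namespace Fill

theorem wt_le_left (a b : ℝ) : wt (a, b) ≤ a + 3 * b := by
  rcases le_total b a with h | h
  · rw [wt_le a b h]
  · rw [wt_le' h]
    linarith

theorem wt_le_right (a b : ℝ) : wt (a, b) ≤ b + 3 * a := by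
  rw [wt_swap]
  exact wt_le_left b a

theorem exists_split (F : Multiset ℕ) (k t : ℕ) (h : F.card = k + t) :
    ∃ F1 F2 : Multiset ℕ, F = F1 + F2 ∧ F1.card = k ∧ F2.card = t := by
  induction k generalizing F with
  | zero => exact ⟨0, F, by simp, by simp, by simpa using h⟩
  | succ k ih =>
    have hne : F ≠ 0 := by
      intro h0
      rw [h0, Multiset.card_zero] at h
      omega
    obtain ⟨a, ha⟩ := Multiset.exists_mem_of_ne_zero hne
    obtain ⟨F', rfl⟩ := Multiset.exists_cons_of_mem ha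
    rw [Multiset.card_cons] at h
    obtain ⟨F1, F2, h1, h2, h3⟩ := ih F' (by omega)
    refine ⟨a ::ₘ F1, F2, ?_, ?_, h3⟩
    · rw [h1, Multiset.cons_add]
    · rw [Multiset.card_cons, h2]

/-- the sum of the reciprocals of `k` numbers from `[A, B]` -/
theorem sum_recip_bounds {A B : ℝ} (hA : 0 < A) (ms : Multiset ℕ)
    (h : ∀ m ∈ ms, A ≤ (m : ℝ) ∧ (m : ℝ) ≤ B) :
    (ms.map fun m : ℕ => 1 / (m : ℝ)).sum ≤ ms.card / A ∧
      (ms.card : ℝ) / B ≤ (ms.map fun m : ℕ => 1 / (m : ℝ)).sum := by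
  induction ms using Multiset.induction_on with
  | empty => simp
  | cons m s ih =>
    obtain ⟨h1, h2⟩ := ih fun k hk => h k (Multiset.mem_cons_of_mem hk)
    obtain ⟨h3, h4⟩ := h m (Multiset.mem_cons_self m s)
    rw [Multiset.map_cons, Multiset.sum_cons, Multiset.card_cons]
    have hm : (0 : ℝ) < m := lt_of_lt_of_le hA h3
    have h5 : 1 / (m : ℝ) ≤ 1 / A := one_div_le_one_div_of_le hA h3
    have h6 : 1 / B ≤ 1 / (m : ℝ) := one_div_le_one_div_of_le hm h4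
    push_cast
    constructor
    · rw [add_div]
      linarith
    · rw [add_div]
      linarith

/-- numbers of batch `i` -/
theorem nums {i m : ℕ} (h1 : (i + 2) ^ 3 ≤ m) (h2 : m < (i + 17) ^ 3 + 9000) :
    (i : ℝ) ^ 3 ≤ (m : ℝ) ∧ (m : ℝ) ≤ ((i : ℝ) + 17) ^ 3 + 9000 := by
  constructor
  · have h3 : i ^ 3 ≤ m := le_trans (Nat.pow_le_pow_left (by omega) 3) h1
    exact_mod_cast h3
  · have h4 : m ≤ (i + 17) ^ 3 + 9000 := h2.le
    exact_mod_cast h4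

theorem ratio {x : ℝ} (hx : 10 ^ 4 ≤ x) : 1 - x ^ 3 / ((x + 17) ^ 3 + 9000) ≤ 52 / x := by
  have hx0 : (0 : ℝ) < x := by linarith
  have hP : (0 : ℝ) < (x + 17) ^ 3 + 9000 := by positivity
  rw [sub_le_iff_le_add, ← sub_le_iff_le_add', le_div_iff₀ hP]
  have : (1 - 52 / x) * ((x + 17) ^ 3 + 9000) =
      ((x - 52) * ((x + 17) ^ 3 + 9000)) / x := by field_simp
  rw [this, div_le_iff₀ hx0]
  nlinarith [pow_pos hx0 2, pow_pos hx0 3, mul_le_mul_of_nonneg_left hx (pow_pos hx0 2).le,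
    mul_le_mul_of_nonneg_left hx hx0.le]

end Fill

/-- a recycled strip: `card ms = i ^ 3 / m0` squares; gap length
`≤ 1 / i ^ 3 + (1 / m0) (52 / i) ≤ 1.1 / i ^ 3` since `m0 ≥ 520 i ^ 2` -/
theorem fill_recycled : ∃ i0 : ℕ, ∀ i m0 : ℕ, i0 ≤ i → 520 * (i : ℝ) ^ 2 ≤ m0 → ∀ c : ℝ,
    (i : ℝ) ^ 3 ≤ c → c < ((i : ℝ) + 1) ^ 3 → ∀ ms : Multiset ℕ, ms.card = i ^ 3 / m0 →
    (∀ m ∈ ms, (i + 2) ^ 3 ≤ m ∧ m < (i + 17) ^ 3 + 9000) →
    ∃ gap : ℝ × ℝ, Ref {(1 / (m0 : ℝ), 1 / c)} ms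
      (ms.map (fun m : ℕ => (1 / (m : ℝ), 1 / Tc c m)) + {gap}) ∧ wt gap ≤ 5 / (i : ℝ) ^ 3 := by
  obtain ⟨i1, hi1⟩ := child_props
  refine ⟨max i1 (10 ^ 4), ?_⟩
  intro i m0 hi hm0 c hc1 hc2 ms hcard hms
  have hii1 : i1 ≤ i := le_trans (le_max_left _ _) hi
  have hi4 : 10 ^ 4 ≤ i := le_trans (le_max_right _ _) hi
  have hi4r : (10 : ℝ) ^ 4 ≤ i := by exact_mod_cast hi4
  have hi0 : (0 : ℝ) < i := by linarith
  have hm0r : (0 : ℝ) < m0 := lt_of_lt_of_le (by positivity) hm0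
  have hc0 : (0 : ℝ) < c := lt_of_lt_of_le (by positivity) hc1
  have hcm : ∀ m ∈ ms, c < m := fun m hm => (hi1 i m hii1 (hms m hm).1 (hms m hm).2 c hc1 hc2).1
  have hb := Fill.sum_recip_bounds (A := (i : ℝ) ^ 3) (B := ((i : ℝ) + 17) ^ 3 + 9000)
    (by positivity) ms fun m hm => Fill.nums (hms m hm).1 (hms m hm).2
  set S := (ms.map fun m : ℕ => 1 / (m : ℝ)).sum with hS
  have hcard1 : (ms.card : ℝ) ≤ (i : ℝ) ^ 3 / m0 := by
    rw [hcard]
    have := @Nat.cast_div_le ℝ _ _ _ (i ^ 3) m0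
    push_cast at this
    exact this
  have hcard2 : (i : ℝ) ^ 3 / m0 - 1 ≤ (ms.card : ℝ) := by
    rw [hcard]
    have hm0n : 0 < m0 := by exact_mod_cast hm0r
    have h1 : i ^ 3 < m0 * (i ^ 3 / m0 + 1) := Nat.lt_mul_div_succ _ hm0n
    have h2 : ((i : ℝ)) ^ 3 < m0 * (((i ^ 3 / m0 : ℕ) : ℝ) + 1) := by exact_mod_cast h1
    rw [sub_le_iff_le_add, div_le_iff₀ hm0r, mul_comm]
    exact h2.le
  have hi3 : (0 : ℝ) < (i : ℝ) ^ 3 := by positivity
  have hSl : S ≤ 1 / (m0 : ℝ) := by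
    refine hb.1.trans ?_
    rw [div_le_iff₀ hi3]
    calc (ms.card : ℝ) ≤ (i : ℝ) ^ 3 / m0 := hcard1
      _ = 1 / (m0 : ℝ) * (i : ℝ) ^ 3 := by ring
  have hfill := fill_strip (l := 1 / (m0 : ℝ)) (w := 1 / c) (by positivity) ms
    (fun m hm => one_div_le_one_div_of_le hc0 (hcm m hm).le) hSl
  refine ⟨(1 / (m0 : ℝ) - S, 1 / c), ?_, ?_⟩
  · have e : ms.map (fun m : ℕ => (1 / (m : ℝ), 1 / Tc c m)) =
        ms.map (fun m : ℕ => (1 / (m : ℝ), 1 / c - 1 / (m : ℝ))) := by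
      apply Multiset.map_congr rfl
      intro m hm
      rw [Tc_inv hc0 (hcm m hm)]
    rw [e]
    exact hfill
  · have hP : (0 : ℝ) < ((i : ℝ) + 17) ^ 3 + 9000 := by positivity
    have h1 : 1 / (m0 : ℝ) - S ≤ 1.1 / (i : ℝ) ^ 3 := by
      have h2 : ((i : ℝ) ^ 3 / m0 - 1) / (((i : ℝ) + 17) ^ 3 + 9000) ≤ S :=
        le_trans (div_le_div_of_nonneg_right hcard2 hP.le) hb.2
      have h3 : ((i : ℝ) ^ 3 / m0 - 1) / (((i : ℝ) + 17) ^ 3 + 9000) =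
          1 / (m0 : ℝ) * ((i : ℝ) ^ 3 / (((i : ℝ) + 17) ^ 3 + 9000)) -
            1 / (((i : ℝ) + 17) ^ 3 + 9000) := by
        field_simp
      have h4 := Fill.ratio hi4r
      have h5 : 1 / (m0 : ℝ) * (1 - (i : ℝ) ^ 3 / (((i : ℝ) + 17) ^ 3 + 9000)) ≤
          1 / (m0 : ℝ) * (52 / i) := mul_le_mul_of_nonneg_left h4 (by positivity)
      have h6 : 1 / (m0 : ℝ) * (52 / i) ≤ 0.1 / (i : ℝ) ^ 3 := by
        have h7 : 1 / (m0 : ℝ) ≤ 1 / (520 * (i : ℝ) ^ 2) :=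
          one_div_le_one_div_of_le (by positivity) hm0
        calc 1 / (m0 : ℝ) * (52 / i) ≤ 1 / (520 * (i : ℝ) ^ 2) * (52 / i) :=
              mul_le_mul_of_nonneg_right h7 (by positivity)
          _ = 0.1 / (i : ℝ) ^ 3 := by
            field_simp
            norm_num
      have h8 : 1 / (((i : ℝ) + 17) ^ 3 + 9000) ≤ 1 / (i : ℝ) ^ 3 := by
        apply one_div_le_one_div_of_le hi3
        nlinarith [pow_le_pow_left₀ hi0.le (by linarith : (i : ℝ) ≤ i + 17) 3]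
      have h9 : (1.1 : ℝ) / (i : ℝ) ^ 3 = 0.1 / (i : ℝ) ^ 3 + 1 / (i : ℝ) ^ 3 := by
        rw [← add_div]
        norm_num
      rw [h3] at h2
      rw [h9]
      nlinarith
    have h2 : 1 / c ≤ 1 / (i : ℝ) ^ 3 := one_div_le_one_div_of_le hi3 hc1
    have h3 := Fill.wt_le_left (1 / (m0 : ℝ) - S) (1 / c)
    have h4 : (5 : ℝ) / (i : ℝ) ^ 3 = 1.1 / (i : ℝ) ^ 3 + 3 * (1 / (i : ℝ) ^ 3) +
        0.9 / (i : ℝ) ^ 3 := by
      field_simp
      norm_num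
    have h5 : (0 : ℝ) ≤ 0.9 / (i : ℝ) ^ 3 := by positivity
    rw [h4]
    linarith

/-- the segments: distribute the squares of `F` over the segments (induction on `ks`); the gap of a segment with
`k ≤ sqrt i` squares is `σ × 1 / i ^ 3` with `σ ≤ (k / i ^ 3) (52 / i) ≤ 0.01 / i ^ 3`, weight `≤ 1.05 / i ^ 3` -/
theorem fill_segs : ∃ i0 : ℕ, ∀ i : ℕ, i0 ≤ i → ∀ (ks F : Multiset ℕ),
    (∀ k ∈ ks, 1 ≤ k ∧ k ≤ Nat.sqrt i) → F.card = ks.sum →
    (∀ m ∈ F, (i + 2) ^ 3 ≤ m ∧ m < (i + 17) ^ 3 + 9000) →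
    ∃ gaps : Multiset (ℝ × ℝ),
      Ref (ks.map fun k : ℕ => ((k : ℝ) / (i : ℝ) ^ 3, 1 / (i : ℝ) ^ 3)) F
        (F.map (fun m : ℕ => (1 / (m : ℝ), 1 / Tc ((i : ℝ) ^ 3) m)) + gaps) ∧
      Psi gaps ≤ 1.05 * ks.card / (i : ℝ) ^ 3 := by
  obtain ⟨i1, hi1⟩ := child_props
  refine ⟨max i1 (5200 ^ 2), ?_⟩
  intro i hi ks
  have hii1 : i1 ≤ i := le_trans (le_max_left _ _) hi
  have hi4 : 5200 ^ 2 ≤ i := le_trans (le_max_right _ _) hi
  have hi4r : (5200 : ℝ) ^ 2 ≤ i := by exact_mod_cast hi4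
  have hi0 : (0 : ℝ) < i := by linarith [(by norm_num : (0 : ℝ) < 5200 ^ 2)]
  have hi3 : (0 : ℝ) < (i : ℝ) ^ 3 := by positivity
  induction ks using Multiset.induction_on with
  | empty =>
    intro F _ hF _
    rw [Multiset.sum_zero, Multiset.card_eq_zero] at hF
    subst hF
    exact ⟨0, by simpa using Ref.refl 0, by simp⟩
  | cons k s ih =>
    intro F hks hF hms
    rw [Multiset.sum_cons] at hF
    obtain ⟨F1, F2, rfl, hF1, hF2⟩ := Fill.exists_split F k s.sum hF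
    obtain ⟨gaps, hg1, hg2⟩ := ih F2 (fun k hk => hks k (Multiset.mem_cons_of_mem hk)) hF2
      (fun m hm => hms m (Multiset.mem_add.2 (Or.inr hm)))
    obtain ⟨hk1, hk2⟩ := hks k (Multiset.mem_cons_self k s)
    have hms1 : ∀ m ∈ F1, (i + 2) ^ 3 ≤ m ∧ m < (i + 17) ^ 3 + 9000 :=
      fun m hm => hms m (Multiset.mem_add.2 (Or.inl hm))
    have hcm : ∀ m ∈ F1, (i : ℝ) ^ 3 < m := fun m hm =>
      (hi1 i m hii1 (hms1 m hm).1 (hms1 m hm).2 ((i : ℝ) ^ 3) le_rfl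
        (by nlinarith [hi0, pow_pos hi0 2])).1
    have hb := Fill.sum_recip_bounds (A := (i : ℝ) ^ 3) (B := ((i : ℝ) + 17) ^ 3 + 9000)
      (by positivity) F1 fun m hm => Fill.nums (hms1 m hm).1 (hms1 m hm).2
    rw [hF1] at hb
    set S := (F1.map fun m : ℕ => 1 / (m : ℝ)).sum with hS
    have hfill := fill_strip (l := (k : ℝ) / (i : ℝ) ^ 3) (w := 1 / (i : ℝ) ^ 3)
      (by positivity) F1 (fun m hm => one_div_le_one_div_of_le hi3 (hcm m hm).le) hb.1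
    have e : F1.map (fun m : ℕ => (1 / (m : ℝ), 1 / Tc ((i : ℝ) ^ 3) m)) =
        F1.map (fun m : ℕ => (1 / (m : ℝ), 1 / (i : ℝ) ^ 3 - 1 / (m : ℝ))) := by
      apply Multiset.map_congr rfl
      intro m hm
      rw [Tc_inv hi3 (hcm m hm)]
    refine ⟨{((k : ℝ) / (i : ℝ) ^ 3 - S, 1 / (i : ℝ) ^ 3)} + gaps, ?_, ?_⟩
    · have h1 := hfill.add hg1
      rw [← e] at h1
      rw [Multiset.map_cons, ← Multiset.singleton_add, Multiset.map_add]
      have e2 : F1.map (fun m : ℕ => (1 / (m : ℝ), 1 / Tc ((i : ℝ) ^ 3) m)) +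
          F2.map (fun m : ℕ => (1 / (m : ℝ), 1 / Tc ((i : ℝ) ^ 3) m)) +
          ({((k : ℝ) / (i : ℝ) ^ 3 - S, 1 / (i : ℝ) ^ 3)} + gaps) =
          F1.map (fun m : ℕ => (1 / (m : ℝ), 1 / Tc ((i : ℝ) ^ 3) m)) +
          {((k : ℝ) / (i : ℝ) ^ 3 - S, 1 / (i : ℝ) ^ 3)} +
          (F2.map (fun m : ℕ => (1 / (m : ℝ), 1 / Tc ((i : ℝ) ^ 3) m)) + gaps) := by
        abel
      rw [e2]
      exact h1
    · rw [Psi_add, Psi_singleton, Multiset.card_cons]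
      have hP : (0 : ℝ) < ((i : ℝ) + 17) ^ 3 + 9000 := by positivity
      have hk3 : 5200 * k ≤ i := by
        have h1 : k * k ≤ i := Nat.le_sqrt.1 hk2
        have h2 : (5200 * k) ^ 2 ≤ i ^ 2 := by
          calc (5200 * k) ^ 2 = 5200 ^ 2 * (k * k) := by ring
            _ ≤ i * i := Nat.mul_le_mul hi4 h1
            _ = i ^ 2 := by ring
        exact (Nat.pow_le_pow_iff_left (by norm_num)).1 h2
      have hk3r : 5200 * (k : ℝ) ≤ i := by exact_mod_cast hk3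
      have h1 : (k : ℝ) / (i : ℝ) ^ 3 - S ≤ 0.01 / (i : ℝ) ^ 3 := by
        have h2 := Fill.ratio (x := (i : ℝ)) (by linarith [(by norm_num : (10 : ℝ) ^ 4 ≤ 5200 ^ 2)])
        have h3 : (k : ℝ) / (i : ℝ) ^ 3 * (1 - (i : ℝ) ^ 3 / (((i : ℝ) + 17) ^ 3 + 9000)) ≤
            (k : ℝ) / (i : ℝ) ^ 3 * (52 / i) := mul_le_mul_of_nonneg_left h2 (by positivity)
        have h4 : (k : ℝ) / (i : ℝ) ^ 3 * (1 - (i : ℝ) ^ 3 / (((i : ℝ) + 17) ^ 3 + 9000)) =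
            (k : ℝ) / (i : ℝ) ^ 3 - k / (((i : ℝ) + 17) ^ 3 + 9000) := by
          field_simp
        have h5 : (k : ℝ) / (i : ℝ) ^ 3 * (52 / i) ≤ 0.01 / (i : ℝ) ^ 3 := by
          have h6 : (k : ℝ) * (52 / i) ≤ 0.01 := by
            rw [mul_div_assoc', div_le_iff₀ hi0]
            linarith
          calc (k : ℝ) / (i : ℝ) ^ 3 * (52 / i) = (k * (52 / i)) / (i : ℝ) ^ 3 := by ring
            _ ≤ 0.01 / (i : ℝ) ^ 3 := div_le_div_of_nonneg_right h6 hi3.le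
        linarith [hb.2]
      have h2 := Fill.wt_le_right ((k : ℝ) / (i : ℝ) ^ 3 - S) (1 / (i : ℝ) ^ 3)
      have h3 : 1.05 * (((s.card + 1 : ℕ) : ℝ)) / (i : ℝ) ^ 3 =
          1.05 * (s.card : ℝ) / (i : ℝ) ^ 3 + 1.05 / (i : ℝ) ^ 3 := by
        push_cast
        ring
      have h4 : (1.05 : ℝ) / (i : ℝ) ^ 3 = 1 / (i : ℝ) ^ 3 + 3 * (0.01 / (i : ℝ) ^ 3) +
          0.02 / (i : ℝ) ^ 3 := by
        field_simp
        norm_num
      have h5 : (0 : ℝ) ≤ 0.02 / (i : ℝ) ^ 3 := by positivity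
      rw [h3, h4]
      linarith

end Pool.Agent.Moser
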