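import Pool.Agent.Lib_MP_cc07e8_co.EngChildW
import Pool.Agent.Lib_MP_cc07e8_co.Fill

/-!
# MP_cc07e8_co, engine piece FILLONE (E3): one running strip in an epoch

The strip `p` has got the squares `A` (one for each slot in a block `< sig K'`). Use a maximal subset
`U ⊆ A` with `∑ q ∈ U, 1 / q ≤ l` (exists, finite; or greedily). `fill_strip` (file `Fill.lean`, rectangles
there are (length, width), turn them with `Ref.turn`) gives the children `(w - 1 / q, 1 / q)` and the rest
`(w, l - ∑)`.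
* If `U ≠ A` or `p.i + 15 < K'`: the strip is finished, rest = gap `(w, r)`: `r < w` and `r * tau K ≤ 1`. Indeed if
  `U ≠ A` take `q ∈ A \ U`: `r < 1 / q` (maximality), `q ≥ tau K`, `q ≥ tau (i + 4)` (from the block), so `r ≤ 1 / tau K` and
  `r < 1 / q ≤ 1 / tau (i + 1) < w`. If `U = A` and `p.i + 15 < K'`: all slots are in blocks
  `< sig (i + 16) ≤ sig K'`, so `card A = card B`, and `∑ U 1 / q ≥ card A / tau (i + 16)` gives
  `r * tau (i + 16) ≤ l * tau (i + 16) - card B < 1`, so `r < 1 / tau (i + 16) ≤ w`, `≤ 1 / tau K` (`K ≤ i + 15`).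
* If `U = A` and `K' ≤ p.i + 15`: the strip stays: `p' = ⟨w, l - ∑, i, B.filter (sig K' ≤ ·)⟩`, `Run K' K'`: `slot`
  as above (`card (filter) = card B - card A`), `hi`: `p.i < K'` from `Run.hi`.
The conclusion is one statement with an option: `g` = `0` or one gap, `P'` = `0` or one running strip.
-/

namespace Pool.Agent.Moser.Eng

namespace FillOne

/-- turning a whole multiset of rectangles -/
lemma turn_map {ι : Type} (ms : Multiset ι) (f g : ι → ℝ) (h : ∀ m ∈ ms, 0 ≤ f m ∧ 0 ≤ g m) :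
    Ref (ms.map fun m => (f m, g m)) 0 (ms.map fun m => (g m, f m)) := by
  induction ms using Multiset.induction_on with
  | empty => simpa using Ref.refl 0
  | cons m s ih =>
    rw [Multiset.map_cons, Multiset.map_cons, ← Multiset.singleton_add, ← Multiset.singleton_add]
    have h1 := h m (Multiset.mem_cons_self m s)
    have h2 := (Ref.turn h1.1 h1.2).add (ih fun m hm => h m (Multiset.mem_cons_of_mem hm))
    rw [add_zero] at h2
    exact h2

/-- `fill_strip` for rectangles (width, length) -/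
lemma fill {l w : ℝ} (hw : 0 ≤ w) (hl0 : 0 ≤ l) (U : Finset ℕ) (h : ∀ m ∈ U, 1 / (m : ℝ) ≤ w)
    (hl : ∑ m ∈ U, 1 / (m : ℝ) ≤ l) :
    Ref {(w, l)} U.val (U.val.map (fun m : ℕ => (w - 1 / (m : ℝ), 1 / (m : ℝ))) +
      {(w, l - ∑ m ∈ U, 1 / (m : ℝ))}) := by
  have h1 := fill_strip (l := l) (w := w) hw U.val (fun m hm => h m hm) hl
  have h2 := (Ref.turn hw hl0).trans h1
  have h3 := turn_map U.val (fun m : ℕ => 1 / (m : ℝ)) (fun m : ℕ => w - 1 / (m : ℝ))
    (fun m hm => ⟨by positivity, sub_nonneg.2 (h m hm)⟩)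
  have h4 := h3.add (Ref.turn (sub_nonneg.2 hl) hw)
  have h5 := h2.trans h4
  rw [zero_add, add_zero, add_zero] at h5
  exact h5

/-- a maximal subset that fits -/
lemma exists_max (A : Finset ℕ) (f : ℕ → ℝ) {l : ℝ} (hl : 0 ≤ l) :
    ∃ U : Finset ℕ, U ⊆ A ∧ ∑ m ∈ U, f m ≤ l ∧ ∀ q ∈ A, q ∉ U → l < ∑ m ∈ U, f m + f q := by
  classical
  set 𝒰 := A.powerset.filter fun U => ∑ m ∈ U, f m ≤ l with h𝒰
  have hne : 𝒰.Nonempty := ⟨∅, by simp [h𝒰, hl]⟩
  obtain ⟨U, hU, hmax⟩ := Finset.exists_max_image 𝒰 Finset.card hne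
  rw [h𝒰, Finset.mem_filter, Finset.mem_powerset] at hU
  refine ⟨U, hU.1, hU.2, fun q hq hqU => ?_⟩
  by_contra hc
  push Not at hc
  have h1 : insert q U ∈ 𝒰 := by
    rw [h𝒰, Finset.mem_filter, Finset.mem_powerset, Finset.sum_insert hqU]
    exact ⟨Finset.insert_subset hq hU.1, by linarith⟩
  have h2 := hmax _ h1
  rw [Finset.card_insert_of_notMem hqU] at h2
  omega

end FillOne

theorem fill_one {K K' : ℕ} (hK : 10320 ≤ K) (hKK : K < K') (hKK2 : 4 * K' ≤ 5 * K) (p : Pend)
    (hp : p.Run K K') (A : Finset ℕ) (hA : ∀ q ∈ A, q / 64 ∈ p.B ∧ q / 64 < sig K')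
    (hcard : A.card = (p.B.filter fun b => b < sig K').card) :
    ∃ (U : Finset ℕ) (g : Multiset (ℝ × ℝ)) (P' : Multiset Pend), U ⊆ A ∧
      Ref {p.rect} U.val
        (U.val.map (fun q : ℕ => (p.w - 1 / (q : ℝ), 1 / (q : ℝ))) + g + P'.map Pend.rect) ∧
      ((g = 0 ∧ ∃ l', P' = {⟨p.w, l', p.i, p.B.filter fun b => sig K' ≤ b⟩}) ∨
        (P' = 0 ∧ ∃ r, g = {(p.w, r)})) ∧
      (∀ r ∈ g, 0 ≤ r.2 ∧ r.2 ≤ r.1 ∧ (tau K : ℝ) * r.2 ≤ 1) ∧ (∀ p' ∈ P', p'.Run K' K') := by
  have hw := InW_pos hp.win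
  have hlo := hp.lo
  -- facts about the squares
  have hq1 : ∀ q ∈ A, tau K ≤ q ∧ tau (p.i + 4) ≤ q ∧ q < tau (p.i + 16) := by
    intro q hq
    obtain ⟨h1, h2⟩ := hA q hq
    obtain ⟨h3, h4, h5⟩ := hp.blk _ h1
    rw [tau_eq, tau_eq, tau_eq]
    omega
  have htK : (4e7 : ℝ) ≤ tau K := tau_pos (by omega)
  have hq0 : ∀ q ∈ A, (0 : ℝ) < q := by
    intro q hq
    have : (tau K : ℝ) ≤ q := by exact_mod_cast (hq1 q hq).1
    linarith
  have hqw : ∀ q ∈ A, 1 / (q : ℝ) < p.w := by
    intro q hq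
    have h := child_pos (i := p.i) (q := q) (by omega) hp.win (hq1 q hq).2.1
    linarith
  obtain ⟨U, hUA, hUl, hmax⟩ := FillOne.exists_max A (fun q : ℕ => 1 / (q : ℝ)) hp.len
  have hfill := FillOne.fill hw.le hp.len U (fun m hm => (hqw m (hUA hm)).le) hUl
  set S := ∑ m ∈ U, 1 / (m : ℝ) with hS
  have hr0 : 0 ≤ p.l - S := sub_nonneg.2 hUl
  have gap : (p.l - S ≤ p.w ∧ (tau K : ℝ) * (p.l - S) ≤ 1) →
      ∃ (U : Finset ℕ) (g : Multiset (ℝ × ℝ)) (P' : Multiset Pend), U ⊆ A ∧
      Ref {p.rect} U.val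
        (U.val.map (fun q : ℕ => (p.w - 1 / (q : ℝ), 1 / (q : ℝ))) + g + P'.map Pend.rect) ∧
      ((g = 0 ∧ ∃ l', P' = {⟨p.w, l', p.i, p.B.filter fun b => sig K' ≤ b⟩}) ∨
        (P' = 0 ∧ ∃ r, g = {(p.w, r)})) ∧
      (∀ r ∈ g, 0 ≤ r.2 ∧ r.2 ≤ r.1 ∧ (tau K : ℝ) * r.2 ≤ 1) ∧ (∀ p' ∈ P', p'.Run K' K') := by
    rintro ⟨h1, h2⟩
    refine ⟨U, {(p.w, p.l - S)}, 0, hUA, ?_, Or.inr ⟨rfl, _, rfl⟩, ?_, ?_⟩
    · rw [Multiset.map_zero, add_zero]
      exact hfill
    · intro r hr
      rw [Multiset.mem_singleton] at hr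
      subst hr
      exact ⟨hr0, h1, h2⟩
    · intro p' hp'
      exact absurd hp' (Multiset.notMem_zero p')
  have htk16 : (tau K : ℝ) ≤ tau (p.i + 16) := by exact_mod_cast tau_mono (by omega)
  by_cases hUeq : U = A
  · -- all squares are used
    have hSc : (A.card : ℝ) ≤ S * (tau (p.i + 16) : ℝ) := by
      rw [hS, hUeq, Finset.sum_mul]
      have h1 : ∑ m ∈ A, (1 : ℝ) ≤ ∑ m ∈ A, 1 / (m : ℝ) * (tau (p.i + 16) : ℝ) := by
        refine Finset.sum_le_sum fun q hq => ?_
        have h2 : (q : ℝ) ≤ tau (p.i + 16) := by exact_mod_cast (hq1 q hq).2.2.le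
        rw [one_div_mul_eq_div, one_le_div (hq0 q hq)]
        exact h2
      simpa using h1
    have hsplit : (p.B.filter fun b => b < sig K').card + (p.B.filter fun b => sig K' ≤ b).card =
        p.B.card := by
      have h1 := Multiset.filter_add_not (fun b => b < sig K') p.B
      have h2 := congrArg Multiset.card h1
      rw [Multiset.card_add] at h2
      simp only [not_lt] at h2
      exact h2
    have hslot := hp.slot
    by_cases hi : p.i + 15 < K'
    · -- the strip is finished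
      apply gap
      have h1 : (p.B.filter fun b => b < sig K') = p.B := by
        rw [Multiset.filter_eq_self]
        intro b hb
        have h2 := (hp.blk b hb).2.2
        have h3 : sig (p.i + 16) ≤ sig K' := sig_mono (by omega)
        omega
      rw [h1] at hcard
      have h2 : (A.card : ℝ) = p.B.card := by exact_mod_cast hcard
      have h3 : (p.l - S) * (tau (p.i + 16) : ℝ) < 1 := by
        rw [sub_mul]; linarith
      have h4 : (tau (p.i + 1) : ℝ) ≤ tau (p.i + 16) := by exact_mod_cast tau_mono (by omega)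
      have h5 : 1 < (tau (p.i + 16) : ℝ) * p.w :=
        hp.win.2.trans_le (mul_le_mul_of_nonneg_right h4 hw.le)
      constructor
      · by_contra hc
        push Not at hc
        have h6 : (tau (p.i + 16) : ℝ) * p.w ≤ (tau (p.i + 16) : ℝ) * (p.l - S) :=
          mul_le_mul_of_nonneg_left hc.le (by positivity)
        linarith
      · have h6 := mul_le_mul_of_nonneg_right htk16 hr0
        linarith
    · -- the strip stays
      refine ⟨U, 0, {⟨p.w, p.l - S, p.i, p.B.filter fun b => sig K' ≤ b⟩}, hUA, ?_,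
        Or.inl ⟨rfl, _, rfl⟩, ?_, ?_⟩
      · rw [Multiset.map_singleton, add_zero]
        exact hfill
      · intro r hr
        exact absurd hr (Multiset.notMem_zero r)
      · intro p' hp'
        rw [Multiset.mem_singleton] at hp'
        subst hp'
        refine ⟨hp.win, by simp only; omega, hp.hi, hr0, ?_, ?_⟩
        · intro b hb
          simp only [Multiset.mem_filter] at hb
          exact ⟨hb.2, (hp.blk b hb.1).2⟩
        · simp only
          have h1 : ((p.B.filter fun b => b < sig K').card : ℝ) +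
              ((p.B.filter fun b => sig K' ≤ b).card : ℝ) = p.B.card := by exact_mod_cast hsplit
          have h2 : (A.card : ℝ) = ((p.B.filter fun b => b < sig K').card : ℝ) := by
            exact_mod_cast hcard
          rw [sub_mul]
          linarith
  · -- some square is not used
    apply gap
    obtain ⟨q, hqA, hqU⟩ : ∃ q ∈ A, q ∉ U := by
      by_contra hc
      push Not at hc
      exact hUeq (Finset.Subset.antisymm hUA hc)
    have h1 := hmax q hqA hqU
    have h2 := hqw q hqA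
    have h3 : p.l - S < 1 / (q : ℝ) := by linarith
    refine ⟨by linarith, ?_⟩
    have h4 : (tau K : ℝ) ≤ q := by exact_mod_cast (hq1 q hqA).1
    calc (tau K : ℝ) * (p.l - S) ≤ (q : ℝ) * (p.l - S) := mul_le_mul_of_nonneg_right h4 hr0
      _ ≤ (q : ℝ) * (1 / (q : ℝ)) := mul_le_mul_of_nonneg_left h3.le (hq0 q hqA).le
      _ = 1 := by
        have := (hq0 q hqA).ne'
        field_simp

end Pool.Agent.Moser.Eng
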