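import Mathlib

/-!
# Main epoch, part C: numerical inequalities (helper60, for MP_cc07e8_co)

`u = 1 / a` (`a` the window at the start of the slab, `b` at the end), `s = 1 - a / b`.
-/

namespace Pool.Agent.Moser

/-- bounds for small `s` -/
theorem small_delta {s Δ : ℝ} (hs0 : 0 ≤ s) (hs : s ≤ 0.048) (hΔ : (1 + Δ) * (1 - s) ^ 3 = 1) :
    Δ ≤ 3.3216 * s := by
  have h1 : 0 < (1 - s) ^ 3 := by
    have : 0 < 1 - s := by linarith
    positivity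
  by_contra hcon
  rw [not_le] at hcon
  have h2 : (1 + 3.3216 * s) * (1 - s) ^ 3 < (1 + Δ) * (1 - s) ^ 3 :=
    mul_lt_mul_of_pos_right (by linarith) h1
  rw [hΔ] at h2
  have h3 : (1 + 3.3216 * s) * (1 - s) ^ 3 - 1 = s * (0.3216 - 6.9648 * s + 8.9648 * s ^ 2 -
      3.3216 * s ^ 3) := by ring
  have h4 : 0 ≤ 0.3216 - 6.9648 * s + 8.9648 * s ^ 2 - 3.3216 * s ^ 3 := by
    nlinarith [mul_nonneg hs0 (show (0 : ℝ) ≤ 0.048 - s by linarith),
      mul_nonneg (mul_nonneg hs0 hs0) (show (0 : ℝ) ≤ 0.048 - s by linarith)]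
  nlinarith [mul_nonneg hs0 h4]

/-- chord bound for `1 / (1 - s) ^ 3` on `[0.048, 0.2]` -/
theorem chord_delta {s Δ : ℝ} (hs0 : 0.048 ≤ s) (hs : s ≤ 0.2) (hΔ : (1 + Δ) * (1 - s) ^ 3 = 1) :
    Δ ≤ 0.1591 + 5.2248 * (s - 0.048) := by
  have h1 : 0 < (1 - s) ^ 3 := by
    have : 0 < 1 - s := by linarith
    positivity
  by_contra hcon
  rw [not_le] at hcon
  have h2 : (1 + (0.1591 + 5.2248 * (s - 0.048))) * (1 - s) ^ 3 < (1 + Δ) * (1 - s) ^ 3 :=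
    mul_lt_mul_of_pos_right (by linarith) h1
  rw [hΔ] at h2
  have h4 : 0 ≤ (s - 0.048) * (0.2 - s) := mul_nonneg (by linarith) (by linarith)
  nlinarith [mul_nonneg h4 (show (0 : ℝ) ≤ 0.2 - s by linarith),
    mul_nonneg h4 (show (0 : ℝ) ≤ s - 0.048 by linarith), mul_nonneg h4 h4]

/-- chord bound for `1 / (1 - s) ^ 2` on `[0.048, 0.2]`, in the form needed -/
theorem chord_xdelta {s Δ : ℝ} (hs0 : 0.048 ≤ s) (hs : s ≤ 0.2) (hΔ : (1 + Δ) * (1 - s) ^ 3 = 1) :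
    (1 - s) * Δ ≤ 0.1515 + 4.0206 * (s - 0.048) := by
  have h0 : 0 < 1 - s := by linarith
  have h1 : 0 < (1 - s) ^ 2 := by positivity
  by_contra hcon
  rw [not_le] at hcon
  have h2 : (0.1515 + 4.0206 * (s - 0.048)) * (1 - s) ^ 2 < (1 - s) * Δ * (1 - s) ^ 2 :=
    mul_lt_mul_of_pos_right hcon h1
  have h3 : (1 - s) * Δ * (1 - s) ^ 2 = 1 - (1 - s) ^ 3 := by
    have : (1 - s) * Δ * (1 - s) ^ 2 = (1 + Δ) * (1 - s) ^ 3 - (1 - s) ^ 3 := by ring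
    rw [this, hΔ]
  rw [h3] at h2
  have h4 : 0 ≤ (s - 0.048) * (0.2 - s) := mul_nonneg (by linarith) (by linarith)
  nlinarith [mul_nonneg h4 (show (0 : ℝ) ≤ 0.2 - s by linarith),
    mul_nonneg h4 (show (0 : ℝ) ≤ s - 0.048 by linarith), mul_nonneg h4 h4]

section

variable {s u H Y W T N M k ρ P Δ z : ℝ}

/-- the hypotheses of the cost estimates of a full slab -/
structure FullHyp (s u H Y W T N M k ρ P Δ z : ℝ) : Prop where
  s0 : 0 ≤ s
  s2 : s ≤ 0.2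
  u0 : 0 < u
  u1 : u ≤ 1 / 10320
  H0 : 987 * u ^ 2 ≤ H
  Y0 : 0 ≤ Y
  WY : W ≤ Y
  WM : W ≤ M + 1.01 * k + H * ρ
  TY : T ≤ Y + H * ρ
  TM : T ≤ 1 / 2 * (M + 1.01 * k) + 2 * (H * ρ)
  NM : N ≤ 0.0161 * (M + 1.01 * k) + 2 * (H * ρ) + H / 370
  hk : k ≤ 0.77 * H
  hM : M ≤ 27.35 * z * u + 82.6 * u ^ 2
  hz : z = 1 - (1 - s) ^ 3
  hΔ : (1 + Δ) * (1 - s) ^ 3 = 1
  hP : P ≤ 18.15 * Δ * u + 85.8 * u ^ 2
  ρ0 : 0 ≤ ρ
  hρ : ρ ≤ Δ + 4.75 * u
  Y1 : Y ≤ 2.022 * (1 - s) * u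
  Y2 : Y ^ 2 ≤ 53.43 * (1 - s) ^ 3 * H * u

theorem FullHyp.z3 (h : FullHyp s u H Y W T N M k ρ P Δ z) : z ≤ 3 * s := by
  rw [h.hz]
  have h1 := h.s0
  have h2 := h.s2
  nlinarith [mul_nonneg h1 h1, mul_nonneg (mul_nonneg h1 h1) (show (0 : ℝ) ≤ 0.2 - s by linarith)]

theorem FullHyp.Hpos (h : FullHyp s u H Y W T N M k ρ P Δ z) : 0 < H := by
  have h1 := h.u0
  have h2 := h.H0
  have : 0 < 987 * u ^ 2 := by positivity
  linarith

theorem FullHyp.delta0 (h : FullHyp s u H Y W T N M k ρ P Δ z) : 0 ≤ Δ := by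
  by_contra hcon
  rw [not_le] at hcon
  have h1 : 0 < (1 - s) ^ 3 := by
    have : 0 < 1 - s := by linarith [h.s2]
    positivity
  have h2 : (1 - s) ^ 3 ≤ 1 := by
    have h3 := h.s0
    have h4 := h.s2
    nlinarith [mul_nonneg h3 (show (0 : ℝ) ≤ 1 - s by linarith), sq_nonneg (1 - s)]
  have h5 := h.hΔ
  nlinarith

/-- the regime `s ≤ 0.048`: bounds which do not depend on `Y` -/
theorem FullHyp.small (h : FullHyp s u H Y W T N M k ρ P Δ z) (hs : s ≤ 0.048) :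
    M ≤ 82.05 * (s * u) + 0.084 * H ∧ P ≤ 60.29 * (s * u) + 0.087 * H ∧ ρ ≤ 0.16 ∧
      H * ρ ≤ 0.16 * H := by
  have hu0 := h.u0
  have hH0 := h.H0
  have hΔ := small_delta h.s0 hs h.hΔ
  have hz := h.z3
  have hu1 := h.u1
  have h1 : z * u ≤ 3 * s * u := mul_le_mul_of_nonneg_right hz hu0.le
  have h2 : Δ * u ≤ 3.3216 * s * u := mul_le_mul_of_nonneg_right hΔ hu0.le
  have hρ : ρ ≤ 0.16 := by
    have := h.hρ
    linarith
  refine ⟨?_, ?_, hρ, ?_⟩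
  · have := h.hM
    nlinarith
  · have := h.hP
    have h3 : 0 ≤ s * u := mul_nonneg h.s0 hu0.le
    nlinarith
  · have := mul_le_mul_of_nonneg_left hρ h.Hpos.le
    linarith

/-- `Y ρ` in the regime `s ≤ 0.048` -/
theorem FullHyp.smallY (h : FullHyp s u H Y W T N M k ρ P Δ z) (hs : s ≤ 0.048) :
    Y * ρ ≤ 6.72 * (s * u) + 0.01 * H := by
  have hu0 := h.u0
  have hΔ := small_delta h.s0 hs h.hΔ
  have h1 : Y ≤ 2.022 * u := by
    have := h.Y1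
    nlinarith [mul_nonneg h.s0 hu0.le]
  have h2 : Y * ρ ≤ 2.022 * u * (3.3216 * s + 4.75 * u) := by
    apply mul_le_mul h1 _ h.ρ0 (by positivity)
    have := h.hρ
    linarith
  have h3 := h.H0
  have h4 : 0 ≤ s * u := mul_nonneg h.s0 hu0.le
  nlinarith

/-- `Y` in the regime `4 H < Y ρ` -/
theorem FullHyp.caseIII (h : FullHyp s u H Y W T N M k ρ P Δ z) (hc : 4 * H < Y * ρ) :
    Y ≤ 40.1 * (s * u) + 0.065 * H := by
  have hu0 := h.u0
  have hH := h.Hpos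
  have hz := h.z3
  have h3 : 0 ≤ (1 - s) ^ 3 := by
    have : 0 ≤ 1 - s := by linarith [h.s2]
    positivity
  have h31 : (1 - s) ^ 3 ≤ 1 := by
    have h3 := h.s0
    have h4 := h.s2
    nlinarith [mul_nonneg h3 (show (0 : ℝ) ≤ 1 - s by linarith), sq_nonneg (1 - s)]
  have hY0 := h.Y0
  have hYpos : 0 < Y := by
    rcases hY0.eq_or_lt with h5 | h5
    · rw [← h5, zero_mul] at hc
      linarith
    · exact h5
  -- 4 H Y ≤ Y ^ 2 ρ
  have h6 : 4 * H * Y ≤ 53.43 * (1 - s) ^ 3 * H * u * ρ := by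
    calc 4 * H * Y ≤ Y * ρ * Y := mul_le_mul_of_nonneg_right hc.le hY0
      _ = Y ^ 2 * ρ := by ring
      _ ≤ 53.43 * (1 - s) ^ 3 * H * u * ρ := mul_le_mul_of_nonneg_right h.Y2 h.ρ0
  have h7 : 4 * Y ≤ 53.43 * (u * ((1 - s) ^ 3 * ρ)) := by
    have : H * (4 * Y) ≤ H * (53.43 * (u * ((1 - s) ^ 3 * ρ))) := by
      calc H * (4 * Y) = 4 * H * Y := by ring
        _ ≤ _ := h6
        _ = _ := by ring
    exact le_of_mul_le_mul_left this hH
  have h8 : (1 - s) ^ 3 * ρ ≤ 3 * s + 4.75 * u := by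
    have h9 : (1 - s) ^ 3 * ρ ≤ (1 - s) ^ 3 * (Δ + 4.75 * u) := mul_le_mul_of_nonneg_left h.hρ h3
    have h10 : (1 - s) ^ 3 * Δ = z := by
      rw [h.hz]
      have := h.hΔ
      linarith [mul_comm (1 + Δ) ((1 - s) ^ 3)]
    have h11 : (1 - s) ^ 3 * (4.75 * u) ≤ 1 * (4.75 * u) :=
      mul_le_mul_of_nonneg_right h31 (by positivity)
    nlinarith
  have h12 : u * ((1 - s) ^ 3 * ρ) ≤ u * (3 * s + 4.75 * u) := mul_le_mul_of_nonneg_left h8 hu0.le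
  have h13 := h.H0
  have h14 : 0 ≤ s * u := mul_nonneg h.s0 hu0.le
  nlinarith

/-- the regime `s ≥ 0.048` -/
theorem FullHyp.large (h : FullHyp s u H Y W T N M k ρ P Δ z) (hs : 0.048 ≤ s) :
    Y ≤ 2.022 * u - 2.022 * (s * u) ∧ Y * ρ ≤ 2.022 * (4.0206 * (s * u) - 0.0414 * u) + 0.01 * H ∧
      P ≤ 18.15 * (5.2248 * (s * u) - 0.0916 * u) + 0.087 * H ∧ ρ ≤ 0.9545 ∧
      H * ρ ≤ 0.9545 * H ∧ M ≤ 82.05 * (s * u) + 0.084 * H := by
  have hu0 := h.u0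
  have hu1 := h.u1
  have hH0 := h.H0
  have h1 := chord_delta hs h.s2 h.hΔ
  have h2 := chord_xdelta hs h.s2 h.hΔ
  have hs2 := h.s2
  have hY : Y ≤ 2.022 * (1 - s) * u := h.Y1
  refine ⟨by linarith, ?_, ?_, ?_, ?_, ?_⟩
  · have h3 : Y * ρ ≤ 2.022 * (1 - s) * u * (Δ + 4.75 * u) := by
      apply mul_le_mul hY h.hρ h.ρ0
      have : 0 ≤ 1 - s := by linarith
      positivity
    have h4 : 2.022 * (1 - s) * u * (Δ + 4.75 * u) =
        2.022 * u * ((1 - s) * Δ) + 2.022 * 4.75 * (1 - s) * u ^ 2 := by ring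
    have h5 : 2.022 * u * ((1 - s) * Δ) ≤ 2.022 * u * (0.1515 + 4.0206 * (s - 0.048)) :=
      mul_le_mul_of_nonneg_left h2 (by positivity)
    have h6 : 2.022 * 4.75 * (1 - s) * u ^ 2 ≤ 9.61 * u ^ 2 := by
      nlinarith [sq_nonneg u]
    nlinarith
  · have := h.hP
    have h3 : Δ * u ≤ (0.1591 + 5.2248 * (s - 0.048)) * u := mul_le_mul_of_nonneg_right h1 hu0.le
    nlinarith
  · have := h.hρ
    linarith
  · have h7 : ρ ≤ 0.9545 := by
      have := h.hρ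
      linarith
    have := mul_le_mul_of_nonneg_left h7 h.Hpos.le
    linarith
  · have hz := h.z3
    have h1 : z * u ≤ 3 * s * u := mul_le_mul_of_nonneg_right hz hu0.le
    have := h.hM
    nlinarith

/-- **First cost of a full slab.** -/
theorem FullHyp.cost1 (h : FullHyp s u H Y W T N M k ρ P Δ z) :
    4.72 * W + 5.4 * T + 4.72 * (P + H) + 5.4 * (Y * ρ + H * ρ) + 10.12 * H ≤
      905 * (s * u) + 50 * H := by
  have hH := h.Hpos
  have hk := h.hk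
  have hsu : 0 ≤ s * u := mul_nonneg h.s0 h.u0.le
  have hWY := h.WY
  have hWM := h.WM
  have hTY := h.TY
  have hTM := h.TM
  rcases le_total s 0.048 with hs | hs
  · obtain ⟨hM, hP, hρ, hHρ⟩ := h.small hs
    rcases le_or_gt (Y * ρ) (4 * H) with hc | hc
    · linarith
    · have hY := h.caseIII hc
      have hY2 := h.smallY hs
      linarith
  · obtain ⟨hY, hYρ, hP, hρ, hHρ, hM⟩ := h.large hs
    have hsu2 : 0.048 * u ≤ s * u := mul_le_mul_of_nonneg_right hs h.u0.le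
    linarith

/-- **Second cost of a full slab.** -/
theorem FullHyp.cost2 (h : FullHyp s u H Y W T N M k ρ P Δ z) :
    1.35 * W + 5.4 * T + 3.37 * N + 4.72 * (P + H) + 5.4 * (Y * ρ + H * ρ) + 10.12 * H ≤
      625 * (s * u) + 70 * H := by
  have hH := h.Hpos
  have hk := h.hk
  have hsu : 0 ≤ s * u := mul_nonneg h.s0 h.u0.le
  have hWY := h.WY
  have hWM := h.WM
  have hTY := h.TY
  have hTM := h.TM
  have hNM := h.NM
  rcases le_total s 0.048 with hs | hs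
  · obtain ⟨hM, hP, hρ, hHρ⟩ := h.small hs
    rcases le_or_gt (Y * ρ) (4 * H) with hc | hc
    · linarith
    · have hY := h.caseIII hc
      have hY2 := h.smallY hs
      linarith
  · obtain ⟨hY, hYρ, hP, hρ, hHρ, hM⟩ := h.large hs
    have hsu2 : 0.048 * u ≤ s * u := mul_le_mul_of_nonneg_right hs h.u0.le
    have hsu3 : s * u ≤ 0.2 * u := mul_le_mul_of_nonneg_right h.s2 h.u0.le
    linarith

end

end Pool.Agent.Moser
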