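import Pool.Agent.Lib_MP_cc07e8_co.EngDefs
import Pool.Agent.Lib_MP_cc07e8_co.EpC

/-!
# Main epoch, part D: windows and the numerical hypotheses (helper60, for MP_cc07e8_co)
-/

namespace Pool.Agent.Moser

open Finset Pool.Agent.Moser.Eng

theorem tau_le (i : ℕ) : (tau i : ℝ) ≤ (i : ℝ) ^ 3 / 27000 := by
  unfold tau
  have h := Nat.div_mul_le_self (i ^ 3) 1728000
  have h2 : ((i ^ 3 / 1728000 * 1728000 : ℕ) : ℝ) ≤ ((i ^ 3 : ℕ) : ℝ) := by exact_mod_cast h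
  push_cast at h2 ⊢
  rw [le_div_iff₀ (by norm_num)]
  linarith

theorem tau_ge (i : ℕ) : (i : ℝ) ^ 3 / 27000 - 64 ≤ (tau i : ℝ) := by
  unfold tau
  have h := Nat.lt_div_mul_add (a := i ^ 3) (b := 1728000) (by norm_num)
  have h2 : ((i ^ 3 : ℕ) : ℝ) < ((i ^ 3 / 1728000 * 1728000 + 1728000 : ℕ) : ℝ) := by
    exact_mod_cast h
  push_cast at h2 ⊢
  rw [sub_le_iff_le_add, div_le_iff₀ (by norm_num)]
  linarith

theorem tau_mono {i j : ℕ} (h : i ≤ j) : tau i ≤ tau j := by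
  unfold tau
  exact Nat.mul_le_mul_left 64 (Nat.div_le_div_right (Nat.pow_le_pow_left h 3))

/-- the window of a number -/
theorem win_exists {g m : ℕ} (h : tau g ≤ m) : ∃ a, g ≤ a ∧ tau a ≤ m ∧ m < tau (a + 1) := by
  classical
  have hex : ∃ i, m < tau (i + 1) := by
    refine ⟨120 * (m + 1) - 1, ?_⟩
    have e : 120 * (m + 1) - 1 + 1 = 120 * (m + 1) := by omega
    rw [e]
    unfold tau
    have e2 : (120 * (m + 1)) ^ 3 = (m + 1) ^ 3 * 1728000 := by ring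
    rw [e2, Nat.mul_div_cancel _ (by norm_num)]
    have : m + 1 ≤ (m + 1) ^ 3 := Nat.le_self_pow (by norm_num) _
    omega
  refine ⟨Nat.find hex, ?_, ?_, Nat.find_spec hex⟩
  · by_contra hcon
    rw [not_le] at hcon
    have h1 := Nat.find_spec hex
    have h2 : tau (Nat.find hex + 1) ≤ tau g := tau_mono hcon
    omega
  · rcases Nat.eq_zero_or_pos (Nat.find hex) with h0 | h0
    · rw [h0]
      have : tau 0 = 0 := by decide
      omega
    · have h1 := Nat.find_min hex (show Nat.find hex - 1 < Nat.find hex by omega)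
      rw [not_lt, Nat.sub_add_cancel h0] at h1
      exact h1

theorem win_le {a b m m' : ℕ} (ha : tau a ≤ m) (hb : m' < tau (b + 1)) (h : m ≤ m') : a ≤ b := by
  by_contra hcon
  rw [not_le] at hcon
  have : tau (b + 1) ≤ tau a := tau_mono hcon
  omega

theorem win_lt {b E m : ℕ} (hb : tau b ≤ m) (hE : m < tau E) : b < E := by
  by_contra hcon
  rw [not_lt] at hcon
  have : tau E ≤ tau b := tau_mono hcon
  omega

section

variable {a b g qa qb K0 H Y N : ℝ}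

/-- the rows of a full slab -/
theorem K0_ge (ha : 10320 ≤ a) (h1 : a ^ 3 / 27000 - 64 ≤ qa) (hK : 990 * qa / a ^ 2 < K0 + 1) :
    0.036569 * a ≤ K0 := by
  have ha0 : 0 < a := by linarith
  have h2 : 990 * (a ^ 3 / 27000 - 64) / a ^ 2 ≤ 990 * qa / a ^ 2 := by
    apply div_le_div_of_nonneg_right _ (by positivity)
    linarith
  have h3 : 990 * (a ^ 3 / 27000 - 64) / a ^ 2 = 990 / 27000 * a - 63360 / a ^ 2 := by
    field_simp
    ring
  have h4 : 63360 / a ^ 2 ≤ 0.0007 := by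
    rw [div_le_iff₀ (by positivity)]
    nlinarith
  nlinarith

theorem qa_le (ha : 10320 ≤ a) (h2 : qa ≤ (a + 1) ^ 3 / 27000) : qa ≤ 0.000037049 * a ^ 3 := by
  refine h2.trans ?_
  rw [div_le_iff₀ (by norm_num)]
  have h3 : (a + 1) ^ 3 ≤ (1.0001 * a) ^ 3 := pow_le_pow_left₀ (by linarith) (by linarith) 3
  have h4 : (1.0001 * a) ^ 3 = 1.0001 ^ 3 * a ^ 3 := by ring
  have h5 : 0 ≤ a ^ 3 := by positivity
  nlinarith

theorem qa_ge (ha : 10320 ≤ a) (h1 : a ^ 3 / 27000 - 64 ≤ qa) : a ^ 2 / 2.7 ≤ qa := by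
  have h3 : a ^ 2 * a ≥ a ^ 2 * 10320 := mul_le_mul_of_nonneg_left ha (by positivity)
  have h4 : a ^ 3 = a ^ 2 * a := by ring
  have h5 : (10320 : ℝ) ^ 2 ≤ a ^ 2 := pow_le_pow_left₀ (by norm_num) ha 2
  rw [div_le_iff₀ (by norm_num)]
  nlinarith

theorem H_ge (ha : 10320 ≤ a) (h1 : a ^ 3 / 27000 - 64 ≤ qa) (hK : 990 * qa / a ^ 2 < K0 + 1) :
    987.3 / a ^ 2 ≤ K0 / qa := by
  have ha0 : 0 < a := by linarith
  have h3 := qa_ge ha h1
  have hq : 0 < qa := lt_of_lt_of_le (by positivity) h3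
  rw [div_le_div_iff₀ (by positivity) hq]
  rw [div_lt_iff₀ (by positivity)] at hK
  rw [div_le_iff₀ (by norm_num)] at h3
  nlinarith

theorem H_le (ha : 10320 ≤ a) (hq : 0 < qa) (hK : K0 ≤ 990 * qa / a ^ 2) :
    K0 / qa ≤ 990 / a ^ 2 := by
  have ha0 : 0 < a := by linarith
  rw [div_le_div_iff₀ hq (by positivity)]
  rw [le_div_iff₀ (by positivity)] at hK
  linarith

theorem k_le (ha : 10320 ≤ a) (h1 : a ^ 3 / 27000 - 64 ≤ qa) (h2 : qa ≤ (a + 1) ^ 3 / 27000)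
    (hK : 990 * qa / a ^ 2 < K0 + 1) : 1 / K0 ^ 2 ≤ 0.77 * (K0 / qa) := by
  have ha0 : 0 < a := by linarith
  have h3 := K0_ge ha h1 hK
  have h4 := qa_le ha h2
  have h5 := qa_ge ha h1
  have hq : 0 < qa := lt_of_lt_of_le (by positivity) h5
  have hK0 : 0 < K0 := lt_of_lt_of_le (by positivity) h3
  rw [← mul_div_assoc, div_le_div_iff₀ (by positivity) hq]
  have h6 : (0.036569 * a) ^ 3 ≤ K0 ^ 3 := pow_le_pow_left₀ (by positivity) h3 3
  have h7 : (0.036569 * a) ^ 3 = 0.036569 ^ 3 * a ^ 3 := by ring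
  have h8 : 0 < a ^ 3 := by positivity
  nlinarith

theorem ratio_ge (ha : 10320 ≤ a) (hab : a ≤ b) (h1 : a ^ 3 / 27000 - 64 ≤ qa)
    (h4 : qb ≤ (b + 1) ^ 3 / 27000) (hqb : 0 < qb) : (a / b) ^ 3 - 3.02 / a ≤ qa / qb := by
  have ha0 : 0 < a := by linarith
  have hb0 : 0 < b := by linarith
  rcases le_or_gt ((a / b) ^ 3 - 3.02 / a) 0 with hneg | hpos
  · have hqa : 0 < qa := lt_of_lt_of_le (by positivity) (qa_ge ha h1)
    exact hneg.trans (by positivity)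
  · rw [le_div_iff₀ hqb]
    have h5 : ((a / b) ^ 3 - 3.02 / a) * qb ≤ ((a / b) ^ 3 - 3.02 / a) * ((b + 1) ^ 3 / 27000) :=
      mul_le_mul_of_nonneg_left h4 hpos.le
    refine h5.trans (le_trans ?_ h1)
    have e1 : ((a / b) ^ 3 - 3.02 / a) * ((b + 1) ^ 3 / 27000) =
        (a ^ 3 + 3 * (a ^ 3 / b) + 3 * (a ^ 3 / b ^ 2) + a ^ 3 / b ^ 3 -
          3.02 * ((b + 1) ^ 3 / a)) / 27000 := by
      field_simp
      ring
    rw [e1, div_le_iff₀ (by norm_num)]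
    have e2 : (a ^ 3 / 27000 - 64) * 27000 = a ^ 3 - 1728000 := by ring
    rw [e2]
    have f1 : a ^ 3 / b ≤ a ^ 2 := by
      rw [div_le_iff₀ hb0]
      have := mul_le_mul_of_nonneg_left hab (show 0 ≤ a ^ 2 by positivity)
      linarith [show a ^ 3 = a ^ 2 * a by ring]
    have f2 : a ^ 3 / b ^ 2 ≤ a := by
      rw [div_le_iff₀ (by positivity)]
      have h6 : a ^ 2 ≤ b ^ 2 := pow_le_pow_left₀ ha0.le hab 2
      have := mul_le_mul_of_nonneg_left h6 ha0.le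
      linarith [show a ^ 3 = a * a ^ 2 by ring]
    have f3 : a ^ 3 / b ^ 3 ≤ 1 := by
      rw [div_le_iff₀ (by positivity), one_mul]
      exact pow_le_pow_left₀ ha0.le hab 3
    have f4 : a ^ 2 ≤ (b + 1) ^ 3 / a := by
      rw [le_div_iff₀ ha0]
      have h7 : a ^ 3 ≤ (b + 1) ^ 3 := pow_le_pow_left₀ ha0.le (by linarith) 3
      linarith [show a ^ 3 = a ^ 2 * a by ring]
    nlinarith

theorem M_le (ha : 10320 ≤ a) (hab : a ≤ b) (h1 : a ^ 3 / 27000 - 64 ≤ qa)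
    (h4 : qb ≤ (b + 1) ^ 3 / 27000) (hqab : qa ≤ qb)
    (hK : 990 * qa / a ^ 2 < K0 + 1) :
    1 / (K0 / qa) * (1 / qa - 1 / qb) ≤ 27.35 * (1 - (a / b) ^ 3) * (1 / a) +
      82.6 * (1 / a) ^ 2 := by
  have ha0 : 0 < a := by linarith
  have hb0 : 0 < b := by linarith
  have hqa : 0 < qa := lt_of_lt_of_le (by positivity) (qa_ge ha h1)
  have hqb : 0 < qb := by linarith
  have h3 := K0_ge ha h1 hK
  have hK0 : 0 < K0 := lt_of_lt_of_le (by positivity) h3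
  have h5 := ratio_ge ha hab h1 h4 hqb
  have e : 1 / (K0 / qa) * (1 / qa - 1 / qb) = 1 / K0 * (1 - qa / qb) := by
    field_simp
  rw [e]
  have h6 : 1 / K0 ≤ 27.346 * (1 / a) := by
    rw [mul_one_div, div_le_div_iff₀ hK0 ha0]
    nlinarith
  have h7 : 0 ≤ 1 - qa / qb := by
    have : qa / qb ≤ 1 := (div_le_one hqb).2 hqab
    linarith
  have h8 : (a / b) ^ 3 ≤ 1 := by
    have : a / b ≤ 1 := (div_le_one hb0).2 hab
    exact pow_le_one₀ (by positivity) this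
  calc 1 / K0 * (1 - qa / qb) ≤ 27.346 * (1 / a) * (1 - qa / qb) :=
        mul_le_mul_of_nonneg_right h6 h7
    _ ≤ 27.346 * (1 / a) * (1 - (a / b) ^ 3 + 3.02 * (1 / a)) := by
        apply mul_le_mul_of_nonneg_left _ (by positivity)
        have : 3.02 / a = 3.02 * (1 / a) := by ring
        linarith
    _ ≤ _ := by
        have hu : 0 < 1 / a := by positivity
        have h9 : 0 ≤ (1 - (a / b) ^ 3) * (1 / a) := mul_nonneg (by linarith) hu.le
        nlinarith [sq_nonneg (1 / a)]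

theorem P_le (ha : 10320 ≤ a) (hab : a ≤ b) (hb : b ≤ 1.25 * a)
    (h1 : a ^ 3 / 27000 - 64 ≤ qa) (h4 : qb ≤ (b + 1) ^ 3 / 27000) (hqab : qa ≤ qb)
    (hH0 : 0 ≤ H) (hH : H ≤ 990 / a ^ 2) :
    H ^ 2 / 2 * (qb - qa) ≤ 18.15 * ((b / a) ^ 3 - 1) * (1 / a) + 85.8 * (1 / a) ^ 2 := by
  have ha0 : 0 < a := by linarith
  have hb0 : 0 < b := by linarith
  have h5 : H ^ 2 / 2 ≤ 490050 / a ^ 4 := by
    have h6 : H ^ 2 ≤ (990 / a ^ 2) ^ 2 := pow_le_pow_left₀ hH0 hH 2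
    have h7 : (990 / a ^ 2) ^ 2 = 980100 / a ^ 4 := by
      field_simp
      ring
    rw [h7] at h6
    have h8 : (490050 : ℝ) / a ^ 4 = 980100 / a ^ 4 / 2 := by ring
    rw [h8]
    linarith
  have h9 : qb - qa ≤ ((b + 1) ^ 3 - a ^ 3) / 27000 + 64 := by
    have : ((b + 1) ^ 3 - a ^ 3) / 27000 + 64 = (b + 1) ^ 3 / 27000 - (a ^ 3 / 27000 - 64) := by
      ring
    linarith
  have h10 : (b + 1) ^ 3 ≤ b ^ 3 + 4.6875 * a ^ 2 + 3.76 * a := by
    nlinarith [mul_nonneg (show 0 ≤ 1.25 * a - b by linarith) (show 0 ≤ 1.25 * a + b by linarith)]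
  calc H ^ 2 / 2 * (qb - qa) ≤ 490050 / a ^ 4 * (qb - qa) :=
        mul_le_mul_of_nonneg_right h5 (by linarith)
    _ ≤ 490050 / a ^ 4 * ((b ^ 3 + 4.6875 * a ^ 2 + 3.76 * a - a ^ 3) / 27000 + 64) := by
        apply mul_le_mul_of_nonneg_left _ (by positivity)
        linarith
    _ = 18.15 * ((b / a) ^ 3 - 1) * (1 / a) + (85.078125 + 68.244 / a + 31363200 / a ^ 2) *
          (1 / a) ^ 2 := by
        field_simp
        ring
    _ ≤ _ := by
        have h11 : 68.244 / a ≤ 0.1 := by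
          rw [div_le_iff₀ ha0]
          linarith
        have h12 : 31363200 / a ^ 2 ≤ 0.3 := by
          rw [div_le_iff₀ (by positivity)]
          nlinarith
        have h13 : (85.078125 + 68.244 / a + 31363200 / a ^ 2) * (1 / a) ^ 2 ≤
            85.8 * (1 / a) ^ 2 := by
          apply mul_le_mul_of_nonneg_right _ (by positivity)
          linarith
        linarith

theorem rho_le (ha : 10320 ≤ a) (hab : a ≤ b) (hb : b ≤ 1.25 * a)
    (h1 : a ^ 3 / 27000 - 64 ≤ qa) (h4 : qb ≤ (b + 1) ^ 3 / 27000) :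
    qb / qa - 1 ≤ (b / a) ^ 3 - 1 + 4.75 * (1 / a) := by
  have ha0 : 0 < a := by linarith
  have hb0 : 0 < b := by linarith
  have hqa : 0 < qa := lt_of_lt_of_le (by positivity) (qa_ge ha h1)
  have h5 : qb / qa ≤ (b / a) ^ 3 + 4.75 * (1 / a) := by
    rw [div_le_iff₀ hqa]
    refine h4.trans ?_
    have h6 : ((b / a) ^ 3 + 4.75 * (1 / a)) * (a ^ 3 / 27000 - 64) ≤
        ((b / a) ^ 3 + 4.75 * (1 / a)) * qa := mul_le_mul_of_nonneg_left h1 (by positivity)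
    refine le_trans ?_ h6
    have e : ((b / a) ^ 3 + 4.75 * (1 / a)) * (a ^ 3 / 27000 - 64) =
        (b ^ 3 + 4.75 * a ^ 2 - 1728000 * ((b / a) ^ 3) - 8208000 * (1 / a)) / 27000 := by
      field_simp
      ring
    rw [e]
    apply div_le_div_of_nonneg_right _ (by norm_num)
    have h7 : (b / a) ^ 3 ≤ 1.25 ^ 3 := by
      apply pow_le_pow_left₀ (by positivity)
      rw [div_le_iff₀ ha0]
      exact hb
    have h8 : 1 / a ≤ 1 / 10320 := one_div_le_one_div_of_le (by norm_num) ha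
    nlinarith [mul_nonneg (show 0 ≤ 1.25 * a - b by linarith) (show 0 ≤ 1.25 * a + b by linarith)]
  linarith

theorem Ysq_le (hg : 10320 ≤ g) (hN : g ^ 3 / 27000 - 64 ≤ N) (hY : Y ^ 2 * (N - 1) ≤ 1) :
    Y ^ 2 ≤ 27001 / g ^ 3 := by
  have hg0 : 0 < g := by linarith
  have h5 : (10320 : ℝ) ^ 3 ≤ g ^ 3 := pow_le_pow_left₀ (by norm_num) hg 3
  have h6 : g ^ 3 / 27001 ≤ N - 1 := by
    have : g ^ 3 / 27000 - g ^ 3 / 27001 = g ^ 3 / (27000 * 27001) := by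
      field_simp
      ring
    have h7 : 65 ≤ g ^ 3 / (27000 * 27001) := by
      rw [le_div_iff₀ (by norm_num)]
      norm_num at h5 ⊢
      linarith
    linarith
  rw [le_div_iff₀ (by positivity)]
  have h8 : Y ^ 2 * (g ^ 3 / 27001) ≤ Y ^ 2 * (N - 1) := mul_le_mul_of_nonneg_left h6 (sq_nonneg Y)
  have h9 : Y ^ 2 * (g ^ 3 / 27001) = Y ^ 2 * g ^ 3 / 27001 := by ring
  rw [h9] at h8
  have h10 : Y ^ 2 * g ^ 3 / 27001 ≤ 1 := h8.trans hY
  rw [div_le_one (by norm_num)] at h10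
  exact h10

/-- **The hypotheses of the cost estimates.** -/
theorem fullHyp_of {W T Nn : ℝ} (hg : 10320 ≤ g) (hga : g ≤ a) (hab : a ≤ b) (hbg : b ≤ 1.25 * g)
    (h1 : a ^ 3 / 27000 - 64 ≤ qa) (h2 : qa ≤ (a + 1) ^ 3 / 27000)
    (h4 : qb ≤ (b + 1) ^ 3 / 27000) (hqab : qa ≤ qb)
    (hK1 : K0 ≤ 990 * qa / a ^ 2) (hK2 : 990 * qa / a ^ 2 < K0 + 1)
    (hN : g ^ 3 / 27000 - 64 ≤ N) (hY0 : 0 ≤ Y) (hY : Y ^ 2 * (N - 1) ≤ 1)
    (hWY : W ≤ Y) (hWM : W ≤ 1 / (K0 / qa) * (1 / qa - 1 / qb) + 1.01 / K0 ^ 2 +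
      K0 / qa * (qb / qa - 1))
    (hTY : T ≤ W + K0 / qa * (qb / qa - 1))
    (hTM : T ≤ 1 / 2 * (1 / (K0 / qa) * (1 / qa - 1 / qb) + 1.01 / K0 ^ 2) +
      2 * (K0 / qa * (qb / qa - 1)))
    (hNM : Nn ≤ 0.0161 * (1 / (K0 / qa) * (1 / qa - 1 / qb) + 1.01 / K0 ^ 2) +
      2 * (K0 / qa * (qb / qa - 1)) + (K0 / qa) / K0) :
    FullHyp (1 - a / b) (1 / a) (K0 / qa) Y W T Nn (1 / (K0 / qa) * (1 / qa - 1 / qb)) (1 / K0 ^ 2)
      (qb / qa - 1) ((K0 / qa) ^ 2 / 2 * (qb - qa)) ((b / a) ^ 3 - 1) (1 - (a / b) ^ 3) := by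
  have ha : 10320 ≤ a := by linarith
  have ha0 : 0 < a := by linarith
  have hb0 : 0 < b := by linarith
  have hb : b ≤ 1.25 * a := by linarith
  have hqa : 0 < qa := lt_of_lt_of_le (by positivity) (qa_ge ha h1)
  have hqb : 0 < qb := by linarith
  have hK0a := K0_ge ha h1 hK2
  have hK0 : 0 < K0 := lt_of_lt_of_le (by positivity) hK0a
  have hHge := H_ge ha h1 hK2
  have hHle := H_le ha hqa hK1
  have hHp : 0 < K0 / qa := by positivity
  have e1 : 1 - (1 - a / b) = a / b := by ring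
  have e2 : 1.01 / K0 ^ 2 = 1.01 * (1 / K0 ^ 2) := by ring
  have hYs := Ysq_le hg hN hY
  have e3 : (a / b) * (1 / a) = 1 / b := by
    field_simp
  refine
    { s0 := ?_, s2 := ?_, u0 := by positivity, u1 := one_div_le_one_div_of_le (by norm_num) ha,
      H0 := ?_, Y0 := hY0, WY := hWY, WM := by rw [← e2]; exact hWM, TY := by linarith,
      TM := by rw [← e2]; exact hTM, NM := ?_, hk := k_le ha h1 h2 hK2,
      hM := M_le ha hab h1 h4 hqab hK2, hz := by rw [e1], hΔ := ?_,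
      hP := P_le ha hab hb h1 h4 hqab hHp.le hHle, ρ0 := ?_, hρ := rho_le ha hab hb h1 h4,
      Y1 := ?_, Y2 := ?_ }
  · have : a / b ≤ 1 := (div_le_one hb0).2 hab
    linarith
  · have : 0.8 ≤ a / b := by
      rw [le_div_iff₀ hb0]
      linarith
    linarith
  · refine le_trans ?_ hHge
    rw [one_div, inv_pow, ← div_eq_mul_inv]
    apply div_le_div_of_nonneg_right _ (by positivity)
    norm_num
  · rw [← e2]
    refine hNM.trans ?_
    have h5 : (370 : ℝ) ≤ K0 := by linarith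
    have h6 : (K0 / qa) / K0 ≤ (K0 / qa) / 370 := div_le_div_of_nonneg_left hHp.le (by norm_num) h5
    linarith
  · rw [e1]
    field_simp
    ring
  · have : 1 ≤ qb / qa := (one_le_div hqa).2 hqab
    linarith
  · rw [e1, mul_assoc, e3, mul_one_div, le_div_iff₀ hb0]
    by_contra hcon
    rw [not_le] at hcon
    have h5 : (2.022 : ℝ) ^ 2 < (Y * b) ^ 2 := pow_lt_pow_left₀ hcon (by norm_num) (by norm_num)
    have h6 : (Y * b) ^ 2 ≤ 27001 / g ^ 3 * (1.25 * g) ^ 2 := by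
      rw [mul_pow]
      apply mul_le_mul hYs _ (by positivity) (by positivity)
      exact pow_le_pow_left₀ hb0.le hbg 2
    have h7 : 27001 / g ^ 3 * (1.25 * g) ^ 2 = 27001 * 1.5625 / g := by
      have : g ≠ 0 := by linarith
      field_simp
      ring
    have h8 : 27001 * 1.5625 / g ≤ 27001 * 1.5625 / 10320 :=
      div_le_div_of_nonneg_left (by norm_num) (by norm_num) hg
    rw [h7] at h6
    have h9 := h5.trans_le (h6.trans h8)
    norm_num at h9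
  · rw [e1]
    have h5 : 27001 / g ^ 3 ≤ 52751 / b ^ 3 := by
      rw [div_le_div_iff₀ (by positivity) (by positivity)]
      have h6 : b ^ 3 ≤ (1.25 * g) ^ 3 := pow_le_pow_left₀ hb0.le hbg 3
      have h7 : (1.25 * g) ^ 3 = 1.953125 * g ^ 3 := by ring
      have h8 : 0 < g ^ 3 := by positivity
      nlinarith
    have h6 : 53.43 * (a / b) ^ 3 * (987.3 / a ^ 2) * (1 / a) ≤
        53.43 * (a / b) ^ 3 * (K0 / qa) * (1 / a) := by
      apply mul_le_mul_of_nonneg_right _ (by positivity)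
      exact mul_le_mul_of_nonneg_left hHge (by positivity)
    have h7 : 53.43 * (a / b) ^ 3 * (987.3 / a ^ 2) * (1 / a) = 53.43 * 987.3 / b ^ 3 := by
      field_simp
    have h8 : 52751 / b ^ 3 ≤ 53.43 * 987.3 / b ^ 3 := by
      apply div_le_div_of_nonneg_right _ (by positivity)
      norm_num
    linarith

end

theorem tauE_le {g E : ℕ} (hE : (E : ℝ) ≤ 1.25 * g) :
    (tau E : ℝ) ≤ 1.953125 * (g : ℝ) ^ 3 / 27000 := by
  refine (tau_le E).trans ?_
  apply div_le_div_of_nonneg_right _ (by norm_num)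
  have h1 : (E : ℝ) ^ 3 ≤ (1.25 * (g : ℝ)) ^ 3 := pow_le_pow_left₀ (Nat.cast_nonneg _) hE 3
  have h2 : (1.25 * (g : ℝ)) ^ 3 = 1.953125 * (g : ℝ) ^ 3 := by ring
  linarith

end Pool.Agent.Moser
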