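import Mathlib

/-!
# Sums over multisets of rectangles (helper60, for MP_cc07e8_co)
-/

namespace Pool.Agent.Moser

open Finset

/-- sum of `f` over a multiset of rectangles -/
noncomputable def msum (f : ℝ × ℝ → ℝ) (ρ : Multiset (ℝ × ℝ)) : ℝ := (ρ.map f).sum

@[simp] theorem msum_zero (f : ℝ × ℝ → ℝ) : msum f 0 = 0 := by simp [msum]

@[simp] theorem msum_add (f : ℝ × ℝ → ℝ) (ρ σ : Multiset (ℝ × ℝ)) :
    msum f (ρ + σ) = msum f ρ + msum f σ := by simp [msum]

@[simp] theorem msum_singleton (f : ℝ × ℝ → ℝ) (r : ℝ × ℝ) : msum f {r} = f r := by simp [msum]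

noncomputable def msumHom (f : ℝ × ℝ → ℝ) : Multiset (ℝ × ℝ) →+ ℝ :=
  ⟨⟨msum f, msum_zero f⟩, msum_add f⟩

theorem msum_sum (f : ℝ × ℝ → ℝ) {ι : Type} (s : Finset ι) (g : ι → Multiset (ℝ × ℝ)) :
    msum f (∑ i ∈ s, g i) = ∑ i ∈ s, msum f (g i) := map_sum (msumHom f) g s

/-- a sum of singletons -/
theorem gch_sum_aux {q : ℕ → ℕ} (n : ℕ) : ∑ x ∈ range n, ({q x} : Multiset ℕ) = (range n).val.map q := by
  rw [Finset.sum_eq_multiset_sum]
  have : (range n).val.map (fun x => ({q x} : Multiset ℕ)) =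
      ((range n).val.map q).map (fun x => ({x} : Multiset ℕ)) := by
    rw [Multiset.map_map]
    rfl
  rw [this, Multiset.sum_map_singleton]

end Pool.Agent.Moser
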