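import Pool.Agent.Lib_MP_cc07e8_co.Geo
import Pool.Agent.Lib_MP_cc07e8_co.Msum

/-!
# Main epoch: the two costs (helper60, for MP_cc07e8_co)
-/

namespace Pool.Agent.Moser

open Finset

/-- first cost -/
noncomputable def c1 (r : ℝ × ℝ) : ℝ := 4.72 * max r.1 r.2 + 5.4 * min r.1 r.2

open Classical in
/-- second cost (for the threshold `t`) -/
noncomputable def c2 (t : ℝ) (r : ℝ × ℝ) : ℝ :=
  (if min r.1 r.2 * t ≤ 16.1 then 4.72 else 1.35) * max r.1 r.2 + 5.4 * min r.1 r.2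

theorem c1_le (a b : ℝ) : c1 (a, b) ≤ 4.72 * b + 5.4 * a := by
  unfold c1
  show 4.72 * max a b + 5.4 * min a b ≤ 4.72 * b + 5.4 * a
  rcases le_total a b with h | h
  · rw [max_eq_right h, min_eq_left h]
  · rw [max_eq_left h, min_eq_right h]
    linarith

theorem c1_le' (a b : ℝ) : c1 (a, b) ≤ 4.72 * a + 5.4 * b := by
  unfold c1
  show 4.72 * max a b + 5.4 * min a b ≤ 4.72 * a + 5.4 * b
  rcases le_total a b with h | h
  · rw [max_eq_right h, min_eq_left h]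
    linarith
  · rw [max_eq_left h, min_eq_right h]

theorem c2_le_c1 {t : ℝ} {r : ℝ × ℝ} (h1 : 0 ≤ r.1) (_ : 0 ≤ r.2) : c2 t r ≤ c1 r := by
  unfold c2 c1
  have h3 : 0 ≤ max r.1 r.2 := le_max_of_le_left h1
  split_ifs
  · exact le_rfl
  · linarith

theorem c1_nonneg {r : ℝ × ℝ} (h1 : 0 ≤ r.1) (h2 : 0 ≤ r.2) : 0 ≤ c1 r := by
  unfold c1
  have h3 : 0 ≤ max r.1 r.2 := le_max_of_le_left h1
  have h4 := le_min h1 h2
  linarith

theorem c2_nonneg {t : ℝ} {r : ℝ × ℝ} (h1 : 0 ≤ r.1) (h2 : 0 ≤ r.2) : 0 ≤ c2 t r := by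
  unfold c2
  have h3 : 0 ≤ max r.1 r.2 := le_max_of_le_left h1
  have h4 := le_min h1 h2
  split_ifs
  · linarith
  · linarith

/-- monotonicity of sums over multisets -/
theorem msum_le {f g : ℝ × ℝ → ℝ} {ρ : Multiset (ℝ × ℝ)} (h : ∀ r ∈ ρ, f r ≤ g r) :
    msum f ρ ≤ msum g ρ := by
  unfold msum
  exact Multiset.sum_map_le_sum_map f g h

theorem msum_lin (a b : ℝ) (ρ : Multiset (ℝ × ℝ)) :
    msum (fun r => a * r.2 + b * r.1) ρ = a * msum Prod.snd ρ + b * msum Prod.fst ρ := by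
  unfold msum
  rw [Multiset.sum_map_add, Multiset.sum_map_mul_left, Multiset.sum_map_mul_left]

theorem msum_nsmul (f : ℝ × ℝ → ℝ) (n : ℕ) (ρ : Multiset (ℝ × ℝ)) :
    msum f (n • ρ) = n * msum f ρ := by
  unfold msum
  rw [Multiset.map_nsmul, Multiset.sum_nsmul, nsmul_eq_mul]

theorem c1_small (Sm : Multiset (ℝ × ℝ)) :
    msum c1 Sm ≤ 4.72 * msum Prod.snd Sm + 5.4 * msum Prod.fst Sm := by
  rw [← msum_lin]
  exact msum_le fun r _ => c1_le r.1 r.2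

theorem c2_msum_le {t : ℝ} {ρ : Multiset (ℝ × ℝ)} (h : ∀ r ∈ ρ, 0 ≤ r.1 ∧ 0 ≤ r.2) :
    msum (c2 t) ρ ≤ msum c1 ρ := msum_le fun r hr => c2_le_c1 (h r hr).1 (h r hr).2

/-- area against cost -/
theorem area_le_c1 {N : ℝ} (hN : 0 < N) {ρ : Multiset (ℝ × ℝ)}
    (h : ∀ r ∈ ρ, 0 ≤ r.1 ∧ 0 ≤ r.2 ∧ min r.1 r.2 ≤ 1 / N) :
    area ρ ≤ msum c1 ρ / (4.72 * N) := by
  have h1 : area ρ ≤ msum (fun r => c1 r * (1 / (4.72 * N))) ρ := by
    unfold area
    apply Multiset.sum_map_le_sum_map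
    intro r hr
    obtain ⟨ha, hb, hm⟩ := h r hr
    have h3 : 0 ≤ max r.1 r.2 := le_max_of_le_left ha
    have h4 := le_min ha hb
    have h5 : r.1 * r.2 = max r.1 r.2 * min r.1 r.2 := (max_mul_min r.1 r.2).symm
    show r.1 * r.2 ≤ c1 r * (1 / (4.72 * N))
    rw [h5]
    have h6 : max r.1 r.2 * min r.1 r.2 ≤ max r.1 r.2 * (1 / N) :=
      mul_le_mul_of_nonneg_left hm h3
    refine h6.trans ?_
    have h7 : 1 / (4.72 * N) = 1 / N / 4.72 := by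
      field_simp
    rw [h7]
    have h8 : 0 < 1 / N := by positivity
    unfold c1
    have h9 : (4.72 * max r.1 r.2 + 5.4 * min r.1 r.2) * (1 / N / 4.72) =
        max r.1 r.2 * (1 / N) + 5.4 / 4.72 * (min r.1 r.2 * (1 / N)) := by ring
    rw [h9]
    have h10 : 0 ≤ min r.1 r.2 * (1 / N) := mul_nonneg h4 h8.le
    linarith
  refine h1.trans (le_of_eq ?_)
  unfold msum
  rw [Multiset.sum_map_mul_right]
  ring

end Pool.Agent.Moser
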