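import Mathlib

/-!
# Main epoch, part L: the mixed chain of columns of the last slab (helper86, for MP_cc07e8_co)

`q` strictly increasing; column starts `s 0 = 0 < s 1 < ..`; column `i` has `⌊h q (s i)⌋` rows for
`i ≥ m` and `⌊h' q (s i)⌋` rows for `i < m`, `h' ≤ h`.
-/

namespace Pool.Agent.Moser

open Finset

/-- mixed chain -/
noncomputable def mch (q : ℕ → ℕ) (h' h : ℝ) (m : ℕ) : ℕ → ℕ
  | 0 => 0
  | i + 1 => mch q h' h m i + ⌊(if i < m then h' else h) * (q (mch q h' h m i) : ℝ)⌋₊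

/-- width of a column start -/
noncomputable def mw (q : ℕ → ℕ) (n s : ℕ) : ℝ := if s < n then 1 / (q s : ℝ) else 0

/-- total width -/
noncomputable def mW (q : ℕ → ℕ) (n : ℕ) (h' h : ℝ) (m : ℕ) : ℝ :=
  ∑ i ∈ range n, mw q n (mch q h' h m i)

section

variable {q : ℕ → ℕ} {h' h : ℝ} {n m : ℕ}

theorem mstep_mono (hq : StrictMono q) {x y : ℝ} (hx : 0 ≤ x) (hxy : x ≤ y) {s t : ℕ}
    (hst : s ≤ t) : s + ⌊x * (q s : ℝ)⌋₊ ≤ t + ⌊y * (q t : ℝ)⌋₊ := by
  apply Nat.add_le_add hst
  apply Nat.floor_le_floor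
  apply mul_le_mul hxy _ (Nat.cast_nonneg _) (hx.trans hxy)
  exact_mod_cast hq.monotone hst

theorem mrows_pos (hq : StrictMono q) (h0 : 0 < q 0) {x : ℝ} (hx : 1 / (q 0 : ℝ) ≤ x) (s : ℕ) :
    1 ≤ ⌊x * (q s : ℝ)⌋₊ := by
  apply Nat.le_floor
  have h1 : (0 : ℝ) < q 0 := by exact_mod_cast h0
  have h2 : (q 0 : ℝ) ≤ q s := by exact_mod_cast hq.monotone (Nat.zero_le s)
  push_cast
  rw [div_le_iff₀ h1] at hx
  have : 0 < x := by
    by_contra hcon
    rw [not_lt] at hcon
    nlinarith
  nlinarith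

theorem mch_lt (hq : StrictMono q) (h0 : 0 < q 0) (hh' : 1 / (q 0 : ℝ) ≤ h') (hh : h' ≤ h)
    (i : ℕ) : mch q h' h m i < mch q h' h m (i + 1) := by
  show mch q h' h m i < mch q h' h m i + ⌊(if i < m then h' else h) * (q (mch q h' h m i) : ℝ)⌋₊
  have : 1 ≤ ⌊(if i < m then h' else h) * (q (mch q h' h m i) : ℝ)⌋₊ := by
    apply mrows_pos hq h0
    split_ifs
    · exact hh'
    · exact hh'.trans hh
  omega

theorem mch_ge (hq : StrictMono q) (h0 : 0 < q 0) (hh' : 1 / (q 0 : ℝ) ≤ h') (hh : h' ≤ h)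
    (i : ℕ) : i ≤ mch q h' h m i := by
  induction i with
  | zero => exact Nat.zero_le _
  | succ i ih =>
    have := mch_lt (m := m) hq h0 hh' hh i
    omega

/-- the chains for `m` and `m + 1` agree up to `m` -/
theorem mch_agree {i : ℕ} (hi : i ≤ m) : mch q h' h (m + 1) i = mch q h' h m i := by
  induction i with
  | zero => rfl
  | succ i ih =>
    have h1 := ih (by omega)
    show mch q h' h (m + 1) i + ⌊(if i < m + 1 then h' else h) * (q (mch q h' h (m + 1) i) : ℝ)⌋₊ =
      mch q h' h m i + ⌊(if i < m then h' else h) * (q (mch q h' h m i) : ℝ)⌋₊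
    rw [h1, if_pos (show i < m + 1 by omega), if_pos (show i < m by omega)]

/-- interleaving -/
theorem mch_inter (hq : StrictMono q) (h0 : 0 < q 0) (hh' : 1 / (q 0 : ℝ) ≤ h') (hh : h' ≤ h)
    {i : ℕ} (hi : m ≤ i) : mch q h' h m i ≤ mch q h' h (m + 1) (i + 1) := by
  have hpos : 0 ≤ h' := le_trans (by positivity) hh'
  induction i, hi using Nat.le_induction with
  | base =>
    rw [← mch_agree (le_refl m)]
    exact (mch_lt hq h0 hh' hh m).le
  | succ i hi ih =>
    show mch q h' h m i + ⌊(if i < m then h' else h) * (q (mch q h' h m i) : ℝ)⌋₊ ≤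
      mch q h' h (m + 1) (i + 1) +
        ⌊(if i + 1 < m + 1 then h' else h) * (q (mch q h' h (m + 1) (i + 1)) : ℝ)⌋₊
    rw [if_neg (show ¬ i < m by omega), if_neg (show ¬ i + 1 < m + 1 by omega)]
    exact mstep_mono hq (hpos.trans hh) le_rfl ih

theorem mw_anti (hq : StrictMono q) (h0 : 0 < q 0) {s t : ℕ} (hst : s ≤ t) :
    mw q n t ≤ mw q n s := by
  unfold mw
  have hs : (0 : ℝ) < q s := by exact_mod_cast lt_of_lt_of_le h0 (hq.monotone (Nat.zero_le s))
  split_ifs with h1 h2 h2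
  · apply one_div_le_one_div_of_le hs
    exact_mod_cast hq.monotone hst
  · omega
  · positivity
  · exact le_rfl

theorem mw_nonneg (s : ℕ) : 0 ≤ mw q n s := by
  unfold mw
  split_ifs
  · positivity
  · exact le_rfl

theorem mw_le (hq : StrictMono q) (h0 : 0 < q 0) (s : ℕ) : mw q n s ≤ 1 / (q 0 : ℝ) := by
  unfold mw
  have hs : (0 : ℝ) < q 0 := by exact_mod_cast h0
  split_ifs with h1
  · apply one_div_le_one_div_of_le hs
    exact_mod_cast hq.monotone (Nat.zero_le s)
  · positivity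

/-- one more low column costs at most one width -/
theorem mW_succ_le (hq : StrictMono q) (h0 : 0 < q 0) (hh' : 1 / (q 0 : ℝ) ≤ h') (hh : h' ≤ h)
    (n m : ℕ) : mW q n h' h (m + 1) ≤ mW q n h' h m + 1 / (q 0 : ℝ) := by
  unfold mW
  have key : ∀ N : ℕ, ∑ i ∈ range N, mw q n (mch q h' h (m + 1) i) ≤
      ∑ i ∈ range N, mw q n (mch q h' h m i) + (if m < N then mw q n (mch q h' h m m) else 0) -
        (if m < N then mw q n (mch q h' h m (N - 1)) else 0) := by
    intro N
    induction N with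
    | zero => simp
    | succ N ih =>
      rw [Finset.sum_range_succ, Finset.sum_range_succ]
      rcases lt_trichotomy m N with h1 | h1 | h1
      · rw [if_pos h1, if_pos h1] at ih
        rw [if_pos (show m < N + 1 by omega), if_pos (show m < N + 1 by omega),
          Nat.add_sub_cancel]
        have h2 : mw q n (mch q h' h (m + 1) N) ≤ mw q n (mch q h' h m (N - 1)) := by
          apply mw_anti hq h0
          have := mch_inter (m := m) hq h0 hh' hh (show m ≤ N - 1 by omega)
          rwa [Nat.sub_add_cancel (show 1 ≤ N by omega)] at this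
        linarith
      · subst h1
        rw [if_neg (lt_irrefl m), if_neg (lt_irrefl m)] at ih
        rw [if_pos (Nat.lt_succ_self m), if_pos (Nat.lt_succ_self m), Nat.add_sub_cancel,
          mch_agree le_rfl]
        linarith
      · rw [if_neg (show ¬ m < N by omega), if_neg (show ¬ m < N by omega)] at ih
        rcases Nat.eq_or_lt_of_le (show N + 1 ≤ m by omega) with h2 | h2
        · rw [if_neg (show ¬ m < N + 1 by omega), if_neg (show ¬ m < N + 1 by omega),
            mch_agree (show N ≤ m by omega)]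
          linarith
        · rw [if_neg (show ¬ m < N + 1 by omega), if_neg (show ¬ m < N + 1 by omega),
            mch_agree (show N ≤ m by omega)]
          linarith
  have h1 := key n
  have h2 : (if m < n then mw q n (mch q h' h m m) else 0) ≤ 1 / (q 0 : ℝ) := by
    split_ifs
    · exact mw_le hq h0 _
    · positivity
  have h3 : 0 ≤ (if m < n then mw q n (mch q h' h m (n - 1)) else 0) := by
    split_ifs
    · exact mw_nonneg _
    · exact le_rfl
  linarith

theorem mch_eq_of_ge {i m : ℕ} (hi : i ≤ m) : mch q h' h m i = mch q h' h' 0 i := by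
  induction i with
  | zero => rfl
  | succ i ih =>
    have h1 := ih (by omega)
    show mch q h' h m i + ⌊(if i < m then h' else h) * (q (mch q h' h m i) : ℝ)⌋₊ =
      mch q h' h' 0 i + ⌊(if i < 0 then h' else h') * (q (mch q h' h' 0 i) : ℝ)⌋₊
    rw [h1, if_pos (show i < m by omega), ite_self]

theorem mch_zero_left (a b : ℝ) (i : ℕ) : mch q a h 0 i = mch q b h 0 i := by
  induction i with
  | zero => rfl
  | succ i ih =>
    show mch q a h 0 i + ⌊(if i < 0 then a else h) * (q (mch q a h 0 i) : ℝ)⌋₊ =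
      mch q b h 0 i + ⌊(if i < 0 then b else h) * (q (mch q b h 0 i) : ℝ)⌋₊
    rw [ih, if_neg (Nat.not_lt_zero i), if_neg (Nat.not_lt_zero i)]

end

/-- **The mixed chain.**  If all squares `q 0, .., q (n - 1)` fit with height `H` into the width `Y`,
there is a chain with height `h ≤ H` of width `> Y - 1 / q 0`, or `h = 1 / q 0`. -/
theorem mixed_chain {q : ℕ → ℕ} (hq : StrictMono q) (h0 : 0 < q 0) {n : ℕ} (hn : 1 ≤ n)
    {H Y : ℝ} (hH : 1 / (q 0 : ℝ) ≤ H) (hfit : mW q n H H 0 ≤ Y) :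
    ∃ (h : ℝ) (s : ℕ → ℕ) (l : ℕ), 1 / (q 0 : ℝ) ≤ h ∧ h ≤ H ∧ s 0 = 0 ∧
      (∀ i, s i < s (i + 1)) ∧ s l < n ∧ n ≤ s (l + 1) ∧
      (∀ i, s (i + 1) - s i ≤ s (i + 2) - s (i + 1)) ∧
      (∀ i, ((s (i + 1) - s i : ℕ) : ℝ) ≤ h * (q (s i) : ℝ)) ∧
      (∀ i ≤ l, h * (q (s i) : ℝ) < ((s (i + 1) - s i : ℕ) : ℝ) + 1.01) ∧
      ∑ i ∈ range (l + 1), 1 / (q (s i) : ℝ) ≤ Y ∧
      (Y < ∑ i ∈ range (l + 1), 1 / (q (s i) : ℝ) + 1 / (q 0 : ℝ) ∨ h = 1 / (q 0 : ℝ)) := by
  classical
  have hq0 : (0 : ℝ) < q 0 := by exact_mod_cast h0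
  have hqn : (0 : ℝ) < q n := by exact_mod_cast lt_of_lt_of_le h0 (hq.monotone (Nat.zero_le n))
  -- the grid
  obtain ⟨J, hJ⟩ := exists_nat_gt (100 * (H - 1 / (q 0 : ℝ)) * (q n : ℝ))
  have hJ0 : (0 : ℝ) ≤ 100 * (H - 1 / (q 0 : ℝ)) * (q n : ℝ) := by
    have : 0 ≤ H - 1 / (q 0 : ℝ) := by linarith
    positivity
  have hJpos : (0 : ℝ) < J := lt_of_le_of_lt hJ0 hJ
  set η : ℝ := (H - 1 / (q 0 : ℝ)) / J with hη
  have hη0 : 0 ≤ η := div_nonneg (by linarith) hJpos.le
  have hηq : η * (q n : ℝ) ≤ 0.01 := by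
    rw [hη, div_mul_eq_mul_div, div_le_iff₀ hJpos]
    linarith
  set g : ℕ → ℝ := fun j => 1 / (q 0 : ℝ) + j * η with hg
  have hgJ : g J = H := by
    rw [hg, hη]
    show 1 / (q 0 : ℝ) + J * ((H - 1 / (q 0 : ℝ)) / J) = H
    rw [mul_div_cancel₀ _ hJpos.ne']
    ring
  have hex : ∃ j, mW q n (g j) (g j) 0 ≤ Y := ⟨J, by rw [hgJ]; exact hfit⟩
  set j := Nat.find hex with hj
  have hjfit : mW q n (g j) (g j) 0 ≤ Y := Nat.find_spec hex
  have hjJ : j ≤ J := Nat.find_min' hex (by rw [hgJ]; exact hfit)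
  have hgge : ∀ i, 1 / (q 0 : ℝ) ≤ g i := by
    intro i
    show 1 / (q 0 : ℝ) ≤ 1 / (q 0 : ℝ) + i * η
    have : 0 ≤ (i : ℝ) * η := by positivity
    linarith
  have hgH : g j ≤ H := by
    rw [← hgJ]
    show 1 / (q 0 : ℝ) + j * η ≤ 1 / (q 0 : ℝ) + J * η
    have : (j : ℝ) ≤ J := by exact_mod_cast hjJ
    nlinarith
  -- the general conclusion for a mixed chain
  have concl : ∀ (h' h : ℝ) (m : ℕ), 1 / (q 0 : ℝ) ≤ h' → h' ≤ h → h ≤ h' + η → h ≤ H →
      mW q n h' h m ≤ Y → (Y < mW q n h' h m + 1 / (q 0 : ℝ) ∨ h = 1 / (q 0 : ℝ)) →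
      ∃ (h : ℝ) (s : ℕ → ℕ) (l : ℕ), 1 / (q 0 : ℝ) ≤ h ∧ h ≤ H ∧ s 0 = 0 ∧
      (∀ i, s i < s (i + 1)) ∧ s l < n ∧ n ≤ s (l + 1) ∧
      (∀ i, s (i + 1) - s i ≤ s (i + 2) - s (i + 1)) ∧
      (∀ i, ((s (i + 1) - s i : ℕ) : ℝ) ≤ h * (q (s i) : ℝ)) ∧
      (∀ i ≤ l, h * (q (s i) : ℝ) < ((s (i + 1) - s i : ℕ) : ℝ) + 1.01) ∧
      ∑ i ∈ range (l + 1), 1 / (q (s i) : ℝ) ≤ Y ∧
      (Y < ∑ i ∈ range (l + 1), 1 / (q (s i) : ℝ) + 1 / (q 0 : ℝ) ∨ h = 1 / (q 0 : ℝ)) := by
    intro h' h m hh' hh hhη hhH hW hor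
    have hh0 : 0 ≤ h' := le_trans (by positivity) hh'
    have hlt := mch_lt (m := m) hq h0 hh' hh
    have hsm : StrictMono (mch q h' h m) := strictMono_nat_of_lt_succ hlt
    -- the last column
    have hex2 : ∃ l, n ≤ mch q h' h m (l + 1) := ⟨n, (Nat.le_succ n).trans
      (mch_ge hq h0 hh' hh (n + 1))⟩
    set l := Nat.find hex2 with hl
    have hl1 : n ≤ mch q h' h m (l + 1) := Nat.find_spec hex2
    have hl2 : mch q h' h m l < n := by
      rcases Nat.eq_zero_or_pos l with h1 | h1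
      · rw [h1]
        show 0 < n
        omega
      · have := Nat.find_min hex2 (show l - 1 < l by omega)
        rw [not_le, Nat.sub_add_cancel h1] at this
        exact this
    have hln : l + 1 ≤ n := by
      have := mch_ge (m := m) hq h0 hh' hh l
      omega
    have hsum : mW q n h' h m = ∑ i ∈ range (l + 1), 1 / (q (mch q h' h m i) : ℝ) := by
      unfold mW
      rw [← Finset.sum_subset (Finset.range_subset_range.2 hln)]
      · apply Finset.sum_congr rfl
        intro i hi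
        rw [mem_range] at hi
        unfold mw
        rw [if_pos]
        exact lt_of_le_of_lt (hsm.monotone (by omega)) hl2
      · intro i _ hi
        rw [mem_range] at hi
        unfold mw
        rw [if_neg]
        have : mch q h' h m (l + 1) ≤ mch q h' h m i := hsm.monotone (by omega)
        omega
    have hc : ∀ i, mch q h' h m (i + 1) - mch q h' h m i =
        ⌊(if i < m then h' else h) * (q (mch q h' h m i) : ℝ)⌋₊ := by
      intro i
      show mch q h' h m i + ⌊(if i < m then h' else h) * (q (mch q h' h m i) : ℝ)⌋₊ -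
        mch q h' h m i = _
      omega
    have hite : ∀ i, (if i < m then h' else h) ≤ h := by
      intro i
      split_ifs
      · exact hh
      · exact le_rfl
    have hite' : ∀ i, 0 ≤ (if i < m then h' else h) := by
      intro i
      split_ifs
      · exact hh0
      · exact hh0.trans hh
    refine ⟨h, mch q h' h m, l, hh'.trans hh, hhH, rfl, hlt, hl2, hl1, ?_, ?_, ?_, ?_, ?_⟩
    · intro i
      rw [hc i, show i + 2 = (i + 1) + 1 from rfl, hc (i + 1)]
      apply Nat.floor_le_floor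
      apply mul_le_mul _ _ (Nat.cast_nonneg _) (hite' (i + 1))
      · split_ifs with h1 h2 h2
        · exact le_rfl
        · exact hh
        · omega
        · exact le_rfl
      · exact_mod_cast hq.monotone (hlt i).le
    · intro i
      rw [hc i]
      refine (Nat.floor_le (mul_nonneg (hite' i) (Nat.cast_nonneg _))).trans ?_
      exact mul_le_mul_of_nonneg_right (hite i) (Nat.cast_nonneg _)
    · intro i hi
      rw [hc i]
      have h1 := Nat.lt_floor_add_one ((if i < m then h' else h) * (q (mch q h' h m i) : ℝ))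
      have h2 : (q (mch q h' h m i) : ℝ) ≤ q n := by
        have : mch q h' h m i ≤ mch q h' h m l := hsm.monotone hi
        exact_mod_cast hq.monotone (by omega)
      have h3 : h * (q (mch q h' h m i) : ℝ) ≤
          (if i < m then h' else h) * (q (mch q h' h m i) : ℝ) + 0.01 := by
        have h4 : h ≤ (if i < m then h' else h) + η := by
          split_ifs
          · exact hhη
          · linarith
        have h5 := mul_le_mul_of_nonneg_right h4 (Nat.cast_nonneg (α := ℝ) (q (mch q h' h m i)))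
        have h6 : η * (q (mch q h' h m i) : ℝ) ≤ η * q n := mul_le_mul_of_nonneg_left h2 hη0
        nlinarith
      linarith
    · rw [← hsum]
      exact hW
    · rw [← hsum]
      exact hor
  rcases Nat.eq_zero_or_pos j with hj0 | hjpos
  · -- one row
    have hg0 : g j = 1 / (q 0 : ℝ) := by
      rw [hj0]
      show 1 / (q 0 : ℝ) + ((0 : ℕ) : ℝ) * η = _
      push_cast
      ring
    exact concl (g j) (g j) 0 (hgge j) le_rfl (by linarith) hgH hjfit (Or.inr hg0)
  · have hnot : ¬ mW q n (g (j - 1)) (g (j - 1)) 0 ≤ Y :=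
      Nat.find_min hex (show j - 1 < j by omega)
    rw [not_le] at hnot
    have hgj : g j = g (j - 1) + η := by
      show 1 / (q 0 : ℝ) + (j : ℝ) * η = 1 / (q 0 : ℝ) + ((j - 1 : ℕ) : ℝ) * η + η
      rw [Nat.cast_sub hjpos]
      push_cast
      ring
    set h' := g (j - 1) with hh'
    set h := g j with hh
    have hle : h' ≤ h := by linarith
    have hW0 : mW q n h' h 0 ≤ Y := by
      refine le_trans (le_of_eq ?_) hjfit
      unfold mW
      apply Finset.sum_congr rfl
      intro i _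
      rw [mch_zero_left h' h i]
    have hWn : Y < mW q n h' h n := by
      refine lt_of_lt_of_le hnot (le_of_eq ?_)
      unfold mW
      apply Finset.sum_congr rfl
      intro i hi
      rw [mem_range] at hi
      rw [mch_eq_of_ge (show i ≤ n by omega)]
    have hex3 : ∃ m, Y < mW q n h' h m := ⟨n, hWn⟩
    set m := Nat.find hex3 with hm
    have hm1 : Y < mW q n h' h m := Nat.find_spec hex3
    have hmpos : 0 < m := by
      rcases Nat.eq_zero_or_pos m with h1 | h1
      · rw [h1] at hm1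
        linarith
      · exact h1
    have hm2 : mW q n h' h (m - 1) ≤ Y := by
      have := Nat.find_min hex3 (show m - 1 < m by omega)
      rwa [not_lt] at this
    have hm3 := mW_succ_le hq h0 (hgge (j - 1)) hle n (m - 1)
    rw [Nat.sub_add_cancel hmpos] at hm3
    exact concl h' h (m - 1) (hgge (j - 1)) hle (by linarith) hgH hm2 (Or.inl (by linarith))

end Pool.Agent.Moser
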