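import Pool.Agent.Lib_MP_cc07e8_co.EngDefs
import Pool.Agent.Lib_MP_cc07e8_co.EpCost
import Pool.Agent.Lib_MP_cc07e8_co.EpL

/-!
# Main epoch: statements of the steps (helper86, for MP_cc07e8_co)

The steps are proved in parallel files; every step takes the statements it uses as hypotheses and
`EpK` puts them together.
-/

namespace Pool.Agent.Moser

open Finset Eng

/-- height of a full slab -/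
noncomputable def fK (a q0 : ℕ) : ℕ := ⌊990 * (q0 : ℝ) / (a : ℝ) ^ 2⌋₊

/-- budget of the remaining squares -/
noncomputable def bud (c : ℝ) (g E : ℕ) (Y0 : ℝ) (a q0 : ℕ) : ℝ :=
  c * (1 / (a : ℝ) - 1 / (E : ℝ)) + 5.4 * (Y0 * (((tau E : ℝ) - q0) / tau g)) + 10.18 * Y0 +
    473 / (g : ℝ) ^ 2

/-- statement of `low_slab` -/
def LowSlabStmt : Prop :=
  ∀ {q : ℕ → ℕ} (hq : StrictMono q) (h0 : 0 < q 0) {n : ℕ} (hn : 1 ≤ n)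
    {H Y : ℝ} (hH : 1 / (q 0 : ℝ) ≤ H) (hfit : mW q n H H 0 ≤ Y),
    ∃ (h : ℝ) (O : Multiset (ℝ × ℝ)), 0 < h ∧ h ≤ H ∧ Dec Y h ((range n).val.map q) O ∧
      (∀ r ∈ O, 0 ≤ r.1 ∧ 0 ≤ r.2 ∧ min r.1 r.2 ≤ 1 / (q 0 : ℝ)) ∧
      msum c1 O ≤ 10.18 * Y + 4.72 * (h ^ 2 / 2 * ((q n : ℝ) - q 0)) +
        5.4 * (Y * ((q n : ℝ) / q 0 - 1)) + 22 * h + 17 * (h * ((q n : ℝ) / q 0 - 1)) +
        22 / (q 0 : ℝ)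

/-- statement of `full_slab` -/
def FullSlabStmt : Prop :=
  ∀ {q : ℕ → ℕ} (hq : StrictMono q) {g a E n : ℕ} (hg : 10320 ≤ g) (hga : g ≤ a)
    (ha1 : tau a ≤ q 0) (ha2 : q 0 < tau (a + 1)) (hE : (E : ℝ) ≤ 1.25 * g) (hqn : q n = tau E)
    {Y : ℝ} (hY0 : 0 < Y) (hYN : Y ^ 2 * ((tau g : ℝ) - 1) ≤ 1) (hYq : 1 / (q 0 : ℝ) ≤ Y)
    (hno : Y < mW q n (fK a (q 0) / (q 0 : ℝ)) (fK a (q 0) / (q 0 : ℝ)) 0),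
    ∃ (t b : ℕ) (O : Multiset (ℝ × ℝ)), 1 ≤ t ∧ t < n ∧ a ≤ b ∧ b < E ∧ tau b ≤ q t ∧
      q t < tau (b + 1) ∧ Dec Y (fK a (q 0) / (q 0 : ℝ)) ((range t).val.map q) O ∧
      (∀ r ∈ O, 0 ≤ r.1 ∧ 0 ≤ r.2 ∧ min r.1 r.2 ≤ 1 / (q 0 : ℝ)) ∧
      msum c1 O ≤ 905 * (1 / (a : ℝ) - 1 / (b : ℝ)) + 26 * (fK a (q 0) / (q 0 : ℝ)) +
        5.4 * (Y * ((q t : ℝ) / q 0 - 1)) ∧
      ∀ T : ℝ, 1000 * (tau E : ℝ) ≤ T →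
        msum (c2 T) O ≤ 625 * (1 / (a : ℝ) - 1 / (b : ℝ)) + 33 * (fK a (q 0) / (q 0 : ℝ)) +
        5.4 * (Y * ((q t : ℝ) / q 0 - 1))

/-- statement of `iter` -/
def IterStmt : Prop :=
  ∀ {g E : ℕ} (hg : 10320 ≤ g) (hE : (E : ℝ) ≤ 1.25 * g) {Y0 : ℝ}
    (hYN : Y0 ^ 2 * ((tau g : ℝ) - 1) ≤ 1),
    ∀ (n : ℕ) (q : ℕ → ℕ) (a : ℕ) (X Y : ℝ), 1 ≤ n → StrictMono q → g ≤ a → tau a ≤ q 0 →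
      q 0 < tau (a + 1) → q n = tau E → 0 < Y → Y ≤ X → X ≤ 2 * Y → Y ≤ Y0 →
      sqa ((range n).val.map q) + 0.035 / (tau E : ℝ) +
        (bud 905 g E Y0 a (q 0) + 35 * (X + Y)) / (4.72 * (tau g : ℝ)) ≤ X * Y →
      ∃ (X' Y' : ℝ) (O : Multiset (ℝ × ℝ)), 0 < Y' ∧ Y' ≤ X' ∧ X' ≤ 2 * Y' ∧ X' + Y' ≤ X + Y ∧
        Ref {(X, Y)} ((range n).val.map q) ({(X', Y')} + O) ∧
        (∀ r ∈ O, 0 ≤ r.1 ∧ 0 ≤ r.2 ∧ min r.1 r.2 ≤ 1 / (tau g : ℝ)) ∧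
        msum c1 O ≤ bud 905 g E Y0 a (q 0) + 35 * ((X + Y) - (X' + Y')) ∧
        ∀ T : ℝ, 1000 * (tau E : ℝ) ≤ T →
          msum (c2 T) O ≤ bud 625 g E Y0 a (q 0) + 35 * ((X + Y) - (X' + Y'))

/-- statement of `main_epoch_aux` -/
def MainEpochStmt : Prop :=
  ∀ {g E : ℕ} (hg : 10320 ≤ g) (hgE : g ≤ E) (hE : (E : ℝ) ≤ 1.25 * g)
    (F : Finset ℕ) (hF : ∀ q ∈ F, tau g ≤ q ∧ q < tau E) {X Y : ℝ} (hY : 0 < Y) (hXY : Y ≤ X)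
    (hX : X ≤ 2 * Y) (hup : X * Y * ((tau g : ℝ) - 1) ≤ 1)
    (hlo : ∑ q ∈ F, 1 / (q : ℝ) ^ 2 + 0.05 / (tau E : ℝ) ≤ X * Y),
    ∃ (X' Y' : ℝ) (O : Multiset (ℝ × ℝ)), 0 < Y' ∧ Y' ≤ X' ∧ X' ≤ 2 * Y' ∧ X' + Y' ≤ X + Y ∧
      Ref {(X, Y)} F.val ({(X', Y')} + O) ∧
      (∀ r ∈ O, 0 ≤ r.1 ∧ 0 ≤ r.2 ∧ min r.1 r.2 ≤ 1 / (tau g : ℝ)) ∧
      msum c1 O ≤ 905 * ∑ i ∈ Ico g E, 1 / (i : ℝ) ^ 2 +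
        35 * ((X + Y) - (X' + Y')) + 16 * Y ∧
      ∀ t : ℝ, 1000 * (tau E : ℝ) ≤ t →
        msum (c2 t) O ≤ 625 * ∑ i ∈ Ico g E, 1 / (i : ℝ) ^ 2 +
          35 * ((X + Y) - (X' + Y')) + 16 * Y

end Pool.Agent.Moser
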