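import Pool.Agent.Lib_MP_cc07e8_co.EpA

/-!
# Main epoch, part G: staircase of a general chain of columns (helper86, for MP_cc07e8_co)

Column `i` (`i ≤ l`) consists of the squares `q x`, `s i ≤ x < s (i + 1)`; the number of rows is
nondecreasing and at most `h q (s i)`.
-/

namespace Pool.Agent.Moser

open Finset Pool.Agent.Shelf

section

variable {h : ℝ} {q s : ℕ → ℕ} {l : ℕ}

/-- number of rows -/
def gc (s : ℕ → ℕ) (i : ℕ) : ℕ := s (i + 1) - s i

/-- squares -/
def gm (q s : ℕ → ℕ) (r i : ℕ) : ℕ := q (s i + r)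

theorem gch_mono (hs : ∀ i ≤ l, s i < s (i + 1)) {i j : ℕ} (hij : i ≤ j) (hj : j ≤ l + 1) :
    s i ≤ s j := by
  induction j, hij using Nat.le_induction with
  | base => exact le_rfl
  | succ j hij ih =>
    have h1 := ih (by omega)
    have h2 := hs j (by omega)
    omega

theorem gch_c_mono (hc : ∀ i < l, s (i + 1) - s i ≤ s (i + 2) - s (i + 1)) {i j : ℕ} (hij : i ≤ j)
    (hj : j ≤ l) : gc s i ≤ gc s j := by
  induction j, hij using Nat.le_induction with
  | base => exact le_rfl
  | succ j hij ih =>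
    have h1 := ih (by omega)
    have h2 := hc j (by omega)
    unfold gc at h1 ⊢
    exact h1.trans h2

theorem gchX_shift (hq : StrictMono q) (h0 : 0 < q 0) (hs : ∀ i ≤ l, s i < s (i + 1))
    {i : ℕ} (hi : i ≤ l + 1) (r t : ℕ) :
    sX l (gm q s) (gc s) r i - sX l (gm q s) (gc s) t i ≤
      1 / (q (s i) : ℝ) - 1 / (q (s (l + 1)) : ℝ) := by
  unfold sX
  rw [← Finset.sum_sub_distrib]
  have h1 : ∑ j ∈ Ico i (l + 1), (sA (gm q s) (gc s) r j - sA (gm q s) (gc s) t j) ≤
      ∑ j ∈ Ico i (l + 1), (1 / (q (s j) : ℝ) - 1 / (q (s (j + 1)) : ℝ)) := by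
    apply Finset.sum_le_sum
    intro j hj
    rw [mem_Ico] at hj
    have h2 : sA (gm q s) (gc s) r j ≤ 1 / (q (s j) : ℝ) :=
      inv_anti hq h0 (Nat.le_add_right _ _)
    have h3 : 1 / (q (s (j + 1)) : ℝ) ≤ sA (gm q s) (gc s) t j := by
      apply inv_anti hq h0
      have h4 : min t (gc s j - 1) ≤ gc s j := (min_le_right _ _).trans (Nat.sub_le _ _)
      have h5 := hs j (by omega)
      unfold gc at h4 ⊢
      omega
    linarith
  refine h1.trans (le_of_eq ?_)
  have h4 : ∀ n, i ≤ n → ∑ j ∈ Ico i n, (1 / (q (s j) : ℝ) - 1 / (q (s (j + 1)) : ℝ)) =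
      1 / (q (s i) : ℝ) - 1 / (q (s n) : ℝ) := by
    intro n hn
    induction n, hn using Nat.le_induction with
    | base => simp
    | succ n hn ih =>
      rw [Finset.sum_Ico_succ_top hn, ih]
      ring
  exact h4 (l + 1) hi

theorem gchX_zero (l : ℕ) : sX l (gm q s) (gc s) 0 0 = ∑ i ∈ range (l + 1), 1 / (q (s i) : ℝ) := by
  unfold sX
  rw [← Finset.range_eq_Ico]
  apply Finset.sum_congr rfl
  intro j _
  unfold sA gm
  rw [Nat.zero_min, Nat.add_zero]

theorem gch_sum_squares (hs0 : s 0 = 0) (hs : ∀ i ≤ l, s i < s (i + 1)) {J : ℕ} (hJ : J ≤ l + 1) :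
    ∑ i ∈ range J, ∑ r ∈ range (gc s i), ({gm q s r i} : Multiset ℕ) =
      (range (s J)).val.map q := by
  induction J with
  | zero => simp [hs0]
  | succ J ih =>
    rw [Finset.sum_range_succ, ih (by omega), ← gch_sum_aux (q := q) (s J), ← gch_sum_aux (q := q)]
    have h1 : s (J + 1) = s J + gc s J := by
      have := hs J (by omega)
      unfold gc
      omega
    rw [h1, Finset.sum_range_add]
    rfl

/-- number of indices above -/
theorem gch_count_above {n k : ℕ} (hn : 1 ≤ n) (hk : n ≤ k + 1) :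
    ∑ r ∈ range k, (if n < r + 1 then (1 : ℝ) else 0) ≤ k - n + 1 := by
  obtain ⟨n', rfl⟩ : ∃ n', n = n' + 1 := ⟨n - 1, by omega⟩
  have hk' : n' ≤ k := by omega
  induction k, hk' using Nat.le_induction with
  | base =>
    rw [Finset.sum_eq_zero]
    · push_cast
      linarith
    · intro r hr
      rw [mem_range] at hr
      rw [if_neg (by omega)]
  | succ k hk' ih =>
    rw [Finset.sum_range_succ]
    have h1 := ih (by omega)
    have h2 : (if n' + 1 < k + 1 then (1 : ℝ) else 0) ≤ 1 := by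
      split_ifs
      · exact le_rfl
      · exact zero_le_one
    push_cast at h1 ⊢
    linarith

/-- total height of the pockets -/
theorem gchH_total (hq : StrictMono q) (h0 : 0 < q 0) (hs0 : s 0 = 0)
    (hs : ∀ i ≤ l, s i < s (i + 1)) (hc : ∀ i < l, s (i + 1) - s i ≤ s (i + 2) - s (i + 1))
    (hle : ∀ i ≤ l, ((s (i + 1) - s i : ℕ) : ℝ) ≤ h * q (s i))
    (hlt : h * q 0 < ((s 1 - s 0 : ℕ) : ℝ) + 1.01) {k : ℕ} (hk : gc s l = k + 1) :
    ∑ r ∈ range k, ∑ i ∈ range l, (sH h (gm q s) (gc s) (r + 1) i -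
      sH h (gm q s) (gc s) (r + 1) (i + 1)) ≤
      h ^ 2 / 2 * ((q (s (l + 1)) : ℝ) - q 0) + h / 2 + 1.02 / (q 0 : ℝ) := by
  have hN : (0 : ℝ) < q 0 := q_posR hq h0 0
  have hE : (0 : ℝ) < q (s (l + 1)) := q_posR hq h0 _
  set n := gc s 0 with hn
  have hn1 : 1 ≤ n := by
    have := hs 0 (Nat.zero_le l)
    rw [hn]
    unfold gc
    omega
  have hnk : n ≤ k + 1 := by
    rw [← hk]
    exact gch_c_mono hc (Nat.zero_le l) le_rfl
  have hnle : (n : ℝ) ≤ h * q 0 := by
    have := hle 0 (Nat.zero_le l)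
    rw [hs0] at this
    rw [hn]
    unfold gc
    rw [hs0]
    exact this
  have hnlt : h * q 0 < (n : ℝ) + 1.01 := hlt
  have hn1R : (1 : ℝ) ≤ n := by exact_mod_cast hn1
  have hh : 0 < h := by
    by_contra hcon
    rw [not_lt] at hcon
    nlinarith
  have h1 : ∀ r ∈ range k, ∑ i ∈ range l, (sH h (gm q s) (gc s) (r + 1) i -
      sH h (gm q s) (gc s) (r + 1) (i + 1)) ≤
      (1 / (q 0 : ℝ)) * min ((r : ℝ) + 1) n + (h - n / (q 0 : ℝ)) *
        (if n < r + 1 then (1 : ℝ) else 0) - ((r : ℝ) + 1) * (1 / (q (s (l + 1)) : ℝ)) := by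
    intro r hr
    rw [mem_range] at hr
    rw [Finset.sum_range_sub' (fun i => sH h (gm q s) (gc s) (r + 1) i)]
    have h2 : sH h (gm q s) (gc s) (r + 1) 0 ≤ (1 / (q 0 : ℝ)) * min ((r : ℝ) + 1) n +
        (h - n / (q 0 : ℝ)) * (if n < r + 1 then (1 : ℝ) else 0) := by
      unfold sH
      rw [← hn]
      split_ifs with h3 h4 h4
      · omega
      · have hm : min ((r : ℝ) + 1) n = (r : ℝ) + 1 := by
          apply min_eq_left
          have : ((r + 1 : ℕ) : ℝ) ≤ n := by exact_mod_cast h3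
          push_cast at this
          exact this
        rw [hm, mul_zero, add_zero]
        calc ∑ t ∈ range (r + 1), 1 / ((gm q s t 0 : ℕ) : ℝ)
            ≤ ∑ t ∈ range (r + 1), 1 / (q 0 : ℝ) :=
              Finset.sum_le_sum fun t _ => inv_anti hq h0 (Nat.zero_le _)
          _ = _ := by
              rw [Finset.sum_const, Finset.card_range, nsmul_eq_mul]
              push_cast
              ring
      · have hm : min ((r : ℝ) + 1) n = n := by
          apply min_eq_right
          have : (n : ℝ) ≤ ((r + 1 : ℕ) : ℝ) := by exact_mod_cast h4.le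
          push_cast at this
          exact this
        rw [hm, mul_one]
        apply le_of_eq
        ring
      · omega
    have h3 : ((r : ℝ) + 1) * (1 / (q (s (l + 1)) : ℝ)) ≤
        sH h (gm q s) (gc s) (r + 1) l := by
      unfold sH
      rw [if_pos (by rw [hk]; omega)]
      calc ((r : ℝ) + 1) * (1 / (q (s (l + 1)) : ℝ))
          = ∑ t ∈ range (r + 1), 1 / (q (s (l + 1)) : ℝ) := by
            rw [Finset.sum_const, Finset.card_range, nsmul_eq_mul]
            push_cast
            ring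
        _ ≤ _ := by
            apply Finset.sum_le_sum
            intro t ht
            rw [mem_range] at ht
            apply inv_anti hq h0
            have h5 := hs l le_rfl
            unfold gc at hk
            omega
    linarith
  refine (Finset.sum_le_sum h1).trans ?_
  rw [Finset.sum_sub_distrib, Finset.sum_add_distrib, ← Finset.mul_sum, ← Finset.mul_sum,
    ← Finset.sum_mul, sum_min_le hn1 hnk]
  have h5 : ∀ t : ℕ, ∑ r ∈ range t, ((r : ℝ) + 1) = t * (t + 1) / 2 := by
    intro t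
    induction t with
    | zero => simp
    | succ t ih =>
      rw [Finset.sum_range_succ, ih]
      push_cast
      ring
  rw [h5]
  have h6 := gch_count_above hn1 hnk
  have h7 : 0 ≤ h - n / (q 0 : ℝ) := by
    have : (n : ℝ) / (q 0 : ℝ) ≤ h := by
      rw [div_le_iff₀ hN]
      exact hnle
    linarith
  have h8 := mul_le_mul_of_nonneg_left h6 h7
  set E : ℝ := (q (s (l + 1)) : ℝ) with hEd
  set N : ℝ := (q 0 : ℝ) with hNd
  -- upper part
  have h9 : (1 / N) * (k * n - n * (n - 1) / 2) + (h - n / N) * (k - n + 1) =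
      h * k + h + ((n : ℝ) ^ 2 - n - 2 * (h * N) * n) / (2 * N) := by
    field_simp
    ring
  have h10 : ((n : ℝ) ^ 2 - n - 2 * (h * N) * n) / (2 * N) ≤
      -(h ^ 2 * N / 2) - h / 2 + 1.02 / N := by
    have e : -(h ^ 2 * N / 2) - h / 2 + 1.02 / N =
        (-(h * N) ^ 2 - h * N + 2.04) / (2 * N) := by
      field_simp
      ring
    rw [e, div_le_div_iff_of_pos_right (by positivity)]
    nlinarith [mul_nonneg (show 0 ≤ h * N - n by linarith) (show 0 ≤ (n : ℝ) + 1.01 - h * N by
      linarith)]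
  -- lower part
  have h11 : h * k - (k : ℝ) * (k + 1) / 2 * (1 / E) ≤ h ^ 2 * E / 2 := by
    rw [mul_one_div, sub_le_iff_le_add, ← sub_le_iff_le_add', le_div_iff₀ hE]
    nlinarith [sq_nonneg (h * E - k), (Nat.cast_nonneg k : (0 : ℝ) ≤ k)]
  nlinarith

/-- **A slab filled by a general chain of columns.** -/
theorem chain_dec (hq : StrictMono q) (h0 : 0 < q 0) (hs0 : s 0 = 0)
    (hs : ∀ i ≤ l, s i < s (i + 1)) (hc : ∀ i < l, s (i + 1) - s i ≤ s (i + 2) - s (i + 1))
    (hle : ∀ i ≤ l, ((s (i + 1) - s i : ℕ) : ℝ) ≤ h * q (s i))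
    (hlt : l = 0 ∨ h * q 0 < ((s 1 - s 0 : ℕ) : ℝ) + 1.01) :
    ∃ Sm : Multiset (ℝ × ℝ), Dec (∑ i ∈ range (l + 1), 1 / (q (s i) : ℝ)) h
        ((range (s (l + 1))).val.map q)
        ((∑ i ∈ range (l + 1), {(1 / (q (s (i + 1) - 1) : ℝ),
          h - ∑ x ∈ Ico (s i) (s (i + 1)), 1 / (q x : ℝ))}) + Sm) ∧
      (∀ r ∈ Sm, 0 ≤ r.1 ∧ r.1 ≤ 1 / (q 0 : ℝ) - 1 / (q (s (l + 1)) : ℝ) ∧ 0 ≤ r.2) ∧
      msum Prod.fst Sm ≤ (((l + 1 : ℕ) : ℝ) + h * q (s (l + 1))) *
        (1 / (q 0 : ℝ) - 1 / (q (s (l + 1)) : ℝ)) ∧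
      msum Prod.snd Sm ≤ (if l = 0 then 0 else
        h ^ 2 / 2 * ((q (s (l + 1)) : ℝ) - q 0) + h / 2 + 1.02 / (q 0 : ℝ)) + h := by
  have hN : (0 : ℝ) < q 0 := q_posR hq h0 0
  have hc1 : ∀ i ≤ l, 1 ≤ gc s i := by
    intro i hi
    have := hs i hi
    unfold gc
    omega
  have hh : 0 < h := by
    have h1 := hle 0 (Nat.zero_le l)
    rw [hs0] at h1
    have h2 : (1 : ℝ) ≤ ((s (0 + 1) - 0 : ℕ) : ℝ) := by
      have := hs 0 (Nat.zero_le l)
      exact_mod_cast (by omega : 1 ≤ s (0 + 1) - 0)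
    by_contra hcon
    rw [not_lt] at hcon
    nlinarith
  obtain ⟨k, hk⟩ : ∃ k, gc s l = k + 1 := ⟨gc s l - 1, by have := hc1 l le_rfl; omega⟩
  set D := 1 / (q 0 : ℝ) - 1 / (q (s (l + 1)) : ℝ) with hD
  have hD0 : 0 ≤ D := by
    have := inv_anti hq h0 (Nat.zero_le (s (l + 1)))
    linarith
  have hsm : ∀ i ≤ l + 1, s i ≤ s (l + 1) := fun i hi => gch_mono hs hi le_rfl
  have hsC : ∀ i ≤ l, sC (gm q s) (gc s) i = ∑ x ∈ Ico (s i) (s (i + 1)), 1 / (q x : ℝ) := by
    intro i _
    unfold sC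
    rw [Finset.sum_Ico_eq_sum_range]
    rfl
  have hfit : ∀ i ≤ l, sC (gm q s) (gc s) i ≤ h := by
    intro i hi
    rw [hsC i hi]
    have hqi : (0 : ℝ) < q (s i) := q_posR hq h0 _
    calc ∑ x ∈ Ico (s i) (s (i + 1)), 1 / (q x : ℝ)
        ≤ ∑ x ∈ Ico (s i) (s (i + 1)), 1 / (q (s i) : ℝ) :=
          Finset.sum_le_sum fun x hx => inv_anti hq h0 (mem_Ico.1 hx).1
      _ = ((s (i + 1) - s i : ℕ) : ℝ) / q (s i) := by
          rw [Finset.sum_const, Nat.card_Ico, nsmul_eq_mul, mul_one_div]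
      _ ≤ h := by
          rw [div_le_iff₀ hqi]
          exact hle i hi
  have hcm : ∀ i < l, gc s i ≤ gc s (i + 1) := fun i hi => gch_c_mono hc (Nat.le_succ i) hi
  have hdec := stair_block (H := h) (k := k) (l := l) (m := gm q s) (c := gc s)
    (fun i _ r _ => q_pos hq h0 _) (fun i _ r _ => hq.monotone (Nat.le_succ _))
    (fun i hi r _ => hq.monotone (Nat.add_le_add_right (hs i hi.le).le r))
    (hc1 0 (Nat.zero_le l)) hcm hk hfit
  rw [gchX_zero, gch_sum_squares hs0 hs le_rfl] at hdec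
  have hT : ∑ i ∈ range (l + 1), ({(1 / (gm q s (gc s i - 1) i : ℝ),
      h - sC (gm q s) (gc s) i)} : Multiset (ℝ × ℝ)) =
      ∑ i ∈ range (l + 1), {(1 / (q (s (i + 1) - 1) : ℝ),
          h - ∑ x ∈ Ico (s i) (s (i + 1)), 1 / (q x : ℝ))} := by
    apply Finset.sum_congr rfl
    intro i hi
    rw [mem_range] at hi
    have e1 : s (i + 1) - 1 = s i + (gc s i - 1) := by
      have := hs i (by omega)
      unfold gc
      omega
    rw [e1, hsC i (by omega)]
    rfl
  rw [hT] at hdec
  set W := ∑ i ∈ range (l + 1), 1 / (q (s i) : ℝ) with hW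
  set P := ∑ r ∈ range k, ∑ i ∈ range l, ({(sX l (gm q s) (gc s) r (i + 1) -
      sX l (gm q s) (gc s) (r + 1) (i + 1), sH h (gm q s) (gc s) (r + 1) i -
      sH h (gm q s) (gc s) (r + 1) (i + 1))} : Multiset (ℝ × ℝ)) with hP
  set Lf := ∑ r ∈ range k, ({(W - sX l (gm q s) (gc s) (r + 1) 0,
      sH h (gm q s) (gc s) (r + 2) 0 - sH h (gm q s) (gc s) (r + 1) 0)} :
        Multiset (ℝ × ℝ)) with hLf
  set Co : Multiset (ℝ × ℝ) := (if gc s 0 = k + 1 then
    {(W - sX l (gm q s) (gc s) k 0, h - sC (gm q s) (gc s) 0)} else 0) with hCo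
  -- widths
  have hsh : ∀ i, i ≤ l + 1 → ∀ r t, sX l (gm q s) (gc s) r i -
      sX l (gm q s) (gc s) t i ≤ D := by
    intro i hi r t
    refine (gchX_shift hq h0 hs hi r t).trans ?_
    have := inv_anti hq h0 (Nat.zero_le (s i))
    linarith
  have hsh0 : ∀ t, W - sX l (gm q s) (gc s) t 0 ≤ D := by
    intro t
    rw [hW, ← gchX_zero]
    exact hsh 0 (Nat.zero_le _) 0 t
  have hkH : (k : ℝ) + 1 ≤ h * q (s (l + 1)) := by
    have h7 := hle l le_rfl
    have h7' : ((k + 1 : ℕ) : ℝ) ≤ h * q (s l) := by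
      rw [← hk]
      exact h7
    push_cast at h7'
    have h8 : (q (s l) : ℝ) ≤ q (s (l + 1)) := by
      exact_mod_cast hq.monotone (hs l le_rfl).le
    have := mul_le_mul_of_nonneg_left h8 hh.le
    linarith
  refine ⟨P + (Lf + Co), hdec, ?_, ?_, ?_⟩
  · intro r hr
    have hnn := hdec.rect_nonneg r (Multiset.mem_add.2 (Or.inr hr))
    refine ⟨hnn.1, ?_, hnn.2⟩
    rcases Multiset.mem_add.1 hr with hr | hr
    · rw [hP, Multiset.mem_sum] at hr
      obtain ⟨x, hx, hr⟩ := hr
      rw [Multiset.mem_sum] at hr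
      obtain ⟨i, hi, hr⟩ := hr
      rw [mem_range] at hx hi
      rw [Multiset.mem_singleton] at hr
      rw [hr]
      exact hsh (i + 1) (by omega) x (x + 1)
    · rcases Multiset.mem_add.1 hr with hr | hr
      · rw [hLf, Multiset.mem_sum] at hr
        obtain ⟨x, hx, hr⟩ := hr
        rw [Multiset.mem_singleton] at hr
        rw [hr]
        exact hsh0 (x + 1)
      · rw [hCo] at hr
        split_ifs at hr with hif
        · rw [Multiset.mem_singleton] at hr
          rw [hr]
          exact hsh0 k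
        · exact absurd hr (Multiset.notMem_zero r)
  · rw [msum_add, msum_add]
    have hp : msum Prod.fst P ≤ l * D := by
      rw [hP]
      simp only [msum_sum, msum_singleton]
      rw [Finset.sum_comm]
      calc ∑ i ∈ range l, ∑ r ∈ range k, (sX l (gm q s) (gc s) r (i + 1) -
            sX l (gm q s) (gc s) (r + 1) (i + 1)) ≤ ∑ i ∈ range l, D := by
            apply Finset.sum_le_sum
            intro i hi
            rw [mem_range] at hi
            rw [Finset.sum_range_sub' (fun r => sX l (gm q s) (gc s) r (i + 1))]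
            exact hsh (i + 1) (by omega) 0 k
        _ = _ := by rw [Finset.sum_const, Finset.card_range, nsmul_eq_mul]
    have hl : msum Prod.fst Lf ≤ k * D := by
      rw [hLf]
      simp only [msum_sum, msum_singleton]
      calc ∑ r ∈ range k, (W - sX l (gm q s) (gc s) (r + 1) 0)
          ≤ ∑ r ∈ range k, D := Finset.sum_le_sum fun r _ => hsh0 (r + 1)
        _ = _ := by rw [Finset.sum_const, Finset.card_range, nsmul_eq_mul]
    have hcc : msum Prod.fst Co ≤ D := by
      rw [hCo]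
      split_ifs with hif
      · rw [msum_singleton]
        exact hsh0 k
      · rw [msum_zero]
        exact hD0
    have h12 : ((l : ℝ) + (k + 1)) * D ≤ (((l + 1 : ℕ) : ℝ) + h * q (s (l + 1))) * D := by
      apply mul_le_mul_of_nonneg_right _ hD0
      push_cast
      linarith
    nlinarith
  · rw [msum_add, msum_add]
    have hp : msum Prod.snd P ≤ (if l = 0 then 0 else
        h ^ 2 / 2 * ((q (s (l + 1)) : ℝ) - q 0) + h / 2 + 1.02 / (q 0 : ℝ)) := by
      split_ifs with hl0
      · rw [hP, hl0]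
        simp [msum]
      · rcases hlt with hlt | hlt
        · exact absurd hlt hl0
        · rw [hP]
          simp only [msum_sum, msum_singleton]
          exact gchH_total hq h0 hs0 hs hc hle hlt hk
    have hl : msum Prod.snd Lf + msum Prod.snd Co ≤ h := by
      have h13 : msum Prod.snd Lf = sH h (gm q s) (gc s) (k + 1) 0 -
          sH h (gm q s) (gc s) 1 0 := by
        rw [hLf]
        simp only [msum_sum, msum_singleton]
        exact Finset.sum_range_sub (fun r => sH h (gm q s) (gc s) (r + 1) 0) k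
      have h14 : 0 ≤ sH h (gm q s) (gc s) 1 0 := by
        unfold sH
        split_ifs
        · apply Finset.sum_nonneg
          intro i _
          positivity
        · exact hh.le
      rw [h13, hCo]
      split_ifs with hif
      · rw [msum_singleton]
        have h15 : sH h (gm q s) (gc s) (k + 1) 0 = sC (gm q s) (gc s) 0 := by
          unfold sH sC
          rw [if_pos (by rw [hif]), hif]
        rw [h15]
        show _ + (h - sC (gm q s) (gc s) 0) ≤ h
        linarith
      · rw [msum_zero]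
        have h16 : gc s 0 ≤ k + 1 := by
          rw [← hk]
          exact gch_c_mono hc (Nat.zero_le l) le_rfl
        have h15 : sH h (gm q s) (gc s) (k + 1) 0 = h := by
          unfold sH
          rw [if_neg (by omega)]
        rw [h15]
        linarith
    linarith

end

end Pool.Agent.Moser
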