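import Pool.Agent.Lib_MP_cc07e8_co.EpB
import Pool.Agent.Lib_MP_cc07e8_co.EpG
import Pool.Agent.Lib_MP_cc07e8_co.EpL

/-!
# Main epoch: the last slab (helper86, for MP_cc07e8_co)
-/

namespace Pool.Agent.Moser

open Finset Pool.Agent.Shelf

section

variable {h : ℝ} {q s : ℕ → ℕ} {l : ℕ}

theorem low_tel (hs0 : s 0 = 0) :
    ∑ i ∈ range (l + 1), (1 / (q (s i) : ℝ) - 1 / (q (s (i + 1)) : ℝ)) =
      1 / (q 0 : ℝ) - 1 / (q (s (l + 1)) : ℝ) := by
  rw [Finset.sum_range_sub' (fun i => 1 / (q (s i) : ℝ)), hs0]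

/-- cost of a chain of full columns -/
theorem chain_cost (hq : StrictMono q) (h0 : 0 < q 0) (hs0 : s 0 = 0)
    (hs : ∀ i ≤ l, s i < s (i + 1)) (hc : ∀ i < l, s (i + 1) - s i ≤ s (i + 2) - s (i + 1))
    (hle : ∀ i ≤ l, ((s (i + 1) - s i : ℕ) : ℝ) ≤ h * q (s i))
    (hlt : ∀ i ≤ l, h * q (s i) < ((s (i + 1) - s i : ℕ) : ℝ) + 1.01) (hh : 0 < h) :
    ∃ O : Multiset (ℝ × ℝ), Dec (∑ i ∈ range (l + 1), 1 / (q (s i) : ℝ)) h
        ((range (s (l + 1))).val.map q) O ∧
      (∀ r ∈ O, 0 ≤ r.1 ∧ 0 ≤ r.2 ∧ min r.1 r.2 ≤ 1 / (q 0 : ℝ)) ∧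
      msum c1 O ≤ 10.174 * (∑ i ∈ range (l + 1), 1 / (q (s i) : ℝ)) +
        4.72 * (h ^ 2 / 2 * ((q (s (l + 1)) : ℝ) - q 0)) +
        5.4 * ((∑ i ∈ range (l + 1), 1 / (q (s i) : ℝ)) * ((q (s (l + 1)) : ℝ) / q 0 - 1)) +
        7.08 * h + 10.8 * (h * ((q (s (l + 1)) : ℝ) / q 0 - 1)) + 4.82 / (q 0 : ℝ) := by
  have hN : (0 : ℝ) < q 0 := q_posR hq h0 0
  have hE : (0 : ℝ) < q (s (l + 1)) := q_posR hq h0 _
  have hlt0 : l = 0 ∨ h * q 0 < ((s 1 - s 0 : ℕ) : ℝ) + 1.01 := by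
    right
    have := hlt 0 (Nat.zero_le l)
    rw [hs0] at this ⊢
    exact this
  obtain ⟨Sm, hd, hSm, hf, hsn⟩ := chain_dec hq h0 hs0 hs hc hle hlt0
  set W := ∑ i ∈ range (l + 1), 1 / (q (s i) : ℝ) with hW
  set E : ℝ := (q (s (l + 1)) : ℝ) with hEd
  set N : ℝ := (q 0 : ℝ) with hNd
  have hNE : N ≤ E := by
    rw [hNd, hEd]
    exact_mod_cast hq.monotone (Nat.zero_le _)
  have hρ : 0 ≤ E / N - 1 := by
    have : 1 ≤ E / N := (one_le_div hN).2 hNE
    linarith
  refine ⟨_, hd, ?_, ?_⟩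
  · intro r hr
    have hnn := hd.rect_nonneg r hr
    refine ⟨hnn.1, hnn.2, ?_⟩
    rcases Multiset.mem_add.1 hr with hr | hr
    · rw [Multiset.mem_sum] at hr
      obtain ⟨i, hi, hr⟩ := hr
      rw [Multiset.mem_singleton] at hr
      refine (min_le_left _ _).trans ?_
      rw [hr]
      exact inv_anti hq h0 (Nat.zero_le _)
    · refine (min_le_left _ _).trans ((hSm r hr).2.1.trans ?_)
      have : 0 ≤ 1 / E := by positivity
      linarith
  · rw [msum_add]
    have hSmc := c1_small Sm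
    -- the tops
    have htop : msum c1 (∑ i ∈ range (l + 1), {(1 / (q (s (i + 1) - 1) : ℝ),
          h - ∑ x ∈ Ico (s i) (s (i + 1)), 1 / (q x : ℝ))}) ≤
        10.174 * W + 5.4 * (h * (E / N - 1)) := by
      rw [msum_sum]
      have h1 : ∀ i ∈ range (l + 1), msum c1 {(1 / (q (s (i + 1) - 1) : ℝ),
          h - ∑ x ∈ Ico (s i) (s (i + 1)), 1 / (q x : ℝ))} ≤
          10.174 * (1 / (q (s i) : ℝ)) +
            5.4 * (h * E * (1 / (q (s i) : ℝ) - 1 / (q (s (i + 1)) : ℝ))) := by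
        intro i hi
        rw [mem_range] at hi
        rw [msum_singleton]
        refine (c1_le' _ _).trans ?_
        have hsi := hs i (by omega)
        have hqi : (0 : ℝ) < q (s i) := q_posR hq h0 _
        have h2 : 1 / (q (s (i + 1) - 1) : ℝ) ≤ 1 / (q (s i) : ℝ) := inv_anti hq h0 (by omega)
        have h3 : ((s (i + 1) - s i : ℕ) : ℝ) * (1 / (q (s (i + 1)) : ℝ)) ≤
            ∑ x ∈ Ico (s i) (s (i + 1)), 1 / (q x : ℝ) := by
          calc ((s (i + 1) - s i : ℕ) : ℝ) * (1 / (q (s (i + 1)) : ℝ))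
              = ∑ x ∈ Ico (s i) (s (i + 1)), 1 / (q (s (i + 1)) : ℝ) := by
                rw [Finset.sum_const, Nat.card_Ico, nsmul_eq_mul]
            _ ≤ _ := Finset.sum_le_sum fun x hx => inv_anti hq h0 (mem_Ico.1 hx).2.le
        have h4 : h ≤ ((s (i + 1) - s i : ℕ) : ℝ) * (1 / (q (s i) : ℝ)) +
            1.01 * (1 / (q (s i) : ℝ)) := by
          have h5 := (hlt i (by omega)).le
          rw [← add_mul, mul_one_div, le_div_iff₀ hqi]
          exact h5
        have h6 : ((s (i + 1) - s i : ℕ) : ℝ) ≤ h * E := by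
          refine (hle i (by omega)).trans ?_
          apply mul_le_mul_of_nonneg_left _ hh.le
          rw [hEd]
          have : s i ≤ s (l + 1) := gch_mono hs (by omega) le_rfl
          exact_mod_cast hq.monotone this
        have h7 : 0 ≤ 1 / (q (s i) : ℝ) - 1 / (q (s (i + 1)) : ℝ) := by
          have := inv_anti hq h0 hsi.le
          linarith
        have h8 := mul_le_mul_of_nonneg_right h6 h7
        nlinarith
      refine (Finset.sum_le_sum h1).trans ?_
      rw [Finset.sum_add_distrib, ← Finset.mul_sum, ← Finset.mul_sum, ← Finset.mul_sum,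
        low_tel hs0]
      have e : h * E * (1 / N - 1 / E) = h * (E / N - 1) := by
        field_simp
      rw [e]
    have hl : ((l + 1 : ℕ) : ℝ) * (1 / N - 1 / E) ≤ W * (E / N - 1) := by
      have h1 : ((l + 1 : ℕ) : ℝ) * (1 / E) ≤ W := by
        rw [hW]
        calc ((l + 1 : ℕ) : ℝ) * (1 / E) = ∑ i ∈ range (l + 1), 1 / E := by
              rw [Finset.sum_const, Finset.card_range, nsmul_eq_mul]
          _ ≤ _ := by
              apply Finset.sum_le_sum
              intro i hi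
              rw [mem_range] at hi
              apply inv_anti hq h0
              exact gch_mono hs (by omega) le_rfl
      have h2 : 1 / N - 1 / E = 1 / E * (E / N - 1) := by
        field_simp
      rw [h2, ← mul_assoc]
      exact mul_le_mul_of_nonneg_right h1 hρ
    have hhE : h * E * (1 / N - 1 / E) = h * (E / N - 1) := by
      field_simp
    have hif : (if l = 0 then (0 : ℝ) else h ^ 2 / 2 * (E - N) + h / 2 + 1.02 / N) ≤
        h ^ 2 / 2 * (E - N) + h / 2 + 1.02 / N := by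
      split_ifs
      · have : 0 ≤ E - N := by linarith
        positivity
      · exact le_rfl
    have h9 : msum Prod.fst Sm ≤ W * (E / N - 1) + h * (E / N - 1) := by
      refine hf.trans ?_
      rw [add_mul, hhE]
      linarith
    have h10 : 4.72 * (1.02 / N) ≤ 4.82 / N := by
      rw [← mul_div_assoc]
      apply div_le_div_of_nonneg_right _ hN.le
      norm_num
    linarith

end

/-- **The last slab.** -/
theorem low_slab {q : ℕ → ℕ} (hq : StrictMono q) (h0 : 0 < q 0) {n : ℕ} (hn : 1 ≤ n)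
    {H Y : ℝ} (hH : 1 / (q 0 : ℝ) ≤ H) (hfit : mW q n H H 0 ≤ Y) :
    ∃ (h : ℝ) (O : Multiset (ℝ × ℝ)), 0 < h ∧ h ≤ H ∧ Dec Y h ((range n).val.map q) O ∧
      (∀ r ∈ O, 0 ≤ r.1 ∧ 0 ≤ r.2 ∧ min r.1 r.2 ≤ 1 / (q 0 : ℝ)) ∧
      msum c1 O ≤ 10.18 * Y + 4.72 * (h ^ 2 / 2 * ((q n : ℝ) - q 0)) +
        5.4 * (Y * ((q n : ℝ) / q 0 - 1)) + 22 * h + 17 * (h * ((q n : ℝ) / q 0 - 1)) +
        22 / (q 0 : ℝ) := by
  have hN : (0 : ℝ) < q 0 := q_posR hq h0 0
  obtain ⟨h, s, l, hh1, hhH, hs0, hs, hsl, hnl, hc, hle, hlt, hWY, hor⟩ :=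
    mixed_chain hq h0 hn hH hfit
  have hh : 0 < h := lt_of_lt_of_le (by positivity) hh1
  have hsm : StrictMono s := strictMono_nat_of_lt_succ hs
  have hEn : (0 : ℝ) < q n := q_posR hq h0 n
  have hEl : (0 : ℝ) < q (s l) := q_posR hq h0 _
  have hln : (q (s l) : ℝ) ≤ q n := by exact_mod_cast hq.monotone hsl.le
  have h0l : (q 0 : ℝ) ≤ q (s l) := by exact_mod_cast hq.monotone (Nat.zero_le _)
  set ρ := (q n : ℝ) / q 0 - 1 with hρ
  have hρ0 : 0 ≤ ρ := by
    have : 1 ≤ (q n : ℝ) / q 0 := (one_le_div hN).2 (h0l.trans hln)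
    linarith
  -- part A: the full columns
  have hA : ∃ O : Multiset (ℝ × ℝ), Dec (∑ i ∈ range l, 1 / (q (s i) : ℝ)) h
        ((range (s l)).val.map q) O ∧
      (∀ r ∈ O, 0 ≤ r.1 ∧ 0 ≤ r.2 ∧ min r.1 r.2 ≤ 1 / (q 0 : ℝ)) ∧
      msum c1 O ≤ 10.174 * (∑ i ∈ range l, 1 / (q (s i) : ℝ)) +
        4.72 * (h ^ 2 / 2 * ((q n : ℝ) - q 0)) + 5.4 * (Y * ρ) +
        7.08 * h + 10.8 * (h * ρ) + 4.82 / (q 0 : ℝ) := by
    have hY0 : 0 ≤ Y := by
      refine le_trans ?_ hWY
      apply Finset.sum_nonneg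
      intro i _
      positivity
    have hP0 : 0 ≤ h ^ 2 / 2 * ((q n : ℝ) - q 0) := by
      have : 0 ≤ (q n : ℝ) - q 0 := by linarith
      positivity
    rcases Nat.eq_zero_or_pos l with hl | hl
    · refine ⟨0, ?_, fun r hr => absurd hr (Multiset.notMem_zero r), ?_⟩
      · rw [hl, hs0]
        simpa using Dec.nil_left hh.le
      · rw [hl, msum_zero]
        simp only [Finset.range_zero, Finset.sum_empty, mul_zero, zero_add]
        have h1 : 0 ≤ Y * ρ := mul_nonneg hY0 hρ0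
        have h2 : 0 ≤ h * ρ := mul_nonneg hh.le hρ0
        positivity
    · obtain ⟨l', rfl⟩ : ∃ l', l = l' + 1 := ⟨l - 1, by omega⟩
      obtain ⟨O, hO1, hO2, hO3⟩ := chain_cost (l := l') (h := h) (s := s) hq h0 hs0
        (fun i _ => hs i) (fun i _ => hc i) (fun i _ => hle i) (fun i hi => hlt i (by omega)) hh
      refine ⟨O, hO1, hO2, hO3.trans ?_⟩
      have hWY' : ∑ i ∈ range (l' + 1), 1 / (q (s i) : ℝ) ≤ Y := by
        refine le_trans ?_ hWY
        rw [Finset.sum_range_succ _ (l' + 1)]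
        have : 0 ≤ 1 / (q (s (l' + 1)) : ℝ) := by positivity
        linarith
      have hW0 : 0 ≤ ∑ i ∈ range (l' + 1), 1 / (q (s i) : ℝ) := by
        apply Finset.sum_nonneg
        intro i _
        positivity
      have h1 : (q (s (l' + 1)) : ℝ) / q 0 - 1 ≤ ρ := by
        rw [hρ]
        have : (q (s (l' + 1)) : ℝ) / q 0 ≤ (q n : ℝ) / q 0 :=
          div_le_div_of_nonneg_right hln hN.le
        linarith
      have h1' : 0 ≤ (q (s (l' + 1)) : ℝ) / q 0 - 1 := by
        have : 1 ≤ (q (s (l' + 1)) : ℝ) / q 0 := (one_le_div hN).2 h0l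
        linarith
      have h2 : (∑ i ∈ range (l' + 1), 1 / (q (s i) : ℝ)) * ((q (s (l' + 1)) : ℝ) / q 0 - 1) ≤
          Y * ρ := mul_le_mul hWY' h1 h1' hY0
      have h3 : h * ((q (s (l' + 1)) : ℝ) / q 0 - 1) ≤ h * ρ :=
        mul_le_mul_of_nonneg_left h1 hh.le
      have h4 : h ^ 2 / 2 * ((q (s (l' + 1)) : ℝ) - q 0) ≤ h ^ 2 / 2 * ((q n : ℝ) - q 0) := by
        apply mul_le_mul_of_nonneg_left _ (by positivity)
        linarith
      linarith
  obtain ⟨OA, dA, mA, cA⟩ := hA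
  -- part B: the last column
  set q' : ℕ → ℕ := fun x => q (s l + x) with hq'
  set s' : ℕ → ℕ := fun i => if i = 0 then 0 else n - s l with hs'
  have hq'm : StrictMono q' := fun a b hab => hq (Nat.add_lt_add_left hab (s l))
  have hq'0 : q' 0 = q (s l) := rfl
  have h0' : 0 < q' 0 := q_pos hq h0 _
  obtain ⟨Sm, dB, mB, fB, snB⟩ := chain_dec (l := 0) (h := h) (q := q') (s := s') hq'm h0' rfl
    (fun i hi => by
      have : i = 0 := by omega
      subst this
      show 0 < n - s l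
      omega)
    (fun i hi => absurd hi (Nat.not_lt_zero i))
    (fun i hi => by
      have : i = 0 := by omega
      subst this
      show ((n - s l - 0 : ℕ) : ℝ) ≤ h * (q (s l + 0) : ℝ)
      have h1 := hle l
      have h2 : ((n - s l - 0 : ℕ) : ℝ) ≤ ((s (l + 1) - s l : ℕ) : ℝ) := by
        exact_mod_cast (by omega : n - s l - 0 ≤ s (l + 1) - s l)
      exact h2.trans h1)
    (Or.inl rfl)
  have hs'1 : s' 1 = n - s l := rfl
  have hqn' : q' (s' (0 + 1)) = q n := by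
    show q (s l + (n - s l)) = q n
    rw [Nat.add_sub_cancel' hsl.le]
  rw [hqn'] at mB fB
  have hWB : ∑ i ∈ range (0 + 1), 1 / (q' (s' i) : ℝ) = 1 / (q (s l) : ℝ) := by
    rw [zero_add, Finset.sum_range_one]
    rfl
  rw [hWB] at dB
  rw [if_pos rfl, zero_add] at snB
  have hinv : 1 / (q (s l) : ℝ) ≤ 1 / (q 0 : ℝ) := inv_anti hq h0 (Nat.zero_le _)
  have hinvn : 0 ≤ 1 / (q n : ℝ) := by positivity
  -- part C
  set W := ∑ i ∈ range (l + 1), 1 / (q (s i) : ℝ) with hW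
  have dC : Dec (Y - W) h 0 {(Y - W, h)} := Dec.leaf (by linarith) hh.le
  have hd := (dA.beside dB).beside dC
  have eW : ∑ i ∈ range l, 1 / (q (s i) : ℝ) + 1 / (q (s l) : ℝ) + (Y - W) = Y := by
    rw [hW, Finset.sum_range_succ]
    ring
  have eS : (range (s l)).val.map q + (range (s' (0 + 1))).val.map q' + 0 =
      (range n).val.map q := by
    have h1 : n = s l + (n - s l) := by omega
    rw [add_zero, ← gch_sum_aux (q := q), ← gch_sum_aux (q := q'), ← gch_sum_aux (q := q)]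
    conv_rhs => rw [h1]
    rw [Finset.sum_range_add]
    rfl
  rw [eW, eS] at hd
  refine ⟨h, _, hh, hhH, hd, ?_, ?_⟩
  · intro r hr
    have hnn := hd.rect_nonneg r hr
    refine ⟨hnn.1, hnn.2, ?_⟩
    rcases Multiset.mem_add.1 hr with hr | hr
    · rcases Multiset.mem_add.1 hr with hr | hr
      · exact (mA r hr).2.2
      · rcases Multiset.mem_add.1 hr with hr | hr
        · rw [Multiset.mem_sum] at hr
          obtain ⟨i, hi, hr⟩ := hr
          rw [Multiset.mem_singleton] at hr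
          refine (min_le_left _ _).trans ?_
          rw [hr]
          exact inv_anti hq h0 (Nat.zero_le _)
        · refine (min_le_left _ _).trans ((mB r hr).2.1.trans ?_)
          show 1 / (q (s l + 0) : ℝ) - 1 / (q n : ℝ) ≤ 1 / (q 0 : ℝ)
          rw [add_zero]
          linarith
    · rw [Multiset.mem_singleton] at hr
      rw [hr]
      rcases hor with h1 | h1
      · exact (min_le_left _ _).trans (by show Y - W ≤ _; linarith)
      · exact (min_le_right _ _).trans (by show h ≤ _; linarith)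
  · rw [msum_add, msum_add, msum_add, msum_singleton, zero_add, Finset.sum_range_one,
      msum_singleton]
    have hSmc := c1_small Sm
    have hfB : msum Prod.fst Sm ≤ 1 / (q 0 : ℝ) + h * ρ := by
      refine fB.trans ?_
      show (((0 + 1 : ℕ) : ℝ) + h * (q n : ℝ)) * (1 / (q (s l) : ℝ) - 1 / (q n : ℝ)) ≤ _
      have h1 : 1 / (q (s l) : ℝ) - 1 / (q n : ℝ) ≤ 1 / (q 0 : ℝ) - 1 / (q n : ℝ) := by linarith
      have h2 : 0 ≤ ((0 + 1 : ℕ) : ℝ) + h * (q n : ℝ) := by positivity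
      refine (mul_le_mul_of_nonneg_left h1 h2).trans ?_
      have h3 : (((0 + 1 : ℕ) : ℝ) + h * (q n : ℝ)) * (1 / (q 0 : ℝ) - 1 / (q n : ℝ)) =
          1 / (q 0 : ℝ) - 1 / (q n : ℝ) + h * ((q n : ℝ) / q 0 - 1) := by
        push_cast
        field_simp
      rw [h3]
      linarith
    have htop : c1 (1 / (q' (s' (0 + 1) - 1) : ℝ),
        h - ∑ x ∈ Ico (s' 0) (s' (0 + 1)), 1 / (q' x : ℝ)) ≤
        4.72 * h + 5.4 * (1 / (q 0 : ℝ)) := by
      refine (c1_le _ _).trans ?_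
      have h1 : 0 ≤ ∑ x ∈ Ico (s' 0) (s' (0 + 1)), 1 / (q' x : ℝ) := by
        apply Finset.sum_nonneg
        intro i _
        positivity
      have h2 : 1 / (q' (s' (0 + 1) - 1) : ℝ) ≤ 1 / (q 0 : ℝ) := inv_anti hq h0 (Nat.zero_le _)
      linarith
    have hWs : W = ∑ i ∈ range l, 1 / (q (s i) : ℝ) + 1 / (q (s l) : ℝ) := by
      rw [hW, Finset.sum_range_succ]
    have hwl : 0 ≤ 1 / (q (s l) : ℝ) := by positivity
    have hleft : c1 (Y - W, h) ≤ 4.72 * h + 10.174 * (Y - W) + 5.4 * (1 / (q 0 : ℝ)) := by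
      rcases hor with h1 | h1
      · refine (c1_le _ _).trans ?_
        linarith
      · refine (c1_le' _ _).trans ?_
        rw [h1]
        have : 0 ≤ 1 / (q 0 : ℝ) := by positivity
        linarith
    have e1 : 4.82 / (q 0 : ℝ) = 4.82 * (1 / (q 0 : ℝ)) := by ring
    have e2 : 22 / (q 0 : ℝ) = 22 * (1 / (q 0 : ℝ)) := by ring
    have h5 : 0 ≤ 1 / (q 0 : ℝ) := by positivity
    have h6 : 0 ≤ h * ρ := mul_nonneg hh.le hρ0
    have h7 : 0 ≤ Y := by
      refine le_trans ?_ hWY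
      rw [hW]
      apply Finset.sum_nonneg
      intro i _
      positivity
    rw [e1] at cA
    rw [e2]
    linarith

end Pool.Agent.Moser
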