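import Pool.Agent.Lib_MP_cc07e8_co.EpC2
import Pool.Agent.Lib_MP_cc07e8_co.EpD
import Pool.Agent.Lib_MP_cc07e8_co.EpLow
import Pool.Agent.Lib_MP_cc07e8_co.EpDefs

/-!
# Main epoch: a full slab (helper86, for MP_cc07e8_co)
-/

namespace Pool.Agent.Moser

open Finset Pool.Agent.Shelf Eng

section

variable {q : ℕ → ℕ} {H Y : ℝ}

theorem mch_eq_cst (i : ℕ) : mch q H H 0 i = cst H 0 q 0 i := by
  induction i with
  | zero => rfl
  | succ i ih =>
    show mch q H H 0 i + ⌊(if i < 0 then H else H) * (q (mch q H H 0 i) : ℝ)⌋₊ =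
      cst H 0 q 0 i + ⌊H * (q (cst H 0 q 0 i) : ℝ) - 0⌋₊
    rw [ih, ite_self, sub_zero]

theorem mW_le_cwid (n : ℕ) : mW q n H H 0 ≤ cwid H 0 q 0 n := by
  unfold mW cwid
  apply Finset.sum_le_sum
  intro i _
  rw [mch_eq_cst]
  unfold mw
  split_ifs
  · exact le_rfl
  · positivity

theorem mW_le_cwid' {n J : ℕ} (h : n ≤ cst H 0 q 0 J) : mW q n H H 0 ≤ cwid H 0 q 0 J := by
  rcases Nat.lt_or_ge n J with hnJ | hnJ
  · refine (mW_le_cwid n).trans ?_
    unfold cwid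
    apply Finset.sum_le_sum_of_subset_of_nonneg (Finset.range_subset_range.2 hnJ.le)
    intro i _ _
    positivity
  · unfold mW cwid
    rw [← Finset.sum_subset (Finset.range_subset_range.2 hnJ)]
    · apply Finset.sum_le_sum
      intro i _
      rw [mch_eq_cst]
      unfold mw
      split_ifs
      · exact le_rfl
      · positivity
    · intro i _ hi
      rw [mem_range, not_lt] at hi
      rw [mch_eq_cst]
      unfold mw
      rw [if_neg]
      have := cst_mono (H := H) (θ := 0) (q := q) 0 hi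
      omega

/-- the number of columns -/
theorem cols_exist (h0 : 0 < q 0) {n : ℕ} (hY : 1 / (q 0 : ℝ) ≤ Y) (hno : Y < mW q n H H 0) :
    ∃ J : ℕ, 1 ≤ J ∧ cwid H 0 q 0 J ≤ Y ∧ Y < cwid H 0 q 0 J + 1 / (q (cst H 0 q 0 J) : ℝ) ∧
      cst H 0 q 0 J < n := by
  classical
  have hex : ∃ j, Y < cwid H 0 q 0 j := ⟨n, lt_of_lt_of_le hno (mW_le_cwid n)⟩
  set j := Nat.find hex with hj
  have hj1 : Y < cwid H 0 q 0 j := Nat.find_spec hex
  have hj2 : 2 ≤ j := by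
    by_contra hcon
    have hY0 : 0 < Y := lt_of_lt_of_le (by positivity) hY
    rcases (show j = 0 ∨ j = 1 by omega) with h1 | h1
    · rw [h1] at hj1
      simp [cwid] at hj1
      linarith
    · rw [h1] at hj1
      have : cwid H 0 q 0 1 = 1 / (q 0 : ℝ) := by
        unfold cwid
        rw [Finset.sum_range_one]
        rfl
      rw [this] at hj1
      linarith
  have hj3 : cwid H 0 q 0 (j - 1) ≤ Y := by
    have := Nat.find_min hex (show j - 1 < j by omega)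
    rwa [not_lt] at this
  refine ⟨j - 1, by omega, hj3, ?_, ?_⟩
  · have h1 : j = (j - 1) + 1 := by omega
    rw [h1] at hj1
    unfold cwid at hj1 ⊢
    rw [Finset.sum_range_succ] at hj1
    exact hj1
  · by_contra hcon
    rw [not_lt] at hcon
    have := mW_le_cwid' hcon
    linarith

end

/-- **A full slab.** -/
theorem full_slab {q : ℕ → ℕ} (hq : StrictMono q) {g a E n : ℕ} (hg : 10320 ≤ g) (hga : g ≤ a)
    (ha1 : tau a ≤ q 0) (ha2 : q 0 < tau (a + 1)) (hE : (E : ℝ) ≤ 1.25 * g) (hqn : q n = tau E)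
    {Y : ℝ} (hY0 : 0 < Y) (hYN : Y ^ 2 * ((tau g : ℝ) - 1) ≤ 1) (hYq : 1 / (q 0 : ℝ) ≤ Y)
    (hno : Y < mW q n (fK a (q 0) / (q 0 : ℝ)) (fK a (q 0) / (q 0 : ℝ)) 0) :
    ∃ (t b : ℕ) (O : Multiset (ℝ × ℝ)), 1 ≤ t ∧ t < n ∧ a ≤ b ∧ b < E ∧ tau b ≤ q t ∧
      q t < tau (b + 1) ∧ Dec Y (fK a (q 0) / (q 0 : ℝ)) ((range t).val.map q) O ∧
      (∀ r ∈ O, 0 ≤ r.1 ∧ 0 ≤ r.2 ∧ min r.1 r.2 ≤ 1 / (q 0 : ℝ)) ∧
      msum c1 O ≤ 905 * (1 / (a : ℝ) - 1 / (b : ℝ)) + 26 * (fK a (q 0) / (q 0 : ℝ)) +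
        5.4 * (Y * ((q t : ℝ) / q 0 - 1)) ∧
      ∀ T : ℝ, 1000 * (tau E : ℝ) ≤ T →
        msum (c2 T) O ≤ 625 * (1 / (a : ℝ) - 1 / (b : ℝ)) + 33 * (fK a (q 0) / (q 0 : ℝ)) +
        5.4 * (Y * ((q t : ℝ) / q 0 - 1)) := by
  have haR : (10320 : ℝ) ≤ a := by exact_mod_cast hg.trans hga
  have hgR : (10320 : ℝ) ≤ g := by exact_mod_cast hg
  have hgaR : (g : ℝ) ≤ a := by exact_mod_cast hga
  have h1 : (a : ℝ) ^ 3 / 27000 - 64 ≤ q 0 := by
    have h := tau_ge a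
    have h' : (tau a : ℝ) ≤ q 0 := by exact_mod_cast ha1
    linarith
  have h2 : (q 0 : ℝ) ≤ ((a : ℝ) + 1) ^ 3 / 27000 := by
    have h := tau_le (a + 1)
    have h' : (q 0 : ℝ) ≤ tau (a + 1) := by exact_mod_cast ha2.le
    push_cast at h
    linarith
  have hN : (0 : ℝ) < q 0 := lt_of_lt_of_le (by positivity) (qa_ge haR h1)
  have h0 : 0 < q 0 := by exact_mod_cast hN
  set K0 := fK a (q 0) with hK0d
  have hK1 : (K0 : ℝ) ≤ 990 * (q 0 : ℝ) / (a : ℝ) ^ 2 := Nat.floor_le (by positivity)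
  have hK2 : 990 * (q 0 : ℝ) / (a : ℝ) ^ 2 < (K0 : ℝ) + 1 := Nat.lt_floor_add_one _
  have hK3 := K0_ge haR h1 hK2
  have hK100 : 100 ≤ K0 := by
    have : (100 : ℝ) ≤ K0 := by linarith
    exact_mod_cast this
  set H : ℝ := K0 / (q 0 : ℝ) with hH
  have hHp : 0 < H := by
    have : (0 : ℝ) < K0 := by linarith
    positivity
  have hHq : 1 / (q 0 : ℝ) ≤ H := by
    rw [hH]
    apply div_le_div_of_nonneg_right _ hN.le
    linarith
  obtain ⟨J, hJ1, hJY, hJlt, hJn⟩ := cols_exist h0 hYq hno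
  set t := cst H 0 q 0 J with ht
  have htn : q t < q n := hq hJn
  have hqt0 : q 0 ≤ q t := hq.monotone (Nat.zero_le t)
  obtain ⟨b, hab, hb1, hb2⟩ := win_exists (ha1.trans hqt0)
  have hbE : b < E := win_lt hb1 (by rw [← hqn]; exact htn)
  have habR : (a : ℝ) ≤ b := by exact_mod_cast hab
  have hbER : (b : ℝ) ≤ E := by exact_mod_cast hbE.le
  have h4 : (q t : ℝ) ≤ ((b : ℝ) + 1) ^ 3 / 27000 := by
    have h := tau_le (b + 1)
    have h' : (q t : ℝ) ≤ tau (b + 1) := by exact_mod_cast hb2.le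
    push_cast at h
    linarith
  have hqab : (q 0 : ℝ) ≤ q t := by exact_mod_cast hqt0
  have hEt : (0 : ℝ) < q t := lt_of_lt_of_le hN hqab
  have hcc : ∀ j, 1 ≤ ccol H q j := by
    intro j
    have h3 : ccol H q 0 = K0 := ccol_zero h0 hH
    exact (show 1 ≤ ccol H q 0 by omega).trans (ccol_mono hq hHp.le (Nat.zero_le j))
  have hfull := fullHyp_of (W := cwid H 0 q 0 J) (T := ∑ j ∈ range J, tgap H 0 q 0 j)
    (Nn := ∑ j ∈ range J, (if cphi H q j ≤ 0.0161 then 1 / (q (cst H 0 q 0 j) : ℝ) else 0))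
    hgR hgaR habR (hbER.trans hE) h1 h2 h4 hqab hK1 hK2 (tau_ge g) hY0.le hYN hJY
    (W_le hq h0 hHp hK100 hH J) (T_le' hq h0 hHp (hcc 0) J) (T_le hq h0 hHp hK100 hH J)
    (N_le hq h0 hHp hK100 hH (by norm_num) J)
  have hc1b := hfull.cost1b
  have hc2b := hfull.cost2b
  have ha0 : (0 : ℝ) < a := by linarith
  have hb0 : (0 : ℝ) < b := by linarith
  have esu : (1 - (a : ℝ) / b) * (1 / a) = 1 / (a : ℝ) - 1 / b := by
    field_simp
  rw [esu] at hc1b hc2b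
  obtain ⟨Sm, hd, hSm, hf, hsn⟩ := slab_dec hq h0 (show 1 ≤ K0 by omega) hH hJ1 hJY
  have ht1 : 1 ≤ t := by
    have h3 : cst H 0 q 0 1 ≤ t := cst_mono 0 hJ1
    have h5 : cst H 0 q 0 (0 + 1) = cst H 0 q 0 0 + ccol H q 0 := cst_succ' 0
    have h6 : cst H 0 q 0 0 = 0 := rfl
    have h7 := hcc 0
    rw [zero_add] at h5
    omega
  have hinvt : 1 / (q t : ℝ) ≤ 1 / (q 0 : ℝ) := one_div_le_one_div_of_le hN hqab
  have hrest : Y - cwid H 0 q 0 J ≤ 1 / (q 0 : ℝ) := by linarith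
  have hmem : ∀ r ∈ ttops H 0 q 0 J + Sm + {(Y - cwid H 0 q 0 J, H)},
      0 ≤ r.1 ∧ 0 ≤ r.2 ∧ min r.1 r.2 ≤ 1 / (q 0 : ℝ) := by
    intro r hr
    have hnn := hd.rect_nonneg r hr
    refine ⟨hnn.1, hnn.2, (min_le_left _ _).trans ?_⟩
    rcases Multiset.mem_add.1 hr with hr | hr
    · rcases Multiset.mem_add.1 hr with hr | hr
      · unfold ttops at hr
        rw [Multiset.mem_sum] at hr
        obtain ⟨i, hi, hr⟩ := hr
        rw [Multiset.mem_singleton] at hr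
        rw [hr]
        exact inv_anti hq h0 (Nat.zero_le _)
      · refine (hSm r hr).2.1.trans ?_
        have : 0 ≤ 1 / (q t : ℝ) := by positivity
        show 1 / (q 0 : ℝ) - 1 / (q t : ℝ) ≤ _
        linarith
    · rw [Multiset.mem_singleton] at hr
      rw [hr]
      exact hrest
  -- costs of the small pieces
  set ρ := (q t : ℝ) / q 0 - 1 with hρ
  have hρ0 : 0 ≤ ρ := by
    have : 1 ≤ (q t : ℝ) / q 0 := (one_le_div hN).2 hqab
    linarith
  have hJW : (J : ℝ) * (1 / (q 0 : ℝ) - 1 / (q t : ℝ)) ≤ Y * ρ := by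
    have h5 : (J : ℝ) * (1 / (q t : ℝ)) ≤ cwid H 0 q 0 J := by
      unfold cwid
      calc (J : ℝ) * (1 / (q t : ℝ)) = ∑ i ∈ range J, 1 / (q t : ℝ) := by
            rw [Finset.sum_const, Finset.card_range, nsmul_eq_mul]
        _ ≤ _ := by
            apply Finset.sum_le_sum
            intro i hi
            rw [mem_range] at hi
            exact inv_anti hq h0 (cst_mono 0 hi.le)
    have h6 : 1 / (q 0 : ℝ) - 1 / (q t : ℝ) = 1 / (q t : ℝ) * ρ := by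
      rw [hρ]
      field_simp
    rw [h6, ← mul_assoc]
    exact mul_le_mul_of_nonneg_right (h5.trans hJY) hρ0
  have hHE : H * (q t : ℝ) * (1 / (q 0 : ℝ) - 1 / (q t : ℝ)) = H * ρ := by
    rw [hρ]
    field_simp
  have hfst : msum Prod.fst Sm ≤ Y * ρ + H * ρ := by
    refine hf.trans ?_
    show ((J : ℝ) + H * (q t : ℝ)) * (1 / (q 0 : ℝ) - 1 / (q t : ℝ)) ≤ _
    rw [add_mul, hHE]
    linarith
  have hSmc := c1_small Sm
  have hsnd : msum Prod.snd Sm ≤ H ^ 2 / 2 * ((q t : ℝ) - q 0) + H := hsn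
  have hlast : c1 (Y - cwid H 0 q 0 J, H) ≤ 10.12 * H := by
    refine (c1_le _ _).trans ?_
    linarith
  refine ⟨t, b, _, ht1, hJn, hab, hbE, hb1, hb2, hd, hmem, ?_, ?_⟩
  · rw [msum_add, msum_add, msum_singleton]
    have h7 := tops_c1 hq h0 hcc J
    linarith
  · intro T hT
    rw [msum_add, msum_add, msum_singleton]
    have h8 : 1000 * (q (cst H 0 q 0 J) : ℝ) ≤ T := by
      have : (q t : ℝ) ≤ tau E := by
        rw [← hqn]
        exact_mod_cast htn.le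
      have h9 : 1000 * (q t : ℝ) ≤ 1000 * (tau E : ℝ) := by linarith
      exact h9.trans hT
    have h7 := tops_c2 hq h0 hcc h8
    have h10 : msum (c2 T) Sm ≤ msum c1 Sm :=
      c2_msum_le fun r hr => ⟨(hSm r hr).1, (hSm r hr).2.2⟩
    have h11 : c2 T (Y - cwid H 0 q 0 J, H) ≤ c1 (Y - cwid H 0 q 0 J, H) :=
      c2_le_c1 (by show 0 ≤ Y - cwid H 0 q 0 J; linarith) hHp.le
    linarith

end Pool.Agent.Moser
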