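import Mathlib

/-!
# Main epoch: numerical bounds (helper86, for MP_cc07e8_co)
-/

namespace Pool.Agent.Moser

theorem epj_up {g X Y N : ℝ} (hg : 10320 ≤ g) (hNge : g ^ 3 / 27000 - 64 ≤ N) (hY : 0 < Y)
    (hXY : Y ≤ X) (hX : X ≤ 2 * Y) (hup : X * Y * (N - 1) ≤ 1) :
    Y ≤ 1.6177 / g ∧ X + Y ≤ 3.4314 / g := by
  have hg0 : 0 < g := by linarith
  have hg3 : (10320 : ℝ) ^ 3 ≤ g ^ 3 := pow_le_pow_left₀ (by norm_num) hg 3
  norm_num at hg3
  have hXYpos : 0 < X * Y := mul_pos (by linarith) hY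
  have hYX : Y ^ 2 ≤ X * Y := by
    have := mul_le_mul_of_nonneg_right hXY hY.le
    rw [sq]
    exact this
  have hXYle : X * Y ≤ 27001 / g ^ 3 := by
    have h6 : g ^ 3 / 27001 ≤ N - 1 := by linarith
    rw [le_div_iff₀ (by positivity)]
    have h8 : X * Y * (g ^ 3 / 27001) ≤ X * Y * (N - 1) :=
      mul_le_mul_of_nonneg_left h6 hXYpos.le
    linarith
  have hXYg : X * Y ≤ 2.6164 / g ^ 2 := by
    refine hXYle.trans ?_
    rw [div_le_div_iff₀ (by positivity) (by positivity)]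
    have h9 : g ^ 2 * 10320 ≤ g ^ 2 * g := mul_le_mul_of_nonneg_left hg (by positivity)
    have h10 : g ^ 3 = g ^ 2 * g := by ring
    rw [h10]
    linarith
  constructor
  · by_contra hcon
    rw [not_le] at hcon
    have h1 : (1.6177 / g) ^ 2 < Y ^ 2 := pow_lt_pow_left₀ hcon (by positivity) (by norm_num)
    have h2 : (1.6177 / g) ^ 2 = 2.61695329 / g ^ 2 := by
      rw [div_pow]
      norm_num
    rw [h2] at h1
    have h3 : 2.6164 / g ^ 2 ≤ 2.61695329 / g ^ 2 :=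
      div_le_div_of_nonneg_right (by norm_num) (by positivity)
    linarith
  · by_contra hcon
    rw [not_le] at hcon
    have h1 : (3.4314 / g) ^ 2 < (X + Y) ^ 2 :=
      pow_lt_pow_left₀ hcon (by positivity) (by norm_num)
    have h2 : (3.4314 / g) ^ 2 = 11.77450596 / g ^ 2 := by
      rw [div_pow]
      norm_num
    rw [h2] at h1
    have h4 : (X + Y) ^ 2 ≤ 4.5 * (X * Y) := by
      have h := mul_nonneg (show 0 ≤ 2 * Y - X by linarith) (show 0 ≤ X - Y / 2 by linarith)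
      have e : (2 * Y - X) * (X - Y / 2) = 4.5 * (X * Y) - (X + Y) ^ 2 := by
        ring
      linarith
    have h5 : 4.5 * (2.6164 / g ^ 2) ≤ 11.77450596 / g ^ 2 := by
      rw [← mul_div_assoc]
      exact div_le_div_of_nonneg_right (by norm_num) (by positivity)
    linarith

theorem epj_low {g Y T : ℝ} (hg : 10320 ≤ g) (hT0 : 0 < T) (hTle : T ≤ 1.953125 * g ^ 3 / 27000)
    (hY : 0 < Y) (h1 : 0.05 / T ≤ 2 * Y ^ 2) : 473 / g ^ 2 ≤ 0.6 * Y := by
  have hg0 : 0 < g := by linarith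
  have h3 : 691.2 / g ^ 3 ≤ 0.05 / T := by
    rw [div_le_div_iff₀ (by positivity) hT0]
    have : 691.2 * T ≤ 691.2 * (1.953125 * g ^ 3 / 27000) :=
      mul_le_mul_of_nonneg_left hTle (by norm_num)
    refine this.trans (le_of_eq ?_)
    ring
  by_contra hcon
  rw [not_le] at hcon
  have h4 : Y < 788.4 / g ^ 2 := by
    have : 788.4 / g ^ 2 = 1 / 0.6 * (473.04 / g ^ 2) := by ring
    have h5 : 473 / g ^ 2 ≤ 473.04 / g ^ 2 :=
      div_le_div_of_nonneg_right (by norm_num) (by positivity)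
    rw [this]
    linarith
  have h5 : Y ^ 2 < (788.4 / g ^ 2) ^ 2 := pow_lt_pow_left₀ h4 hY.le (by norm_num)
  have h6 : (788.4 / g ^ 2) ^ 2 = 621574.56 / g ^ 4 := by
    rw [div_pow, ← pow_mul]
    norm_num
  rw [h6] at h5
  have h7 : 621574.56 / g ^ 4 ≤ 345.6 / g ^ 3 := by
    rw [div_le_div_iff₀ (by positivity) (by positivity)]
    have : g ^ 3 * 10320 ≤ g ^ 3 * g := mul_le_mul_of_nonneg_left hg (by positivity)
    have h10 : g ^ 4 = g ^ 3 * g := by ring
    rw [h10]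
    linarith
  have h8 : 691.2 / g ^ 3 = 2 * (345.6 / g ^ 3) := by ring
  linarith

theorem epj_bud {g a E X Y N T Q : ℝ} (hg : 10320 ≤ g) (hga : g ≤ a) (haE : a ≤ E)
    (hE : E ≤ 1.25 * g) (hN : 0 < N) (hT0 : 0 < T) (hY : 0 < Y) (hratio : T ≤ 1.9532 * N)
    (hfrac : (T - Q) / N ≤ 0.9532) (hYg : Y ≤ 1.6177 / g) (hSg : X + Y ≤ 3.4314 / g) :
    (905 * (1 / a - 1 / E) + 5.4 * (Y * ((T - Q) / N)) + 10.18 * Y + 473 / g ^ 2 +
      35 * (X + Y)) / (4.72 * N) ≤ 0.015 / T := by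
  have hg0 : 0 < g := by linarith
  have hE0 : 0 < E := by linarith
  have hinv : 1 / a - 1 / E ≤ 0.2 / g := by
    have h0 := one_div_le_one_div_of_le hg0 hga
    have h2 : 0.8 / g ≤ 1 / E := by
      rw [div_le_div_iff₀ hg0 hE0]
      linarith
    have h3 : 1 / g = 0.2 / g + 0.8 / g := by
      rw [← add_div]
      norm_num
    linarith
  have hYf : Y * ((T - Q) / N) ≤ 0.9532 * Y := by
    have := mul_le_mul_of_nonneg_left hfrac hY.le
    linarith
  have h2 : 473 / g ^ 2 ≤ 0.05 / g := by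
    rw [div_le_div_iff₀ (by positivity) hg0]
    have h9 : g * 10320 ≤ g * g := mul_le_mul_of_nonneg_left hg hg0.le
    have h10 : g ^ 2 = g * g := by ring
    rw [h10]
    linarith
  have h3 : 905 * (1 / a - 1 / E) + 5.4 * (Y * ((T - Q) / N)) + 10.18 * Y + 473 / g ^ 2 +
      35 * (X + Y) ≤ 0.0316 := by
    have h4 : 905 * (1 / a - 1 / E) ≤ 181 / g := by
      have : 905 * (0.2 / g) = 181 / g := by ring
      linarith
    have h5 : 35 * (X + Y) ≤ 120.1 / g := by
      have : 35 * (3.4314 / g) ≤ 120.1 / g := by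
        rw [← mul_div_assoc]
        exact div_le_div_of_nonneg_right (by norm_num) hg0.le
      linarith
    have h6 : 5.4 * (Y * ((T - Q) / N)) + 10.18 * Y ≤ 24.9 / g := by
      have h7 : 15.33 * (1.6177 / g) ≤ 24.9 / g := by
        rw [← mul_div_assoc]
        exact div_le_div_of_nonneg_right (by norm_num) hg0.le
      linarith
    have h8 : 181 / g + 120.1 / g + 24.9 / g + 0.05 / g ≤ 0.0316 := by
      rw [← add_div, ← add_div, ← add_div, div_le_iff₀ hg0]
      linarith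
    linarith
  rw [div_le_div_iff₀ (by positivity) hT0]
  have h9 : (905 * (1 / a - 1 / E) + 5.4 * (Y * ((T - Q) / N)) + 10.18 * Y + 473 / g ^ 2 +
      35 * (X + Y)) * T ≤ 0.0316 * (1.9532 * N) := mul_le_mul h3 hratio hT0.le (by norm_num)
  linarith

end Pool.Agent.Moser
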