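import Pool.Agent.Lib_MP_cc07e8_co.EpD
import Pool.Agent.Lib_MP_cc07e8_co.EpDefs
import Pool.Agent.Lib_MP_cc07e8_co.EpJn

/-!
# Main epoch: end of the proof (helper86, for MP_cc07e8_co)
-/

namespace Pool.Agent.Moser

open Finset Eng

/-- enumeration of a finite set followed by everything from `T` on -/
theorem enum_exists (F : Finset ℕ) (T : ℕ) (hF : ∀ m ∈ F, m < T) :
    ∃ q : ℕ → ℕ, StrictMono q ∧ q F.card = T ∧ (range F.card).val.map q = F.val := by
  classical
  set p : ℕ → Prop := fun m => m ∈ F ∨ T ≤ m with hp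
  have hinf : {m | p m}.Infinite := by
    apply Set.infinite_of_not_bddAbove
    rintro ⟨M, hM⟩
    have h1 : max (M + 1) T ∈ {m | p m} := Or.inr (le_max_right _ _)
    have h2 := hM h1
    have h3 : M + 1 ≤ max (M + 1) T := le_max_left _ _
    omega
  have hmono : StrictMono (Nat.nth p) := Nat.nth_strictMono hinf
  have hcount : Nat.count p T = F.card := by
    rw [Nat.count_eq_card_filter_range]
    congr 1
    ext m
    rw [mem_filter, mem_range]
    constructor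
    · rintro ⟨h1, h2 | h2⟩
      · exact h2
      · omega
    · intro h
      exact ⟨hF m h, Or.inl h⟩
  have hqT : Nat.nth p F.card = T := by
    rw [← hcount]
    exact Nat.nth_count (Or.inr le_rfl)
  have himg : (range F.card).map ⟨Nat.nth p, hmono.injective⟩ = F := by
    ext m
    rw [Finset.mem_map]
    constructor
    · rintro ⟨i, hi, rfl⟩
      rw [mem_range] at hi
      have h1 : Nat.nth p i < T := by
        rw [← hqT]
        exact hmono hi
      rcases Nat.nth_mem_of_infinite hinf i with h2 | h2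
      · exact h2
      · exact absurd h2 (not_le.2 h1)
    · intro hm
      have hpm : p m := Or.inl hm
      refine ⟨Nat.count p m, ?_, Nat.nth_count hpm⟩
      rw [mem_range, ← hcount]
      exact Nat.count_strict_mono hpm (hF m hm)
  refine ⟨Nat.nth p, hmono, hqT, ?_⟩
  have h := congrArg Finset.val himg
  rw [Finset.map_val] at h
  exact h

theorem sqa_eq_sum (S : Multiset ℕ) : sqa S = (S.map fun m : ℕ => 1 / (m : ℝ) ^ 2).sum := by
  induction S using Multiset.induction_on with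
  | empty => simp
  | cons a S ih =>
    rw [← Multiset.singleton_add, sqa_add, ih, Multiset.map_add, Multiset.sum_add, sqa_singleton,
      Multiset.map_singleton, Multiset.sum_singleton]
    congr 1
    ring

theorem inv_sub_le_sum {g E : ℕ} (hg : 1 ≤ g) (hgE : g ≤ E) :
    1 / (g : ℝ) - 1 / (E : ℝ) ≤ ∑ i ∈ Ico g E, 1 / (i : ℝ) ^ 2 := by
  induction E, hgE using Nat.le_induction with
  | base => simp
  | succ E hE ih =>
    rw [Finset.sum_Ico_succ_top hE]
    have hE0 : (0 : ℝ) < E := by exact_mod_cast (by omega : 0 < E)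
    have h1 : 1 / (E : ℝ) - 1 / ((E + 1 : ℕ) : ℝ) ≤ 1 / (E : ℝ) ^ 2 := by
      push_cast
      rw [div_sub_div _ _ hE0.ne' (by positivity), div_le_div_iff₀ (by positivity) (by positivity)]
      nlinarith
    linarith

/-- **Main epoch.** -/
theorem main_epoch_aux (iter : IterStmt) {g E : ℕ} (hg : 10320 ≤ g) (hgE : g ≤ E) (hE : (E : ℝ) ≤ 1.25 * g)
    (F : Finset ℕ) (hF : ∀ q ∈ F, tau g ≤ q ∧ q < tau E) {X Y : ℝ} (hY : 0 < Y) (hXY : Y ≤ X)
    (hX : X ≤ 2 * Y) (hup : X * Y * ((tau g : ℝ) - 1) ≤ 1)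
    (hlo : ∑ q ∈ F, 1 / (q : ℝ) ^ 2 + 0.05 / (tau E : ℝ) ≤ X * Y) :
    ∃ (X' Y' : ℝ) (O : Multiset (ℝ × ℝ)), 0 < Y' ∧ Y' ≤ X' ∧ X' ≤ 2 * Y' ∧ X' + Y' ≤ X + Y ∧
      Ref {(X, Y)} F.val ({(X', Y')} + O) ∧
      (∀ r ∈ O, 0 ≤ r.1 ∧ 0 ≤ r.2 ∧ min r.1 r.2 ≤ 1 / (tau g : ℝ)) ∧
      msum c1 O ≤ 905 * ∑ i ∈ Ico g E, 1 / (i : ℝ) ^ 2 +
        35 * ((X + Y) - (X' + Y')) + 16 * Y ∧
      ∀ t : ℝ, 1000 * (tau E : ℝ) ≤ t →
        msum (c2 t) O ≤ 625 * ∑ i ∈ Ico g E, 1 / (i : ℝ) ^ 2 +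
          35 * ((X + Y) - (X' + Y')) + 16 * Y := by
  have hgR : (10320 : ℝ) ≤ g := by exact_mod_cast hg
  have hg0 : (0 : ℝ) < g := by linarith
  have hg3 : (10320 : ℝ) ^ 3 ≤ (g : ℝ) ^ 3 := pow_le_pow_left₀ (by norm_num) hgR 3
  norm_num at hg3
  have hNge := tau_ge g
  have hN1 : (1000 : ℝ) ≤ tau g := by linarith
  have hN : (0 : ℝ) < tau g := by linarith
  have hNE : (tau g : ℝ) ≤ tau E := by exact_mod_cast tau_mono hgE
  have hT0 : (0 : ℝ) < tau E := by linarith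
  have hTle := tauE_le hE
  have hsum0 : 0 ≤ ∑ i ∈ Ico g E, 1 / (i : ℝ) ^ 2 := Finset.sum_nonneg fun i _ => by positivity
  rcases Nat.eq_zero_or_pos F.card with hF0 | hF1
  · -- nothing to do
    have hFe : F = ∅ := Finset.card_eq_zero.1 hF0
    refine ⟨X, Y, 0, hY, hXY, hX, le_rfl, ?_, fun r hr => absurd hr (Multiset.notMem_zero r),
      ?_, ?_⟩
    · rw [hFe, add_zero]
      exact Ref.refl _
    · rw [msum_zero]
      have : 0 ≤ X + Y - (X + Y) := by linarith
      positivity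
    · intro t _
      rw [msum_zero]
      have : 0 ≤ X + Y - (X + Y) := by linarith
      positivity
  obtain ⟨q, hq, hqn, hqF⟩ := enum_exists F (tau E) fun m hm => (hF m hm).2
  set n := F.card with hn
  have hmem : q 0 ∈ F := by
    have h1 : q 0 ∈ F.val := by
      rw [← hqF, Multiset.mem_map]
      exact ⟨0, by rw [Finset.mem_val, mem_range]; exact hF1, rfl⟩
    exact h1
  have hNq := (hF _ hmem).1
  have hqE := (hF _ hmem).2
  obtain ⟨a, hga, ha1, ha2⟩ := win_exists hNq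
  have haE : a < E := win_lt ha1 hqE
  have hgaR : (g : ℝ) ≤ a := by exact_mod_cast hga
  have haER : (a : ℝ) ≤ E := by exact_mod_cast haE.le
  have hNqR : (tau g : ℝ) ≤ q 0 := by exact_mod_cast hNq
  have hqER : (q 0 : ℝ) ≤ tau E := by exact_mod_cast hqE.le
  -- bounds for Y
  have hXYpos : 0 < X * Y := mul_pos (by linarith) hY
  have hYX : Y ^ 2 ≤ X * Y := by
    have := mul_le_mul_of_nonneg_right hXY hY.le
    rw [sq]
    exact this
  have hYN : Y ^ 2 * ((tau g : ℝ) - 1) ≤ 1 := by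
    refine le_trans ?_ hup
    exact mul_le_mul_of_nonneg_right hYX (by linarith)
  obtain ⟨hYg, hSg⟩ := epj_up hgR hNge hY hXY hX hup
  have hYlow : 473 / (g : ℝ) ^ 2 ≤ 0.6 * Y := by
    apply epj_low hgR hT0 hTle hY
    have h2 : 0 ≤ ∑ q ∈ F, 1 / (q : ℝ) ^ 2 := Finset.sum_nonneg fun i _ => by positivity
    have h3 : X * Y ≤ 2 * Y * Y := mul_le_mul_of_nonneg_right hX hY.le
    have h4 : 2 * Y * Y = 2 * Y ^ 2 := by ring
    rw [h4] at h3
    linarith
  -- the budget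
  have hratio : (tau E : ℝ) ≤ 1.9532 * tau g := by linarith
  have hfrac : ((tau E : ℝ) - q 0) / tau g ≤ 0.9532 := by
    rw [div_le_iff₀ hN]
    linarith
  have hfrac0 : 0 ≤ ((tau E : ℝ) - q 0) / tau g := div_nonneg (by linarith) hN.le
  have hYf : Y * (((tau E : ℝ) - q 0) / tau g) ≤ 0.9532 * Y := by
    have := mul_le_mul_of_nonneg_left hfrac hY.le
    linarith
  have hinv : 1 / (a : ℝ) - 1 / (E : ℝ) ≤ 1 / (g : ℝ) - 1 / (E : ℝ) := by
    have := one_div_le_one_div_of_le hg0 hgaR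
    linarith
  have hinv0 : 0 ≤ 1 / (a : ℝ) - 1 / (E : ℝ) := by
    have := one_div_le_one_div_of_le (show (0 : ℝ) < a by linarith) haER
    linarith
  have hinvs := inv_sub_le_sum (show 1 ≤ g by omega) hgE
  have hbud : ∀ c : ℝ, 0 ≤ c → bud c g E Y a (q 0) ≤
      c * ∑ i ∈ Ico g E, 1 / (i : ℝ) ^ 2 + 16 * Y := by
    intro c hc
    unfold bud
    have h1 : c * (1 / (a : ℝ) - 1 / (E : ℝ)) ≤ c * ∑ i ∈ Ico g E, 1 / (i : ℝ) ^ 2 :=
      mul_le_mul_of_nonneg_left (hinv.trans hinvs) hc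
    linarith
  have hbudA : (bud 905 g E Y a (q 0) + 35 * (X + Y)) / (4.72 * (tau g : ℝ)) ≤
      0.015 / (tau E : ℝ) := by
    unfold bud
    exact epj_bud hgR hgaR haER hE hN hT0 hY hratio hfrac hYg hSg
  have hsqa : sqa ((range n).val.map q) = ∑ q ∈ F, 1 / (q : ℝ) ^ 2 := by
    rw [hqF]
    exact sqa_eq_sum F.val
  obtain ⟨X', Y', O, hY', hXY', hX', hsum, hR, hm, hc1, hc2⟩ := iter hg hE hYN n q a X Y hF1 hq
    hga ha1 ha2 hqn hY hXY hX le_rfl (by
      rw [hsqa]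
      have e : 0.05 / (tau E : ℝ) = 0.035 / (tau E : ℝ) + 0.015 / (tau E : ℝ) := by
        rw [← add_div]
        norm_num
      linarith)
  refine ⟨X', Y', O, hY', hXY', hX', hsum, ?_, hm, ?_, ?_⟩
  · rw [← hqF]
    exact hR
  · have := hbud 905 (by norm_num)
    linarith
  · intro t ht
    have h1 := hc2 t ht
    have := hbud 625 (by norm_num)
    linarith

end Pool.Agent.Moser
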