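import Pool.Agent.Lib_MP_cc07e8_co.EpI
import Pool.Agent.Lib_MP_cc07e8_co.EpJ
import Pool.Agent.Lib_MP_cc07e8_co.EpF

/-!
# Main epoch: assembly (helper86, for MP_cc07e8_co)
-/

namespace Pool.Agent.Moser

theorem iter_all : IterStmt := iter low_slab full_slab

theorem main_epoch_all : MainEpochStmt := main_epoch_aux iter_all

end Pool.Agent.Moser
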