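import Pool.Agent.Lib_MP_cc07e8_co.EngEnd
import Pool.Agent.Lib_MP_cc07e8_co.EpK

/-!
# MP_cc07e8_co, full problem: from coordinates to rigid motions

`packing_of_start` gives the positions of the squares; here it is turned into isometries of the plane.
-/

namespace Pool.Agent.Moser.Eng

/-- the plane -/
abbrev Plane : Type := EuclideanSpace ℝ (Fin 2)

/-- the closed square of side `1 / n` -/
def sqr (n : ℕ) : Set Plane := {p | ∀ i, 0 ≤ p i ∧ p i ≤ 1 / (n : ℝ)}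

/-- the closed rectangle `[0, a] × [0, b]` -/
def rct (a b : ℝ) : Set Plane := {p | 0 ≤ p 0 ∧ p 0 ≤ a ∧ 0 ≤ p 1 ∧ p 1 ≤ b}

/-- translation by `(x, y)` -/
noncomputable def trn (x y : ℝ) : Plane ≃ᵢ Plane := IsometryEquiv.addRight (!₂[x, y] : Plane)

theorem trn_image (n : ℕ) (x y : ℝ) : trn x y '' sqr n =
    {p | x ≤ p 0 ∧ p 0 ≤ x + 1 / (n : ℝ) ∧ y ≤ p 1 ∧ p 1 ≤ y + 1 / (n : ℝ)} := by
  ext p
  constructor
  · rintro ⟨q, hq, rfl⟩
    have h0 := hq 0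
    have h1 := hq 1
    simp only [trn, IsometryEquiv.addRight_apply, Set.mem_setOf_eq, PiLp.add_apply,
      PiLp.toLp_apply, Matrix.cons_val_zero, Matrix.cons_val_one, Matrix.cons_val_fin_one]
    refine ⟨by linarith, by linarith, by linarith, by linarith⟩
  · rintro ⟨h1, h2, h3, h4⟩
    refine ⟨p - !₂[x, y], ?_, ?_⟩
    · intro i
      fin_cases i
      · simp only [Fin.zero_eta, Fin.isValue, PiLp.sub_apply, PiLp.toLp_apply,
          Matrix.cons_val_zero]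
        constructor <;> linarith
      · simp only [Fin.mk_one, Fin.isValue, PiLp.sub_apply, PiLp.toLp_apply,
          Matrix.cons_val_one, Matrix.cons_val_fin_one]
        constructor <;> linarith
    · simp [trn]

theorem interior_trn (n : ℕ) (x y : ℝ) : interior (trn x y '' sqr n) ⊆
    {p | x < p 0 ∧ p 0 < x + 1 / (n : ℝ) ∧ y < p 1 ∧ p 1 < y + 1 / (n : ℝ)} := by
  rw [trn_image]
  have hc : ∀ i : Fin 2, Continuous fun p : Plane => p i := fun i => by fun_prop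
  have ho : ∀ i : Fin 2, IsOpenMap fun p : Plane => p i := by
    intro i
    have h1 : IsOpenMap (fun f : Fin 2 → ℝ => f i) := isOpenMap_eval i
    exact h1.comp (EuclideanSpace.equiv (Fin 2) ℝ).toHomeomorph.isOpenMap
  have key : ∀ i : Fin 2, ∀ a b : ℝ, interior {p : Plane | a ≤ p i ∧ p i ≤ b} ⊆
      {p | a < p i ∧ p i < b} := by
    intro i a b
    have h2 : {p : Plane | a ≤ p i ∧ p i ≤ b} = (fun p : Plane => p i) ⁻¹' Set.Icc a b := rfl
    rw [h2, ← (ho i).preimage_interior_eq_interior_preimage (hc i), interior_Icc]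
    exact subset_rfl
  intro p hp
  have e1 : {p : Plane | x ≤ p 0 ∧ p 0 ≤ x + 1 / (n : ℝ) ∧ y ≤ p 1 ∧ p 1 ≤ y + 1 / (n : ℝ)} ⊆
      {p | x ≤ p 0 ∧ p 0 ≤ x + 1 / (n : ℝ)} := fun q hq => ⟨hq.1, hq.2.1⟩
  have e2 : {p : Plane | x ≤ p 0 ∧ p 0 ≤ x + 1 / (n : ℝ) ∧ y ≤ p 1 ∧ p 1 ≤ y + 1 / (n : ℝ)} ⊆
      {p | y ≤ p 1 ∧ p 1 ≤ y + 1 / (n : ℝ)} := fun q hq => ⟨hq.2.2.1, hq.2.2.2⟩
  have h1 := key 0 _ _ (interior_mono e1 hp)
  have h2 := key 1 _ _ (interior_mono e2 hp)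
  exact ⟨h1.1, h1.2, h2.1, h2.2⟩

/-- the packing in terms of isometries -/
theorem motions_of_start {a b X0 Y0 : ℝ} {G : Multiset (ℝ × ℝ)} (hS : Start a b X0 Y0 G) :
    0 < a ∧ 0 < b ∧ ∃ f : ℕ → (Plane ≃ᵢ Plane), (∀ n, 2 ≤ n → f n '' sqr n ⊆ rct a b) ∧
      ∀ m n, 2 ≤ m → 2 ≤ n → m ≠ n →
        Disjoint (interior (f m '' sqr m)) (interior (f n '' sqr n)) := by
  obtain ⟨px, py, h1, h2⟩ := packing_of_start Pool.Agent.Moser.main_epoch_all hS
  obtain ⟨a1, a2, a3, a4⟩ := h1 2 le_rfl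
  refine ⟨?_, ?_, fun n => trn (px n) (py n), ?_, ?_⟩
  · norm_num at a2; linarith
  · norm_num at a4; linarith
  · intro n hn
    obtain ⟨b1, b2, b3, b4⟩ := h1 n hn
    simp only
    rw [trn_image]
    rintro p ⟨c1, c2, c3, c4⟩
    exact ⟨by linarith, by linarith, by linarith, by linarith⟩
  · intro m n hm hn hmn
    rw [Set.disjoint_left]
    intro p hp hq
    obtain ⟨c1, c2, c3, c4⟩ := interior_trn _ _ _ hp
    obtain ⟨d1, d2, d3, d4⟩ := interior_trn _ _ _ hq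
    rcases h2 m n hm hn hmn with h3 | h3 | h3 | h3 <;> linarith

end Pool.Agent.Moser.Eng
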