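import Mathlib

/-!
# MP_cc07e8_co, engine piece GR: the grid of the random splits
-/

namespace Pool.Agent.Moser.Eng

/-- grid of `[1 / 8, 7 / 8]` -/
noncomputable def gr (J j : ℕ) : ℝ := 1 / 8 + 3 / 4 * (2 * (j : ℝ) + 1) / (2 * (J : ℝ))

theorem gr_symm {J j : ℕ} (h : j < J) : 1 - gr J j = gr J (J - 1 - j) := by
  have hJ : (0 : ℝ) < J := by exact_mod_cast (by omega : 0 < J)
  have h1 : ((J - 1 - j : ℕ) : ℝ) = (J : ℝ) - 1 - j := by
    rw [Nat.cast_sub (by omega), Nat.cast_sub (by omega)]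
    simp
  unfold gr
  rw [h1]
  field_simp
  ring

theorem gr_bounds {J j : ℕ} (h : j < J) : 1 / 8 ≤ gr J j ∧ gr J j ≤ 7 / 8 := by
  have hJ : (0 : ℝ) < J := by exact_mod_cast (by omega : 0 < J)
  have h1 : (j : ℝ) + 1 ≤ J := by exact_mod_cast h
  have hj : (0 : ℝ) ≤ j := Nat.cast_nonneg j
  unfold gr
  constructor
  · have : 0 ≤ 3 / 4 * (2 * (j : ℝ) + 1) / (2 * (J : ℝ)) := by positivity
    linarith
  · have : 3 / 4 * (2 * (j : ℝ) + 1) / (2 * (J : ℝ)) ≤ 3 / 4 := by
      rw [div_le_iff₀ (by positivity)]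
      linarith
    linarith

/-- number of grid points in a half open interval of length `d`: step `3 / (4 J)` -/
theorem gr_count {J : ℕ} (hJ : 0 < J) {c d : ℝ} (hd : 0 ≤ d) (T : Finset ℕ)
    (hT : ∀ j ∈ T, c < gr J j ∧ gr J j ≤ c + d) : (T.card : ℝ) ≤ 4 * (J : ℝ) * d / 3 + 1 := by
  have hJ0 : (0 : ℝ) < J := by exact_mod_cast hJ
  rcases T.eq_empty_or_nonempty with rfl | hne
  · simp only [Finset.card_empty, Nat.cast_zero]
    positivity
  · set a := T.min' hne with ha
    set b := T.max' hne with hb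
    have hab : a ≤ b := Finset.min'_le _ _ (Finset.max'_mem _ _)
    have hsub : T ⊆ Finset.Icc a b := fun x hx =>
      Finset.mem_Icc.2 ⟨Finset.min'_le _ _ hx, Finset.le_max' _ _ hx⟩
    have hcard := Finset.card_le_card hsub
    rw [Nat.card_Icc] at hcard
    have h1 : (T.card : ℝ) ≤ (b : ℝ) - a + 1 := by
      have h2 : T.card + a ≤ b + 1 := by omega
      have h3 : (T.card : ℝ) + a ≤ b + 1 := by exact_mod_cast h2
      linarith
    have ha1 := (hT a (Finset.min'_mem _ _)).1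
    have hb1 := (hT b (Finset.max'_mem _ _)).2
    have h4 : gr J b - gr J a = 3 / 4 * ((b : ℝ) - a) / J := by
      unfold gr
      field_simp
      ring
    have h5 : 3 / 4 * ((b : ℝ) - a) / J < d := by rw [← h4]; linarith
    rw [div_lt_iff₀ hJ0] at h5
    have h6 : (b : ℝ) - a ≤ 4 * (J : ℝ) * d / 3 := by linarith
    linarith

end Pool.Agent.Moser.Eng
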