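import Pool.Agent.Lib_MP_cc07e8_co.EngChildW

/-!
# MP_cc07e8_co, engine piece HIT: rows which are hit by the children

`w` in window `i ≥ 10305`, `q` in its range, child `c = (w - 1 / q, 1 / q)`, row `k ≥ 10320` with `xx k c ≠ 0`: there is a
window `i'` with `i' + 4 ≤ k ≤ i' + 15`, `InW i' c.1` (definition of `xx`).
(1) `8.95 k ^ 3 ≤ i ^ 4`: `c.1 > 1 / tau (i + 1) - 1 / tau (i + 4)` and `tau (k - 15) ≤ tau i' ≤ 1 / c.1`, so
`tau (k - 15) (tau (i + 4) - tau (i + 1)) ≤ tau (i + 1) tau (i + 4)`. With `tau (i + 4) - tau (i + 1) ≥ (9 i ^ 2 + 45 i + 63) / 27000 - 64`,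
`tau (i + 1) ≤ (i + 1) ^ 3 / 27000`, .. : `(k - 15) ^ 3 - 1728000 ≤ i ^ 4 / 9 (1 + 10 / i + 0.0019)`, at `i ≥ 10305`: `≤ i ^ 4 * 0.11143`. If
`i ^ 4 < 8.95 k ^ 3` then `k > 5.9 i ≥ 60000`, `(k - 15) ^ 3 - 1728000 ≥ 0.9992 k ^ 3`, so `0.9992 k ^ 3 ≤ 0.11143 i ^ 4 < 0.9973 k ^ 3`,
contradiction. (Real minimum of `i ^ 4 / k ^ 3`: `8.97295`.)
(2) `(i + 15) ^ 4 ≤ 48.2 k ^ 3`: `c.1 ≤ 1.301e6 / (i + 15) ^ 4` (`child_width`) and `1 < tau (i' + 1) c.1`, `i' + 1 ≤ k - 3`,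
`tau (k - 3) ≤ (k - 3) ^ 3 / 27000`: `(i + 15) ^ 4 < 1.301e6 / 27000 (k - 3) ^ 3 = 48.1852 (k - 3) ^ 3`.
(3) `61000 ≤ k`: from (2), `10320 ^ 4 / 48.2 > 61000 ^ 3`.
-/

namespace Pool.Agent.Moser.Eng

/-- a nonzero load comes from a window `i'` of the child -/
theorem xx_window {k : ℕ} {r : ℝ × ℝ} (hx : xx k r ≠ 0) :
    ∃ j, k - 15 ≤ j ∧ j ≤ k - 4 ∧ InW j r.1 := by
  classical
  unfold xx at hx
  obtain ⟨j, hj, hj'⟩ := Finset.exists_ne_zero_of_sum_ne_zero hx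
  rw [Finset.mem_Icc] at hj
  refine ⟨j, hj.1, hj.2, ?_⟩
  by_contra hc
  rw [if_neg hc] at hj'
  exact hj' rfl

/-- polynomial inequality for (1) -/
private lemma poly1 {x : ℝ} (hx : 10305 ≤ x) :
    (x + 1) ^ 3 * (x + 4) ^ 3 ≤ 0.11143 * x ^ 4 * (9 * x ^ 2 + 45 * x + 63 - 1728000) := by
  obtain ⟨n, hn, rfl⟩ : ∃ n : ℝ, 0 ≤ n ∧ x = n + 10305 := ⟨x - 10305, by linarith, by ring⟩
  rw [← sub_nonneg]
  have : 0.11143 * (n + 10305) ^ 4 * (9 * (n + 10305) ^ 2 + 45 * (n + 10305) + 63 - 1728000) -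
      (n + 10305 + 1) ^ 3 * (n + 10305 + 4) ^ 3 =
      (287 / 100000) * n ^ 6 +
        (3349329 / 20000) * n ^ 5 +
        (386446809009 / 100000) * n ^ 4 +
        (442696029520723 / 10000) * n ^ 3 +
        (1013847026514057309 / 4000) * n ^ 2 +
        (475905487069961747241 / 800) * n ^ 1 +
        (16673325709034685558179 / 160) := by ring
  rw [this]
  positivity

theorem child_hit {i q k : ℕ} (hi : 10305 ≤ i) (hk : 10320 ≤ k) {w : ℝ} (h : InW i w)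
    (h1 : tau (i + 4) ≤ q) (h2 : q < tau (i + 16))
    (hx : xx k (w - 1 / (q : ℝ), 1 / (q : ℝ)) ≠ 0) :
    8.95 * (k : ℝ) ^ 3 ≤ (i : ℝ) ^ 4 ∧ ((i : ℝ) + 15) ^ 4 ≤ 48.2 * (k : ℝ) ^ 3 ∧ 61000 ≤ k := by
  obtain ⟨j, hj1, hj2, hj⟩ := xx_window hx
  simp only at hj
  have hiR : (10305 : ℝ) ≤ i := by exact_mod_cast hi
  have hkR : (10320 : ℝ) ≤ k := by exact_mod_cast hk
  have ht4 : 4e7 ≤ (tau (i + 4) : ℝ) := tau_pos (by omega)
  have ht1 : 4e7 ≤ (tau (i + 1) : ℝ) := tau_pos (by omega)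
  have hq : (tau (i + 4) : ℝ) ≤ q := by exact_mod_cast h1
  have hq0 : (0 : ℝ) < q := by linarith
  -- (2)
  have hc : (w - 1 / (q : ℝ)) ≤ 1.301e6 / ((i : ℝ) + 15) ^ 4 :=
    child_width hi h (by exact_mod_cast hq0) h2
  have h15 : (0 : ℝ) < ((i : ℝ) + 15) ^ 4 := by positivity
  have hcpos : 0 < w - 1 / (q : ℝ) := InW_pos hj
  have hk3 : (tau (j + 1) : ℝ) ≤ (k : ℝ) ^ 3 / 27000 := by
    have e1 : (tau (j + 1) : ℝ) ≤ tau k := by exact_mod_cast tau_mono (by omega)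
    exact e1.trans (tau_le k)
  have hk0 : (0 : ℝ) < (k : ℝ) ^ 3 := by positivity
  have two : ((i : ℝ) + 15) ^ 4 ≤ 48.2 * (k : ℝ) ^ 3 := by
    have e1 : 1 < (tau (j + 1) : ℝ) * (w - 1 / (q : ℝ)) := hj.2
    have e2 : (tau (j + 1) : ℝ) * (w - 1 / (q : ℝ)) ≤
        (k : ℝ) ^ 3 / 27000 * (1.301e6 / ((i : ℝ) + 15) ^ 4) :=
      mul_le_mul hk3 hc hcpos.le (by positivity)
    have e3 : 1 ≤ (k : ℝ) ^ 3 / 27000 * (1.301e6 / ((i : ℝ) + 15) ^ 4) := by linarith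
    have e4 : (k : ℝ) ^ 3 / 27000 * (1.301e6 / ((i : ℝ) + 15) ^ 4) =
        (k : ℝ) ^ 3 / 27000 * 1.301e6 / ((i : ℝ) + 15) ^ 4 := by ring
    rw [e4, le_div_iff₀ h15] at e3
    have e5 : (k : ℝ) ^ 3 / 27000 * 1.301e6 ≤ 48.2 * (k : ℝ) ^ 3 := by linarith
    linarith
  refine ⟨?_, two, ?_⟩
  · -- (1)
    by_contra hlt
    push Not at hlt
    have hi4 : (10305 : ℝ) ^ 4 ≤ (i : ℝ) ^ 4 := by gcongr
    have hk6 : (60000 : ℝ) ≤ k := by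
      by_contra hc6
      push Not at hc6
      have : (k : ℝ) ^ 3 ≤ 60000 ^ 3 := by gcongr
      norm_num at hi4 this
      linarith
    have hw : 1 / (tau (i + 1) : ℝ) < w := by
      rw [div_lt_iff₀ (by linarith)]
      linarith [h.2]
    have hq' : 1 / (q : ℝ) ≤ 1 / (tau (i + 4) : ℝ) :=
      one_div_le_one_div_of_le (by linarith) hq
    have hj3 : (tau (k - 15) : ℝ) ≤ tau j := by exact_mod_cast tau_mono hj1
    have hk15 : ((k - 15 : ℕ) : ℝ) = (k : ℝ) - 15 := by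
      rw [Nat.cast_sub (by omega)]; norm_num
    have ht15 := lt_tau (k - 15)
    rw [hk15] at ht15
    have e1 : (tau (k - 15) : ℝ) * (1 / (tau (i + 1) : ℝ) - 1 / (tau (i + 4) : ℝ)) ≤ 1 := by
      have e2 : 1 / (tau (i + 1) : ℝ) - 1 / (tau (i + 4) : ℝ) ≤ w - 1 / (q : ℝ) := by linarith
      have e3 : (tau (k - 15) : ℝ) * (1 / (tau (i + 1) : ℝ) - 1 / (tau (i + 4) : ℝ)) ≤
          (tau (k - 15) : ℝ) * (w - 1 / (q : ℝ)) :=
        mul_le_mul_of_nonneg_left e2 (Nat.cast_nonneg _)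
      have e4 : (tau (k - 15) : ℝ) * (w - 1 / (q : ℝ)) ≤ (tau j : ℝ) * (w - 1 / (q : ℝ)) :=
        mul_le_mul_of_nonneg_right hj3 hcpos.le
      linarith [hj.1]
    have e5 : (tau (k - 15) : ℝ) * ((tau (i + 4) : ℝ) - tau (i + 1)) ≤
        (tau (i + 1) : ℝ) * tau (i + 4) := by
      have e6 : 1 / (tau (i + 1) : ℝ) - 1 / (tau (i + 4) : ℝ) =
          ((tau (i + 4) : ℝ) - tau (i + 1)) / ((tau (i + 1) : ℝ) * tau (i + 4)) := by
        have : (tau (i + 1) : ℝ) ≠ 0 := by linarith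
        have : (tau (i + 4) : ℝ) ≠ 0 := by linarith
        field_simp
      rw [e6, ← mul_div_assoc, div_le_one (by positivity)] at e1
      exact e1
    have hl4 := lt_tau (i + 4)
    have hu1 := tau_le (i + 1)
    have hu4 := tau_le (i + 4)
    push_cast at hl4 hu1 hu4
    have hA : 0 < (9 * (i : ℝ) ^ 2 + 45 * i + 63 - 1728000) := by nlinarith
    have hB : 0 < ((k : ℝ) - 15) ^ 3 - 1728000 := by
      have : (59985 : ℝ) ^ 3 ≤ ((k : ℝ) - 15) ^ 3 := by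
        gcongr
        linarith
      norm_num at this
      linarith
    have e7 : (((k : ℝ) - 15) ^ 3 - 1728000) * (9 * (i : ℝ) ^ 2 + 45 * i + 63 - 1728000) ≤
        ((i : ℝ) + 1) ^ 3 * ((i : ℝ) + 4) ^ 3 := by
      have f1 : ((k : ℝ) - 15) ^ 3 / 27000 - 64 ≤ (tau (k - 15) : ℝ) := ht15.le
      have f2 : (9 * (i : ℝ) ^ 2 + 45 * i + 63) / 27000 - 64 ≤ (tau (i + 4) : ℝ) - tau (i + 1) := by
        have : ((i : ℝ) + 4) ^ 3 - ((i : ℝ) + 1) ^ 3 = 9 * (i : ℝ) ^ 2 + 45 * i + 63 := by ring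
        linarith
      have f3 : (((k : ℝ) - 15) ^ 3 / 27000 - 64) * ((9 * (i : ℝ) ^ 2 + 45 * i + 63) / 27000 - 64) ≤
          (tau (k - 15) : ℝ) * ((tau (i + 4) : ℝ) - tau (i + 1)) := by
        apply mul_le_mul f1 f2
        · linarith
        · exact Nat.cast_nonneg _
      have f4 : (tau (i + 1) : ℝ) * tau (i + 4) ≤ (((i : ℝ) + 1) ^ 3 / 27000) * (((i : ℝ) + 4) ^ 3 / 27000) :=
        mul_le_mul hu1 hu4 (Nat.cast_nonneg _) (by positivity)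
      have f5 := (f3.trans e5).trans f4
      have f6 : (((k : ℝ) - 15) ^ 3 / 27000 - 64) * ((9 * (i : ℝ) ^ 2 + 45 * i + 63) / 27000 - 64) =
          (((k : ℝ) - 15) ^ 3 - 1728000) * (9 * (i : ℝ) ^ 2 + 45 * i + 63 - 1728000) / 27000 ^ 2 := by
        ring
      have f7 : (((i : ℝ) + 1) ^ 3 / 27000) * (((i : ℝ) + 4) ^ 3 / 27000) =
          ((i : ℝ) + 1) ^ 3 * ((i : ℝ) + 4) ^ 3 / 27000 ^ 2 := by ring
      rw [f6, f7] at f5
      exact (div_le_div_iff_of_pos_right (by norm_num)).1 f5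
    have e8 := poly1 hiR
    have e9 : (((k : ℝ) - 15) ^ 3 - 1728000) ≤ 0.11143 * (i : ℝ) ^ 4 :=
      le_of_mul_le_mul_right (e7.trans e8) hA
    have e10 : 0.9992 * (k : ℝ) ^ 3 ≤ ((k : ℝ) - 15) ^ 3 - 1728000 := by
      have g1 : (60000 : ℝ) * (k : ℝ) ^ 2 ≤ (k : ℝ) ^ 3 := by
        have : (k : ℝ) ^ 3 = k * (k : ℝ) ^ 2 := by ring
        rw [this]
        gcongr
      have g2 : (60000 : ℝ) ^ 2 ≤ (k : ℝ) ^ 2 := by gcongr
      nlinarith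
    linarith
  · -- (3)
    by_contra hc
    push Not at hc
    have h61 : (k : ℝ) ≤ 61000 := by exact_mod_cast hc.le
    have e1 : (k : ℝ) ^ 3 ≤ 61000 ^ 3 := by gcongr
    have e2 : (10320 : ℝ) ^ 4 ≤ ((i : ℝ) + 15) ^ 4 := by
      gcongr
      linarith
    norm_num at e1 e2
    linarith

end Pool.Agent.Moser.Eng
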