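import Pool.Agent.Lib_MP_cc07e8_co.EngCC
import Pool.Agent.Lib_MP_cc07e8_co.EpD
import Pool.Agent.Lib_MP_cc07e8_co.EpDefs

/-!
# MP_cc07e8_co, engine piece MAIN (helper60, helper86): the main rectangle in an epoch
-/

namespace Pool.Agent.Moser.Eng

theorem main_epoch (hME : MainEpochStmt) {κ κ' : ℕ} (hκ : 860 ≤ κ) (hκ' : κ' = 5 * κ / 4) (F : Finset ℕ)
    (hF : ∀ q ∈ F, tau (12 * κ) ≤ q ∧ q < tau (12 * κ')) {X Y : ℝ} (hY : 0 < Y) (hXY : Y ≤ X)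
    (hX : X ≤ 2 * Y) (hup : X * Y * ((tau (12 * κ) : ℝ) - 1) ≤ 1)
    (hlo : ∑ q ∈ F, 1 / (q : ℝ) ^ 2 + 0.05 / (tau (12 * κ') : ℝ) ≤ X * Y) :
    ∃ (X' Y' : ℝ) (O : Multiset (ℝ × ℝ)), 0 < Y' ∧ Y' ≤ X' ∧ X' ≤ 2 * Y' ∧ X' + Y' ≤ X + Y ∧
      Ref {(X, Y)} F.val ({(X', Y')} + O) ∧
      (∀ r ∈ O, 0 ≤ r.1 ∧ 0 ≤ r.2 ∧ (tau (12 * κ) : ℝ) * min r.1 r.2 ≤ 1) ∧
      (O.map c1).sum ≤ 905 * ∑ i ∈ Finset.Ico (12 * κ) (12 * κ'), 1 / (i : ℝ) ^ 2 +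
        35 * ((X + Y) - (X' + Y')) + 16 * Y ∧
      ∀ t : ℝ, 1000 * (tau (12 * κ') : ℝ) ≤ t →
        (O.map (c2 t)).sum ≤ 625 * ∑ i ∈ Finset.Ico (12 * κ) (12 * κ'), 1 / (i : ℝ) ^ 2 +
          35 * ((X + Y) - (X' + Y')) + 16 * Y := by
  have hg : 10320 ≤ 12 * κ := by omega
  have hgE : 12 * κ ≤ 12 * κ' := by omega
  have hE : ((12 * κ' : ℕ) : ℝ) ≤ 1.25 * ((12 * κ : ℕ) : ℝ) := by
    have h1 : κ' * 4 ≤ 5 * κ := by omega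
    have h2 : (κ' : ℝ) * 4 ≤ 5 * κ := by exact_mod_cast h1
    push_cast
    linarith
  have hN : (0 : ℝ) < tau (12 * κ) := by
    have h1 := Pool.Agent.Moser.tau_ge (12 * κ)
    have h2 : (10320 : ℝ) ≤ ((12 * κ : ℕ) : ℝ) := by exact_mod_cast hg
    have h3 : (10320 : ℝ) ^ 3 ≤ ((12 * κ : ℕ) : ℝ) ^ 3 := pow_le_pow_left₀ (by norm_num) h2 3
    have e : (10320 : ℝ) ^ 3 = 1099104768000 := by norm_num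
    rw [e] at h3
    linarith
  obtain ⟨X', Y', O, h1, h2, h3, h4, h5, h6, h7, h8⟩ :=
    hME hg hgE hE F hF hY hXY hX hup hlo
  refine ⟨X', Y', O, h1, h2, h3, h4, h5, ?_, h7, h8⟩
  intro r hr
  obtain ⟨ha, hb, hc⟩ := h6 r hr
  refine ⟨ha, hb, ?_⟩
  rw [le_div_iff₀ hN] at hc
  linarith [mul_comm (tau (12 * κ) : ℝ) (min r.1 r.2)]

end Pool.Agent.Moser.Eng
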