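import Pool.Agent.Lib_MP_cc07e8_co.Round

/-!
# MP_cc07e8_co, engine piece MASTER: weighted rounding (Beck-Fiala) for items with options

Every item `i` chooses one of the options `opt i`, the fractional start is uniform. Rows `r` with real
coefficients `a r i o`, weights `lam r ≥ 0` and tolerances `th r`.

Proof. Variables `x (i, o) ∈ [0, 1]` on the pairs `p = (i, o)`, `o ∈ opt i`, `∑ o ∈ opt i, x (i, o) = 1`,
start `x = 1 / card`. A pair is floating in `x` if `0 < x p < 1`. Induction on the number of floating pairs: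
every such `x` has a rounding `x'` with `|∑ a x' - ∑ a x| ≤ th r` for all rows. Call a row active if
`th r < ∑ p ∈ F, |a r p|`, `F` the floating pairs. There is a direction on `F` with sum zero for all items and
all active rows; move along it until a floating coordinate reaches `0` or `1`.
-/

namespace Pool.Agent.Moser.Eng

namespace Master

open Round

variable {ι R O : Type}

open Classical in
/-- the pairs (item, option) -/
noncomputable def PP [Fintype ι] (opt : ι → Finset O) : Finset (ι × O) :=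
  ((Finset.univ : Finset ι) ×ˢ (Finset.univ.biUnion opt)).filter fun p => p.2 ∈ opt p.1

theorem mem_PP [Fintype ι] (opt : ι → Finset O) (p : ι × O) : p ∈ PP opt ↔ p.2 ∈ opt p.1 := by
  classical
  rw [PP, Finset.mem_filter, Finset.mem_product]
  constructor
  · exact fun h => h.2
  · exact fun h => ⟨⟨Finset.mem_univ _, Finset.mem_biUnion.mpr ⟨p.1, Finset.mem_univ _, h⟩⟩, h⟩

theorem sum_PP [Fintype ι] (opt : ι → Finset O) (g : ι × O → ℝ) :
    ∑ p ∈ PP opt, g p = ∑ i, ∑ o ∈ opt i, g (i, o) := by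
  refine Finset.sum_finset_product (PP opt) Finset.univ opt ?_
  intro p
  rw [mem_PP]
  exact ⟨fun h => ⟨Finset.mem_univ _, h⟩, fun h => h.2⟩

open Classical in
theorem ext_sum' (P F : Finset (ι × O)) (hF : F ⊆ P) (y : {p // p ∈ F} → ℝ) (g : ι × O → ℝ) :
    ∑ p ∈ P, g p * (if h : p ∈ F then y ⟨p, h⟩ else 0) =
      ∑ p : {p // p ∈ F}, g p.1 * y p := by
  have h1 : ∑ p ∈ P, g p * (if h : p ∈ F then y ⟨p, h⟩ else 0) =
      ∑ p ∈ F, g p * (if h : p ∈ F then y ⟨p, h⟩ else 0) := by
    symm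
    refine Finset.sum_subset hF ?_
    intro p _ hp'
    rw [dif_neg hp', mul_zero]
  rw [h1, ← Finset.sum_coe_sort F]
  refine Finset.sum_congr rfl fun p _ => ?_
  rw [dif_pos p.2]

open Classical in
theorem two_le_fl [Fintype ι] (opt : ι → Finset O) (x : ι × O → ℝ)
    (h01 : ∀ p ∈ PP opt, 0 ≤ x p ∧ x p ≤ 1) (hs : ∀ i, ∑ o ∈ opt i, x (i, o) = 1) (s : ι)
    (b : O) (hb : b ∈ opt s) (hf : 0 < x (s, b) ∧ x (s, b) < 1) :
    2 ≤ ((fl (PP opt) x).filter fun p => p.1 = s).card := by
  by_contra hcon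
  have hcon : ((fl (PP opt) x).filter fun p => p.1 = s).card ≤ 1 := by omega
  rw [Finset.card_le_one] at hcon
  have hmem : (s, b) ∈ (fl (PP opt) x).filter fun p => p.1 = s := by
    rw [Finset.mem_filter, fl, Finset.mem_filter]
    exact ⟨⟨(mem_PP opt _).mpr hb, hf⟩, rfl⟩
  have hother : ∀ b' ∈ opt s, b' ≠ b → x (s, b') = 0 ∨ x (s, b') = 1 := by
    intro b' hb' hne
    by_contra h
    rw [not_or] at h
    have hr := h01 (s, b') ((mem_PP opt _).mpr hb')
    have hmem' : (s, b') ∈ (fl (PP opt) x).filter fun p => p.1 = s := by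
      rw [Finset.mem_filter, fl, Finset.mem_filter]
      exact ⟨⟨(mem_PP opt _).mpr hb', lt_of_le_of_ne hr.1 (Ne.symm h.1),
        lt_of_le_of_ne hr.2 h.2⟩, rfl⟩
    have := hcon _ hmem _ hmem'
    exact hne (congrArg Prod.snd this).symm
  have hsum := hs s
  rw [← Finset.add_sum_erase _ _ hb] at hsum
  by_cases h1 : ∃ b' ∈ (opt s).erase b, x (s, b') = 1
  · obtain ⟨b', hb', hx⟩ := h1
    have : x (s, b') ≤ ∑ b'' ∈ (opt s).erase b, x (s, b'') := by
      refine Finset.single_le_sum (f := fun b'' => x (s, b'')) (fun i hi => ?_) hb'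
      exact (h01 (s, i) ((mem_PP opt _).mpr (Finset.mem_of_mem_erase hi))).1
    rw [hx] at this
    linarith [hf.1]
  · push Not at h1
    have : ∑ b'' ∈ (opt s).erase b, x (s, b'') = 0 := by
      refine Finset.sum_eq_zero fun i hi => ?_
      rcases hother i (Finset.mem_of_mem_erase hi) (Finset.ne_of_mem_erase hi) with h | h
      · exact h
      · exact absurd h (h1 i hi)
    linarith [hf.2]

open Classical in
theorem dir [Fintype ι] [Fintype R] (opt : ι → Finset O) (a : R → ι → O → ℝ) (lam th : R → ℝ)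
    (hlam : ∀ r, 0 ≤ lam r)
    (hrow : ∀ (r : R) (Φ : Finset (ι × O)), (∀ p ∈ Φ, p.2 ∈ opt p.1) →
      th r < ∑ p ∈ Φ, |a r p.1 p.2| → 1 ≤ lam r * ∑ p ∈ Φ, |a r p.1 p.2|)
    (hcol : ∀ i, ∀ o ∈ opt i, ∑ r, lam r * |a r i o| < 1 / 2) (x : ι × O → ℝ)
    (h01 : ∀ p ∈ PP opt, 0 ≤ x p ∧ x p ≤ 1) (hs : ∀ i, ∑ o ∈ opt i, x (i, o) = 1)
    (hV : (fl (PP opt) x).Nonempty) :
    ∃ y : ι × O → ℝ, (∀ p, p ∉ fl (PP opt) x → y p = 0) ∧
      (∃ p ∈ fl (PP opt) x, y p ≠ 0) ∧ (∀ i, ∑ o ∈ opt i, y (i, o) = 0) ∧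
      ∀ r, th r < ∑ p ∈ fl (PP opt) x, |a r p.1 p.2| →
        ∑ p ∈ PP opt, a r p.1 p.2 * y p = 0 := by
  set F := fl (PP opt) x with hFdef
  have hFP : F ⊆ PP opt := Finset.filter_subset _ _
  let A : Finset ι := Finset.univ.filter fun s => ∃ b ∈ opt s, (s, b) ∈ F
  let Act : Finset R := Finset.univ.filter fun r => th r < ∑ p ∈ F, |a r p.1 p.2|
  have hA : 2 * A.card ≤ F.card := by
    have h1 : ∑ s ∈ A, (F.filter fun p => p.1 = s).card ≤ F.card := by
      have : ∑ s ∈ A, (F.filter fun p => p.1 = s).card = (F.filter fun p => p.1 ∈ A).card := by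
        rw [Finset.card_eq_sum_card_fiberwise (f := fun p => p.1) (t := A)]
        · refine Finset.sum_congr rfl fun s hsA => ?_
          congr 1
          ext p
          simp only [Finset.mem_filter]
          constructor
          · rintro ⟨h1, h2⟩; exact ⟨⟨h1, by rw [h2]; exact hsA⟩, h2⟩
          · rintro ⟨⟨h1, _⟩, h2⟩; exact ⟨h1, h2⟩
        · intro p hp
          exact (Finset.mem_filter.mp hp).2
      rw [this]
      exact Finset.card_le_card (Finset.filter_subset _ _)
    have h2 : ∑ s ∈ A, 2 ≤ ∑ s ∈ A, (F.filter fun p => p.1 = s).card := by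
      refine Finset.sum_le_sum fun s hsA => ?_
      obtain ⟨_, b, hb, hbF⟩ := Finset.mem_filter.mp hsA
      exact two_le_fl opt x h01 hs s b hb (Finset.mem_filter.mp hbF).2
    rw [Finset.sum_const, smul_eq_mul] at h2
    omega
  have hAct : (Act.card : ℝ) < (F.card : ℝ) / 2 := by
    calc (Act.card : ℝ) = ∑ r ∈ Act, (1 : ℝ) := by simp
      _ ≤ ∑ r ∈ Act, lam r * ∑ p ∈ F, |a r p.1 p.2| := by
          refine Finset.sum_le_sum fun r hr => ?_
          refine hrow r F ?_ (Finset.mem_filter.mp hr).2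
          intro p hp
          exact (mem_PP opt p).mp (hFP hp)
      _ ≤ ∑ r, lam r * ∑ p ∈ F, |a r p.1 p.2| := by
          refine Finset.sum_le_univ_sum_of_nonneg fun r => ?_
          exact mul_nonneg (hlam r) (Finset.sum_nonneg fun _ _ => abs_nonneg _)
      _ = ∑ p ∈ F, ∑ r, lam r * |a r p.1 p.2| := by
          rw [Finset.sum_comm]
          refine Finset.sum_congr rfl fun r _ => ?_
          rw [Finset.mul_sum]
      _ < ∑ p ∈ F, (1 / 2 : ℝ) := by
          refine Finset.sum_lt_sum_of_nonempty hV fun p hp => ?_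
          exact hcol p.1 p.2 ((mem_PP opt p).mp (hFP hp))
      _ = (F.card : ℝ) / 2 := by
          rw [Finset.sum_const, nsmul_eq_mul, mul_one_div]
  have hcard : A.card + Act.card < F.card := by
    have h1 : (2 * A.card : ℝ) ≤ F.card := by exact_mod_cast hA
    have h2 : ((A.card + Act.card : ℕ) : ℝ) < (F.card : ℝ) := by push_cast; linarith
    exact_mod_cast h2
  let M : Matrix ({s // s ∈ A} ⊕ {j // j ∈ Act}) {p // p ∈ F} ℝ := Matrix.of fun c p =>
    match c with
    | Sum.inl s => if p.1.1 = s.1 then 1 else 0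
    | Sum.inr j => a j.1 p.1.1 p.1.2
  have hker : LinearMap.ker (Matrix.mulVecLin M) ≠ ⊥ := by
    apply LinearMap.ker_ne_bot_of_finrank_lt
    rw [Module.finrank_fintype_fun_eq_card, Module.finrank_fintype_fun_eq_card,
      Fintype.card_sum, Fintype.card_coe, Fintype.card_coe, Fintype.card_coe]
    exact hcard
  obtain ⟨y, hy, hy0⟩ := Submodule.exists_mem_ne_zero_of_ne_bot hker
  have hMy : ∀ c, ∑ p, M c p * y p = 0 := by
    intro c
    have := congrFun (LinearMap.mem_ker.mp hy) c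
    simpa [Matrix.mulVec, dotProduct] using this
  refine ⟨fun p => if h : p ∈ F then y ⟨p, h⟩ else 0, ?_, ?_, ?_, ?_⟩
  · intro p hp
    exact dif_neg hp
  · obtain ⟨p, hp⟩ := Function.ne_iff.mp hy0
    refine ⟨p.1, p.2, ?_⟩
    show (if h : p.1 ∈ F then y ⟨p.1, h⟩ else 0) ≠ 0
    rw [dif_pos p.2]
    exact hp
  · intro s
    have h1 : ∑ b ∈ opt s, (if h : (s, b) ∈ F then y ⟨(s, b), h⟩ else 0) =
        ∑ p ∈ PP opt, (if p.1 = s then (1 : ℝ) else 0) *
          (if h : p ∈ F then y ⟨p, h⟩ else 0) := by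
      rw [sum_PP]
      symm
      rw [Finset.sum_eq_single s]
      · refine Finset.sum_congr rfl fun b _ => ?_
        rw [if_pos rfl, one_mul]
      · intro s' _ hne
        refine Finset.sum_eq_zero fun b _ => ?_
        rw [if_neg hne, zero_mul]
      · intro h; exact absurd (Finset.mem_univ _) h
    show ∑ b ∈ opt s, (if h : (s, b) ∈ F then y ⟨(s, b), h⟩ else 0) = 0
    by_cases hsA : s ∈ A
    · rw [h1, ext_sum' (PP opt) F hFP y (fun p => if p.1 = s then (1 : ℝ) else 0)]
      exact hMy (Sum.inl ⟨s, hsA⟩)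
    · refine Finset.sum_eq_zero fun b hb => ?_
      rw [dif_neg]
      intro h
      exact hsA (Finset.mem_filter.mpr ⟨Finset.mem_univ _, b, hb, h⟩)
  · intro r hact
    have hrA : r ∈ Act := Finset.mem_filter.mpr ⟨Finset.mem_univ _, hact⟩
    show ∑ p ∈ PP opt, a r p.1 p.2 * (if h : p ∈ F then y ⟨p, h⟩ else 0) = 0
    rw [ext_sum' (PP opt) F hFP y (fun p => a r p.1 p.2)]
    exact hMy (Sum.inr ⟨r, hrA⟩)

open Classical in
theorem mainM [Fintype ι] [Fintype R] (opt : ι → Finset O) (a : R → ι → O → ℝ) (lam th : R → ℝ)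
    (hlam : ∀ r, 0 ≤ lam r) (hth : ∀ r, 0 ≤ th r)
    (hrow : ∀ (r : R) (Φ : Finset (ι × O)), (∀ p ∈ Φ, p.2 ∈ opt p.1) →
      th r < ∑ p ∈ Φ, |a r p.1 p.2| → 1 ≤ lam r * ∑ p ∈ Φ, |a r p.1 p.2|)
    (hcol : ∀ i, ∀ o ∈ opt i, ∑ r, lam r * |a r i o| < 1 / 2) (n : ℕ) :
    ∀ x : ι × O → ℝ, (∀ p ∈ PP opt, 0 ≤ x p ∧ x p ≤ 1) → (∀ i, ∑ o ∈ opt i, x (i, o) = 1) →
      (fl (PP opt) x).card ≤ n →
      ∃ x' : ι × O → ℝ, (∀ p ∈ PP opt, x' p = 0 ∨ x' p = 1) ∧
        (∀ p ∈ PP opt, (x p = 0 ∨ x p = 1) → x' p = x p) ∧ (∀ i, ∑ o ∈ opt i, x' (i, o) = 1) ∧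
        ∀ r, |∑ p ∈ PP opt, a r p.1 p.2 * x' p - ∑ p ∈ PP opt, a r p.1 p.2 * x p| ≤ th r := by
  induction n with
  | zero =>
    intro x h01 hs hn
    have hemp : fl (PP opt) x = ∅ := Finset.card_eq_zero.mp (by omega)
    refine ⟨x, ?_, fun _ _ _ => rfl, hs, ?_⟩
    · intro p hp
      by_contra h
      rw [not_or] at h
      have hb := h01 p hp
      have : p ∈ fl (PP opt) x := Finset.mem_filter.mpr ⟨hp, lt_of_le_of_ne hb.1 (Ne.symm h.1),
        lt_of_le_of_ne hb.2 h.2⟩
      rw [hemp] at this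
      exact absurd this (Finset.notMem_empty _)
    · intro j
      rw [sub_self, abs_zero]
      exact hth j
  | succ n ih =>
    intro x h01 hs hn
    by_cases hV : (fl (PP opt) x).Nonempty
    swap
    · rw [Finset.not_nonempty_iff_eq_empty] at hV
      exact ih x h01 hs (by rw [hV]; simp)
    obtain ⟨y, hy1, hy2, hy3, hy4⟩ := dir opt a lam th hlam hrow hcol x h01 hs hV
    obtain ⟨l, hl1, hl2⟩ := move (PP opt) x y h01 hy1 hy2
    obtain ⟨x', h1, h2, h3, h4⟩ := ih (fun p => x p + l * y p) hl1 (by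
      intro i
      rw [Finset.sum_add_distrib, ← Finset.mul_sum, hy3 i, hs i, mul_zero, add_zero])
      (by omega)
    have hfix : ∀ p ∈ PP opt, (x p = 0 ∨ x p = 1) → x' p = x p := by
      intro p hp hx
      have hpF : p ∉ fl (PP opt) x := by
        intro h
        have := (Finset.mem_filter.mp h).2
        rcases hx with hx | hx <;> rw [hx] at this
        · exact lt_irrefl _ this.1
        · exact lt_irrefl _ this.2
      have hyp := hy1 p hpF
      have := h2 p hp (by simpa [hyp] using hx)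
      simpa [hyp] using this
    refine ⟨x', h1, hfix, h3, ?_⟩
    intro r
    by_cases hact : th r < ∑ p ∈ fl (PP opt) x, |a r p.1 p.2|
    · have h5 := h4 r
      have h6 : ∑ p ∈ PP opt, a r p.1 p.2 * (x p + l * y p) =
          ∑ p ∈ PP opt, a r p.1 p.2 * x p := by
        have h7 : ∑ p ∈ PP opt, a r p.1 p.2 * (x p + l * y p) =
            ∑ p ∈ PP opt, a r p.1 p.2 * x p + l * ∑ p ∈ PP opt, a r p.1 p.2 * y p := by
          rw [Finset.mul_sum, ← Finset.sum_add_distrib]
          exact Finset.sum_congr rfl fun p _ => by ring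
        rw [h7, hy4 r hact, mul_zero, add_zero]
      rw [h6] at h5
      exact h5
    · push Not at hact
      rw [← Finset.sum_sub_distrib]
      have hsub : fl (PP opt) x ⊆ PP opt := Finset.filter_subset _ _
      have hred : ∑ p ∈ PP opt, (a r p.1 p.2 * x' p - a r p.1 p.2 * x p) =
          ∑ p ∈ fl (PP opt) x, (a r p.1 p.2 * x' p - a r p.1 p.2 * x p) := by
        symm
        refine Finset.sum_subset hsub ?_
        intro p hp hp'
        have hb := h01 p hp
        have : x p = 0 ∨ x p = 1 := by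
          by_contra h
          rw [not_or] at h
          exact hp' (Finset.mem_filter.mpr ⟨hp,
            lt_of_le_of_ne hb.1 (Ne.symm h.1), lt_of_le_of_ne hb.2 h.2⟩)
        rw [hfix p hp this, sub_self]
      rw [hred]
      calc |∑ p ∈ fl (PP opt) x, (a r p.1 p.2 * x' p - a r p.1 p.2 * x p)|
          ≤ ∑ p ∈ fl (PP opt) x, |a r p.1 p.2 * x' p - a r p.1 p.2 * x p| :=
            Finset.abs_sum_le_sum_abs _ _
        _ ≤ ∑ p ∈ fl (PP opt) x, |a r p.1 p.2| := by
            refine Finset.sum_le_sum fun p hp => ?_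
            rw [← mul_sub, abs_mul]
            have hp3 := hsub hp
            have hp4 := (Finset.mem_filter.mp hp).2
            have h8 : |x' p - x p| ≤ 1 := by
              rw [abs_le]
              rcases h1 p hp3 with h | h <;> rw [h] <;> constructor <;>
                linarith [hp4.1, hp4.2]
            exact mul_le_of_le_one_right (abs_nonneg _) h8
        _ ≤ th r := hact

end Master

open Master in
theorem master {ι R O : Type} [Fintype ι] [Fintype R] (opt : ι → Finset O)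
    (hne : ∀ i, (opt i).Nonempty) (a : R → ι → O → ℝ) (lam th : R → ℝ) (hlam : ∀ r, 0 ≤ lam r)
    (hrow : ∀ (r : R) (Φ : Finset (ι × O)), (∀ p ∈ Φ, p.2 ∈ opt p.1) →
      th r < ∑ p ∈ Φ, |a r p.1 p.2| → 1 ≤ lam r * ∑ p ∈ Φ, |a r p.1 p.2|)
    (hcol : ∀ i, ∀ o ∈ opt i, ∑ r, lam r * |a r i o| < 1 / 2) :
    ∃ f : ι → O, (∀ i, f i ∈ opt i) ∧
      ∀ r, |∑ i, a r i (f i) - ∑ i, (∑ o ∈ opt i, a r i o) / ((opt i).card : ℝ)| ≤ th r := by
  classical
  have hth : ∀ r, 0 ≤ th r := by
    intro r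
    by_contra h
    push Not at h
    have := hrow r ∅ (by simp) (by simpa using h)
    simp only [Finset.sum_empty, mul_zero] at this
    linarith
  have hcard : ∀ i, (0 : ℝ) < ((opt i).card : ℝ) := fun i => by
    exact_mod_cast Finset.card_pos.mpr (hne i)
  obtain ⟨x, h1, _, h3, h4⟩ := mainM opt a lam th hlam hth hrow hcol _
    (fun p => 1 / ((opt p.1).card : ℝ)) (by
      intro p hp
      have h0 := hcard p.1
      refine ⟨by positivity, ?_⟩
      rw [div_le_one h0]
      have : 0 < (opt p.1).card := Finset.card_pos.mpr (hne p.1)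
      exact_mod_cast this) (by
      intro i
      have h0 := hcard i
      show ∑ _o ∈ opt i, 1 / ((opt i).card : ℝ) = 1
      rw [Finset.sum_const, nsmul_eq_mul]
      field_simp) le_rfl
  have hex : ∀ i, ∃ b ∈ opt i, x (i, b) = 1 ∧ ∀ b' ∈ opt i, b' ≠ b → x (i, b') = 0 := by
    intro s
    have hsum := h3 s
    obtain ⟨b, hb, hx⟩ : ∃ b ∈ opt s, x (s, b) = 1 := by
      by_contra hcon
      push Not at hcon
      have : ∑ b ∈ opt s, x (s, b) = 0 := Finset.sum_eq_zero fun b hb => by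
        rcases h1 (s, b) ((mem_PP opt _).mpr hb) with h | h
        · exact h
        · exact absurd h (hcon b hb)
      linarith
    refine ⟨b, hb, hx, ?_⟩
    rw [← Finset.add_sum_erase _ _ hb, hx] at hsum
    have hz : ∑ b' ∈ (opt s).erase b, x (s, b') = 0 := by linarith
    have hnn : ∀ b' ∈ (opt s).erase b, 0 ≤ x (s, b') := by
      intro b' hb'
      rcases h1 (s, b') ((mem_PP opt _).mpr (Finset.mem_of_mem_erase hb')) with h | h <;>
        rw [h]
      exact zero_le_one
    intro b' hb' hne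
    exact (Finset.sum_eq_zero_iff_of_nonneg hnn).mp hz b' (Finset.mem_erase.mpr ⟨hne, hb'⟩)
  choose f hf1 hf2 hf3 using hex
  refine ⟨f, hf1, ?_⟩
  intro r
  have h5 := h4 r
  have e1 : ∑ p ∈ PP opt, a r p.1 p.2 * x p = ∑ i, a r i (f i) := by
    rw [sum_PP]
    refine Finset.sum_congr rfl fun i _ => ?_
    rw [Finset.sum_eq_single (f i)]
    · simp only [hf2, mul_one]
    · intro b' hb' hne'
      simp only [hf3 i b' hb' hne', mul_zero]
    · intro h; exact absurd (hf1 i) h
  have e2 : ∑ p ∈ PP opt, a r p.1 p.2 * (1 / ((opt p.1).card : ℝ)) =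
      ∑ i, (∑ o ∈ opt i, a r i o) / ((opt i).card : ℝ) := by
    rw [sum_PP]
    refine Finset.sum_congr rfl fun i _ => ?_
    rw [Finset.sum_div]
    refine Finset.sum_congr rfl fun o _ => ?_
    simp only [mul_one_div]
  rw [e1, e2] at h5
  exact h5

end Pool.Agent.Moser.Eng
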