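import Pool.Agent.Lib_MP_cc07e8_co.EngChildW

/-!
# MP_cc07e8_co, engine: small lemmas for the step (helper86)
-/

namespace Pool.Agent.Moser

theorem DecL.single {w h : ℝ} {S : Multiset ℕ} {ρ : Multiset (ℝ × ℝ)}
    (hd : DecL [(w, h)] S ρ) : Dec w h S ρ := by
  cases hd with
  | cons h1 h2 =>
    cases h2
    simpa using h1

theorem Dec.toL {w h : ℝ} {S : Multiset ℕ} {ρ : Multiset (ℝ × ℝ)}
    (hd : Dec w h S ρ) : DecL [(w, h)] S ρ := by
  have := DecL.cons hd DecL.nil
  simpa using this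

/-- a refinement applied to a decomposition of one rectangle -/
theorem Dec.ref {w h : ℝ} {T : Multiset ℕ} {ρ σ τ : Multiset (ℝ × ℝ)}
    {S : Multiset ℕ} (hd : Dec w h T (ρ + τ)) (hr : Ref ρ S σ) : Dec w h (S + T) (σ + τ) :=
  (hd.toL.ref hr).single

namespace Eng

theorem ms_XX_add (k : ℕ) (S T : Multiset (ℝ × ℝ)) : XX k (S + T) = XX k S + XX k T := by
  simp [XX]

theorem ms_YY_add (k : ℕ) (S T : Multiset (ℝ × ℝ)) : YY k (S + T) = YY k S + YY k T := by
  simp [YY]

theorem ms_XX_nonneg (k : ℕ) (S : Multiset (ℝ × ℝ)) : 0 ≤ XX k S := by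
  unfold XX
  apply Multiset.sum_nonneg
  intro x hx
  rw [Multiset.mem_map] at hx
  obtain ⟨r, -, rfl⟩ := hx
  exact xx_nonneg k r

theorem ms_YY_nonneg (k : ℕ) (S : Multiset (ℝ × ℝ)) : 0 ≤ YY k S := by
  unfold YY
  apply Multiset.sum_nonneg
  intro x hx
  rw [Multiset.mem_map] at hx
  obtain ⟨r, -, rfl⟩ := hx
  exact yy_nonneg k r

theorem ms_map_sum_nonneg {α : Type} (S : Multiset α) (f : α → ℝ) (h : ∀ r ∈ S, 0 ≤ f r) :
    0 ≤ (S.map f).sum := by
  apply Multiset.sum_nonneg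
  intro x hx
  rw [Multiset.mem_map] at hx
  obtain ⟨r, hr, rfl⟩ := hx
  exact h r hr

theorem ms_map_sum_le {α : Type} (S : Multiset α) (f g : α → ℝ) (h : ∀ r ∈ S, f r ≤ g r) :
    (S.map f).sum ≤ (S.map g).sum :=
  Multiset.sum_map_le_sum_map f g h

theorem ms_map_sum_add {α : Type} (S : Multiset α) (f g : α → ℝ) :
    (S.map fun r => f r + g r).sum = (S.map f).sum + (S.map g).sum :=
  Multiset.sum_map_add

/-- the strips of window `≥ K` are the active ones and the later ones -/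
theorem ms_Grem_split {S : Multiset (ℝ × ℝ)} (hS : ∀ r ∈ S, 0 < r.1) {K K' : ℕ}
    (hKK : tau K ≤ tau K') : Grem S K = act S K K' + Grem S K' := by
  classical
  unfold Grem act
  have h1 := Multiset.filter_add_not (fun r : ℝ × ℝ => (tau K' : ℝ) * r.1 ≤ 1)
    (S.filter fun r => (tau K : ℝ) * r.1 ≤ 1)
  rw [Multiset.filter_filter, Multiset.filter_filter] at h1
  rw [← h1, add_comm]
  congr 1
  · apply Multiset.filter_congr
    intro r hr
    exact and_comm
  · apply Multiset.filter_congr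
    intro r hr
    constructor
    · exact fun h => h.1
    · intro h
      refine ⟨h, ?_⟩
      have h2 : (tau K : ℝ) ≤ (tau K' : ℝ) := by exact_mod_cast hKK
      have h3 := mul_le_mul_of_nonneg_right h2 (hS r hr).le
      exact h3.trans h

theorem ms_Gpast_split {S : Multiset (ℝ × ℝ)} (hS : ∀ r ∈ S, 0 < r.1) {K K' : ℕ}
    (hKK : tau K ≤ tau K') : Gpast S K' = Gpast S K + act S K K' := by
  classical
  unfold Gpast act
  have h1 := Multiset.filter_add_not (fun r : ℝ × ℝ => (tau K : ℝ) * r.1 ≤ 1)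
    (S.filter fun r => ¬ (tau K' : ℝ) * r.1 ≤ 1)
  rw [Multiset.filter_filter, Multiset.filter_filter] at h1
  rw [← h1, add_comm]
  congr 1
  apply Multiset.filter_congr
  intro r hr
  constructor
  · exact fun h => h.1
  · intro h
    refine ⟨h, ?_⟩
    intro h4
    apply h
    have h2 : (tau K : ℝ) ≤ (tau K' : ℝ) := by exact_mod_cast hKK
    have h3 := mul_le_mul_of_nonneg_right h2 (hS r hr).le
    exact h3.trans h4

theorem ms_past_rem (S : Multiset (ℝ × ℝ)) (K : ℕ) : Gpast S K + Grem S K = S := by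
  classical
  unfold Grem Gpast
  rw [add_comm]
  exact Multiset.filter_add_not _ S

theorem ms_Grem_self {S : Multiset (ℝ × ℝ)} {K : ℕ} (h : ∀ r ∈ S, (tau K : ℝ) * r.1 ≤ 1) :
    Grem S K = S := by
  classical
  unfold Grem
  exact Multiset.filter_eq_self.2 h

theorem ms_mem_Grem {S : Multiset (ℝ × ℝ)} {K : ℕ} {r : ℝ × ℝ} (h : r ∈ Grem S K) :
    r ∈ S ∧ (tau K : ℝ) * r.1 ≤ 1 := by
  classical
  unfold Grem at h
  exact Multiset.mem_filter.1 h

theorem ms_mem_act {S : Multiset (ℝ × ℝ)} {K K' : ℕ} {r : ℝ × ℝ} (h : r ∈ act S K K') :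
    r ∈ S ∧ (tau K : ℝ) * r.1 ≤ 1 ∧ ¬ (tau K' : ℝ) * r.1 ≤ 1 := by
  classical
  unfold act at h
  exact Multiset.mem_filter.1 h

theorem ms_bet_nonneg (K k : ℕ) : 0 ≤ bet K k := by
  unfold bet
  split_ifs <;> norm_num

theorem ms_lamR_le (k : ℕ) : lamR k ≤ 0.88 := by
  unfold lamR
  split_ifs <;> norm_num

theorem ms_ff_nonneg (k : ℕ) (w : ℝ) (b : ℕ) : 0 ≤ ff k w b := by
  unfold ff
  apply div_nonneg _ (by norm_num)
  exact Finset.sum_nonneg fun q _ => xx_nonneg k _

theorem ms_fw_nonneg {K K' : ℕ} (hK : 10320 ≤ K) {p : Pend} (hp : p.Run K K') {b : ℕ}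
    (hb : b ∈ p.B) : 0 ≤ fw p.w b := by
  unfold fw
  apply div_nonneg _ (by norm_num)
  refine Finset.sum_nonneg fun q hq => ?_
  rw [Finset.mem_Ico] at hq
  have h1 := (hp.blk b hb).2.1
  have h2 : tau (p.i + 4) ≤ q := by
    rw [tau_eq]
    omega
  have h3 := hp.lo
  exact (child_pos (by omega) hp.win h2).le

theorem ms_rowP_nonneg {K K' k : ℕ} (hK : 10320 ≤ K) {p : Pend} (hp : p.Run K K') :
    0 ≤ rowP K k p := by
  unfold rowP
  apply add_nonneg (pot_nonneg k p.w)
  apply ms_map_sum_nonneg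
  intro b hb
  exact add_nonneg (ms_ff_nonneg k p.w b) (mul_nonneg (ms_bet_nonneg K k) (ms_fw_nonneg hK hp hb))

theorem ms_pot_le_rowP {K K' k : ℕ} (hK : 10320 ≤ K) {p : Pend} (hp : p.Run K K') :
    pot k p.w ≤ rowP K k p := by
  unfold rowP
  have : 0 ≤ (p.B.map fun b => ff k p.w b + bet K k * fw p.w b).sum := by
    apply ms_map_sum_nonneg
    intro b hb
    exact add_nonneg (ms_ff_nonneg k p.w b) (mul_nonneg (ms_bet_nonneg K k) (ms_fw_nonneg hK hp hb))
  linarith

/-- every block belongs to a window -/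
theorem ms_exists_window {K b : ℕ} (h : sig K ≤ b) : ∃ k, K ≤ k ∧ sig k ≤ b ∧ b < sig (k + 1) := by
  have hun : ∃ n, b < sig n := by
    refine ⟨1728000 * (b + 1), ?_⟩
    unfold sig
    have h1 : 1728000 * (b + 1) ≤ (1728000 * (b + 1)) ^ 3 := Nat.le_self_pow (by norm_num) _
    have h2 := Nat.div_le_div_right (c := 1728000) h1
    rw [Nat.mul_div_cancel_left _ (by norm_num)] at h2
    omega
  classical
  let n := Nat.find hun
  have hn : b < sig n := Nat.find_spec hun
  have hn0 : ∀ m, m < n → sig m ≤ b := fun m hm => by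
    have := Nat.find_min hun hm
    omega
  have hKn : K < n := by
    by_contra hc
    push Not at hc
    have := sig_mono hc
    omega
  refine ⟨n - 1, by omega, hn0 _ (by omega), ?_⟩
  have : n - 1 + 1 = n := by omega
  rw [this]
  exact hn

end Eng

end Pool.Agent.Moser
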