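import Pool.Agent.Lib_MP_cc07e8_co.EngTau

/-!
# MP_cc07e8_co, engine piece NUMS: the epochs and sums over the epochs

`K_e = 12 * kap e`: 10320, 12900, 16116, 20136, 25164, 31452, 39312, 49140, 61416, 76764, 95952, 119940, 149916,
187392, 234240, 292800, ..
-/

namespace Pool.Agent.Moser.Eng

theorem kap_succ (e : ℕ) : kap (e + 1) = 5 * kap e / 4 := rfl

theorem kap_zero : kap 0 = 860 := rfl

theorem kap_ge (e : ℕ) : 860 ≤ kap e := by
  induction e with
  | zero => exact le_of_eq rfl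
  | succ n ih =>
    rw [kap_succ]
    omega

theorem kap_le (e : ℕ) : 4 * kap (e + 1) ≤ 5 * kap e := by
  rw [kap_succ]
  omega

theorem kap_lt (e : ℕ) : 5 * kap e ≤ 4 * kap (e + 1) + 3 := by
  rw [kap_succ]
  omega

theorem kap_mono {d e : ℕ} (h : d ≤ e) : kap d ≤ kap e := by
  have hm : Monotone kap := by
    refine monotone_nat_of_le_succ fun n => ?_
    rw [kap_succ]
    omega
  exact hm h

/-- one step of `kap_grow` -/
theorem kap_step (e : ℕ) : (1.249 : ℝ) * (kap e : ℝ) ≤ (kap (e + 1) : ℝ) := by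
  have h1 : (5 : ℝ) * (kap e : ℝ) ≤ 4 * (kap (e + 1) : ℝ) + 3 := by
    exact_mod_cast kap_lt e
  have h2 : (860 : ℝ) ≤ (kap e : ℝ) := by
    exact_mod_cast kap_ge e
  linarith

/-- `kap (e + d) ≥ 1.249 ^ d * kap e` -/
theorem kap_grow (e d : ℕ) : (1.249 : ℝ) ^ d * (kap e : ℝ) ≤ (kap (e + d) : ℝ) := by
  induction d with
  | zero => simp
  | succ n ih =>
    have h1 := kap_step (e + n)
    have h2 : (1.249 : ℝ) ^ (n + 1) * (kap e : ℝ) = 1.249 * ((1.249 : ℝ) ^ n * (kap e : ℝ)) := by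
      ring
    rw [h2]
    have h3 : (1.249 : ℝ) * ((1.249 : ℝ) ^ n * (kap e : ℝ)) ≤ 1.249 * (kap (e + n) : ℝ) := by
      have : (0 : ℝ) ≤ 1.249 := by norm_num
      exact mul_le_mul_of_nonneg_left ih this
    exact h3.trans h1

/-- the telescoping bound for the sum of `1 / i ^ 2` -/
theorem sum_sq_le {a b : ℕ} (ha : 1 ≤ a) (h : a ≤ b) :
    ∑ i ∈ Finset.Ico a b, 1 / (i : ℝ) ^ 2 ≤ 1 / ((a : ℝ) - 1 / 2) - 1 / ((b : ℝ) - 1 / 2) := by
  induction b, h using Nat.le_induction with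
  | base => simp
  | succ n hn ih =>
    rw [Finset.sum_Ico_succ_top hn]
    have hn1 : (1 : ℝ) ≤ (n : ℝ) := by
      exact_mod_cast ha.trans hn
    have h1 : 1 / (n : ℝ) ^ 2 ≤ 1 / ((n : ℝ) - 1 / 2) - 1 / (((n + 1 : ℕ) : ℝ) - 1 / 2) := by
      have e1 : 1 / ((n : ℝ) - 1 / 2) - 1 / (((n + 1 : ℕ) : ℝ) - 1 / 2) =
          1 / ((n : ℝ) ^ 2 - 1 / 4) := by
        push_cast
        have hA : (n : ℝ) - 1 / 2 ≠ 0 := by
          intro h0
          linarith
        have hB : (n : ℝ) + 1 - 1 / 2 ≠ 0 := by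
          intro h0
          linarith
        have hC : (n : ℝ) ^ 2 - 1 / 4 ≠ 0 := by
          intro h0
          nlinarith
        rw [div_sub_div _ _ hA hB, div_eq_div_iff (mul_ne_zero hA hB) hC]
        ring
      rw [e1]
      apply one_div_le_one_div_of_le
      · nlinarith
      · linarith
    linarith

/-- all costs without coefficients: sum of `1 / i ^ 2` over epochs `[d, e)` -/
theorem sum_u {d e : ℕ} (h : d ≤ e) :
    ∑ c ∈ Finset.Ico d e, ∑ i ∈ Finset.Ico (12 * kap c) (12 * kap (c + 1)), 1 / (i : ℝ) ^ 2 ≤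
      1 / (12 * (kap d : ℝ) - 1 / 2) - 1 / (12 * (kap e : ℝ) - 1 / 2) := by
  induction e, h using Nat.le_induction with
  | base => simp
  | succ n hn ih =>
    rw [Finset.sum_Ico_succ_top hn]
    have h0 : 1 ≤ 12 * kap n := by
      have := kap_ge n
      omega
    have h1 := sum_sq_le h0 (Nat.mul_le_mul_left 12 (kap_mono (Nat.le_succ n)))
    push_cast at h1
    linarith

theorem sum_births {d e : ℕ} (h : d ≤ e) :
    ∑ c ∈ Finset.Ico d e, births (kap c) (kap (c + 1)) ≤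
      6.66 * (1 / ((kap d : ℝ) - 1 / 2) - 1 / ((kap e : ℝ) - 1 / 2)) + 1e-6 := by
  have key : ∀ e, d ≤ e → ∑ c ∈ Finset.Ico d e, births (kap c) (kap (c + 1)) ≤
      6.66 * (1 / ((kap d : ℝ) - 1 / 2) - 1 / ((kap e : ℝ) - 1 / 2)) +
        1e-6 * (1 - (1 / (1.249 : ℝ) ^ 4) ^ (e - d)) := by
    intro e h
    induction e, h using Nat.le_induction with
    | base => simp
    | succ n hn ih =>
      rw [Finset.sum_Ico_succ_top hn]
      have h0 : 1 ≤ kap n := by
        have := kap_ge n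
        omega
      have h1 := sum_sq_le h0 (kap_mono (Nat.le_succ n))
      have h2 : ∑ j ∈ Finset.Ico (kap n) (kap (n + 1)), 6.66 / (j : ℝ) ^ 2 ≤
          6.66 * (1 / ((kap n : ℝ) - 1 / 2) - 1 / ((kap (n + 1) : ℝ) - 1 / 2)) := by
        have e1 : ∑ j ∈ Finset.Ico (kap n) (kap (n + 1)), 6.66 / (j : ℝ) ^ 2 =
            6.66 * ∑ j ∈ Finset.Ico (kap n) (kap (n + 1)), 1 / (j : ℝ) ^ 2 := by
          rw [Finset.mul_sum]
          refine Finset.sum_congr rfl fun j _ => ?_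
          ring
        rw [e1]
        have : (0 : ℝ) ≤ 6.66 := by norm_num
        exact mul_le_mul_of_nonneg_left h1 this
      have h3 : 4e9 / (12 * (kap n : ℝ)) ^ 4 ≤
          1e-6 * (1 - 1 / (1.249 : ℝ) ^ 4) * (1 / (1.249 : ℝ) ^ 4) ^ (n - d) := by
        have hg := kap_grow d (n - d)
        rw [Nat.add_sub_cancel' hn] at hg
        have hd : (860 : ℝ) ≤ (kap d : ℝ) := by
          exact_mod_cast kap_ge d
        have hp : (0 : ℝ) < (1.249 : ℝ) ^ (n - d) := by positivity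
        have hg2 : (1.249 : ℝ) ^ (n - d) * 860 ≤ (kap n : ℝ) :=
          (mul_le_mul_of_nonneg_left hd hp.le).trans hg
        have hg3 : (10320 * (1.249 : ℝ) ^ (n - d)) ^ 4 ≤ (12 * (kap n : ℝ)) ^ 4 := by
          apply pow_le_pow_left₀ (by positivity)
          linarith
        have hpos : (0 : ℝ) < (10320 * (1.249 : ℝ) ^ (n - d)) ^ 4 := by positivity
        have h4 : 4e9 / (12 * (kap n : ℝ)) ^ 4 ≤ 4e9 / (10320 * (1.249 : ℝ) ^ (n - d)) ^ 4 :=
          div_le_div_of_nonneg_left (by norm_num) hpos hg3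
        refine h4.trans ?_
        have h5 : 4e9 / (10320 * (1.249 : ℝ) ^ (n - d)) ^ 4 =
            4e9 / 10320 ^ 4 * (1 / (1.249 : ℝ) ^ 4) ^ (n - d) := by
          rw [one_div, inv_pow, ← pow_mul, mul_pow, ← pow_mul, mul_comm (n - d) 4]
          field_simp
        rw [h5]
        apply mul_le_mul_of_nonneg_right _ (by positivity)
        norm_num
      have h6 : (1 / (1.249 : ℝ) ^ 4) ^ (n + 1 - d) =
          (1 / (1.249 : ℝ) ^ 4) ^ (n - d) * (1 / (1.249 : ℝ) ^ 4) := by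
        rw [← pow_succ]
        congr 1
        omega
      rw [h6]
      have h7 : births (kap n) (kap (n + 1)) =
          ∑ j ∈ Finset.Ico (kap n) (kap (n + 1)), 6.66 / (j : ℝ) ^ 2 +
            4e9 / (12 * (kap n : ℝ)) ^ 4 := rfl
      rw [h7]
      nlinarith [h2, h3, ih]
  have h1 := key e h
  have h2 : (0 : ℝ) ≤ (1 / (1.249 : ℝ) ^ 4) ^ (e - d) := by positivity
  have h3 : (1e-6 : ℝ) * (1 - (1 / (1.249 : ℝ) ^ 4) ^ (e - d)) ≤ 1e-6 := by
    nlinarith
  linarith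

/-- `16 / √(tau 10320 - 1) = 0.0025078`, ratio `≤ 1.249 ^ (-3 / 2) = 0.7164` (up to the floors): sum `≤ 0.0089` -/
theorem sum_sqrt (e : ℕ) :
    ∑ c ∈ Finset.range e, 16 / √((tau (12 * kap c) : ℝ) - 1) ≤ 0.0089 := by
  have key : ∀ e : ℕ, ∑ c ∈ Finset.range e, 16 / √((tau (12 * kap c) : ℝ) - 1) ≤
      0.0089 * (1 - (1 / (1.3958 : ℝ)) ^ e) := by
    intro e
    induction e with
    | zero => simp
    | succ n ih =>
      rw [Finset.sum_range_succ]
      have hg := kap_grow 0 n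
      rw [Nat.zero_add, kap_zero] at hg
      push_cast at hg
      have hp : (1 : ℝ) ≤ (1.249 : ℝ) ^ n := one_le_pow₀ (by norm_num)
      have h1 : (10320 * (1.249 : ℝ) ^ n) ^ 3 ≤ (12 * (kap n : ℝ)) ^ 3 := by
        apply pow_le_pow_left₀ (by positivity)
        linarith
      have h2 := lt_tau (12 * kap n)
      push_cast at h2
      have h3 : 40707584 * ((1.249 : ℝ) ^ 3) ^ n - 64 < (tau (12 * kap n) : ℝ) := by
        have e1 : (10320 * (1.249 : ℝ) ^ n) ^ 3 / 27000 = 40707584 * ((1.249 : ℝ) ^ 3) ^ n := by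
          rw [mul_pow, ← pow_mul, ← pow_mul, mul_comm n 3]
          ring
        have h4 := div_le_div_of_nonneg_right h1 (by norm_num : (0 : ℝ) ≤ 27000)
        linarith
      have h5 : (1 : ℝ) ≤ ((1.249 : ℝ) ^ 3) ^ n := one_le_pow₀ (by norm_num)
      have h6 : ((1.3958 : ℝ) ^ 2) ^ n ≤ ((1.249 : ℝ) ^ 3) ^ n :=
        pow_le_pow_left₀ (by norm_num) (by norm_num) n
      have h7 : (6380 * (1.3958 : ℝ) ^ n) ^ 2 ≤ (tau (12 * kap n) : ℝ) - 1 := by
        have e2 : (6380 * (1.3958 : ℝ) ^ n) ^ 2 = 40704400 * ((1.3958 : ℝ) ^ 2) ^ n := by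
          rw [mul_pow, ← pow_mul, ← pow_mul, mul_comm n 2]
          norm_num
        rw [e2]
        linarith
      have h8 : 6380 * (1.3958 : ℝ) ^ n ≤ √((tau (12 * kap n) : ℝ) - 1) :=
        Real.le_sqrt_of_sq_le h7
      have h9 : 16 / √((tau (12 * kap n) : ℝ) - 1) ≤ 16 / (6380 * (1.3958 : ℝ) ^ n) :=
        div_le_div_of_nonneg_left (by norm_num) (by positivity) h8
      have h10 : 16 / (6380 * (1.3958 : ℝ) ^ n) = 16 / 6380 * (1 / (1.3958 : ℝ)) ^ n := by
        rw [one_div, inv_pow]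
        field_simp
      have h11 : (0 : ℝ) < (1 / (1.3958 : ℝ)) ^ n := by positivity
      have h12 : (1 / (1.3958 : ℝ)) ^ (n + 1) = (1 / (1.3958 : ℝ)) ^ n * (1 / (1.3958 : ℝ)) :=
        pow_succ _ _
      rw [h12]
      rw [h10] at h9
      have h13 : (16 : ℝ) / 6380 ≤ 0.0089 * (1 - 1 / 1.3958) := by norm_num
      nlinarith
  have h1 := key e
  have h2 : (0 : ℝ) < (1 / (1.3958 : ℝ)) ^ e := by positivity
  linarith

/-- `1000 tau K ≤ tau k` for `10 K ≤ k` -/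
theorem tau_ten {K k : ℕ} (h : 10 * K ≤ k) : 1000 * tau K ≤ tau k := by
  unfold tau
  have h1 : (10 * K) ^ 3 ≤ k ^ 3 := Nat.pow_le_pow_left h 3
  have h2 : 1000 * (K ^ 3 / 1728000) ≤ k ^ 3 / 1728000 := by
    rw [Nat.le_div_iff_mul_le (by norm_num)]
    have h3 : K ^ 3 / 1728000 * 1728000 ≤ K ^ 3 := Nat.div_mul_le_self _ _
    have h4 : (10 * K) ^ 3 = 1000 * K ^ 3 := by ring
    rw [h4] at h1
    calc 1000 * (K ^ 3 / 1728000) * 1728000 = 1000 * (K ^ 3 / 1728000 * 1728000) := by ring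
      _ ≤ 1000 * K ^ 3 := Nat.mul_le_mul_left _ h3
      _ ≤ k ^ 3 := h1
  calc 1000 * (64 * (K ^ 3 / 1728000)) = 64 * (1000 * (K ^ 3 / 1728000)) := by ring
    _ ≤ 64 * (k ^ 3 / 1728000) := Nat.mul_le_mul_left _ h2

/-- number of epochs: `12 kap e ≤ k` gives `2.15e6 e / k ^ 2` small; `k ≥ 10320 * 1.249 ^ e` -/
theorem epoch_pow {e k : ℕ} (h : 12 * kap e ≤ k) : 10320 * (1.249 : ℝ) ^ e ≤ (k : ℝ) := by
  have hg := kap_grow 0 e
  rw [Nat.zero_add, kap_zero] at hg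
  push_cast at hg
  have h1 : (12 : ℝ) * (kap e : ℝ) ≤ (k : ℝ) := by
    exact_mod_cast h
  linarith

end Pool.Agent.Moser.Eng
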