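import Mathlib

/-!
# MP_cc07e8_co, engine piece RHOA: sums of cubes and inverse cubes over groups of 12

`T` a finite set of groups, for each `j ∈ T` a window `i j ∈ [12 j, 12 j + 12)` with `lo ≤ i j ≤ hi`.
* cubes: groups with `12 j + 23 ≤ hi`: `(i j) ^ 3 ≤ (12 j + 11) ^ 3 ≤ ((12 j + 23) ^ 4 - (12 j + 11) ^ 4) / 48` (convexity or
  `ring_nf`), the intervals `[12 j + 11, 12 j + 23]` are disjoint and contained in `[lo, hi]` (`12 j + 11 ≥ i j ≥ lo`): telescoping sum over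
  `j ∈ [j0, j1]` is `≤ (hi ^ 4 - lo ^ 4) / 48`; at most 2 groups are left (`hi - 23 < 12 j ≤ hi`), each `≤ hi ^ 3`.
* inverse cubes: groups with `lo ≤ 12 j - 12`: `1 / (i j) ^ 3 ≤ 1 / (12 j) ^ 3 ≤ (1 / 24) (1 / (12 j - 12) ^ 2 - 1 / (12 j) ^ 2)`, the sum
  telescopes to `≤ (1 / 24) (1 / lo ^ 2 - 1 / hi ^ 2)` (`12 j ≤ hi`), at most 2 groups are left (`lo - 12 < 12 j < lo + 12`), each
  `≤ 1 / lo ^ 3`.
-/

namespace Pool.Agent.Moser.Eng

theorem rhoA_tele (T : Finset ℕ) (f : ℕ → ℝ) (m : ℕ) (hf : ∀ j, m ≤ j → f j ≤ f (j + 1))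
    (hm : ∀ j ∈ T, m ≤ j) {a b : ℝ} (hab : a ≤ b) (ha : ∀ j ∈ T, a ≤ f j)
    (hb : ∀ j ∈ T, f (j + 1) ≤ b) : ∑ j ∈ T, (f (j + 1) - f j) ≤ b - a := by
  rcases T.eq_empty_or_nonempty with h0 | h0
  · subst h0
    simpa using hab
  · have h1 : T ⊆ Finset.Ico (T.min' h0) (T.max' h0 + 1) := by
      intro j hj
      rw [Finset.mem_Ico]
      exact ⟨T.min'_le j hj, Nat.lt_succ_of_le (T.le_max' j hj)⟩
    have h2 : ∑ j ∈ T, (f (j + 1) - f j) ≤
        ∑ j ∈ Finset.Ico (T.min' h0) (T.max' h0 + 1), (f (j + 1) - f j) := by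
      apply Finset.sum_le_sum_of_subset_of_nonneg h1
      intro j hj _
      rw [Finset.mem_Ico] at hj
      have := hf j ((hm _ (T.min'_mem h0)).trans hj.1)
      linarith
    have h3 : T.min' h0 ≤ T.max' h0 + 1 :=
      (T.min'_le _ (T.max'_mem h0)).trans (Nat.le_succ _)
    rw [Finset.sum_Ico_sub f h3] at h2
    have h4 := ha _ (T.min'_mem h0)
    have h5 := hb _ (T.max'_mem h0)
    linarith

theorem rhoA_card (T : Finset ℕ) (h : ∀ a ∈ T, ∀ b ∈ T, b < a + 2) : T.card ≤ 2 := by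
  rcases T.eq_empty_or_nonempty with h0 | h0
  · subst h0
    simp
  · have h1 : T ⊆ Finset.Ico (T.min' h0) (T.min' h0 + 2) := by
      intro j hj
      rw [Finset.mem_Ico]
      exact ⟨T.min'_le j hj, h _ (T.min'_mem h0) j hj⟩
    have h2 := Finset.card_le_card h1
    simpa using h2

theorem sum_cubes (T : Finset ℕ) (i : ℕ → ℕ) {lo hi : ℝ} (hlo : 24 ≤ lo) (hlh : lo ≤ hi)
    (h : ∀ j ∈ T, 12 * j ≤ i j ∧ i j < 12 * j + 12 ∧ lo ≤ (i j : ℝ) ∧ (i j : ℝ) ≤ hi) :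
    ∑ j ∈ T, (i j : ℝ) ^ 3 ≤ (hi ^ 4 - lo ^ 4) / 48 + 3 * hi ^ 3 := by
  classical
  rw [← Finset.sum_filter_add_sum_filter_not T (fun j : ℕ => 12 * (j : ℝ) + 23 ≤ hi)]
  have hR : ∀ j ∈ T, 12 * (j : ℝ) ≤ i j ∧ (i j : ℝ) ≤ 12 * j + 11 := by
    intro j hj
    have h1 := (h j hj).1
    have h2 := (h j hj).2.1
    have h3 : i j ≤ 12 * j + 11 := by omega
    exact ⟨by exact_mod_cast h1, by exact_mod_cast h3⟩
  have hhi : 0 ≤ hi := by linarith
  have key : ∀ u : ℝ, 0 ≤ u → u ^ 3 ≤ ((u + 12) ^ 4 - u ^ 4) / 48 := by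
    intro u hu
    have : (u + 12) ^ 4 - u ^ 4 = 48 * u ^ 3 + 864 * u ^ 2 + 6912 * u + 20736 := by ring
    rw [this]
    have h2 : 0 ≤ u ^ 2 := by positivity
    linarith
  have A : ∑ j ∈ T.filter (fun j : ℕ => 12 * (j : ℝ) + 23 ≤ hi), (i j : ℝ) ^ 3 ≤
      (hi ^ 4 - lo ^ 4) / 48 := by
    set f : ℕ → ℝ := fun j => (12 * (j : ℝ) + 11) ^ 4 / 48 with hf
    have hstep : ∀ j : ℕ, (12 * (j : ℝ) + 11) ^ 3 ≤ f (j + 1) - f j := by
      intro j
      have h1 := key (12 * (j : ℝ) + 11) (by positivity)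
      have h2 : f (j + 1) = (12 * (j : ℝ) + 11 + 12) ^ 4 / 48 := by
        simp only [hf]
        push_cast
        ring
      rw [h2]
      simp only [hf]
      linarith
    have h1 : ∑ j ∈ T.filter (fun j : ℕ => 12 * (j : ℝ) + 23 ≤ hi), (i j : ℝ) ^ 3 ≤
        ∑ j ∈ T.filter (fun j : ℕ => 12 * (j : ℝ) + 23 ≤ hi), (f (j + 1) - f j) := by
      apply Finset.sum_le_sum
      intro j hj
      have hj' := (Finset.mem_filter.mp hj).1
      refine le_trans ?_ (hstep j)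
      have := (hR j hj').2
      gcongr
    refine h1.trans ?_
    have h2 := rhoA_tele (T.filter (fun j : ℕ => 12 * (j : ℝ) + 23 ≤ hi)) f 0 ?_ ?_
      (a := lo ^ 4 / 48) (b := hi ^ 4 / 48) ?_ ?_ ?_
    · linarith
    · intro j _
      have h3 := hstep j
      have h4 : 0 ≤ (12 * (j : ℝ) + 11) ^ 3 := by positivity
      linarith
    · intro j _
      exact Nat.zero_le _
    · have : lo ^ 4 ≤ hi ^ 4 := by gcongr
      linarith
    · intro j hj
      have hj' := (Finset.mem_filter.mp hj).1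
      have h3 := (hR j hj').2
      have h4 := (h j hj').2.2.1
      have h5 : lo ^ 4 ≤ (12 * (j : ℝ) + 11) ^ 4 := by
        have : lo ≤ 12 * (j : ℝ) + 11 := h4.trans h3
        gcongr
      simp only [hf]
      linarith
    · intro j hj
      have hj' := (Finset.mem_filter.mp hj).2
      have h5 : (12 * (j : ℝ) + 23) ^ 4 ≤ hi ^ 4 := by gcongr
      have h6 : f (j + 1) = (12 * (j : ℝ) + 23) ^ 4 / 48 := by
        simp only [hf]
        push_cast
        ring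
      rw [h6]
      linarith
  have B : ∑ j ∈ T.filter (fun j : ℕ => ¬ 12 * (j : ℝ) + 23 ≤ hi), (i j : ℝ) ^ 3 ≤ 3 * hi ^ 3 := by
    have h1 : ∑ j ∈ T.filter (fun j : ℕ => ¬ 12 * (j : ℝ) + 23 ≤ hi), (i j : ℝ) ^ 3 ≤
        (T.filter (fun j : ℕ => ¬ 12 * (j : ℝ) + 23 ≤ hi)).card • (hi ^ 3) := by
      apply Finset.sum_le_card_nsmul
      intro j hj
      have hj' := (Finset.mem_filter.mp hj).1
      have := (h j hj').2.2.2
      gcongr
    have h2 : (T.filter (fun j : ℕ => ¬ 12 * (j : ℝ) + 23 ≤ hi)).card ≤ 2 := by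
      apply rhoA_card
      intro a ha b hb
      have ha' := (Finset.mem_filter.mp ha).2
      have hb' := (Finset.mem_filter.mp hb).1
      have hb1 := (hR b hb').1
      have hb2 := (h b hb').2.2.2
      rw [not_le] at ha'
      have h3 : (b : ℝ) < a + 2 := by linarith
      exact_mod_cast h3
    have h3 : ((T.filter (fun j : ℕ => ¬ 12 * (j : ℝ) + 23 ≤ hi)).card : ℝ) ≤ 2 := by
      exact_mod_cast h2
    have h4 : 0 ≤ hi ^ 3 := by positivity
    rw [nsmul_eq_mul] at h1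
    nlinarith
  linarith

theorem sum_inv_cubes (T : Finset ℕ) (i : ℕ → ℕ) {lo hi : ℝ} (hlo : 24 ≤ lo) (hlh : lo ≤ hi)
    (h : ∀ j ∈ T, 12 * j ≤ i j ∧ i j < 12 * j + 12 ∧ lo ≤ (i j : ℝ) ∧ (i j : ℝ) ≤ hi) :
    ∑ j ∈ T, 1 / (i j : ℝ) ^ 3 ≤ (1 / 24) * (1 / lo ^ 2 - 1 / hi ^ 2) + 3 / lo ^ 3 := by
  classical
  rw [← Finset.sum_filter_add_sum_filter_not T (fun j : ℕ => lo + 12 ≤ 12 * (j : ℝ))]
  have hR : ∀ j ∈ T, 12 * (j : ℝ) ≤ i j ∧ (i j : ℝ) ≤ 12 * j + 11 := by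
    intro j hj
    have h1 := (h j hj).1
    have h2 := (h j hj).2.1
    have h3 : i j ≤ 12 * j + 11 := by omega
    exact ⟨by exact_mod_cast h1, by exact_mod_cast h3⟩
  have hlo0 : 0 < lo := by linarith
  have hhi0 : 0 < hi := by linarith
  have key : ∀ u : ℝ, 0 < u → 1 / (u + 12) ^ 3 ≤ (1 / 24) * (1 / u ^ 2 - 1 / (u + 12) ^ 2) := by
    intro u hu
    have h12 : 0 < u + 12 := by linarith
    have e : (1 / 24) * (1 / u ^ 2 - 1 / (u + 12) ^ 2) - 1 / (u + 12) ^ 3 =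
        (18 * u + 72) / (u ^ 2 * (u + 12) ^ 3) := by
      field_simp
      ring
    have h3 : 0 ≤ (18 * u + 72) / (u ^ 2 * (u + 12) ^ 3) := by positivity
    linarith
  have A : ∑ j ∈ T.filter (fun j : ℕ => lo + 12 ≤ 12 * (j : ℝ)), 1 / (i j : ℝ) ^ 3 ≤
      (1 / 24) * (1 / lo ^ 2 - 1 / hi ^ 2) := by
    set f : ℕ → ℝ := fun j => -((1 / 24) * (1 / (12 * (j : ℝ) - 12) ^ 2)) with hf
    have hf1 : ∀ j : ℕ, f (j + 1) = -((1 / 24) * (1 / (12 * (j : ℝ)) ^ 2)) := by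
      intro j
      simp only [hf]
      push_cast
      congr 4
      ring
    have hstep : ∀ j : ℕ, 2 ≤ j → 1 / (12 * (j : ℝ)) ^ 3 ≤ f (j + 1) - f j := by
      intro j hj
      have hj' : (2 : ℝ) ≤ j := by exact_mod_cast hj
      have h1 := key (12 * (j : ℝ) - 12) (by linarith)
      rw [show 12 * (j : ℝ) - 12 + 12 = 12 * (j : ℝ) by ring] at h1
      rw [hf1 j]
      simp only [hf]
      linarith
    have h2j : ∀ j ∈ T.filter (fun j : ℕ => lo + 12 ≤ 12 * (j : ℝ)), 2 ≤ j := by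
      intro j hj
      have hj' := (Finset.mem_filter.mp hj).2
      have : (2 : ℝ) ≤ j := by linarith
      exact_mod_cast this
    have h1 : ∑ j ∈ T.filter (fun j : ℕ => lo + 12 ≤ 12 * (j : ℝ)), 1 / (i j : ℝ) ^ 3 ≤
        ∑ j ∈ T.filter (fun j : ℕ => lo + 12 ≤ 12 * (j : ℝ)), (f (j + 1) - f j) := by
      apply Finset.sum_le_sum
      intro j hj
      have hj' := (Finset.mem_filter.mp hj).1
      refine le_trans ?_ (hstep j (h2j j hj))
      have h3 := (hR j hj').1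
      have h4 : (2 : ℝ) ≤ j := by exact_mod_cast h2j j hj
      have h5 : 0 < 12 * (j : ℝ) := by linarith
      gcongr
    refine h1.trans ?_
    have h2 := rhoA_tele (T.filter (fun j : ℕ => lo + 12 ≤ 12 * (j : ℝ))) f 2 ?_ h2j
      (a := -((1 / 24) * (1 / lo ^ 2))) (b := -((1 / 24) * (1 / hi ^ 2))) ?_ ?_ ?_
    · linarith
    · intro j hj
      have h3 := hstep j hj
      have h4 : 0 ≤ 1 / (12 * (j : ℝ)) ^ 3 := by positivity
      linarith
    · have : 1 / hi ^ 2 ≤ 1 / lo ^ 2 := by gcongr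
      linarith
    · intro j hj
      have hj' := (Finset.mem_filter.mp hj).2
      have h3 : lo ≤ 12 * (j : ℝ) - 12 := by linarith
      have h4 : 1 / (12 * (j : ℝ) - 12) ^ 2 ≤ 1 / lo ^ 2 := by gcongr
      simp only [hf]
      linarith
    · intro j hj
      have hj' := (Finset.mem_filter.mp hj).1
      have h3 := (hR j hj').1
      have h4 := (h j hj').2.2.2
      have h5 : (2 : ℝ) ≤ j := by exact_mod_cast h2j j hj
      have h6 : 1 / hi ^ 2 ≤ 1 / (12 * (j : ℝ)) ^ 2 := by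
        have h7 : 0 < 12 * (j : ℝ) := by linarith
        have h8 : 12 * (j : ℝ) ≤ hi := h3.trans h4
        gcongr
      rw [hf1 j]
      linarith
  have B : ∑ j ∈ T.filter (fun j : ℕ => ¬ lo + 12 ≤ 12 * (j : ℝ)), 1 / (i j : ℝ) ^ 3 ≤
      3 / lo ^ 3 := by
    have h1 : ∑ j ∈ T.filter (fun j : ℕ => ¬ lo + 12 ≤ 12 * (j : ℝ)), 1 / (i j : ℝ) ^ 3 ≤
        (T.filter (fun j : ℕ => ¬ lo + 12 ≤ 12 * (j : ℝ))).card • (1 / lo ^ 3) := by
      apply Finset.sum_le_card_nsmul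
      intro j hj
      have hj' := (Finset.mem_filter.mp hj).1
      have := (h j hj').2.2.1
      gcongr
    have h2 : (T.filter (fun j : ℕ => ¬ lo + 12 ≤ 12 * (j : ℝ))).card ≤ 2 := by
      apply rhoA_card
      intro a ha b hb
      have ha' := (Finset.mem_filter.mp ha).1
      have hb' := (Finset.mem_filter.mp hb).2
      have ha1 := (hR a ha').2
      have ha2 := (h a ha').2.2.1
      rw [not_le] at hb'
      have h3 : (b : ℝ) < a + 2 := by linarith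
      exact_mod_cast h3
    have h3 : ((T.filter (fun j : ℕ => ¬ lo + 12 ≤ 12 * (j : ℝ))).card : ℝ) ≤ 2 := by
      exact_mod_cast h2
    have h4 : 0 ≤ 1 / lo ^ 3 := by positivity
    rw [nsmul_eq_mul] at h1
    have h5 : 3 / lo ^ 3 = 3 * (1 / lo ^ 3) := by ring
    rw [h5]
    nlinarith
  linarith

end Pool.Agent.Moser.Eng
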