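import Pool.Agent.Lib_MP_cc07e8_co.EngWin
import Pool.Agent.Lib_MP_cc07e8_co.EngRhoA

/-!
# MP_cc07e8_co, engine piece RHO: sum over the groups

`∑ j ∈ [860, J), Ph j k ≤ rhoB k`.
Proof. `Ph j k = phi k i` for an `i ∈ [12 j, 12 j + 12)` (`Finset.exists_mem_eq_sup'`); it is `0` unless
`8.95 k ^ 3 ≤ i ^ 4 ≤ 48.2 k ^ 3`. Let `lo = (8.95 k ^ 3) ^ (1 / 4)`, `hi = (48.2 k ^ 3) ^ (1 / 4)` (`√√`), so `lo ≤ i ≤ hi`. Let
`g(i) = i ^ 3 / k ^ 3`, `h(i) = 750 k / i ^ 3`.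
* `sum_cubes`: `∑ g ≤ (hi ^ 4 - lo ^ 4) / (48 k ^ 3) + 3 hi ^ 3 / k ^ 3`, `hi ^ 4 - lo ^ 4 = 39.25 k ^ 3`, `39.25 / 48 = 0.81771`;
  `hi ^ 3 / k ^ 3 = 48.2 ^ (3 / 4) / k ^ (3 / 4) ≤ 18.3 / k ^ (3 / 4)` (with `hi = √√(48.2 k ^ 3)`, `√k`, `√√k`).
* `sum_inv_cubes`: `750 k / 24 (1 / lo ^ 2 - 1 / hi ^ 2) = 31.25 (1 / √8.95 - 1 / √48.2) / √k ≤ 5.945 / √k`,
  `750 k * 3 / lo ^ 3 = 435 / k ^ (5 / 4) ≤ 1.8 / k ^ (3 / 4)` as `√k ≥ 246`.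
Sum: `≤ 0.8178 + 5.95 / √k + 60 / k ^ (3 / 4)` (`3 * 18.3 + 1.8 = 56.7 < 60`). For `k < 61000` all `Ph j k = 0` (`j ≥ 860`).
Real values: `rho(145683) = 0.842`, `rho(746804) = 0.8277`, `rho → 0.819`.
-/

namespace Pool.Agent.Moser.Eng

noncomputable def rhoB (k : ℕ) : ℝ :=
  (1.0015 + 800 / (k : ℝ)) * (0.8178 + 5.95 / √(k : ℝ) + 60 / (√(k : ℝ) * √√(k : ℝ)))

theorem rho_ex (j k : ℕ) : ∃ i, 12 * j ≤ i ∧ i < 12 * j + 12 ∧ Ph j k = phi k i := by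
  obtain ⟨i, hi, h⟩ := Finset.exists_mem_eq_sup' (s := Finset.Ico (12 * j) (12 * j + 12))
    ⟨12 * j, by simp⟩ (phi k)
  rw [Finset.mem_Ico] at hi
  exact ⟨i, hi.1, hi.2, h⟩

theorem phi_cond {k i : ℕ} (h : phi k i ≠ 0) :
    8.95 * (k : ℝ) ^ 3 ≤ (i : ℝ) ^ 4 ∧ (i : ℝ) ^ 4 ≤ 48.2 * (k : ℝ) ^ 3 := by
  by_contra hc
  apply h
  unfold phi
  rw [if_neg hc]

/-- no drift into the rows of class A -/
theorem rho_zero {k : ℕ} (hk0 : 10320 ≤ k) (hk : k < 61730) (J : ℕ) :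
    ∑ j ∈ Finset.Ico 860 J, Ph j k = 0 := by
  refine Finset.sum_eq_zero fun j hj => ?_
  rw [Finset.mem_Ico] at hj
  obtain ⟨i, h1, h2, h3⟩ := rho_ex j k
  by_contra hc
  rw [h3] at hc
  have h4 := (phi_cond hc).2
  have h5 : (10320 : ℝ) ≤ i := by
    have : 10320 ≤ i := by omega
    exact_mod_cast this
  have h6 : (k : ℝ) ≤ 61729 := by
    have : k ≤ 61729 := by omega
    exact_mod_cast this
  have h7 : (10320 : ℝ) ^ 4 ≤ (i : ℝ) ^ 4 := by gcongr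
  have h8 : (k : ℝ) ^ 3 ≤ (61729 : ℝ) ^ 3 := by gcongr
  norm_num at h7 h8
  linarith

theorem rho_main {k : ℕ} (hk : 61730 ≤ k) (T : Finset ℕ) (i : ℕ → ℕ)
    (h : ∀ j ∈ T, 12 * j ≤ i j ∧ i j < 12 * j + 12 ∧
      8.95 * (k : ℝ) ^ 3 ≤ (i j : ℝ) ^ 4 ∧ (i j : ℝ) ^ 4 ≤ 48.2 * (k : ℝ) ^ 3) :
    ∑ j ∈ T, ((i j : ℝ) ^ 3 / (k : ℝ) ^ 3 + 750 * (k : ℝ) / (i j : ℝ) ^ 3) ≤
      0.8178 + 5.95 / √(k : ℝ) + 60 / (√(k : ℝ) * √√(k : ℝ)) := by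
  have hkR : (61730 : ℝ) ≤ k := by exact_mod_cast hk
  have hk0 : (0 : ℝ) < k := by linarith
  set s : ℝ := √(k : ℝ) with hs
  set t : ℝ := √s with ht
  have hs2 : s ^ 2 = k := Real.sq_sqrt hk0.le
  have hs0 : 0 < s := Real.sqrt_pos.2 hk0
  have ht2 : t ^ 2 = s := Real.sq_sqrt hs0.le
  have ht0 : 0 < t := Real.sqrt_pos.2 hs0
  have hs248 : 248 ≤ s := by
    rw [hs]
    apply Real.le_sqrt_of_sq_le
    norm_num
    linarith
  have hkt : (k : ℝ) = t ^ 4 := by rw [← hs2, ← ht2]; ring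
  -- constants
  obtain ⟨a, ha0, ha4⟩ : ∃ a : ℝ, 0 < a ∧ a ^ 4 = 48.2 := by
    refine ⟨√√48.2, by positivity, ?_⟩
    have h1 : √√(48.2 : ℝ) ^ 4 = (√√(48.2 : ℝ) ^ 2) ^ 2 := by ring
    rw [h1, Real.sq_sqrt (Real.sqrt_nonneg _), Real.sq_sqrt (by norm_num)]
  obtain ⟨b, hb0, hb4⟩ : ∃ b : ℝ, 0 < b ∧ b ^ 4 = 8.95 := by
    refine ⟨√√8.95, by positivity, ?_⟩
    have h1 : √√(8.95 : ℝ) ^ 4 = (√√(8.95 : ℝ) ^ 2) ^ 2 := by ring
    rw [h1, Real.sq_sqrt (Real.sqrt_nonneg _), Real.sq_sqrt (by norm_num)]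
  have ha1 : a ≤ 2.635 := by
    by_contra hc
    push Not at hc
    have : (2.635 : ℝ) ^ 4 < a ^ 4 := by gcongr
    rw [ha4] at this
    norm_num at this
  have hb1 : b ≤ 1.73 := by
    by_contra hc
    push Not at hc
    have : (1.73 : ℝ) ^ 4 < b ^ 4 := by gcongr
    rw [hb4] at this
    norm_num at this
  have hb2 : 1.729 ≤ b := by
    by_contra hc
    push Not at hc
    have : b ^ 4 < (1.729 : ℝ) ^ 4 := by gcongr
    rw [hb4] at this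
    norm_num at this
  have ha2 : 2.6 ≤ a := by
    by_contra hc
    push Not at hc
    have : a ^ 4 < (2.6 : ℝ) ^ 4 := by gcongr
    rw [ha4] at this
    norm_num at this
  have ha3 : a ^ 3 ≤ 18.3 := by
    have : a ^ 3 ≤ (2.635 : ℝ) ^ 3 := by gcongr
    norm_num at this
    linarith
  have hb3 : 5.16 ≤ b ^ 3 := by
    have : (1.729 : ℝ) ^ 3 ≤ b ^ 3 := by gcongr
    norm_num at this
    linarith
  -- squares
  have ha5 : a ^ 2 ≤ 6.94263 := by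
    by_contra hc
    push Not at hc
    have h1 : (6.94263 : ℝ) ^ 2 < (a ^ 2) ^ 2 := by gcongr
    have h2 : (a ^ 2) ^ 2 = a ^ 4 := by ring
    rw [h2, ha4] at h1
    norm_num at h1
  have hb5 : 2.99165 ≤ b ^ 2 := by
    by_contra hc
    push Not at hc
    have h1 : (b ^ 2) ^ 2 < (2.99165 : ℝ) ^ 2 := by gcongr
    have h2 : (b ^ 2) ^ 2 = b ^ 4 := by ring
    rw [h2, hb4] at h1
    norm_num at h1
  have hkey : ∀ j ∈ T, 12 * j ≤ i j ∧ i j < 12 * j + 12 ∧ b * t ^ 3 ≤ (i j : ℝ) ∧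
      (i j : ℝ) ≤ a * t ^ 3 := by
    intro j hj
    obtain ⟨h1, h2, h3, h4⟩ := h j hj
    refine ⟨h1, h2, ?_, ?_⟩
    · have h5 : (b * t ^ 3) ^ 4 ≤ (i j : ℝ) ^ 4 := by
        have : (b * t ^ 3) ^ 4 = b ^ 4 * (t ^ 4) ^ 3 := by ring
        rw [this, hb4, ← hkt]
        exact h3
      exact le_of_pow_le_pow_left₀ (by norm_num) (Nat.cast_nonneg _) h5
    · have h5 : (i j : ℝ) ^ 4 ≤ (a * t ^ 3) ^ 4 := by
        have : (a * t ^ 3) ^ 4 = a ^ 4 * (t ^ 4) ^ 3 := by ring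
        rw [this, ha4, ← hkt]
        exact h4
      exact le_of_pow_le_pow_left₀ (by norm_num) (by positivity) h5
  have hab : b ≤ a := by linarith
  have ht3 : 100 ≤ t ^ 3 := by
    have h1 : 15 ≤ t := by
      rw [ht]
      apply Real.le_sqrt_of_sq_le
      norm_num
      linarith
    have h2 : (15 : ℝ) ^ 3 ≤ t ^ 3 := by gcongr
    norm_num at h2
    linarith
  have hlo : 24 ≤ b * t ^ 3 := by nlinarith
  have hlh : b * t ^ 3 ≤ a * t ^ 3 := by gcongr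
  have hc := sum_cubes T i hlo hlh hkey
  have hi := sum_inv_cubes T i hlo hlh hkey
  have e1 : (a * t ^ 3) ^ 4 - (b * t ^ 3) ^ 4 = 39.25 * t ^ 12 := by
    have : (a * t ^ 3) ^ 4 - (b * t ^ 3) ^ 4 = (a ^ 4 - b ^ 4) * t ^ 12 := by ring
    rw [this, ha4, hb4]
    norm_num
  rw [e1] at hc
  have hsum : ∑ j ∈ T, ((i j : ℝ) ^ 3 / (k : ℝ) ^ 3 + 750 * (k : ℝ) / (i j : ℝ) ^ 3) =
      (∑ j ∈ T, (i j : ℝ) ^ 3) / (k : ℝ) ^ 3 +
        750 * (k : ℝ) * ∑ j ∈ T, 1 / (i j : ℝ) ^ 3 := by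
    rw [Finset.sum_add_distrib, Finset.sum_div, Finset.mul_sum]
    congr 1
    refine Finset.sum_congr rfl fun j _ => ?_
    ring
  rw [hsum]
  have hst : s * t = t ^ 3 := by rw [← ht2]; ring
  rw [hst]
  -- first part
  have p1 : (∑ j ∈ T, (i j : ℝ) ^ 3) / (k : ℝ) ^ 3 ≤ 0.81771 + 54.9 / t ^ 3 := by
    rw [div_le_iff₀ (by positivity)]
    refine hc.trans ?_
    have e2 : (k : ℝ) ^ 3 = t ^ 12 := by rw [hkt]; ring
    rw [e2]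
    have e3 : (0.81771 + 54.9 / t ^ 3) * t ^ 12 = 0.81771 * t ^ 12 + 54.9 * t ^ 9 := by
      field_simp
    rw [e3]
    have e4 : 3 * (a * t ^ 3) ^ 3 = 3 * a ^ 3 * t ^ 9 := by ring
    rw [e4]
    have h9 : 0 < t ^ 9 := by positivity
    have h12 : 0 < t ^ 12 := by positivity
    nlinarith
  have p2 : 750 * (k : ℝ) * ∑ j ∈ T, 1 / (i j : ℝ) ^ 3 ≤ 5.95 / s + 1.8 / t ^ 3 := by
    refine (mul_le_mul_of_nonneg_left hi (by positivity)).trans ?_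
    have e5 : 750 * (k : ℝ) * (1 / 24 * (1 / (b * t ^ 3) ^ 2 - 1 / (a * t ^ 3) ^ 2) +
        3 / (b * t ^ 3) ^ 3) =
        31.25 * (1 / b ^ 2 - 1 / a ^ 2) / s + 2250 / (b ^ 3 * t ^ 5) := by
      rw [hkt, ← ht2]
      field_simp
      ring
    rw [e5]
    have q1 : 31.25 * (1 / b ^ 2 - 1 / a ^ 2) ≤ 5.95 := by
      have r1 : 1 / b ^ 2 ≤ 1 / 2.99165 := by
        apply one_div_le_one_div_of_le (by norm_num) hb5
      have r2 : 1 / 6.94263 ≤ 1 / a ^ 2 := by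
        apply one_div_le_one_div_of_le (by positivity) ha5
      have r3 : (31.25 : ℝ) * (1 / 2.99165 - 1 / 6.94263) ≤ 5.95 := by norm_num
      linarith
    have q2 : 2250 / (b ^ 3 * t ^ 5) ≤ 1.8 / t ^ 3 := by
      rw [div_le_div_iff₀ (by positivity) (by positivity)]
      have r4 : 1.8 * (b ^ 3 * t ^ 5) = (1.8 * b ^ 3 * t ^ 2) * t ^ 3 := by ring
      rw [r4, ht2]
      have r5 : 2250 ≤ 1.8 * b ^ 3 * s := by nlinarith
      exact mul_le_mul_of_nonneg_right r5 (by positivity)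
    have q3 : 31.25 * (1 / b ^ 2 - 1 / a ^ 2) / s ≤ 5.95 / s :=
      div_le_div_of_nonneg_right q1 hs0.le
    linarith
  have p3 : 54.9 / t ^ 3 + 1.8 / t ^ 3 ≤ 60 / t ^ 3 := by
    rw [← add_div]
    exact div_le_div_of_nonneg_right (by norm_num) (by positivity)
  linarith

theorem rho_le {k : ℕ} (hk : 10320 ≤ k) (J : ℕ) : ∑ j ∈ Finset.Ico 860 J, Ph j k ≤ rhoB k := by
  rcases lt_or_ge k 61730 with hk1 | hk1
  · rw [rho_zero hk hk1]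
    unfold rhoB
    positivity
  · classical
    choose i h1 h2 h3 using fun j => rho_ex j k
    have hc0 : (0 : ℝ) ≤ 1.0015 + 800 / (k : ℝ) := by positivity
    rw [← Finset.sum_filter_ne_zero]
    have hm := rho_main hk1 ((Finset.Ico 860 J).filter fun j => Ph j k ≠ 0) i (by
      intro j hj
      rw [Finset.mem_filter, h3 j] at hj
      exact ⟨h1 j, h2 j, phi_cond hj.2⟩)
    refine le_trans (le_of_eq ?_) (mul_le_mul_of_nonneg_left hm hc0)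
    rw [Finset.mul_sum]
    refine Finset.sum_congr rfl fun j hj => ?_
    rw [Finset.mem_filter, h3 j] at hj
    rw [h3 j]
    unfold phi
    rw [if_pos (phi_cond hj.2)]

/-- no drift from a bounded set of groups into far rows -/
theorem rho_far (J : ℕ) : ∃ k0 : ℕ, ∀ k, k0 ≤ k → ∑ j ∈ Finset.Ico 860 J, Ph j k = 0 := by
  refine ⟨(12 * J + 1) ^ 2, fun k hk => ?_⟩
  refine Finset.sum_eq_zero fun j hj => ?_
  rw [Finset.mem_Ico] at hj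
  obtain ⟨i, h1, h2, h3⟩ := rho_ex j k
  by_contra hc
  rw [h3] at hc
  have h4 := (phi_cond hc).1
  have h5 : (i : ℝ) ≤ 12 * J + 1 := by
    have : i ≤ 12 * J + 1 := by omega
    exact_mod_cast this
  have h6 : ((12 * J + 1 : ℝ)) ^ 2 ≤ k := by exact_mod_cast hk
  have h7 : (1 : ℝ) ≤ 12 * J + 1 := by
    have : (0 : ℝ) ≤ J := Nat.cast_nonneg _
    linarith
  have h8 : (i : ℝ) ^ 4 ≤ (12 * (J : ℝ) + 1) ^ 4 := by gcongr
  have h9 : ((12 * (J : ℝ) + 1) ^ 2) ^ 3 ≤ (k : ℝ) ^ 3 := by gcongr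
  have h10 : (12 * (J : ℝ) + 1) ^ 4 ≤ ((12 * (J : ℝ) + 1) ^ 2) ^ 3 := by
    rw [← pow_mul]
    exact pow_le_pow_right₀ h7 (by norm_num)
  have h11 : (1 : ℝ) ≤ (12 * (J : ℝ) + 1) ^ 4 := one_le_pow₀ h7
  linarith

end Pool.Agent.Moser.Eng
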