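import Pool.Agent.Lib_MP_cc07e8_co.EngNumS
import Pool.Agent.Lib_MP_cc07e8_co.EngRho
import Pool.Agent.Lib_MP_cc07e8_co.EngDsum

/-!
# MP_cc07e8_co, engine piece NUMT: the bound `UU` in parts
-/

namespace Pool.Agent.Moser.Eng

theorem numT_phi_nonneg (k i : ℕ) : 0 ≤ phi k i := by
  unfold phi
  split_ifs
  · positivity
  · exact le_refl _

theorem numT_yy_nonneg (k : ℕ) (r : ℝ × ℝ) : 0 ≤ yy k r := by
  unfold yy
  refine Finset.sum_nonneg fun i _ => ?_
  split_ifs
  · have := numT_phi_nonneg k i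
    positivity
  · exact le_refl _

theorem numT_YY_nonneg (k : ℕ) (S : Multiset (ℝ × ℝ)) : 0 ≤ YY k S := by
  unfold YY
  refine Multiset.sum_nonneg fun x hx => ?_
  obtain ⟨r, _, rfl⟩ := Multiset.mem_map.mp hx
  exact numT_yy_nonneg k r

theorem numT_YY_add (k : ℕ) (S T : Multiset (ℝ × ℝ)) : YY k (S + T) = YY k S + YY k T := by
  unfold YY
  rw [Multiset.map_add, Multiset.sum_add]

theorem UU_eq (G : Multiset (ℝ × ℝ)) (e k : ℕ) :
    UU G e k = 0.02052 + ∑ d ∈ Finset.range e, inc G (kap d) (kap (d + 1)) k := by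
  induction e with
  | zero =>
    rw [Finset.sum_range_zero, add_zero]
    rfl
  | succ n ih =>
    rw [Finset.sum_range_succ]
    have h : UU G (n + 1) k = UU G n k + inc G (kap n) (kap (n + 1)) k := rfl
    rw [h, ih]
    ring

/-- the expected loads by the generation 0 strips: the active sets are disjoint parts of `G` -/
theorem sum_YY {G : Multiset (ℝ × ℝ)} (e k : ℕ) :
    ∑ c ∈ Finset.range e, YY k (act G (12 * kap c) (12 * kap (c + 1))) ≤ YY k G := by
  classical
  have key : ∀ e : ℕ, ∑ c ∈ Finset.range e, YY k (act G (12 * kap c) (12 * kap (c + 1))) ≤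
      YY k (Gpast G (12 * kap e)) := by
    intro e
    induction e with
    | zero =>
      rw [Finset.sum_range_zero]
      exact numT_YY_nonneg _ _
    | succ n ih =>
      rw [Finset.sum_range_succ]
      have h1 : Gpast G (12 * kap (n + 1)) =
          act G (12 * kap n) (12 * kap (n + 1)) + Gpast G (12 * kap n) := by
        rw [← Multiset.filter_add_not (fun r : ℝ × ℝ => (tau (12 * kap n) : ℝ) * r.1 ≤ 1)
          (Gpast G (12 * kap (n + 1)))]
        unfold Gpast act
        rw [Multiset.filter_filter, Multiset.filter_filter]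
        congr 1
        refine Multiset.filter_congr fun r _ => ?_
        constructor
        · rintro ⟨h, _⟩
          exact h
        · intro h
          refine ⟨h, fun h2 => h ?_⟩
          have hm : (tau (12 * kap n) : ℝ) ≤ (tau (12 * kap (n + 1)) : ℝ) := by
            exact_mod_cast tau_mono (Nat.mul_le_mul_left 12 (kap_mono (Nat.le_succ n)))
          by_contra h3
          have hr : 0 < r.1 := by
            by_contra h4
            rw [not_lt] at h4
            apply h3
            have : (0 : ℝ) ≤ (tau (12 * kap n) : ℝ) := Nat.cast_nonneg _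
            nlinarith
          have := mul_le_mul_of_nonneg_right hm hr.le
          exact h3 (this.trans h2)
      rw [h1, numT_YY_add]
      linarith
  refine (key e).trans ?_
  have h2 : G = G.filter (fun r : ℝ × ℝ => (tau (12 * kap e) : ℝ) * r.1 ≤ 1) +
      Gpast G (12 * kap e) := by
    unfold Gpast
    rw [Multiset.filter_add_not]
  have h3 : YY k G = YY k (G.filter (fun r : ℝ × ℝ => (tau (12 * kap e) : ℝ) * r.1 ≤ 1)) +
      YY k (Gpast G (12 * kap e)) := by
    rw [← numT_YY_add, ← h2]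
  have h4 := numT_YY_nonneg k (G.filter (fun r : ℝ × ℝ => (tau (12 * kap e) : ℝ) * r.1 ≤ 1))
  linarith

/-- drift of the groups: `∑ c < e, ∑ j ∈ [kap c, kap (c + 1)), Ph j k = ∑ j ∈ [860, kap e), Ph j k` -/
theorem sum_Ph (e k : ℕ) :
    ∑ c ∈ Finset.range e, ∑ j ∈ Finset.Ico (kap c) (kap (c + 1)), Ph j k =
      ∑ j ∈ Finset.Ico 860 (kap e), Ph j k := by
  induction e with
  | zero =>
    rw [Finset.sum_range_zero, kap_zero, Finset.Ico_self, Finset.sum_empty]
  | succ n ih =>
    rw [Finset.sum_range_succ, ih]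
    exact Finset.sum_Ico_consecutive _ (kap_ge n) (kap_mono (Nat.le_succ n))

/-- generation 0 strips have no children in the rows of class A (windows `≥ 10320`, `10320 ^ 4 > 48.2 k ^ 3`) -/
theorem YY_zero {G : Multiset (ℝ × ℝ)} (hG : ∀ r ∈ G, (tau 10320 : ℝ) * r.1 ≤ 1 ∧ 0 < r.1) {k : ℕ}
    (hk : k < 61730) : YY k G = 0 := by
  have hphi : ∀ i : ℕ, 10320 ≤ i → phi k i = 0 := by
    intro i hi
    unfold phi
    rw [if_neg]
    rintro ⟨_, h2⟩
    have h3 : (10320 : ℝ) ≤ (i : ℝ) := by
      exact_mod_cast hi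
    have h4 : (10320 : ℝ) ^ 4 ≤ (i : ℝ) ^ 4 := pow_le_pow_left₀ (by norm_num) h3 4
    have h5 : (k : ℝ) ≤ 61729 := by
      have : k ≤ 61729 := by omega
      exact_mod_cast this
    have h6 : (k : ℝ) ^ 3 ≤ 61729 ^ 3 := pow_le_pow_left₀ (Nat.cast_nonneg k) h5 3
    norm_num at h4 h6
    linarith
  unfold YY
  refine Multiset.sum_eq_zero fun x hx => ?_
  obtain ⟨r, _, rfl⟩ := Multiset.mem_map.mp hx
  unfold yy
  refine Finset.sum_eq_zero fun i hi => ?_
  rw [hphi i (Finset.mem_Ico.mp hi).1, mul_zero]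
  simp

/-- `UU` in parts for rows `k < 670000` -/
theorem UU_low {G : Multiset (ℝ × ℝ)} {e k : ℕ} (hk : 10320 ≤ k) (hk2 : k < 670000) :
    UU G e k ≤ 0.02052 + YY k G + 0.12 * ∑ j ∈ Finset.Ico 860 (kap e), Ph j k +
      ∑ d ∈ Finset.range e, (bet (12 * kap d) k * births (kap d) (kap (d + 1)) +
        shelf (kap d) (kap (d + 1)) k + Eerr (12 * kap d) (12 * kap (d + 1)) k +
        2.15e6 / (k : ℝ) ^ 2) := by
  rw [UU_eq, ← sum_Ph]
  have h1 : ∀ d, inc G (kap d) (kap (d + 1)) k =
      (bet (12 * kap d) k * births (kap d) (kap (d + 1)) +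
        shelf (kap d) (kap (d + 1)) k + Eerr (12 * kap d) (12 * kap (d + 1)) k +
        2.15e6 / (k : ℝ) ^ 2) + YY k (act G (12 * kap d) (12 * kap (d + 1))) +
        0.12 * ∑ j ∈ Finset.Ico (kap d) (kap (d + 1)), Ph j k := by
    intro d
    unfold inc drift
    rw [if_pos hk2]
    ring
  rw [Finset.sum_congr rfl fun d _ => h1 d, Finset.sum_add_distrib, Finset.sum_add_distrib,
    ← Finset.mul_sum]
  have h2 := sum_YY (G := G) e k
  linarith

theorem inc_nonneg (G : Multiset (ℝ × ℝ)) (κ κ' k : ℕ) : 0 ≤ inc G κ κ' k := by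
  have h1 : 0 ≤ bet (12 * κ) k := by
    unfold bet
    split_ifs <;> norm_num
  have h2 : 0 ≤ births κ κ' := by
    unfold births
    have : 0 ≤ ∑ j ∈ Finset.Ico κ κ', 6.66 / (j : ℝ) ^ 2 :=
      Finset.sum_nonneg fun j _ => by positivity
    have : (0 : ℝ) ≤ 4e9 / (12 * (κ : ℝ)) ^ 4 := by positivity
    linarith
  have h3 : 0 ≤ shelf κ κ' k := by
    unfold shelf
    have h4 : 0 ≤ ∑ i ∈ Finset.Ico (12 * κ) (12 * κ'), 1 / (i : ℝ) ^ 2 :=
      Finset.sum_nonneg fun j _ => by positivity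
    have h5 : 0 ≤ 16 / √((tau (12 * κ) : ℝ) - 1) := by positivity
    split_ifs <;> linarith
  have h4 : 0 ≤ Eerr (12 * κ) (12 * κ') k := by
    unfold Eerr
    split_ifs
    · positivity
    · exact le_refl _
  have h5 : 0 ≤ drift G κ κ' k := by
    unfold drift
    split_ifs
    · have h6 := numT_YY_nonneg k (act G (12 * κ) (12 * κ'))
      have h7 : 0 ≤ ∑ j ∈ Finset.Ico κ κ', Ph j k :=
        Finset.sum_nonneg fun j _ => Ph_nonneg j k
      linarith
    · refine Finset.sum_nonneg fun j _ => ?_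
      refine mul_nonneg ?_ (Ph_nonneg j k)
      unfold lamR
      split_ifs <;> norm_num
  have h6 : (0 : ℝ) ≤ 2.15e6 / (k : ℝ) ^ 2 := by positivity
  have h7 := mul_nonneg h1 h2
  unfold inc
  linarith

theorem UU_mono (G : Multiset (ℝ × ℝ)) {d e : ℕ} (h : d ≤ e) (k : ℕ) : UU G d k ≤ UU G e k := by
  induction e, h using Nat.le_induction with
  | base => exact le_refl _
  | succ n hn ih =>
    have h1 : UU G (n + 1) k = UU G n k + inc G (kap n) (kap (n + 1)) k := rfl
    have h2 := inc_nonneg G (kap n) (kap (n + 1)) k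
    linarith

end Pool.Agent.Moser.Eng
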