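import Pool.Agent.Lib_MP_cc07e8_co.EngNumT

/-!
# MP_cc07e8_co, engine: the parts of the sums over the epochs, for a cell of rows

Common lemmas for the pieces NUMA, NUMB0, NUMB: bounds for the sums of births, of the `u` part, of the
`√` part and of the rounding errors over the epochs `d < E`, with the values of `kap`.
-/

namespace Pool.Agent.Moser.Eng

theorem kap_val : kap 1 = 1075 ∧ kap 2 = 1343 ∧ kap 3 = 1678 ∧ kap 4 = 2097 ∧ kap 5 = 2621 ∧
    kap 6 = 3276 ∧ kap 7 = 4095 ∧ kap 8 = 5118 ∧ kap 9 = 6397 ∧ kap 10 = 7996 ∧ kap 11 = 9995 ∧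
    kap 12 = 12493 ∧ kap 13 = 15616 ∧ kap 14 = 19520 := by
  decide

theorem births_nonneg (κ κ' : ℕ) : 0 ≤ births κ κ' := by
  unfold births
  have h1 : 0 ≤ ∑ j ∈ Finset.Ico κ κ', 6.66 / (j : ℝ) ^ 2 :=
    Finset.sum_nonneg fun j _ => by positivity
  have h2 : (0 : ℝ) ≤ 4e9 / (12 * (κ : ℝ)) ^ 4 := by positivity
  linarith

/-- births: only the epochs `d < c` count -/
theorem part_births {k c E : ℕ} (hc : c ≤ E) (h : 21.2 * (k : ℝ) ^ 3 < (12 * (kap c : ℝ)) ^ 4) :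
    ∑ d ∈ Finset.range E, bet (12 * kap d) k * births (kap d) (kap (d + 1)) ≤
      5.4 * (6.66 * (1 / (859.5 : ℝ) - 1 / ((kap c : ℝ) - 1 / 2)) + 1e-6) := by
  rw [Finset.range_eq_Ico, ← Finset.sum_Ico_consecutive _ (Nat.zero_le c) hc]
  have h1 : ∑ d ∈ Finset.Ico c E, bet (12 * kap d) k * births (kap d) (kap (d + 1)) = 0 := by
    refine Finset.sum_eq_zero fun d hd => ?_
    have hd1 := (Finset.mem_Ico.mp hd).1
    have h2 : bet (12 * kap d) k = 0 := by
      unfold bet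
      rw [if_neg]
      intro h3
      push_cast at h3
      have h4 : (kap c : ℝ) ≤ (kap d : ℝ) := by
        exact_mod_cast kap_mono hd1
      have h5 : (12 * (kap c : ℝ)) ^ 4 ≤ (12 * (kap d : ℝ)) ^ 4 :=
        pow_le_pow_left₀ (by positivity) (by linarith) 4
      linarith
    rw [h2, zero_mul]
  have h2 : ∑ d ∈ Finset.Ico 0 c, bet (12 * kap d) k * births (kap d) (kap (d + 1)) ≤
      ∑ d ∈ Finset.Ico 0 c, 5.4 * births (kap d) (kap (d + 1)) := by
    refine Finset.sum_le_sum fun d _ => ?_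
    refine mul_le_mul_of_nonneg_right ?_ (births_nonneg _ _)
    unfold bet
    split_ifs <;> norm_num
  have h3 := sum_births (Nat.zero_le c)
  rw [← Finset.mul_sum] at h2
  rw [kap_zero] at h3
  push_cast at h3
  have h4 : ((860 : ℝ) - 1 / 2) = 859.5 := by norm_num
  rw [h4] at h3
  rw [h1]
  linarith

/-- the `u` and `√` parts: the epochs `d < m` have the coefficient 625 -/
theorem part_shelf {k m E : ℕ} (hm : m ≤ E) (h : m = 0 ∨ 10 * (12 * kap m) ≤ k) :
    ∑ d ∈ Finset.range E, shelf (kap d) (kap (d + 1)) k ≤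
      625 * (1 / (10319.5 : ℝ) - 1 / (12 * (kap m : ℝ) - 1 / 2)) +
        905 * (1 / (12 * (kap m : ℝ) - 1 / 2) - 1 / (12 * (kap E : ℝ) - 1 / 2)) + 0.0089 := by
  have h0 := sum_sqrt E
  have hs : ∀ d : ℕ, 0 ≤ ∑ i ∈ Finset.Ico (12 * kap d) (12 * kap (d + 1)), 1 / (i : ℝ) ^ 2 :=
    fun d => Finset.sum_nonneg fun j _ => by positivity
  have e1 : ∑ d ∈ Finset.range E, shelf (kap d) (kap (d + 1)) k =
      ∑ d ∈ Finset.range E, ((if 1000 * tau (12 * kap (d + 1)) ≤ tau k then 625 else 905) *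
        ∑ i ∈ Finset.Ico (12 * kap d) (12 * kap (d + 1)), 1 / (i : ℝ) ^ 2) +
      ∑ d ∈ Finset.range E, 16 / √((tau (12 * kap d) : ℝ) - 1) := by
    rw [← Finset.sum_add_distrib]
    rfl
  have h1 : ∑ d ∈ Finset.Ico 0 m, ((if 1000 * tau (12 * kap (d + 1)) ≤ tau k then (625 : ℝ) else 905) *
        ∑ i ∈ Finset.Ico (12 * kap d) (12 * kap (d + 1)), 1 / (i : ℝ) ^ 2) ≤
      625 * (1 / (10319.5 : ℝ) - 1 / (12 * (kap m : ℝ) - 1 / 2)) := by
    rcases h with h | h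
    · rw [h, Finset.Ico_self, Finset.sum_empty, kap_zero]
      norm_num
    · have h2 : ∀ d ∈ Finset.Ico 0 m,
          ((if 1000 * tau (12 * kap (d + 1)) ≤ tau k then (625 : ℝ) else 905) *
          ∑ i ∈ Finset.Ico (12 * kap d) (12 * kap (d + 1)), 1 / (i : ℝ) ^ 2) =
          625 * ∑ i ∈ Finset.Ico (12 * kap d) (12 * kap (d + 1)), 1 / (i : ℝ) ^ 2 := by
        intro d hd
        rw [if_pos]
        apply tau_ten
        refine le_trans ?_ h
        have := kap_mono (Nat.succ_le_of_lt (Finset.mem_Ico.mp hd).2)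
        exact Nat.mul_le_mul_left 10 (Nat.mul_le_mul_left 12 this)
      rw [Finset.sum_congr rfl h2, ← Finset.mul_sum]
      have h3 := sum_u (Nat.zero_le m)
      rw [kap_zero] at h3
      push_cast at h3
      have h4 : ((12 : ℝ) * 860 - 1 / 2) = 10319.5 := by norm_num
      rw [h4] at h3
      linarith
  have h2 : ∑ d ∈ Finset.Ico m E, ((if 1000 * tau (12 * kap (d + 1)) ≤ tau k then (625 : ℝ) else 905) *
        ∑ i ∈ Finset.Ico (12 * kap d) (12 * kap (d + 1)), 1 / (i : ℝ) ^ 2) ≤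
      905 * (1 / (12 * (kap m : ℝ) - 1 / 2) - 1 / (12 * (kap E : ℝ) - 1 / 2)) := by
    have h3 := sum_u hm
    have h4 : ∑ d ∈ Finset.Ico m E, ((if 1000 * tau (12 * kap (d + 1)) ≤ tau k then (625 : ℝ) else 905) *
        ∑ i ∈ Finset.Ico (12 * kap d) (12 * kap (d + 1)), 1 / (i : ℝ) ^ 2) ≤
        ∑ d ∈ Finset.Ico m E, 905 *
          ∑ i ∈ Finset.Ico (12 * kap d) (12 * kap (d + 1)), 1 / (i : ℝ) ^ 2 := by
      refine Finset.sum_le_sum fun d _ => ?_
      refine mul_le_mul_of_nonneg_right ?_ (hs d)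
      split_ifs <;> norm_num
    rw [← Finset.mul_sum] at h4
    linarith
  rw [e1, Finset.range_eq_Ico, ← Finset.sum_Ico_consecutive _ (Nat.zero_le m) hm]
  rw [Finset.range_eq_Ico] at h0
  linarith

/-- the rounding errors: only the epochs `a ≤ d < b` count -/
theorem part_Eerr {k a b E : ℕ} (hab : a ≤ b) (hb : b ≤ E)
    (h1 : a = 0 ∨ (12 * (kap a : ℝ)) ^ 4 < 8.95 * (k : ℝ) ^ 3)
    (h2 : b = E ∨ 48.2 * (k : ℝ) ^ 3 < (12 * (kap b : ℝ)) ^ 4) :
    ∑ d ∈ Finset.range E, Eerr (12 * kap d) (12 * kap (d + 1)) k ≤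
      ∑ d ∈ Finset.Ico a b, 273600 * (k : ℝ) / (12 * (kap d : ℝ)) ^ 3 := by
  rw [Finset.range_eq_Ico, ← Finset.sum_Ico_consecutive _ (Nat.zero_le b) hb,
    ← Finset.sum_Ico_consecutive _ (Nat.zero_le a) hab]
  have h3 : ∑ d ∈ Finset.Ico 0 a, Eerr (12 * kap d) (12 * kap (d + 1)) k = 0 := by
    refine Finset.sum_eq_zero fun d hd => ?_
    have hd2 := (Finset.mem_Ico.mp hd).2
    unfold Eerr
    rw [if_neg]
    rintro ⟨_, h4⟩
    rcases h1 with h1 | h1
    · omega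
    · push_cast at h4
      have h5 : (kap (d + 1) : ℝ) ≤ (kap a : ℝ) := by
        exact_mod_cast kap_mono (Nat.succ_le_of_lt hd2)
      have h6 : (12 * (kap (d + 1) : ℝ)) ^ 4 ≤ (12 * (kap a : ℝ)) ^ 4 :=
        pow_le_pow_left₀ (by positivity) (by linarith) 4
      linarith
  have h4 : ∑ d ∈ Finset.Ico b E, Eerr (12 * kap d) (12 * kap (d + 1)) k = 0 := by
    refine Finset.sum_eq_zero fun d hd => ?_
    have hd1 := Finset.mem_Ico.mp hd
    unfold Eerr
    rw [if_neg]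
    rintro ⟨h4, _⟩
    rcases h2 with h2 | h2
    · omega
    · push_cast at h4
      have h5 : (kap b : ℝ) ≤ (kap d : ℝ) := by
        exact_mod_cast kap_mono hd1.1
      have h6 : (12 * (kap b : ℝ)) ^ 4 ≤ (12 * (kap d : ℝ)) ^ 4 :=
        pow_le_pow_left₀ (by positivity) (by linarith) 4
      linarith
  have h5 : ∑ d ∈ Finset.Ico a b, Eerr (12 * kap d) (12 * kap (d + 1)) k ≤
      ∑ d ∈ Finset.Ico a b, 273600 * (k : ℝ) / (12 * (kap d : ℝ)) ^ 3 := by
    refine Finset.sum_le_sum fun d _ => ?_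
    unfold Eerr
    split_ifs
    · push_cast
      exact le_refl _
    · positivity
  rw [h3, h4]
  linarith

/-- the epochs before row `k` -/
theorem epoch_le {e k E : ℕ} (hk : 12 * kap e ≤ k) (h : k < 12 * kap (E + 1)) : e ≤ E := by
  by_contra h1
  have h2 : kap (E + 1) ≤ kap e := kap_mono (by omega)
  omega

/-- `UU_low` with the sums separated; `E` any bound for `e` -/
theorem UU_parts {G : Multiset (ℝ × ℝ)} {e k E : ℕ} (hk : 10320 ≤ k) (hk2 : k < 670000)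
    (he : e ≤ E) :
    UU G e k ≤ 0.02052 + YY k G + 0.12 * ∑ j ∈ Finset.Ico 860 (kap E), Ph j k +
      ∑ d ∈ Finset.range E, bet (12 * kap d) k * births (kap d) (kap (d + 1)) +
      ∑ d ∈ Finset.range E, shelf (kap d) (kap (d + 1)) k +
      ∑ d ∈ Finset.range E, Eerr (12 * kap d) (12 * kap (d + 1)) k +
      (E : ℝ) * (2.15e6 / (k : ℝ) ^ 2) := by
  refine (UU_mono G he k).trans ((UU_low hk hk2).trans ?_)
  rw [Finset.sum_add_distrib, Finset.sum_add_distrib, Finset.sum_add_distrib, Finset.sum_const,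
    Finset.card_range, nsmul_eq_mul]
  linarith

/-- the bound `rhoB` from lower bounds of `k`, `√k`, `√√k` -/
theorem rhoB_le {k : ℕ} {K s t : ℝ} (hK : 0 < K) (hs : 0 < s) (ht : 0 < t) (h : K ≤ (k : ℝ))
    (h1 : s ^ 2 ≤ K) (h2 : t ^ 2 ≤ s) :
    rhoB k ≤ (1.0015 + 800 / K) * (0.8178 + 5.95 / s + 60 / (s * t)) := by
  have h3 : s ≤ √(k : ℝ) := Real.le_sqrt_of_sq_le (h1.trans h)
  have h4 : t ≤ √√(k : ℝ) := Real.le_sqrt_of_sq_le (h2.trans h3)
  have h5 : (0 : ℝ) < √(k : ℝ) := lt_of_lt_of_le hs h3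
  have h6 : (0 : ℝ) < √√(k : ℝ) := lt_of_lt_of_le ht h4
  unfold rhoB
  have a1 : 800 / (k : ℝ) ≤ 800 / K := div_le_div_of_nonneg_left (by norm_num) hK h
  have a2 : 5.95 / √(k : ℝ) ≤ 5.95 / s := div_le_div_of_nonneg_left (by norm_num) hs h3
  have a3 : 60 / (√(k : ℝ) * √√(k : ℝ)) ≤ 60 / (s * t) :=
    div_le_div_of_nonneg_left (by norm_num) (by positivity)
      (mul_le_mul h3 h4 ht.le h5.le)
  apply mul_le_mul
  · linarith
  · linarith
  · positivity
  · positivity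

end Pool.Agent.Moser.Eng
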