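import Pool.Agent.Lib_MP_cc07e8_co.EngColX
import Pool.Agent.Lib_MP_cc07e8_co.EngColP

/-!
# MP_cc07e8_co, engine piece ODDCOL: column sums for the rounding of the splits

`odd_col`: triangle inequality, `col_pot`, `col_xx` for `w1` and `w2`: `x / w1 + x / w2 = x (x / 2) / (w1 w2) ≤ 128 / 7`
(`w1 w2 ≥ (x / 16) (7 x / 16)`), `36190 * 128 / 7 = 661760`, `661760 / 2e6 + 0.1415 = 0.4724 < 1 / 2`.
`odd_far`: `w tau k ≥ 16 / 7`, so `w tau (k - 15) > 1`: the window of `w` is `< k - 15`, no load; potentials: `pot_two_far`.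
-/

namespace Pool.Agent.Moser.Eng

theorem odd_col (R : Finset ℕ) (hR : ∀ k ∈ R, 12900 ≤ k) {x l w1 w2 : ℝ} (hx : 0 < x)
    (hl : 0 ≤ l) (hl4 : l ≤ 4 * x) (hw : w1 + w2 = x / 2) (h1 : x / 16 ≤ w1) (h2 : x / 16 ≤ w2) :
    ∑ k ∈ R, (k : ℝ) ^ 2 / 2e6 *
      |xx k (w1, l) + xx k (w2, l) + pot k w1 + pot k w2 - cen k x| < 1 / 2 := by
  have hw1 : 0 < w1 := by linarith
  have hw2 : 0 < w2 := by linarith
  have c1 := col_xx R hR hx hw1 hl hl4
  have c2 := col_xx R hR hx hw2 hl hl4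
  have c3 := col_pot R hR hx hw h1 h2
  have key : ∑ k ∈ R, (k : ℝ) ^ 2 / 2e6 *
      |xx k (w1, l) + xx k (w2, l) + pot k w1 + pot k w2 - cen k x| ≤
      ∑ k ∈ R, (k : ℝ) ^ 2 / 2e6 * xx k (w1, l) + ∑ k ∈ R, (k : ℝ) ^ 2 / 2e6 * xx k (w2, l) +
        ∑ k ∈ R, (k : ℝ) ^ 2 / 2e6 * |pot k w1 + pot k w2 - cen k x| := by
    rw [← Finset.sum_add_distrib, ← Finset.sum_add_distrib]
    apply Finset.sum_le_sum
    intro k _
    rw [← mul_add, ← mul_add]
    apply mul_le_mul_of_nonneg_left _ (by positivity)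
    have e : xx k (w1, l) + xx k (w2, l) + pot k w1 + pot k w2 - cen k x =
        xx k (w1, l) + xx k (w2, l) + (pot k w1 + pot k w2 - cen k x) := by ring
    rw [e]
    refine (abs_add_le _ _).trans ?_
    have := xx_nonneg k (w1, l)
    have := xx_nonneg k (w2, l)
    rw [abs_of_nonneg (by linarith : 0 ≤ xx k (w1, l) + xx k (w2, l))]
  have hsum : x / w1 + x / w2 ≤ 128 / 7 := by
    have hprod : 7 * x ^ 2 / 256 ≤ w1 * w2 := by
      have e2 : w2 = x / 2 - w1 := by linarith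
      subst e2
      nlinarith [mul_nonneg (sub_nonneg.2 h1) (sub_nonneg.2 h2)]
    have e : x / w1 + x / w2 = x * (x / 2) / (w1 * w2) := by
      rw [← hw]
      field_simp
      ring
    rw [e, div_le_iff₀ (by positivity)]
    nlinarith
  norm_num at c1 c2 c3 key ⊢
  nlinarith

/-- rows far out: no load and the centre is the value -/
theorem odd_far {k : ℕ} (hk : 12900 ≤ k) {x l w1 w2 : ℝ} (hx : 0 < x)
    (hw : w1 + w2 = x / 2) (h1 : x / 16 ≤ w1) (h2 : x / 16 ≤ w2)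
    (h : 256 / 7 ≤ x * (tau k : ℝ)) :
    xx k (w1, l) + xx k (w2, l) + pot k w1 + pot k w2 = 2.7 * x - 3.1 / (tau k : ℝ) := by
  have hp := pot_two_far (k := k) (by omega) hw h1 h2 h
  have zero : ∀ w : ℝ, x / 16 ≤ w → xx k (w, l) = 0 := by
    intro w hxw
    unfold xx
    apply Finset.sum_eq_zero
    intro i hi
    rw [Finset.mem_Icc] at hi
    rw [if_neg]
    intro hW
    have hle : (tau i : ℝ) * w ≤ 1 := hW.1
    have hwp : 0 < w := by linarith
    have t1 : (tau (k - 15) : ℝ) ≤ (tau i : ℝ) := by exact_mod_cast tau_mono hi.1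
    have t2 := lt_tau (k - 15)
    have t3 := tau_le k
    have hc : ((k - 15 : ℕ) : ℝ) = (k : ℝ) - 15 := by
      rw [Nat.cast_sub (by omega)]
      norm_num
    rw [hc] at t2
    have hkr : (12900 : ℝ) ≤ k := by exact_mod_cast hk
    -- `tau (k - 15) ≥ (7 / 8) tau k` roughly
    have t4 : (tau k : ℝ) ≤ 8 / 7 * (tau (k - 15) : ℝ) := by
      have : (k : ℝ) ^ 3 / 27000 ≤ 8 / 7 * (((k : ℝ) - 15) ^ 3 / 27000 - 64) := by
        have h5 : (12900 : ℝ) * k ^ 2 ≤ (k : ℝ) ^ 3 := by nlinarith [sq_nonneg (k : ℝ)]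
        nlinarith
      linarith
    have t5 : w * (tau k : ℝ) ≤ w * (8 / 7 * (tau (k - 15) : ℝ)) :=
      mul_le_mul_of_nonneg_left t4 hwp.le
    have t6 : w * (tau (k - 15) : ℝ) ≤ w * (tau i : ℝ) :=
      mul_le_mul_of_nonneg_left t1 hwp.le
    have t7 : x / 16 * (tau k : ℝ) ≤ w * (tau k : ℝ) :=
      mul_le_mul_of_nonneg_right hxw (by positivity)
    nlinarith
  have z1 := zero w1 h1
  have z2 := zero w2 h2
  rw [z1, z2]
  linarith

end Pool.Agent.Moser.Eng
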