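import Pool.Agent.Lib_MP_cc07e8_co.EngWin
import Pool.Agent.Lib_MP_cc07e8_co.EngGr

/-!
# MP_cc07e8_co, engine piece ODDPOT: expected potential of a random split

`w_j = x / 2 * gr J j = x / 16 + h (j + 1 / 2)`, step `h = 3 x / (8 J)`. Antiderivative `Q w = 2.7 w ^ 2 - c w`,
`c = 1.55 / tau k`, truncated at `a = 16 / (7 tau k)`: `h * pot k w_j ≤ G (s_(j+1)) - G (s_j)`, `G s = Q (max s a)`,
`s_j = x / 16 + h j`, up to one term `≤ (h / 2) 5.4 a`.
-/

namespace Pool.Agent.Moser.Eng

namespace OddPot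

/-- antiderivative -/
noncomputable def Q (c w : ℝ) : ℝ := 2.7 * w ^ 2 - c * w

theorem Q_sub (c u v : ℝ) : Q c v - Q c u = (v - u) * (2.7 * (u + v) - c) := by
  unfold Q; ring

theorem Q_mono {c a u v : ℝ} (hca : c ≤ 5.4 * a) (hu : a ≤ u) (huv : u ≤ v) : Q c u ≤ Q c v := by
  have h := Q_sub c u v
  have : 0 ≤ (v - u) * (2.7 * (u + v) - c) := mul_nonneg (by linarith) (by linarith)
  linarith

theorem G_mono {c a s s' : ℝ} (hca : c ≤ 5.4 * a) (h : s ≤ s') :
    Q c (max s a) ≤ Q c (max s' a) :=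
  Q_mono hca (le_max_right _ _) (max_le_max h le_rfl)

/-- one step -/
theorem step {c a h s : ℝ} (ha : 0 ≤ a) (hc : 0 ≤ c) (hca : c ≤ 5.4 * a) (hh : 0 ≤ h) :
    h * (if a ≤ s + h / 2 then 5.4 * (s + h / 2) - c else 0) + (if a ≤ s then h / 2 * (5.4 * a) else 0) ≤
      Q c (max (s + h) a) - Q c (max s a) + (if a ≤ s + h then h / 2 * (5.4 * a) else 0) := by
  have hE : 0 ≤ h / 2 * (5.4 * a) := by positivity
  have hG := G_mono (s := s) (s' := s + h) hca (by linarith)
  have hmid : h * (5.4 * (s + h / 2) - c) = Q c (s + h) - Q c s := by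
    unfold Q; ring
  by_cases h1 : a ≤ s
  · rw [if_pos h1, if_pos (by linarith), if_pos (by linarith), max_eq_left (by linarith),
      max_eq_left h1, hmid]
  · push Not at h1
    rw [if_neg (not_le.mpr h1)]
    by_cases h2 : a ≤ s + h / 2
    · rw [if_pos h2, if_pos (by linarith), max_eq_left (by linarith), max_eq_right h1.le, hmid]
      have h3 : Q c a - Q c s ≤ h / 2 * (5.4 * a) := by
        rw [Q_sub]
        calc (a - s) * (2.7 * (s + a) - c) ≤ (a - s) * (5.4 * a) :=
              mul_le_mul_of_nonneg_left (by linarith) (by linarith)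
          _ ≤ h / 2 * (5.4 * a) := mul_le_mul_of_nonneg_right (by linarith) (by positivity)
      linarith
    · rw [if_neg h2, mul_zero]
      have : 0 ≤ (if a ≤ s + h then h / 2 * (5.4 * a) else 0) := by
        split_ifs
        · exact hE
        · exact le_rfl
      linarith

theorem total {c a h s0 : ℝ} (ha : 0 ≤ a) (hc : 0 ≤ c) (hca : c ≤ 5.4 * a) (hh : 0 ≤ h) (n : ℕ) :
    ∑ j ∈ Finset.range n, h * (if a ≤ s0 + h * j + h / 2 then
        5.4 * (s0 + h * j + h / 2) - c else 0) ≤
      Q c (max (s0 + h * n) a) - Q c (max s0 a) +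
        (if a ≤ s0 + h * n then h / 2 * (5.4 * a) else 0) := by
  induction n with
  | zero =>
    simp only [Finset.range_zero, Finset.sum_empty, Nat.cast_zero, mul_zero, add_zero, sub_self,
      zero_add]
    split_ifs
    · positivity
    · exact le_rfl
  | succ n ih =>
    rw [Finset.sum_range_succ]
    have h1 := step (s := s0 + h * n) ha hc hca hh
    have h2 : s0 + h * ((n + 1 : ℕ) : ℝ) = s0 + h * n + h := by push_cast; ring
    rw [h2]
    linarith

end OddPot

open OddPot in
theorem odd_pot {k J : ℕ} (hk : 12900 ≤ k) (hJ : 0 < J) {x : ℝ} (hx : 0 < x) :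
    2 * (∑ j ∈ Finset.range J, pot k (x / 2 * gr J j)) / (J : ℝ) ≤
      EE k x / 2 + 12 * x / (J : ℝ) := by
  have hJ' : (0 : ℝ) < J := by exact_mod_cast hJ
  have c3 := tau_pos (i := k) (by omega)
  have hC : (0 : ℝ) < tau k := by linarith
  set t : ℝ := (tau k : ℝ) with ht
  set a : ℝ := 16 / (7 * t) with ha
  set c : ℝ := 1.55 / t with hc
  set h : ℝ := 3 * x / (8 * (J : ℝ)) with hh
  have ha0 : 0 < a := by positivity
  have hc0 : 0 ≤ c := by positivity
  have hh0 : 0 < h := by positivity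
  have hca : c ≤ 5.4 * a := by
    rw [hc, ha, div_le_iff₀ hC]
    have : 5.4 * (16 / (7 * t)) * t = 5.4 * 16 / 7 := by field_simp
    rw [this]; norm_num
  have hw : ∀ j : ℕ, x / 2 * gr J j = x / 16 + h * j + h / 2 := by
    intro j
    unfold gr
    rw [hh]
    field_simp
    ring
  have hpot : ∀ j : ℕ, h * pot k (x / 2 * gr J j) =
      h * (if a ≤ x / 16 + h * j + h / 2 then 5.4 * (x / 16 + h * j + h / 2) - c else 0) := by
    intro j
    rw [hw j]
    congr 1
    unfold pot
    refine if_congr ?_ rfl rfl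
    rw [← ht]
    have h7 : (0 : ℝ) < 7 * t := by positivity
    constructor
    · intro h8
      rw [ha, div_le_iff₀ h7]; linarith
    · intro h8
      rw [ha, div_le_iff₀ h7] at h8; linarith
  have hT := total (s0 := x / 16) ha0.le hc0 hca hh0.le J
  have hH : x / 16 + h * (J : ℝ) = 7 * x / 16 := by
    rw [hh]; field_simp; ring
  rw [hH] at hT
  have hsum : h * ∑ j ∈ Finset.range J, pot k (x / 2 * gr J j) =
      ∑ j ∈ Finset.range J, h * (if a ≤ x / 16 + h * j + h / 2 then
        5.4 * (x / 16 + h * j + h / 2) - c else 0) := by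
    rw [Finset.mul_sum]
    exact Finset.sum_congr rfl fun j _ => hpot j
  rw [← hsum] at hT
  have hlo : loE k x = max (x / 16) a := rfl
  have hEE : Q c (max (7 * x / 16) a) - Q c (max (x / 16) a) = 3 * x / 32 * EE k x := by
    unfold EE
    rw [hlo]
    by_cases h1 : a ≤ 7 * x / 16
    · rw [if_pos (max_le (by linarith) h1), max_eq_left h1, ← ht, ← hc]
      unfold Q
      field_simp
      ring
    · push Not at h1
      rw [if_neg (by rw [not_le]; exact lt_of_lt_of_le h1 (le_max_right _ _)),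
        max_eq_right h1.le, max_eq_right (by linarith), sub_self, mul_zero]
  rw [hEE] at hT
  have hE : (if a ≤ 7 * x / 16 then h / 2 * (5.4 * a) else 0) ≤ h / 2 * (5.4 * (7 * x / 16)) := by
    split_ifs with h1
    · exact mul_le_mul_of_nonneg_left (by linarith) (by positivity)
    · positivity
  have h5 : h * ∑ j ∈ Finset.range J, pot k (x / 2 * gr J j) ≤
      3 * x / 32 * EE k x + h / 2 * (5.4 * (7 * x / 16)) := by linarith
  have h6 : 2 * (∑ j ∈ Finset.range J, pot k (x / 2 * gr J j)) / (J : ℝ) =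
      16 / (3 * x) * (h * ∑ j ∈ Finset.range J, pot k (x / 2 * gr J j)) := by
    rw [hh]; field_simp; ring
  rw [h6]
  calc 16 / (3 * x) * (h * ∑ j ∈ Finset.range J, pot k (x / 2 * gr J j))
      ≤ 16 / (3 * x) * (3 * x / 32 * EE k x + h / 2 * (5.4 * (7 * x / 16))) :=
        mul_le_mul_of_nonneg_left h5 (by positivity)
    _ = EE k x / 2 + 2.3625 * x / (J : ℝ) := by
        rw [hh]; field_simp; ring
    _ ≤ EE k x / 2 + 12 * x / (J : ℝ) := by
        have : 2.3625 * x / (J : ℝ) ≤ 12 * x / (J : ℝ) :=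
          div_le_div_of_nonneg_right (by linarith) hJ'.le
        linarith

end Pool.Agent.Moser.Eng
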