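import Pool.Agent.Lib_MP_cc07e8_co.EngOddXX
import Pool.Agent.Lib_MP_cc07e8_co.EngOddPot

/-!
# MP_cc07e8_co, engine piece ODDEXP: expected cost of a random split (both strips)

`∑ j, f (x / 2 * (1 - gr J j)) = ∑ j, f (x / 2 * gr J j)` by `gr_symm` (`Finset.sum_range_reflect`); then `odd_xx` and
`odd_pot`.
-/

namespace Pool.Agent.Moser.Eng

theorem sum_gr_symm (J : ℕ) (f : ℝ → ℝ) :
    ∑ j ∈ Finset.range J, f (1 - gr J j) = ∑ j ∈ Finset.range J, f (gr J j) := by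
  rw [← Finset.sum_range_reflect (fun j => f (gr J j)) J]
  refine Finset.sum_congr rfl fun j hj => ?_
  rw [gr_symm (Finset.mem_range.mp hj)]

open Classical in
theorem odd_exp {k J : ℕ} (hk : 12900 ≤ k) (hJ : 0 < J) {x l : ℝ} (hx : 0 < x) (hl : 0 ≤ l) :
    (∑ j ∈ Finset.range J, (xx k (x / 2 * gr J j, l) + xx k (x / 2 * (1 - gr J j), l) +
        pot k (x / 2 * gr J j) + pot k (x / 2 * (1 - gr J j)))) / (J : ℝ) ≤
      (if 16 / 7 ≤ x * (tau k : ℝ) ∧ x * (tau k : ℝ) ≤ 16.1 then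
        5.37 * l / (x * (tau k : ℝ)) else 0) + EE k x / 2 +
        (2 * l * (k : ℝ) + 12 * x) / (J : ℝ) := by
  have h1 := odd_xx hk hJ hx hl
  have h2 := odd_pot hk hJ hx
  have h3 := sum_gr_symm J (fun g => xx k (x / 2 * g, l))
  have h4 := sum_gr_symm J (fun g => pot k (x / 2 * g))
  have h5 : (∑ j ∈ Finset.range J, (xx k (x / 2 * gr J j, l) + xx k (x / 2 * (1 - gr J j), l) +
        pot k (x / 2 * gr J j) + pot k (x / 2 * (1 - gr J j)))) / (J : ℝ) =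
      2 * (∑ j ∈ Finset.range J, xx k (x / 2 * gr J j, l)) / (J : ℝ) +
      2 * (∑ j ∈ Finset.range J, pot k (x / 2 * gr J j)) / (J : ℝ) := by
    rw [Finset.sum_add_distrib, Finset.sum_add_distrib, Finset.sum_add_distrib, h3, h4]
    ring
  have h6 : (2 * l * (k : ℝ) + 12 * x) / (J : ℝ) = 2 * l * (k : ℝ) / (J : ℝ) + 12 * x / (J : ℝ) := by
    rw [add_div]
  rw [h5, h6]
  linarith

end Pool.Agent.Moser.Eng
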