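import Pool.Agent.Lib_MP_cc07e8_co.EngDefs

/-!
# MP_cc07e8_co, full problem: definitions of the engine, second part

Time runs through the epochs `[tau K, tau K')`, `K = 12 * κ`, `K' = 12 * κ'`, `κ' = 5 * κ / 4`.
* `sig`, blocks: block `b` = the squares `64 b, .., 64 b + 63`; window `i` = blocks
  `sig i ≤ b < sig (i + 1)`, range of a strip of window `i` = blocks `sig (i + 4) ≤ b < sig (i + 16)`.
* `ff`, `fw`: averages over a block of the load and of the width of the child.
* `pot k w`: potential (row `k`) of a strip of width `w` for the rest at its end.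
* `kc k x y`: expected cost (row `k`) of splitting an odd piece `x × y`, `x ≤ y`.
* `Pend`: a strip together with the blocks of its slots (a running strip).
* `St`: the state at the beginning of an epoch.
* `UU`: the bound for the rows.
-/

namespace Pool.Agent.Moser.Eng

/-- `tau i = 64 * sig i` by definition -/
def sig (i : ℕ) : ℕ := i ^ 3 / 1728000

/-- average over the block `b` of the load of row `k` by the child `(w - 1 / q, 1 / q)` -/
noncomputable def ff (k : ℕ) (w : ℝ) (b : ℕ) : ℝ :=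
  (∑ q ∈ Finset.Ico (64 * b) (64 * b + 64), xx k (w - 1 / (q : ℝ), 1 / (q : ℝ))) / 64

/-- average over the block `b` of the width of the child -/
noncomputable def fw (w : ℝ) (b : ℕ) : ℝ :=
  (∑ q ∈ Finset.Ico (64 * b) (64 * b + 64), (w - 1 / (q : ℝ))) / 64

open Classical in
/-- potential of a strip of width `w` (for the rest `w × r`, `r < w`, at its end) -/
noncomputable def pot (k : ℕ) (w : ℝ) : ℝ :=
  if 16 / 7 ≤ w * (tau k : ℝ) then 5.4 * w - 1.55 / (tau k : ℝ) else 0

/-- lower end for the widths that matter in row `k` -/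
noncomputable def loE (k : ℕ) (x : ℝ) : ℝ := max (x / 16) (16 / (7 * (tau k : ℝ)))

open Classical in
/-- expected potential of the 4 strips of one length segment of a piece of thickness `x` -/
noncomputable def EE (k : ℕ) (x : ℝ) : ℝ :=
  if loE k x ≤ 7 * x / 16 then
    32 / (3 * x) * (5.4 * ((7 * x / 16) ^ 2 - (loE k x) ^ 2) / 2 -
      1.55 / (tau k : ℝ) * (7 * x / 16 - loE k x))
  else 0

/-- number of length segments of an odd piece `x × y`, `x ≤ y` -/
noncomputable def cuts (x y : ℝ) : ℕ := ⌈y / (4 * x)⌉₊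

open Classical in
/-- expected cost of an odd piece `x × y`, `x ≤ y` -/
noncomputable def kc (k : ℕ) (x y : ℝ) : ℝ :=
  (if 16 / 7 ≤ x * (tau k : ℝ) ∧ x * (tau k : ℝ) ≤ 16.1 then 10.76 * y / (x * (tau k : ℝ)) else 0) +
    (cuts x y : ℝ) * EE k x

/-- expected cost of a rectangle -/
noncomputable def kr (k : ℕ) (r : ℝ × ℝ) : ℝ := kc k (min r.1 r.2) (max r.1 r.2)

open Classical in
/-- coefficient of the widths of the children born in the epoch from `tau K` on -/
noncomputable def bet (K k : ℕ) : ℝ := if (K : ℝ) ^ 4 ≤ 21.2 * (k : ℝ) ^ 3 then 5.4 else 0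

open Classical in
/-- rounding errors of an epoch in row `k` -/
noncomputable def Eerr (K K' k : ℕ) : ℝ :=
  if (K : ℝ) ^ 4 ≤ 48.2 * (k : ℝ) ^ 3 ∧ 8.95 * (k : ℝ) ^ 3 ≤ (K' : ℝ) ^ 4 then
    273600 * (k : ℝ) / (K : ℝ) ^ 3 else 0

/-- a running strip: width, length, window, blocks of its (remaining) slots -/
structure Pend where
  w : ℝ
  l : ℝ
  i : ℕ
  B : Multiset ℕ

/-- the rectangle of a running strip -/
def Pend.rect (p : Pend) : ℝ × ℝ := (p.w, p.l)

/-- a running strip in the epoch from `tau K` on; `K = 12 κ`, `K' = 12 κ'` -/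
structure Pend.Run (K K' : ℕ) (p : Pend) : Prop where
  win : InW p.i p.w
  lo : K ≤ p.i + 15
  hi : p.i < K'
  len : 0 ≤ p.l
  blk : ∀ b ∈ p.B, sig K ≤ b ∧ sig (p.i + 4) ≤ b ∧ b < sig (p.i + 16)
  slot : p.l * (tau (p.i + 16) : ℝ) < (p.B.card : ℝ) + 1

/-- number of slots in the block `b` -/
def slotsAt (P : Multiset Pend) (b : ℕ) : ℕ := (P.map fun p => p.B.count b).sum

/-- row value of a running strip: potential of the strip and expected load and width of the children -/
noncomputable def rowP (K k : ℕ) (p : Pend) : ℝ :=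
  pot k p.w + (p.B.map fun b => ff k p.w b + bet K k * fw p.w b).sum

open Classical in
/-- generation 0 strips of window `≥ K` -/
noncomputable def Grem (G : Multiset (ℝ × ℝ)) (K : ℕ) : Multiset (ℝ × ℝ) :=
  G.filter fun r => (tau K : ℝ) * r.1 ≤ 1

open Classical in
/-- generation 0 strips of window `< K` -/
noncomputable def Gpast (G : Multiset (ℝ × ℝ)) (K : ℕ) : Multiset (ℝ × ℝ) :=
  G.filter fun r => ¬ (tau K : ℝ) * r.1 ≤ 1

open Classical in
/-- strips of window in `[K, K')` -/
noncomputable def act (G : Multiset (ℝ × ℝ)) (K K' : ℕ) : Multiset (ℝ × ℝ) :=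
  G.filter fun r => (tau K : ℝ) * r.1 ≤ 1 ∧ ¬ (tau K' : ℝ) * r.1 ≤ 1

/-- The state at the beginning of the epoch from `tau K` on. The rectangle `a × b` is decomposed into
the squares `2 .. tau K - 1`, the main rectangle, the generation 0 strips of window `≥ K`, other waiting
strips `B` and pending strips `P`; `po k` is the load of row `k` by strips of window `< K` that are not
of generation 0; `V k` bounds row `k`. -/
structure St (a b : ℝ) (G : Multiset (ℝ × ℝ)) (K : ℕ) (V : ℕ → ℝ) (X Y : ℝ)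
    (B : Multiset (ℝ × ℝ)) (P : Multiset Pend) (po : ℕ → ℝ) : Prop where
  dec : Dec a b (Finset.Ico 2 (tau K)).val ((X, Y) ::ₘ (Grem G K + B + P.map Pend.rect))
  hY : 0 < Y
  hXY : Y ≤ X
  hX : X ≤ 2 * Y
  strip : ∀ r ∈ B, 0 < r.1 ∧ (tau K : ℝ) * r.1 ≤ 1 ∧ 0 ≤ r.2
  pend : ∀ p ∈ P, p.Run K K
  po0 : ∀ k, 0 ≤ po k
  cap : ∀ k b : ℕ, K ≤ k → sig k ≤ b → b < sig (k + 1) →
    (slotsAt P b : ℝ) ≤ 64 * (XX k (Gpast G K) + po k) + 2
  row : ∀ k : ℕ, K ≤ k → po k + (B.map fun r => xx k r + pot k r.1).sum + (P.map (rowP K k)).sum +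
    ((Grem G K).map fun r => pot k r.1).sum ≤ V k

/-- epochs -/
def kap : ℕ → ℕ
  | 0 => 860
  | e + 1 => 5 * kap e / 4

/-- bound for the total load of row `k` -/
noncomputable def lamR (k : ℕ) : ℝ :=
  if k < 61730 then 0.54 else if k < 80000 then 0.76 else if k < 670000 then 0.85 else 0.88

/-- bound for the load of row `k` by the children of a strip of unit load of a window in
`[12 j, 12 j + 12)` -/
noncomputable def Ph (j k : ℕ) : ℝ :=
  (Finset.Ico (12 * j) (12 * j + 12)).sup' ⟨12 * j, by simp⟩ (phi k)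

/-- drift of an epoch into row `k` -/
noncomputable def drift (G : Multiset (ℝ × ℝ)) (κ κ' k : ℕ) : ℝ :=
  if k < 670000 then
    YY k (act G (12 * κ) (12 * κ')) + 0.12 * ∑ j ∈ Finset.Ico κ κ', Ph j k
  else ∑ j ∈ Finset.Ico κ κ', lamR (12 * j + 15) * Ph j k

/-- sum of the widths of the children of an epoch -/
noncomputable def births (κ κ' : ℕ) : ℝ :=
  ∑ j ∈ Finset.Ico κ κ', 6.66 / (j : ℝ) ^ 2 + 4e9 / (12 * (κ : ℝ)) ^ 4

/-- cost of the main rectangle in an epoch (without the part which telescopes) -/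
noncomputable def shelf (κ κ' k : ℕ) : ℝ :=
  (if 1000 * tau (12 * κ') ≤ tau k then 625 else 905) *
      ∑ i ∈ Finset.Ico (12 * κ) (12 * κ'), 1 / (i : ℝ) ^ 2 +
    16 / √((tau (12 * κ) : ℝ) - 1)

/-- increment of the bound of row `k` in an epoch -/
noncomputable def inc (G : Multiset (ℝ × ℝ)) (κ κ' k : ℕ) : ℝ :=
  bet (12 * κ) k * births κ κ' + shelf κ κ' k + Eerr (12 * κ) (12 * κ') k +
    2.15e6 / (k : ℝ) ^ 2 + drift G κ κ' k

/-- bound for row `k` at the beginning of epoch `e` -/
noncomputable def UU (G : Multiset (ℝ × ℝ)) : ℕ → ℕ → ℝ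
  | 0, _ => 0.02052
  | e + 1, k => UU G e k + inc G (kap e) (kap (e + 1)) k

end Pool.Agent.Moser.Eng
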