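import Pool.Agent.Lib_MP_cc07e8_co.TailDefs

/-!
# MP_cc07e8_co, tail theorem: rows and segments
-/

namespace Pool.Agent.Moser

/-- a degenerate rectangle can be dropped -/
theorem Rows.dec_zero {h : ℝ} (hh : 0 ≤ h) : Dec 0 h 0 0 := by
  have key := Dec.pack (w := 0) (h := h) (n := 0) (fun _ => 0) (fun _ => 0) (fun _ => 0)
    (fun _ => 0) (fun _ => 0) (fun _ => 0) le_rfl hh (fun i => i.elim0) (fun i => i.elim0)
    (by simp) (fun i => i.elim0)
  simpa using key

theorem Rows.drop {h : ℝ} (hh : 0 ≤ h) : Ref {(0, h)} 0 0 := Ref.of_dec (Rows.dec_zero hh)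

theorem Rows.drop' {h : ℝ} (hh : 0 ≤ h) : Ref {(h, 0)} 0 0 := Ref.of_dec (Rows.dec_zero hh).turn

/-- cut a row into segments -/
theorem cut_row {N h : ℝ} (hN : 0 < N) (hh : 0 ≤ h) (ks : Multiset ℕ) :
    Ref {(((ks.sum : ℕ) : ℝ) / N, h)} 0 (ks.map fun k : ℕ => ((k : ℝ) / N, h)) := by
  induction ks using Multiset.induction_on with
  | empty =>
    simpa using Rows.drop hh
  | cons k s ih =>
    have h1 : Ref {(((k : ℝ) / N + ((s.sum : ℕ) : ℝ) / N), h)} 0
        {((k : ℝ) / N, h), (((s.sum : ℕ) : ℝ) / N, h)} :=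
      Ref.cut' (by positivity) (by positivity) hh
    have h2 : Ref ({((k : ℝ) / N, h)} + {(((s.sum : ℕ) : ℝ) / N, h)}) (0 + 0)
        ({((k : ℝ) / N, h)} + (s.map fun k : ℕ => ((k : ℝ) / N, h))) :=
      (Ref.refl _).add ih
    have h3 : ({((k : ℝ) / N, h), (((s.sum : ℕ) : ℝ) / N, h)} : Multiset (ℝ × ℝ)) =
        {((k : ℝ) / N, h)} + {(((s.sum : ℕ) : ℝ) / N, h)} := rfl
    rw [h3] at h1
    have h4 := h1.trans h2
    have e : (((k ::ₘ s).sum : ℕ) : ℝ) / N = (k : ℝ) / N + ((s.sum : ℕ) : ℝ) / N := by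
      rw [Multiset.sum_cons]
      push_cast
      ring
    rw [e, Multiset.map_cons, ← Multiset.singleton_add]
    simpa using h4

/-- cut a rectangle into `M` rows -/
theorem cut_rows {a h : ℝ} (ha : 0 ≤ a) (hh : 0 ≤ h) (M : ℕ) :
    Ref {(a, (M : ℝ) * h)} 0 (Multiset.replicate M (a, h)) := by
  induction M with
  | zero => simpa using Rows.drop' ha
  | succ M ih =>
    have h1 : Ref {(a, h + (M : ℝ) * h)} 0 {(a, h), (a, (M : ℝ) * h)} :=
      Ref.cut ha hh (by positivity)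
    have h2 : Ref ({(a, h)} + {(a, (M : ℝ) * h)}) (0 + 0)
        ({(a, h)} + Multiset.replicate M (a, h)) := (Ref.refl _).add ih
    have h3 : ({(a, h), (a, (M : ℝ) * h)} : Multiset (ℝ × ℝ)) =
        {(a, h)} + {(a, (M : ℝ) * h)} := rfl
    rw [h3] at h1
    have h4 := h1.trans h2
    have e : ((M + 1 : ℕ) : ℝ) * h = h + (M : ℝ) * h := by
      push_cast
      ring
    rw [e, Multiset.replicate_succ, ← Multiset.singleton_add]
    simpa using h4

/-- numbers of squares in the segments of a row of length `K` -/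
theorem exists_segs (K Kmax : ℕ) (hK : 1 ≤ Kmax) : ∃ ks : Multiset ℕ, ks.sum = K ∧
    (∀ k ∈ ks, 1 ≤ k ∧ k ≤ Kmax) ∧ (ks.card : ℝ) ≤ (K : ℝ) / Kmax + 1 := by
  have hKr : (0 : ℝ) < Kmax := by exact_mod_cast hK
  have hq : ((K / Kmax : ℕ) : ℝ) ≤ (K : ℝ) / Kmax := Nat.cast_div_le
  have hdm := Nat.div_add_mod K Kmax
  by_cases hr : K % Kmax = 0
  · refine ⟨Multiset.replicate (K / Kmax) Kmax, ?_, ?_, ?_⟩
    · rw [Multiset.sum_replicate, smul_eq_mul, mul_comm]
      omega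
    · intro k hk
      rw [Multiset.eq_of_mem_replicate hk]
      exact ⟨hK, le_rfl⟩
    · rw [Multiset.card_replicate]
      linarith
  · refine ⟨K % Kmax ::ₘ Multiset.replicate (K / Kmax) Kmax, ?_, ?_, ?_⟩
    · rw [Multiset.sum_cons, Multiset.sum_replicate, smul_eq_mul, mul_comm]
      omega
    · intro k hk
      rw [Multiset.mem_cons] at hk
      rcases hk with hk | hk
      · rw [hk]
        exact ⟨Nat.one_le_iff_ne_zero.2 hr, (Nat.mod_lt _ hK).le⟩
      · rw [Multiset.eq_of_mem_replicate hk]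
        exact ⟨hK, le_rfl⟩
    · rw [Multiset.card_cons, Multiset.card_replicate]
      push_cast
      linarith

/-- `M` rows of `K` slots: an array -/
theorem cut_array {N : ℝ} (hN : 0 < N) (M K Kmax : ℕ) (hK : 1 ≤ Kmax) :
    ∃ ks : Multiset ℕ, ks.sum = M * K ∧ (∀ k ∈ ks, 1 ≤ k ∧ k ≤ Kmax) ∧
      (ks.card : ℝ) ≤ M * ((K : ℝ) / Kmax + 1) ∧
      Ref {((K : ℝ) / N, (M : ℝ) / N)} 0 (ks.map fun k : ℕ => ((k : ℝ) / N, 1 / N)) := by
  obtain ⟨ks, h1, h2, h3⟩ := exists_segs K Kmax hK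
  refine ⟨M • ks, ?_, ?_, ?_, ?_⟩
  · rw [Multiset.sum_nsmul, h1, smul_eq_mul]
  · intro k hk
    exact h2 k (Multiset.mem_of_mem_nsmul hk)
  · rw [Multiset.card_nsmul]
    push_cast
    exact mul_le_mul_of_nonneg_left h3 (by positivity)
  · have hN' : (0 : ℝ) ≤ 1 / N := by positivity
    have h4 : Ref {((K : ℝ) / N, (M : ℝ) * (1 / N))} 0
        (Multiset.replicate M ((K : ℝ) / N, 1 / N)) := cut_rows (by positivity) hN' M
    have h5 : Ref {((K : ℝ) / N, 1 / N)} 0 (ks.map fun k : ℕ => ((k : ℝ) / N, 1 / N)) := by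
      have := cut_row (N := N) (h := 1 / N) hN hN' ks
      rw [h1] at this
      exact this
    have h6 : Ref (∑ _i ∈ Finset.range M, {((K : ℝ) / N, 1 / N)}) (∑ _i ∈ Finset.range M, 0)
        (∑ _i ∈ Finset.range M, (ks.map fun k : ℕ => ((k : ℝ) / N, 1 / N))) :=
      Ref.sum (Finset.range M) (fun _ => {((K : ℝ) / N, 1 / N)})
        (fun _ => (ks.map fun k : ℕ => ((k : ℝ) / N, 1 / N))) (fun _ => 0) fun i _ => h5
    rw [Finset.sum_const, Finset.sum_const_zero, Finset.sum_const, Finset.card_range,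
      Multiset.nsmul_singleton, ← Multiset.map_nsmul] at h6
    have h7 := h4.trans h6
    rw [mul_one_div] at h7
    simpa using h7

end Pool.Agent.Moser
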