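import Pool.Agent.Lib_MP_cc07e8_co.EngGr
import Pool.Agent.Lib_MP_cc07e8_co.EngState
import Pool.Agent.Lib_MP_cc07e8_co.Rows

/-!
# MP_cc07e8_co, engine piece ODDGEO: cutting one odd piece into strips

`x = min`, `y = max`, `M = cuts x y ≥ 1`, `l = y / M`. `Ref.turn` to `(x, y)`; `x × y` = `2 M` pieces `x / 2 × l` (`cut_rows` in
`Rows.lean`, `Ref.cut`, `Ref.cut'`), each one cut at `x / 2 * gr J j` (`Ref.cut'` with widths `x / 2 * gr`, `x / 2 * (1 - gr)`, both
`≥ 0` by `gr_bounds`).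
-/

namespace Pool.Agent.Moser.Eng

theorem cuts_pos {x y : ℝ} (hx : 0 < x) (hxy : x ≤ y) : 0 < cuts x y := by
  unfold cuts
  exact Nat.ceil_pos.2 (by
    have : 0 < y := hx.trans_le hxy
    positivity)

theorem len_le {x y : ℝ} (hx : 0 < x) (hxy : x ≤ y) : y / (cuts x y : ℝ) ≤ 4 * x := by
  have hc : (0 : ℝ) < (cuts x y : ℝ) := by exact_mod_cast cuts_pos hx hxy
  rw [div_le_iff₀ hc]
  have h1 : y / (4 * x) ≤ (cuts x y : ℝ) := Nat.le_ceil _
  rw [div_le_iff₀ (by positivity)] at h1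
  linarith

theorem odd_geo {r : ℝ × ℝ} (h1 : 0 < r.1) (h2 : 0 < r.2) {J : ℕ}
    (f : Fin (2 * cuts (min r.1 r.2) (max r.1 r.2)) → ℕ) (hf : ∀ c, f c < J) :
    Ref {r} 0 (∑ c, (({(min r.1 r.2 / 2 * gr J (f c),
        max r.1 r.2 / (cuts (min r.1 r.2) (max r.1 r.2) : ℝ))} : Multiset (ℝ × ℝ)) +
      {(min r.1 r.2 / 2 * (1 - gr J (f c)),
        max r.1 r.2 / (cuts (min r.1 r.2) (max r.1 r.2) : ℝ))})) := by
  have hx : 0 < min r.1 r.2 := lt_min h1 h2
  have hxy : min r.1 r.2 ≤ max r.1 r.2 := min_le_max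
  have hturn : Ref {r} 0 {(min r.1 r.2, max r.1 r.2)} := by
    rcases le_total r.1 r.2 with h | h
    · rw [min_eq_left h, max_eq_right h]
      exact Ref.refl _
    · rw [min_eq_right h, max_eq_left h]
      exact Ref.turn h1.le h2.le
  generalize hX : min r.1 r.2 = x at *
  generalize hY : max r.1 r.2 = y at *
  have hM := cuts_pos hx hxy
  generalize cuts x y = M at *
  have hMr : (0 : ℝ) < (M : ℝ) := by exact_mod_cast hM
  have hy : 0 < y := hx.trans_le hxy
  have hl : 0 ≤ y / (M : ℝ) := by positivity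
  have hx2 : 0 ≤ x / 2 := by positivity
  -- two halves
  have c1 : Ref {(x, y)} 0 {(x / 2, y), (x / 2, y)} := by
    have := Ref.cut' (a := x / 2) (b := x / 2) (c := y) hx2 hx2 hy.le
    rwa [add_halves] at this
  have c2 : Ref {(x / 2, y)} 0 (Multiset.replicate M (x / 2, y / (M : ℝ))) := by
    have := cut_rows hx2 hl M
    rwa [mul_div_cancel₀ _ hMr.ne'] at this
  have c3 : Ref {(x, y)} 0 (Multiset.replicate (2 * M) (x / 2, y / (M : ℝ))) := by
    have h3 : ({(x / 2, y), (x / 2, y)} : Multiset (ℝ × ℝ)) = {(x / 2, y)} + {(x / 2, y)} := rfl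
    rw [h3] at c1
    have h4 := c1.trans (c2.add c2)
    rw [← Multiset.replicate_add] at h4
    simpa [two_mul] using h4
  have c4 : ∀ c : Fin (2 * M), Ref {(x / 2, y / (M : ℝ))} 0
      (({(x / 2 * gr J (f c), y / (M : ℝ))} : Multiset (ℝ × ℝ)) +
        {(x / 2 * (1 - gr J (f c)), y / (M : ℝ))}) := by
    intro c
    have hg := gr_bounds (hf c)
    have := Ref.cut' (a := x / 2 * gr J (f c)) (b := x / 2 * (1 - gr J (f c)))
      (c := y / (M : ℝ)) (mul_nonneg hx2 (by linarith)) (mul_nonneg hx2 (by linarith)) hl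
    have e : x / 2 * gr J (f c) + x / 2 * (1 - gr J (f c)) = x / 2 := by ring
    rw [e] at this
    exact this
  have c5 := Ref.sum (Finset.univ : Finset (Fin (2 * M))) (fun _ => {(x / 2, y / (M : ℝ))})
    (fun c => (({(x / 2 * gr J (f c), y / (M : ℝ))} : Multiset (ℝ × ℝ)) +
        {(x / 2 * (1 - gr J (f c)), y / (M : ℝ))})) (fun _ => 0) fun c _ => c4 c
  rw [Finset.sum_const, Finset.sum_const_zero, Finset.card_univ, Fintype.card_fin,
    Multiset.nsmul_singleton] at c5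
  have := (hturn.trans c3).trans c5
  simpa using this

end Pool.Agent.Moser.Eng
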