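import Pool.Agent.Lib_MP_cc07e8_co.EngMaster
import Pool.Agent.Lib_MP_cc07e8_co.EngOddExp
import Pool.Agent.Lib_MP_cc07e8_co.EngOddCol
import Pool.Agent.Lib_MP_cc07e8_co.EngEE
import Pool.Agent.Lib_MP_cc07e8_co.EngOddGeo

/-!
# MP_cc07e8_co, engine piece ODDROUND: splitting all odd pieces of an epoch

Drop the pieces with a side `0` (`Rows.drop`, `Rows.drop'`). For the others: `x = min`, `y = max`,
`M = cuts x y ≥ 1`, `l = y / M ≤ 4 x` (`cuts_pos`, `len_le`). `odd_geo` cuts `x × y` into `2 M` pieces `x / 2 × l` and splits them.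
Item = such a piece (finite type: pieces of `O` indexed by `Fin n`, times `Fin (2 M)`); options `j < J` (`J` large,
below): strips `(x / 2 * gr J j, l)`, `(x / 2 * (1 - gr J j), l)` (`Ref.cut`).
Rows `R` = the `k` with `K' ≤ k ≤ kmax`, `kmax` such that `256 / 7 ≤ x * tau k` for all `k > kmax` and all pieces.
`master` with `a k (item) j = xx + xx + pot + pot - cen k x`, `lam = k ^ 2 / 2e6`, `th = 2e6 / k ^ 2`; `hcol` = `odd_col`
(`J` options, `gr_bounds`). Then for `k ∈ R`: `∑ S (xx k + pot k) ≤ ∑ items (average) + 2e6 / k ^ 2`, and by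
`odd_exp` the average over the items of a piece is at most `2 M (5.37 l / (x t) + EE / 2 + (2 l k + 12 x) / J) ≤
kc k x y + 2 M (2 l k + 12 x) / J` (`2 M l = 2 y`, `10.74 ≤ 10.76`). Choose `J` with `∑ 2 M (2 l kmax + 12 x) kmax ^ 2 ≤
1.5e5 J`. For `k > kmax`: `odd_far` and `EE_far`: `∑ S = ∑ 2 M (2.7 x - 3.1 / t) = ∑ M EE ≤ ∑ kc`.
Widths: `w ≤ 7 x / 16`, `tau K * x ≤ 1`, `tau K' ≤ 1.9532 tau K`, so `tau K' * w ≤ 0.855`.
-/

namespace Pool.Agent.Moser.Eng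

theorem sum_map_fsum {ι α : Type} (s : Finset ι) (f : ι → Multiset α) (F : α → ℝ) :
    ((∑ i ∈ s, f i).map F).sum = ∑ i ∈ s, ((f i).map F).sum := by
  classical
  induction s using Finset.induction_on with
  | empty => simp
  | insert a s ha ih =>
    rw [Finset.sum_insert ha, Finset.sum_insert ha, Multiset.map_add, Multiset.sum_add, ih]

theorem ref_drop (O : Multiset (ℝ × ℝ))
    (h : ∀ r ∈ O, (r.1 = 0 ∧ 0 ≤ r.2) ∨ (0 ≤ r.1 ∧ r.2 = 0)) : Ref O 0 0 := by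
  induction O using Multiset.induction_on with
  | empty => exact Ref.refl 0
  | cons r s ih =>
    have h1 : Ref {r} 0 0 := by
      obtain ⟨a, b⟩ := r
      rcases h (a, b) (Multiset.mem_cons_self _ _) with ⟨h2, h3⟩ | ⟨h2, h3⟩
      · simp only at h2 h3
        subst h2
        exact Rows.drop h3
      · simp only at h2 h3
        subst h3
        exact Rows.drop' h2
    have h4 := h1.add (ih fun r hr => h r (Multiset.mem_cons_of_mem hr))
    rw [Multiset.singleton_add] at h4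
    simpa using h4

theorem list_singletons {α : Type} (L : List α) :
    (L.map (fun r => ({r} : Multiset α))).sum = (L : Multiset α) := by
  induction L with
  | nil => rfl
  | cons r L ih =>
    rw [List.map_cons, List.sum_cons, ih, Multiset.singleton_add, Multiset.cons_coe]

/-- value of both strips of a split -/
noncomputable def vv (k : ℕ) (x l g : ℝ) : ℝ :=
  xx k (x / 2 * g, l) + xx k (x / 2 * (1 - g), l) + pot k (x / 2 * g) + pot k (x / 2 * (1 - g))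

/-- number of items of a piece -/
noncomputable def mm (r : ℝ × ℝ) : ℕ := cuts (min r.1 r.2) (max r.1 r.2)

/-- length of the items of a piece -/
noncomputable def ll (r : ℝ × ℝ) : ℝ := max r.1 r.2 / (mm r : ℝ)

theorem mm_pos {r : ℝ × ℝ} (h1 : 0 < r.1) (h2 : 0 < r.2) : 0 < mm r :=
  cuts_pos (lt_min h1 h2) min_le_max

theorem mm_ll {r : ℝ × ℝ} (h1 : 0 < r.1) (h2 : 0 < r.2) : (mm r : ℝ) * ll r = max r.1 r.2 := by
  have : (0 : ℝ) < mm r := by exact_mod_cast mm_pos h1 h2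
  unfold ll
  field_simp

theorem ll_nonneg {r : ℝ × ℝ} (h1 : 0 < r.1) : 0 ≤ ll r := by
  unfold ll
  apply div_nonneg _ (Nat.cast_nonneg _)
  exact (h1.le).trans (le_max_left _ _)

theorem ll_le {r : ℝ × ℝ} (h1 : 0 < r.1) (h2 : 0 < r.2) : ll r ≤ 4 * min r.1 r.2 :=
  len_le (lt_min h1 h2) min_le_max

open Classical in
theorem piece_avg {k J : ℕ} (hk : 12900 ≤ k) (hJ : 0 < J) {r : ℝ × ℝ} (h1 : 0 < r.1)
    (h2 : 0 < r.2) :
    2 * (mm r : ℝ) * ((∑ j ∈ Finset.range J, vv k (min r.1 r.2) (ll r) (gr J j)) / (J : ℝ)) ≤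
      kr k r + 2 * (mm r : ℝ) * (2 * ll r * (k : ℝ) + 12 * min r.1 r.2) / (J : ℝ) := by
  have hx : 0 < min r.1 r.2 := lt_min h1 h2
  have h3 := odd_exp (k := k) hk hJ hx (ll_nonneg (r := r) h1)
  have hm : (0 : ℝ) ≤ 2 * (mm r : ℝ) := by positivity
  have h4 := mul_le_mul_of_nonneg_left h3 hm
  have ht : (0 : ℝ) < tau k := by
    have := tau_pos (i := k) (by omega)
    linarith
  unfold vv
  refine h4.trans ?_
  unfold kr kc
  have e1 : (cuts (min r.1 r.2) (max r.1 r.2) : ℝ) = (mm r : ℝ) := rfl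
  rw [e1, mul_add, mul_add]
  have e2 : 2 * (mm r : ℝ) * (EE k (min r.1 r.2) / 2) = (mm r : ℝ) * EE k (min r.1 r.2) := by ring
  rw [e2]
  have e3 : 2 * (mm r : ℝ) * ((2 * ll r * (k : ℝ) + 12 * min r.1 r.2) / (J : ℝ)) =
      2 * (mm r : ℝ) * (2 * ll r * (k : ℝ) + 12 * min r.1 r.2) / (J : ℝ) := by ring
  rw [e3]
  have e4 : 2 * (mm r : ℝ) * (if 16 / 7 ≤ min r.1 r.2 * (tau k : ℝ) ∧
      min r.1 r.2 * (tau k : ℝ) ≤ 16.1 then 5.37 * ll r / (min r.1 r.2 * (tau k : ℝ)) else 0) ≤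
      (if 16 / 7 ≤ min r.1 r.2 * (tau k : ℝ) ∧ min r.1 r.2 * (tau k : ℝ) ≤ 16.1 then
        10.76 * max r.1 r.2 / (min r.1 r.2 * (tau k : ℝ)) else 0) := by
    split_ifs
    · have e5 : 2 * (mm r : ℝ) * (5.37 * ll r / (min r.1 r.2 * (tau k : ℝ))) =
          10.74 * ((mm r : ℝ) * ll r) / (min r.1 r.2 * (tau k : ℝ)) := by ring
      rw [e5, mm_ll h1 h2]
      have hy : 0 ≤ max r.1 r.2 := (h1.le).trans (le_max_left _ _)
      gcongr
      norm_num
    · simp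
  linarith

theorem piece_far {k : ℕ} (hk : 12900 ≤ k) {r : ℝ × ℝ} (h1 : 0 < r.1) (h2 : 0 < r.2)
    (h : 256 / 7 ≤ min r.1 r.2 * (tau k : ℝ)) :
    2 * (mm r : ℝ) * (2.7 * min r.1 r.2 - 3.1 / (tau k : ℝ)) ≤ kr k r := by
  have hx : 0 < min r.1 r.2 := lt_min h1 h2
  have ht : (0 : ℝ) < tau k := by
    have := tau_pos (i := k) (by omega)
    linarith
  unfold kr kc
  have e1 : (cuts (min r.1 r.2) (max r.1 r.2) : ℝ) = (mm r : ℝ) := rfl
  rw [e1, EE_far (by omega) hx h]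
  have e2 : 2 * (mm r : ℝ) * (2.7 * min r.1 r.2 - 3.1 / (tau k : ℝ)) =
      (mm r : ℝ) * (5.4 * min r.1 r.2 - 6.2 / (tau k : ℝ)) := by ring
  rw [e2]
  have hy : 0 ≤ max r.1 r.2 := (h1.le).trans (le_max_left _ _)
  have e3 : 0 ≤ (if 16 / 7 ≤ min r.1 r.2 * (tau k : ℝ) ∧ min r.1 r.2 * (tau k : ℝ) ≤ 16.1 then
        10.76 * max r.1 r.2 / (min r.1 r.2 * (tau k : ℝ)) else 0) := by
    split_ifs
    · positivity
    · exact le_rfl
  linarith

/-- a row after which all pieces are far -/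
theorem exists_far (n : ℕ) (x : Fin n → ℝ) (hx : ∀ a, 0 < x a) :
    ∃ kmax : ℕ, ∀ k : ℕ, kmax < k → ∀ a, 256 / 7 ≤ x a * (tau k : ℝ) := by
  have h1 : ∀ a, ∃ N : ℕ, ∀ k : ℕ, N < k → 256 / 7 ≤ x a * (tau k : ℝ) := by
    intro a
    obtain ⟨N, hN⟩ := exists_nat_gt (256 / 7 / x a)
    refine ⟨N + 10300, fun k hk => ?_⟩
    have h2 := lt_tau k
    have h3 : (10300 : ℝ) ≤ k := by exact_mod_cast (by omega : 10300 ≤ k)
    have h4 : ((N : ℝ) + 10300) ≤ k := by exact_mod_cast hk.le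
    have h5 : (N : ℝ) ≤ (tau k : ℝ) := by nlinarith [mul_self_nonneg ((k : ℝ) - 10300)]
    have h6 : 256 / 7 / x a ≤ (tau k : ℝ) := by linarith
    rw [div_le_iff₀ (hx a)] at h6
    linarith
  choose N hN using h1
  refine ⟨∑ a, N a, fun k hk a => hN a k (lt_of_le_of_lt ?_ hk)⟩
  exact Finset.single_le_sum (f := N) (fun _ _ => Nat.zero_le _) (Finset.mem_univ a)

theorem gr_bounds' {J j : ℕ} (h : j < J) {x : ℝ} (hx : 0 < x) :
    x / 16 ≤ x / 2 * gr J j ∧ x / 16 ≤ x / 2 * (1 - gr J j) ∧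
      x / 2 * gr J j + x / 2 * (1 - gr J j) = x / 2 := by
  obtain ⟨h1, h2⟩ := gr_bounds h
  refine ⟨?_, ?_, by ring⟩
  · have := mul_le_mul_of_nonneg_left h1 (by linarith : 0 ≤ x / 2)
    linarith
  · have := mul_le_mul_of_nonneg_left (by linarith : 1 / 8 ≤ 1 - gr J j) (by linarith : 0 ≤ x / 2)
    linarith

/-- the rounding, for a finite family of pieces -/
theorem round_core {K' : ℕ} (hK' : 12900 ≤ K') (n : ℕ) (g : Fin n → ℝ × ℝ)
    (hg1 : ∀ a, 0 < (g a).1) (hg2 : ∀ a, 0 < (g a).2) :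
    ∃ (J : ℕ) (f : (a : Fin n) → Fin (2 * mm (g a)) → ℕ), (∀ a c, f a c < J) ∧
      ∀ k : ℕ, K' ≤ k →
        ∑ a, ∑ c, vv k (min (g a).1 (g a).2) (ll (g a)) (gr J (f a c)) ≤
          ∑ a, kr k (g a) + 2.15e6 / (k : ℝ) ^ 2 := by
  classical
  obtain ⟨kmax, hkmax⟩ := exists_far n (fun a => min (g a).1 (g a).2)
    (fun a => lt_min (hg1 a) (hg2 a))
  -- choice of J
  set Q : ℝ := ∑ a, 2 * (mm (g a) : ℝ) * (2 * ll (g a) * (kmax : ℝ) + 12 * min (g a).1 (g a).2)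
    with hQ
  have hQterm : ∀ a, 0 ≤ 2 * (mm (g a) : ℝ) *
      (2 * ll (g a) * (kmax : ℝ) + 12 * min (g a).1 (g a).2) := by
    intro a
    have := ll_nonneg (r := g a) (hg1 a)
    have := lt_min (hg1 a) (hg2 a)
    positivity
  obtain ⟨J0, hJ0⟩ := exists_nat_gt (Q * (kmax : ℝ) ^ 2 / 1.5e5)
  set J := J0 + 1 with hJd
  have hJ : 0 < J := by omega
  have hJr : (0 : ℝ) < J := by exact_mod_cast hJ
  have hJQ : Q * (kmax : ℝ) ^ 2 ≤ 1.5e5 * (J : ℝ) := by
    rw [div_lt_iff₀ (by norm_num)] at hJ0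
    have : (J : ℝ) = J0 + 1 := by rw [hJd]; push_cast; ring
    rw [this]
    linarith
  -- master
  let ι := Σ a : Fin n, Fin (2 * mm (g a))
  have key := master (ι := ι) (R := ↥(Finset.Icc K' kmax)) (O := ℕ)
    (fun _ => Finset.range J) (fun _ => ⟨0, Finset.mem_range.2 hJ⟩)
    (fun k i j => vv (k : ℕ) (min (g i.1).1 (g i.1).2) (ll (g i.1)) (gr J j) -
      cen (k : ℕ) (min (g i.1).1 (g i.1).2))
    (fun k => ((k : ℕ) : ℝ) ^ 2 / 2e6) (fun k => 2e6 / ((k : ℕ) : ℝ) ^ 2)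
    (fun k => by positivity)
    (by
      intro k Φ _ h
      have hk : K' ≤ (k : ℕ) := (Finset.mem_Icc.1 k.2).1
      have hk0 : (0 : ℝ) < ((k : ℕ) : ℝ) := by exact_mod_cast (by omega : 0 < (k : ℕ))
      have h1 : ((k : ℕ) : ℝ) ^ 2 / 2e6 * (2e6 / ((k : ℕ) : ℝ) ^ 2) = 1 := by
        field_simp
      rw [← h1]
      exact mul_le_mul_of_nonneg_left h.le (by positivity))
    (by
      intro i j hj
      have hj' := Finset.mem_range.1 hj
      have hx := lt_min (hg1 i.1) (hg2 i.1)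
      obtain ⟨b1, b2, b3⟩ := gr_bounds' hj' hx
      have h3 := odd_col (Finset.Icc K' kmax)
        (fun k hk => hK'.trans (Finset.mem_Icc.1 hk).1) hx (ll_nonneg (r := g i.1) (hg1 i.1))
        (ll_le (hg1 i.1) (hg2 i.1)) b3 b1 b2
      refine lt_of_eq_of_lt ?_ h3
      exact Finset.sum_coe_sort (Finset.Icc K' kmax) (fun k : ℕ => (k : ℝ) ^ 2 / 2e6 *
        |vv k (min (g i.1).1 (g i.1).2) (ll (g i.1)) (gr J j) -
          cen k (min (g i.1).1 (g i.1).2)|))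
  obtain ⟨f, hf1, hf2⟩ := key
  refine ⟨J, fun a c => f ⟨a, c⟩, fun a c => Finset.mem_range.1 (hf1 ⟨a, c⟩), ?_⟩
  intro k hk
  have hk9 : 12900 ≤ k := hK'.trans hk
  have hkr : (0 : ℝ) < k := by exact_mod_cast (by omega : 0 < k)
  by_cases hkm : k ≤ kmax
  · -- rows of the rounding
    have h1 := hf2 ⟨k, Finset.mem_Icc.2 ⟨hk, hkm⟩⟩
    simp only [Finset.card_range] at h1
    have h2 := (abs_le.1 h1).2
    have h3 : ∀ i : ι, (∑ j ∈ Finset.range J,
        (vv k (min (g i.1).1 (g i.1).2) (ll (g i.1)) (gr J j) -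
          cen k (min (g i.1).1 (g i.1).2))) / (J : ℝ) =
        (∑ j ∈ Finset.range J, vv k (min (g i.1).1 (g i.1).2) (ll (g i.1)) (gr J j)) / (J : ℝ) -
          cen k (min (g i.1).1 (g i.1).2) := by
      intro i
      rw [Finset.sum_sub_distrib, Finset.sum_const, Finset.card_range, nsmul_eq_mul]
      field_simp
    rw [Finset.sum_congr rfl fun i _ => h3 i, Finset.sum_sub_distrib, Finset.sum_sub_distrib] at h2
    have h4 : ∑ i : ι, vv k (min (g i.1).1 (g i.1).2) (ll (g i.1)) (gr J (f i)) ≤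
        ∑ i : ι, (∑ j ∈ Finset.range J,
          vv k (min (g i.1).1 (g i.1).2) (ll (g i.1)) (gr J j)) / (J : ℝ) + 2e6 / (k : ℝ) ^ 2 := by
      linarith
    rw [Fintype.sum_sigma, Fintype.sum_sigma] at h4
    refine h4.trans ?_
    have h5 : ∑ a : Fin n, ∑ _c : Fin (2 * mm (g a)), (∑ j ∈ Finset.range J,
          vv k (min (g a).1 (g a).2) (ll (g a)) (gr J j)) / (J : ℝ) ≤
        ∑ a, (kr k (g a) + 2 * (mm (g a) : ℝ) *
          (2 * ll (g a) * (kmax : ℝ) + 12 * min (g a).1 (g a).2) / (J : ℝ)) := by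
      apply Finset.sum_le_sum
      intro a _
      rw [Finset.sum_const, Finset.card_univ, Fintype.card_fin, nsmul_eq_mul]
      have h6 := piece_avg hk9 hJ (hg1 a) (hg2 a)
      push_cast
      refine h6.trans ?_
      have h7 := ll_nonneg (r := g a) (hg1 a)
      gcongr
    refine (add_le_add_left h5 _).trans ?_
    rw [Finset.sum_add_distrib, ← Finset.sum_div, ← hQ, add_assoc]
    apply add_le_add_right
    have h8 : Q / (J : ℝ) ≤ 1.5e5 / (k : ℝ) ^ 2 := by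
      rw [div_le_div_iff₀ hJr (by positivity)]
      refine le_trans ?_ hJQ
      have hQ0 : 0 ≤ Q := Finset.sum_nonneg fun a _ => hQterm a
      have hkk : (k : ℝ) ≤ kmax := by exact_mod_cast hkm
      gcongr
    have h9 : (2.15e6 : ℝ) / (k : ℝ) ^ 2 = 1.5e5 / (k : ℝ) ^ 2 + 2e6 / (k : ℝ) ^ 2 := by ring
    rw [h9]
    exact add_le_add_left h8 _
  · -- rows far out
    push Not at hkm
    have h1 : ∑ a, ∑ c, vv k (min (g a).1 (g a).2) (ll (g a)) (gr J (f ⟨a, c⟩)) ≤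
        ∑ a, kr k (g a) := by
      apply Finset.sum_le_sum
      intro a _
      have hx := lt_min (hg1 a) (hg2 a)
      have h2 : ∀ c : Fin (2 * mm (g a)),
          vv k (min (g a).1 (g a).2) (ll (g a)) (gr J (f ⟨a, c⟩)) =
            2.7 * min (g a).1 (g a).2 - 3.1 / (tau k : ℝ) := by
        intro c
        obtain ⟨b1, b2, b3⟩ := gr_bounds' (Finset.mem_range.1 (hf1 ⟨a, c⟩)) hx
        exact odd_far hk9 hx b3 b1 b2 (hkmax k hkm a)
      rw [Finset.sum_congr rfl fun c _ => h2 c, Finset.sum_const, Finset.card_univ,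
        Fintype.card_fin, nsmul_eq_mul]
      push_cast
      exact piece_far hk9 (hg1 a) (hg2 a) (hkmax k hkm a)
    have h3 : (0 : ℝ) ≤ 2.15e6 / (k : ℝ) ^ 2 := by positivity
    linarith

/-- widths of the new strips -/
theorem width_ok {K K' : ℕ} (hK : 10320 ≤ K) (hKK : 4 * K' ≤ 5 * K) {x w : ℝ}
    (hx : (tau K : ℝ) * x ≤ 1) (hx0 : 0 < x) (hw : w ≤ 7 * x / 16) : (tau K' : ℝ) * w ≤ 1 := by
  have h1 := tau_le K'
  have h2 := lt_tau K
  have h3 : (10320 : ℝ) ≤ K := by exact_mod_cast hK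
  have h4 : 4 * (K' : ℝ) ≤ 5 * K := by exact_mod_cast hKK
  have h5 : (K' : ℝ) ^ 3 ≤ (5 / 4 * K) ^ 3 := by gcongr; linarith
  have h6 : (10320 : ℝ) ^ 3 ≤ (K : ℝ) ^ 3 := by gcongr
  have h7 : (tau K' : ℝ) ≤ 2 * (tau K : ℝ) := by
    rw [mul_pow] at h5
    nlinarith
  have h8 : (tau K' : ℝ) * w ≤ (tau K' : ℝ) * (7 * x / 16) :=
    mul_le_mul_of_nonneg_left hw (Nat.cast_nonneg _)
  have h9 : (tau K' : ℝ) * (7 * x / 16) ≤ 2 * (tau K : ℝ) * (7 * x / 16) := by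
    gcongr
  linarith

theorem odd_round_pos {K K' : ℕ} (hK : 10320 ≤ K) (hK' : 12900 ≤ K') (hKK : 4 * K' ≤ 5 * K)
    (O : Multiset (ℝ × ℝ))
    (hO : ∀ r ∈ O, 0 < r.1 ∧ 0 < r.2 ∧ (tau K : ℝ) * min r.1 r.2 ≤ 1) :
    ∃ S : Multiset (ℝ × ℝ), Ref O 0 S ∧
      (∀ r ∈ S, 0 < r.1 ∧ (tau K' : ℝ) * r.1 ≤ 1 ∧ 0 ≤ r.2) ∧
      ∀ k : ℕ, K' ≤ k →
        (S.map fun r => xx k r + pot k r.1).sum ≤ (O.map (kr k)).sum + 2.15e6 / (k : ℝ) ^ 2 := by
  classical
  set L := O.toList with hL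
  have hOL : O = (L : Multiset (ℝ × ℝ)) := (Multiset.coe_toList O).symm
  let g : Fin L.length → ℝ × ℝ := fun a => L[a.1]
  have hgO : ∀ a, g a ∈ O := by
    intro a
    rw [hOL]
    exact Multiset.mem_coe.2 (List.getElem_mem a.2)
  have hsum : O = ∑ a, ({g a} : Multiset (ℝ × ℝ)) := by
    have h1 := Fin.sum_univ_fun_getElem L (fun r => ({r} : Multiset (ℝ × ℝ)))
    have h2 := list_singletons L
    rw [hOL, ← h2, ← h1]
  have hkr : ∀ k, (O.map (kr k)).sum = ∑ a, kr k (g a) := by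
    intro k
    rw [hsum, sum_map_fsum]
    simp
  obtain ⟨J, f, hf, hfk⟩ := round_core hK' L.length g (fun a => (hO _ (hgO a)).1)
    (fun a => (hO _ (hgO a)).2.1)
  refine ⟨∑ a, ∑ c, (({(min (g a).1 (g a).2 / 2 * gr J (f a c), ll (g a))} : Multiset (ℝ × ℝ)) +
      {(min (g a).1 (g a).2 / 2 * (1 - gr J (f a c)), ll (g a))}), ?_, ?_, ?_⟩
  · have h1 := Ref.sum Finset.univ (fun a => ({g a} : Multiset (ℝ × ℝ)))
      (fun a => ∑ c, (({(min (g a).1 (g a).2 / 2 * gr J (f a c), ll (g a))} : Multiset (ℝ × ℝ)) +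
      {(min (g a).1 (g a).2 / 2 * (1 - gr J (f a c)), ll (g a))})) (fun _ => 0)
      (fun a _ => odd_geo (hO _ (hgO a)).1 (hO _ (hgO a)).2.1 (f a) (hf a))
    rw [← hsum] at h1
    simpa using h1
  · intro r hr
    rw [Multiset.mem_sum] at hr
    obtain ⟨a, -, hr⟩ := hr
    rw [Multiset.mem_sum] at hr
    obtain ⟨c, -, hr⟩ := hr
    obtain ⟨o1, o2, o3⟩ := hO _ (hgO a)
    have hx := lt_min o1 o2
    obtain ⟨b1, b2, b3⟩ := gr_bounds' (hf a c) hx
    have hl := ll_nonneg (r := g a) o1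
    rcases Multiset.mem_add.1 hr with hr | hr
    · rw [Multiset.mem_singleton] at hr
      subst hr
      exact ⟨by simp only; linarith, width_ok hK hKK o3 hx (by simp only; linarith), hl⟩
    · rw [Multiset.mem_singleton] at hr
      subst hr
      exact ⟨by simp only; linarith, width_ok hK hKK o3 hx (by simp only; linarith), hl⟩
  · intro k hk
    rw [hkr, sum_map_fsum]
    refine le_trans (le_of_eq ?_) (hfk k hk)
    apply Finset.sum_congr rfl
    intro a _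
    rw [sum_map_fsum]
    apply Finset.sum_congr rfl
    intro c _
    simp only [Multiset.map_add, Multiset.map_singleton, Multiset.sum_add, Multiset.sum_singleton]
    unfold vv
    ring

theorem odd_round {K K' : ℕ} (hK : 10320 ≤ K) (hK' : 12900 ≤ K') (hKK : 4 * K' ≤ 5 * K)
    (O : Multiset (ℝ × ℝ))
    (hO : ∀ r ∈ O, 0 ≤ r.1 ∧ 0 ≤ r.2 ∧ (tau K : ℝ) * min r.1 r.2 ≤ 1) :
    ∃ S : Multiset (ℝ × ℝ), Ref O 0 S ∧
      (∀ r ∈ S, 0 < r.1 ∧ (tau K' : ℝ) * r.1 ≤ 1 ∧ 0 ≤ r.2) ∧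
      ∀ k : ℕ, K' ≤ k →
        (S.map fun r => xx k r + pot k r.1).sum ≤ (O.map (kr k)).sum + 2.15e6 / (k : ℝ) ^ 2 := by
  classical
  set O1 := O.filter (fun r => 0 < r.1 ∧ 0 < r.2) with hO1
  set O2 := O.filter (fun r => ¬ (0 < r.1 ∧ 0 < r.2)) with hO2
  have hOO : O = O1 + O2 := (Multiset.filter_add_not _ _).symm
  obtain ⟨S, hS1, hS2, hS3⟩ := odd_round_pos hK hK' hKK O1 (by
    intro r hr
    rw [hO1, Multiset.mem_filter] at hr
    exact ⟨hr.2.1, hr.2.2, (hO r hr.1).2.2⟩)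
  refine ⟨S, ?_, hS2, ?_⟩
  · have h1 : Ref O2 0 0 := by
      apply ref_drop
      intro r hr
      rw [hO2, Multiset.mem_filter] at hr
      obtain ⟨a1, a2, -⟩ := hO r hr.1
      by_cases h : 0 < r.1
      · right
        refine ⟨a1, ?_⟩
        have h3 : ¬ 0 < r.2 := fun h4 => hr.2 ⟨h, h4⟩
        linarith
      · left
        exact ⟨by linarith, a2⟩
    have h2 := hS1.add h1
    rw [← hOO] at h2
    simpa using h2
  · intro k hk
    refine (hS3 k hk).trans ?_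
    apply add_le_add_left
    rw [hOO, Multiset.map_add, Multiset.sum_add]
    have h1 : 0 ≤ (O2.map (kr k)).sum := by
      apply Multiset.sum_nonneg
      intro y hy
      rw [Multiset.mem_map] at hy
      obtain ⟨r, hr, rfl⟩ := hy
      rw [hO2, Multiset.mem_filter] at hr
      obtain ⟨a1, a2, -⟩ := hO r hr.1
      exact kc_nonneg k (le_min a1 a2) (a1.trans (le_max_left _ _))
    linarith

end Pool.Agent.Moser.Eng
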