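import Pool.Agent.Lib_MP_cc07e8_co.EngWin
import Pool.Agent.Lib_MP_cc07e8_co.EngGr

/-!
# MP_cc07e8_co, engine piece ODDXX: expected load of a random split

Widths `w_j = x / 2 * gr J j`, an arithmetic progression with step `3 x / (8 J)` from `x / 16` to `7 x / 16`. The `j` with
`xx k (w_j, l) ≠ 0` have `1 / tau (k - 3) < w_j ≤ 1 / tau (k - 15)` (window in `[k - 15, k - 4]`), so by `gr_count` their
number is at most `δ * 8 J / (3 x) + 1`, `δ = 1 / tau (k - 15) - 1 / tau (k - 3)`, each term is at most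
`l * 1.0005 (k + 24) / 36` (`tau_div_DD`, window `≤ k - 4`, `slots ≤ l * tau`).
`2 * (8 / 3) * (1.0005 (k + 24) / 36) δ tau k ≤ 5.37` for `k ≥ 12900` (real value `5.361`, decreasing in `k`; bounds of
`EngTau`: `δ tau k = (tau (k - 3) - tau (k - 15)) tau k / (tau (k - 15) tau (k - 3))`, main term `36 k ^ 2 / k ^ 3`). If there is such
a `j` then `x tau k > 16 / 7` and `x tau k ≤ 16 tau k / tau (k - 15) ≤ 16.1`.
-/

namespace Pool.Agent.Moser.Eng

namespace OddXX

/-- a strip with positive load of row `k` has its width between `1 / tau (k - 3)` and `1 / tau (k - 15)`, and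
the load is at most `l * 1.0005 * (k + 24) / 36` -/
theorem xx_ne {k : ℕ} (hk : 12900 ≤ k) {w l : ℝ} (hl : 0 ≤ l) (h : xx k (w, l) ≠ 0) :
    1 < (tau (k - 3) : ℝ) * w ∧ (tau (k - 15) : ℝ) * w ≤ 1 ∧
      xx k (w, l) ≤ l * (1.0005 * ((k : ℝ) + 24) / 36) := by
  classical
  obtain ⟨i, hi, hne⟩ : ∃ i ∈ Finset.Icc (k - 15) (k - 4),
      (if InW i w then (slots i l : ℝ) / (DD i : ℝ) else 0) ≠ 0 := by
    by_contra hcon
    push Not at hcon
    exact h (Finset.sum_eq_zero hcon)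
  have hW : InW i w := by
    by_contra hc
    exact hne (if_neg hc)
  rw [Finset.mem_Icc] at hi
  have hw := InW_pos hW
  have h1 : (tau (i + 1) : ℝ) ≤ tau (k - 3) := by exact_mod_cast tau_mono (by omega)
  have h2 : (tau (k - 15) : ℝ) ≤ tau i := by exact_mod_cast tau_mono hi.1
  refine ⟨lt_of_lt_of_le hW.2 (mul_le_mul_of_nonneg_right h1 hw.le),
    (mul_le_mul_of_nonneg_right h2 hw.le).trans hW.1, ?_⟩
  rw [xx_eq (by omega) (by omega) (r := (w, l)) hW]
  have hki : (i : ℝ) + 28 ≤ (k : ℝ) + 24 := by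
    have : i + 4 ≤ k := by omega
    have : ((i + 4 : ℕ) : ℝ) ≤ k := by exact_mod_cast this
    push_cast at this
    linarith
  have hk0 : (0 : ℝ) ≤ k := Nat.cast_nonneg _
  split_ifs
  · have hD := DD_pos (i := i) (by omega)
    have h3 : (slots i l : ℝ) ≤ l * (tau (i + 16) : ℝ) :=
      Nat.floor_le (mul_nonneg hl (Nat.cast_nonneg _))
    calc (slots i l : ℝ) / (DD i : ℝ) ≤ l * (tau (i + 16) : ℝ) / (DD i : ℝ) :=
          div_le_div_of_nonneg_right h3 hD.le
      _ = l * ((tau (i + 16) : ℝ) / (DD i : ℝ)) := by rw [mul_div_assoc]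
      _ ≤ l * (1.0005 * ((i : ℝ) + 28) / 36) :=
          mul_le_mul_of_nonneg_left (tau_div_DD (by omega)) hl
      _ ≤ l * (1.0005 * ((k : ℝ) + 24) / 36) := by
          refine mul_le_mul_of_nonneg_left ?_ hl
          linarith
  · positivity

theorem poly {k : ℝ} (hk : 12900 ≤ k) :
    16 / 3 * (1.0005 * (k + 24) / 36) * ((36 * k ^ 2 - 648 * k + 1731348) * k ^ 3) ≤
      5.37 * (((k - 15) ^ 3 - 1728000) * ((k - 3) ^ 3 - 1728000)) := by
  obtain ⟨t, ht, rfl⟩ : ∃ t : ℝ, 0 ≤ t ∧ k = 12900 + t := ⟨k - 12900, by linarith, by ring⟩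
  rw [← sub_nonneg]
  ring_nf
  positivity

/-- main numerical inequality -/
theorem delta {k : ℕ} (hk : 12900 ≤ k) :
    16 / 3 * (1.0005 * ((k : ℝ) + 24) / 36) *
      (1 / (tau (k - 15) : ℝ) - 1 / (tau (k - 3) : ℝ)) * (tau k : ℝ) ≤ 5.37 := by
  have hk' : (12900 : ℝ) ≤ k := by exact_mod_cast hk
  have a1 := lt_tau (k - 15)
  have a2 := lt_tau (k - 3)
  have b1 := tau_le (k - 15)
  have b2 := tau_le (k - 3)
  have b3 := tau_le k
  have c1 := tau_pos (i := k - 15) (by omega)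
  have c2 := tau_pos (i := k - 3) (by omega)
  have c3 := tau_pos (i := k) (by omega)
  have e1 : ((k - 15 : ℕ) : ℝ) = (k : ℝ) - 15 := by
    rw [Nat.cast_sub (by omega)]; norm_num
  have e2 : ((k - 3 : ℕ) : ℝ) = (k : ℝ) - 3 := by
    rw [Nat.cast_sub (by omega)]; norm_num
  rw [e1] at a1 b1
  rw [e2] at a2 b2
  set A := (tau (k - 15) : ℝ)
  set B := (tau (k - 3) : ℝ)
  set C := (tau k : ℝ)
  set x := (k : ℝ)
  have hA : 0 < A := by linarith
  have hB : 0 < B := by linarith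
  have hC : 0 < C := by linarith
  have hq : 0 ≤ 16 / 3 * (1.0005 * (x + 24) / 36) := by positivity
  have h1 : 16 / 3 * (1.0005 * (x + 24) / 36) * (1 / A - 1 / B) * C =
      16 / 3 * (1.0005 * (x + 24) / 36) * ((B - A) * C) / (A * B) := by
    field_simp
  rw [h1, div_le_iff₀ (mul_pos hA hB)]
  have hBA : B - A ≤ (36 * x ^ 2 - 648 * x + 1731348) / 27000 := by
    have : (x - 3) ^ 3 - (x - 15) ^ 3 = 36 * x ^ 2 - 648 * x + 3348 := by ring
    linarith
  have hnum : 0 ≤ (36 * x ^ 2 - 648 * x + 1731348) / 27000 := by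
    have : 0 ≤ x * (36 * x - 648) := mul_nonneg (by linarith) (by linarith)
    have h2 : 0 ≤ 36 * x ^ 2 - 648 * x + 1731348 := by nlinarith
    positivity
  have h2 : (B - A) * C ≤ (36 * x ^ 2 - 648 * x + 1731348) / 27000 * (x ^ 3 / 27000) := by
    calc (B - A) * C ≤ (36 * x ^ 2 - 648 * x + 1731348) / 27000 * C :=
          mul_le_mul_of_nonneg_right hBA hC.le
      _ ≤ _ := mul_le_mul_of_nonneg_left b3 hnum
  have h3 : ((x - 15) ^ 3 / 27000 - 64) * ((x - 3) ^ 3 / 27000 - 64) ≤ A * B := by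
    have h30 : 0 ≤ (x - 3) ^ 3 / 27000 - 64 := by
      have : (12897 : ℝ) ^ 3 ≤ (x - 3) ^ 3 := by gcongr; linarith
      have h4 : (64 : ℝ) ≤ (12897 : ℝ) ^ 3 / 27000 := by norm_num
      linarith
    exact mul_le_mul a1.le a2.le h30 hA.le
  have h4 := poly hk'
  have h5 : ((x - 15) ^ 3 / 27000 - 64) * ((x - 3) ^ 3 / 27000 - 64) =
      ((x - 15) ^ 3 - 1728000) * ((x - 3) ^ 3 - 1728000) / 27000 ^ 2 := by ring
  have h6 : 16 / 3 * (1.0005 * (x + 24) / 36) *
      ((36 * x ^ 2 - 648 * x + 1731348) / 27000 * (x ^ 3 / 27000)) =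
      16 / 3 * (1.0005 * (x + 24) / 36) * ((36 * x ^ 2 - 648 * x + 1731348) * x ^ 3) / 27000 ^ 2 := by
    ring
  calc 16 / 3 * (1.0005 * (x + 24) / 36) * ((B - A) * C)
      ≤ 16 / 3 * (1.0005 * (x + 24) / 36) *
        ((36 * x ^ 2 - 648 * x + 1731348) / 27000 * (x ^ 3 / 27000)) :=
        mul_le_mul_of_nonneg_left h2 hq
    _ = 16 / 3 * (1.0005 * (x + 24) / 36) *
        ((36 * x ^ 2 - 648 * x + 1731348) * x ^ 3) / 27000 ^ 2 := h6
    _ ≤ 5.37 * (((x - 15) ^ 3 - 1728000) * ((x - 3) ^ 3 - 1728000)) / 27000 ^ 2 := by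
        apply div_le_div_of_nonneg_right h4 (by norm_num)
    _ = 5.37 * (((x - 15) ^ 3 / 27000 - 64) * ((x - 3) ^ 3 / 27000 - 64)) := by ring
    _ ≤ 5.37 * (A * B) := by linarith

theorem ratio {k : ℕ} (hk : 12900 ≤ k) : 16 * (tau k : ℝ) ≤ 16.1 * (tau (k - 15) : ℝ) := by
  have hk' : (12900 : ℝ) ≤ k := by exact_mod_cast hk
  have a1 := lt_tau (k - 15)
  have b3 := tau_le k
  have e1 : ((k - 15 : ℕ) : ℝ) = (k : ℝ) - 15 := by
    rw [Nat.cast_sub (by omega)]; norm_num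
  rw [e1] at a1
  have h : 16 * ((k : ℝ) ^ 3 / 27000) ≤ 16.1 * (((k : ℝ) - 15) ^ 3 / 27000 - 64) := by
    obtain ⟨t, ht, h⟩ : ∃ t : ℝ, 0 ≤ t ∧ (k : ℝ) = 12900 + t := ⟨(k : ℝ) - 12900, by linarith, by ring⟩
    rw [h, ← sub_nonneg]
    ring_nf
    positivity
  linarith

end OddXX

open OddXX in
open Classical in
theorem odd_xx {k J : ℕ} (hk : 12900 ≤ k) (hJ : 0 < J) {x l : ℝ} (hx : 0 < x) (hl : 0 ≤ l) :
    2 * (∑ j ∈ Finset.range J, xx k (x / 2 * gr J j, l)) / (J : ℝ) ≤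
      (if 16 / 7 ≤ x * (tau k : ℝ) ∧ x * (tau k : ℝ) ≤ 16.1 then
        5.37 * l / (x * (tau k : ℝ)) else 0) + 2 * l * (k : ℝ) / (J : ℝ) := by
  have hk' : (12900 : ℝ) ≤ k := by exact_mod_cast hk
  have hJ' : (0 : ℝ) < J := by exact_mod_cast hJ
  have c1 := tau_pos (i := k - 15) (by omega)
  have c2 := tau_pos (i := k - 3) (by omega)
  have c3 := tau_pos (i := k) (by omega)
  have hA : (0 : ℝ) < tau (k - 15) := by linarith
  have hB : (0 : ℝ) < tau (k - 3) := by linarith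
  have hC : (0 : ℝ) < tau k := by linarith
  have hAB : (tau (k - 15) : ℝ) ≤ tau (k - 3) := by exact_mod_cast tau_mono (by omega)
  have hBC : (tau (k - 3) : ℝ) ≤ tau k := by exact_mod_cast tau_mono (by omega)
  set c : ℝ := 1.0005 * ((k : ℝ) + 24) / 36 with hc
  have hc0 : 0 ≤ c := by positivity
  have hck : c ≤ k := by
    rw [hc]; linarith
  set T : Finset ℕ := (Finset.range J).filter fun j => xx k (x / 2 * gr J j, l) ≠ 0 with hT
  have hmem : ∀ j ∈ T, j < J ∧ 1 < (tau (k - 3) : ℝ) * (x / 2 * gr J j) ∧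
      (tau (k - 15) : ℝ) * (x / 2 * gr J j) ≤ 1 ∧ xx k (x / 2 * gr J j, l) ≤ l * c := by
    intro j hj
    rw [hT, Finset.mem_filter, Finset.mem_range] at hj
    exact ⟨hj.1, xx_ne hk hl hj.2⟩
  have hsum : ∑ j ∈ Finset.range J, xx k (x / 2 * gr J j, l) ≤ (T.card : ℝ) * (l * c) := by
    rw [← Finset.sum_filter_ne_zero, ← nsmul_eq_mul]
    exact Finset.sum_le_card_nsmul _ _ _ fun j hj => (hmem j hj).2.2.2
  by_cases hTe : T = ∅
  · rw [hTe, Finset.card_empty, Nat.cast_zero, zero_mul] at hsum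
    have h1 : 2 * (∑ j ∈ Finset.range J, xx k (x / 2 * gr J j, l)) / (J : ℝ) ≤ 0 :=
      div_nonpos_of_nonpos_of_nonneg (by linarith) hJ'.le
    have h2 : 0 ≤ (if 16 / 7 ≤ x * (tau k : ℝ) ∧ x * (tau k : ℝ) ≤ 16.1 then
        5.37 * l / (x * (tau k : ℝ)) else 0) := by
      split_ifs
      · positivity
      · exact le_rfl
    have h3 : 0 ≤ 2 * l * (k : ℝ) / (J : ℝ) := by positivity
    linarith
  · obtain ⟨j, hj⟩ := Finset.nonempty_iff_ne_empty.mpr hTe
    obtain ⟨hjJ, hj1, hj2, _⟩ := hmem j hj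
    obtain ⟨g1, g2⟩ := gr_bounds hjJ
    have hcond : 16 / 7 ≤ x * (tau k : ℝ) ∧ x * (tau k : ℝ) ≤ 16.1 := by
      constructor
      · have h1 : (tau (k - 3) : ℝ) * (x / 2 * gr J j) ≤ (tau k : ℝ) * (x / 2 * (7 / 8)) := by
          apply mul_le_mul hBC _ (by positivity) hC.le
          exact mul_le_mul_of_nonneg_left g2 (by positivity)
        have h2 : (tau k : ℝ) * (x / 2 * (7 / 8)) = 7 / 16 * (x * (tau k : ℝ)) := by ring
        linarith
      · have h1 : (tau (k - 15) : ℝ) * (x / 2 * (1 / 8)) ≤ (tau (k - 15) : ℝ) * (x / 2 * gr J j) := by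
          apply mul_le_mul_of_nonneg_left _ hA.le
          exact mul_le_mul_of_nonneg_left g1 (by positivity)
        have h2 : (tau (k - 15) : ℝ) * x ≤ 16 := by
          have : (tau (k - 15) : ℝ) * (x / 2 * (1 / 8)) = (tau (k - 15) : ℝ) * x / 16 := by ring
          linarith
        have h3 := ratio hk
        have h4 : x * (16 * (tau k : ℝ)) ≤ x * (16.1 * (tau (k - 15) : ℝ)) :=
          mul_le_mul_of_nonneg_left h3 hx.le
        nlinarith
    rw [if_pos hcond]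
    have hcount : (T.card : ℝ) ≤ 4 * (J : ℝ) *
        (2 / x * (1 / (tau (k - 15) : ℝ) - 1 / (tau (k - 3) : ℝ))) / 3 + 1 := by
      refine gr_count hJ (c := 2 / x * (1 / (tau (k - 3) : ℝ))) ?_ T ?_
      · apply mul_nonneg (by positivity)
        rw [sub_nonneg]
        exact one_div_le_one_div_of_le hA hAB
      · intro j hj
        obtain ⟨_, h1, h2, _⟩ := hmem j hj
        constructor
        · have h3 : 1 / (tau (k - 3) : ℝ) < x / 2 * gr J j := by
            rw [div_lt_iff₀ hB]; linarith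
          calc 2 / x * (1 / (tau (k - 3) : ℝ)) < 2 / x * (x / 2 * gr J j) :=
                mul_lt_mul_of_pos_left h3 (by positivity)
            _ = gr J j := by field_simp
        · have h3 : x / 2 * gr J j ≤ 1 / (tau (k - 15) : ℝ) := by
            rw [le_div_iff₀ hA]; linarith
          calc gr J j = 2 / x * (x / 2 * gr J j) := by field_simp
            _ ≤ 2 / x * (1 / (tau (k - 15) : ℝ)) :=
                mul_le_mul_of_nonneg_left h3 (by positivity)
            _ = _ := by ring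
    have hdel := delta hk
    rw [← hc] at hdel
    set δ := (1 / (tau (k - 15) : ℝ) - 1 / (tau (k - 3) : ℝ)) with hδ
    have h1 : 2 * (∑ j ∈ Finset.range J, xx k (x / 2 * gr J j, l)) / (J : ℝ) ≤
        2 * ((4 * (J : ℝ) * (2 / x * δ) / 3 + 1) * (l * c)) / (J : ℝ) := by
      apply div_le_div_of_nonneg_right _ hJ'.le
      have : (T.card : ℝ) * (l * c) ≤ (4 * (J : ℝ) * (2 / x * δ) / 3 + 1) * (l * c) :=
        mul_le_mul_of_nonneg_right hcount (mul_nonneg hl hc0)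
      linarith
    have h2 : 2 * ((4 * (J : ℝ) * (2 / x * δ) / 3 + 1) * (l * c)) / (J : ℝ) =
        (16 / 3 * c * δ * (tau k : ℝ)) * (l / (x * (tau k : ℝ))) + 2 * l * c / (J : ℝ) := by
      field_simp
      ring
    have h3 : (16 / 3 * c * δ * (tau k : ℝ)) * (l / (x * (tau k : ℝ))) ≤
        5.37 * (l / (x * (tau k : ℝ))) :=
      mul_le_mul_of_nonneg_right hdel (by positivity)
    have h4 : 2 * l * c / (J : ℝ) ≤ 2 * l * (k : ℝ) / (J : ℝ) := by
      apply div_le_div_of_nonneg_right _ hJ'.le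
      exact mul_le_mul_of_nonneg_left hck (by positivity)
    have h5 : 5.37 * (l / (x * (tau k : ℝ))) = 5.37 * l / (x * (tau k : ℝ)) := by
      rw [mul_div_assoc]
    linarith

end Pool.Agent.Moser.Eng
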