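import Pool.Agent.Lib_MP_cc07e8_co.EngButter
import Pool.Agent.Lib_MP_cc07e8_co.EngChildK

/-!
# MP_cc07e8_co, engine piece POS (E2): squares for the slots with blocks `< sig K'`

`p : Fin n → Pend` running strips, at most 64 slots in every block `b < sig K'`. Every slot in a block
`b < sig K'` gets a square of its block, all squares different; `A s` = squares of the strip `s`.

Proof. Slots `S` = pairs `(s, j)`, `j < card ((p s).B.filter (· < sig K'))` (a sigma type; `blk (s, j)` = the
`j`-th element of `toList`). Apply `butterfly` with `val`: rows `R` = (rows `k ∈ RR`) and one width row: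
`val k (s, j) pos = xx k (w - 1 / q, 1 / q)`, `val W (s, j) pos = w - 1 / q`, `q = 64 * blk + pos`;
`wt k = K ^ 3 / (751 k)`, `wt W = 0.12 * K ^ 4 / 1.301e6`, `D = 12.12` (`child_rows`, `child_width`,
`child_pos`; `K ≤ i + 15`, `q ≥ tau (i + 4)`, `q ≥ tau K` by `Run.blk`). `RR` = the `k` with `10320 ≤ k`,
`8.95 k ^ 3 ≤ K' ^ 4`, `K ^ 4 ≤ 48.2 k ^ 3`; for the other `k ≥ 10320` all terms vanish (`child_hit`).
The average over the positions is `ff k w b`, `fw w b`. Errors: `24.03 * 12.12 * 751 = 218724 ≤ 218800` and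
`24.03 * 12.12 / 0.12 * 1.301e6 = 3.158e9 ≤ 3.2e9`. `A s` = image of `j ↦ 64 * blk + pos` (injective). Cap hypothesis:
`card {slots in b} = ∑ s, count b (p s).B`.
-/

namespace Pool.Agent.Moser.Eng

open Classical in
/-- error of E2 in row `k` -/
noncomputable def E2err (K K' k : ℕ) : ℝ :=
  if (K : ℝ) ^ 4 ≤ 48.2 * (k : ℝ) ^ 3 ∧ 8.95 * (k : ℝ) ^ 3 ≤ (K' : ℝ) ^ 4 then
    218800 * (k : ℝ) / (K : ℝ) ^ 3 else 0

theorem pos_sum64 (b : ℕ) (g : ℕ → ℝ) :
    ∑ q ∈ Finset.Ico (64 * b) (64 * b + 64), g q = ∑ x : Fin 64, g (64 * b + x) := by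
  rw [Finset.sum_Ico_eq_sum_range, Nat.add_sub_cancel_left,
    Fin.sum_univ_eq_sum_range (fun x => g (64 * b + x)) 64]

theorem pos_sumB (m : Multiset ℕ) (g : ℕ → ℝ) : ∑ x : m, g (x : ℕ) = (m.map g).sum := by
  rw [Finset.sum, Multiset.map_univ m g]

theorem pos_countB (m : Multiset ℕ) (b : ℕ) :
    (Finset.univ.filter fun x : m => (x : ℕ) = b).card = m.count b := by
  have h := pos_sumB m (fun x => if x = b then 1 else 0)
  have h2 : ∀ m : Multiset ℕ, ((m.map fun x => if x = b then (1 : ℝ) else 0)).sum =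
      (m.count b : ℝ) := by
    intro m
    induction m using Multiset.induction_on with
    | empty => simp
    | cons a m ih =>
      rw [Multiset.map_cons, Multiset.sum_cons, ih]
      by_cases hab : a = b
      · subst hab
        simp [add_comm]
      · rw [if_neg hab, Multiset.count_cons_of_ne (Ne.symm hab), zero_add]
  rw [h2 m, Finset.sum_boole] at h
  exact_mod_cast h

theorem positions {K K' : ℕ} (hK : 10320 ≤ K) (hKK : K < K') {n : ℕ} (p : Fin n → Pend)
    (hp : ∀ s, (p s).Run K K') (hcap : ∀ b, b < sig K' → ∑ s, (p s).B.count b ≤ 64) :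
    ∃ A : Fin n → Finset ℕ, (∀ s t, s ≠ t → Disjoint (A s) (A t)) ∧
      (∀ s, ∀ q ∈ A s, q / 64 ∈ (p s).B ∧ q / 64 < sig K') ∧
      (∀ s, (A s).card = ((p s).B.filter fun b => b < sig K').card) ∧
      ∀ k : ℕ, 10320 ≤ k →
        ∑ s, ∑ q ∈ A s, (xx k ((p s).w - 1 / (q : ℝ), 1 / (q : ℝ)) +
            bet K k * ((p s).w - 1 / (q : ℝ))) ≤
          ∑ s, (((p s).B.filter fun b => b < sig K').map fun b =>
            ff k (p s).w b + bet K k * fw (p s).w b).sum +
          E2err K K' k + bet K k * (3.2e9 / (K : ℝ) ^ 4) := by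
  classical
  -- the filtered multisets
  set Bf : Fin n → Multiset ℕ := fun s => (p s).B.filter fun b => b < sig K' with hBf
  have hBmem : ∀ s, ∀ b ∈ Bf s, b ∈ (p s).B ∧ b < sig K' := by
    intro s b hb
    exact Multiset.mem_filter.mp hb
  -- rows
  set RR : Finset ℕ := (Finset.range (K' ^ 4 + 1)).filter fun k =>
    10320 ≤ k ∧ 8.95 * (k : ℝ) ^ 3 ≤ (K' : ℝ) ^ 4 ∧ (K : ℝ) ^ 4 ≤ 48.2 * (k : ℝ) ^ 3 with hRR
  have hRRmem : ∀ k : ℕ, 10320 ≤ k → 8.95 * (k : ℝ) ^ 3 ≤ (K' : ℝ) ^ 4 →
      (K : ℝ) ^ 4 ≤ 48.2 * (k : ℝ) ^ 3 → k ∈ RR := by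
    intro k h1 h2 h3
    rw [hRR, Finset.mem_filter, Finset.mem_range]
    refine ⟨?_, h1, h2, h3⟩
    have h4 : (k : ℝ) ≤ (k : ℝ) ^ 3 := by
      have : k ≤ k ^ 3 := Nat.le_self_pow (by norm_num) k
      exact_mod_cast this
    have h5 : (k : ℝ) ≤ (K' : ℝ) ^ 4 := by
      have : (0 : ℝ) ≤ (k : ℝ) ^ 3 := by positivity
      linarith
    have h6 : k ≤ K' ^ 4 := by exact_mod_cast h5
    omega
  have hK0 : (0 : ℝ) < K := by
    have : 0 < K := by omega
    exact_mod_cast this
  -- facts on the squares of a block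
  have hq : ∀ s, ∀ b ∈ Bf s, ∀ x : ℕ, x < 64 → 10305 ≤ (p s).i ∧ K ≤ (p s).i + 15 ∧
      InW (p s).i (p s).w ∧ tau ((p s).i + 4) ≤ 64 * b + x ∧ 64 * b + x < tau ((p s).i + 16) ∧
      tau K ≤ 64 * b + x ∧ 0 < 64 * b + x := by
    intro s b hb x hx
    have h1 := hp s
    obtain ⟨h2, h3, h4⟩ := h1.blk b (hBmem s b hb).1
    have h5 := h1.lo
    have h6 : tau K ≤ 64 * b + x := by rw [tau_eq]; omega
    have h7 : 0 < tau K := by
      have h8 := tau_pos (i := K) (by omega)
      have h9 : (0 : ℝ) < (tau K : ℝ) := by linarith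
      exact_mod_cast h9
    refine ⟨by omega, h5, h1.win, ?_, ?_, h6, by omega⟩
    · rw [tau_eq]; omega
    · rw [tau_eq]; omega
  -- butterfly
  set S : Type := (s : Fin n) × (Bf s).ToType with hS
  set blk : S → ℕ := fun z => (z.2 : (Bf z.1).ToType).1 with hblk
  have hblkmem : ∀ z : S, blk z ∈ Bf z.1 := fun z => Multiset.coe_mem
  set R : Type := Option {k // k ∈ RR} with hR
  set g : Option {k // k ∈ RR} → Fin n → ℕ → ℝ := fun r s q =>
    match r with
    | none => (p s).w - 1 / (q : ℝ)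
    | some k => xx k.1 ((p s).w - 1 / (q : ℝ), 1 / (q : ℝ)) with hg
  set wt : Option {k // k ∈ RR} → ℝ := fun r =>
    match r with
    | none => 0.12 * (K : ℝ) ^ 4 / 1.301e6
    | some k => (K : ℝ) ^ 3 / (751 * (k.1 : ℝ)) with hwt
  have hkpos : ∀ k : {k // k ∈ RR}, (0 : ℝ) < (k.1 : ℝ) := by
    intro k
    have h1 := (Finset.mem_filter.mp k.2).2.1
    have h2 : 0 < k.1 := by omega
    exact_mod_cast h2
  have hwtpos : ∀ r, 0 < wt r := by
    intro r
    rcases r with _ | k
    · simp only [hwt]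
      positivity
    · simp only [hwt]
      have := hkpos k
      positivity
  have hcapS : ∀ b, (Finset.univ.filter fun z : S => blk z = b).card ≤ 64 := by
    intro b
    have h1 : (Finset.univ.filter fun z : S => blk z = b).card = ∑ s, (Bf s).count b := by
      have h2 : (Finset.univ.filter fun z : S => blk z = b) =
          Finset.univ.sigma fun s => (Finset.univ.filter fun x : (Bf s).ToType => (x : ℕ) = b) := by
        ext z
        exact ⟨fun h => Finset.mem_sigma.mpr ⟨Finset.mem_univ _,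
            Finset.mem_filter.mpr ⟨Finset.mem_univ _, (Finset.mem_filter.mp h).2⟩⟩,
          fun h => Finset.mem_filter.mpr ⟨Finset.mem_univ _,
            (Finset.mem_filter.mp (Finset.mem_sigma.mp h).2).2⟩⟩
      rw [h2, Finset.card_sigma]
      exact Finset.sum_congr rfl fun s _ => pos_countB (Bf s) b
    rw [h1]
    by_cases hb : b < sig K'
    · refine le_trans (Finset.sum_le_sum fun s _ => ?_) (hcap b hb)
      exact Multiset.count_le_of_le b (Multiset.filter_le _ _)
    · have h3 : ∑ s, (Bf s).count b = 0 := by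
        apply Finset.sum_eq_zero
        intro s _
        rw [Multiset.count_eq_zero]
        intro h4
        exact hb (hBmem s b h4).2
      omega
  have hnnS : ∀ (r : Option {k // k ∈ RR}) (z : S) (x : Fin 64),
      0 ≤ g r z.1 (64 * blk z + (x : ℕ)) := by
    intro r z x
    obtain ⟨h1, h2, h3, h4, h5, h6, h7⟩ := hq z.1 (blk z) (hblkmem z) x x.2
    rcases r with _ | k
    · exact (child_pos h1 h3 h4).le
    · exact xx_nonneg _ _
  have hsumS : ∀ (z : S) (x : Fin 64),
      ∑ r, wt r * g r z.1 (64 * blk z + (x : ℕ)) ≤ 12.12 := by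
    intro z x
    obtain ⟨h1, h2, h3, h4, h5, h6, h7⟩ := hq z.1 (blk z) (hblkmem z) x x.2
    rw [Fintype.sum_option]
    have h8 : wt none * g none z.1 (64 * blk z + (x : ℕ)) ≤ 0.12 := by
      have h9 := child_width h1 h3 h7 h5
      have h10 : (1.301e6 : ℝ) / (((p z.1).i : ℝ) + 15) ^ 4 ≤ 1.301e6 / (K : ℝ) ^ 4 := by
        have h11 : (K : ℝ) ≤ ((p z.1).i : ℝ) + 15 := by exact_mod_cast h2
        gcongr
      have h12 : g none z.1 (64 * blk z + (x : ℕ)) ≤ 1.301e6 / (K : ℝ) ^ 4 := h9.trans h10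
      calc wt none * g none z.1 (64 * blk z + (x : ℕ)) ≤
            wt none * (1.301e6 / (K : ℝ) ^ 4) :=
            mul_le_mul_of_nonneg_left h12 (hwtpos none).le
        _ = 0.12 := by
            simp only [hwt]
            field_simp
    have h13 : ∑ k : {k // k ∈ RR}, wt (some k) * g (some k) z.1 (64 * blk z + (x : ℕ)) ≤ 12 := by
      have h14 := child_rows h1 hK h2 RR (fun k hk => (Finset.mem_filter.mp hk).2.1) h3 h4 h5 h6
      rw [← Finset.sum_coe_sort] at h14
      exact h14
    linarith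
  obtain ⟨pos, hpos1, hpos2⟩ := butterfly (S := S) (R := Option {k // k ∈ RR}) blk hcapS
    (fun r z x => g r z.1 (64 * blk z + (x : ℕ))) hnnS wt hwtpos 12.12 (by norm_num) hsumS
  -- positions of the slots
  set Q : (z : S) → ℕ := fun z => 64 * blk z + (pos z : ℕ) with hQ
  have hQinj : Function.Injective Q := by
    intro z z' h
    simp only [hQ] at h
    have h1 := (pos z).2
    have h2 := (pos z').2
    have h3 : blk z = blk z' := by omega
    have h4 : pos z = pos z' := by
      apply Fin.ext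
      omega
    exact hpos1 z z' h3 h4
  set A : Fin n → Finset ℕ := fun s =>
    Finset.univ.image fun x : (Bf s).ToType => Q ⟨s, x⟩ with hA
  have hAinj : ∀ s, Function.Injective fun x : (Bf s).ToType => Q ⟨s, x⟩ := by
    intro s x y hxy
    exact eq_of_heq (Sigma.mk.inj (hQinj hxy)).2
  have hAsum : ∀ f : Fin n → ℕ → ℝ, ∑ s, ∑ q ∈ A s, f s q = ∑ z : S, f z.1 (Q z) := by
    intro f
    rw [Fintype.sum_sigma]
    apply Finset.sum_congr rfl
    intro s _
    rw [hA, Finset.sum_image (fun x _ y _ h => hAinj s h)]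
  have hBsum : ∀ f : Fin n → ℕ → ℝ, ∑ z : S, f z.1 (blk z) = ∑ s, ((Bf s).map (f s)).sum := by
    intro f
    rw [Fintype.sum_sigma]
    apply Finset.sum_congr rfl
    intro s _
    exact pos_sumB (Bf s) (f s)
  have hff : ∀ (k : ℕ) (w : ℝ) (b : ℕ), ff k w b =
      (∑ x : Fin 64, xx k (w - 1 / ((64 * b + (x : ℕ) : ℕ) : ℝ), 1 / ((64 * b + (x : ℕ) : ℕ) : ℝ))) /
        64 := by
    intro k w b
    unfold ff
    rw [pos_sum64 b (fun q => xx k (w - 1 / (q : ℝ), 1 / (q : ℝ)))]
  have hfw : ∀ (w : ℝ) (b : ℕ), fw w b =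
      (∑ x : Fin 64, (w - 1 / ((64 * b + (x : ℕ) : ℕ) : ℝ))) / 64 := by
    intro w b
    unfold fw
    rw [pos_sum64 b (fun q => (w - 1 / (q : ℝ)))]
  refine ⟨A, ?_, ?_, ?_, ?_⟩
  · intro s t hst
    rw [Finset.disjoint_left]
    intro q hqs hqt
    simp only [hA, Finset.mem_image, Finset.mem_univ, true_and] at hqs hqt
    obtain ⟨x, hx⟩ := hqs
    obtain ⟨y, hy⟩ := hqt
    have := hQinj (hx.trans hy.symm)
    exact hst (congrArg Sigma.fst this)
  · intro s q hqs
    simp only [hA, Finset.mem_image, Finset.mem_univ, true_and] at hqs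
    obtain ⟨x, rfl⟩ := hqs
    have h1 : Q ⟨s, x⟩ / 64 = blk ⟨s, x⟩ := by
      simp only [hQ]
      have := (pos ⟨s, x⟩).2
      omega
    rw [h1]
    exact hBmem s _ (hblkmem ⟨s, x⟩)
  · intro s
    rw [hA]
    simp only
    rw [Finset.card_image_of_injective _ (hAinj s), Finset.card_univ, Multiset.card_coe]
  · intro k hk
    have hbet : 0 ≤ bet K k := by
      unfold bet
      split_ifs <;> norm_num
    have hW : ∑ z : S, ((p z.1).w - 1 / (Q z : ℝ)) ≤
        ∑ z : S, fw (p z.1).w (blk z) + 3.2e9 / (K : ℝ) ^ 4 := by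
      have h1 := (abs_le.mp (hpos2 none)).2
      have h2 : 24.03 * 12.12 / wt none ≤ 3.2e9 / (K : ℝ) ^ 4 := by
        simp only [hwt]
        rw [div_div_eq_mul_div, div_le_div_iff₀ (by positivity) (by positivity)]
        have : (0 : ℝ) < (K : ℝ) ^ 4 := by positivity
        nlinarith
      have h3 : ∑ z : S, fw (p z.1).w (blk z) =
          ∑ z : S, (∑ x : Fin 64, g none z.1 (64 * blk z + (x : ℕ))) / 64 := by
        apply Finset.sum_congr rfl
        intro z _
        rw [hfw]
      rw [h3]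
      have h4 : ∑ z : S, ((p z.1).w - 1 / (Q z : ℝ)) =
          ∑ z : S, g none z.1 (64 * blk z + ((pos z : Fin 64) : ℕ)) := rfl
      rw [h4]
      linarith
    have hX : ∑ z : S, xx k ((p z.1).w - 1 / (Q z : ℝ), 1 / (Q z : ℝ)) ≤
        ∑ z : S, ff k (p z.1).w (blk z) + E2err K K' k := by
      by_cases hkR : k ∈ RR
      · have h1 := (abs_le.mp (hpos2 (some ⟨k, hkR⟩))).2
        have h0 := Finset.mem_filter.mp hkR
        have hk0 := hkpos ⟨k, hkR⟩
        simp only at hk0
        have h2 : 24.03 * 12.12 / wt (some ⟨k, hkR⟩) ≤ E2err K K' k := by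
          unfold E2err
          rw [if_pos ⟨h0.2.2.2, h0.2.2.1⟩]
          simp only [hwt]
          rw [div_div_eq_mul_div]
          apply div_le_div_of_nonneg_right _ (by positivity)
          linarith
        have h3 : ∑ z : S, ff k (p z.1).w (blk z) =
            ∑ z : S, (∑ x : Fin 64, g (some ⟨k, hkR⟩) z.1 (64 * blk z + (x : ℕ))) / 64 := by
          apply Finset.sum_congr rfl
          intro z _
          rw [hff]
        rw [h3]
        have h4 : ∑ z : S, xx k ((p z.1).w - 1 / (Q z : ℝ), 1 / (Q z : ℝ)) =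
            ∑ z : S, g (some ⟨k, hkR⟩) z.1 (64 * blk z + ((pos z : Fin 64) : ℕ)) := rfl
        rw [h4]
        linarith
      · have h1 : ∀ z : S, xx k ((p z.1).w - 1 / (Q z : ℝ), 1 / (Q z : ℝ)) = 0 := by
          intro z
          by_contra hne
          obtain ⟨h1, h2, h3, h4, h5, h6, h7⟩ := hq z.1 (blk z) (hblkmem z) (pos z) (pos z).2
          obtain ⟨h8, h9, _⟩ := child_hit h1 hk h3 h4 h5 hne
          apply hkR
          apply hRRmem k hk
          · refine h8.trans ?_
            have : ((p z.1).i : ℝ) ≤ (K' : ℝ) := by exact_mod_cast (hp z.1).hi.le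
            gcongr
          · refine le_trans ?_ h9
            have : (K : ℝ) ≤ ((p z.1).i : ℝ) + 15 := by exact_mod_cast h2
            gcongr
        rw [Finset.sum_eq_zero fun z _ => h1 z]
        have h2 : 0 ≤ ∑ z : S, ff k (p z.1).w (blk z) := by
          apply Finset.sum_nonneg
          intro z _
          rw [hff]
          apply div_nonneg _ (by norm_num)
          exact Finset.sum_nonneg fun x _ => xx_nonneg _ _
        have h3 : 0 ≤ E2err K K' k := by
          unfold E2err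
          split_ifs
          · positivity
          · exact le_rfl
        linarith
    have e1 := hAsum fun s q => xx k ((p s).w - 1 / (q : ℝ), 1 / (q : ℝ)) +
            bet K k * ((p s).w - 1 / (q : ℝ))
    have e2 := hBsum fun s b => ff k (p s).w b + bet K k * fw (p s).w b
    rw [e1, ← e2, Finset.sum_add_distrib, Finset.sum_add_distrib, ← Finset.mul_sum,
      ← Finset.mul_sum]
    have h5 := mul_le_mul_of_nonneg_left hW hbet
    rw [mul_add] at h5
    linarith

end Pool.Agent.Moser.Eng
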