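import Pool.Agent.Lib_MP_cc07e8_co.EngEE

/-!
# MP_cc07e8_co, engine piece POT: the potential of the strip pays for the gap at its end

Notation: `t = tau k > 0`, `s = x * t`, `v = y * t`, `z = 7 s / 16`, `M = cuts x y = ⌈y / (4 x)⌉ = ⌈v / (4 s)⌉`. The
values of `t * EE` are in `EngEE`; in the middle range `t EE = 12.6 z - 7.2333.. - 49.295.. / z`.
(1) `kc_le_pot`: `kc k x y ≤ pot k y` for `0 ≤ x ≤ y`. For `s < 16 / 7` `kc = 0`. Let `s ≥ 16 / 7`, so
`t * pot = 5.4 v - 1.55`. Cases: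
 a. `s < 256 / 49`: `10.76 v / s ≤ 5.4 v - 1.55`, as `v ≥ s` and `5.4 s - 10.76 ≥ 1.55` for `s ≥ 16 / 7` (`1.5829`).
 b. `M = 1`: the difference `5.4 v - 1.55 - 10.76 v / s - t EE` grows in `v`, take `v = s`. For
    `256 / 49 ≤ s ≤ 16.1` (`z ≤ 7.04375`): `10.76 + 12.6 z - 7.2333 - 49.295 / z ≤ 12.342857 z - 1.55`, i.e.
    `0.257143 z ^ 2 + 5.0767 z ≤ 49.295`. For `16.1 < s ≤ 256 / 7` (`z ≤ 16`): `0.2572 z ^ 2 ≤ 5.683 z + 49.295`.
    For `s ≥ 256 / 7`: `5.4 s - 6.2 ≤ 5.4 s - 1.55`.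
 c. `M ≥ 2`: `v > 4 (M - 1) s`. If `s ≤ 16.1`: `10.76 v / s + M t EE ≤ 5.4 v - 1.55` follows from its value at
    `v = 4 (M - 1) s` (slope in `v` positive): `(M - 1) (21.6 s - 43.04 - t EE) ≥ t EE + 1.55`; the bracket is
    positive, so `M = 2` is the worst case: `21.6 s - 43.04 - 2 t EE - 1.55 = 24.17 z - 30.2 + 98.59 / z > 0`.
    If `s > 16.1`: `t EE ≤ 5.4 s`, `(M - 1) (21.6 s - t EE) ≥ t EE + 1.55`.
-/

namespace Pool.Agent.Moser.Eng

/-- the inequality for `u = t * EE` that is needed if there is one segment -/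
private lemma pot_key {k : ℕ} (hk : 10320 ≤ k) {x : ℝ} (hx : 0 < x)
    (h1 : 256 / 49 ≤ x * (tau k : ℝ)) :
    (tau k : ℝ) * EE k x + (if x * (tau k : ℝ) ≤ 16.1 then 10.76 else 0) ≤
      5.4 * (x * (tau k : ℝ)) - 1.55 := by
  have ht : (0 : ℝ) < tau k := lt_of_lt_of_le (by norm_num) (tau_pos (i := k) (by omega))
  rcases le_or_gt (x * (tau k : ℝ)) (256 / 7) with h2 | h2
  · rw [EE_mid hk hx h1 h2]
    set s := x * (tau k : ℝ) with hs
    have hs0 : 0 < s := by linarith
    set z := 7 * s / 16 with hz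
    have hz0 : 0 < z := by positivity
    have hsz : s = 16 * z / 7 := by rw [hz]; ring
    have hz16 : z ≤ 16 := by rw [hz]; linarith
    rw [hsz]
    split_ifs with h3
    · have h4 : z ≤ 7.04375 := by rw [hz]; linarith
      rw [← le_sub_iff_add_le, div_le_iff₀ hz0]
      nlinarith
    · rw [add_zero, div_le_iff₀ hz0]
      nlinarith
  · rw [EE_far hk hx h2.le, if_neg (by linarith)]
    have : (tau k : ℝ) * (5.4 * x - 6.2 / (tau k : ℝ)) = 5.4 * (x * (tau k : ℝ)) - 6.2 := by
      field_simp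
    rw [this]
    linarith

theorem kc_le_pot {k : ℕ} (hk : 10320 ≤ k) {x y : ℝ} (hx : 0 ≤ x) (hxy : x ≤ y) :
    kc k x y ≤ pot k y := by
  have ht : (0 : ℝ) < tau k := lt_of_lt_of_le (by norm_num) (tau_pos (i := k) (by omega))
  set t : ℝ := (tau k : ℝ) with htd
  rcases lt_or_ge (x * t) (16 / 7) with h0 | h0
  · have h1 : kc k x y = 0 := by
      unfold kc
      rw [EE_small hk hx (by rw [← htd]; linarith), if_neg (by rw [← htd]; rintro ⟨h, _⟩; linarith)]
      simp
    rw [h1]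
    exact pot_nonneg k y
  have hx0 : 0 < x := by
    rcases hx.eq_or_lt with h | h
    · rw [← h] at h0; norm_num at h0
    · exact h
  have hy0 : 0 < y := by linarith
  have hsv : x * t ≤ y * t := mul_le_mul_of_nonneg_right hxy ht.le
  have hpot : pot k y = 5.4 * y - 1.55 / t := by
    unfold pot
    rw [if_pos (by rw [← htd]; linarith)]
  rw [hpot]
  -- multiply by `t`
  have hgoal : t * kc k x y ≤ 5.4 * (y * t) - 1.55 → kc k x y ≤ 5.4 * y - 1.55 / t := by
    intro h
    have h2 : t * (5.4 * y - 1.55 / t) = 5.4 * (y * t) - 1.55 := by field_simp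
    rw [← h2] at h
    exact le_of_mul_le_mul_left h ht
  apply hgoal
  have hkc : t * kc k x y = (if x * t ≤ 16.1 then 10.76 * (y * t) / (x * t) else 0) +
      (cuts x y : ℝ) * (t * EE k x) := by
    unfold kc
    rw [← htd, mul_add]
    congr 1
    · split_ifs with h1 h2 h3
      · field_simp
      · exact absurd h1.2 h2
      · exact absurd ⟨h0, h3⟩ h1
      · simp
    · ring
  rw [hkc]
  set s : ℝ := x * t with hs
  set v : ℝ := y * t with hv
  have hs0 : 0 < s := by positivity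
  have hv0 : 0 < v := by positivity
  rcases lt_or_ge s (256 / 49) with h1 | h1
  · -- case a
    rw [EE_small hk hx (by rw [← htd]; exact h1), if_pos (by norm_num at h1 ⊢; linarith)]
    have h2 : 10.76 * v / s ≤ 5.4 * v - 1.55 := by
      rw [div_le_iff₀ hs0]
      nlinarith
    simpa using h2
  have hkey := pot_key hk hx0 h1
  rw [← htd, ← hs] at hkey
  have hu0 : 0 ≤ t * EE k x := mul_nonneg ht.le (EE_nonneg k hx)
  have hu1 : t * EE k x ≤ 5.4 * s := by
    have := mul_le_mul_of_nonneg_left (EE_le k hx) ht.le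
    calc t * EE k x ≤ t * (5.4 * x) := this
      _ = 5.4 * s := by rw [hs]; ring
  set u : ℝ := t * EE k x with hu
  -- the number of segments
  have hM1 : 1 ≤ cuts x y := Nat.one_le_iff_ne_zero.mpr (Nat.ceil_pos.mpr (by positivity)).ne'
  rcases hM1.eq_or_lt with hM | hM
  · rw [← hM, Nat.cast_one, one_mul]
    split_ifs at hkey ⊢ with h2
    · have h3 : 10.76 * v / s = 10.76 + 10.76 * (v - s) / s := by
        field_simp
        ring
      have h4 : 10.76 * (v - s) / s ≤ 5.4 * (v - s) := by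
        rw [div_le_iff₀ hs0]
        nlinarith
      rw [h3]
      linarith
    · linarith
  · -- at least two segments
    have hM2 : (2 : ℝ) ≤ (cuts x y : ℝ) := by exact_mod_cast hM
    have hv4 : 4 * ((cuts x y : ℝ) - 1) * s < v := by
      have h2 : (cuts x y - 1 : ℕ) < cuts x y := by omega
      have h3 : ((cuts x y - 1 : ℕ) : ℝ) < y / (4 * x) := by
        have := Nat.lt_ceil.mp (show (cuts x y - 1 : ℕ) < ⌈y / (4 * x)⌉₊ from h2)
        exact this
      rw [Nat.cast_sub hM1, Nat.cast_one, lt_div_iff₀ (by positivity)] at h3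
      have h4 := mul_lt_mul_of_pos_right h3 ht
      calc 4 * ((cuts x y : ℝ) - 1) * s = ((cuts x y : ℝ) - 1) * (4 * x) * t := by rw [hs]; ring
        _ < y * t := h4
        _ = v := rfl
    set M : ℝ := (cuts x y : ℝ) with hMd
    have hMu : M * u ≤ M * (5.4 * s) := mul_le_mul_of_nonneg_left hu1 (by linarith)
    split_ifs with h2
    · have h3 : 10.76 * v / s + M * u ≤ 10.76 * v / s + M * (5.4 * s) := by linarith
      refine h3.trans ?_
      have h5 : 10.76 * v / s = 10.76 / s * v := by ring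
      have h6 : 10.76 / s ≤ 2.06 := by
        rw [div_le_iff₀ hs0]; nlinarith
      rw [h5]
      have h7 : (5.4 - 10.76 / s) * (4 * (M - 1) * s) ≤ (5.4 - 10.76 / s) * v :=
        mul_le_mul_of_nonneg_left hv4.le (by linarith)
      have h8 : (5.4 - 10.76 / s) * (4 * (M - 1) * s) = 4 * (M - 1) * (5.4 * s - 10.76) := by
        field_simp
      rw [h8] at h7
      nlinarith
    · nlinarith

theorem kr_le_pot {k : ℕ} (hk : 10320 ≤ k) {r : ℝ × ℝ} (h0 : 0 ≤ r.2) (h : r.2 ≤ r.1) :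
    kr k r ≤ pot k r.1 := by
  unfold kr
  rw [min_eq_right h, max_eq_left h]
  exact kc_le_pot hk h0 h

end Pool.Agent.Moser.Eng
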