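import Pool.Agent.Lib_MP_cc07e8_co.EngPos
import Pool.Agent.Lib_MP_cc07e8_co.EngFillOne

/-!
# MP_cc07e8_co, engine piece RUN: one epoch of all running strips

From `positions` and `fill_one`: index `Q` by `Fin n` (`Q.toList`), squares `A s`, for each `s` `fill_one`; sum
up (`Ref.sum`, or induction with `Ref.add`). `U` = union of the `U s` (disjoint: `∑ s, (U s).val = U.val`,
use `Finset.disjiUnion` or `Finset.sum_disjiUnion`..). Children: positive width (`child_pos`), window `≥ K'` (`child_late`).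
Row `k ≥ K'`:
children: `∑ q ∈ U s, (xx + pot) ≤ ∑ q ∈ U s, (xx + bet * width) ≤ ∑ q ∈ A s, (..)` (`child_pot`, terms
nonnegative), then `positions`; gap or rest: `pot k w` once; rest of the strip: `rowP K' k p' = pot k w +
∑ b ∈ B.filter (sig K' ≤ b), (ff + bet K' k * fw) ≤ pot k w + ∑ .. (ff + bet K k * fw)` as `bet K' k ≤ bet K k` and
`fw ≥ 0` (`child_pos` for the squares of the blocks, which are in the range). Total: `pot k w +
∑ b ∈ B, (ff + bet fw) = rowP K k p`.
-/

namespace Pool.Agent.Moser.Eng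

open Classical in
lemma bet_nonneg (K k : ℕ) : 0 ≤ bet K k := by
  unfold bet
  split_ifs <;> norm_num

open Classical in
lemma bet_anti {K K' : ℕ} (h : K ≤ K') (k : ℕ) : bet K' k ≤ bet K k := by
  by_cases h1 : (K' : ℝ) ^ 4 ≤ 21.2 * (k : ℝ) ^ 3
  · have h2 : (K : ℝ) ^ 4 ≤ 21.2 * (k : ℝ) ^ 3 := by
      refine le_trans ?_ h1
      have : (K : ℝ) ≤ K' := by exact_mod_cast h
      gcongr
    unfold bet
    rw [if_pos h1, if_pos h2]
  · have h3 : bet K' k = 0 := by
      unfold bet
      rw [if_neg h1]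
    rw [h3]
    exact bet_nonneg K k

lemma sum_add_le3 {n : ℕ} {x y z : Fin n → ℝ} {c d : ℝ} (h : ∑ s, x s ≤ ∑ s, y s + c + d) :
    ∑ s, (x s + z s) ≤ ∑ s, (y s + z s) + c + d := by
  rw [Finset.sum_add_distrib, Finset.sum_add_distrib]
  linarith

lemma map_sum_sum {ι α : Type} (t : Finset ι) (M : ι → Multiset α) (f : α → ℝ) :
    ((∑ s ∈ t, M s).map f).sum = ∑ s ∈ t, ((M s).map f).sum := by
  classical
  induction t using Finset.induction_on with
  | empty => simp
  | insert a s ha ih =>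
    rw [Finset.sum_insert ha, Finset.sum_insert ha, Multiset.map_add, Multiset.sum_add, ih]

lemma map_sum_map {ι α β : Type} (t : Finset ι) (M : ι → Multiset α) (f : α → β) :
    (∑ s ∈ t, M s).map f = ∑ s ∈ t, (M s).map f := by
  classical
  induction t using Finset.induction_on with
  | empty => simp
  | insert a s ha ih =>
    rw [Finset.sum_insert ha, Finset.sum_insert ha, Multiset.map_add, ih]

lemma slotsAt_sum {ι : Type} (t : Finset ι) (M : ι → Multiset Pend) (b : ℕ) :
    slotsAt (∑ s ∈ t, M s) b = ∑ s ∈ t, slotsAt (M s) b := by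
  classical
  induction t using Finset.induction_on with
  | empty => simp [slotsAt]
  | insert a s ha ih =>
    rw [Finset.sum_insert ha, Finset.sum_insert ha, ← ih]
    simp only [slotsAt, Multiset.map_add, Multiset.sum_add]

/-- facts about the squares of a slot of a running strip -/
lemma run_sq {K K' : ℕ} (hK : 10320 ≤ K) {p : Pend} (hp : p.Run K K') {q : ℕ}
    (hq : q / 64 ∈ p.B) :
    10305 ≤ p.i ∧ tau (p.i + 4) ≤ q ∧ q < tau (p.i + 16) ∧ tau K ≤ q ∧ 0 < q := by
  obtain ⟨h1, h2, h3⟩ := hp.blk _ hq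
  have h4 := hp.lo
  have h5 : 64 * (q / 64) ≤ q := Nat.mul_div_le q 64
  have h6 : q < 64 * (q / 64) + 64 := by omega
  have hi : 10305 ≤ p.i := by omega
  have h7 : 0 < sig K := by
    have := sig_lt (i := 10300) (j := K) le_rfl (by omega)
    omega
  refine ⟨hi, ?_, ?_, ?_, ?_⟩
  · rw [tau_eq]
    omega
  · rw [tau_eq]
    omega
  · rw [tau_eq]
    omega
  · omega

/-- nonnegativity of the averages -/
lemma run_avg {K K' : ℕ} (hK : 10320 ≤ K) {p : Pend} (hp : p.Run K K') {b : ℕ}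
    (hb : b ∈ p.B) (k : ℕ) : 0 ≤ ff k p.w b ∧ 0 ≤ fw p.w b := by
  constructor
  · unfold ff
    exact div_nonneg (Finset.sum_nonneg (fun q _ => xx_nonneg _ _)) (by norm_num)
  · unfold fw
    refine div_nonneg (Finset.sum_nonneg (fun q hq => ?_)) (by norm_num)
    rw [Finset.mem_Ico] at hq
    have hqb : q / 64 = b := by omega
    obtain ⟨hi, h1, h2, h3, h4⟩ := run_sq hK hp (q := q) (by rw [hqb]; exact hb)
    exact (child_pos hi hp.win h1).le

/-- the row estimate for one strip -/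
lemma run_one {K K' : ℕ} (hK : 10320 ≤ K) (hKK : K < K') {p : Pend} (hp : p.Run K K')
    {A U : Finset ℕ} {g : Multiset (ℝ × ℝ)} {P' : Multiset Pend}
    (hA : ∀ q ∈ A, q / 64 ∈ p.B ∧ q / 64 < sig K') (hUA : U ⊆ A)
    (hc : (g = 0 ∧ ∃ l', P' = {⟨p.w, l', p.i, p.B.filter fun b => sig K' ≤ b⟩}) ∨
        (P' = 0 ∧ ∃ r, g = {(p.w, r)})) (k : ℕ) :
    ((U.val.map (fun q : ℕ => (p.w - 1 / (q : ℝ), 1 / (q : ℝ)))).map
        fun r => xx k r + pot k r.1).sum + (g.map fun r => pot k r.1).sum +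
          (P'.map (rowP K' k)).sum ≤
      ∑ q ∈ A, (xx k (p.w - 1 / (q : ℝ), 1 / (q : ℝ)) + bet K k * (p.w - 1 / (q : ℝ))) +
        (pot k p.w + ((p.B.filter fun b => ¬ b < sig K').map
          fun b => ff k p.w b + bet K k * fw p.w b).sum) := by
  have hb0 := bet_nonneg K k
  have h1 : ((U.val.map (fun q : ℕ => (p.w - 1 / (q : ℝ), 1 / (q : ℝ)))).map
        fun r => xx k r + pot k r.1).sum ≤
      ∑ q ∈ A, (xx k (p.w - 1 / (q : ℝ), 1 / (q : ℝ)) + bet K k * (p.w - 1 / (q : ℝ))) := by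
    rw [Multiset.map_map]
    have h2 : (U.val.map ((fun r : ℝ × ℝ => xx k r + pot k r.1) ∘
        (fun q : ℕ => (p.w - 1 / (q : ℝ), 1 / (q : ℝ))))).sum =
        ∑ q ∈ U, (xx k (p.w - 1 / (q : ℝ), 1 / (q : ℝ)) + pot k (p.w - 1 / (q : ℝ))) := rfl
    rw [h2]
    calc ∑ q ∈ U, (xx k (p.w - 1 / (q : ℝ), 1 / (q : ℝ)) + pot k (p.w - 1 / (q : ℝ)))
        ≤ ∑ q ∈ U, (xx k (p.w - 1 / (q : ℝ), 1 / (q : ℝ)) + bet K k * (p.w - 1 / (q : ℝ))) := by
          refine Finset.sum_le_sum (fun q hq => ?_)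
          obtain ⟨hi, h3, h4, h5, h6⟩ := run_sq hK hp (hA q (hUA hq)).1
          have := child_pot (k := k) hi hK hp.lo hp.win h3 h4
          linarith
      _ ≤ _ := by
          refine Finset.sum_le_sum_of_subset_of_nonneg hUA (fun q hq _ => ?_)
          obtain ⟨hi, h3, h4, h5, h6⟩ := run_sq hK hp (hA q hq).1
          exact add_nonneg (xx_nonneg _ _) (mul_nonneg hb0 (child_pos hi hp.win h3).le)
  have h7 : (g.map fun r => pot k r.1).sum + (P'.map (rowP K' k)).sum ≤
      pot k p.w + ((p.B.filter fun b => ¬ b < sig K').map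
          fun b => ff k p.w b + bet K k * fw p.w b).sum := by
    rcases hc with ⟨hg, l', hP⟩ | ⟨hP, r, hg⟩
    · rw [hg, hP]
      simp only [Multiset.map_zero, Multiset.sum_zero, Multiset.map_singleton,
        Multiset.sum_singleton, zero_add, rowP]
      have h8 : (p.B.filter fun b => ¬ b < sig K') = (p.B.filter fun b => sig K' ≤ b) :=
        Multiset.filter_congr (fun b _ => not_lt)
      rw [h8]
      refine add_le_add_right ?_ _
      refine Multiset.sum_map_le_sum_map _ _ (fun b hb => ?_)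
      have h9 := run_avg hK hp (Multiset.mem_of_mem_filter hb) k
      have h10 := mul_le_mul_of_nonneg_right (bet_anti hKK.le k) h9.2
      linarith
    · rw [hg, hP]
      simp only [Multiset.map_zero, Multiset.sum_zero, Multiset.map_singleton,
        Multiset.sum_singleton, add_zero]
      refine le_add_of_nonneg_right (Multiset.sum_nonneg ?_)
      intro x hx
      rw [Multiset.mem_map] at hx
      obtain ⟨b, hb, rfl⟩ := hx
      have h9 := run_avg hK hp (Multiset.mem_of_mem_filter hb) k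
      exact add_nonneg h9.1 (mul_nonneg hb0 h9.2)
  linarith

theorem run_epoch {K K' : ℕ} (hK : 10320 ≤ K) (hKK : K < K') (hKK2 : 4 * K' ≤ 5 * K)
    (Q : Multiset Pend) (hQ : ∀ p ∈ Q, p.Run K K') (hcap : ∀ b, b < sig K' → slotsAt Q b ≤ 64) :
    ∃ (U : Finset ℕ) (Ch Gap : Multiset (ℝ × ℝ)) (P' : Multiset Pend),
      (∀ q ∈ U, tau K ≤ q ∧ q < tau K') ∧
      Ref (Q.map Pend.rect) U.val (Ch + Gap + P'.map Pend.rect) ∧
      (∀ r ∈ Ch, 0 < r.1 ∧ (tau K' : ℝ) * r.1 ≤ 1 ∧ 0 ≤ r.2) ∧
      (∀ r ∈ Gap, 0 ≤ r.2 ∧ r.2 ≤ r.1 ∧ (tau K : ℝ) * r.2 ≤ 1 ∧ 0 < r.1) ∧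
      (∀ p ∈ P', p.Run K' K') ∧ (∀ b, sig K' ≤ b → slotsAt P' b ≤ slotsAt Q b) ∧
      ∀ k : ℕ, K' ≤ k → (Ch.map fun r => xx k r + pot k r.1).sum + (Gap.map fun r => pot k r.1).sum +
          (P'.map (rowP K' k)).sum ≤
        (Q.map (rowP K k)).sum + E2err K K' k + bet K k * (3.2e9 / (K : ℝ) ^ 4) := by
  obtain ⟨n, p, rfl⟩ : ∃ (n : ℕ) (p : Fin n → Pend), Q = (Finset.univ : Finset (Fin n)).val.map p := by
    refine ⟨Q.toList.length, Q.toList.get, ?_⟩
    rw [Fin.univ_val_map, List.ofFn_get, Multiset.coe_toList]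
  have hp : ∀ s, (p s).Run K K' := fun s =>
    hQ _ (Multiset.mem_map_of_mem p (Finset.mem_univ s))
  have hslots : ∀ b, slotsAt ((Finset.univ : Finset (Fin n)).val.map p) b =
      ∑ s, (p s).B.count b := by
    intro b
    unfold slotsAt
    rw [Multiset.map_map]
    rfl
  obtain ⟨A, hAdisj, hA, hAcard, hArow⟩ := positions hK hKK p hp
    (fun b hb => by rw [← hslots b]; exact hcap b hb)
  choose U g P' hUA href hcase hgap hrun using fun s =>
    fill_one hK hKK hKK2 (p s) (hp s) (A s) (hA s) (hAcard s)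
  have hUdisj : Set.PairwiseDisjoint (↑(Finset.univ : Finset (Fin n))) U := by
    intro s _ t _ hst
    exact Finset.disjoint_of_subset_left (hUA s)
      (Finset.disjoint_of_subset_right (hUA t) (hAdisj s t hst))
  refine ⟨Finset.univ.disjiUnion U hUdisj,
    ∑ s, (U s).val.map (fun q : ℕ => ((p s).w - 1 / (q : ℝ), 1 / (q : ℝ))), ∑ s, g s, ∑ s, P' s,
    ?_, ?_, ?_, ?_, ?_, ?_, ?_⟩
  · intro q hq
    rw [Finset.mem_disjiUnion] at hq
    obtain ⟨s, _, hqs⟩ := hq
    obtain ⟨h1, h2⟩ := hA s q (hUA s hqs)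
    obtain ⟨hi, h3, h4, h5, h6⟩ := run_sq hK (hp s) h1
    refine ⟨h5, ?_⟩
    rw [tau_eq]
    omega
  · have h1 := Ref.sum Finset.univ (fun s => ({(p s).rect} : Multiset (ℝ × ℝ)))
      (fun s => (U s).val.map (fun q : ℕ => ((p s).w - 1 / (q : ℝ), 1 / (q : ℝ))) + g s +
        (P' s).map Pend.rect) (fun s => (U s).val) (fun s _ => href s)
    have h2 : (((Finset.univ : Finset (Fin n)).val.map p).map Pend.rect) =
        ∑ s, ({(p s).rect} : Multiset (ℝ × ℝ)) := by
      rw [Multiset.map_map, ← Multiset.sum_map_singleton (Multiset.map _ _), Multiset.map_map]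
      rfl
    have h3 : (Finset.univ.disjiUnion U hUdisj).val = ∑ s, (U s).val := rfl
    rw [h2, h3]
    rw [Finset.sum_add_distrib, Finset.sum_add_distrib, ← map_sum_map] at h1
    exact h1
  · intro r hr
    rw [Multiset.mem_sum] at hr
    obtain ⟨s, _, hr⟩ := hr
    rw [Multiset.mem_map] at hr
    obtain ⟨q, hq, rfl⟩ := hr
    obtain ⟨hi, h3, h4, h5, h6⟩ := run_sq hK (hp s) (hA s q (hUA s hq)).1
    exact ⟨child_pos hi (hp s).win h3, child_late hi hK (hp s).lo hKK2 (hp s).win h6 h4,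
      by positivity⟩
  · intro r hr
    rw [Multiset.mem_sum] at hr
    obtain ⟨s, _, hr⟩ := hr
    obtain ⟨h1, h2, h3⟩ := hgap s r hr
    refine ⟨h1, h2, h3, ?_⟩
    rcases hcase s with ⟨hg, _⟩ | ⟨_, r', hg⟩
    · rw [hg] at hr
      exact absurd hr (Multiset.notMem_zero r)
    · rw [hg, Multiset.mem_singleton] at hr
      rw [hr]
      exact InW_pos (hp s).win
  · intro p' hp'
    rw [Multiset.mem_sum] at hp'
    obtain ⟨s, _, hs⟩ := hp'
    exact hrun s p' hs
  · intro b _
    rw [slotsAt_sum, hslots]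
    refine Finset.sum_le_sum (fun s _ => ?_)
    rcases hcase s with ⟨_, l', hP⟩ | ⟨hP, _⟩
    · rw [hP]
      simp only [slotsAt, Multiset.map_singleton, Multiset.sum_singleton]
      exact Multiset.count_le_of_le _ (Multiset.filter_le _ _)
    · rw [hP]
      simp [slotsAt]
  · intro k hk
    rw [map_sum_sum, map_sum_sum, map_sum_sum, ← Finset.sum_add_distrib,
      ← Finset.sum_add_distrib]
    have h1 := Finset.sum_le_sum (s := (Finset.univ : Finset (Fin n))) (fun s _ =>
      run_one hK hKK (hp s) (hA s) (hUA s) (hcase s) k)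
    have h2 := hArow k (by omega)
    have h3 : (((Finset.univ : Finset (Fin n)).val.map p).map (rowP K k)).sum =
        ∑ s, rowP K k (p s) := by
      rw [Multiset.map_map]
      rfl
    have h4 : ∀ s, rowP K k (p s) =
        (((p s).B.filter fun b => b < sig K').map fun b =>
            ff k (p s).w b + bet K k * fw (p s).w b).sum +
        (pot k (p s).w + (((p s).B.filter fun b => ¬ b < sig K').map
          fun b => ff k (p s).w b + bet K k * fw (p s).w b).sum) := by
      intro s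
      have h5 : ((p s).B.map fun b => ff k (p s).w b + bet K k * fw (p s).w b).sum =
          (((p s).B.filter fun b => b < sig K').map fun b =>
            ff k (p s).w b + bet K k * fw (p s).w b).sum +
          (((p s).B.filter fun b => ¬ b < sig K').map
          fun b => ff k (p s).w b + bet K k * fw (p s).w b).sum := by
        rw [← Multiset.sum_add, ← Multiset.map_add, Multiset.filter_add_not]
      unfold rowP
      rw [h5]
      ring
    rw [h3, Finset.sum_congr rfl (fun s _ => h4 s)]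
    exact h1.trans (sum_add_le3 h2)

end Pool.Agent.Moser.Eng
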