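import Pool.Agent.Lib_MP_cc07e8_co.EngAssign
import Pool.Agent.Lib_MP_cc07e8_co.EngRun

/-!
# MP_cc07e8_co, engine piece SERVICE: one epoch of the strips

`A` = active strips, `P` = pending strips. `assign` gives `Q0` for `A`; apply `run_epoch` to `Q = P + Q0`
(`p.Run K K` for `p ∈ P` implies `p.Run K K'`). Capacity: `slotsAt (P + Q0) b ≤ (64 Lp k + 2) + (64 XX k A + 2) ≤
64 * 0.88 + 4 ≤ 64` for `b` of a window `k ∈ [K, K')`; every `b` with `sig K ≤ b < sig K'` is in such a window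
(`k` = greatest with `sig k ≤ b`), and blocks `< sig K` have no slots (`Run.blk`).
`cap`: for `b` of a window `k ≥ K'` the strips of `P` have no slot at `b`: `b < sig (i + 16) ≤ sig (K + 15) ≤ sig K'`
(`K + 15 ≤ K'` since `4 κ' ≥ 5 κ - 3`). Rows: add the rows of `assign` and `run_epoch`: `rowP K k p = pot k p.w + ..`;
`54760 + 218800 ≤ 273600`, `8e8 + 3.2e9 = 4e9`; `∑ p ∈ Q0, pot k p.w = ∑ r ∈ A, pot k r.1`.
-/

namespace Pool.Agent.Moser.Eng

private theorem slotsAt_add (P Q : Multiset Pend) (b : ℕ) :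
    slotsAt (P + Q) b = slotsAt P b + slotsAt Q b := by
  unfold slotsAt
  rw [Multiset.map_add, Multiset.sum_add]

private theorem slotsAt_eq_zero {P : Multiset Pend} {b : ℕ} (h : ∀ p ∈ P, b ∉ p.B) :
    slotsAt P b = 0 := by
  unfold slotsAt
  refine Multiset.sum_eq_zero fun x hx => ?_
  obtain ⟨p, hp, rfl⟩ := Multiset.mem_map.1 hx
  exact Multiset.count_eq_zero.2 (h p hp)

private theorem window_exists {K K' b : ℕ} (h1 : sig K ≤ b) (h2 : b < sig K') :
    ∃ k, K ≤ k ∧ k < K' ∧ sig k ≤ b ∧ b < sig (k + 1) := by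
  have hex : ∃ n, b < sig n := ⟨K', h2⟩
  have e1 : b < sig (Nat.find hex) := Nat.find_spec hex
  have e2 : Nat.find hex ≤ K' := Nat.find_min' hex h2
  have e3 : K < Nat.find hex := by
    by_contra hc
    have := sig_mono (show Nat.find hex ≤ K by omega)
    omega
  have e4 : ¬ b < sig (Nat.find hex - 1) := Nat.find_min hex (by omega)
  refine ⟨Nat.find hex - 1, by omega, by omega, by omega, ?_⟩
  rw [Nat.sub_add_cancel (by omega)]
  exact e1

private theorem err_add (K K' k : ℕ) : E1err K K' k + E2err K K' k ≤ Eerr K K' k := by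
  unfold E1err E2err Eerr
  split_ifs
  · have h : 0 ≤ (k : ℝ) / (K : ℝ) ^ 3 := by positivity
    rw [mul_div_assoc, mul_div_assoc, mul_div_assoc]
    linarith
  · linarith

theorem service {κ κ' : ℕ} (hκ : 860 ≤ κ) (hκ' : κ' = 5 * κ / 4)
    (A : Multiset (ℝ × ℝ)) (P : Multiset Pend) (Lp : ℕ → ℝ)
    (hA : ∀ r ∈ A, (tau (12 * κ) : ℝ) * r.1 ≤ 1 ∧ ¬ (tau (12 * κ') : ℝ) * r.1 ≤ 1 ∧ 0 ≤ r.2)
    (hP : ∀ p ∈ P, p.Run (12 * κ) (12 * κ))
    (hcapP : ∀ k b : ℕ, 12 * κ ≤ k → sig k ≤ b → b < sig (k + 1) →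
      (slotsAt P b : ℝ) ≤ 64 * Lp k + 2)
    (hload : ∀ k : ℕ, 12 * κ ≤ k → k < 12 * κ' → Lp k + XX k A ≤ 0.88)
    (hload2 : ∀ j ∈ Finset.Ico κ κ', XX (12 * j + 15) A ≤ 0.88) :
    ∃ (U : Finset ℕ) (Ch Gap : Multiset (ℝ × ℝ)) (P' : Multiset Pend),
      (∀ q ∈ U, tau (12 * κ) ≤ q ∧ q < tau (12 * κ')) ∧
      Ref (A + P.map Pend.rect) U.val (Ch + Gap + P'.map Pend.rect) ∧
      (∀ r ∈ Ch, 0 < r.1 ∧ (tau (12 * κ') : ℝ) * r.1 ≤ 1 ∧ 0 ≤ r.2) ∧
      (∀ r ∈ Gap, 0 ≤ r.2 ∧ r.2 ≤ r.1 ∧ (tau (12 * κ) : ℝ) * r.2 ≤ 1 ∧ 0 < r.1) ∧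
      (∀ p ∈ P', p.Run (12 * κ') (12 * κ')) ∧
      (∀ k b : ℕ, 12 * κ' ≤ k → sig k ≤ b → b < sig (k + 1) →
        (slotsAt P' b : ℝ) ≤ 64 * XX k A + 2) ∧
      ∀ k : ℕ, 12 * κ' ≤ k →
        (Ch.map fun r => xx k r + pot k r.1).sum + (Gap.map fun r => pot k r.1).sum +
          (P'.map (rowP (12 * κ') k)).sum ≤
        (A.map fun r => pot k r.1).sum + (P.map (rowP (12 * κ) k)).sum + YY k A +
          bet (12 * κ) k * births κ κ' + Eerr (12 * κ) (12 * κ') k := by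
  have h1 : κ < κ' := by omega
  have h2 : 4 * κ' ≤ 5 * κ := by omega
  obtain ⟨Q0, hrect, hrun, hcap0, hrow0⟩ := assign hκ h1 h2 A hA hload2
  have hK : 10320 ≤ 12 * κ := by omega
  have hQ : ∀ p ∈ P + Q0, p.Run (12 * κ) (12 * κ') := by
    intro p hp
    rcases Multiset.mem_add.1 hp with hp | hp
    · have h := hP p hp
      exact ⟨h.win, h.lo, by have := h.hi; omega, h.len, h.blk, h.slot⟩
    · exact (hrun p hp).1
  have hcap : ∀ b, b < sig (12 * κ') → slotsAt (P + Q0) b ≤ 64 := by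
    intro b hb
    by_cases hb1 : sig (12 * κ) ≤ b
    · obtain ⟨k, hk1, hk2, hk3, hk4⟩ := window_exists hb1 hb
      have e1 := hcapP k b hk1 hk3 hk4
      have e2 := hcap0 k b (by omega) hk3 hk4
      have e3 := hload k hk1 hk2
      have e4 : (slotsAt (P + Q0) b : ℝ) ≤ 64 := by
        rw [slotsAt_add]
        push_cast
        linarith
      exact_mod_cast e4
    · rw [slotsAt_eq_zero]
      · omega
      · intro p hp hbp
        exact hb1 ((hQ p hp).blk b hbp).1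
  obtain ⟨U, Ch, Gap, P', hU, href, hCh, hGap, hP', hs, hrow⟩ :=
    run_epoch hK (by omega) (by omega) (P + Q0) hQ hcap
  refine ⟨U, Ch, Gap, P', hU, ?_, hCh, hGap, hP', ?_, ?_⟩
  · rw [Multiset.map_add, hrect, add_comm (P.map Pend.rect) A] at href
    exact href
  · intro k b hk hb1 hb2
    have e1 : slotsAt P' b ≤ slotsAt (P + Q0) b := hs b ((sig_mono hk).trans hb1)
    have e2 : slotsAt P b = 0 := by
      refine slotsAt_eq_zero fun p hp hbp => ?_
      have e3 := ((hP p hp).blk b hbp).2.2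
      have e4 := (hP p hp).hi
      have e5 : sig (p.i + 16) ≤ sig (12 * κ') := sig_mono (by omega)
      have e6 := sig_mono hk
      omega
    rw [slotsAt_add, e2, zero_add] at e1
    have e7 := hcap0 k b (by omega) hb1 hb2
    have e8 : (slotsAt P' b : ℝ) ≤ slotsAt Q0 b := by exact_mod_cast e1
    linarith
  · intro k hk
    have e1 := hrow k hk
    have e2 := hrow0 k hk
    rw [Multiset.map_add, Multiset.sum_add] at e1
    have e3 : (Q0.map (rowP (12 * κ) k)).sum = (A.map fun r => pot k r.1).sum +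
        (Q0.map fun p => (p.B.map fun b => ff k p.w b + bet (12 * κ) k * fw p.w b).sum).sum := by
      rw [← hrect, Multiset.map_map, ← Multiset.sum_map_add]
      rfl
    have e4 := err_add (12 * κ) (12 * κ') k
    have e5 : bet (12 * κ) k * births κ κ' = bet (12 * κ) k *
            (∑ j ∈ Finset.Ico κ κ', 6.66 / (j : ℝ) ^ 2 + 8e8 / (12 * (κ : ℝ)) ^ 4) +
          bet (12 * κ) k * (3.2e9 / ((12 * κ : ℕ) : ℝ) ^ 4) := by
      unfold births
      push_cast
      ring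
    rw [e5]
    linarith

end Pool.Agent.Moser.Eng
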