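import Pool.Agent.Lib_MP_cc07e8_co.EngMaster

/-!
# MP_cc07e8_co, engine piece SPLIT: halving the blocks

Slots `s` in blocks `blk s`, at most `2 M` per block, two values `v r s false`, `v r s true` for every row.
We choose a half for every slot so that every half block gets at most `M` slots and every row keeps its
average value up to `4.005 * D / wt r`.

Proof. Number the slots of each block `0, 1, ..` (rank `rk s`, `rk s < card (block) ≤ 2 M`, for instance via an
enumeration `e : S ≃ Fin n` and `rk s = card {s' | blk s' = blk s ∧ e s' < e s}`). Item = pair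
`(blk s, rk s / 2)` (a finite set of items, each has one or two slots). Options `Bool`: for option `o` the slot
`s` goes to the half `xor (rk s % 2 = 1) o`. Then every half of a block gets at most one slot from each
pair, so at most `M` (the ranks `/ 2` are `< M`). Apply `master` with the centred coefficients
`a r ι o = ∑ (s in item ι), (v r s (h s o) - v r s (! h s o)) / 2`: the average over `o` is `0`;
`∑ r, wt r * |a r ι o| ≤ ∑ (s in item), (∑ r, wt r (v r s true + v r s false)) / 2 ≤ 2 * (2 D) / 2 = 2 D`. With
`lam r = wt r / (4.005 * D)`, `th r = 4.005 * D / wt r` the hypotheses of `master` hold (`2 / 4.005 < 1 / 2`).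
Finally `∑ s, v r s (h s) - ∑ s, (v r s false + v r s true) / 2 = ∑ items, a r ι (f ι)`.
-/

namespace Pool.Agent.Moser.Eng

namespace Split

/-- the slots of each block can be numbered -/
theorem exists_rank {S : Type} [Fintype S] (blk : S → ℕ) (N : ℕ)
    (hcap : ∀ b, (Finset.univ.filter fun s => blk s = b).card ≤ N) :
    ∃ rk : S → ℕ, (∀ s, rk s < N) ∧ ∀ s s', blk s = blk s' → rk s = rk s' → s = s' := by
  classical
  let e := Fintype.equivFin S
  refine ⟨fun s => (Finset.univ.filter fun s' => blk s' = blk s ∧ e s' < e s).card, ?_, ?_⟩
  · intro s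
    refine lt_of_lt_of_le ?_ (hcap (blk s))
    apply Finset.card_lt_card
    refine ⟨?_, ?_⟩
    · intro x hx
      rw [Finset.mem_filter] at hx ⊢
      exact ⟨hx.1, hx.2.1⟩
    · intro hcon
      have h1 : s ∈ Finset.univ.filter fun s' => blk s' = blk s := by simp
      have h2 := hcon h1
      rw [Finset.mem_filter] at h2
      exact lt_irrefl _ h2.2.2
  · have key : ∀ s s', blk s = blk s' → e s < e s' →
        (Finset.univ.filter fun x => blk x = blk s ∧ e x < e s).card <
          (Finset.univ.filter fun x => blk x = blk s' ∧ e x < e s').card := by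
      intro s s' hb hlt
      apply Finset.card_lt_card
      refine ⟨?_, ?_⟩
      · intro x hx
        rw [Finset.mem_filter] at hx ⊢
        exact ⟨hx.1, hx.2.1.trans hb, hx.2.2.trans hlt⟩
      · intro hcon
        have h1 : s ∈ Finset.univ.filter fun x => blk x = blk s' ∧ e x < e s' := by
          rw [Finset.mem_filter]
          exact ⟨Finset.mem_univ _, hb, hlt⟩
        have h2 := hcon h1
        rw [Finset.mem_filter] at h2
        exact lt_irrefl _ h2.2.2
    intro s s' hb hr
    rcases lt_trichotomy (e s) (e s') with h | h | h
    · exact absurd hr (key s s' hb h).ne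
    · exact e.injective h
    · exact absurd hr (key s' s hb.symm h).ne'

theorem parity_inj {c : Bool} {f : Bool} {m n : ℕ} (h1 : xor (decide (m % 2 = 1)) f = c)
    (h2 : xor (decide (n % 2 = 1)) f = c) (h3 : m / 2 = n / 2) : m = n := by
  have h4 : decide (m % 2 = 1) = decide (n % 2 = 1) := by
    rw [← h2] at h1
    exact Bool.xor_left_inj.1 h1
  have h5 : (m % 2 = 1) ↔ (n % 2 = 1) := decide_eq_decide.1 h4
  omega

end Split

theorem split_half {S R : Type} [Fintype S] [Fintype R] (blk : S → ℕ) (M : ℕ)
    (hcap : ∀ b, (Finset.univ.filter fun s => blk s = b).card ≤ 2 * M)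
    (v : R → S → Bool → ℝ) (hv : ∀ r s h, 0 ≤ v r s h) (wt : R → ℝ) (hwt : ∀ r, 0 < wt r)
    (D : ℝ) (hD : 0 < D) (hsum : ∀ s h, ∑ r, wt r * v r s h ≤ D) :
    ∃ h : S → Bool, (∀ b c, (Finset.univ.filter fun s => blk s = b ∧ h s = c).card ≤ M) ∧
      ∀ r, |∑ s, v r s (h s) - ∑ s, (v r s false + v r s true) / 2| ≤ 4.005 * D / wt r := by
  classical
  obtain ⟨rk, hrk, hinj⟩ := Split.exists_rank blk (2 * M) hcap
  let I : Finset (ℕ × ℕ) := Finset.univ.image fun s => (blk s, rk s / 2)
  let key : S → I := fun s => ⟨(blk s, rk s / 2), Finset.mem_image_of_mem _ (Finset.mem_univ s)⟩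
  have hkey : ∀ s s', key s = key s' ↔ blk s = blk s' ∧ rk s / 2 = rk s' / 2 := by
    intro s s'
    constructor
    · intro h
      have h1 := congrArg Subtype.val h
      exact ⟨congrArg Prod.fst h1, congrArg Prod.snd h1⟩
    · intro h
      exact Subtype.ext (Prod.ext h.1 h.2)
  let hf : S → Bool → Bool := fun s o => xor (decide (rk s % 2 = 1)) o
  let a : R → I → Bool → ℝ := fun r i o =>
    ∑ s ∈ Finset.univ.filter fun s => key s = i, (v r s (hf s o) - v r s (!(hf s o))) / 2
  have hden : 0 < 4.005 * D := by positivity
  -- each item has at most two slots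
  have hitem : ∀ i : I, (Finset.univ.filter fun s => key s = i).card ≤ 2 := by
    intro i
    have h1 : (Finset.univ.filter fun s => key s = i).card ≤ (Finset.range 2).card := by
      apply Finset.card_le_card_of_injOn (fun s => rk s % 2)
      · intro s _
        simp only [Finset.coe_range, Set.mem_Iio]
        exact Nat.mod_lt _ (by norm_num)
      · intro s hs s' hs' hm
        have hs1 : key s = i := by simpa using hs
        have hs2 : key s' = i := by simpa using hs'
        have h2 := (hkey s s').1 (hs1.trans hs2.symm)
        have h3 : rk s % 2 = rk s' % 2 := hm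
        exact hinj s s' h2.1 (by omega)
    simpa using h1
  have habs : ∀ r i o, |a r i o| ≤ ∑ s ∈ Finset.univ.filter fun s => key s = i,
      (v r s true + v r s false) / 2 := by
    intro r i o
    refine (Finset.abs_sum_le_sum_abs _ _).trans ?_
    apply Finset.sum_le_sum
    intro s _
    have h1 := hv r s true
    have h2 := hv r s false
    rw [abs_le]
    rcases Bool.eq_false_or_eq_true (hf s o) with h | h
    · rw [h]
      simp only [Bool.not_true]
      constructor <;> linarith
    · rw [h]
      simp only [Bool.not_false]
      constructor <;> linarith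
  obtain ⟨f, -, hf2⟩ := master (fun _ : I => (Finset.univ : Finset Bool))
    (fun _ => Finset.univ_nonempty) a (fun r => wt r / (4.005 * D)) (fun r => 4.005 * D / wt r)
    (fun r => (div_pos (hwt r) hden).le)
    (by
      intro r Φ _ h
      have h1 : 4.005 * D / wt r < ∑ p ∈ Φ, |a r p.1 p.2| := h
      rw [div_lt_iff₀ (hwt r)] at h1
      rw [div_mul_eq_mul_div, le_div_iff₀ hden, one_mul, mul_comm (wt r)]
      exact h1.le)
    (by
      intro i o _
      have h1 : ∑ r, wt r / (4.005 * D) * |a r i o| ≤ ∑ r, wt r / (4.005 * D) *
          ∑ s ∈ Finset.univ.filter fun s => key s = i, (v r s true + v r s false) / 2 := by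
        apply Finset.sum_le_sum
        intro r _
        exact mul_le_mul_of_nonneg_left (habs r i o) (div_pos (hwt r) hden).le
      have h2 : ∑ r, wt r / (4.005 * D) *
          ∑ s ∈ Finset.univ.filter (fun s => key s = i), (v r s true + v r s false) / 2 =
          (∑ s ∈ Finset.univ.filter (fun s => key s = i), ((∑ r, wt r * v r s true) +
            ∑ r, wt r * v r s false) / 2) / (4.005 * D) := by
        rw [Finset.sum_div]
        have h3 : ∀ r, wt r / (4.005 * D) *
          ∑ s ∈ Finset.univ.filter (fun s => key s = i), (v r s true + v r s false) / 2 =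
            ∑ s ∈ Finset.univ.filter (fun s => key s = i),
              wt r / (4.005 * D) * ((v r s true + v r s false) / 2) := fun r => Finset.mul_sum _ _ _
        rw [Finset.sum_congr rfl fun r _ => h3 r, Finset.sum_comm]
        apply Finset.sum_congr rfl
        intro s _
        rw [← Finset.sum_add_distrib, Finset.sum_div, Finset.sum_div]
        apply Finset.sum_congr rfl
        intro r _
        ring
      have h4 : ∑ s ∈ Finset.univ.filter (fun s => key s = i), ((∑ r, wt r * v r s true) +
            ∑ r, wt r * v r s false) / 2 ≤ 2 * D := by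
        have h5 : ∑ s ∈ Finset.univ.filter (fun s => key s = i), ((∑ r, wt r * v r s true) +
            ∑ r, wt r * v r s false) / 2 ≤
            (Finset.univ.filter (fun s => key s = i)).card • D := by
          apply Finset.sum_le_card_nsmul
          intro s _
          have := hsum s true
          have := hsum s false
          linarith
        refine h5.trans ?_
        rw [nsmul_eq_mul]
        have h6 : ((Finset.univ.filter (fun s => key s = i)).card : ℝ) ≤ 2 := by
          exact_mod_cast hitem i
        exact mul_le_mul_of_nonneg_right h6 hD.le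
      rw [h2] at h1
      refine h1.trans_lt ?_
      rw [div_lt_iff₀ hden]
      linarith)
  refine ⟨fun s => hf s (f (key s)), ?_, ?_⟩
  · intro b c
    have h1 : (Finset.univ.filter fun s => blk s = b ∧ hf s (f (key s)) = c).card ≤
        (Finset.range M).card := by
      apply Finset.card_le_card_of_injOn (fun s => rk s / 2)
      · intro s _
        simp only [Finset.coe_range, Set.mem_Iio]
        have := hrk s
        omega
      · intro s hs s' hs' hm
        have hs1 : blk s = b ∧ hf s (f (key s)) = c := by simpa using hs
        have hs2 : blk s' = b ∧ hf s' (f (key s')) = c := by simpa using hs'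
        have h3 : rk s / 2 = rk s' / 2 := hm
        have h4 : key s = key s' := (hkey s s').2 ⟨hs1.1.trans hs2.1.symm, h3⟩
        have h5 := hs1.2
        rw [h4] at h5
        exact hinj s s' (hs1.1.trans hs2.1.symm) (Split.parity_inj h5 hs2.2 h3)
    simpa using h1
  · intro r
    have h1 := hf2 r
    have hzero : ∑ i : I, (∑ o ∈ (Finset.univ : Finset Bool), a r i o) /
        ((Finset.univ : Finset Bool).card : ℝ) = 0 := by
      apply Finset.sum_eq_zero
      intro i _
      have h2 : ∑ o ∈ (Finset.univ : Finset Bool), a r i o = 0 := by
        rw [Fintype.sum_bool]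
        simp only [a]
        rw [← Finset.sum_add_distrib]
        apply Finset.sum_eq_zero
        intro s _
        simp only [hf]
        rcases Bool.eq_false_or_eq_true (decide (rk s % 2 = 1)) with h | h
        · rw [h]; simp only [Bool.xor_true, Bool.xor_false, Bool.not_true, Bool.not_false]; ring
        · rw [h]; simp only [Bool.xor_true, Bool.xor_false, Bool.not_true, Bool.not_false]; ring
      rw [h2, zero_div]
    rw [hzero, sub_zero] at h1
    have h3 : ∑ i : I, a r i (f i) = ∑ s, v r s (hf s (f (key s))) -
        ∑ s, (v r s false + v r s true) / 2 := by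
      have h4 : ∀ i : I, a r i (f i) = ∑ s ∈ Finset.univ.filter fun s => key s = i,
          (v r s (hf s (f (key s))) - v r s (!(hf s (f (key s))))) / 2 := by
        intro i
        apply Finset.sum_congr rfl
        intro s hs
        rw [Finset.mem_filter] at hs
        rw [hs.2]
      rw [Finset.sum_congr rfl fun i _ => h4 i]
      rw [Finset.sum_fiberwise (s := Finset.univ) (g := key)
        (f := fun s => (v r s (hf s (f (key s))) - v r s (!(hf s (f (key s))))) / 2)]
      rw [← Finset.sum_sub_distrib]
      apply Finset.sum_congr rfl
      intro s _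
      rcases Bool.eq_false_or_eq_true (hf s (f (key s))) with h | h
      · rw [h]; simp only [Bool.not_true]; ring
      · rw [h]; simp only [Bool.not_false]; ring
    rw [← h3]
    exact h1

end Pool.Agent.Moser.Eng
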