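import Pool.Agent.Lib_MP_cc07e8_co.EngThinA

/-!
# MP_cc07e8_co, engine piece THIN: area of the thin pieces

`K' = 12 κ'`, `κ' ≥ 1075`. `W` = waiting strips (windows `≥ K'`), `Gap` = gaps, `P` = running strips.
* waiting strips: `thin_wait`.
* a gap: area `w r ≤ w / tau K`.
* a running strip (window `i ≥ K' - 15`): area `< (card B + 1) w / tau (i + 16) ≤ card B / (tau (K' - 15) tau K') +
  w / tau K'`; the number of all slots is at most `58.32` times the number of blocks in
  `[sig K', sig (K' + 15))` (all blocks of `p.B` are there), i.e. `0.91125 (tau (K' + 15) - tau K')`, and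
  `(tau (K' + 15) - tau K') / tau (K' - 15) ≤ 46 / K' ≤ 0.0036`.
Total: `(0.881 + 0.0033 + 0.027 * 1.9532) / tau K' ≤ 0.94 / tau K'` (`tau K' ≤ 1.9532 tau K`).
-/

namespace Pool.Agent.Moser.Eng

/-- swap of the sum over the blocks and the sum over the strips -/
private lemma sum_card_eq (S : Finset ℕ) (P : Multiset Pend) (hP : ∀ p ∈ P, ∀ b ∈ p.B, b ∈ S) :
    (P.map fun p => (p.B.card : ℝ)).sum = ∑ b ∈ S, (slotsAt P b : ℝ) := by
  induction P using Multiset.induction_on with
  | empty => simp [slotsAt]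
  | cons p P ih =>
    have h1 := ih (fun q hq => hP q (Multiset.mem_cons_of_mem hq))
    have h2 : ∀ b, (slotsAt (p ::ₘ P) b : ℝ) = (p.B.count b : ℝ) + (slotsAt P b : ℝ) := by
      intro b
      unfold slotsAt
      rw [Multiset.map_cons, Multiset.sum_cons]
      push_cast
      rfl
    have h3 : (p.B.card : ℝ) = ∑ b ∈ S, (p.B.count b : ℝ) := by
      have := Multiset.sum_count_eq_card (s := S) (m := p.B) (hP p (Multiset.mem_cons_self p P))
      rw [← this]
      push_cast
      rfl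
    simp only [h2, Finset.sum_add_distrib, Multiset.map_cons, Multiset.sum_cons]
    rw [h1, h3]

private lemma sum_map_add_const (P : Multiset Pend) (c d : ℝ) :
    (P.map fun p => (p.B.card : ℝ) * c + p.w * d).sum =
      (P.map fun p => (p.B.card : ℝ)).sum * c + (P.map Pend.w).sum * d := by
  induction P using Multiset.induction_on with
  | empty => simp
  | cons p P ih =>
    simp only [Multiset.map_cons, Multiset.sum_cons]
    rw [ih]
    ring

theorem thin_area {κ κ' : ℕ} (hκ : 860 ≤ κ) (hκ' : κ' = 5 * κ / 4)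
    (W Gap : Multiset (ℝ × ℝ)) (P : Multiset Pend)
    (hW : ∀ r ∈ W, 0 < r.1 ∧ (tau (12 * κ') : ℝ) * r.1 ≤ 1 ∧ 0 ≤ r.2)
    (hload : ∀ j, κ' ≤ j → XX (12 * j + 15) W ≤ 0.88)
    (hGap : ∀ r ∈ Gap, 0 ≤ r.1 ∧ 0 ≤ r.2 ∧ (tau (12 * κ) : ℝ) * r.2 ≤ 1)
    (hP : ∀ p ∈ P, p.Run (12 * κ') (12 * κ'))
    (hcap : ∀ b, sig (12 * κ') ≤ b → (slotsAt P b : ℝ) ≤ 58.32)
    (hwid : (W.map Prod.fst).sum + (Gap.map Prod.fst).sum + (P.map Pend.w).sum ≤ 0.027) :
    area W + area Gap + area (P.map Pend.rect) ≤ 0.94 / (tau (12 * κ') : ℝ) := by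
  have hk1 : 1075 ≤ κ' := by omega
  have hKr : (12900 : ℝ) ≤ ((12 * κ' : ℕ) : ℝ) := by exact_mod_cast (by omega : 12900 ≤ 12 * κ')
  set K : ℝ := ((12 * κ' : ℕ) : ℝ) with hKdef
  have htau := tau_pos (i := 12 * κ') (by omega)
  have htau0 := tau_pos (i := 12 * κ) (by omega)
  set T : ℝ := (tau (12 * κ') : ℝ) with hT
  set T0 : ℝ := (tau (12 * κ) : ℝ) with hT0
  have hTpos : 0 < T := by linarith
  have hT0pos : 0 < T0 := by linarith
  -- ratio `T ≤ 1.9532 T0`
  have hratio : T ≤ 1.9532 * T0 := by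
    have h1 := tau_le (12 * κ')
    have h2 := lt_tau (12 * κ)
    have h3 : ((12 * κ' : ℕ) : ℝ) ≤ 1.25 * ((12 * κ : ℕ) : ℝ) := by
      have : 4 * (12 * κ') ≤ 5 * (12 * κ) := by omega
      have h4 : (4 : ℝ) * ((12 * κ' : ℕ) : ℝ) ≤ 5 * ((12 * κ : ℕ) : ℝ) := by exact_mod_cast this
      linarith
    have h5 : ((12 * κ' : ℕ) : ℝ) ^ 3 ≤ (1.25 * ((12 * κ : ℕ) : ℝ)) ^ 3 := by gcongr
    have h6 : (1.25 * ((12 * κ : ℕ) : ℝ)) ^ 3 = 1.953125 * ((12 * κ : ℕ) : ℝ) ^ 3 := by ring
    rw [h6] at h5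
    rw [← hT] at h1
    rw [← hT0] at h2
    have h7 : (4e7 : ℝ) ≤ T0 := htau0
    norm_num at h7
    nlinarith
  -- waiting strips
  have hAW : area W ≤ (0.881 + (W.map Prod.fst).sum) / T := thin_wait hk1 W hW hload
  -- gaps
  have hAG : area Gap ≤ (Gap.map Prod.fst).sum * 1.9532 / T := by
    have h1 : ∀ r ∈ Gap, r.1 * r.2 ≤ r.1 * (1.9532 / T) := by
      intro r hr
      obtain ⟨h1, h2, h3⟩ := hGap r hr
      apply mul_le_mul_of_nonneg_left _ h1
      rw [le_div_iff₀ hTpos]
      calc r.2 * T ≤ r.2 * (1.9532 * T0) := mul_le_mul_of_nonneg_left hratio h2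
        _ = 1.9532 * (T0 * r.2) := by ring
        _ ≤ 1.9532 * 1 := mul_le_mul_of_nonneg_left h3 (by norm_num)
        _ = 1.9532 := by ring
    have h2 : area Gap ≤ (Gap.map fun r => r.1 * (1.9532 / T)).sum := by
      unfold area
      exact Multiset.sum_map_le_sum_map _ _ h1
    rw [Multiset.sum_map_mul_right] at h2
    calc area Gap ≤ (Gap.map fun r => r.1).sum * (1.9532 / T) := h2
      _ = (Gap.map Prod.fst).sum * 1.9532 / T := by ring
  -- running strips
  have hT15 : (0 : ℝ) < (tau (12 * κ' - 15) : ℝ) := by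
    have := tau_pos (i := 12 * κ' - 15) (by omega)
    linarith
  set T15 : ℝ := (tau (12 * κ' - 15) : ℝ) with hT15def
  have hAP1 : area (P.map Pend.rect) ≤
      (P.map fun p => (p.B.card : ℝ) * (1 / (T15 * T)) + p.w * (1 / T)).sum := by
    unfold area
    rw [Multiset.map_map]
    apply Multiset.sum_map_le_sum_map
    intro p hp
    have hr := hP p hp
    have hwpos := InW_pos hr.win
    have hw1 : T15 * p.w ≤ 1 := by
      have h1 : (tau (12 * κ' - 15) : ℝ) ≤ tau p.i := by
        have := hr.lo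
        exact_mod_cast tau_mono (by omega)
      exact (mul_le_mul_of_nonneg_right h1 hwpos.le).trans hr.win.1
    have hT16 : T ≤ (tau (p.i + 16) : ℝ) := by
      have := hr.lo
      rw [hT]
      exact_mod_cast tau_mono (by omega)
    have hl : p.l * T ≤ (p.B.card : ℝ) + 1 :=
      (mul_le_mul_of_nonneg_left hT16 hr.len).trans hr.slot.le
    have hl2 : p.l ≤ ((p.B.card : ℝ) + 1) / T := by
      rw [le_div_iff₀ hTpos]; exact hl
    show p.w * p.l ≤ _
    calc p.w * p.l ≤ p.w * (((p.B.card : ℝ) + 1) / T) := mul_le_mul_of_nonneg_left hl2 hwpos.le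
      _ = (p.B.card : ℝ) * (p.w / T) + p.w * (1 / T) := by ring
      _ ≤ (p.B.card : ℝ) * (1 / (T15 * T)) + p.w * (1 / T) := by
          have h5 : p.w / T ≤ 1 / (T15 * T) := by
            rw [div_le_div_iff₀ hTpos (by positivity)]
            calc p.w * (T15 * T) = (T15 * p.w) * T := by ring
              _ ≤ 1 * T := mul_le_mul_of_nonneg_right hw1 hTpos.le
          have h6 : (0 : ℝ) ≤ (p.B.card : ℝ) := Nat.cast_nonneg _
          have := mul_le_mul_of_nonneg_left h5 h6
          linarith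
  rw [sum_map_add_const] at hAP1
  have hcard : (P.map fun p => (p.B.card : ℝ)).sum ≤
      58.32 * (((tau (12 * κ' + 15) : ℝ) - T) / 64) := by
    rw [sum_card_eq (Finset.Ico (sig (12 * κ')) (sig (12 * κ' + 15))) P]
    · have h1 : ∑ b ∈ Finset.Ico (sig (12 * κ')) (sig (12 * κ' + 15)), (slotsAt P b : ℝ) ≤
          ∑ _b ∈ Finset.Ico (sig (12 * κ')) (sig (12 * κ' + 15)), (58.32 : ℝ) := by
        apply Finset.sum_le_sum
        intro b hb
        rw [Finset.mem_Ico] at hb
        exact hcap b hb.1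
      refine h1.trans ?_
      rw [Finset.sum_const, nsmul_eq_mul, Nat.card_Ico]
      have h2 : sig (12 * κ') ≤ sig (12 * κ' + 15) := sig_mono (by omega)
      rw [Nat.cast_sub h2]
      have h3 : (tau (12 * κ' + 15) : ℝ) = 64 * (sig (12 * κ' + 15) : ℝ) := by
        rw [tau_eq]; push_cast; ring
      have h4 : T = 64 * (sig (12 * κ') : ℝ) := by
        rw [hT, tau_eq]; push_cast; ring
      rw [h3, h4]
      apply le_of_eq
      ring
    · intro p hp b hb
      have hr := hP p hp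
      have := hr.blk b hb
      have hhi := hr.hi
      rw [Finset.mem_Ico]
      refine ⟨this.1, this.2.2.trans_le (sig_mono (by omega))⟩
  have hdiff : (tau (12 * κ' + 15) : ℝ) - T ≤ 0.0036 * T15 := by
    have h1 := tau_le (12 * κ' + 15)
    have h2 := lt_tau (12 * κ')
    have h3 := lt_tau (12 * κ' - 15)
    have h4 : ((12 * κ' + 15 : ℕ) : ℝ) = K + 15 := by rw [hKdef]; push_cast; ring
    have h5 : ((12 * κ' - 15 : ℕ) : ℝ) = K - 15 := by
      rw [hKdef, Nat.cast_sub (by omega)]; norm_num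
    rw [h4] at h1
    rw [h5, ← hT15def] at h3
    rw [← hKdef, ← hT] at h2
    nlinarith [mul_nonneg (sq_nonneg K) (sub_nonneg.mpr hKr), mul_nonneg (by linarith : (0:ℝ) ≤ K) (sub_nonneg.mpr hKr)]
  have hcard2 : (P.map fun p => (p.B.card : ℝ)).sum * (1 / (T15 * T)) ≤ 0.0033 / T := by
    have h1 : (P.map fun p => (p.B.card : ℝ)).sum ≤ 0.0033 * T15 := by
      refine hcard.trans ?_
      have : 58.32 * (((tau (12 * κ' + 15) : ℝ) - T) / 64) ≤ 58.32 * ((0.0036 * T15) / 64) := by
        gcongr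
      refine this.trans ?_
      nlinarith
    calc (P.map fun p => (p.B.card : ℝ)).sum * (1 / (T15 * T)) ≤
        (0.0033 * T15) * (1 / (T15 * T)) := by
          apply mul_le_mul_of_nonneg_right h1 (by positivity)
      _ = 0.0033 / T := by field_simp
  have hAP : area (P.map Pend.rect) ≤ (0.0033 + (P.map Pend.w).sum) / T := by
    refine hAP1.trans ?_
    rw [add_div]
    have : (P.map Pend.w).sum * (1 / T) = (P.map Pend.w).sum / T := by ring
    rw [this]
    linarith
  have hW0 : 0 ≤ (W.map Prod.fst).sum := by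
    apply Multiset.sum_nonneg
    intro x hx
    rw [Multiset.mem_map] at hx
    obtain ⟨r, hr, rfl⟩ := hx
    exact (hW r hr).1.le
  have hP0 : 0 ≤ (P.map Pend.w).sum := by
    apply Multiset.sum_nonneg
    intro x hx
    rw [Multiset.mem_map] at hx
    obtain ⟨p, hp, rfl⟩ := hx
    exact (InW_pos (hP p hp).win).le
  calc area W + area Gap + area (P.map Pend.rect) ≤
      (0.881 + (W.map Prod.fst).sum) / T + (Gap.map Prod.fst).sum * 1.9532 / T +
        (0.0033 + (P.map Pend.w).sum) / T := by linarith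
    _ = (0.881 + 0.0033 + ((W.map Prod.fst).sum + (Gap.map Prod.fst).sum * 1.9532 +
        (P.map Pend.w).sum)) / T := by ring
    _ ≤ 0.94 / T := by
        apply div_le_div_of_nonneg_right _ hTpos.le
        nlinarith

end Pool.Agent.Moser.Eng
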