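import Pool.Agent.Lib_MP_cc07e8_co.EngWin

/-!
# MP_cc07e8_co, engine piece WIDTH: the sum of the widths from the potential of far rows

For `k` large all `w * tau k ≥ 16 / 7` (`S` finite), so `∑ pot k w = 5.4 ∑ w - 1.55 card / tau k`, and
`tau k → ∞`.
-/

namespace Pool.Agent.Moser.Eng

open Filter Topology

theorem tau_tendsto : Tendsto (fun k : ℕ => (tau k : ℝ)) atTop atTop := by
  have h1 : Tendsto (fun k : ℕ => (k : ℝ) ^ 3 / 27000 - 64) atTop atTop := by
    apply tendsto_atTop_add_const_right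
    apply Tendsto.atTop_div_const (by norm_num)
    exact (tendsto_pow_atTop (by norm_num)).comp tendsto_natCast_atTop_atTop
  exact tendsto_atTop_mono (fun k => (lt_tau k).le) h1

theorem pot_tendsto {w : ℝ} (hw : 0 < w) :
    Tendsto (fun k : ℕ => pot k w) atTop (𝓝 (5.4 * w)) := by
  have h1 : Tendsto (fun k : ℕ => 5.4 * w - 1.55 / (tau k : ℝ)) atTop (𝓝 (5.4 * w - 0)) :=
    Tendsto.sub tendsto_const_nhds (Tendsto.div_atTop tendsto_const_nhds tau_tendsto)
  rw [sub_zero] at h1
  refine Tendsto.congr' ?_ h1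
  filter_upwards [tau_tendsto.eventually_ge_atTop (16 / 7 / w)] with k hk
  unfold pot
  rw [if_pos]
  rw [div_le_iff₀ hw] at hk
  linarith

theorem width_le (S : Multiset ℝ) (hS : ∀ w ∈ S, 0 < w) {c : ℝ} {k0 : ℕ}
    (h : ∀ k, k0 ≤ k → (S.map (pot k)).sum ≤ c) : 5.4 * S.sum ≤ c := by
  have h1 : Tendsto (fun k : ℕ => (S.map (pot k)).sum) atTop
      (𝓝 (S.map fun w => 5.4 * w).sum) :=
    by
    have := tendsto_multiset_sum (f := fun w k => pot k w) (x := atTop) (a := fun w => 5.4 * w) S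
      (fun w hw => pot_tendsto (hS w hw))
    exact this
  rw [Multiset.sum_map_mul_left, Multiset.map_id'] at h1
  exact le_of_tendsto h1 ((eventually_ge_atTop k0).mono h)

end Pool.Agent.Moser.Eng
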