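import Pool.Agent.Lib_MP_cc07e8_co.EngService
import Pool.Agent.Lib_MP_cc07e8_co.EngOddRound
import Pool.Agent.Lib_MP_cc07e8_co.EngMain
import Pool.Agent.Lib_MP_cc07e8_co.EngArea
import Pool.Agent.Lib_MP_cc07e8_co.EngThin
import Pool.Agent.Lib_MP_cc07e8_co.EngWidth
import Pool.Agent.Lib_MP_cc07e8_co.EngDsum
import Pool.Agent.Lib_MP_cc07e8_co.EngMs
import Pool.Agent.Lib_MP_cc07e8_co.EngPot

/-!
# MP_cc07e8_co, engine piece STEP: one epoch

`K = 12 κ`, `K' = 12 κ'`, `c = 35 (S0 - (X + Y))`, `V k = U k + c`, `BA = act B K K'`, `Br = Grem B K'`, `GA = act G K K'`,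
`Grem G K = GA + Grem G K'`, `Gpast G K' = Gpast G K + GA`, `A = GA + BA`.
1. `service` with `Lp k = XX k (Gpast G K) + po k`: for `k ≥ K`: `Lp k + XX k A ≤ XX k G + (po k + XX k B) ≤
   XX k G + V k ≤ lamR k ≤ 0.88`.
2. Widths: for large `k` the row inequality of `service` plus the rest of the old row inequality gives
   `∑ pot` over `Ch + Gap + P' + Br + Grem G K'` `≤ U k + c + inc ≤ 0.1455`, so by `width_le` the sum of the widths
   is at most `0.1455 / 5.4 ≤ 0.027`.
3. `thin_area` with `W = Ch + Br + Grem G K'`: `XX (12 j + 15) W ≤ XX k G + U k + inc + c ≤ 0.88` (`k = 12 j + 15 ≥ K'`,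
   from the rows of `service`); slots: `64 * 0.88 + 2 = 58.32`.
4. `main_area_low` (`F = Ico (tau K) (tau K') \ U`, `T` = everything else) gives `hlo` (`0.06 ≥ 0.05`),
   `main_area_up` gives `hup`; `main_epoch`; `16 Y ≤ 16 / √(tau K - 1)` as `Y ^ 2 ≤ X Y ≤ 1 / (tau K - 1)`.
5. `odd_round` for `O = Gap + Omain`: `kr k ≤ pot k w` for the gaps, `kr k ≤ c1`, `≤ c2 (tau k)` for `Omain`.
6. New state: `B' = Br + Ch + S`, `P'`, `po' k = XX k BA`. Rows `k ≥ K'`: `XX k BA + XX k Br = XX k B`,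
   `∑ A pot = ∑ GA pot + ∑ BA pot`. `YY k A = YY k GA + YY k BA`: if `k < 670000`, `YY k BA ≤ ∑ XX (12 j + 15) BA * Ph j k ≤
   0.12 ∑ Ph j k` (`YY_le_groups`, `Ph_class`, `hA`: `XX (12 j + 15) BA ≤ V (12 j + 15) ≤ 0.12`), else
   `YY k A ≤ ∑ lamR (12 j + 15) Ph j k`.
   `25 D, 35 D ≤ 35 D`, `D = (X + Y) - (X' + Y') ≥ 0`: `c' = c + 35 D`.
-/

namespace Pool.Agent.Moser.Eng

/-- drift of the active strips -/
theorem ms_YY_le_drift {G B : Multiset (ℝ × ℝ)} {κ κ' k : ℕ} (hκ : 860 ≤ κ)
    (hk : 12 * κ' ≤ k) (hG : ∀ r ∈ G, 0 < r.1) (hB : ∀ r ∈ B, 0 < r.1)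
    (hA : ∀ j : ℕ, κ ≤ j → 12 * j + 15 < 61730 → XX (12 * j + 15) (act B (12 * κ) (12 * κ')) ≤ 0.12)
    (hT : ∀ j : ℕ, κ ≤ j → XX (12 * j + 15) (act G (12 * κ) (12 * κ') + act B (12 * κ) (12 * κ')) ≤
      lamR (12 * j + 15)) :
    YY k (act G (12 * κ) (12 * κ') + act B (12 * κ) (12 * κ')) ≤ drift G κ κ' k := by
  unfold drift
  split_ifs with hk2
  · rw [ms_YY_add]
    have h1 := YY_le_groups hκ hk (act B (12 * κ) (12 * κ'))
      (fun r hr => ⟨hB r (ms_mem_act hr).1, (ms_mem_act hr).2⟩)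
    have h2 : ∑ j ∈ Finset.Ico κ κ', XX (12 * j + 15) (act B (12 * κ) (12 * κ')) * Ph j k ≤
        0.12 * ∑ j ∈ Finset.Ico κ κ', Ph j k := by
      rw [Finset.mul_sum]
      refine Finset.sum_le_sum fun j hj => ?_
      rw [Finset.mem_Ico] at hj
      by_cases h0 : Ph j k = 0
      · rw [h0]; simp
      · exact mul_le_mul_of_nonneg_right (hA j hj.1 (Ph_class hk2 h0)) (Ph_nonneg j k)
    linarith
  · have h1 := YY_le_groups hκ hk (act G (12 * κ) (12 * κ') + act B (12 * κ) (12 * κ'))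
      (fun r hr => by
        rcases Multiset.mem_add.1 hr with h | h
        · exact ⟨hG r (ms_mem_act h).1, (ms_mem_act h).2⟩
        · exact ⟨hB r (ms_mem_act h).1, (ms_mem_act h).2⟩)
    refine h1.trans (Finset.sum_le_sum fun j hj => ?_)
    rw [Finset.mem_Ico] at hj
    exact mul_le_mul_of_nonneg_right (hT j hj.1) (Ph_nonneg j k)

theorem step (hME : MainEpochStmt) {a b : ℝ} (hab : a * b = Real.pi ^ 2 / 6 - 1) {G : Multiset (ℝ × ℝ)} {κ κ' : ℕ}
    (hκ : 860 ≤ κ) (hκ' : κ' = 5 * κ / 4)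
    (hG : ∀ r ∈ G, 0 < r.1 ∧ (tau 10320 : ℝ) * r.1 ≤ 1 ∧ 0 ≤ r.2)
    {U : ℕ → ℝ} {S0 X Y : ℝ} {B : Multiset (ℝ × ℝ)} {P : Multiset Pend} {po : ℕ → ℝ}
    (h : St a b G (12 * κ) (fun k => U k + 35 * (S0 - (X + Y))) X Y B P po)
    (hA : ∀ k : ℕ, 12 * κ ≤ k → k < 61730 → U k + 35 * (S0 - (X + Y)) ≤ 0.12)
    (hT : ∀ k : ℕ, 12 * κ ≤ k → XX k G + U k + 35 * (S0 - (X + Y)) ≤ lamR k)
    (hT' : ∀ k : ℕ, 12 * κ' ≤ k →
      XX k G + (U k + inc G κ κ' k) + 35 * (S0 - (X + Y)) ≤ 0.88)
    (hfar : ∃ k0 : ℕ, ∀ k : ℕ, k0 ≤ k → U k + inc G κ κ' k + 35 * (S0 - (X + Y)) ≤ 0.1455) :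
    ∃ (X' Y' : ℝ) (B' : Multiset (ℝ × ℝ)) (P' : Multiset Pend) (po' : ℕ → ℝ),
      X' + Y' ≤ X + Y ∧
      St a b G (12 * κ') (fun k => U k + inc G κ κ' k + 35 * (S0 - (X' + Y'))) X' Y' B' P' po' := by
  classical
  have hκ1 : κ < κ' := by omega
  have hκ2 : 4 * κ' ≤ 5 * κ := by omega
  have hK : 10320 ≤ 12 * κ := by omega
  have htau : tau (12 * κ) ≤ tau (12 * κ') := tau_mono (by omega)
  have htau0 : (4e7 : ℝ) ≤ (tau (12 * κ) : ℝ) := tau_pos (by omega)
  have htau1 : (4e7 : ℝ) ≤ (tau (12 * κ') : ℝ) := tau_pos (by omega)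
  have hG0 : ∀ r ∈ G, 0 < r.1 := fun r hr => (hG r hr).1
  have hB0 : ∀ r ∈ B, 0 < r.1 := fun r hr => (h.strip r hr).1
  set c : ℝ := 35 * (S0 - (X + Y)) with hc
  set GA := act G (12 * κ) (12 * κ') with hGA
  set BA := act B (12 * κ) (12 * κ') with hBA
  set Gr := Grem G (12 * κ') with hGr
  set Br := Grem B (12 * κ') with hBr
  have eG : Grem G (12 * κ) = GA + Gr := ms_Grem_split hG0 htau
  have eB : B = BA + Br := by
    have h1 := ms_Grem_split hB0 htau
    rw [ms_Grem_self (fun r hr => (h.strip r hr).2.1)] at h1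
    exact h1
  have eP : Gpast G (12 * κ') = Gpast G (12 * κ) + GA := ms_Gpast_split hG0 htau
  have eGall : Gpast G (12 * κ') + Gr = G := ms_past_rem G _
  -- rows of the old state
  have row := h.row
  have hxB : ∀ k, 12 * κ ≤ k → po k + XX k B ≤ U k + c := by
    intro k hk
    have h1 := row k hk
    rw [ms_map_sum_add] at h1
    have h2 : 0 ≤ (B.map fun r => pot k r.1).sum := ms_map_sum_nonneg _ _ fun r _ => pot_nonneg k r.1
    have h3 : 0 ≤ (P.map (rowP (12 * κ) k)).sum :=
      ms_map_sum_nonneg _ _ fun p hp => ms_rowP_nonneg hK (h.pend p hp)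
    have h4 : 0 ≤ ((Grem G (12 * κ)).map fun r => pot k r.1).sum :=
      ms_map_sum_nonneg _ _ fun r _ => pot_nonneg k r.1
    have h5 : XX k B = (B.map (xx k)).sum := rfl
    linarith
  have hxBA : ∀ k, XX k BA ≤ XX k B := by
    intro k
    have h1 : XX k B = XX k BA + XX k Br := by rw [← ms_XX_add, ← eB]
    have h2 := ms_XX_nonneg k Br
    linarith
  have hxG : ∀ k, XX k G = XX k (Gpast G (12 * κ)) + XX k GA + XX k Gr := by
    intro k
    rw [← ms_XX_add, ← eP, ← ms_XX_add, eGall]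
  have hload0 : ∀ k, 12 * κ ≤ k → XX k (Gpast G (12 * κ)) + po k + XX k (GA + BA) ≤ lamR k := by
    intro k hk
    have h1 := hxB k hk
    have h2 := hxBA k
    have h3 := hxG k
    have h4 := ms_XX_nonneg k Gr
    have h5 := hT k hk
    rw [ms_XX_add]
    linarith
  have hload1 : ∀ k, 12 * κ ≤ k → XX k (GA + BA) ≤ lamR k := by
    intro k hk
    have h1 := hload0 k hk
    have h2 := ms_XX_nonneg k (Gpast G (12 * κ))
    have h3 := h.po0 k
    linarith
  -- service
  obtain ⟨U0, Ch, Gap, P', hU, hRef, hCh, hGap, hP', hcap', hrow'⟩ :=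
    service hκ hκ' (GA + BA) P (fun k => XX k (Gpast G (12 * κ)) + po k)
      (by
        intro r hr
        rcases Multiset.mem_add.1 hr with h1 | h1
        · exact ⟨(ms_mem_act h1).2.1, (ms_mem_act h1).2.2, (hG r (ms_mem_act h1).1).2.2⟩
        · exact ⟨(ms_mem_act h1).2.1, (ms_mem_act h1).2.2, (h.strip r (ms_mem_act h1).1).2.2⟩)
      h.pend h.cap
      (fun k hk _ => (hload0 k hk).trans (ms_lamR_le k))
      (fun j hj => by
        rw [Finset.mem_Ico] at hj
        exact (hload1 _ (by omega)).trans (ms_lamR_le _))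
  -- drift
  have hdrift : ∀ k, 12 * κ' ≤ k → YY k (GA + BA) ≤ drift G κ κ' k := by
    intro k hk
    refine ms_YY_le_drift hκ hk hG0 hB0 ?_ ?_
    · intro j hj hj2
      have h1 := hxB (12 * j + 15) (by omega)
      have h2 := hxBA (12 * j + 15)
      have h3 := hA (12 * j + 15) (by omega) hj2
      have h4 := h.po0 (12 * j + 15)
      linarith
    · intro j hj
      exact hload1 _ (by omega)
  -- the basic row inequality after the service
  have star : ∀ k, 12 * κ' ≤ k →
      (Ch.map fun r => xx k r + pot k r.1).sum + (Gap.map fun r => pot k r.1).sum +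
        (P'.map (rowP (12 * κ') k)).sum + XX k BA + (Br.map fun r => xx k r + pot k r.1).sum +
        (Gr.map fun r => pot k r.1).sum ≤
      U k + c + bet (12 * κ) k * births κ κ' + Eerr (12 * κ) (12 * κ') k + drift G κ κ' k := by
    intro k hk
    have h1 := hrow' k hk
    have h2 := row k (by omega)
    have h3 := hdrift k hk
    have h4 := h.po0 k
    rw [eG] at h2
    simp only [Multiset.map_add, Multiset.sum_add] at h1 h2
    have h5 : (B.map fun r => xx k r + pot k r.1).sum =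
        XX k BA + (BA.map fun r => pot k r.1).sum + (Br.map fun r => xx k r + pot k r.1).sum := by
      have : (B.map fun r => xx k r + pot k r.1).sum =
          ((BA + Br).map fun r => xx k r + pot k r.1).sum := by rw [← eB]
      rw [this, Multiset.map_add, Multiset.sum_add, ms_map_sum_add BA]
      rfl
    linarith
  have hshelf0 : ∀ k, 0 ≤ shelf κ κ' k := by
    intro k
    unfold shelf
    have h1 : 0 ≤ ∑ i ∈ Finset.Ico (12 * κ) (12 * κ'), 1 / (i : ℝ) ^ 2 :=
      Finset.sum_nonneg fun i _ => by positivity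
    have h2 : (0 : ℝ) ≤ (if 1000 * tau (12 * κ') ≤ tau k then 625 else 905) := by
      split_ifs <;> norm_num
    have h3 : 0 ≤ 16 / √((tau (12 * κ) : ℝ) - 1) := by positivity
    have := mul_nonneg h2 h1
    linarith
  have hincge : ∀ k, bet (12 * κ) k * births κ κ' + Eerr (12 * κ) (12 * κ') k + drift G κ κ' k ≤
      inc G κ κ' k := by
    intro k
    unfold inc
    have h1 := hshelf0 k
    have h2 : 0 ≤ 2.15e6 / (k : ℝ) ^ 2 := by positivity
    linarith
  have star2 : ∀ k, 12 * κ' ≤ k →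
      (Ch.map fun r => xx k r + pot k r.1).sum + (Gap.map fun r => pot k r.1).sum +
        (P'.map (rowP (12 * κ') k)).sum + XX k BA + (Br.map fun r => xx k r + pot k r.1).sum +
        (Gr.map fun r => pot k r.1).sum ≤ U k + inc G κ κ' k + c := by
    intro k hk
    have h1 := star k hk
    have h2 := hincge k
    linarith
  set W : Multiset (ℝ × ℝ) := Ch + Br + Gr with hW
  have hK' : 10320 ≤ 12 * κ' := by omega
  have rowP'0 : ∀ k, ∀ p ∈ P', 0 ≤ rowP (12 * κ') k p := fun k p hp => ms_rowP_nonneg hK' (hP' p hp)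
  -- widths
  have hWpos : ∀ r ∈ W, 0 < r.1 ∧ (tau (12 * κ') : ℝ) * r.1 ≤ 1 ∧ 0 ≤ r.2 := by
    intro r hr
    rw [hW, Multiset.mem_add, Multiset.mem_add] at hr
    rcases hr with (hr | hr) | hr
    · exact hCh r hr
    · exact ⟨hB0 r (ms_mem_Grem hr).1, (ms_mem_Grem hr).2, (h.strip r (ms_mem_Grem hr).1).2.2⟩
    · exact ⟨hG0 r (ms_mem_Grem hr).1, (ms_mem_Grem hr).2, (hG r (ms_mem_Grem hr).1).2.2⟩
  have hwid : (W.map Prod.fst).sum + (Gap.map Prod.fst).sum + (P'.map Pend.w).sum ≤ 0.027 := by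
    obtain ⟨k0, hk0⟩ := hfar
    have h1 := width_le (W.map Prod.fst + Gap.map Prod.fst + P'.map Pend.w)
      (by
        intro w hw
        rw [Multiset.mem_add, Multiset.mem_add] at hw
        rcases hw with (hw | hw) | hw
        · obtain ⟨r, hr, rfl⟩ := Multiset.mem_map.1 hw
          exact (hWpos r hr).1
        · obtain ⟨r, hr, rfl⟩ := Multiset.mem_map.1 hw
          exact (hGap r hr).2.2.2
        · obtain ⟨p, hp, rfl⟩ := Multiset.mem_map.1 hw
          exact InW_pos (hP' p hp).win)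
      (c := 0.1455) (k0 := max k0 (12 * κ')) (by
        intro k hk
        have hk1 : k0 ≤ k := (le_max_left _ _).trans hk
        have hk2 : 12 * κ' ≤ k := (le_max_right _ _).trans hk
        have h2 := star2 k hk2
        have h3 := hk0 k hk1
        have e1 : ((W.map Prod.fst).map (pot k)).sum = (Ch.map fun r => pot k r.1).sum +
            (Br.map fun r => pot k r.1).sum + (Gr.map fun r => pot k r.1).sum := by
          rw [Multiset.map_map, hW, Multiset.map_add, Multiset.map_add, Multiset.sum_add,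
            Multiset.sum_add]
          rfl
        have e2 : ((Gap.map Prod.fst).map (pot k)).sum = (Gap.map fun r => pot k r.1).sum := by
          rw [Multiset.map_map]
          rfl
        have e3 : ((P'.map Pend.w).map (pot k)).sum ≤ (P'.map (rowP (12 * κ') k)).sum := by
          rw [Multiset.map_map]
          exact ms_map_sum_le _ _ _ fun p hp => ms_pot_le_rowP hK' (hP' p hp)
        rw [Multiset.map_add, Multiset.map_add, Multiset.sum_add, Multiset.sum_add, e1, e2]
        rw [ms_map_sum_add, ms_map_sum_add] at h2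
        have h4 : 0 ≤ (Ch.map (xx k)).sum := ms_map_sum_nonneg _ _ fun r _ => xx_nonneg k r
        have h5 : 0 ≤ (Br.map (xx k)).sum := ms_map_sum_nonneg _ _ fun r _ => xx_nonneg k r
        have h6 := ms_XX_nonneg k BA
        linarith)
    rw [Multiset.sum_add, Multiset.sum_add] at h1
    linarith
  -- area of the thin pieces
  have hXA : ∀ k, 12 * κ ≤ k → XX k (GA + BA) ≤ 0.88 := fun k hk =>
    (hload1 k hk).trans (ms_lamR_le k)
  have hthin := thin_area hκ hκ' W Gap P' hWpos
    (by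
      intro j hj
      have h1 := star2 (12 * j + 15) (by omega)
      have h2 := hT' (12 * j + 15) (by omega)
      rw [ms_map_sum_add, ms_map_sum_add] at h1
      have h3 : 0 ≤ (Ch.map fun r => pot (12 * j + 15) r.1).sum :=
        ms_map_sum_nonneg _ _ fun r _ => pot_nonneg _ r.1
      have h4 : 0 ≤ (Br.map fun r => pot (12 * j + 15) r.1).sum :=
        ms_map_sum_nonneg _ _ fun r _ => pot_nonneg _ r.1
      have h5 : 0 ≤ (Gap.map fun r => pot (12 * j + 15) r.1).sum :=
        ms_map_sum_nonneg _ _ fun r _ => pot_nonneg _ r.1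
      have h6 : 0 ≤ (P'.map (rowP (12 * κ') (12 * j + 15))).sum :=
        ms_map_sum_nonneg _ _ fun p hp => rowP'0 _ p hp
      have h7 : 0 ≤ (Gr.map fun r => pot (12 * j + 15) r.1).sum :=
        ms_map_sum_nonneg _ _ fun r _ => pot_nonneg _ r.1
      have h8 := ms_XX_nonneg (12 * j + 15) BA
      have h9 := hxG (12 * j + 15)
      have h10 := ms_XX_nonneg (12 * j + 15) (Gpast G (12 * κ))
      have h11 := ms_XX_nonneg (12 * j + 15) GA
      have h12 : XX (12 * j + 15) W = (Ch.map (xx (12 * j + 15))).sum +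
          (Br.map (xx (12 * j + 15))).sum + XX (12 * j + 15) Gr := by
        rw [hW, ms_XX_add, ms_XX_add]
        rfl
      rw [h12]
      linarith)
    (fun r hr => ⟨(hGap r hr).2.2.2.le, (hGap r hr).1, (hGap r hr).2.2.1⟩) hP'
    (by
      intro b hb
      obtain ⟨k, hk1, hk2, hk3⟩ := ms_exists_window hb
      have h1 := hcap' k b hk1 hk2 hk3
      have h2 := hXA k (by omega)
      linarith)
    hwid
  -- geometry of the service
  have hdec0 := h.dec
  have hdec1 : Dec a b (U0.val + (Finset.Ico 2 (tau (12 * κ))).val)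
      ((X, Y) ::ₘ (W + Gap + P'.map Pend.rect)) := by
    have e : (X, Y) ::ₘ (Grem G (12 * κ) + B + P.map Pend.rect) =
        (GA + BA + P.map Pend.rect) + ((X, Y) ::ₘ (Br + Gr)) := by
      rw [eG, ← Multiset.singleton_add, ← Multiset.singleton_add]
      conv_lhs => rw [eB]
      abel
    rw [e] at hdec0
    have h1 := hdec0.ref hRef
    have e2 : Ch + Gap + P'.map Pend.rect + ((X, Y) ::ₘ (Br + Gr)) =
        (X, Y) ::ₘ (W + Gap + P'.map Pend.rect) := by
      rw [hW, ← Multiset.singleton_add, ← Multiset.singleton_add]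
      abel
    rw [e2] at h1
    exact h1
  have htau2 : 2 ≤ tau (12 * κ) := by
    have : (2 : ℝ) ≤ (tau (12 * κ) : ℝ) := by linarith
    exact_mod_cast this
  have hlow := main_area_low hab htau2 htau hU hdec1
  have hup := main_area_up hab htau2 (T := Grem G (12 * κ) + B + P.map Pend.rect)
    (fun r hr => h.dec.rect_nonneg r (Multiset.mem_cons_of_mem hr)) h.dec
  set F := Finset.Ico (tau (12 * κ)) (tau (12 * κ')) \ U0 with hF
  have hlo : ∑ q ∈ F, 1 / (q : ℝ) ^ 2 + 0.05 / (tau (12 * κ') : ℝ) ≤ X * Y := by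
    rw [area_add, area_add] at hlow
    have h1 : 0.05 / (tau (12 * κ') : ℝ) + 0.94 / (tau (12 * κ') : ℝ) ≤ 1 / (tau (12 * κ') : ℝ) := by
      rw [← add_div]
      exact div_le_div_of_nonneg_right (by norm_num) (by linarith)
    linarith
  obtain ⟨X', Y', O, hY', hXY', hX', hsum, hRefM, hO, hO1, hO2⟩ := main_epoch hME hκ hκ' F
    (by
      intro q hq
      rw [hF, Finset.mem_sdiff, Finset.mem_Ico] at hq
      exact hq.1)
    h.hY h.hXY h.hX hup hlo
  obtain ⟨S, hRefS, hS, hrowS⟩ := odd_round hK (K' := 12 * κ') (by omega) (by omega) (Gap + O)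
    (by
      intro r hr
      rcases Multiset.mem_add.1 hr with h1 | h1
      · obtain ⟨g1, g2, g3, g4⟩ := hGap r h1
        refine ⟨g4.le, g1, ?_⟩
        rw [min_eq_right g2]
        exact g3
      · exact hO r h1)
  refine ⟨X', Y', Br + Ch + S, P', fun k => XX k BA, hsum, ?_, hY', hXY', hX', ?_, hP', ?_, ?_, ?_⟩
  · -- decomposition
    have h1 : Dec a b (F.val + (U0.val + (Finset.Ico 2 (tau (12 * κ))).val))
        ({(X', Y')} + O + (W + Gap + P'.map Pend.rect)) := by
      have := hdec1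
      rw [← Multiset.singleton_add] at this
      exact this.ref hRefM
    have h2 : Dec a b (0 + (F.val + (U0.val + (Finset.Ico 2 (tau (12 * κ))).val)))
        (S + ({(X', Y')} + (W + P'.map Pend.rect))) := by
      have e : {(X', Y')} + O + (W + Gap + P'.map Pend.rect) =
          (Gap + O) + ({(X', Y')} + (W + P'.map Pend.rect)) := by abel
      rw [e] at h1
      exact h1.ref hRefS
    have e1 : S + ({(X', Y')} + (W + P'.map Pend.rect)) =
        (X', Y') ::ₘ (Grem G (12 * κ') + (Br + Ch + S) + P'.map Pend.rect) := by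
      rw [hW, ← Multiset.singleton_add]
      abel
    have e2 : 0 + (F.val + (U0.val + (Finset.Ico 2 (tau (12 * κ))).val)) =
        (Finset.Ico 2 (tau (12 * κ'))).val := by
      have hsub : U0 ⊆ Finset.Ico (tau (12 * κ)) (tau (12 * κ')) := fun q hq =>
        Finset.mem_Ico.2 (hU q hq)
      have hd1 : Disjoint F U0 := Finset.sdiff_disjoint
      have e3 : F.disjUnion U0 hd1 = Finset.Ico (tau (12 * κ)) (tau (12 * κ')) := by
        rw [Finset.disjUnion_eq_union, hF]
        exact Finset.sdiff_union_of_subset hsub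
      have hd2 : Disjoint (Finset.Ico (tau (12 * κ)) (tau (12 * κ')))
          (Finset.Ico 2 (tau (12 * κ))) := by
        rw [Finset.disjoint_left]
        intro q h3 h4
        rw [Finset.mem_Ico] at h3 h4
        omega
      have e4 : (Finset.Ico (tau (12 * κ)) (tau (12 * κ'))).disjUnion
          (Finset.Ico 2 (tau (12 * κ))) hd2 = Finset.Ico 2 (tau (12 * κ')) := by
        rw [Finset.disjUnion_eq_union, Finset.union_comm]
        exact Finset.Ico_union_Ico_eq_Ico htau2 htau
      have e5 : F.val + U0.val = (Finset.Ico (tau (12 * κ)) (tau (12 * κ'))).val := by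
        rw [← e3]
        rfl
      rw [zero_add, ← add_assoc, e5, ← e4]
      rfl
    rw [e1, e2] at h2
    exact h2
  · -- strips
    intro r hr
    rw [Multiset.mem_add, Multiset.mem_add] at hr
    rcases hr with (hr | hr) | hr
    · exact ⟨hB0 r (ms_mem_Grem hr).1, (ms_mem_Grem hr).2, (h.strip r (ms_mem_Grem hr).1).2.2⟩
    · exact hCh r hr
    · exact hS r hr
  · exact fun k => ms_XX_nonneg k BA
  · -- capacity
    intro k b hk h1 h2
    have h3 := hcap' k b hk h1 h2
    rw [ms_XX_add] at h3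
    have h4 : XX k GA ≤ XX k (Gpast G (12 * κ')) := by
      rw [eP, ms_XX_add]
      have := ms_XX_nonneg k (Gpast G (12 * κ))
      linarith
    linarith
  · -- rows
    intro k hk
    have h1 := star k hk
    have h2 := hrowS k hk
    rw [Multiset.map_add, Multiset.sum_add] at h2
    have hk0 : 10320 ≤ k := by omega
    have h3 : (Gap.map (kr k)).sum ≤ (Gap.map fun r => pot k r.1).sum :=
      ms_map_sum_le _ _ _ fun r hr => kr_le_pot hk0 (hGap r hr).1 (hGap r hr).2.1
    have h4 : (O.map (kr k)).sum ≤ shelf κ κ' k + 35 * ((X + Y) - (X' + Y')) := by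
      have h5 : 16 * Y ≤ 16 / √((tau (12 * κ) : ℝ) - 1) := by
        have h6 : Y ^ 2 * ((tau (12 * κ) : ℝ) - 1) ≤ 1 := by
          have h7 : Y ^ 2 ≤ X * Y := by nlinarith [h.hY, h.hXY]
          have h8 : (0 : ℝ) ≤ (tau (12 * κ) : ℝ) - 1 := by linarith
          exact (mul_le_mul_of_nonneg_right h7 h8).trans hup
        have h9 : (0 : ℝ) < (tau (12 * κ) : ℝ) - 1 := by linarith
        have h10 : 0 < √((tau (12 * κ) : ℝ) - 1) := Real.sqrt_pos.2 h9
        rw [le_div_iff₀ h10]
        have h11 : Y * √((tau (12 * κ) : ℝ) - 1) ≤ 1 := by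
          have h12 : (Y * √((tau (12 * κ) : ℝ) - 1)) ^ 2 ≤ 1 ^ 2 := by
            rw [mul_pow, Real.sq_sqrt h9.le]
            linarith
          exact le_of_sq_le_sq h12 (by norm_num)
        linarith
      unfold shelf
      split_ifs with h6
      · have h7 := hO2 (tau k : ℝ) (by exact_mod_cast h6)
        have h8 : (O.map (kr k)).sum ≤ (O.map (c2 (tau k : ℝ))).sum :=
          ms_map_sum_le _ _ _ fun r hr => kr_le_c2 hk0 (hO r hr).1 (hO r hr).2.1
        linarith
      · have h8 : (O.map (kr k)).sum ≤ (O.map c1).sum :=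
          ms_map_sum_le _ _ _ fun r hr => kr_le_c1 hk0 (hO r hr).1 (hO r hr).2.1
        have h9 : 0 ≤ (X + Y) - (X' + Y') := by linarith
        linarith
    have e1 : ((Br + Ch + S).map fun r => xx k r + pot k r.1).sum =
        (Br.map fun r => xx k r + pot k r.1).sum + (Ch.map fun r => xx k r + pot k r.1).sum +
          (S.map fun r => xx k r + pot k r.1).sum := by
      rw [Multiset.map_add, Multiset.map_add, Multiset.sum_add, Multiset.sum_add]
    rw [e1]
    have e2 : inc G κ κ' k = bet (12 * κ) k * births κ κ' + shelf κ κ' k +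
      Eerr (12 * κ) (12 * κ') k + 2.15e6 / (k : ℝ) ^ 2 + drift G κ κ' k := rfl
    rw [e2]
    have e3 : 35 * (S0 - (X' + Y')) = c + 35 * ((X + Y) - (X' + Y')) := by
      rw [hc]
      ring
    rw [e3]
    linarith

end Pool.Agent.Moser.Eng
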