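import Pool.Agent.Lib_MP_cc07e8_co.EngWin

/-!
# MP_cc07e8_co, engine piece THINA: area of the waiting strips

A waiting strip `(w, l)` of window `i ≥ K'`: `w ≤ 1 / tau i`, `l tau (i + 16) < slots + 1`, so its area is
`≤ slots / (tau i tau (i + 16)) + w / tau (i + 16)`. With `j = i / 12` (`κ' ≤ j`), `slots / DD i = xx (12 j + 15) (w, l)` (`xx_eq`) and
`DD i / (tau i tau (i + 16)) ≤ 1.001 (1 / tau (12 j) - 1 / tau (12 j + 12))` (`group_ratio`; real maximum of the quotient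
`1.0002`; `DD i ≤ (36 i ^ 2 + 720 i + 4032) / 27000 + 64`, `tau (12 j + 12) - tau (12 j) ≥ (36 n ^ 2 + 432 n + 1728) / 27000 - 64` with `n = 12 j`,
`tau i ≥ tau n`, `tau (i + 16) ≥ tau (n + 16)`, `i ≤ n + 11`: it is enough to compare with `i = n` for the denominators and to use
`DD i ≤` at `i = n + 11`? No: `DD (n + 11) / DD n = 1 + 22 / n` would lose 0.2 percent at `n = 12900`; so compare
`DD i / (tau i tau (i + 16))` at the same `i`: as a function of `i` it decreases like `i ^ (-4)`; polynomial inequality in `n`, `d = i - n ≤ 11`).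
Sum over the strips and telescope over `j`: `≤ 0.88 * 1.001 / tau K' + (∑ w) / tau K' ≤ 0.881 / tau K' + (∑ w) / tau K'`.
-/

namespace Pool.Agent.Moser.Eng

private lemma thinA_poly {n : ℝ} (hn : 12900 ≤ n) :
    (36 * n ^ 2 + 720 * n + 1732032) * (n ^ 3 * ((n + 12) ^ 3 - 1728000)) ≤
      1.001 * (36 * n ^ 2 + 432 * n + 1728 - 1728000) *
        ((n ^ 3 - 1728000) * ((n + 16) ^ 3 - 1728000)) := by
  obtain ⟨t, ht, rfl⟩ : ∃ t : ℝ, 0 ≤ t ∧ n = 12900 + t := ⟨n - 12900, by linarith, by ring⟩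
  rw [← sub_nonneg]
  ring_nf
  positivity

private lemma thinA_mono {n x : ℝ} (hn : 12900 ≤ n) (hx : n ≤ x) :
    (36 * x ^ 2 + 720 * x + 1732032) / ((x ^ 3 - 1728000) * ((x + 16) ^ 3 - 1728000)) ≤
      (36 * n ^ 2 + 720 * n + 1732032) / ((n ^ 3 - 1728000) * ((n + 16) ^ 3 - 1728000)) := by
  have hn0 : 0 < n := by linarith
  have hx0 : 0 < x := by linarith
  have hn3 : (12900 : ℝ) ^ 3 ≤ n ^ 3 := by gcongr
  have hx3 : n ^ 3 ≤ x ^ 3 := by gcongr
  have h16 : n ^ 3 ≤ (n + 16) ^ 3 := by gcongr; linarith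
  have h16' : (n + 16) ^ 3 ≤ (x + 16) ^ 3 := by gcongr
  have e1 : 0 < n ^ 3 - 1728000 := by norm_num at hn3; linarith
  have e2 : 0 < (n + 16) ^ 3 - 1728000 := by linarith
  have e3 : 0 < x ^ 3 - 1728000 := by linarith
  have e4 : 0 < (x + 16) ^ 3 - 1728000 := by linarith
  have a1 : (36 * x ^ 2 + 720 * x + 1732032) * n ^ 2 ≤ (36 * n ^ 2 + 720 * n + 1732032) * x ^ 2 := by
    have h1 : 0 ≤ n * x * (x - n) := by
      apply mul_nonneg (by positivity); linarith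
    have h2 : n ^ 2 ≤ x ^ 2 := by gcongr
    nlinarith
  have a2 : x ^ 2 * (n ^ 3 - 1728000) ≤ (x ^ 3 - 1728000) * n ^ 2 := by
    have h1 : 0 ≤ n ^ 2 * x ^ 2 * (x - n) := by
      apply mul_nonneg (by positivity); linarith
    have h2 : n ^ 2 ≤ x ^ 2 := by gcongr
    nlinarith
  rw [div_le_div_iff₀ (mul_pos e3 e4) (mul_pos e1 e2)]
  have hA : 0 ≤ 36 * x ^ 2 + 720 * x + 1732032 := by positivity
  have hA0 : 0 ≤ 36 * n ^ 2 + 720 * n + 1732032 := by positivity
  -- multiply by n^2 * x^2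
  have key : (36 * x ^ 2 + 720 * x + 1732032) * (n ^ 3 - 1728000) ≤
      (36 * n ^ 2 + 720 * n + 1732032) * (x ^ 3 - 1728000) := by
    have h1 : ((36 * x ^ 2 + 720 * x + 1732032) * n ^ 2) * (x ^ 2 * (n ^ 3 - 1728000)) ≤
        ((36 * n ^ 2 + 720 * n + 1732032) * x ^ 2) * ((x ^ 3 - 1728000) * n ^ 2) :=
      mul_le_mul a1 a2 (mul_nonneg (by positivity) e1.le) (by positivity)
    have h2 : 0 < n ^ 2 * x ^ 2 := by positivity
    nlinarith [h1, h2, mul_le_mul_iff_of_pos_left h2 (b := (36 * x ^ 2 + 720 * x + 1732032) * (n ^ 3 - 1728000))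
      (c := (36 * n ^ 2 + 720 * n + 1732032) * (x ^ 3 - 1728000))]
  calc (36 * x ^ 2 + 720 * x + 1732032) * ((n ^ 3 - 1728000) * ((n + 16) ^ 3 - 1728000))
      = ((36 * x ^ 2 + 720 * x + 1732032) * (n ^ 3 - 1728000)) * ((n + 16) ^ 3 - 1728000) := by ring
    _ ≤ ((36 * n ^ 2 + 720 * n + 1732032) * (x ^ 3 - 1728000)) * ((x + 16) ^ 3 - 1728000) := by
        apply mul_le_mul key (by linarith) e2.le
        exact mul_nonneg hA0 e3.le
    _ = _ := by ring

theorem group_ratio {i j : ℕ} (hj : 1075 ≤ j) (h1 : 12 * j ≤ i) (h2 : i < 12 * j + 12) :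
    (DD i : ℝ) / ((tau i : ℝ) * (tau (i + 16) : ℝ)) ≤
      1.001 * (1 / (tau (12 * j) : ℝ) - 1 / (tau (12 * j + 12) : ℝ)) := by
  set n : ℝ := ((12 * j : ℕ) : ℝ) with hn
  have hn1 : (12900 : ℝ) ≤ n := by
    rw [hn]; exact_mod_cast (by omega : 12900 ≤ 12 * j)
  have hx1 : n ≤ (i : ℝ) := by rw [hn]; exact_mod_cast h1
  have hn0 : 0 < n := by linarith
  have hn3 : (12900 : ℝ) ^ 3 ≤ n ^ 3 := by gcongr
  have hx3 : n ^ 3 ≤ (i : ℝ) ^ 3 := by gcongr
  have h16 : (i : ℝ) ^ 3 ≤ ((i : ℝ) + 16) ^ 3 := by gcongr; linarith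
  have h12 : n ^ 3 ≤ (n + 12) ^ 3 := by gcongr; linarith
  have h16n : n ^ 3 ≤ (n + 16) ^ 3 := by gcongr; linarith
  have e0 : (1728000 : ℝ) < n ^ 3 := by norm_num at hn3; linarith
  have hD := DD_le i
  have ht1 := lt_tau i
  have ht2 := lt_tau (i + 16)
  have ht3 := tau_le (12 * j)
  have ht4 := lt_tau (12 * j + 12)
  have ht3' := lt_tau (12 * j)
  rw [← hn] at ht3 ht3'
  have hc : ((12 * j + 12 : ℕ) : ℝ) = n + 12 := by rw [hn]; push_cast; ring
  rw [hc] at ht4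
  push_cast at ht2
  have hA : (DD i : ℝ) / ((tau i : ℝ) * (tau (i + 16) : ℝ)) ≤
      27000 * ((36 * (i : ℝ) ^ 2 + 720 * i + 1732032) /
        (((i : ℝ) ^ 3 - 1728000) * (((i : ℝ) + 16) ^ 3 - 1728000))) := by
    have p1 : 0 < ((i : ℝ) ^ 3 - 1728000) / 27000 := by
      apply div_pos _ (by norm_num); linarith
    have p2 : 0 < (((i : ℝ) + 16) ^ 3 - 1728000) / 27000 := by
      apply div_pos _ (by norm_num); linarith
    have q1 : ((i : ℝ) ^ 3 - 1728000) / 27000 ≤ (tau i : ℝ) := by linarith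
    have q2 : (((i : ℝ) + 16) ^ 3 - 1728000) / 27000 ≤ (tau (i + 16) : ℝ) := by linarith
    have q3 : (DD i : ℝ) ≤ (36 * (i : ℝ) ^ 2 + 720 * i + 1732032) / 27000 := by linarith
    have h3 : (DD i : ℝ) / ((tau i : ℝ) * (tau (i + 16) : ℝ)) ≤
        ((36 * (i : ℝ) ^ 2 + 720 * i + 1732032) / 27000) /
        ((((i : ℝ) ^ 3 - 1728000) / 27000) * ((((i : ℝ) + 16) ^ 3 - 1728000) / 27000)) := by
      apply div_le_div₀ (by positivity) q3 (mul_pos p1 p2)
      exact mul_le_mul q1 q2 p2.le (Nat.cast_nonneg _)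
    refine h3.trans (le_of_eq ?_)
    have r1 : (i : ℝ) ^ 3 - 1728000 ≠ 0 := by
      have : 0 < (i : ℝ) ^ 3 - 1728000 := by linarith
      exact this.ne'
    have r2 : ((i : ℝ) + 16) ^ 3 - 1728000 ≠ 0 := by
      have : 0 < ((i : ℝ) + 16) ^ 3 - 1728000 := by linarith
      exact this.ne'
    field_simp
  have hB := thinA_mono hn1 hx1
  have hP := thinA_poly hn1
  have s1 : 0 < n ^ 3 - 1728000 := by linarith
  have s2 : 0 < (n + 16) ^ 3 - 1728000 := by linarith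
  have s3 : 0 < (n + 12) ^ 3 - 1728000 := by linarith
  have s4 : 0 < n ^ 3 := by linarith
  have hC : (36 * n ^ 2 + 720 * n + 1732032) / ((n ^ 3 - 1728000) * ((n + 16) ^ 3 - 1728000)) ≤
      1.001 * ((36 * n ^ 2 + 432 * n + 1728 - 1728000) / (n ^ 3 * ((n + 12) ^ 3 - 1728000))) := by
    rw [← mul_div_assoc, div_le_div_iff₀ (mul_pos s1 s2) (mul_pos s4 s3)]
    exact hP
  have hE : (36 * n ^ 2 + 432 * n + 1728 - 1728000) / (n ^ 3 * ((n + 12) ^ 3 - 1728000)) =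
      1 / n ^ 3 - 1 / ((n + 12) ^ 3 - 1728000) := by
    rw [div_sub_div _ _ s4.ne' s3.ne']
    congr 1
    ring
  have hF : 27000 * (1 / n ^ 3 - 1 / ((n + 12) ^ 3 - 1728000)) ≤
      1 / (tau (12 * j) : ℝ) - 1 / (tau (12 * j + 12) : ℝ) := by
    have u1 : 0 < (tau (12 * j) : ℝ) := by
      have : 0 < n ^ 3 / 27000 - 64 := by linarith
      linarith
    have u2 : 27000 * (1 / n ^ 3) ≤ 1 / (tau (12 * j) : ℝ) := by
      rw [mul_one_div, div_le_div_iff₀ s4 u1]
      linarith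
    have u3 : 0 < (tau (12 * j + 12) : ℝ) := by
      have : 0 < (n + 12) ^ 3 / 27000 - 64 := by linarith
      linarith
    have u4 : 1 / (tau (12 * j + 12) : ℝ) ≤ 27000 * (1 / ((n + 12) ^ 3 - 1728000)) := by
      rw [mul_one_div, div_le_div_iff₀ u3 s3]
      linarith
    linarith
  calc (DD i : ℝ) / ((tau i : ℝ) * (tau (i + 16) : ℝ)) ≤ _ := hA
    _ ≤ 27000 * (1.001 * (1 / n ^ 3 - 1 / ((n + 12) ^ 3 - 1728000))) := by
        apply mul_le_mul_of_nonneg_left _ (by norm_num)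
        rw [← hE]
        exact hB.trans hC
    _ = 1.001 * (27000 * (1 / n ^ 3 - 1 / ((n + 12) ^ 3 - 1728000))) := by ring
    _ ≤ _ := mul_le_mul_of_nonneg_left hF (by norm_num)

private lemma thinA_bound {κ' : ℕ} (hκ' : 1075 ≤ κ') (W : Multiset (ℝ × ℝ))
    (hW : ∀ r ∈ W, 0 < r.1 ∧ (tau (12 * κ') : ℝ) * r.1 ≤ 1 ∧ 0 ≤ r.2) :
    ∃ M : ℕ, κ' ≤ M ∧ ∀ r ∈ W, ∃ i : ℕ, 12 * κ' ≤ i ∧ i < 12 * M ∧ InW i r.1 := by
  induction W using Multiset.induction with
  | empty => exact ⟨κ', le_rfl, fun r hr => absurd hr (Multiset.notMem_zero r)⟩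
  | cons a s ih =>
    obtain ⟨M, hM, hM'⟩ := ih fun r hr => hW r (Multiset.mem_cons_of_mem hr)
    obtain ⟨h1, h2, _⟩ := hW a (Multiset.mem_cons_self a s)
    obtain ⟨i, hi1, hi2⟩ := InW_exists (K := 12 * κ') (by omega) h1 h2
    refine ⟨max M (i + 1), le_max_of_le_left hM, fun r hr => ?_⟩
    rcases Multiset.mem_cons.1 hr with rfl | hr
    · refine ⟨i, hi1, ?_, hi2⟩
      have := le_max_right M (i + 1)
      omega
    · obtain ⟨i', h3, h4, h5⟩ := hM' r hr
      refine ⟨i', h3, ?_, h5⟩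
      have := le_max_left M (i + 1)
      omega

private lemma thinA_swap (g : ℕ → ℝ) (W : Multiset (ℝ × ℝ)) (s : Finset ℕ) (T : ℝ) :
    (W.map fun r => ∑ j ∈ s, g j * xx (12 * j + 15) r + r.1 / T).sum =
      ∑ j ∈ s, g j * XX (12 * j + 15) W + (W.map Prod.fst).sum / T := by
  induction W using Multiset.induction with
  | empty => simp [XX]
  | cons a W ih =>
    rw [Multiset.map_cons, Multiset.sum_cons, ih, Multiset.map_cons, Multiset.sum_cons]
    have h : ∑ j ∈ s, g j * XX (12 * j + 15) (a ::ₘ W) =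
        ∑ j ∈ s, g j * xx (12 * j + 15) a + ∑ j ∈ s, g j * XX (12 * j + 15) W := by
      rw [← Finset.sum_add_distrib]
      refine Finset.sum_congr rfl fun j _ => ?_
      unfold XX
      rw [Multiset.map_cons, Multiset.sum_cons]
      ring
    rw [h]
    ring

private lemma thinA_tel (f : ℕ → ℝ) {a b : ℕ} (h : a ≤ b) :
    ∑ j ∈ Finset.Ico a b, (f j - f (j + 1)) = f a - f b := by
  induction b, h using Nat.le_induction with
  | base => simp
  | succ n hn ih =>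
    rw [Finset.sum_Ico_succ_top hn, ih]
    ring

theorem thin_wait {κ' : ℕ} (hκ' : 1075 ≤ κ') (W : Multiset (ℝ × ℝ))
    (hW : ∀ r ∈ W, 0 < r.1 ∧ (tau (12 * κ') : ℝ) * r.1 ≤ 1 ∧ 0 ≤ r.2)
    (hload : ∀ j, κ' ≤ j → XX (12 * j + 15) W ≤ 0.88) :
    area W ≤ (0.881 + (W.map Prod.fst).sum) / (tau (12 * κ') : ℝ) := by
  obtain ⟨M, hM, hM'⟩ := thinA_bound hκ' W hW
  have hT : 0 < (tau (12 * κ') : ℝ) := by
    have := tau_pos (i := 12 * κ') (by omega)
    linarith
  set g : ℕ → ℝ := fun j => 1.001 * (1 / (tau (12 * j) : ℝ) - 1 / (tau (12 * (j + 1)) : ℝ)) with hg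
  have hg0 : ∀ j ∈ Finset.Ico κ' M, 0 ≤ g j := by
    intro j hj
    rw [Finset.mem_Ico] at hj
    have h1 : 0 < (tau (12 * j) : ℝ) := by
      have := tau_pos (i := 12 * j) (by omega)
      linarith
    have h2 : (tau (12 * j) : ℝ) ≤ tau (12 * (j + 1)) := by
      exact_mod_cast tau_mono (by omega)
    have h3 : 1 / (tau (12 * (j + 1)) : ℝ) ≤ 1 / (tau (12 * j) : ℝ) :=
      one_div_le_one_div_of_le h1 h2
    rw [hg]
    have : 0 ≤ 1 / (tau (12 * j) : ℝ) - 1 / (tau (12 * (j + 1)) : ℝ) := by linarith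
    positivity
  have hone : ∀ r ∈ W, r.1 * r.2 ≤ ∑ j ∈ Finset.Ico κ' M, g j * xx (12 * j + 15) r +
      r.1 / (tau (12 * κ') : ℝ) := by
    intro r hr
    obtain ⟨h1, h2, h3⟩ := hW r hr
    obtain ⟨i, hi1, hi2, hi3⟩ := hM' r hr
    set j := i / 12 with hj
    have hj1 : 12 * j ≤ i := by omega
    have hj2 : i < 12 * j + 12 := by omega
    have hjM : j ∈ Finset.Ico κ' M := by
      rw [Finset.mem_Ico]; omega
    have hti : 0 < (tau i : ℝ) := by
      have := tau_pos (i := i) (by omega)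
      linarith
    have hti' : 0 < (tau (i + 16) : ℝ) := by
      have := tau_pos (i := i + 16) (by omega)
      linarith
    have hTi : (tau (12 * κ') : ℝ) ≤ tau (i + 16) := by
      exact_mod_cast tau_mono (by omega)
    have hxx : xx (12 * j + 15) r = (slots i r.2 : ℝ) / (DD i : ℝ) := by
      rw [xx_eq (by omega) (by omega) hi3, if_pos]
      constructor <;> omega
    have hDD := DD_pos (i := i) (by omega)
    have hsl : r.2 * (tau (i + 16) : ℝ) < (slots i r.2 : ℝ) + 1 := by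
      unfold slots
      exact Nat.lt_floor_add_one _
    have hw : r.1 ≤ 1 / (tau i : ℝ) := by
      rw [le_div_iff₀ hti, mul_comm]
      exact hi3.1
    have hgr := group_ratio (i := i) (j := j) (by omega) hj1 hj2
    have hgj : (DD i : ℝ) / ((tau i : ℝ) * (tau (i + 16) : ℝ)) ≤ g j := by
      rw [hg]
      have : 12 * j + 12 = 12 * (j + 1) := by ring
      rw [this] at hgr
      exact hgr
    have hl : r.2 ≤ ((slots i r.2 : ℝ) + 1) / (tau (i + 16) : ℝ) := by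
      rw [le_div_iff₀ hti']
      exact hsl.le
    have hs0 : (0 : ℝ) ≤ (slots i r.2 : ℝ) := Nat.cast_nonneg _
    calc r.1 * r.2 ≤ r.1 * (((slots i r.2 : ℝ) + 1) / (tau (i + 16) : ℝ)) :=
          mul_le_mul_of_nonneg_left hl h1.le
      _ = r.1 * ((slots i r.2 : ℝ) / (tau (i + 16) : ℝ)) + r.1 / (tau (i + 16) : ℝ) := by ring
      _ ≤ 1 / (tau i : ℝ) * ((slots i r.2 : ℝ) / (tau (i + 16) : ℝ)) +
          r.1 / (tau (12 * κ') : ℝ) := by
          apply add_le_add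
          · exact mul_le_mul_of_nonneg_right hw (by positivity)
          · exact div_le_div_of_nonneg_left h1.le hT hTi
      _ = ((DD i : ℝ) / ((tau i : ℝ) * (tau (i + 16) : ℝ))) * ((slots i r.2 : ℝ) / (DD i : ℝ)) +
          r.1 / (tau (12 * κ') : ℝ) := by
          field_simp
      _ ≤ g j * xx (12 * j + 15) r + r.1 / (tau (12 * κ') : ℝ) := by
          rw [hxx]
          gcongr
      _ ≤ _ := by
          gcongr
          exact Finset.single_le_sum (f := fun j => g j * xx (12 * j + 15) r)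
            (fun j' hj' => mul_nonneg (hg0 j' hj') (xx_nonneg _ _)) hjM
  have hsum : area W ≤ ∑ j ∈ Finset.Ico κ' M, g j * XX (12 * j + 15) W +
      (W.map Prod.fst).sum / (tau (12 * κ') : ℝ) := by
    have h1 : area W ≤ (W.map fun r => ∑ j ∈ Finset.Ico κ' M, g j * xx (12 * j + 15) r +
        r.1 / (tau (12 * κ') : ℝ)).sum := by
      unfold area
      exact Multiset.sum_map_le_sum_map _ _ hone
    refine h1.trans (le_of_eq ?_)
    exact thinA_swap g W (Finset.Ico κ' M) _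
  have htel : ∑ j ∈ Finset.Ico κ' M, g j ≤ 1.001 * (1 / (tau (12 * κ') : ℝ)) := by
    have h1 : ∑ j ∈ Finset.Ico κ' M, g j =
        1.001 * (1 / (tau (12 * κ') : ℝ) - 1 / (tau (12 * M) : ℝ)) := by
      rw [hg, ← Finset.mul_sum]
      congr 1
      exact thinA_tel (fun j => 1 / (tau (12 * j) : ℝ)) hM
    rw [h1]
    have h2 : 0 ≤ 1 / (tau (12 * M) : ℝ) := by positivity
    linarith
  have hfin : ∑ j ∈ Finset.Ico κ' M, g j * XX (12 * j + 15) W ≤
      0.881 / (tau (12 * κ') : ℝ) := by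
    have h1 : ∑ j ∈ Finset.Ico κ' M, g j * XX (12 * j + 15) W ≤
        ∑ j ∈ Finset.Ico κ' M, g j * 0.88 :=
      Finset.sum_le_sum fun j hj =>
        mul_le_mul_of_nonneg_left (hload j (Finset.mem_Ico.1 hj).1) (hg0 j hj)
    rw [← Finset.sum_mul] at h1
    have h2 : (∑ j ∈ Finset.Ico κ' M, g j) * 0.88 ≤ 1.001 * (1 / (tau (12 * κ') : ℝ)) * 0.88 :=
      mul_le_mul_of_nonneg_right htel (by norm_num)
    have h3 : 1.001 * (1 / (tau (12 * κ') : ℝ)) * 0.88 ≤ 0.881 / (tau (12 * κ') : ℝ) := by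
      rw [div_eq_mul_one_div (0.881 : ℝ)]
      have h4 : 0 < 1 / (tau (12 * κ') : ℝ) := by positivity
      nlinarith
    linarith
  rw [add_div]
  linarith

end Pool.Agent.Moser.Eng
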