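import Pool.Agent.Lib_MP_cc07e8_co.EngTau

/-!
# MP_cc07e8_co, engine piece WIN: windows, loads in terms of the window, potential

Elementary consequences of the definitions and of `EngTau` (`tau` is strictly increasing from `10300` on).
-/

namespace Pool.Agent.Moser.Eng

theorem InW_pos {i : ℕ} {w : ℝ} (h : InW i w) : 0 < w := by
  by_contra hw
  push Not at hw
  have h1 : (tau (i + 1) : ℝ) * w ≤ 0 := mul_nonpos_of_nonneg_of_nonpos (Nat.cast_nonneg _) hw
  linarith [h.2]

private lemma InW_aux {i j : ℕ} {w : ℝ} (h1 : InW i w) (h2 : InW j w) (h : i < j) : False := by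
  have h3 : (tau (i + 1) : ℝ) ≤ tau j := by exact_mod_cast tau_mono h
  have h4 := mul_le_mul_of_nonneg_right h3 (InW_pos h1).le
  linarith [h1.2, h2.1]

/-- the window of a strip exists and is unique -/
theorem InW_unique {i j : ℕ} (hi : 10300 ≤ i) (hj : 10300 ≤ j) {w : ℝ} (h1 : InW i w)
    (h2 : InW j w) : i = j := by
  rcases lt_trichotomy i j with h | h | h
  · exact (InW_aux h1 h2 h).elim
  · exact h
  · exact (InW_aux h2 h1 h).elim

theorem InW_exists {K : ℕ} (hK : 10300 ≤ K) {w : ℝ} (hw : 0 < w) (h : (tau K : ℝ) * w ≤ 1) :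
    ∃ i, K ≤ i ∧ InW i w := by
  classical
  have hex : ∃ n : ℕ, 1 < (tau (K + n + 1) : ℝ) * w := by
    obtain ⟨n, hn⟩ := exists_nat_gt (27000 * (1 / w + 64))
    refine ⟨n, ?_⟩
    have h1 := lt_tau (K + n + 1)
    have h2 : (n : ℝ) ≤ ((K + n + 1 : ℕ) : ℝ) := by push_cast; linarith [(Nat.cast_nonneg K : (0:ℝ) ≤ K)]
    have h3 : (1 : ℝ) ≤ ((K + n + 1 : ℕ) : ℝ) := by
      exact_mod_cast Nat.le_add_left 1 (K + n)
    have h4 : ((K + n + 1 : ℕ) : ℝ) ≤ ((K + n + 1 : ℕ) : ℝ) ^ 3 := by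
      calc ((K + n + 1 : ℕ) : ℝ) = ((K + n + 1 : ℕ) : ℝ) ^ 1 := (pow_one _).symm
        _ ≤ ((K + n + 1 : ℕ) : ℝ) ^ 3 := pow_le_pow_right₀ h3 (by norm_num)
    have h5 : 1 / w < (tau (K + n + 1) : ℝ) := by
      have : 27000 * (1 / w + 64) < ((K + n + 1 : ℕ) : ℝ) ^ 3 := by linarith
      linarith
    rw [div_lt_iff₀ hw] at h5
    exact h5
  have h1 := Nat.find_spec hex
  refine ⟨K + Nat.find hex, Nat.le_add_right _ _, ?_, h1⟩
  rcases Nat.eq_zero_or_pos (Nat.find hex) with h0 | h0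
  · rw [h0]; exact h
  · have h2 := Nat.find_min hex (m := Nat.find hex - 1) (by omega)
    push Not at h2
    have h3 : K + (Nat.find hex - 1) + 1 = K + Nat.find hex := by omega
    rwa [h3] at h2

/-- comparison of the window with a bound -/
theorem InW_lt {i K : ℕ} (hi : 10300 ≤ i) {w : ℝ} (h : InW i w)
    (hK : ¬ (tau K : ℝ) * w ≤ 1) : i < K := by
  by_contra hc
  push Not at hc
  apply hK
  have h3 : (tau K : ℝ) ≤ tau i := by exact_mod_cast tau_mono hc
  exact (mul_le_mul_of_nonneg_right h3 (InW_pos h).le).trans h.1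

theorem InW_le {i K : ℕ} (hK : 10300 ≤ K) {w : ℝ} (h : InW i w)
    (hw : (tau K : ℝ) * w ≤ 1) : K ≤ i := by
  by_contra hc
  push Not at hc
  have h3 : (tau (i + 1) : ℝ) ≤ tau K := by exact_mod_cast tau_mono hc
  have h4 := mul_le_mul_of_nonneg_right h3 (InW_pos h).le
  linarith [h.2]

/-- load in terms of the window -/
theorem xx_eq {i k : ℕ} (hi : 10300 ≤ i) (hk : 10315 ≤ k) {r : ℝ × ℝ} (h : InW i r.1) :
    xx k r = if i + 4 ≤ k ∧ k ≤ i + 15 then (slots i r.2 : ℝ) / (DD i : ℝ) else 0 := by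
  classical
  unfold xx
  have h1 : ∀ j ∈ Finset.Icc (k - 15) (k - 4),
      (if InW j r.1 then (slots j r.2 : ℝ) / (DD j : ℝ) else 0) =
      if j = i then (slots i r.2 : ℝ) / (DD i : ℝ) else 0 := by
    intro j hj
    rw [Finset.mem_Icc] at hj
    by_cases hji : j = i
    · subst hji
      rw [if_pos h, if_pos rfl]
    · rw [if_neg hji, if_neg]
      intro hc
      exact hji (InW_unique (by omega) hi hc h)
  rw [Finset.sum_congr rfl h1, Finset.sum_ite_eq']
  refine if_congr ?_ rfl rfl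
  rw [Finset.mem_Icc]
  omega

theorem xx_nonneg (k : ℕ) (r : ℝ × ℝ) : 0 ≤ xx k r := by
  unfold xx
  refine Finset.sum_nonneg fun i _ => ?_
  split_ifs
  · positivity
  · exact le_rfl

theorem phi_nonneg (k i : ℕ) : 0 ≤ phi k i := by
  unfold phi
  split_ifs
  · positivity
  · exact le_rfl

/-- expected load of the children in terms of the window -/
theorem yy_eq {i k : ℕ} (hi : 10320 ≤ i) (hk : i < k) {r : ℝ × ℝ} (h : InW i r.1) :
    yy k r = (slots i r.2 : ℝ) / (DD i : ℝ) * phi k i := by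
  classical
  unfold yy
  have h1 : ∀ j ∈ Finset.Ico 10320 k,
      (if InW j r.1 then (slots j r.2 : ℝ) / (DD j : ℝ) * phi k j else 0) =
      if j = i then (slots i r.2 : ℝ) / (DD i : ℝ) * phi k i else 0 := by
    intro j hj
    rw [Finset.mem_Ico] at hj
    by_cases hji : j = i
    · subst hji
      rw [if_pos h, if_pos rfl]
    · rw [if_neg hji, if_neg]
      intro hc
      exact hji (InW_unique (by omega) (by omega) hc h)
  rw [Finset.sum_congr rfl h1, Finset.sum_ite_eq', if_pos]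
  rw [Finset.mem_Ico]
  omega

theorem yy_nonneg (k : ℕ) (r : ℝ × ℝ) : 0 ≤ yy k r := by
  unfold yy
  refine Finset.sum_nonneg fun i _ => ?_
  split_ifs
  · have := phi_nonneg k i
    positivity
  · exact le_rfl

/-- a block `b` of window `k` is in the range of window `i` iff `i + 4 ≤ k ≤ i + 15` -/
theorem blk_range {i k b : ℕ} (hk1 : sig k ≤ b) (hk2 : b < sig (k + 1)) :
    (sig (i + 4) ≤ b ∧ b < sig (i + 16)) ↔ (i + 4 ≤ k ∧ k ≤ i + 15) := by
  constructor
  · rintro ⟨h1, h2⟩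
    constructor
    · by_contra hc
      have : sig (k + 1) ≤ sig (i + 4) := sig_mono (by omega)
      omega
    · by_contra hc
      have : sig (i + 16) ≤ sig k := sig_mono (by omega)
      omega
  · rintro ⟨h1, h2⟩
    have h3 : sig (i + 4) ≤ sig k := sig_mono h1
    have h4 : sig (k + 1) ≤ sig (i + 16) := sig_mono (by omega)
    omega

theorem pot_nonneg (k : ℕ) (w : ℝ) : 0 ≤ pot k w := by
  unfold pot
  split_ifs with h
  · have h0 : (0 : ℝ) ≤ tau k := Nat.cast_nonneg _
    rcases h0.eq_or_lt with h1 | h1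
    · rw [← h1] at h
      norm_num at h
    · have h2 : 16 / 7 / (tau k : ℝ) ≤ w := by
        rw [div_le_iff₀ h1]; exact h
      have h3 : 1.55 / (tau k : ℝ) ≤ 5.4 * (16 / 7 / (tau k : ℝ)) := by
        rw [← mul_div_assoc]
        exact div_le_div_of_nonneg_right (by norm_num) h1.le
      linarith
  · exact le_rfl

/-- `pot k w ≤ 5.4 * w` for `w ≥ 0` -/
theorem pot_le (k : ℕ) {w : ℝ} (hw : 0 ≤ w) : pot k w ≤ 5.4 * w := by
  unfold pot
  split_ifs with h
  · have : 0 ≤ 1.55 / (tau k : ℝ) := by positivity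
    linarith
  · positivity

end Pool.Agent.Moser.Eng
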