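import Pool.Agent.Lib_MP_cc07e8_co.Msum

/-!
# Columns of a strictly increasing sequence of squares: definitions and first lemmas (helper60, for MP_cc07e8_co)

`q` is a strictly increasing sequence of squares.  The column which starts at position `x` has
`nrows x = ⌊H q(x) - θ⌋` squares.
-/

namespace Pool.Agent.Moser

open Finset

/-- total length of the long sides -/
noncomputable def lng (ρ : Multiset (ℝ × ℝ)) : ℝ := msum (fun r => max r.1 r.2) ρ

/-- total length of the short sides -/
noncomputable def sht (ρ : Multiset (ℝ × ℝ)) : ℝ := msum (fun r => min r.1 r.2) ρ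

@[simp] theorem lng_zero : lng 0 = 0 := by simp [lng]

@[simp] theorem sht_zero : sht 0 = 0 := by simp [sht]

@[simp] theorem lng_add (ρ σ : Multiset (ℝ × ℝ)) : lng (ρ + σ) = lng ρ + lng σ := by simp [lng]

@[simp] theorem sht_add (ρ σ : Multiset (ℝ × ℝ)) : sht (ρ + σ) = sht ρ + sht σ := by simp [sht]

@[simp] theorem lng_singleton (r : ℝ × ℝ) : lng {r} = max r.1 r.2 := by simp [lng]

@[simp] theorem sht_singleton (r : ℝ × ℝ) : sht {r} = min r.1 r.2 := by simp [sht]

section

variable {q : ℕ → ℕ}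

theorem q_pos (hq : StrictMono q) (h0 : 0 < q 0) (x : ℕ) : 0 < q x :=
  lt_of_lt_of_le h0 (hq.monotone (Nat.zero_le x))

theorem q_posR (hq : StrictMono q) (h0 : 0 < q 0) (x : ℕ) : (0 : ℝ) < q x := by
  exact_mod_cast q_pos hq h0 x

theorem inv_anti (hq : StrictMono q) (h0 : 0 < q 0) {x y : ℕ} (h : x ≤ y) :
    1 / (q y : ℝ) ≤ 1 / (q x : ℝ) :=
  one_div_le_one_div_of_le (q_posR hq h0 x) (by exact_mod_cast hq.monotone h)

end

/-- number of rows of the column which starts at position `x` -/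
noncomputable def nrows (H θ : ℝ) (q : ℕ → ℕ) (x : ℕ) : ℕ := ⌊H * q x - θ⌋₊

/-- start of column `j`; the first column starts at position `s` -/
noncomputable def cst (H θ : ℝ) (q : ℕ → ℕ) (s : ℕ) : ℕ → ℕ
  | 0 => s
  | j + 1 => cst H θ q s j + nrows H θ q (cst H θ q s j)

/-- height of the gap above column `j` -/
noncomputable def tgap (H θ : ℝ) (q : ℕ → ℕ) (s j : ℕ) : ℝ :=
  H - ∑ x ∈ Ico (cst H θ q s j) (cst H θ q s (j + 1)), 1 / (q x : ℝ)

/-- the gaps above the columns -/
noncomputable def ttops (H θ : ℝ) (q : ℕ → ℕ) (s J : ℕ) : Multiset (ℝ × ℝ) :=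
  ∑ j ∈ range J, {(1 / (q (cst H θ q s (j + 1) - 1) : ℝ), tgap H θ q s j)}

/-- total width of the first `J` columns -/
noncomputable def cwid (H θ : ℝ) (q : ℕ → ℕ) (s J : ℕ) : ℝ :=
  ∑ j ∈ range J, 1 / (q (cst H θ q s j) : ℝ)

section

variable {H θ : ℝ} {q : ℕ → ℕ}

theorem strict_add (hq : StrictMono q) (x m : ℕ) : q x + m ≤ q (x + m) := by
  induction m with
  | zero => exact le_rfl
  | succ m ih =>
    have := hq (Nat.lt_succ_self (x + m))
    show q x + (m + 1) ≤ q (x + m + 1)
    rw [Nat.succ_eq_add_one] at this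
    omega

theorem nrows_mono (hq : StrictMono q) (hH : 0 ≤ H) {x y : ℕ} (h : x ≤ y) :
    nrows H θ q x ≤ nrows H θ q y := by
  apply Nat.floor_mono
  have : (q x : ℝ) ≤ q y := by exact_mod_cast hq.monotone h
  have := mul_le_mul_of_nonneg_left this hH
  linarith

theorem nrows_le {x : ℕ} (h : 1 ≤ nrows H θ q x) : (nrows H θ q x : ℝ) ≤ H * q x - θ := by
  apply Nat.floor_le
  have h1 : 0 < ⌊H * q x - θ⌋₊ := h
  have := Nat.floor_pos.1 h1
  linarith

theorem lt_nrows (x : ℕ) : H * q x - θ < nrows H θ q x + 1 := Nat.lt_floor_add_one _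

theorem cst_add (s i j : ℕ) : cst H θ q s (i + j) = cst H θ q (cst H θ q s i) j := by
  induction j with
  | zero => rfl
  | succ j ih =>
    show cst H θ q s (i + j) + nrows H θ q (cst H θ q s (i + j)) = _
    rw [ih]
    rfl

theorem cst_mono (s : ℕ) {i j : ℕ} (h : i ≤ j) : cst H θ q s i ≤ cst H θ q s j :=
  monotone_nat_of_le_succ (f := fun i => cst H θ q s i)
    (fun i => by
      show cst H θ q s i ≤ cst H θ q s i + nrows H θ q (cst H θ q s i)
      exact Nat.le_add_right _ _) h

theorem cst_ge (s j : ℕ) : s ≤ cst H θ q s j := cst_mono (H := H) (θ := θ) (q := q) s (Nat.zero_le j)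

theorem nrows_cst_ge (hq : StrictMono q) (hH : 0 ≤ H) (s j : ℕ) :
    nrows H θ q s ≤ nrows H θ q (cst H θ q s j) := nrows_mono hq hH (cst_ge s j)

/-- columns with the same number of rows -/
theorem cst_block {s K L : ℕ} (h : ∀ i < L, nrows H θ q (cst H θ q s i) = K) :
    ∀ i ≤ L, cst H θ q s i = s + K * i := by
  intro i
  induction i with
  | zero => intro _; simp [cst]
  | succ i ih =>
    intro hi
    show cst H θ q s i + nrows H θ q (cst H θ q s i) = _
    rw [h i (by omega), ih (by omega)]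
    ring

/-- the column fits -/
theorem col_fits (hq : StrictMono q) (h0 : 0 < q 0) {x : ℕ}
    (hK : 1 ≤ nrows H θ q x) :
    ∑ y ∈ Ico x (x + nrows H θ q x), 1 / (q y : ℝ) ≤ H - θ / q x := by
  have hx : (0 : ℝ) < q x := q_posR hq h0 x
  calc ∑ y ∈ Ico x (x + nrows H θ q x), 1 / (q y : ℝ)
      ≤ ∑ y ∈ Ico x (x + nrows H θ q x), 1 / (q x : ℝ) := by
        apply Finset.sum_le_sum
        intro y hy
        exact inv_anti hq h0 (mem_Ico.1 hy).1
    _ = nrows H θ q x / q x := by
        rw [Finset.sum_const, Nat.card_Ico, nsmul_eq_mul, Nat.add_sub_cancel_left]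
        ring
    _ ≤ H - θ / q x := by
        have h1 := nrows_le hK
        rw [div_le_iff₀ hx, sub_mul, div_mul_cancel₀ _ hx.ne']
        exact h1

end

end Pool.Agent.Moser
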