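import Pool.Agent.Lib_MP_cc07e8_co.Stair
import Pool.Agent.Lib_MP_cc07e8_co.ShelfBase

/-!
# Main epoch, part A: a slab filled by one staircase (helper60, for MP_cc07e8_co)

`H = K0 / q 0`, columns of `⌊H q⌋` squares of the strictly increasing sequence `q`.
-/

namespace Pool.Agent.Moser

open Finset Pool.Agent.Shelf

theorem sum_min_le {K : ℕ} (hK : 1 ≤ K) {k : ℕ} (hk : K ≤ k + 1) :
    ∑ r ∈ range k, (min ((r : ℝ) + 1) K) = k * K - K * (K - 1) / 2 := by
  obtain ⟨n, hn⟩ : ∃ n, K = n + 1 := ⟨K - 1, by omega⟩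
  have hnk : n ≤ k := by omega
  induction k, hnk using Nat.le_induction with
  | base =>
    have h1 : ∑ r ∈ range n, (min ((r : ℝ) + 1) K) = ∑ r ∈ range n, ((r : ℝ) + 1) := by
      apply Finset.sum_congr rfl
      intro r hr
      rw [mem_range] at hr
      apply min_eq_left
      rw [hn]
      have : (r : ℝ) ≤ n := by exact_mod_cast hr.le
      push_cast
      linarith
    have h2 : ∀ t : ℕ, ∑ r ∈ range t, ((r : ℝ) + 1) = t * (t + 1) / 2 := by
      intro t
      induction t with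
      | zero => simp
      | succ t ih =>
        rw [Finset.sum_range_succ, ih]
        push_cast
        ring
    rw [h1, h2, hn]
    push_cast
    ring
  | succ k hk' ih =>
    rw [Finset.sum_range_succ, ih (by omega)]
    have : min ((k : ℝ) + 1) K = K := by
      apply min_eq_right
      have : (K : ℝ) ≤ ((k + 1 : ℕ) : ℝ) := by exact_mod_cast (show K ≤ k + 1 by omega)
      push_cast at this
      exact this
    rw [this]
    push_cast
    ring

section

variable {H : ℝ} {q : ℕ → ℕ}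

/-- number of rows of column `i` -/
noncomputable def ccol (H : ℝ) (q : ℕ → ℕ) (i : ℕ) : ℕ := nrows H 0 q (cst H 0 q 0 i)

/-- the matrix of the squares -/
noncomputable def cmat (H : ℝ) (q : ℕ → ℕ) (r i : ℕ) : ℕ := q (cst H 0 q 0 i + r)

theorem cst_succ' (i : ℕ) : cst H 0 q 0 (i + 1) = cst H 0 q 0 i + ccol H q i := rfl

theorem ccol_mono (hq : StrictMono q) (hH : 0 ≤ H) {i j : ℕ} (h : i ≤ j) :
    ccol H q i ≤ ccol H q j := nrows_mono hq hH (cst_mono 0 h)

theorem ccol_le {i : ℕ} (h : 1 ≤ ccol H q i) : (ccol H q i : ℝ) ≤ H * q (cst H 0 q 0 i) := by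
  have := nrows_le h
  rw [sub_zero] at this
  exact this

theorem ccol_zero {K0 : ℕ} (h0 : 0 < q 0) (hHe : H = K0 / (q 0 : ℝ)) : ccol H q 0 = K0 := by
  have hN : (0 : ℝ) < q 0 := by exact_mod_cast h0
  unfold ccol nrows
  show ⌊H * (q 0 : ℝ) - 0⌋₊ = K0
  rw [hHe, div_mul_cancel₀ _ hN.ne', sub_zero, Nat.floor_natCast]

/-- shift of the rows -/
theorem cX_shift (hq : StrictMono q) (h0 : 0 < q 0) (hH : 0 ≤ H) (hK : 1 ≤ ccol H q 0)
    (l : ℕ) {i : ℕ} (hi : i ≤ l + 1) (r s : ℕ) :
    sX l (cmat H q) (ccol H q) r i - sX l (cmat H q) (ccol H q) s i ≤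
      1 / (q (cst H 0 q 0 i) : ℝ) - 1 / (q (cst H 0 q 0 (l + 1)) : ℝ) := by
  have hc1 : ∀ j, 1 ≤ ccol H q j := fun j => hK.trans (ccol_mono hq hH (Nat.zero_le j))
  unfold sX
  rw [← Finset.sum_sub_distrib]
  have h1 : ∑ j ∈ Ico i (l + 1), (sA (cmat H q) (ccol H q) r j - sA (cmat H q) (ccol H q) s j) ≤
      ∑ j ∈ Ico i (l + 1), (1 / (q (cst H 0 q 0 j) : ℝ) - 1 / (q (cst H 0 q 0 (j + 1)) : ℝ)) := by
    apply Finset.sum_le_sum
    intro j _
    have h2 : sA (cmat H q) (ccol H q) r j ≤ 1 / (q (cst H 0 q 0 j) : ℝ) :=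
      inv_anti hq h0 (Nat.le_add_right _ _)
    have h3 : 1 / (q (cst H 0 q 0 (j + 1)) : ℝ) ≤ sA (cmat H q) (ccol H q) s j := by
      apply inv_anti hq h0
      rw [cst_succ']
      have : min s (ccol H q j - 1) ≤ ccol H q j := (min_le_right _ _).trans (Nat.sub_le _ _)
      omega
    linarith
  refine h1.trans (le_of_eq ?_)
  have h4 : ∀ n, i ≤ n → ∑ j ∈ Ico i n, (1 / (q (cst H 0 q 0 j) : ℝ) -
      1 / (q (cst H 0 q 0 (j + 1)) : ℝ)) =
      1 / (q (cst H 0 q 0 i) : ℝ) - 1 / (q (cst H 0 q 0 n) : ℝ) := by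
    intro n hn
    induction n, hn using Nat.le_induction with
    | base => simp
    | succ n hn ih =>
      rw [Finset.sum_Ico_succ_top hn, ih]
      ring
  exact h4 (l + 1) hi

theorem cX_zero (l : ℕ) : sX l (cmat H q) (ccol H q) 0 0 = cwid H 0 q 0 (l + 1) := by
  unfold sX cwid
  rw [← Finset.range_eq_Ico]
  apply Finset.sum_congr rfl
  intro j _
  unfold sA cmat
  rw [Nat.zero_min, Nat.add_zero]

theorem sum_squares (J : ℕ) :
    ∑ i ∈ range J, ∑ r ∈ range (ccol H q i), ({cmat H q r i} : Multiset ℕ) =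
      (range (cst H 0 q 0 J)).val.map q := by
  have h1 : ∑ x ∈ range (cst H 0 q 0 J), ({q x} : Multiset ℕ) =
      (range (cst H 0 q 0 J)).val.map q := by
    rw [Finset.sum_eq_multiset_sum]
    have : (range (cst H 0 q 0 J)).val.map (fun x => ({q x} : Multiset ℕ)) =
        ((range (cst H 0 q 0 J)).val.map q).map (fun x => ({x} : Multiset ℕ)) := by
      rw [Multiset.map_map]
      rfl
    rw [this, Multiset.sum_map_singleton]
  rw [← h1]
  induction J with
  | zero => simp [cst]
  | succ J ih =>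
    rw [Finset.sum_range_succ, ih (by
      rw [Finset.sum_eq_multiset_sum]
      have : (range (cst H 0 q 0 J)).val.map (fun x => ({q x} : Multiset ℕ)) =
          ((range (cst H 0 q 0 J)).val.map q).map (fun x => ({x} : Multiset ℕ)) := by
        rw [Multiset.map_map]
        rfl
      rw [this, Multiset.sum_map_singleton]), cst_succ', Finset.sum_range_add]
    rfl

/-- total height of the pockets -/
theorem cH_total (hq : StrictMono q) (h0 : 0 < q 0) (hH : 0 < H) {K0 : ℕ} (hK0 : 1 ≤ K0)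
    (hHe : H = K0 / (q 0 : ℝ)) {k l : ℕ} (hk : ccol H q l = k + 1) :
    ∑ r ∈ range k, ∑ i ∈ range l, (sH H (cmat H q) (ccol H q) (r + 1) i -
      sH H (cmat H q) (ccol H q) (r + 1) (i + 1)) ≤
      H ^ 2 / 2 * ((q (cst H 0 q 0 (l + 1)) : ℝ) - q 0) := by
  have hN : (0 : ℝ) < q 0 := q_posR hq h0 0
  have hE : (0 : ℝ) < q (cst H 0 q 0 (l + 1)) := q_posR hq h0 _
  have hc0 : ccol H q 0 = K0 := ccol_zero h0 hHe
  have hKk : K0 ≤ k + 1 := by
    rw [← hc0, ← hk]
    exact ccol_mono hq hH.le (Nat.zero_le l)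
  have h1 : ∀ r ∈ range k, ∑ i ∈ range l, (sH H (cmat H q) (ccol H q) (r + 1) i -
      sH H (cmat H q) (ccol H q) (r + 1) (i + 1)) ≤
      (1 / (q 0 : ℝ)) * min ((r : ℝ) + 1) K0 -
        ((r : ℝ) + 1) * (1 / (q (cst H 0 q 0 (l + 1)) : ℝ)) := by
    intro r hr
    rw [mem_range] at hr
    rw [Finset.sum_range_sub' (fun i => sH H (cmat H q) (ccol H q) (r + 1) i)]
    have h2 : sH H (cmat H q) (ccol H q) (r + 1) 0 ≤ (1 / (q 0 : ℝ)) * min ((r : ℝ) + 1) K0 := by
      unfold sH
      rw [hc0]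
      split_ifs with h
      · have hm : min ((r : ℝ) + 1) K0 = (r : ℝ) + 1 := by
          apply min_eq_left
          have : ((r + 1 : ℕ) : ℝ) ≤ K0 := by exact_mod_cast h
          push_cast at this
          exact this
        rw [hm]
        calc ∑ t ∈ range (r + 1), 1 / ((cmat H q t 0 : ℕ) : ℝ)
            ≤ ∑ t ∈ range (r + 1), 1 / (q 0 : ℝ) :=
              Finset.sum_le_sum fun t _ => inv_anti hq h0 (Nat.zero_le _)
          _ = _ := by
              rw [Finset.sum_const, Finset.card_range, nsmul_eq_mul]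
              push_cast
              ring
      · have hm : min ((r : ℝ) + 1) K0 = K0 := by
          apply min_eq_right
          have : (K0 : ℝ) ≤ ((r + 1 : ℕ) : ℝ) := by exact_mod_cast (by omega : K0 ≤ r + 1)
          push_cast at this
          exact this
        rw [hm, hHe]
        apply le_of_eq
        ring
    have h3 : ((r : ℝ) + 1) * (1 / (q (cst H 0 q 0 (l + 1)) : ℝ)) ≤
        sH H (cmat H q) (ccol H q) (r + 1) l := by
      unfold sH
      rw [if_pos (by rw [hk]; omega)]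
      calc ((r : ℝ) + 1) * (1 / (q (cst H 0 q 0 (l + 1)) : ℝ))
          = ∑ t ∈ range (r + 1), 1 / (q (cst H 0 q 0 (l + 1)) : ℝ) := by
            rw [Finset.sum_const, Finset.card_range, nsmul_eq_mul]
            push_cast
            ring
        _ ≤ _ := by
            apply Finset.sum_le_sum
            intro t ht
            rw [mem_range] at ht
            apply inv_anti hq h0
            rw [cst_succ', hk]
            omega
    linarith
  refine (Finset.sum_le_sum h1).trans ?_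
  rw [Finset.sum_sub_distrib, ← Finset.mul_sum, ← Finset.sum_mul, sum_min_le hK0 hKk]
  have h5 : ∀ t : ℕ, ∑ r ∈ range t, ((r : ℝ) + 1) = t * (t + 1) / 2 := by
    intro t
    induction t with
    | zero => simp
    | succ t ih =>
      rw [Finset.sum_range_succ, ih]
      push_cast
      ring
  rw [h5]
  set E : ℝ := (q (cst H 0 q 0 (l + 1)) : ℝ) with hEd
  have h6 : (k : ℝ) + 1 ≤ H * E := by
    have h7 := ccol_le (H := H) (q := q) (i := l) (by rw [hk]; omega)
    rw [hk] at h7
    push_cast at h7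
    have h8 : (q (cst H 0 q 0 l) : ℝ) ≤ E := by
      rw [hEd]
      exact_mod_cast hq.monotone (cst_mono 0 (Nat.le_succ l))
    have := mul_le_mul_of_nonneg_left h8 hH.le
    linarith
  have h9 : (K0 : ℝ) = H * q 0 := by rw [hHe]; field_simp
  have h10 : 1 / (q 0 : ℝ) * (k * K0 - K0 * (K0 - 1) / 2) = k * H - H * (H * q 0 - 1) / 2 := by
    rw [h9]
    field_simp
  rw [h10]
  have h11 : (k : ℝ) * (k + 1) / 2 * (1 / E) ≥ H * k + H / 2 - H ^ 2 * E / 2 := by
    rw [mul_one_div, ge_iff_le, le_div_iff₀ hE]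
    nlinarith [mul_nonneg (show 0 ≤ H * E - k by linarith) (show 0 ≤ H * E - k - 1 by linarith)]
  nlinarith

/-- **Theorem A.**  A slab of height `H = K0 / q 0` filled with `J` columns. -/
theorem slab_dec (hq : StrictMono q) (h0 : 0 < q 0) {K0 J : ℕ} (hK0 : 1 ≤ K0)
    (hHe : H = K0 / (q 0 : ℝ)) (hJ : 1 ≤ J) {w : ℝ} (hw : cwid H 0 q 0 J ≤ w) :
    ∃ Sm : Multiset (ℝ × ℝ), Dec w H ((range (cst H 0 q 0 J)).val.map q)
        (ttops H 0 q 0 J + Sm + {(w - cwid H 0 q 0 J, H)}) ∧
      (∀ r ∈ Sm, 0 ≤ r.1 ∧ r.1 ≤ 1 / (q 0 : ℝ) - 1 / (q (cst H 0 q 0 J) : ℝ) ∧ 0 ≤ r.2) ∧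
      msum Prod.fst Sm ≤ (J + H * q (cst H 0 q 0 J)) *
        (1 / (q 0 : ℝ) - 1 / (q (cst H 0 q 0 J) : ℝ)) ∧
      msum Prod.snd Sm ≤ H ^ 2 / 2 * ((q (cst H 0 q 0 J) : ℝ) - q 0) + H := by
  have hN : (0 : ℝ) < q 0 := q_posR hq h0 0
  have hK0R : (1 : ℝ) ≤ K0 := by exact_mod_cast hK0
  have hH : 0 < H := by rw [hHe]; positivity
  have hc0 : ccol H q 0 = K0 := ccol_zero h0 hHe
  have hc1 : ∀ j, 1 ≤ ccol H q j := fun j =>
    (hc0 ▸ hK0).trans (ccol_mono hq hH.le (Nat.zero_le j))
  obtain ⟨l, rfl⟩ : ∃ l, J = l + 1 := ⟨J - 1, by omega⟩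
  obtain ⟨k, hk⟩ : ∃ k, ccol H q l = k + 1 := ⟨ccol H q l - 1, by have := hc1 l; omega⟩
  set D := 1 / (q 0 : ℝ) - 1 / (q (cst H 0 q 0 (l + 1)) : ℝ) with hD
  have hD0 : 0 ≤ D := by
    have := inv_anti hq h0 (Nat.zero_le (cst H 0 q 0 (l + 1)))
    linarith
  have hfit : ∀ i ≤ l, sC (cmat H q) (ccol H q) i ≤ H := by
    intro i _
    have := col_fits (H := H) (θ := 0) hq h0 (hc1 i)
    rw [zero_div, sub_zero, Finset.sum_Ico_eq_sum_range, Nat.add_sub_cancel_left] at this
    exact this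
  have hdec := stair_block (H := H) (k := k) (l := l) (m := cmat H q) (c := ccol H q)
    (fun i _ r _ => q_pos hq h0 _) (fun i _ r _ => hq.monotone (Nat.le_succ _))
    (fun i _ r _ => hq.monotone (Nat.add_le_add_right (cst_mono 0 (Nat.le_succ i)) r))
    (hc1 0) (fun i _ => ccol_mono hq hH.le (Nat.le_succ i)) hk hfit
  rw [cX_zero, sum_squares] at hdec
  have hT : ∑ i ∈ range (l + 1), ({(1 / (cmat H q (ccol H q i - 1) i : ℝ),
      H - sC (cmat H q) (ccol H q) i)} : Multiset (ℝ × ℝ)) = ttops H 0 q 0 (l + 1) := by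
    unfold ttops
    apply Finset.sum_congr rfl
    intro i _
    have e1 : cst H 0 q 0 (i + 1) - 1 = cst H 0 q 0 i + (ccol H q i - 1) := by
      rw [cst_succ']
      have := hc1 i
      omega
    have e2 : tgap H 0 q 0 i = H - sC (cmat H q) (ccol H q) i := by
      unfold tgap sC
      rw [cst_succ', Finset.sum_Ico_eq_sum_range, Nat.add_sub_cancel_left]
      rfl
    rw [e1, e2]
    rfl
  rw [hT] at hdec
  set P := ∑ r ∈ range k, ∑ i ∈ range l, ({(sX l (cmat H q) (ccol H q) r (i + 1) -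
      sX l (cmat H q) (ccol H q) (r + 1) (i + 1), sH H (cmat H q) (ccol H q) (r + 1) i -
      sH H (cmat H q) (ccol H q) (r + 1) (i + 1))} : Multiset (ℝ × ℝ)) with hP
  set Lf := ∑ r ∈ range k, ({(cwid H 0 q 0 (l + 1) - sX l (cmat H q) (ccol H q) (r + 1) 0,
      sH H (cmat H q) (ccol H q) (r + 2) 0 - sH H (cmat H q) (ccol H q) (r + 1) 0)} :
        Multiset (ℝ × ℝ)) with hLf
  set Co : Multiset (ℝ × ℝ) := (if ccol H q 0 = k + 1 then
    {(cwid H 0 q 0 (l + 1) - sX l (cmat H q) (ccol H q) k 0,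
      H - sC (cmat H q) (ccol H q) 0)} else 0) with hCo
  have hleaf : Dec (w - cwid H 0 q 0 (l + 1)) H 0 {(w - cwid H 0 q 0 (l + 1), H)} :=
    Dec.leaf (by linarith) hH.le
  have hd := hdec.beside hleaf
  have e1 : cwid H 0 q 0 (l + 1) + (w - cwid H 0 q 0 (l + 1)) = w := by ring
  rw [e1, add_zero] at hd
  -- widths
  have hsh : ∀ i, i ≤ l + 1 → ∀ r s, sX l (cmat H q) (ccol H q) r i -
      sX l (cmat H q) (ccol H q) s i ≤ D := by
    intro i hi r s
    refine (cX_shift hq h0 hH.le (hc1 0) l hi r s).trans ?_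
    have := inv_anti hq h0 (Nat.zero_le (cst H 0 q 0 i))
    linarith
  have hsh0 : ∀ s, cwid H 0 q 0 (l + 1) - sX l (cmat H q) (ccol H q) s 0 ≤ D := by
    intro s
    rw [← cX_zero]
    exact hsh 0 (Nat.zero_le _) 0 s
  have hkH : (k : ℝ) + 1 ≤ H * q (cst H 0 q 0 (l + 1)) := by
    have h7 := ccol_le (hc1 l)
    rw [hk] at h7
    push_cast at h7
    have h8 : (q (cst H 0 q 0 l) : ℝ) ≤ q (cst H 0 q 0 (l + 1)) := by
      exact_mod_cast hq.monotone (cst_mono 0 (Nat.le_succ l))
    have := mul_le_mul_of_nonneg_left h8 hH.le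
    linarith
  have eR : ttops H 0 q 0 (l + 1) + (P + (Lf + Co)) + {(w - cwid H 0 q 0 (l + 1), H)} =
      ttops H 0 q 0 (l + 1) + (P + (Lf + Co)) + {(w - cwid H 0 q 0 (l + 1), H)} := rfl
  refine ⟨P + (Lf + Co), hd, ?_, ?_, ?_⟩
  · intro r hr
    have hnn := hd.rect_nonneg r (Multiset.mem_add.2 (Or.inl (Multiset.mem_add.2 (Or.inr hr))))
    refine ⟨hnn.1, ?_, hnn.2⟩
    rcases Multiset.mem_add.1 hr with hr | hr
    · rw [hP, Multiset.mem_sum] at hr
      obtain ⟨x, hx, hr⟩ := hr
      rw [Multiset.mem_sum] at hr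
      obtain ⟨i, hi, hr⟩ := hr
      rw [mem_range] at hx hi
      rw [Multiset.mem_singleton] at hr
      rw [hr]
      exact hsh (i + 1) (by omega) x (x + 1)
    · rcases Multiset.mem_add.1 hr with hr | hr
      · rw [hLf, Multiset.mem_sum] at hr
        obtain ⟨x, hx, hr⟩ := hr
        rw [Multiset.mem_singleton] at hr
        rw [hr]
        exact hsh0 (x + 1)
      · rw [hCo] at hr
        split_ifs at hr with h
        · rw [Multiset.mem_singleton] at hr
          rw [hr]
          exact hsh0 k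
        · exact absurd hr (Multiset.notMem_zero r)
  · rw [msum_add, msum_add]
    have hp : msum Prod.fst P ≤ l * D := by
      rw [hP]
      simp only [msum_sum, msum_singleton]
      rw [Finset.sum_comm]
      calc ∑ i ∈ range l, ∑ r ∈ range k, (sX l (cmat H q) (ccol H q) r (i + 1) -
            sX l (cmat H q) (ccol H q) (r + 1) (i + 1)) ≤ ∑ i ∈ range l, D := by
            apply Finset.sum_le_sum
            intro i hi
            rw [mem_range] at hi
            rw [Finset.sum_range_sub' (fun r => sX l (cmat H q) (ccol H q) r (i + 1))]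
            exact hsh (i + 1) (by omega) 0 k
        _ = _ := by rw [Finset.sum_const, Finset.card_range, nsmul_eq_mul]
    have hl : msum Prod.fst Lf ≤ k * D := by
      rw [hLf]
      simp only [msum_sum, msum_singleton]
      calc ∑ r ∈ range k, (cwid H 0 q 0 (l + 1) - sX l (cmat H q) (ccol H q) (r + 1) 0)
          ≤ ∑ r ∈ range k, D := Finset.sum_le_sum fun r _ => hsh0 (r + 1)
        _ = _ := by rw [Finset.sum_const, Finset.card_range, nsmul_eq_mul]
    have hc : msum Prod.fst Co ≤ D := by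
      rw [hCo]
      split_ifs with h
      · rw [msum_singleton]
        exact hsh0 k
      · rw [msum_zero]
        exact hD0
    have h12 : ((l : ℝ) + (k + 1)) * D ≤ (((l + 1 : ℕ) : ℝ) + H * q (cst H 0 q 0 (l + 1))) * D := by
      apply mul_le_mul_of_nonneg_right _ hD0
      push_cast
      linarith
    nlinarith
  · rw [msum_add, msum_add]
    have hp : msum Prod.snd P ≤ H ^ 2 / 2 * ((q (cst H 0 q 0 (l + 1)) : ℝ) - q 0) := by
      rw [hP]
      simp only [msum_sum, msum_singleton]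
      exact cH_total hq h0 hH hK0 hHe hk
    have hl : msum Prod.snd Lf + msum Prod.snd Co ≤ H := by
      have h13 : msum Prod.snd Lf = sH H (cmat H q) (ccol H q) (k + 1) 0 -
          sH H (cmat H q) (ccol H q) 1 0 := by
        rw [hLf]
        simp only [msum_sum, msum_singleton]
        exact Finset.sum_range_sub (fun r => sH H (cmat H q) (ccol H q) (r + 1) 0) k
      have h14 : 0 ≤ sH H (cmat H q) (ccol H q) 1 0 := by
        unfold sH
        split_ifs
        · apply Finset.sum_nonneg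
          intro i _
          positivity
        · exact hH.le
      rw [h13, hCo]
      split_ifs with h
      · rw [msum_singleton]
        have h15 : sH H (cmat H q) (ccol H q) (k + 1) 0 = sC (cmat H q) (ccol H q) 0 := by
          unfold sH sC
          rw [if_pos (by rw [h]), h]
        rw [h15]
        show _ + (H - sC (cmat H q) (ccol H q) 0) ≤ H
        linarith
      · rw [msum_zero]
        have h16 : ccol H q 0 ≤ k + 1 := by
          rw [← hk]
          exact ccol_mono hq hH.le (Nat.zero_le l)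
        have h15 : sH H (cmat H q) (ccol H q) (k + 1) 0 = H := by
          unfold sH
          rw [if_neg (by omega)]
        rw [h15]
        linarith
    linarith

end

end Pool.Agent.Moser
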