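import Pool.Agent.Lib_MP_cc07e8_co.EpA
import Pool.Agent.Lib_MP_cc07e8_co.EpCost

/-!
# Main epoch, part B: the gaps above the columns (helper60, for MP_cc07e8_co)
-/

namespace Pool.Agent.Moser

open Finset Pool.Agent.Shelf

section

variable {H : ℝ} {q : ℕ → ℕ}

/-- fractional part of `H q` at the start of column `j` -/
noncomputable def cphi (H : ℝ) (q : ℕ → ℕ) (j : ℕ) : ℝ :=
  H * q (cst H 0 q 0 j) - ccol H q j

theorem cphi_nonneg {j : ℕ} (h : 1 ≤ ccol H q j) : 0 ≤ cphi H q j := by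
  have := ccol_le h
  unfold cphi
  linarith

theorem cphi_lt (j : ℕ) : cphi H q j < 1 := by
  have := lt_nrows (H := H) (θ := 0) (q := q) (cst H 0 q 0 j)
  unfold cphi ccol
  linarith

/-- **Potential lemma.** -/
theorem pot (hq : StrictMono q) (hH : 0 < H) {K0 : ℕ} (hK0 : 1 ≤ K0)
    (hc0 : ccol H q 0 = K0) {f : ℝ → ℝ} {F : ℕ → ℝ → ℝ}
    (hf1 : ∀ φ, 0 ≤ φ → φ < 1 → f φ ≤ 1)
    (hF0 : ∀ K φ, 0 ≤ φ → 0 ≤ F K φ)
    (hFm : ∀ K φ ψ, 0 ≤ φ → φ ≤ ψ → ψ ≤ 1 → F K φ ≤ F K ψ)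
    (hstep : ∀ (K : ℕ) φ, 1 ≤ K → 0 ≤ φ → φ + H * K ≤ 1 →
      F K φ + H * K * f φ ≤ F K (φ + H * K)) (i : ℕ) :
    ∑ j ∈ range i, H / (ccol H q j : ℝ) * f (cphi H q j) ≤
      ∑ m ∈ Ico K0 (ccol H q i), (F m 1 + H * m) / (m : ℝ) ^ 2 +
        F (ccol H q i) (cphi H q i) / (ccol H q i : ℝ) ^ 2 := by
  have hc1 : ∀ j, 1 ≤ ccol H q j := fun j =>
    (hc0 ▸ hK0).trans (ccol_mono hq hH.le (Nat.zero_le j))
  have hcR : ∀ j, (0 : ℝ) < ccol H q j := fun j => by exact_mod_cast hc1 j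
  induction i with
  | zero =>
    rw [hc0, Finset.Ico_self]
    simp only [Finset.range_zero, Finset.sum_empty, zero_add]
    have := hF0 K0 (cphi H q 0) (cphi_nonneg (hc1 0))
    positivity
  | succ i ih =>
    rw [Finset.sum_range_succ]
    set K := ccol H q i with hK
    have hKR : (0 : ℝ) < K := hcR i
    have hφ0 := cphi_nonneg (hc1 i)
    have hφ1 := cphi_lt (H := H) (q := q) i
    have hKK : K ≤ ccol H q (i + 1) := ccol_mono hq hH.le (Nat.le_succ i)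
    rcases Nat.eq_or_lt_of_le hKK with he | hlt
    · -- same class
      rw [← he]
      have hstepφ : cphi H q i + H * K ≤ cphi H q (i + 1) := by
        unfold cphi
        rw [← he, ← hK]
        have h1 : q (cst H 0 q 0 i) + K ≤ q (cst H 0 q 0 (i + 1)) := strict_add hq _ _
        have h2 : (q (cst H 0 q 0 i) : ℝ) + K ≤ q (cst H 0 q 0 (i + 1)) := by exact_mod_cast h1
        have := mul_le_mul_of_nonneg_left h2 hH.le
        linarith
      have hlt1 := cphi_lt (H := H) (q := q) (i + 1)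
      have h3 := hstep K (cphi H q i) (hc1 i) hφ0 (by linarith)
      have h4 := hFm K _ _ (by positivity) hstepφ hlt1.le
      have h5 : F K (cphi H q i) / (K : ℝ) ^ 2 + H / (K : ℝ) * f (cphi H q i) ≤
          F K (cphi H q (i + 1)) / (K : ℝ) ^ 2 := by
        rw [div_add' _ _ _ (by positivity), div_le_div_iff_of_pos_right (by positivity)]
        have : H / (K : ℝ) * f (cphi H q i) * (K : ℝ) ^ 2 = H * K * f (cphi H q i) := by
          field_simp
        rw [this]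
        linarith
      linarith
    · -- a new class
      have h6 : ∑ m ∈ Ico K0 K, (F m 1 + H * m) / (m : ℝ) ^ 2 + (F K 1 + H * K) / (K : ℝ) ^ 2 ≤
          ∑ m ∈ Ico K0 (ccol H q (i + 1)), (F m 1 + H * m) / (m : ℝ) ^ 2 := by
        have hK0K : K0 ≤ K := by
          rw [← hc0]
          exact ccol_mono hq hH.le (Nat.zero_le i)
        rw [← Finset.sum_Ico_succ_top hK0K (fun m => (F m 1 + H * (m : ℝ)) / (m : ℝ) ^ 2)]
        apply Finset.sum_le_sum_of_subset_of_nonneg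
        · intro x hx
          rw [mem_Ico] at hx ⊢
          omega
        · intro m _ _
          have := hF0 m 1 zero_le_one
          positivity
      have h7 : F K (cphi H q i) / (K : ℝ) ^ 2 + H / (K : ℝ) * f (cphi H q i) ≤
          (F K 1 + H * K) / (K : ℝ) ^ 2 := by
        rw [div_add' _ _ _ (by positivity), div_le_div_iff_of_pos_right (by positivity)]
        have h8 := hFm K (cphi H q i) 1 hφ0 hφ1.le le_rfl
        have h9 : H / (K : ℝ) * f (cphi H q i) * (K : ℝ) ^ 2 = H * K * f (cphi H q i) := by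
          field_simp
        rw [h9]
        have h10 : H * K * f (cphi H q i) ≤ H * K * 1 :=
          mul_le_mul_of_nonneg_left (hf1 _ hφ0 hφ1) (by positivity)
        linarith
      have h11 : 0 ≤ F (ccol H q (i + 1)) (cphi H q (i + 1)) / (ccol H q (i + 1) : ℝ) ^ 2 := by
        have := hF0 (ccol H q (i + 1)) (cphi H q (i + 1)) (cphi_nonneg (hc1 (i + 1)))
        positivity
      linarith

theorem sum_sq_le {K0 : ℕ} (hK0 : 1 ≤ K0) {K : ℕ} (h : K0 ≤ K) :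
    ∑ m ∈ Ico K0 K, 1 / (m : ℝ) ^ 2 ≤ 1 / ((K0 : ℝ) - 1 / 2) - 1 / ((K : ℝ) - 1 / 2) := by
  induction K, h using Nat.le_induction with
  | base => simp
  | succ K hK ih =>
    rw [Finset.sum_Ico_succ_top hK]
    have hK1 : (1 : ℝ) ≤ K := by exact_mod_cast hK0.trans hK
    have h1 : 1 / (K : ℝ) ^ 2 ≤ 1 / ((K : ℝ) - 1 / 2) - 1 / (((K + 1 : ℕ) : ℝ) - 1 / 2) := by
      push_cast
      have ha : (0 : ℝ) < K - 1 / 2 := by linarith
      have hb : (0 : ℝ) < K + 1 - 1 / 2 := by linarith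
      rw [div_sub_div _ _ ha.ne' hb.ne', div_le_div_iff₀ (by positivity) (by positivity)]
      nlinarith
    linarith

theorem sum_inv_le {K0 : ℕ} (hK0 : 1 ≤ K0) {K : ℕ} (h : K0 ≤ K) :
    ∑ m ∈ Ico K0 K, 1 / (m : ℝ) ≤ ((K : ℝ) - K0) / K0 := by
  have hR : (0 : ℝ) < K0 := by exact_mod_cast hK0
  calc ∑ m ∈ Ico K0 K, 1 / (m : ℝ) ≤ ∑ m ∈ Ico K0 K, 1 / (K0 : ℝ) := by
        apply Finset.sum_le_sum
        intro m hm
        apply one_div_le_one_div_of_le hR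
        exact_mod_cast (mem_Ico.1 hm).1
    _ = _ := by
        rw [Finset.sum_const, Nat.card_Ico, nsmul_eq_mul, Nat.cast_sub h]
        ring

/-- closed form of the class sums -/
theorem class_sum (hq : StrictMono q) (h0 : 0 < q 0) (hH : 0 < H) {K0 : ℕ} (hK0 : 100 ≤ K0)
    (hHe : H = K0 / (q 0 : ℝ)) {α β : ℝ} (hα : 0 ≤ α) (hβ : 0 ≤ β) (i : ℕ) :
    ∑ m ∈ Ico K0 (ccol H q i), (α + β * (H * m)) / (m : ℝ) ^ 2 + α / (ccol H q i : ℝ) ^ 2 ≤
      α * (1 / H * (1 / (q 0 : ℝ) - 1 / (q (cst H 0 q 0 i) : ℝ)) + 1.01 / (K0 : ℝ) ^ 2) +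
        β * (H * ((q (cst H 0 q 0 i) : ℝ) / q 0 - 1)) := by
  have hN : (0 : ℝ) < q 0 := q_posR hq h0 0
  have hE : (0 : ℝ) < q (cst H 0 q 0 i) := q_posR hq h0 _
  have hc0 : ccol H q 0 = K0 := ccol_zero h0 hHe
  have hK1 : K0 ≤ ccol H q i := by
    rw [← hc0]
    exact ccol_mono hq hH.le (Nat.zero_le i)
  set K := ccol H q i with hK
  set E : ℝ := (q (cst H 0 q 0 i) : ℝ) with hEd
  have hK0R : (100 : ℝ) ≤ K0 := by exact_mod_cast hK0
  have hKR : (K0 : ℝ) ≤ K := by exact_mod_cast hK1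
  have hKE : (K : ℝ) ≤ H * E := ccol_le (by omega)
  have h1 : ∑ m ∈ Ico K0 K, (α + β * (H * m)) / (m : ℝ) ^ 2 =
      α * ∑ m ∈ Ico K0 K, 1 / (m : ℝ) ^ 2 + β * (H * ∑ m ∈ Ico K0 K, 1 / (m : ℝ)) := by
    rw [Finset.mul_sum, Finset.mul_sum, Finset.mul_sum, ← Finset.sum_add_distrib]
    apply Finset.sum_congr rfl
    intro m hm
    have hm1 : (m : ℝ) ≠ 0 := by
      have := (mem_Ico.1 hm).1
      have : 0 < m := by omega
      exact_mod_cast this.ne'
    field_simp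
  rw [h1]
  have h2 := sum_sq_le (show 1 ≤ K0 by omega) hK1
  have h3 := sum_inv_le (show 1 ≤ K0 by omega) hK1
  have h4 : 1 / ((K0 : ℝ) - 1 / 2) ≤ 1 / K0 + 0.505 / (K0 : ℝ) ^ 2 := by
    have ha : (0 : ℝ) < K0 - 1 / 2 := by linarith
    have hb : (0 : ℝ) < K0 := by linarith
    rw [div_add_div _ _ hb.ne' (by positivity), div_le_div_iff₀ ha (by positivity)]
    nlinarith [mul_nonneg hb.le (show (0 : ℝ) ≤ K0 - 100 by linarith)]
  have h5 : -(1 / ((K : ℝ) - 1 / 2)) + 1 / (K : ℝ) ^ 2 ≤ -(1 / (H * E)) + 0.5 / (K0 : ℝ) ^ 2 := by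
    have hb : (0 : ℝ) < K := by linarith
    have ha : (0 : ℝ) < K - 1 / 2 := by linarith
    have h6 : 1 / (K : ℝ) + 0.5 / (K : ℝ) ^ 2 ≤ 1 / ((K : ℝ) - 1 / 2) := by
      rw [div_add_div _ _ hb.ne' (by positivity), div_le_div_iff₀ (by positivity) ha]
      nlinarith
    have h7 : 1 / (H * E) ≤ 1 / (K : ℝ) := one_div_le_one_div_of_le hb hKE
    have h8 : 0.5 / (K : ℝ) ^ 2 ≤ 0.5 / (K0 : ℝ) ^ 2 := by
      apply div_le_div_of_nonneg_left (by norm_num) (by positivity)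
      exact pow_le_pow_left₀ (by positivity) hKR 2
    have h9 : 1 / (K : ℝ) ^ 2 = 0.5 / (K : ℝ) ^ 2 + 0.5 / (K : ℝ) ^ 2 := by ring
    linarith
  have h10 : 1 / H * (1 / (q 0 : ℝ) - 1 / E) = 1 / K0 - 1 / (H * E) := by
    rw [hHe]
    field_simp
  rw [h10]
  have h11 : ((K : ℝ) - K0) / K0 ≤ E / q 0 - 1 := by
    have : E / q 0 - 1 = (H * E - K0) / K0 := by
      rw [hHe]
      field_simp
    rw [this]
    apply div_le_div_of_nonneg_right _ (by positivity)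
    linarith
  have h12 : α * (∑ m ∈ Ico K0 K, 1 / (m : ℝ) ^ 2 + 1 / (K : ℝ) ^ 2) ≤
      α * (1 / K0 - 1 / (H * E) + 1.01 / (K0 : ℝ) ^ 2) := by
    apply mul_le_mul_of_nonneg_left _ hα
    have h13 : 1.01 / (K0 : ℝ) ^ 2 = 0.505 / (K0 : ℝ) ^ 2 + 0.5 / (K0 : ℝ) ^ 2 +
        0.005 / (K0 : ℝ) ^ 2 := by ring
    have h14 : 0 ≤ 0.005 / (K0 : ℝ) ^ 2 := by positivity
    linarith
  have h15 : β * (H * ∑ m ∈ Ico K0 K, 1 / (m : ℝ)) ≤ β * (H * (E / q 0 - 1)) := by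
    apply mul_le_mul_of_nonneg_left _ hβ
    apply mul_le_mul_of_nonneg_left _ hH.le
    linarith
  have h16 : α / (K : ℝ) ^ 2 = α * (1 / (K : ℝ) ^ 2) := by ring
  rw [h16]
  nlinarith

/-- total width of the columns -/
theorem W_le (hq : StrictMono q) (h0 : 0 < q 0) (hH : 0 < H) {K0 : ℕ} (hK0 : 100 ≤ K0)
    (hHe : H = K0 / (q 0 : ℝ)) (J : ℕ) :
    cwid H 0 q 0 J ≤ 1 / H * (1 / (q 0 : ℝ) - 1 / (q (cst H 0 q 0 J) : ℝ)) +
      1.01 / (K0 : ℝ) ^ 2 + H * ((q (cst H 0 q 0 J) : ℝ) / q 0 - 1) := by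
  have hc0 : ccol H q 0 = K0 := ccol_zero h0 hHe
  have hc1 : ∀ j, 1 ≤ ccol H q j := fun j =>
    (show 1 ≤ ccol H q 0 by omega).trans (ccol_mono hq hH.le (Nat.zero_le j))
  have h1 := pot hq hH (show 1 ≤ K0 by omega) hc0 (f := fun _ => 1) (F := fun _ φ => φ)
    (fun _ _ _ => le_rfl) (fun _ _ h => h) (fun _ _ _ _ h _ => h)
    (fun K φ _ _ _ => by show φ + H * K * 1 ≤ φ + H * K; linarith) J
  have h2 := class_sum hq h0 hH hK0 hHe (α := 1) (β := 1) zero_le_one zero_le_one J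
  simp only [one_mul] at h2
  have h3 : cphi H q J / (ccol H q J : ℝ) ^ 2 ≤ 1 / (ccol H q J : ℝ) ^ 2 := by
    apply div_le_div_of_nonneg_right (cphi_lt J).le
    positivity
  have h4 : cwid H 0 q 0 J ≤ ∑ j ∈ range J, H / (ccol H q j : ℝ) * 1 := by
    unfold cwid
    apply Finset.sum_le_sum
    intro j _
    have h5 := ccol_le (hc1 j)
    have h6 : (0 : ℝ) < ccol H q j := by exact_mod_cast hc1 j
    rw [mul_one, div_le_div_iff₀ (q_posR hq h0 _) h6, one_mul]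
    exact h5
  simp only [mul_one] at h1 h4
  linarith

/-- the gap above a column -/
theorem tgap_eq_le (hq : StrictMono q) (h0 : 0 < q 0) (j : ℕ) :
    tgap H 0 q 0 j ≤ cphi H q j / (q (cst H 0 q 0 j) : ℝ) + ccol H q j *
      (1 / (q (cst H 0 q 0 j) : ℝ) - 1 / (q (cst H 0 q 0 (j + 1)) : ℝ)) := by
  have hy : (0 : ℝ) < q (cst H 0 q 0 j) := q_posR hq h0 _
  have h1 : cphi H q j / (q (cst H 0 q 0 j) : ℝ) = H - ccol H q j / (q (cst H 0 q 0 j) : ℝ) := by
    unfold cphi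
    field_simp
  have h2 : (ccol H q j : ℝ) * (1 / (q (cst H 0 q 0 (j + 1)) : ℝ)) ≤
      ∑ x ∈ Ico (cst H 0 q 0 j) (cst H 0 q 0 (j + 1)), 1 / (q x : ℝ) := by
    calc (ccol H q j : ℝ) * (1 / (q (cst H 0 q 0 (j + 1)) : ℝ))
        = ∑ x ∈ Ico (cst H 0 q 0 j) (cst H 0 q 0 (j + 1)),
            1 / (q (cst H 0 q 0 (j + 1)) : ℝ) := by
          rw [Finset.sum_const, Nat.card_Ico, nsmul_eq_mul, cst_succ', Nat.add_sub_cancel_left]
      _ ≤ _ := Finset.sum_le_sum fun x hx => inv_anti hq h0 (mem_Ico.1 hx).2.le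
  rw [h1]
  unfold tgap
  have h3 : (ccol H q j : ℝ) * (1 / (q (cst H 0 q 0 j) : ℝ) -
      1 / (q (cst H 0 q 0 (j + 1)) : ℝ)) = ccol H q j / (q (cst H 0 q 0 j) : ℝ) -
      (ccol H q j : ℝ) * (1 / (q (cst H 0 q 0 (j + 1)) : ℝ)) := by ring
  rw [h3]
  linarith

theorem tgap_ge' (hq : StrictMono q) (h0 : 0 < q 0) (j : ℕ) :
    cphi H q j / (q (cst H 0 q 0 j) : ℝ) ≤ tgap H 0 q 0 j := by
  have hy : (0 : ℝ) < q (cst H 0 q 0 j) := q_posR hq h0 _
  have h1 : cphi H q j / (q (cst H 0 q 0 j) : ℝ) = H - ccol H q j / (q (cst H 0 q 0 j) : ℝ) := by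
    unfold cphi
    field_simp
  have h2 : ∑ x ∈ Ico (cst H 0 q 0 j) (cst H 0 q 0 (j + 1)), 1 / (q x : ℝ) ≤
      ccol H q j / (q (cst H 0 q 0 j) : ℝ) := by
    calc ∑ x ∈ Ico (cst H 0 q 0 j) (cst H 0 q 0 (j + 1)), 1 / (q x : ℝ)
        ≤ ∑ x ∈ Ico (cst H 0 q 0 j) (cst H 0 q 0 (j + 1)), 1 / (q (cst H 0 q 0 j) : ℝ) :=
          Finset.sum_le_sum fun x hx => inv_anti hq h0 (mem_Ico.1 hx).1
      _ = _ := by
          rw [Finset.sum_const, Nat.card_Ico, nsmul_eq_mul, cst_succ', Nat.add_sub_cancel_left]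
          ring
  rw [h1]
  unfold tgap
  linarith

/-- the error terms of the gaps -/
theorem err_le (hq : StrictMono q) (h0 : 0 < q 0) (hH : 0 < H) (hK : 1 ≤ ccol H q 0) (J : ℕ) :
    ∑ j ∈ range J, (ccol H q j : ℝ) *
      (1 / (q (cst H 0 q 0 j) : ℝ) - 1 / (q (cst H 0 q 0 (j + 1)) : ℝ)) ≤
      H * ((q (cst H 0 q 0 J) : ℝ) / q 0 - 1) := by
  have hN : (0 : ℝ) < q 0 := q_posR hq h0 0
  have hE : (0 : ℝ) < q (cst H 0 q 0 J) := q_posR hq h0 _
  have hc1 : ∀ j, 1 ≤ ccol H q j := fun j => hK.trans (ccol_mono hq hH.le (Nat.zero_le j))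
  calc ∑ j ∈ range J, (ccol H q j : ℝ) *
      (1 / (q (cst H 0 q 0 j) : ℝ) - 1 / (q (cst H 0 q 0 (j + 1)) : ℝ))
      ≤ ∑ j ∈ range J, H * q (cst H 0 q 0 J) *
        (1 / (q (cst H 0 q 0 j) : ℝ) - 1 / (q (cst H 0 q 0 (j + 1)) : ℝ)) := by
        apply Finset.sum_le_sum
        intro j hj
        rw [mem_range] at hj
        apply mul_le_mul_of_nonneg_right
        · refine (ccol_le (hc1 j)).trans ?_
          apply mul_le_mul_of_nonneg_left _ hH.le
          exact_mod_cast hq.monotone (cst_mono 0 hj.le)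
        · have := inv_anti hq h0 (cst_mono (H := H) (θ := 0) (q := q) 0 (Nat.le_succ j))
          linarith
    _ = _ := by
        rw [← Finset.mul_sum, Finset.sum_range_sub' (fun j => 1 / (q (cst H 0 q 0 j) : ℝ))]
        have : cst H 0 q 0 0 = 0 := rfl
        rw [this]
        field_simp

/-- total height of the gaps, first bound -/
theorem T_le' (hq : StrictMono q) (h0 : 0 < q 0) (hH : 0 < H) (hK : 1 ≤ ccol H q 0) (J : ℕ) :
    ∑ j ∈ range J, tgap H 0 q 0 j ≤ cwid H 0 q 0 J +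
      H * ((q (cst H 0 q 0 J) : ℝ) / q 0 - 1) := by
  have h1 := err_le hq h0 hH hK J
  have h2 : ∑ j ∈ range J, tgap H 0 q 0 j ≤ ∑ j ∈ range J, (1 / (q (cst H 0 q 0 j) : ℝ) +
      (ccol H q j : ℝ) * (1 / (q (cst H 0 q 0 j) : ℝ) -
        1 / (q (cst H 0 q 0 (j + 1)) : ℝ))) := by
    apply Finset.sum_le_sum
    intro j _
    have h3 := tgap_eq_le (H := H) hq h0 j
    have h4 : cphi H q j / (q (cst H 0 q 0 j) : ℝ) ≤ 1 / (q (cst H 0 q 0 j) : ℝ) := by
      apply div_le_div_of_nonneg_right (cphi_lt j).le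
      positivity
    linarith
  rw [Finset.sum_add_distrib] at h2
  unfold cwid
  linarith

/-- total height of the gaps, second bound -/
theorem T_le (hq : StrictMono q) (h0 : 0 < q 0) (hH : 0 < H) {K0 : ℕ} (hK0 : 100 ≤ K0)
    (hHe : H = K0 / (q 0 : ℝ)) (J : ℕ) :
    ∑ j ∈ range J, tgap H 0 q 0 j ≤
      1 / 2 * (1 / H * (1 / (q 0 : ℝ) - 1 / (q (cst H 0 q 0 J) : ℝ)) + 1.01 / (K0 : ℝ) ^ 2) +
        2 * (H * ((q (cst H 0 q 0 J) : ℝ) / q 0 - 1)) := by
  have hc0 : ccol H q 0 = K0 := ccol_zero h0 hHe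
  have hc1 : ∀ j, 1 ≤ ccol H q j := fun j =>
    (show 1 ≤ ccol H q 0 by omega).trans (ccol_mono hq hH.le (Nat.zero_le j))
  have h1 := pot hq hH (show 1 ≤ K0 by omega) hc0 (f := fun φ => φ) (F := fun _ φ => φ ^ 2 / 2)
    (fun _ _ h => h.le) (fun _ φ _ => by positivity)
    (fun _ φ ψ h1 h2 _ => by nlinarith)
    (fun K φ hK hφ _ => by
      show φ ^ 2 / 2 + H * K * φ ≤ (φ + H * K) ^ 2 / 2
      nlinarith [sq_nonneg (H * K)]) J
  have h2 := class_sum hq h0 hH hK0 hHe (α := 1 / 2) (β := 1) (by norm_num) zero_le_one J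
  have h3 : cphi H q J ^ 2 / 2 / (ccol H q J : ℝ) ^ 2 ≤ 1 / 2 / (ccol H q J : ℝ) ^ 2 := by
    apply div_le_div_of_nonneg_right _ (by positivity)
    have h4 := cphi_nonneg (hc1 J)
    have h5 := cphi_lt (H := H) (q := q) J
    nlinarith
  have h6 := err_le hq h0 hH (hc1 0) J
  have h7 : ∑ j ∈ range J, tgap H 0 q 0 j ≤ ∑ j ∈ range J, (H / (ccol H q j : ℝ) * cphi H q j +
      (ccol H q j : ℝ) * (1 / (q (cst H 0 q 0 j) : ℝ) -
        1 / (q (cst H 0 q 0 (j + 1)) : ℝ))) := by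
    apply Finset.sum_le_sum
    intro j _
    have h8 := tgap_eq_le (H := H) hq h0 j
    have h9 : cphi H q j / (q (cst H 0 q 0 j) : ℝ) ≤ H / (ccol H q j : ℝ) * cphi H q j := by
      have ha := ccol_le (hc1 j)
      have hb : (0 : ℝ) < ccol H q j := by exact_mod_cast hc1 j
      have hc : 1 / (q (cst H 0 q 0 j) : ℝ) ≤ H / (ccol H q j : ℝ) := by
        rw [div_le_div_iff₀ (q_posR hq h0 _) hb, one_mul]
        exact ha
      have := mul_le_mul_of_nonneg_right hc (cphi_nonneg (hc1 j))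
      calc cphi H q j / (q (cst H 0 q 0 j) : ℝ) = 1 / (q (cst H 0 q 0 j) : ℝ) * cphi H q j := by
            ring
        _ ≤ _ := this
    linarith
  rw [Finset.sum_add_distrib] at h7
  have h10 : ∑ m ∈ Ico K0 (ccol H q J), (((1 : ℝ) ^ 2 / 2 + H * m) / (m : ℝ) ^ 2) =
      ∑ m ∈ Ico K0 (ccol H q J), ((1 / 2 + 1 * (H * m)) / (m : ℝ) ^ 2) := by
    apply Finset.sum_congr rfl
    intro m _
    norm_num
  rw [h10] at h1
  linarith

open Classical in
/-- the columns with a very low gap -/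
theorem N_le (hq : StrictMono q) (h0 : 0 < q 0) (hH : 0 < H) {K0 : ℕ} (hK0 : 100 ≤ K0)
    (hHe : H = K0 / (q 0 : ℝ)) {ε : ℝ} (hε : 0 ≤ ε) (J : ℕ) :
    ∑ j ∈ range J, (if cphi H q j ≤ ε then 1 / (q (cst H 0 q 0 j) : ℝ) else 0) ≤
      ε * (1 / H * (1 / (q 0 : ℝ) - 1 / (q (cst H 0 q 0 J) : ℝ)) + 1.01 / (K0 : ℝ) ^ 2) +
        2 * (H * ((q (cst H 0 q 0 J) : ℝ) / q 0 - 1)) + H / K0 := by
  have hc0 : ccol H q 0 = K0 := ccol_zero h0 hHe
  have hc1 : ∀ j, 1 ≤ ccol H q j := fun j =>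
    (show 1 ≤ ccol H q 0 by omega).trans (ccol_mono hq hH.le (Nat.zero_le j))
  have h1 := pot hq hH (show 1 ≤ K0 by omega) hc0 (f := fun φ => if φ ≤ ε then 1 else 0)
    (F := fun K φ => min φ (ε + H * K))
    (fun φ _ _ => by
      show (if φ ≤ ε then (1 : ℝ) else 0) ≤ 1
      split_ifs
      · exact le_rfl
      · exact zero_le_one)
    (fun K φ h => le_min h (by positivity))
    (fun K φ ψ _ h _ => min_le_min_right _ h)
    (fun K φ hK hφ _ => by
      show min φ (ε + H * K) + H * K * (if φ ≤ ε then 1 else 0) ≤ min (φ + H * K) (ε + H * K)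
      have hHK : 0 ≤ H * K := by positivity
      split_ifs with h
      · rw [min_eq_left (show φ ≤ ε + H * K by linarith), min_eq_left (show φ + H * K ≤ ε + H * K by
          linarith)]
        linarith
      · rw [mul_zero, add_zero]
        exact min_le_min_right _ (by linarith)) J
  have h2 := class_sum hq h0 hH hK0 hHe (α := ε) (β := 2) hε (by norm_num) J
  have hK0K : K0 ≤ ccol H q J := by
    rw [← hc0]
    exact ccol_mono hq hH.le (Nat.zero_le J)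
  have hK0R : (0 : ℝ) < K0 := by exact_mod_cast (show 0 < K0 by omega)
  have hKR : (K0 : ℝ) ≤ ccol H q J := by exact_mod_cast hK0K
  have h3 : min (cphi H q J) (ε + H * (ccol H q J)) / (ccol H q J : ℝ) ^ 2 ≤
      ε / (ccol H q J : ℝ) ^ 2 + H / K0 := by
    have h4 : min (cphi H q J) (ε + H * (ccol H q J)) / (ccol H q J : ℝ) ^ 2 ≤
        (ε + H * (ccol H q J)) / (ccol H q J : ℝ) ^ 2 :=
      div_le_div_of_nonneg_right (min_le_right _ _) (by positivity)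
    refine h4.trans ?_
    rw [add_div]
    have h5 : H * (ccol H q J : ℝ) / (ccol H q J : ℝ) ^ 2 = H / (ccol H q J : ℝ) := by
      have : (ccol H q J : ℝ) ≠ 0 := by linarith
      field_simp
    rw [h5]
    have h6 : H / (ccol H q J : ℝ) ≤ H / K0 := div_le_div_of_nonneg_left hH.le hK0R hKR
    linarith
  have h7 : ∑ m ∈ Ico K0 (ccol H q J), ((min (1 : ℝ) (ε + H * m) + H * m) / (m : ℝ) ^ 2) ≤
      ∑ m ∈ Ico K0 (ccol H q J), ((ε + 2 * (H * m)) / (m : ℝ) ^ 2) := by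
    apply Finset.sum_le_sum
    intro m _
    apply div_le_div_of_nonneg_right _ (by positivity)
    have := min_le_right (1 : ℝ) (ε + H * m)
    linarith
  have h8 : ∑ j ∈ range J, (if cphi H q j ≤ ε then 1 / (q (cst H 0 q 0 j) : ℝ) else 0) ≤
      ∑ j ∈ range J, H / (ccol H q j : ℝ) * (if cphi H q j ≤ ε then 1 else 0) := by
    apply Finset.sum_le_sum
    intro j _
    split_ifs with h
    · have ha := ccol_le (hc1 j)
      have hb : (0 : ℝ) < ccol H q j := by exact_mod_cast hc1 j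
      rw [mul_one, div_le_div_iff₀ (q_posR hq h0 _) hb, one_mul]
      exact ha
    · rw [mul_zero]
  linarith

/-- costs of the gaps above the columns -/
theorem tops_c1 (hq : StrictMono q) (h0 : 0 < q 0) (hK : ∀ j, 1 ≤ ccol H q j) (J : ℕ) :
    msum c1 (ttops H 0 q 0 J) ≤ 4.72 * cwid H 0 q 0 J + 5.4 * ∑ j ∈ range J, tgap H 0 q 0 j := by
  unfold ttops cwid
  rw [msum_sum, Finset.mul_sum, Finset.mul_sum, ← Finset.sum_add_distrib]
  apply Finset.sum_le_sum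
  intro j _
  rw [msum_singleton]
  refine (c1_le' _ _).trans ?_
  have h1 : 1 / (q (cst H 0 q 0 (j + 1) - 1) : ℝ) ≤ 1 / (q (cst H 0 q 0 j) : ℝ) := by
    apply inv_anti hq h0
    rw [cst_succ']
    have := hK j
    omega
  linarith

open Classical in
theorem tops_c2 (hq : StrictMono q) (h0 : 0 < q 0) (hK : ∀ j, 1 ≤ ccol H q j) {J : ℕ} {t : ℝ}
    (ht : 1000 * (q (cst H 0 q 0 J) : ℝ) ≤ t) :
    msum (c2 t) (ttops H 0 q 0 J) ≤ 1.35 * cwid H 0 q 0 J +
      5.4 * ∑ j ∈ range J, tgap H 0 q 0 j +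
      3.37 * ∑ j ∈ range J, (if cphi H q j ≤ 0.0161 then 1 / (q (cst H 0 q 0 j) : ℝ) else 0) := by
  unfold ttops cwid
  rw [msum_sum, Finset.mul_sum, Finset.mul_sum, Finset.mul_sum, ← Finset.sum_add_distrib,
    ← Finset.sum_add_distrib]
  apply Finset.sum_le_sum
  intro j hj
  rw [mem_range] at hj
  rw [msum_singleton]
  set w := 1 / (q (cst H 0 q 0 (j + 1) - 1) : ℝ) with hw
  set v := 1 / (q (cst H 0 q 0 j) : ℝ) with hv
  set g := tgap H 0 q 0 j with hg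
  have hy : (0 : ℝ) < q (cst H 0 q 0 j) := q_posR hq h0 _
  have hz : (0 : ℝ) < q (cst H 0 q 0 (j + 1) - 1) := q_posR hq h0 _
  have hv0 : 0 < v := by positivity
  have hwv : w ≤ v := by
    apply inv_anti hq h0
    rw [cst_succ']
    have := hK j
    omega
  have hge : cphi H q j / (q (cst H 0 q 0 j) : ℝ) ≤ g := tgap_ge' hq h0 j
  have hg0 : 0 ≤ g := le_trans (div_nonneg (cphi_nonneg (hK j)) hy.le) hge
  have hlast : (q (cst H 0 q 0 (j + 1) - 1) : ℝ) ≤ q (cst H 0 q 0 J) := by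
    have h1 : cst H 0 q 0 (j + 1) ≤ cst H 0 q 0 J := cst_mono 0 hj
    exact_mod_cast hq.monotone (by omega)
  have hfirst : (q (cst H 0 q 0 j) : ℝ) ≤ q (cst H 0 q 0 J) := by
    exact_mod_cast hq.monotone (cst_mono 0 hj.le)
  have hwt : 16.1 < w * t := by
    rw [hw, one_div, inv_mul_eq_div, lt_div_iff₀ hz]
    nlinarith
  have hcase : (if cphi H q j ≤ 0.0161 then v else 0) ≥ 0 := by
    split_ifs
    · exact hv0.le
    · exact le_rfl
  unfold c2
  show (if min w g * t ≤ 16.1 then 4.72 else 1.35) * max w g + 5.4 * min w g ≤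
    1.35 * v + 5.4 * g + 3.37 * (if cphi H q j ≤ 0.0161 then v else 0)
  rcases le_total g w with h | h
  · rw [max_eq_left h, min_eq_right h]
    split_ifs with h2 h3 h3
    · linarith
    · exfalso
      apply h3
      have h4 : cphi H q j ≤ g * q (cst H 0 q 0 j) := by
        rw [div_le_iff₀ hy] at hge
        exact hge
      have h5 : g * (1000 * (q (cst H 0 q 0 j) : ℝ)) ≤ g * t :=
        mul_le_mul_of_nonneg_left (by linarith) hg0
      linarith
    · linarith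
    · linarith
  · rw [max_eq_right h, min_eq_left h, if_neg (by linarith)]
    linarith

end

end Pool.Agent.Moser
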