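import Pool.Agent.Lib_MP_cc07e8_co.EpC

/-!
# Main epoch, part C2: costs of a full slab without the term `5.4 Y ρ` (helper86, for MP_cc07e8_co)
-/

namespace Pool.Agent.Moser

section

variable {s u H Y W T N M k ρ P Δ z : ℝ}

/-- **First cost of a full slab**, the horizontal part of the pockets is paid separately. -/
theorem FullHyp.cost1b (h : FullHyp s u H Y W T N M k ρ P Δ z) :
    4.72 * W + 5.4 * T + 4.72 * (P + H) + 5.4 * (H * ρ) + 10.12 * H ≤
      905 * (s * u) + 26 * H := by
  have hH := h.Hpos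
  have hk := h.hk
  have hsu : 0 ≤ s * u := mul_nonneg h.s0 h.u0.le
  have hWY := h.WY
  have hWM := h.WM
  have hTY := h.TY
  have hTM := h.TM
  rcases le_total s 0.048 with hs | hs
  · obtain ⟨hM, hP, hρ, hHρ⟩ := h.small hs
    linarith
  · obtain ⟨hY, hYρ, hP, hρ, hHρ, hM⟩ := h.large hs
    have hsu2 : 0.048 * u ≤ s * u := mul_le_mul_of_nonneg_right hs h.u0.le
    linarith

/-- **Second cost of a full slab**, the horizontal part of the pockets is paid separately. -/
theorem FullHyp.cost2b (h : FullHyp s u H Y W T N M k ρ P Δ z) :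
    1.35 * W + 5.4 * T + 3.37 * N + 4.72 * (P + H) + 5.4 * (H * ρ) + 10.12 * H ≤
      625 * (s * u) + 33 * H := by
  have hH := h.Hpos
  have hk := h.hk
  have hsu : 0 ≤ s * u := mul_nonneg h.s0 h.u0.le
  have hWY := h.WY
  have hWM := h.WM
  have hTY := h.TY
  have hTM := h.TM
  have hNM := h.NM
  rcases le_total s 0.048 with hs | hs
  · obtain ⟨hM, hP, hρ, hHρ⟩ := h.small hs
    linarith
  · obtain ⟨hY, hYρ, hP, hρ, hHρ, hM⟩ := h.large hs
    have hsu2 : 0.048 * u ≤ s * u := mul_le_mul_of_nonneg_right hs h.u0.le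
    linarith

end

end Pool.Agent.Moser
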