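import Mathlib

/-!
# The shelf (helper60, for MP_cc07e8_co)

A shelf of `k+1` stacked rows of squares, every row aligned to the right border of the box `[0,W] x [0,H]`.
The side of the square in row `r`, column `i` is `a r i`; the only hypothesis is that `a` is nonnegative and
decreasing in the row and in the column.  Square `(r,i)` sits at `[X r i, X r (i+1)] x [Y r i, Y (r+1) i]`.
The complement of the squares in the box is decomposed exactly into
* pockets `(r,i)`: `[X r (i+1), X (r+1) (i+1)] x [Y (r+1) (i+1), Y (r+1) i]`,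
* left gaps `r`: `[0, X r 0] x [Y r 0, Y (r+1) 0]`,
* top gaps `i`: `[X k i, X k (i+1)] x [Y (k+1) i, H]`,
* the corner `[0, X k 0] x [Y (k+1) 0, H]`.
-/

namespace Pool.Agent.Shelf

open Finset

/-- an axis-parallel rectangle: lower left corner `(x, y)`, width `w`, height `h` -/
structure Rect where
  x : ℝ
  y : ℝ
  w : ℝ
  h : ℝ

def Rect.area (R : Rect) : ℝ := R.w * R.h

/-- interiors disjoint -/
def Apart (R S : Rect) : Prop :=
  R.x + R.w ≤ S.x ∨ S.x + S.w ≤ R.x ∨ R.y + R.h ≤ S.y ∨ S.y + S.h ≤ R.y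

def Inside (W H : ℝ) (R : Rect) : Prop :=
  0 ≤ R.x ∧ R.x + R.w ≤ W ∧ 0 ≤ R.y ∧ R.y + R.h ≤ H ∧ 0 ≤ R.w ∧ 0 ≤ R.h

/-- the rectangle with given left, right, bottom, top -/
def ofBounds (x1 x2 y1 y2 : ℝ) : Rect := ⟨x1, y1, x2 - x1, y2 - y1⟩

theorem apart_ofBounds {x1 x2 y1 y2 u1 u2 v1 v2 : ℝ}
    (h : x2 ≤ u1 ∨ u2 ≤ x1 ∨ y2 ≤ v1 ∨ v2 ≤ y1) :
    Apart (ofBounds x1 x2 y1 y2) (ofBounds u1 u2 v1 v2) := by
  unfold Apart ofBounds
  simpa using h

theorem inside_ofBounds {W H x1 x2 y1 y2 : ℝ} (h1 : 0 ≤ x1) (h2 : x1 ≤ x2) (h3 : x2 ≤ W)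
    (h4 : 0 ≤ y1) (h5 : y1 ≤ y2) (h6 : y2 ≤ H) :
    Inside W H (ofBounds x1 x2 y1 y2) := by
  unfold Inside ofBounds
  refine ⟨h1, by simpa using h3, h4, by simpa using h6, by simpa using h2, by simpa using h5⟩

section

variable (W H : ℝ) (k l : ℕ) (a : ℕ → ℕ → ℝ)

/-- left end of the square in row `r`, column `i` (`l+1` columns) -/
def X (r i : ℕ) : ℝ := W - ∑ j ∈ Ico i (l + 1), a r j

/-- bottom of the square in row `r`, column `i` -/
def Y (r i : ℕ) : ℝ := ∑ s ∈ range r, a s i

/-- the pieces: squares, pockets, left gaps, top gaps, corner -/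
abbrev Piece := (Fin (k + 1) × Fin (l + 1)) ⊕ (Fin k × Fin l) ⊕ Fin (k + 1) ⊕ Fin (l + 1) ⊕ Unit

/-- positions of the pieces -/
def pos : Piece k l → Rect
  | Sum.inl (r, i) => ofBounds (X W l a r i) (X W l a r (i + 1)) (Y a r i) (Y a (r + 1) i)
  | Sum.inr (Sum.inl (r, i)) =>
      ofBounds (X W l a r (i + 1)) (X W l a (r + 1) (i + 1)) (Y a (r + 1) (i + 1)) (Y a (r + 1) i)
  | Sum.inr (Sum.inr (Sum.inl r)) => ofBounds 0 (X W l a r 0) (Y a r 0) (Y a (r + 1) 0)
  | Sum.inr (Sum.inr (Sum.inr (Sum.inl i))) =>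
      ofBounds (X W l a k i) (X W l a k (i + 1)) (Y a (k + 1) i) H
  | Sum.inr (Sum.inr (Sum.inr (Sum.inr _))) => ofBounds 0 (X W l a k 0) (Y a (k + 1) 0) H

/-- the hypotheses on the matrix of sides -/
structure Good : Prop where
  nonneg : ∀ r i, 0 ≤ a r i
  anti_row : ∀ r i, a (r + 1) i ≤ a r i
  anti_col : ∀ r i, a r (i + 1) ≤ a r i

variable {W H k l a}

theorem X_last (r : ℕ) : X W l a r (l + 1) = W := by simp [X]

theorem X_succ {r i : ℕ} (hi : i < l + 1) : X W l a r (i + 1) = X W l a r i + a r i := by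
  unfold X
  rw [Finset.sum_eq_sum_Ico_succ_bot hi]
  ring

theorem X_succ_le (ha : Good a) (r i : ℕ) : X W l a r i ≤ X W l a r (i + 1) := by
  unfold X
  have : ∑ j ∈ Ico (i + 1) (l + 1), a r j ≤ ∑ j ∈ Ico i (l + 1), a r j := by
    apply Finset.sum_le_sum_of_subset_of_nonneg
    · intro j hj; simp only [mem_Ico] at hj ⊢; omega
    · intro j _ _; exact ha.nonneg r j
  linarith

theorem X_mono (ha : Good a) (r : ℕ) {i j : ℕ} (h : i ≤ j) : X W l a r i ≤ X W l a r j :=
  monotone_nat_of_le_succ (f := fun i => X W l a r i) (X_succ_le ha r) h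

theorem X_row (ha : Good a) (i : ℕ) {r s : ℕ} (h : r ≤ s) : X W l a r i ≤ X W l a s i := by
  refine monotone_nat_of_le_succ (f := fun r => X W l a r i) (fun r => ?_) h
  unfold X
  have : ∑ j ∈ Ico i (l + 1), a (r + 1) j ≤ ∑ j ∈ Ico i (l + 1), a r j :=
    Finset.sum_le_sum fun j _ => ha.anti_row r j
  show W - _ ≤ W - _
  linarith

theorem Y_succ (r i : ℕ) : Y a (r + 1) i = Y a r i + a r i := by
  unfold Y
  rw [Finset.sum_range_succ]

theorem Y_zero (i : ℕ) : Y a 0 i = 0 := by simp [Y]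

theorem Y_mono (ha : Good a) (i : ℕ) {r s : ℕ} (h : r ≤ s) : Y a r i ≤ Y a s i := by
  refine monotone_nat_of_le_succ (f := fun r => Y a r i) (fun r => ?_) h
  show Y a r i ≤ Y a (r + 1) i
  rw [Y_succ]
  linarith [ha.nonneg r i]

theorem Y_col (ha : Good a) (r : ℕ) {i j : ℕ} (h : i ≤ j) : Y a r j ≤ Y a r i := by
  refine antitone_nat_of_succ_le (f := fun i => Y a r i) (fun i => ?_) h
  exact Finset.sum_le_sum fun s _ => ha.anti_col s i

theorem Y_nonneg (ha : Good a) (r i : ℕ) : 0 ≤ Y a r i :=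
  Finset.sum_nonneg fun s _ => ha.nonneg s i

theorem X_le_W (ha : Good a) (r i : ℕ) : X W l a r i ≤ W := by
  unfold X
  have : 0 ≤ ∑ j ∈ Ico i (l + 1), a r j := Finset.sum_nonneg fun s _ => ha.nonneg r s
  linarith

theorem X_nonneg (ha : Good a) (hW : ∑ j ∈ range (l + 1), a 0 j ≤ W) (r i : ℕ) :
    0 ≤ X W l a r i := by
  have h1 : 0 ≤ X W l a 0 0 := by
    unfold X
    rw [← Finset.range_eq_Ico]
    linarith
  calc (0 : ℝ) ≤ X W l a 0 0 := h1
    _ ≤ X W l a 0 i := X_mono ha 0 (Nat.zero_le i)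
    _ ≤ X W l a r i := X_row ha i (Nat.zero_le r)

theorem Y_le_H (ha : Good a) (hH : ∑ s ∈ range (k + 1), a s 0 ≤ H) {r : ℕ} (hr : r ≤ k + 1)
    (i : ℕ) : Y a r i ≤ H := by
  calc Y a r i ≤ Y a (k + 1) i := Y_mono ha i hr
    _ ≤ Y a (k + 1) 0 := Y_col ha (k + 1) (Nat.zero_le i)
    _ ≤ H := hH

theorem inside (ha : Good a) (hW : ∑ j ∈ range (l + 1), a 0 j ≤ W)
    (hH : ∑ s ∈ range (k + 1), a s 0 ≤ H) (p : Piece k l) : Inside W H (pos W H k l a p) := by
  rcases p with ⟨r, i⟩ | ⟨r, i⟩ | r | i | u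
  · exact inside_ofBounds (X_nonneg ha hW _ _) (X_mono ha _ (Nat.le_succ _)) (X_le_W ha _ _)
      (Y_nonneg ha _ _) (Y_mono ha _ (Nat.le_succ _)) (Y_le_H ha hH (by omega) _)
  · exact inside_ofBounds (X_nonneg ha hW _ _) (X_row ha _ (Nat.le_succ _)) (X_le_W ha _ _)
      (Y_nonneg ha _ _) (Y_col ha _ (Nat.le_succ _)) (Y_le_H ha hH (by omega) _)
  · exact inside_ofBounds le_rfl (X_nonneg ha hW _ _) (X_le_W ha _ _)
      (Y_nonneg ha _ _) (Y_mono ha _ (Nat.le_succ _)) (Y_le_H ha hH (by omega) _)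
  · exact inside_ofBounds (X_nonneg ha hW _ _) (X_mono ha _ (Nat.le_succ _)) (X_le_W ha _ _)
      (Y_nonneg ha _ _) (Y_le_H ha hH le_rfl _) le_rfl
  · exact inside_ofBounds le_rfl (X_nonneg ha hW _ _) (X_le_W ha _ _)
      (Y_nonneg ha _ _) (Y_le_H ha hH le_rfl _) le_rfl

theorem Apart.symm {R S : Rect} (h : Apart R S) : Apart S R := by
  unfold Apart at *
  tauto

theorem ap_sq_sq (ha : Good a) {r i s j : ℕ} (h : (r, i) ≠ (s, j)) :
    Apart (ofBounds (X W l a r i) (X W l a r (i + 1)) (Y a r i) (Y a (r + 1) i))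
      (ofBounds (X W l a s j) (X W l a s (j + 1)) (Y a s j) (Y a (s + 1) j)) := by
  wlog hrs : r ≤ s generalizing r i s j
  · exact (this (Ne.symm h) (by omega)).symm
  apply apart_ofBounds
  rcases Nat.lt_or_ge r s with hlt | hge
  · rcases Nat.lt_or_ge i j with hij | hij
    · left
      exact (X_mono ha r (by omega : i + 1 ≤ j)).trans (X_row ha j hrs)
    · right; right; left
      exact (Y_col ha (r + 1) hij).trans (Y_mono ha j (by omega : r + 1 ≤ s))
  · have hrs' : r = s := le_antisymm hrs hge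
    subst hrs'
    have hij : i ≠ j := fun e => h (by rw [e])
    rcases Nat.lt_or_gt_of_ne hij with h1 | h1
    · left; exact X_mono ha r (by omega)
    · right; left; exact X_mono ha r (by omega)

theorem ap_sq_po (ha : Good a) (r i s j : ℕ) :
    Apart (ofBounds (X W l a r i) (X W l a r (i + 1)) (Y a r i) (Y a (r + 1) i))
      (ofBounds (X W l a s (j + 1)) (X W l a (s + 1) (j + 1)) (Y a (s + 1) (j + 1))
        (Y a (s + 1) j)) := by
  apply apart_ofBounds
  rcases Nat.lt_or_ge s r with hlt | hge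
  · rcases Nat.lt_or_ge j i with hij | hij
    · right; left
      exact (X_mono ha (s + 1) (by omega : j + 1 ≤ i)).trans (X_row ha i (by omega))
    · right; right; right
      exact (Y_col ha (s + 1) hij).trans (Y_mono ha i (by omega : s + 1 ≤ r))
  · rcases Nat.lt_or_ge j i with hij | hij
    · right; right; left
      exact (Y_mono ha i (by omega : r + 1 ≤ s + 1)).trans (Y_col ha (s + 1) (by omega))
    · left
      exact (X_mono ha r (by omega : i + 1 ≤ j + 1)).trans (X_row ha (j + 1) hge)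

theorem ap_po_po (ha : Good a) {r i s j : ℕ} (h : (r, i) ≠ (s, j)) :
    Apart (ofBounds (X W l a r (i + 1)) (X W l a (r + 1) (i + 1)) (Y a (r + 1) (i + 1))
        (Y a (r + 1) i))
      (ofBounds (X W l a s (j + 1)) (X W l a (s + 1) (j + 1)) (Y a (s + 1) (j + 1))
        (Y a (s + 1) j)) := by
  wlog hrs : r ≤ s generalizing r i s j
  · exact (this (Ne.symm h) (by omega)).symm
  apply apart_ofBounds
  rcases Nat.lt_or_ge r s with hlt | hge
  · rcases Nat.lt_or_ge j i with hij | hij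
    · right; right; left
      exact (Y_mono ha i (by omega : r + 1 ≤ s + 1)).trans (Y_col ha (s + 1) (by omega))
    · left
      exact (X_mono ha (r + 1) (by omega : i + 1 ≤ j + 1)).trans (X_row ha (j + 1) (by omega))
  · have hrs' : r = s := le_antisymm hrs hge
    subst hrs'
    have hij : i ≠ j := fun e => h (by rw [e])
    rcases Nat.lt_or_gt_of_ne hij with h1 | h1
    · right; right; right; exact Y_col ha (r + 1) (by omega)
    · right; right; left; exact Y_col ha (r + 1) (by omega)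

theorem ap_sq_le (ha : Good a) (r i s : ℕ) :
    Apart (ofBounds (X W l a r i) (X W l a r (i + 1)) (Y a r i) (Y a (r + 1) i))
      (ofBounds 0 (X W l a s 0) (Y a s 0) (Y a (s + 1) 0)) := by
  apply apart_ofBounds
  rcases Nat.lt_or_ge r s with hlt | hge
  · right; right; left
    exact (Y_col ha (r + 1) (Nat.zero_le i)).trans (Y_mono ha 0 (by omega))
  · right; left
    exact (X_mono ha s (Nat.zero_le i)).trans (X_row ha i hge)

theorem ap_po_le (ha : Good a) (r i s : ℕ) :
    Apart (ofBounds (X W l a r (i + 1)) (X W l a (r + 1) (i + 1)) (Y a (r + 1) (i + 1))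
        (Y a (r + 1) i))
      (ofBounds 0 (X W l a s 0) (Y a s 0) (Y a (s + 1) 0)) := by
  apply apart_ofBounds
  rcases Nat.lt_or_ge r s with hlt | hge
  · right; right; left
    exact (Y_col ha (r + 1) (Nat.zero_le i)).trans (Y_mono ha 0 (by omega))
  · right; left
    exact (X_mono ha s (Nat.zero_le (i + 1))).trans (X_row ha (i + 1) hge)

theorem ap_le_le (ha : Good a) {r s : ℕ} (h : r ≠ s) :
    Apart (ofBounds 0 (X W l a r 0) (Y a r 0) (Y a (r + 1) 0))
      (ofBounds 0 (X W l a s 0) (Y a s 0) (Y a (s + 1) 0)) := by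
  apply apart_ofBounds
  rcases Nat.lt_or_gt_of_ne h with h1 | h1
  · right; right; left; exact Y_mono ha 0 (by omega)
  · right; right; right; exact Y_mono ha 0 (by omega)

theorem ap_sq_to (ha : Good a) {r : ℕ} (hr : r ≤ k) (i j : ℕ) :
    Apart (ofBounds (X W l a r i) (X W l a r (i + 1)) (Y a r i) (Y a (r + 1) i))
      (ofBounds (X W l a k j) (X W l a k (j + 1)) (Y a (k + 1) j) H) := by
  apply apart_ofBounds
  rcases Nat.lt_or_ge i j with hlt | hge
  · left
    exact (X_mono ha r (by omega)).trans (X_row ha j hr)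
  · right; right; left
    exact (Y_col ha (r + 1) hge).trans (Y_mono ha j (by omega))

theorem ap_po_to (ha : Good a) {r : ℕ} (hr : r < k) (i j : ℕ) :
    Apart (ofBounds (X W l a r (i + 1)) (X W l a (r + 1) (i + 1)) (Y a (r + 1) (i + 1))
        (Y a (r + 1) i))
      (ofBounds (X W l a k j) (X W l a k (j + 1)) (Y a (k + 1) j) H) := by
  apply apart_ofBounds
  rcases Nat.lt_or_ge i j with hlt | hge
  · left
    exact (X_mono ha (r + 1) (by omega : i + 1 ≤ j)).trans (X_row ha j (by omega))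
  · right; right; left
    exact (Y_col ha (r + 1) hge).trans (Y_mono ha j (by omega))

theorem ap_le_to (ha : Good a) {r : ℕ} (hr : r ≤ k) (j : ℕ) :
    Apart (ofBounds 0 (X W l a r 0) (Y a r 0) (Y a (r + 1) 0))
      (ofBounds (X W l a k j) (X W l a k (j + 1)) (Y a (k + 1) j) H) := by
  apply apart_ofBounds
  left
  exact (X_row ha 0 hr).trans (X_mono ha k (Nat.zero_le j))

theorem ap_to_to (ha : Good a) {i j : ℕ} (h : i ≠ j) :
    Apart (ofBounds (X W l a k i) (X W l a k (i + 1)) (Y a (k + 1) i) H)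
      (ofBounds (X W l a k j) (X W l a k (j + 1)) (Y a (k + 1) j) H) := by
  apply apart_ofBounds
  rcases Nat.lt_or_gt_of_ne h with h1 | h1
  · left; exact X_mono ha k (by omega)
  · right; left; exact X_mono ha k (by omega)

theorem ap_sq_co (ha : Good a) {r : ℕ} (hr : r ≤ k) (i : ℕ) :
    Apart (ofBounds (X W l a r i) (X W l a r (i + 1)) (Y a r i) (Y a (r + 1) i))
      (ofBounds 0 (X W l a k 0) (Y a (k + 1) 0) H) := by
  apply apart_ofBounds
  right; right; left
  exact (Y_col ha (r + 1) (Nat.zero_le i)).trans (Y_mono ha 0 (by omega))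

theorem ap_po_co (ha : Good a) {r : ℕ} (hr : r < k) (i : ℕ) :
    Apart (ofBounds (X W l a r (i + 1)) (X W l a (r + 1) (i + 1)) (Y a (r + 1) (i + 1))
        (Y a (r + 1) i))
      (ofBounds 0 (X W l a k 0) (Y a (k + 1) 0) H) := by
  apply apart_ofBounds
  right; right; left
  exact (Y_col ha (r + 1) (Nat.zero_le i)).trans (Y_mono ha 0 (by omega))

theorem ap_le_co (ha : Good a) {r : ℕ} (hr : r ≤ k) :
    Apart (ofBounds 0 (X W l a r 0) (Y a r 0) (Y a (r + 1) 0))
      (ofBounds 0 (X W l a k 0) (Y a (k + 1) 0) H) := by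
  apply apart_ofBounds
  right; right; left
  exact Y_mono ha 0 (by omega)

theorem ap_to_co (ha : Good a) (j : ℕ) :
    Apart (ofBounds (X W l a k j) (X W l a k (j + 1)) (Y a (k + 1) j) H)
      (ofBounds 0 (X W l a k 0) (Y a (k + 1) 0) H) := by
  apply apart_ofBounds
  right; left
  exact X_mono ha k (Nat.zero_le j)

/-- all pieces have pairwise disjoint interiors -/
theorem apart (ha : Good a) (p q : Piece k l) (h : p ≠ q) :
    Apart (pos W H k l a p) (pos W H k l a q) := by
  rcases p with ⟨r, i⟩ | ⟨r, i⟩ | r | i | u <;> rcases q with ⟨s, j⟩ | ⟨s, j⟩ | s | j | v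
  · apply ap_sq_sq ha
    intro e
    apply h
    simp only [Prod.mk.injEq] at e
    simp [Fin.ext e.1, Fin.ext e.2]
  · exact ap_sq_po ha _ _ _ _
  · exact ap_sq_le ha _ _ _
  · exact ap_sq_to ha (by omega) _ _
  · exact ap_sq_co ha (by omega) _
  · exact (ap_sq_po ha _ _ _ _).symm
  · apply ap_po_po ha
    intro e
    apply h
    simp only [Prod.mk.injEq] at e
    simp [Fin.ext e.1, Fin.ext e.2]
  · exact ap_po_le ha _ _ _
  · exact ap_po_to ha (by omega) _ _
  · exact ap_po_co ha (by omega) _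
  · exact (ap_sq_le ha _ _ _).symm
  · exact (ap_po_le ha _ _ _).symm
  · apply ap_le_le ha
    intro e
    apply h
    simp [Fin.ext e]
  · exact ap_le_to ha (by omega) _
  · exact ap_le_co ha (by omega)
  · exact (ap_sq_to ha (by omega) _ _).symm
  · exact (ap_po_to ha (by omega) _ _).symm
  · exact (ap_le_to ha (by omega) _).symm
  · apply ap_to_to ha
    intro e
    apply h
    simp [Fin.ext e]
  · exact ap_to_co ha _
  · exact (ap_sq_co ha (by omega) _).symm
  · exact (ap_po_co ha (by omega) _).symm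
  · exact (ap_le_co ha (by omega)).symm
  · exact (ap_to_co ha _).symm
  · exact absurd rfl h

/-- Abel summation -/
theorem abel (D Z : ℕ → ℝ) (n : ℕ) :
    ∑ i ∈ range (n + 1), (D (i + 1) - D i) * Z i + D 0 * Z 0 =
      D (n + 1) * Z n + ∑ i ∈ range n, D (i + 1) * (Z i - Z (i + 1)) := by
  induction n with
  | zero => simp; ring
  | succ n ih =>
    rw [Finset.sum_range_succ, Finset.sum_range_succ (fun i => D (i + 1) * (Z i - Z (i + 1)))]
    linear_combination ih

theorem pocket_row (r : ℕ) :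
    ∑ i ∈ range l, (X W l a (r + 1) (i + 1) - X W l a r (i + 1)) *
        (Y a (r + 1) i - Y a (r + 1) (i + 1)) =
      (∑ i ∈ range (l + 1), a (r + 1) i * Y a (r + 1) i + X W l a (r + 1) 0 * Y a (r + 1) 0) -
      (∑ i ∈ range (l + 1), a r i * Y a (r + 1) i + X W l a r 0 * Y a (r + 1) 0) := by
  have h := abel (fun i => X W l a (r + 1) i - X W l a r i) (fun i => Y a (r + 1) i) l
  simp only [X_last, sub_self, zero_mul, zero_add] at h
  rw [← h]
  have h2 : ∀ s, ∑ i ∈ range (l + 1), a s i * Y a (r + 1) i =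
      ∑ i ∈ range (l + 1), (X W l a s (i + 1) - X W l a s i) * Y a (r + 1) i := by
    intro s
    apply Finset.sum_congr rfl
    intro i hi
    rw [X_succ (mem_range.mp hi)]
    ring
  rw [h2 (r + 1), h2 r]
  have h3 : ∑ i ∈ range (l + 1), (X W l a (r + 1) (i + 1) - X W l a r (i + 1) -
        (X W l a (r + 1) i - X W l a r i)) * Y a (r + 1) i =
      ∑ i ∈ range (l + 1), (X W l a (r + 1) (i + 1) - X W l a (r + 1) i) * Y a (r + 1) i -
      ∑ i ∈ range (l + 1), (X W l a r (i + 1) - X W l a r i) * Y a (r + 1) i := by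
    rw [← Finset.sum_sub_distrib]
    apply Finset.sum_congr rfl
    intro i _
    ring
  rw [h3]
  ring

/-- area below the upper profile of row `r` -/
theorem area_below (r : ℕ) :
    ∑ i ∈ range (l + 1), a r i * Y a (r + 1) i + X W l a r 0 * Y a (r + 1) 0 =
      ∑ s ∈ range (r + 1), ∑ i ∈ range (l + 1), a s i * a s i +
      ∑ s ∈ range (r + 1), X W l a s 0 * a s 0 +
      ∑ s ∈ range r, ∑ i ∈ range l, (X W l a (s + 1) (i + 1) - X W l a s (i + 1)) *
        (Y a (s + 1) i - Y a (s + 1) (i + 1)) := by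
  have hrow : ∀ s, ∑ i ∈ range (l + 1), a s i * Y a (s + 1) i + X W l a s 0 * Y a (s + 1) 0 =
      (∑ i ∈ range (l + 1), a s i * Y a s i + X W l a s 0 * Y a s 0) +
      (∑ i ∈ range (l + 1), a s i * a s i + X W l a s 0 * a s 0) := by
    intro s
    have : ∑ i ∈ range (l + 1), a s i * Y a (s + 1) i =
        ∑ i ∈ range (l + 1), a s i * Y a s i + ∑ i ∈ range (l + 1), a s i * a s i := by
      rw [← Finset.sum_add_distrib]
      apply Finset.sum_congr rfl
      intro i _
      rw [Y_succ]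
      ring
    rw [this, Y_succ]
    ring
  induction r with
  | zero =>
    rw [hrow 0]
    simp [Y_zero]
  | succ r ih =>
    have hp := pocket_row (W := W) (l := l) (a := a) r
    rw [hrow (r + 1), Finset.sum_range_succ (fun s => ∑ i ∈ range (l + 1), a s i * a s i) (r + 1),
      Finset.sum_range_succ (fun s => X W l a s 0 * a s 0) (r + 1),
      Finset.sum_range_succ (fun s => ∑ i ∈ range l, (X W l a (s + 1) (i + 1) -
        X W l a s (i + 1)) * (Y a (s + 1) i - Y a (s + 1) (i + 1))) r]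
    linear_combination ih - hp

/-- the areas of the pieces sum up to `W * H` -/
theorem area : ∑ p : Piece k l, (pos W H k l a p).area = W * H := by
  rw [Fintype.sum_sum_type, Fintype.sum_sum_type, Fintype.sum_sum_type, Fintype.sum_sum_type]
  have s1 : ∑ p : Fin (k + 1) × Fin (l + 1), (pos W H k l a (Sum.inl p)).area =
      ∑ s ∈ range (k + 1), ∑ i ∈ range (l + 1), a s i * a s i := by
    rw [Fintype.sum_prod_type, Finset.sum_range fun s => ∑ i ∈ range (l + 1), a s i * a s i]
    apply Finset.sum_congr rfl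
    intro r _
    rw [Finset.sum_range fun i => a r i * a r i]
    apply Finset.sum_congr rfl
    intro i _
    show (X W l a r (i + 1) - X W l a r i) * (Y a (r + 1) i - Y a r i) = _
    rw [X_succ i.isLt, Y_succ]
    ring
  have s2 : ∑ p : Fin k × Fin l, (pos W H k l a (Sum.inr (Sum.inl p))).area =
      ∑ s ∈ range k, ∑ i ∈ range l, (X W l a (s + 1) (i + 1) - X W l a s (i + 1)) *
        (Y a (s + 1) i - Y a (s + 1) (i + 1)) := by
    rw [Fintype.sum_prod_type, Finset.sum_range fun s => ∑ i ∈ range l,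
      (X W l a (s + 1) (i + 1) - X W l a s (i + 1)) * (Y a (s + 1) i - Y a (s + 1) (i + 1))]
    apply Finset.sum_congr rfl
    intro r _
    rw [Finset.sum_range fun i =>
      (X W l a (r + 1) (i + 1) - X W l a r (i + 1)) * (Y a (r + 1) i - Y a (r + 1) (i + 1))]
    rfl
  have s3 : ∑ p : Fin (k + 1), (pos W H k l a (Sum.inr (Sum.inr (Sum.inl p)))).area =
      ∑ s ∈ range (k + 1), X W l a s 0 * a s 0 := by
    rw [Finset.sum_range fun s => X W l a s 0 * a s 0]
    apply Finset.sum_congr rfl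
    intro r _
    show (X W l a r 0 - 0) * (Y a (r + 1) 0 - Y a r 0) = _
    rw [Y_succ]
    ring
  have s4 : ∑ p : Fin (l + 1), (pos W H k l a (Sum.inr (Sum.inr (Sum.inr (Sum.inl p))))).area =
      ∑ i ∈ range (l + 1), a k i * (H - Y a (k + 1) i) := by
    rw [Finset.sum_range fun i => a k i * (H - Y a (k + 1) i)]
    apply Finset.sum_congr rfl
    intro i _
    show (X W l a k (i + 1) - X W l a k i) * (H - Y a (k + 1) i) = _
    rw [X_succ i.isLt]
    ring
  have s5 : ∑ p : Unit, (pos W H k l a (Sum.inr (Sum.inr (Sum.inr (Sum.inr p))))).area =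
      X W l a k 0 * (H - Y a (k + 1) 0) := by
    simp only [Finset.univ_unique, Finset.sum_singleton]
    show (X W l a k 0 - 0) * (H - Y a (k + 1) 0) = _
    ring
  rw [s1, s2, s3, s4, s5]
  have hA := area_below (W := W) (l := l) (a := a) k
  have hW : X W l a k 0 + ∑ i ∈ range (l + 1), a k i = W := by
    unfold X
    rw [← Finset.range_eq_Ico]
    ring
  have s6 : ∑ i ∈ range (l + 1), a k i * (H - Y a (k + 1) i) =
      (∑ i ∈ range (l + 1), a k i) * H - ∑ i ∈ range (l + 1), a k i * Y a (k + 1) i := by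
    rw [Finset.sum_mul, ← Finset.sum_sub_distrib]
    apply Finset.sum_congr rfl
    intro i _
    ring
  rw [s6]
  linear_combination (-1 : ℝ) * hA + H * hW

end

end Pool.Agent.Shelf
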