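import Pool.Agent.Lib_MP_cc07e8_co.Geo
import Pool.Agent.Lib_MP_cc07e8_co.Shelf

/-!
# The shelf as a `Dec` (helper60, for MP_cc07e8_co)
-/

namespace Pool.Agent.Moser

open Finset Pool.Agent.Shelf

/-- `Dec.pack` for an arbitrary finite index type -/
theorem Dec.packι {ι : Type} [Fintype ι] {w h : ℝ} (R : ι → Rect)
    (S : ι → Multiset ℕ) (ρ : ι → Multiset (ℝ × ℝ)) (hw : 0 ≤ w) (hh : 0 ≤ h)
    (hin : ∀ i, Inside w h (R i)) (hsep : ∀ i j, i ≠ j → Apart (R i) (R j))
    (harea : ∑ i, (R i).area = w * h) (hdec : ∀ i, Dec (R i).w (R i).h (S i) (ρ i)) :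
    Dec w h (∑ i, S i) (∑ i, ρ i) := by
  have e := (Fintype.equivFin ι).symm
  have key := Dec.pack (w := w) (h := h) (n := Fintype.card ι)
    (fun i => (R (e i)).x) (fun i => (R (e i)).y) (fun i => (R (e i)).w) (fun i => (R (e i)).h)
    (fun i => S (e i)) (fun i => ρ (e i)) hw hh
    (fun i => ⟨(hin (e i)).1, (hin (e i)).2.1, (hin (e i)).2.2.1, (hin (e i)).2.2.2.1⟩)
    (fun i j hij => hsep (e i) (e j) (fun h => hij (e.injective h)))
    (by
      rw [← harea]
      exact Equiv.sum_comp e fun i => (R i).area)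
    (fun i => hdec (e i))
  rw [Equiv.sum_comp e S, Equiv.sum_comp e ρ] at key
  exact key

/-- side by side -/
theorem Dec.beside {w₁ w₂ h : ℝ} {S₁ S₂ : Multiset ℕ} {ρ₁ ρ₂ : Multiset (ℝ × ℝ)}
    (h1 : Dec w₁ h S₁ ρ₁) (h2 : Dec w₂ h S₂ ρ₂) : Dec (w₁ + w₂) h (S₁ + S₂) (ρ₁ + ρ₂) :=
  (h1.turn.stack h2.turn).turn

section

variable (W H : ℝ) (k l : ℕ) (a : ℕ → ℕ → ℝ)

/-- the pockets of the shelf -/
noncomputable def pockets : Multiset (ℝ × ℝ) :=
  ∑ r ∈ range k, ∑ i ∈ range l, {(X W l a (r + 1) (i + 1) - X W l a r (i + 1),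
    Y a (r + 1) i - Y a (r + 1) (i + 1))}

/-- the gaps at the left border -/
noncomputable def lefts : Multiset (ℝ × ℝ) := ∑ r ∈ range (k + 1), {(X W l a r 0, a r 0)}

/-- the gaps at the top -/
noncomputable def tops : Multiset (ℝ × ℝ) :=
  ∑ i ∈ range (l + 1), {(a k i, H - Y a (k + 1) i)}

/-- the corner -/
noncomputable def corner : Multiset (ℝ × ℝ) := {(X W l a k 0, H - Y a (k + 1) 0)}

end

/-- **The shelf.**  Rows `0..k` and columns `0..l` of squares of side `1 / m r i`, all rows aligned to the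
right: an exact decomposition of the box `W × H`. -/
theorem shelf_dec {W H : ℝ} {k l : ℕ} {m : ℕ → ℕ → ℕ} (hpos : ∀ r i, 0 < m r i)
    (hrow : ∀ r i, m r i ≤ m (r + 1) i) (hcol : ∀ r i, m r i ≤ m r (i + 1))
    (hW : ∑ i ∈ range (l + 1), 1 / (m 0 i : ℝ) ≤ W)
    (hH : ∑ r ∈ range (k + 1), 1 / (m r 0 : ℝ) ≤ H) :
    Dec W H (∑ r ∈ range (k + 1), ∑ i ∈ range (l + 1), {m r i})
      (pockets W k l (fun r i => 1 / (m r i : ℝ)) + (lefts W k l (fun r i => 1 / (m r i : ℝ)) +
        (tops H k l (fun r i => 1 / (m r i : ℝ)) + corner W H k l (fun r i => 1 / (m r i : ℝ))))) := by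
  set a : ℕ → ℕ → ℝ := fun r i => 1 / (m r i : ℝ) with ha_def
  have hmR : ∀ r i, (0 : ℝ) < m r i := fun r i => by exact_mod_cast hpos r i
  have ha : Good a := by
    refine ⟨fun r i => ?_, fun r i => ?_, fun r i => ?_⟩
    · exact (one_div_pos.2 (hmR r i)).le
    · exact one_div_le_one_div_of_le (hmR r i) (by exact_mod_cast hrow r i)
    · exact one_div_le_one_div_of_le (hmR r i) (by exact_mod_cast hcol r i)
  have hWn : 0 ≤ W := le_trans (Finset.sum_nonneg fun i _ => ha.nonneg 0 i) hW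
  have hHn : 0 ≤ H := le_trans (Finset.sum_nonneg fun i _ => ha.nonneg i 0) hH
  have key := Dec.packι (ι := Piece k l) (w := W) (h := H) (pos W H k l a)
    (fun p => match p with
      | Sum.inl (r, i) => {m r i}
      | _ => 0)
    (fun p => match p with
      | Sum.inl _ => 0
      | Sum.inr q => {((pos W H k l a (Sum.inr q)).w, (pos W H k l a (Sum.inr q)).h)})
    hWn hHn (inside ha hW hH) (apart ha) Shelf.area
    (by
      intro p
      have hin := inside ha hW hH p
      rcases p with ⟨r, i⟩ | q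
      · show Dec (X W l a r (i + 1) - X W l a r i) (Y a (r + 1) i - Y a r i) {m r i} 0
        rw [X_succ i.isLt, Y_succ]
        have e1 : X W l a r i + a r i - X W l a r i = 1 / (m r i : ℝ) := by
          rw [ha_def]; ring
        have e2 : Y a r i + a r i - Y a r i = 1 / (m r i : ℝ) := by
          rw [ha_def]; ring
        rw [e1, e2]
        exact Dec.sq _
      · exact Dec.leaf hin.2.2.2.2.1 hin.2.2.2.2.2)
  have eS : (∑ p : Piece k l, (match p with
      | Sum.inl (r, i) => ({m r i} : Multiset ℕ)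
      | _ => 0)) = ∑ r ∈ range (k + 1), ∑ i ∈ range (l + 1), {m r i} := by
    rw [Fintype.sum_sum_type]
    have : ∑ q : (Fin k × Fin l) ⊕ Fin (k + 1) ⊕ Fin (l + 1) ⊕ Unit, (match
        (Sum.inr q : Piece k l) with
      | Sum.inl (r, i) => ({m r i} : Multiset ℕ)
      | _ => 0) = 0 := Finset.sum_eq_zero fun q _ => rfl
    rw [this, add_zero, Fintype.sum_prod_type,
      Finset.sum_range fun r => ∑ i ∈ range (l + 1), ({m r i} : Multiset ℕ)]
    apply Finset.sum_congr rfl
    intro r _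
    rw [Finset.sum_range fun i => ({m r i} : Multiset ℕ)]
  have eρ : (∑ p : Piece k l, (match p with
      | Sum.inl _ => (0 : Multiset (ℝ × ℝ))
      | Sum.inr q => {((pos W H k l a (Sum.inr q)).w, (pos W H k l a (Sum.inr q)).h)})) =
      pockets W k l a + (lefts W k l a + (tops H k l a + corner W H k l a)) := by
    rw [Fintype.sum_sum_type, Fintype.sum_sum_type, Fintype.sum_sum_type, Fintype.sum_sum_type]
    have h0 : ∑ q : Fin (k + 1) × Fin (l + 1), (match (Sum.inl q : Piece k l) with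
      | Sum.inl _ => (0 : Multiset (ℝ × ℝ))
      | Sum.inr q => {((pos W H k l a (Sum.inr q)).w, (pos W H k l a (Sum.inr q)).h)}) = 0 :=
      Finset.sum_eq_zero fun q _ => rfl
    rw [h0, zero_add]
    congr 1
    · rw [Fintype.sum_prod_type, pockets, Finset.sum_range fun r => ∑ i ∈ range l,
        ({(X W l a (r + 1) (i + 1) - X W l a r (i + 1),
          Y a (r + 1) i - Y a (r + 1) (i + 1))} : Multiset (ℝ × ℝ))]
      apply Finset.sum_congr rfl
      intro r _
      rw [Finset.sum_range fun i => ({(X W l a (r + 1) (i + 1) - X W l a r (i + 1),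
          Y a (r + 1) i - Y a (r + 1) (i + 1))} : Multiset (ℝ × ℝ))]
      rfl
    · congr 1
      · rw [lefts, Finset.sum_range fun r => ({(X W l a r 0, a r 0)} : Multiset (ℝ × ℝ))]
        apply Finset.sum_congr rfl
        intro r _
        show ({(X W l a r 0 - 0, Y a (r + 1) 0 - Y a r 0)} : Multiset (ℝ × ℝ)) = _
        rw [Y_succ, sub_zero, add_sub_cancel_left]
      · congr 1
        · rw [tops, Finset.sum_range fun i =>
            ({(a k i, H - Y a (k + 1) i)} : Multiset (ℝ × ℝ))]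
          apply Finset.sum_congr rfl
          intro i _
          show ({(X W l a k (i + 1) - X W l a k i, H - Y a (k + 1) i)} : Multiset (ℝ × ℝ)) = _
          rw [X_succ i.isLt, add_sub_cancel_left]
        · rw [corner]
          simp only [Finset.univ_unique, Finset.sum_singleton]
          show ({(X W l a k 0 - 0, H - Y a (k + 1) 0)} : Multiset (ℝ × ℝ)) = _
          rw [sub_zero]
  rw [eS, eρ] at key
  exact key

end Pool.Agent.Moser
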