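import Pool.Agent.Lib_MP_cc07e8_co.EpD
import Pool.Agent.Lib_MP_cc07e8_co.EpDefs
import Pool.Agent.Lib_MP_cc07e8_co.ShelfDec

/-!
# Main epoch: the iteration, preparations (helper86, for MP_cc07e8_co)
-/

namespace Pool.Agent.Moser

open Finset Pool.Agent.Shelf Eng

/-- a slab is cut off the main rectangle -/
theorem cut_slab {X Y h A : ℝ} (hY : 0 < Y) (hXY : Y ≤ X) (hX : X ≤ 2 * Y) (hh : 0 < h)
    (hA : 2 * h ^ 2 ≤ A) (hAX : A ≤ (X - h) * Y) {S : Multiset ℕ} {O : Multiset (ℝ × ℝ)}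
    (hd : Dec Y h S O) :
    ∃ X1 Y1 : ℝ, 0 < Y1 ∧ Y1 ≤ X1 ∧ X1 ≤ 2 * Y1 ∧ Y1 ≤ Y ∧ X1 + Y1 = X + Y - h ∧
      X1 * Y1 = (X - h) * Y ∧ Ref {(X, Y)} S ({(X1, Y1)} + O) := by
  have hA0 : 0 < A := lt_of_lt_of_le (by positivity) hA
  have hXh : 0 < X - h := by
    by_contra hcon
    rw [not_lt] at hcon
    have := mul_nonpos_of_nonpos_of_nonneg hcon hY.le
    linarith
  have hR : Ref {(X, Y)} S ({(X - h, Y)} + O) := by
    have h1 := Ref.cut' (a := X - h) (b := h) (c := Y) hXh.le hh.le hY.le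
    rw [sub_add_cancel] at h1
    have h2 : Ref {(h, Y)} S O := by
      have h3 := (Ref.turn hh.le hY.le).trans (Ref.of_dec hd)
      rwa [zero_add] at h3
    have h4 := (Ref.refl {(X - h, Y)}).add h2
    rw [zero_add] at h4
    have h5 := h1.trans h4
    rwa [zero_add] at h5
  rcases le_total Y (X - h) with h1 | h1
  · exact ⟨X - h, Y, hY, h1, by linarith, le_rfl, by ring, rfl, hR⟩
  · refine ⟨Y, X - h, hXh, h1, ?_, h1, by ring, by ring, ?_⟩
    · rcases le_or_gt (2 * h) Y with h2 | h2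
      · linarith
      · by_contra hcon
        rw [not_le] at hcon
        have h5 : (X - h) * Y < Y / 2 * Y := mul_lt_mul_of_pos_right (by linarith) hY
        have h6 : (Y / 2) ^ 2 ≤ h ^ 2 := pow_le_pow_left₀ (by linarith) (by linarith) 2
        have h7 : Y / 2 * Y = 2 * (Y / 2) ^ 2 := by ring
        linarith
    · have h4 := (Ref.turn hXh.le hY.le).add (Ref.refl O)
      rw [zero_add] at h4
      have h5 := hR.trans h4
      rwa [add_zero] at h5

/-- `Δ ≤ 5.2248 s` -/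
theorem delta_le {s Δ : ℝ} (hs0 : 0 ≤ s) (hs : s ≤ 0.2) (hΔ : (1 + Δ) * (1 - s) ^ 3 = 1) :
    Δ ≤ 5.2248 * s := by
  rcases le_total s 0.048 with h | h
  · have := small_delta hs0 h hΔ
    linarith
  · have := chord_delta h hs hΔ
    linarith

/-- numbers of the last slab -/
theorem low_num {a g E qa qb h : ℝ} (hg : 10320 ≤ g) (hga : g ≤ a) (haE : a ≤ E)
    (hE : E ≤ 1.25 * g) (h1 : a ^ 3 / 27000 - 64 ≤ qa) (h4 : qb ≤ (E + 1) ^ 3 / 27000)
    (hqab : qa ≤ qb) (hh0 : 0 ≤ h) (hhH : h ≤ 990 / a ^ 2) :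
    4.72 * (h ^ 2 / 2 * (qb - qa)) + 17 * (h * (qb / qa - 1)) + 22 / qa ≤
      625 * (1 / a - 1 / E) + 473 / g ^ 2 := by
  have ha : 10320 ≤ a := by linarith
  have ha0 : 0 < a := by linarith
  have hg0 : 0 < g := by linarith
  have hE0 : 0 < E := by linarith
  have hP := P_le ha haE (by linarith) h1 h4 hqab hh0 hhH
  have hρ := rho_le ha haE (by linarith) h1 h4
  have hqa := qa_ge ha h1
  have hqa0 : 0 < qa := lt_of_lt_of_le (by positivity) hqa
  set D := (E / a) ^ 3 - 1 with hD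
  have hD0 : 0 ≤ D := by
    have : 1 ≤ E / a := (one_le_div ha0).2 haE
    have := one_le_pow₀ this (n := 3)
    linarith
  have hDs : D ≤ 5.2248 * (1 - a / E) := by
    apply delta_le
    · have : a / E ≤ 1 := (div_le_one hE0).2 haE
      linarith
    · have : 0.8 ≤ a / E := by
        rw [le_div_iff₀ hE0]
        linarith
      linarith
    · rw [hD]
      field_simp
      ring
  set u := 1 / a with hu
  have hu0 : 0 < u := by positivity
  have hu1 : u ≤ 1 / 10320 := one_div_le_one_div_of_le (by norm_num) ha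
  have hDu : D * u ≤ 5.2248 * (1 / a - 1 / E) := by
    have h5 := mul_le_mul_of_nonneg_right hDs hu0.le
    have e : 5.2248 * (1 - a / E) * u = 5.2248 * (1 / a - 1 / E) := by
      rw [hu]
      field_simp
    rw [e] at h5
    exact h5
  have hhu : h ≤ 990 * u ^ 2 := by
    refine hhH.trans (le_of_eq ?_)
    rw [hu]
    field_simp
  have hhρ : h * (qb / qa - 1) ≤ 990 * u ^ 2 * (D + 4.75 * u) := by
    have h6 : 0 ≤ qb / qa - 1 := by
      have : 1 ≤ qb / qa := (one_le_div hqa0).2 hqab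
      linarith
    exact mul_le_mul hhu hρ h6 (by positivity)
  have h22 : 22 / qa ≤ 59.4 * u ^ 2 := by
    have : 22 / qa ≤ 22 / (a ^ 2 / 2.7) :=
      div_le_div_of_nonneg_left (by norm_num) (by positivity) hqa
    refine this.trans (le_of_eq ?_)
    rw [hu]
    field_simp
    norm_num
  have hug : u ^ 2 ≤ 1 / g ^ 2 := by
    rw [hu, one_div, inv_pow, one_div]
    apply inv_anti₀ (by positivity)
    exact pow_le_pow_left₀ hg0.le hga 2
  have hu2 : u ^ 2 * D ≤ 1 / 10320 * (u * D) := by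
    have h7 : 0 ≤ u * D := mul_nonneg hu0.le hD0
    calc u ^ 2 * D = u * (u * D) := by ring
      _ ≤ 1 / 10320 * (u * D) := mul_le_mul_of_nonneg_right hu1 h7
  have hu3 : u ^ 3 ≤ 1 / 10320 * u ^ 2 := by
    have h7 : 0 ≤ u ^ 2 := by positivity
    calc u ^ 3 = u * u ^ 2 := by ring
      _ ≤ 1 / 10320 * u ^ 2 := mul_le_mul_of_nonneg_right hu1 h7
  have e473 : 473 / g ^ 2 = 473 * (1 / g ^ 2) := by ring
  rw [e473]
  have hdiff : 0 ≤ 1 / a - 1 / E := by
    have := one_div_le_one_div_of_le ha0 haE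
    linarith
  have k1 : 990 * u ^ 2 * (D + 4.75 * u) = 990 * (u ^ 2 * D) + 4702.5 * u ^ 3 := by ring
  rw [k1] at hhρ
  have k2 : u * D = D * u := mul_comm u D
  rw [k2] at hu2
  have k3 : 18.15 * D * u = 18.15 * (D * u) := by ring
  rw [k3] at hP
  have k4 : 0 ≤ u ^ 2 := by positivity
  linarith

theorem H_small {g : ℝ} (hg : 10320 ≤ g) {h T : ℝ} (hT : 0 < T)
    (hTE : T ≤ 1.953125 * g ^ 3 / 27000) (hh0 : 0 ≤ h) (hh : h ≤ 990 / g ^ 2) :
    2 * h ^ 2 ≤ 0.035 / T := by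
  have hg0 : 0 < g := by linarith
  have h1 : h ^ 2 ≤ (990 / g ^ 2) ^ 2 := pow_le_pow_left₀ hh0 hh 2
  have h2 : (990 / g ^ 2) ^ 2 = 980100 / g ^ 4 := by
    field_simp
    norm_num
  rw [h2] at h1
  rw [le_div_iff₀ hT]
  have h3 : 2 * h ^ 2 * T ≤ 2 * (980100 / g ^ 4) * (1.953125 * g ^ 3 / 27000) := by
    apply mul_le_mul _ hTE hT.le (by positivity)
    linarith
  have h4 : 2 * (980100 / g ^ 4) * (1.953125 * g ^ 3 / 27000) = 141.796875 / g := by
    field_simp
    norm_num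
  rw [h4] at h3
  have h5 : 141.796875 / g ≤ 141.796875 / 10320 :=
    div_le_div_of_nonneg_left (by norm_num) (by norm_num) hg
  have h6 : (141.796875 : ℝ) / 10320 ≤ 0.035 := by norm_num
  linarith

theorem bud_nonneg {g E : ℕ} {Y0 : ℝ} {a q0 : ℕ} (h1 : 0 ≤ 1 / (a : ℝ) - 1 / (E : ℝ))
    (h2 : 0 ≤ ((tau E : ℝ) - q0) / tau g) (h3 : 0 ≤ Y0) : 0 ≤ bud 905 g E Y0 a q0 := by
  unfold bud
  positivity

/-- a slab is not higher than the main rectangle -/
theorem height_le {X Y h : ℝ} (hXY : Y ≤ X) (hY : 0 < Y) (hh : 0 < h) (hA : 2 * h ^ 2 ≤ X * Y) :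
    h ≤ X := by
  by_contra hcon
  rw [not_le] at hcon
  have hX : 0 ≤ X := hY.le.trans hXY
  have h10 : X * Y ≤ X * X := mul_le_mul_of_nonneg_left hXY hX
  have h11 : X * X ≤ h * h := mul_self_le_mul_self hX hcon.le
  have h12 : 0 < h * h := mul_pos hh hh
  have h13 : 2 * h ^ 2 = 2 * (h * h) := by ring
  linarith only [hA, h10, h11, h12, h13]

end Pool.Agent.Moser
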