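import Pool.Agent.Lib_MP_cc07e8_co.EpDefs
import Pool.Agent.Lib_MP_cc07e8_co.EpI0

/-!
# Main epoch: the iteration (helper86, for MP_cc07e8_co)
-/

namespace Pool.Agent.Moser

open Finset Pool.Agent.Shelf Eng

/-- **The iteration.** -/
theorem iter (low_slab : LowSlabStmt) (full_slab : FullSlabStmt) {g E : ℕ} (hg : 10320 ≤ g) (hE : (E : ℝ) ≤ 1.25 * g) {Y0 : ℝ}
    (hYN : Y0 ^ 2 * ((tau g : ℝ) - 1) ≤ 1) :
    ∀ (n : ℕ) (q : ℕ → ℕ) (a : ℕ) (X Y : ℝ), 1 ≤ n → StrictMono q → g ≤ a → tau a ≤ q 0 →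
      q 0 < tau (a + 1) → q n = tau E → 0 < Y → Y ≤ X → X ≤ 2 * Y → Y ≤ Y0 →
      sqa ((range n).val.map q) + 0.035 / (tau E : ℝ) +
        (bud 905 g E Y0 a (q 0) + 35 * (X + Y)) / (4.72 * (tau g : ℝ)) ≤ X * Y →
      ∃ (X' Y' : ℝ) (O : Multiset (ℝ × ℝ)), 0 < Y' ∧ Y' ≤ X' ∧ X' ≤ 2 * Y' ∧ X' + Y' ≤ X + Y ∧
        Ref {(X, Y)} ((range n).val.map q) ({(X', Y')} + O) ∧
        (∀ r ∈ O, 0 ≤ r.1 ∧ 0 ≤ r.2 ∧ min r.1 r.2 ≤ 1 / (tau g : ℝ)) ∧
        msum c1 O ≤ bud 905 g E Y0 a (q 0) + 35 * ((X + Y) - (X' + Y')) ∧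
        ∀ T : ℝ, 1000 * (tau E : ℝ) ≤ T →
          msum (c2 T) O ≤ bud 625 g E Y0 a (q 0) + 35 * ((X + Y) - (X' + Y')) := by
  have hgR : (10320 : ℝ) ≤ g := by exact_mod_cast hg
  have hg0 : (0 : ℝ) < g := lt_of_lt_of_le (by norm_num) hgR
  have hNge : (g : ℝ) ^ 2 / 2.7 ≤ tau g := qa_ge hgR (tau_ge g)
  have hN : (0 : ℝ) < tau g := lt_of_lt_of_le (by positivity) hNge
  intro n
  induction n using Nat.strong_induction_on with
  | _ n ih =>
  intro q a X Y hn hq hga ha1 ha2 hqn hY hXY hX hYY0 hA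
  have hgaR : (g : ℝ) ≤ a := by exact_mod_cast hga
  have haR : (10320 : ℝ) ≤ a := hgR.trans hgaR
  have ha0 : (0 : ℝ) < a := lt_of_lt_of_le (by norm_num) haR
  have hY00 : 0 ≤ Y0 := hY.le.trans hYY0
  have hX0 : 0 < X := lt_of_lt_of_le hY hXY
  have hNq : (tau g : ℝ) ≤ q 0 := by
    have h3 : tau g ≤ q 0 := (tau_mono hga).trans ha1
    exact_mod_cast h3
  have hq0 : (0 : ℝ) < q 0 := lt_of_lt_of_le hN hNq
  have h0 : 0 < q 0 := by exact_mod_cast hq0
  have hq0n : q 0 < q n := hq (by omega)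
  have haE : a < E := win_lt ha1 (by rw [← hqn]; exact hq0n)
  have haER : (a : ℝ) ≤ E := by exact_mod_cast haE.le
  have hTE : (q 0 : ℝ) ≤ tau E := by
    rw [← hqn]
    exact_mod_cast hq0n.le
  have hT0 : (0 : ℝ) < tau E := lt_of_lt_of_le hq0 hTE
  have hsub0 : (0 : ℝ) ≤ (tau E : ℝ) - q 0 := sub_nonneg.2 hTE
  have hdiv0 : (0 : ℝ) ≤ ((tau E : ℝ) - q 0) / tau g := div_nonneg hsub0 hN.le
  have hN4 : (0 : ℝ) < 4.72 * (tau g : ℝ) := mul_pos (by norm_num) hN
  have hdiff : 0 ≤ 1 / (a : ℝ) - 1 / (E : ℝ) := sub_nonneg.2 (one_div_le_one_div_of_le ha0 haER)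
  have hTle := tauE_le hE
  have h1 : (a : ℝ) ^ 3 / 27000 - 64 ≤ q 0 := by
    have h := tau_ge a
    have h' : (tau a : ℝ) ≤ q 0 := by exact_mod_cast ha1
    exact h.trans h'
  have h2 : (q 0 : ℝ) ≤ ((a : ℝ) + 1) ^ 3 / 27000 := by
    have h := tau_le (a + 1)
    have h' : (q 0 : ℝ) ≤ tau (a + 1) := by exact_mod_cast ha2.le
    push_cast at h
    exact h'.trans h
  -- the height of a full slab
  set K0 := fK a (q 0) with hK0d
  have hK1 : (K0 : ℝ) ≤ 990 * (q 0 : ℝ) / (a : ℝ) ^ 2 := Nat.floor_le (by positivity)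
  have hK2 : 990 * (q 0 : ℝ) / (a : ℝ) ^ 2 < (K0 : ℝ) + 1 := Nat.lt_floor_add_one _
  have hK3 := K0_ge haR h1 hK2
  set H : ℝ := K0 / (q 0 : ℝ) with hH
  have hHp : 0 < H := by
    have h4 : (0 : ℝ) < K0 := by linarith only [hK3, haR]
    exact div_pos h4 hq0
  have hHq : 1 / (q 0 : ℝ) ≤ H := by
    rw [hH]
    apply div_le_div_of_nonneg_right _ hq0.le
    linarith only [hK3, haR]
  have hHa : H ≤ 990 / (a : ℝ) ^ 2 := H_le haR hq0 hK1
  have hHg : H ≤ 990 / (g : ℝ) ^ 2 := by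
    refine hHa.trans ?_
    apply div_le_div_of_nonneg_left (by norm_num) (by positivity)
    exact pow_le_pow_left₀ hg0.le hgaR 2
  -- the budgets are nonnegative
  have hYN' : Y ^ 2 * ((tau g : ℝ) - 1) ≤ 1 := by
    refine le_trans ?_ hYN
    have h3 : 0 ≤ (tau g : ℝ) - 1 := by
      have : (1 : ℝ) ≤ (g : ℝ) ^ 2 / 2.7 := by
        rw [le_div_iff₀ (by norm_num)]
        have h4 : (10320 : ℝ) ^ 2 ≤ (g : ℝ) ^ 2 := pow_le_pow_left₀ (by norm_num) hgR 2
        norm_num at h4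
        linarith only [h4]
      linarith only [this, hNge]
    exact mul_le_mul_of_nonneg_right (pow_le_pow_left₀ hY.le hYY0 2) h3
  have hsq0 : 0 ≤ sqa ((range n).val.map q) := by
    unfold sqa
    apply Multiset.sum_nonneg
    intro x hx
    rw [Multiset.mem_map] at hx
    obtain ⟨m, _, rfl⟩ := hx
    positivity
  have hbuda : 0 ≤ bud 905 g E Y0 a (q 0) := bud_nonneg hdiff hdiv0 hY00
  have hfr : 0 ≤ (bud 905 g E Y0 a (q 0) + 35 * (X + Y)) / (4.72 * (tau g : ℝ)) :=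
    div_nonneg (add_nonneg hbuda (mul_nonneg (by norm_num) (add_pos hX0 hY).le)) hN4.le
  have hXYl : 0.035 / (tau E : ℝ) ≤ X * Y := by linarith only [hA, hsq0, hfr]
  have hYq : 1 / (q 0 : ℝ) ≤ Y := by
    -- X Y ≥ 0.035 / tau E
    have h4 : 0.035 / (tau E : ℝ) ≤ 2 * Y ^ 2 := by
      have h5 : X * Y ≤ 2 * Y * Y := mul_le_mul_of_nonneg_right hX hY.le
      have h6 : 2 * Y * Y = 2 * Y ^ 2 := by ring
      linarith only [h5, h6, hXYl]
    by_contra hcon
    rw [not_le] at hcon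
    have h5 : Y ^ 2 < (1 / (q 0 : ℝ)) ^ 2 := pow_lt_pow_left₀ hcon hY.le (by norm_num)
    have h6 : (1 / (q 0 : ℝ)) ^ 2 ≤ (1 / (tau g : ℝ)) ^ 2 := by
      apply pow_le_pow_left₀ (by positivity)
      exact one_div_le_one_div_of_le hN hNq
    have h7 : 0.035 / (tau E : ℝ) < 2 * (1 / (tau g : ℝ)) ^ 2 := by linarith only [h4, h5, h6]
    rw [div_lt_iff₀ hT0] at h7
    have h8 : 2 * (1 / (tau g : ℝ)) ^ 2 * (tau E : ℝ) =
        2 * (tau E : ℝ) / ((tau g : ℝ) * tau g) := by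
      field_simp
    rw [h8, lt_div_iff₀ (by positivity)] at h7
    have h9 := tau_ge g
    have h10 : (10320 : ℝ) ^ 3 ≤ (g : ℝ) ^ 3 := pow_le_pow_left₀ (by norm_num) hgR 3
    norm_num at h10
    have h11 : (tau E : ℝ) ≤ 2 * tau g := by linarith only [h9, h10, hTle]
    have h12 : (1000 : ℝ) ≤ tau g := by linarith only [h9, h10]
    have h13 := mul_le_mul_of_nonneg_right h12 hN.le
    linarith only [h7, h11, h13, hN]
  by_cases hfit : mW q n H H 0 ≤ Y
  · -- the last slab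
    obtain ⟨h, O, hh0, hhH, hd, hm, hc⟩ := low_slab hq h0 hn hHq hfit
    have hnum := low_num (qb := (q n : ℝ)) hgR hgaR haER hE h1 (by
      rw [hqn]
      refine (tau_le E).trans ?_
      apply div_le_div_of_nonneg_right _ (by norm_num)
      exact pow_le_pow_left₀ (Nat.cast_nonneg _) (le_add_of_nonneg_right zero_le_one) 3)
      (by exact_mod_cast hq0n.le) hh0.le (hhH.trans hHa)
    have hρY : Y * ((q n : ℝ) / q 0 - 1) ≤ Y0 * (((tau E : ℝ) - q 0) / tau g) := by
      have e : (q n : ℝ) / q 0 - 1 = ((tau E : ℝ) - q 0) / q 0 := by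
        rw [hqn]
        field_simp
      rw [e]
      exact mul_le_mul hYY0 (div_le_div_of_nonneg_left hsub0 hN hNq) (div_nonneg hsub0 hq0.le) hY00
    have hc1 : ∀ c : ℝ, 625 ≤ c → msum c1 O ≤ bud c g E Y0 a (q 0) + 35 * h := by
      intro c hcc
      unfold bud
      have h5 := mul_le_mul_of_nonneg_right hcc hdiff
      linarith only [h5, hc, hnum, hρY, hYY0, hh0]
    have harea := area_le_c1 hN (ρ := O) (fun r hr => ⟨(hm r hr).1, (hm r hr).2.1,
      (hm r hr).2.2.trans (one_div_le_one_div_of_le hN hNq)⟩)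
    have haeq := hd.area_eq
    have hc905 := hc1 905 (by norm_num)
    have hstep : 0.035 / (tau E : ℝ) ≤ (X - h) * Y := by
      have h5 : area O ≤ (bud 905 g E Y0 a (q 0) + 35 * h) / (4.72 * (tau g : ℝ)) :=
        harea.trans (div_le_div_of_nonneg_right hc905 hN4.le)
      have h6 : (bud 905 g E Y0 a (q 0) + 35 * h) / (4.72 * (tau g : ℝ)) ≤
          (bud 905 g E Y0 a (q 0) + 35 * (X + Y)) / (4.72 * (tau g : ℝ)) := by
        apply div_le_div_of_nonneg_right _ hN4.le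
        have h7 : h ≤ X := height_le hXY hY hh0
          ((H_small hgR hT0 hTle hh0.le (hhH.trans hHg)).trans hXYl)
        linarith only [h7, hY]
      have h14 : (X - h) * Y = X * Y - Y * h := by ring
      rw [h14, haeq]
      linarith only [hA, h5, h6]
    obtain ⟨X1, Y1, hY1, hXY1, hX1, hYY1, hsum, hprod, hR⟩ := cut_slab hY hXY hX hh0
      (H_small hgR hT0 hTle hh0.le (hhH.trans hHg)) hstep hd
    refine ⟨X1, Y1, O, hY1, hXY1, hX1, by linarith only [hsum, hh0], hR, ?_, ?_, ?_⟩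
    · intro r hr
      exact ⟨(hm r hr).1, (hm r hr).2.1, (hm r hr).2.2.trans (one_div_le_one_div_of_le hN hNq)⟩
    · rw [hsum]
      linarith only [hc905]
    · intro T _
      have h5 : msum (c2 T) O ≤ msum c1 O := c2_msum_le fun r hr => ⟨(hm r hr).1, (hm r hr).2.1⟩
      have h6 := hc1 625 le_rfl
      rw [hsum]
      linarith only [h5, h6]
  · -- a full slab
    rw [not_le] at hfit
    obtain ⟨t, b, O, ht1, htn, hab, hbE, hb1, hb2, hd, hm, hc1, hc2⟩ :=
      full_slab hq hg hga ha1 ha2 hE hqn hY hYN' hYq hfit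
    have hqt : (q 0 : ℝ) ≤ q t := by exact_mod_cast hq.monotone (Nat.zero_le t)
    have hqtE : (q t : ℝ) ≤ tau E := by
      rw [← hqn]
      exact_mod_cast hq.monotone htn.le
    have hρY : Y * ((q t : ℝ) / q 0 - 1) ≤ Y0 * (((q t : ℝ) - q 0) / tau g) := by
      have e : (q t : ℝ) / q 0 - 1 = ((q t : ℝ) - q 0) / q 0 := by
        field_simp
      rw [e]
      exact mul_le_mul hYY0 (div_le_div_of_nonneg_left (sub_nonneg.2 hqt) hN hNq)
        (div_nonneg (sub_nonneg.2 hqt) hq0.le) hY00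
    have hbud : ∀ c : ℝ, bud c g E Y0 a (q 0) = bud c g E Y0 b (q t) +
        c * (1 / (a : ℝ) - 1 / (b : ℝ)) + 5.4 * (Y0 * (((q t : ℝ) - q 0) / tau g)) := by
      intro c
      unfold bud
      field_simp
      ring
    have hc1' : msum c1 O ≤ bud 905 g E Y0 a (q 0) - bud 905 g E Y0 b (q t) + 35 * H := by
      rw [hbud 905]
      linarith only [hc1, hρY, hHp]
    have harea := area_le_c1 hN (ρ := O) (fun r hr => ⟨(hm r hr).1, (hm r hr).2.1,
      (hm r hr).2.2.trans (one_div_le_one_div_of_le hN hNq)⟩)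
    have haeq := hd.area_eq
    -- the remaining squares
    set q' : ℕ → ℕ := fun x => q (t + x) with hq'
    have hq'm : StrictMono q' := fun x y hxy => hq (Nat.add_lt_add_left hxy t)
    have eS : (range t).val.map q + (range (n - t)).val.map q' = (range n).val.map q := by
      have h5 : n = t + (n - t) := by omega
      rw [← gch_sum_aux (q := q), ← gch_sum_aux (q := q'), ← gch_sum_aux (q := q)]
      conv_rhs => rw [h5]
      rw [Finset.sum_range_add]
    have eqa : sqa ((range n).val.map q) =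
        sqa ((range t).val.map q) + sqa ((range (n - t)).val.map q') := by
      rw [← eS, sqa_add]
    have hbudb : 0 ≤ bud 905 g E Y0 b (q t) := by
      have hb0 : (0 : ℝ) < b := lt_of_lt_of_le ha0 (by exact_mod_cast hab)
      have h4 := one_div_le_one_div_of_le hb0 (show (b : ℝ) ≤ E by exact_mod_cast hbE.le)
      exact bud_nonneg (sub_nonneg.2 h4) (div_nonneg (sub_nonneg.2 hqtE) hN.le) hY00
    have hstep : sqa ((range (n - t)).val.map q') + 0.035 / (tau E : ℝ) +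
        (bud 905 g E Y0 b (q t) + 35 * (X + Y - H)) / (4.72 * (tau g : ℝ)) ≤ (X - H) * Y := by
      have h5 : area O ≤ (bud 905 g E Y0 a (q 0) - bud 905 g E Y0 b (q t) + 35 * H) /
          (4.72 * (tau g : ℝ)) :=
        harea.trans (div_le_div_of_nonneg_right hc1' hN4.le)
      have h6 : (bud 905 g E Y0 b (q t) + 35 * (X + Y - H)) / (4.72 * (tau g : ℝ)) +
          (bud 905 g E Y0 a (q 0) - bud 905 g E Y0 b (q t) + 35 * H) / (4.72 * (tau g : ℝ)) =
          (bud 905 g E Y0 a (q 0) + 35 * (X + Y)) / (4.72 * (tau g : ℝ)) := by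
        rw [← add_div]
        congr 1
        ring
      have h7 : (X - H) * Y = X * Y - Y * H := by ring
      rw [h7, haeq]
      linarith only [hA, h5, h6, eqa]
    have hsq0' : 0 ≤ sqa ((range (n - t)).val.map q') := by
      unfold sqa
      apply Multiset.sum_nonneg
      intro x hx
      rw [Multiset.mem_map] at hx
      obtain ⟨m, _, rfl⟩ := hx
      positivity
    have hHX : H ≤ X := height_le hXY hY hHp
      ((H_small hgR hT0 hTle hHp.le hHg).trans hXYl)
    obtain ⟨X1, Y1, hY1, hXY1, hX1, hYY1, hsum, hprod, hR⟩ := cut_slab hY hXY hX hHp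
      (H_small hgR hT0 hTle hHp.le hHg) (by
        refine le_trans ?_ hstep
        have h9 : 0 ≤ X + Y - H := by linarith only [hHX, hY]
        have h10 : 0 ≤ (bud 905 g E Y0 b (q t) + 35 * (X + Y - H)) / (4.72 * (tau g : ℝ)) :=
          div_nonneg (add_nonneg hbudb (mul_nonneg (by norm_num) h9)) hN4.le
        linarith only [h10, hsq0']) hd
    obtain ⟨X2, Y2, O2, hY2, hXY2, hX2, hsum2, hR2, hm2, hc12, hc22⟩ := ih (n - t) (by omega) q' b
      X1 Y1 (by omega) hq'm (hga.trans hab) hb1 hb2 (by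
        show q (t + (n - t)) = tau E
        rw [Nat.add_sub_cancel' htn.le, hqn]) hY1 hXY1 hX1 (hYY1.trans hYY0) (by
        show sqa ((range (n - t)).val.map q') + 0.035 / (tau E : ℝ) +
          (bud 905 g E Y0 b (q t) + 35 * (X1 + Y1)) / (4.72 * (tau g : ℝ)) ≤ X1 * Y1
        rw [hsum, hprod]
        exact hstep)
    have hq't : q' 0 = q t := rfl
    rw [hq't] at hc12 hc22
    refine ⟨X2, Y2, O + O2, hY2, hXY2, hX2, by linarith only [hsum, hsum2, hHp], ?_, ?_, ?_, ?_⟩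
    · have h5 := hR.trans (hR2.add (Ref.refl O))
      rw [add_zero, eS] at h5
      have e : ({(X2, Y2)} + O2 + O : Multiset (ℝ × ℝ)) = {(X2, Y2)} + (O + O2) := by
        rw [add_assoc, add_comm O2 O]
      rw [e] at h5
      exact h5
    · intro r hr
      rcases Multiset.mem_add.1 hr with hr | hr
      · exact ⟨(hm r hr).1, (hm r hr).2.1, (hm r hr).2.2.trans (one_div_le_one_div_of_le hN hNq)⟩
      · exact hm2 r hr
    · rw [msum_add]
      linarith only [hc1', hc12, hsum]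
    · intro T hT
      rw [msum_add]
      have h5 := hc2 T hT
      have h6 := hc22 T hT
      rw [hbud 625]
      linarith only [h5, h6, hsum, hρY, hHp]

end Pool.Agent.Moser
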