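import Pool.Agent.Lib_MP_cc07e8_co.Load

/-!
# MP_cc07e8_co, tail theorem: area of the strips
-/

namespace Pool.Agent.Moser

namespace StripArea

theorem step4 (j : ℕ) (hj : 2 ≤ j) :
    1 / (j : ℝ) ^ 4 ≤ (1 / ((j : ℝ) - 1) ^ 3 - 1 / (j : ℝ) ^ 3) / 3 := by
  have h : (2 : ℝ) ≤ (j : ℝ) := by exact_mod_cast hj
  have h0 : (0 : ℝ) < (j : ℝ) := by linarith
  have h1 : (0 : ℝ) < (j : ℝ) - 1 := by linarith
  rw [div_sub_div _ _ (by positivity) (by positivity), div_div, div_le_div_iff₀ (by positivity)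
    (by positivity)]
  have e1 : 0 ≤ ((j : ℝ)) ^ 3 * (6 * (j : ℝ) ^ 2 - 8 * j + 3) := by
    apply mul_nonneg (by positivity)
    nlinarith
  nlinarith [e1]

theorem sum4 (i : ℕ) (hi : 2 ≤ i) (J : ℕ) :
    ∑ j ∈ Finset.Ico i J, 1 / (j : ℝ) ^ 4 ≤ 1 / (3 * ((i : ℝ) - 1) ^ 3) := by
  have h : (2 : ℝ) ≤ (i : ℝ) := by exact_mod_cast hi
  have key : ∀ n : ℕ, ∑ j ∈ Finset.Ico i (i + n), 1 / (j : ℝ) ^ 4 ≤
      (1 / ((i : ℝ) - 1) ^ 3 - 1 / (((i + n : ℕ) : ℝ) - 1) ^ 3) / 3 := by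
    intro n
    induction n with
    | zero => simp
    | succ n ih =>
      rw [← add_assoc, Finset.sum_Ico_succ_top (by omega)]
      have h2 := step4 (i + n) (by omega)
      push_cast at *
      have h3 : ((i : ℝ) + (n : ℝ) + 1 - 1) = (i : ℝ) + n := by ring
      rw [h3]
      linarith
  rcases Nat.lt_or_ge J i with hJ | hJ
  · rw [Finset.Ico_eq_empty (by omega), Finset.sum_empty]
    have : (0 : ℝ) < (i : ℝ) - 1 := by linarith
    positivity
  · obtain ⟨n, rfl⟩ := Nat.exists_eq_add_of_le hJ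
    refine (key n).trans ?_
    have h4 : (0 : ℝ) < ((i + n : ℕ) : ℝ) - 1 := by
      push_cast
      have : (0 : ℝ) ≤ (n : ℝ) := Nat.cast_nonneg n
      linarith
    have h5 : (0 : ℝ) < 1 / (((i + n : ℕ) : ℝ) - 1) ^ 3 := by positivity
    have h6 : 1 / (3 * ((i : ℝ) - 1) ^ 3) = (1 / ((i : ℝ) - 1) ^ 3) / 3 := by
      rw [one_div, mul_inv, one_div]; ring
    rw [h6]
    linarith

theorem ex_window (t : ℝ) (ht : 0 ≤ t) : ∃ j : ℕ, Wd j t := by
  obtain ⟨n, hn⟩ := exists_nat_gt t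
  have hex : ∃ j : ℕ, t < ((j : ℝ) + 1) ^ 3 := by
    refine ⟨n, hn.trans_le ?_⟩
    have : (0 : ℝ) ≤ n := Nat.cast_nonneg n
    nlinarith [pow_nonneg this 3, pow_nonneg this 2]
  classical
  refine ⟨Nat.find hex, ?_, Nat.find_spec hex⟩
  rcases Nat.eq_zero_or_pos (Nat.find hex) with h | h
  · rw [h]; simpa using ht
  · have h1 := Nat.find_min hex (m := Nat.find hex - 1) (by omega)
    have h2 : ((Nat.find hex - 1 : ℕ) : ℝ) + 1 = (Nat.find hex : ℝ) := by
      have h3 : Nat.find hex - 1 + 1 = Nat.find hex := by omega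
      exact_mod_cast congrArg (Nat.cast : ℕ → ℝ) h3
    rw [h2] at h1
    exact not_lt.1 h1

theorem area_strips (A : Finset ℕ) (T : ℕ → ℝ) :
    area (strips A T) = ∑ m ∈ A, 1 / (m : ℝ) * (1 / T m) := by
  unfold area strips
  rw [Multiset.map_map]
  rfl

end StripArea

open StripArea in
/-- Every `m ∈ A` is in exactly one window `j ≥ i` (`ripe`), `1 / T m ≤ 1 / j ^ 3`; so the area is at most
`∑_{j ≥ i} LB s i j / j ^ 3 ≤ ∑_{j ≥ i} 2.5 / j ^ 4 ≤ 2.5 / (3 (i - 1) ^ 3) ≤ 0.84 / i ^ 3` (finite sums over the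
windows of the elements of `A`). -/
theorem strip_area : ∃ s0 : ℕ, ∀ (cs : List (ℝ × ℝ)) (n0 s i : ℕ) (A : Finset ℕ) (T : ℕ → ℝ)
    (R : Multiset (ℝ × ℝ)), s0 ≤ s → s ≤ i → St cs n0 s i A T R →
    area (strips A T) ≤ 0.84 / (i : ℝ) ^ 3 := by
  classical
  obtain ⟨s1, h1⟩ := load_bound
  refine ⟨max s1 1000, ?_⟩
  intro cs n0 s i A T R hs hsi hSt
  have hs1 : s1 ≤ s := (le_max_left _ _).trans hs
  have hi : 1000 ≤ i := ((le_max_right _ _).trans hs).trans hsi
  have hir : (1000 : ℝ) ≤ (i : ℝ) := by exact_mod_cast hi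
  have hT : ∀ m ∈ A, 0 < T m := fun m hm => by
    have := hSt.ripe m hm
    have h2 : (0 : ℝ) < (i : ℝ) ^ 3 := by positivity
    linarith
  let w : ℕ → ℕ := fun m => if h : ∃ j, Wd j (T m) then Classical.choose h else 0
  have hw : ∀ m ∈ A, Wd (w m) (T m) := by
    intro m hm
    have h : ∃ j, Wd j (T m) := ex_window _ (hT m hm).le
    have : w m = Classical.choose h := dif_pos h
    rw [this]
    exact Classical.choose_spec h
  have hiw : ∀ m ∈ A, i ≤ w m := by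
    intro m hm
    have h2 := hSt.ripe m hm
    have h3 := (hw m hm).2
    have h4 : (i : ℝ) ^ 3 < ((w m : ℝ) + 1) ^ 3 := lt_of_le_of_lt h2 h3
    have h5 : (i : ℝ) < (w m : ℝ) + 1 := lt_of_pow_lt_pow_left₀ 3 (by positivity) h4
    have h6 : i < w m + 1 := by exact_mod_cast h5
    omega
  let J : ℕ := A.sup w + 1
  have hmap : ∀ m ∈ A, w m ∈ Finset.Ico i J := by
    intro m hm
    rw [Finset.mem_Ico]
    refine ⟨hiw m hm, ?_⟩
    have := Finset.le_sup (f := w) hm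
    exact Nat.lt_succ_of_le this
  rw [area_strips, ← Finset.sum_fiberwise_of_maps_to hmap]
  have hj : ∀ j ∈ Finset.Ico i J, ∑ m ∈ A.filter (fun m => w m = j), 1 / (m : ℝ) * (1 / T m) ≤
      2.5 * (1 / (j : ℝ) ^ 4) := by
    intro j hj
    rw [Finset.mem_Ico] at hj
    have hj0 : (0 : ℝ) < (j : ℝ) := by
      have : 0 < j := by omega
      exact_mod_cast this
    have a1 : ∑ m ∈ A.filter (fun m => w m = j), 1 / (m : ℝ) * (1 / T m) ≤
        ∑ m ∈ A.filter (fun m => w m = j), 1 / (m : ℝ) * (1 / (j : ℝ) ^ 3) := by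
      apply Finset.sum_le_sum
      intro m hm
      rw [Finset.mem_filter] at hm
      apply mul_le_mul_of_nonneg_left _ (by positivity)
      apply one_div_le_one_div_of_le (by positivity)
      have := (hw m hm.1).1
      rwa [hm.2] at this
    have a2 : ∑ m ∈ A.filter (fun m => w m = j), 1 / (m : ℝ) ≤
        ∑ m ∈ A.filter (fun m => Wd j (T m)), 1 / (m : ℝ) := by
      apply Finset.sum_le_sum_of_subset_of_nonneg
      · intro m hm
        rw [Finset.mem_filter] at hm ⊢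
        refine ⟨hm.1, ?_⟩
        have := hw m hm.1
        rwa [hm.2] at this
      · intro m _ _
        positivity
    have a3 := hSt.load j
    have a4 := h1 s i j hs1 (hsi.trans hj.1)
    rw [← Finset.sum_mul] at a1
    have a5 : ∑ m ∈ A.filter (fun m => w m = j), 1 / (m : ℝ) ≤ 2.5 / j := by
      refine a2.trans (le_trans ?_ a4)
      convert a3
    calc _ ≤ _ := a1
      _ ≤ 2.5 / j * (1 / (j : ℝ) ^ 3) := mul_le_mul_of_nonneg_right a5 (by positivity)
      _ = 2.5 * (1 / (j : ℝ) ^ 4) := by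
        field_simp
  refine (Finset.sum_le_sum hj).trans ?_
  rw [← Finset.mul_sum]
  have b1 := sum4 i (by omega) J
  have hi1 : (0 : ℝ) < (i : ℝ) - 1 := by linarith
  calc 2.5 * ∑ j ∈ Finset.Ico i J, 1 / (j : ℝ) ^ 4 ≤ 2.5 * (1 / (3 * ((i : ℝ) - 1) ^ 3)) := by
        apply mul_le_mul_of_nonneg_left b1 (by norm_num)
    _ ≤ 0.84 / (i : ℝ) ^ 3 := by
        rw [mul_one_div, div_le_div_iff₀ (by positivity) (by positivity)]
        nlinarith [mul_nonneg (sub_nonneg.2 hir) (sq_nonneg (i : ℝ)),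
          mul_nonneg (sub_nonneg.2 hir) (sub_nonneg.2 hir), sq_nonneg (i : ℝ)]

end Pool.Agent.Moser
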