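import Pool.Agent.Lib_MP_cc07e8_co.TailSum
import Pool.Agent.Lib_MP_cc07e8_co.StripArea

/-!
# MP_cc07e8_co, tail theorem: area of the fat rectangles
-/

namespace Pool.Agent.Moser

/-- a rectangle which is not fat has area at most `(8 / N) wt` -/
theorem thin_area {N : ℝ} (hN : 0 < N) (R : Multiset (ℝ × ℝ)) (hR : ∀ r ∈ R, 0 ≤ r.1 ∧ 0 ≤ r.2) :
    area R ≤ area (fat N R) + 8 / N * Psi R := by
  classical
  induction R using Multiset.induction_on with
  | empty => simp [fat]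
  | cons r R ih =>
    have ih' := ih (fun x hx => hR x (Multiset.mem_cons_of_mem hx))
    obtain ⟨h1, h2⟩ := hR r (Multiset.mem_cons_self r R)
    have hw : 0 ≤ wt r := wt_nonneg h1 h2
    have h8 : 0 ≤ 8 / N := by positivity
    unfold fat at ih' ⊢
    by_cases hp : 8 ≤ N * min r.1 r.2
    · rw [Multiset.filter_cons_of_pos (p := fun r : ℝ × ℝ => 8 ≤ N * min r.1 r.2) R hp,
        area_cons, area_cons, Psi_cons]
      have := mul_nonneg h8 hw
      linarith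
    · rw [Multiset.filter_cons_of_neg (p := fun r : ℝ × ℝ => 8 ≤ N * min r.1 r.2) R hp,
        area_cons, Psi_cons]
      push Not at hp
      have h3 : min r.1 r.2 ≤ 8 / N := by
        rw [le_div_iff₀ hN]
        linarith
      have h4 : r.1 * r.2 = max r.1 r.2 * min r.1 r.2 := (max_mul_min r.1 r.2).symm
      have h5 : 0 ≤ min r.1 r.2 := le_min h1 h2
      have h6 : 0 ≤ max r.1 r.2 := le_max_of_le_left h1
      have h7 : max r.1 r.2 ≤ wt r := by
        unfold wt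
        linarith
      have h8' : r.1 * r.2 ≤ 8 / N * wt r := by
        rw [h4, mul_comm]
        exact mul_le_mul h3 h7 h6 h8
      linarith

/-- `DecL.area_eq`, `tail_sum`, `strip_area`, `thin_area`, `Psi R ≤ 1 / 800`:
`1 / (i + 18) ^ 3 - 0.84 / i ^ 3 - 0.01 / i ^ 3 ≥ 0.1 / i ^ 3`. -/
theorem fat_area : ∃ s0 : ℕ, ∀ (cs : List (ℝ × ℝ)) (n0 s i : ℕ) (A : Finset ℕ) (T : ℕ → ℝ)
    (R : Multiset (ℝ × ℝ)), s0 ≤ s → s ≤ i → Start cs n0 s → St cs n0 s i A T R →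
    0.1 / (i : ℝ) ^ 3 ≤ area (fat ((i : ℝ) ^ 3) R) ∧ area R ≤ 1.1 / (i : ℝ) ^ 3 := by
  obtain ⟨s1, hs1⟩ := tail_sum
  obtain ⟨s2, hs2⟩ := strip_area
  refine ⟨max (max s1 s2) 1100, fun cs n0 s i A T R h0 hsi hst st => ?_⟩
  have hs1' : s1 ≤ s := by omega
  have hs2' : s2 ≤ s := by omega
  have hi : 1100 ≤ i := by omega
  have hi' : (1100 : ℝ) ≤ i := by exact_mod_cast hi
  have hi0 : (0 : ℝ) < i := by linarith
  obtain ⟨t1, t2⟩ := hs1 n0 s i hs1' hsi hst.hi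
  have t3 := hs2 cs n0 s i A T R hs2' hsi st
  have t4 := st.dec.area_eq
  rw [area_add] at t4
  have t5 := hst.area
  have hR : ∀ r ∈ R, 0 ≤ r.1 ∧ 0 ≤ r.2 := fun r hr =>
    st.dec.rect_nonneg r (Multiset.mem_add.2 (Or.inr hr))
  have hN : (0 : ℝ) < (i : ℝ) ^ 3 := by positivity
  have t6 := thin_area hN R hR
  have t7 : Psi R ≤ 1 / 800 := by
    have := st.psi
    have h2 : 0 ≤ 50 / Real.sqrt i := by positivity
    linarith
  have t8 : 8 / (i : ℝ) ^ 3 * Psi R ≤ 0.01 / (i : ℝ) ^ 3 := by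
    have : 8 / (i : ℝ) ^ 3 * Psi R ≤ 8 / (i : ℝ) ^ 3 * (1 / 800) :=
      mul_le_mul_of_nonneg_left t7 (by positivity)
    refine this.trans (le_of_eq ?_)
    ring
  have t9 : 0 ≤ area (strips A T) := by
    unfold area
    apply Multiset.sum_nonneg
    intro x hx
    obtain ⟨r, hr, rfl⟩ := Multiset.mem_map.1 hx
    have := st.dec.rect_nonneg r (Multiset.mem_add.2 (Or.inl hr))
    exact mul_nonneg this.1 this.2
  have t10 : 0.95 / (i : ℝ) ^ 3 ≤ 1 / ((i : ℝ) + 18) ^ 3 := by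
    rw [div_le_div_iff₀ hN (by positivity)]
    nlinarith [mul_self_nonneg ((i : ℝ) - 1100), mul_pos hi0 hi0, sq_nonneg ((i : ℝ)),
      mul_nonneg (mul_nonneg hi0.le hi0.le) (by linarith : (0 : ℝ) ≤ i - 1100),
      mul_nonneg hi0.le (by linarith : (0 : ℝ) ≤ i - 1100)]
  have e1 : 0.95 / (i : ℝ) ^ 3 = 0.1 / (i : ℝ) ^ 3 + 0.84 / (i : ℝ) ^ 3 + 0.01 / (i : ℝ) ^ 3 := by
    ring
  constructor
  · linarith
  · linarith

end Pool.Agent.Moser
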