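import Pool.Agent.Lib_MP_cc07e8_co.Rows

/-!
# MP_cc07e8_co, tail theorem: full and partial use of a rectangle
-/

namespace Pool.Agent.Moser

theorem Full.wt_le_left (a b : ℝ) : wt (a, b) ≤ a + 3 * b := by
  rcases le_total b a with h | h
  · rw [wt_le a b h]
  · rw [wt_le' h]
    linarith

theorem Full.wt_le_right (a b : ℝ) : wt (a, b) ≤ b + 3 * a := by
  rw [wt_swap]
  exact Full.wt_le_left b a

theorem Full.pair (a b : ℝ × ℝ) : ({a, b} : Multiset (ℝ × ℝ)) = {a} + {b} := rfl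

/-- cut both sides: a corner rectangle `a1 × b1` is cut out of `(a1 + a2) × (b1 + b2)` -/
theorem Full.cut_corner {a1 a2 b1 b2 : ℝ} (ha1 : 0 ≤ a1) (ha2 : 0 ≤ a2) (hb1 : 0 ≤ b1)
    (hb2 : 0 ≤ b2) : Ref {(a1 + a2, b1 + b2)} 0 ({(a1, b1)} + {(a2, b1)} + {(a1 + a2, b2)}) := by
  have h1 : Ref {(a1 + a2, b1 + b2)} 0 ({(a1 + a2, b1)} + {(a1 + a2, b2)}) :=
    Ref.cut (add_nonneg ha1 ha2) hb1 hb2
  have h2 : Ref {(a1 + a2, b1)} 0 ({(a1, b1)} + {(a2, b1)}) := Ref.cut' ha1 ha2 hb1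
  have h3 := h1.trans (h2.add (Ref.refl {(a1 + a2, b2)}))
  simpa using h3

/-- Full use of a rectangle `x ≤ y` with `8 ≤ N x`: `M = ⌊N x⌋`, `K = ⌊N y⌋`, array `K / N × M / N` along the long
side (`cut_array`), remainders `(x - M / N) × y` and `(M / N) × (y - K / N)`:
`y + 3 / N + x + 3 / N + 1.05 M (K / Kmax + 1) / N ≤ y + 3 x + 1.05 M K / (N Kmax)` as `6 / N ≤ 0.95 x`. -/
theorem full_use {N : ℝ} (hN : 0 < N) (Kmax : ℕ) (hK : 1 ≤ Kmax) {x y : ℝ} (hx : 8 ≤ N * x)
    (hxy : x ≤ y) : ∃ (ks : Multiset ℕ) (R' : Multiset (ℝ × ℝ)),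
      ks.sum = ⌊N * x⌋₊ * ⌊N * y⌋₊ ∧ (∀ k ∈ ks, 1 ≤ k ∧ k ≤ Kmax) ∧
      Ref {(x, y)} 0 (ks.map (fun k : ℕ => ((k : ℝ) / N, 1 / N)) + R') ∧
      Psi R' + 1.05 * ks.card / N ≤ wt (x, y) + 1.05 * (ks.sum : ℕ) / (N * Kmax) := by
  have hx0 : 0 < x := by
    by_contra h
    push Not at h
    nlinarith
  have hy0 : 0 < y := lt_of_lt_of_le hx0 hxy
  have hNy : N * x ≤ N * y := mul_le_mul_of_nonneg_left hxy hN.le
  set M := ⌊N * x⌋₊ with hM
  set K := ⌊N * y⌋₊ with hKdef
  have hKr : (0 : ℝ) < Kmax := by exact_mod_cast hK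
  have hM1 : (M : ℝ) ≤ N * x := Nat.floor_le (by positivity)
  have hM2 : N * x < M + 1 := Nat.lt_floor_add_one _
  have hK1 : (K : ℝ) ≤ N * y := Nat.floor_le (by positivity)
  have hK2 : N * y < K + 1 := Nat.lt_floor_add_one _
  obtain ⟨ks, hs1, hs2, hs3, hs4⟩ := cut_array hN M K Kmax hK
  have hMx : (M : ℝ) / N ≤ x := by rw [div_le_iff₀ hN]; linarith
  have hKy : (K : ℝ) / N ≤ y := by rw [div_le_iff₀ hN]; linarith
  have hb2 : x - M / N ≤ 1 / N := by
    have : x - (M : ℝ) / N = (N * x - M) / N := by field_simp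
    rw [this]
    exact div_le_div_of_nonneg_right (by linarith) hN.le
  have ha2 : y - K / N ≤ 1 / N := by
    have : y - (K : ℝ) / N = (N * y - K) / N := by field_simp
    rw [this]
    exact div_le_div_of_nonneg_right (by linarith) hN.le
  have h8 : 1 / N ≤ x / 8 := by
    rw [div_le_div_iff₀ hN (by norm_num)]
    linarith
  refine ⟨ks, {(y - K / N, (M : ℝ) / N)} + {(y, x - M / N)}, ?_, hs2, ?_, ?_⟩
  · rw [hs1]
  · have h1 : Ref {(x, y)} 0 {(y, x)} := Ref.turn hx0.le hy0.le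
    have h2 := Full.cut_corner (a1 := (K : ℝ) / N) (a2 := y - K / N) (b1 := (M : ℝ) / N)
      (b2 := x - M / N) (by positivity) (by linarith) (by positivity) (by linarith)
    rw [add_sub_cancel, add_sub_cancel] at h2
    have h3 := hs4.add ((Ref.refl {(y - K / N, (M : ℝ) / N)}).add (Ref.refl {(y, x - M / N)}))
    rw [← add_assoc] at h3
    have h4 := (h1.trans h2).trans h3
    simpa using h4
  · rw [Psi_add, Psi_singleton, Psi_singleton]
    have w1 := Full.wt_le_right (y - K / N) ((M : ℝ) / N)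
    have w2 := Full.wt_le_left y (x - M / N)
    rw [wt_le' hxy, hs1]
    have hc : 1.05 * (ks.card : ℝ) / N ≤
        1.05 * ((M * K : ℕ) : ℝ) / (N * Kmax) + 1.05 * (M / N) := by
      have e : 1.05 * ((M * K : ℕ) : ℝ) / (N * Kmax) + 1.05 * (M / N) =
          1.05 * ((M : ℝ) * ((K : ℝ) / Kmax + 1)) / N := by
        push_cast
        field_simp
      rw [e]
      apply div_le_div_of_nonneg_right _ hN.le
      exact mul_le_mul_of_nonneg_left hs3 (by norm_num)
    nlinarith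

/-- Partial use: `f < M K` slots, `K1 = f / M` full columns, `rem = f % M` single slots of the next column,
remainders `(x - M / N) × (K1 / N)` (nothing if `K1 = 0`), `(x - rem / N) × (1 / N)`,
`x × (y - (K1 + 1) / N)`: the sum of the weights is at most `y + 4 x + 5 / N`, segments
`1.05 (M (K1 / Kmax + 1) + rem) / N ≤ 1.05 f / (N Kmax) + 2.1 x`, and `5 / N ≤ 0.63 x`. -/
theorem part_use {N : ℝ} (hN : 0 < N) (Kmax : ℕ) (hK : 1 ≤ Kmax) {x y : ℝ} (hx : 8 ≤ N * x)
    (hxy : x ≤ y) (f : ℕ) (hf : f < ⌊N * x⌋₊ * ⌊N * y⌋₊) :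
    ∃ (ks : Multiset ℕ) (R' : Multiset (ℝ × ℝ)),
      ks.sum = f ∧ (∀ k ∈ ks, 1 ≤ k ∧ k ≤ Kmax) ∧
      Ref {(x, y)} 0 (ks.map (fun k : ℕ => ((k : ℝ) / N, 1 / N)) + R') ∧
      Psi R' + 1.05 * ks.card / N ≤ wt (x, y) + 4 * x + 1.05 * (f : ℕ) / (N * Kmax) := by
  have hx0 : 0 < x := by
    by_contra h
    push Not at h
    nlinarith
  have hy0 : 0 < y := lt_of_lt_of_le hx0 hxy
  set M := ⌊N * x⌋₊ with hM
  set K := ⌊N * y⌋₊ with hKdef
  have hKr : (0 : ℝ) < Kmax := by exact_mod_cast hK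
  have hM1 : (M : ℝ) ≤ N * x := Nat.floor_le (by positivity)
  have hM2 : N * x < M + 1 := Nat.lt_floor_add_one _
  have hK1 : (K : ℝ) ≤ N * y := Nat.floor_le (by positivity)
  have hM0 : 0 < M := by
    have : (0 : ℝ) < M := by linarith
    exact_mod_cast this
  set K1 := f / M with hK1def
  set rem := f % M with hrem
  have hdm : M * K1 + rem = f := Nat.div_add_mod f M
  have hremM : rem < M := Nat.mod_lt _ hM0
  have hK1K : K1 + 1 ≤ K := by
    have : K1 < K := (Nat.div_lt_iff_lt_mul hM0).2 (by rw [mul_comm]; exact hf)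
    exact this
  have hK1y : ((K1 : ℝ) + 1) / N ≤ y := by
    rw [div_le_iff₀ hN]
    have : (K1 : ℝ) + 1 ≤ K := by exact_mod_cast hK1K
    linarith
  have hremx : (rem : ℝ) / N ≤ x := by
    rw [div_le_iff₀ hN]
    have : (rem : ℝ) ≤ M := by exact_mod_cast hremM.le
    linarith
  have hMx : (M : ℝ) / N ≤ x := by rw [div_le_iff₀ hN]; linarith
  have hb2 : x - M / N ≤ 1 / N := by
    have : x - (M : ℝ) / N = (N * x - M) / N := by field_simp
    rw [this]
    exact div_le_div_of_nonneg_right (by linarith) hN.le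
  have h8 : 1 / N ≤ x / 8 := by
    rw [div_le_div_iff₀ hN (by norm_num)]
    linarith
  obtain ⟨ks, hs1, hs2, hs3, hs4⟩ := cut_array hN M K1 Kmax hK
  refine ⟨ks + Multiset.replicate rem 1,
    {(((K1 : ℝ) / N), x - M / N)} + {(1 / N, x - rem / N)} + {(y - ((K1 : ℝ) + 1) / N, x)},
    ?_, ?_, ?_, ?_⟩
  · rw [Multiset.sum_add, hs1, Multiset.sum_replicate, smul_eq_mul, mul_one]
    exact hdm
  · intro k hk
    rcases Multiset.mem_add.1 hk with hk | hk
    · exact hs2 k hk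
    · rw [Multiset.eq_of_mem_replicate hk]
      exact ⟨le_rfl, hK⟩
  · have h1 : Ref {(x, y)} 0 {(y, x)} := Ref.turn hx0.le hy0.le
    have h2 : Ref {(y, x)} 0 ({(((K1 : ℝ) + 1) / N, x)} + {(y - ((K1 : ℝ) + 1) / N, x)}) := by
      have := Ref.cut' (a := ((K1 : ℝ) + 1) / N) (b := y - ((K1 : ℝ) + 1) / N) (c := x)
        (by positivity) (by linarith) hx0.le
      rw [add_sub_cancel] at this
      exact this
    have h3 : Ref {(((K1 : ℝ) + 1) / N, x)} 0 ({((K1 : ℝ) / N, x)} + {(1 / N, x)}) := by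
      have := Ref.cut' (a := (K1 : ℝ) / N) (b := 1 / N) (c := x)
        (by positivity) (by positivity) hx0.le
      rw [← add_div] at this
      exact this
    have h4 : Ref {((K1 : ℝ) / N, x)} 0 ({((K1 : ℝ) / N, (M : ℝ) / N)} +
        {((K1 : ℝ) / N, x - M / N)}) := by
      have := Ref.cut (a := (K1 : ℝ) / N) (b := (M : ℝ) / N) (c := x - M / N)
        (by positivity) (by positivity) (by linarith)
      rw [add_sub_cancel] at this
      exact this
    have h5 : Ref {(1 / N, x)} 0 ({(1 / N, (rem : ℝ) * (1 / N))} + {(1 / N, x - rem / N)}) := by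
      have := Ref.cut (a := 1 / N) (b := (rem : ℝ) * (1 / N)) (c := x - rem / N)
        (by positivity) (by positivity) (by linarith)
      rw [mul_one_div, add_sub_cancel] at this
      rw [mul_one_div]
      exact this
    have h6 : Ref {(1 / N, (rem : ℝ) * (1 / N))} 0 (Multiset.replicate rem (1 / N, 1 / N)) :=
      cut_rows (by positivity) (by positivity) rem
    have h6' : Multiset.replicate rem (1 / N, 1 / N) =
        (Multiset.replicate rem 1).map (fun k : ℕ => ((k : ℝ) / N, 1 / N)) := by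
      rw [Multiset.map_replicate]
      simp
    rw [h6'] at h6
    have h7 : Ref {((K1 : ℝ) / N, x)} 0 ((ks.map fun k : ℕ => ((k : ℝ) / N, 1 / N)) +
        {((K1 : ℝ) / N, x - M / N)}) := by
      have := h4.trans (hs4.add (Ref.refl {((K1 : ℝ) / N, x - M / N)}))
      simpa using this
    have h8' : Ref {(1 / N, x)} 0 ((Multiset.replicate rem 1).map
        (fun k : ℕ => ((k : ℝ) / N, 1 / N)) + {(1 / N, x - rem / N)}) := by
      have := h5.trans (h6.add (Ref.refl {(1 / N, x - rem / N)}))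
      simpa using this
    have h9 := h3.trans (h7.add h8')
    have h10 := (h1.trans h2).trans (h9.add (Ref.refl {(y - ((K1 : ℝ) + 1) / N, x)}))
    rw [Multiset.map_add]
    have e : (ks.map fun k : ℕ => ((k : ℝ) / N, 1 / N)) +
        (Multiset.replicate rem 1).map (fun k : ℕ => ((k : ℝ) / N, 1 / N)) +
        ({((K1 : ℝ) / N, x - M / N)} + {(1 / N, x - rem / N)} +
          {(y - ((K1 : ℝ) + 1) / N, x)}) =
        (ks.map fun k : ℕ => ((k : ℝ) / N, 1 / N)) + {((K1 : ℝ) / N, x - M / N)} +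
        ((Multiset.replicate rem 1).map (fun k : ℕ => ((k : ℝ) / N, 1 / N)) +
          {(1 / N, x - rem / N)}) + {(y - ((K1 : ℝ) + 1) / N, x)} := by
      abel
    rw [e]
    simpa using h10
  · rw [Psi_add, Psi_add, Psi_singleton, Psi_singleton, Psi_singleton]
    have w1 := Full.wt_le_left ((K1 : ℝ) / N) (x - M / N)
    have w2 := Full.wt_le_right (1 / N) (x - rem / N)
    have w3 := Full.wt_le_left (y - ((K1 : ℝ) + 1) / N) x
    rw [wt_le' hxy, Multiset.card_add, Multiset.card_replicate]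
    have hc : 1.05 * ((ks.card + rem : ℕ) : ℝ) / N ≤
        1.05 * (f : ℝ) / (N * Kmax) + 1.05 * (M / N) + 1.05 * (rem / N) := by
      have e : 1.05 * ((M : ℝ) * K1) / (N * Kmax) + 1.05 * (M / N) + 1.05 * (rem / N) =
          1.05 * ((M : ℝ) * ((K1 : ℝ) / Kmax + 1) + rem) / N := by
        field_simp
      have h1 : 1.05 * ((ks.card + rem : ℕ) : ℝ) / N ≤
          1.05 * ((M : ℝ) * ((K1 : ℝ) / Kmax + 1) + rem) / N := by
        apply div_le_div_of_nonneg_right _ hN.le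
        push_cast
        linarith
      have h2 : 1.05 * ((M : ℝ) * K1) / (N * Kmax) ≤ 1.05 * (f : ℝ) / (N * Kmax) := by
        apply div_le_div_of_nonneg_right _ (by positivity)
        have : (M : ℝ) * K1 + rem = f := by exact_mod_cast hdm
        have h3 : (0 : ℝ) ≤ rem := by positivity
        linarith
      linarith
    have e1 : ((K1 : ℝ) + 1) / N = K1 / N + 1 / N := by ring
    rw [e1] at w3 ⊢
    have hr0 : (0 : ℝ) ≤ rem / N := by positivity
    linarith

end Pool.Agent.Moser
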