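import Pool.Agent.Lib_MP_cc07e8_co.Num

/-!
# MP_cc07e8_co, tail theorem: bound for the load of a window
-/

namespace Pool.Agent.Moser

namespace Load

/-- the sum of the cubes of a range -/
theorem sum_cube_le (a b : ℕ) (h : a ≤ b) :
    ∑ u ∈ Finset.Ico a b, (u : ℝ) ^ 3 ≤ ((b : ℝ) ^ 4 - (a : ℝ) ^ 4) / 4 := by
  induction b, h using Nat.le_induction with
  | base => simp
  | succ b hab ih =>
    rw [Finset.sum_Ico_succ_top hab]
    push_cast
    have hb : (0 : ℝ) ≤ (b : ℝ) := Nat.cast_nonneg b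
    nlinarith [pow_nonneg hb 2, pow_nonneg hb 3]

/-- the second term of `cbl` is small -/
theorem small {u w : ℝ} (hu : 0 < u) (hw : 1000000000000 ≤ w) (h : 2.95 * w ^ 3 ≤ u ^ 4) :
    1230 / u ^ 3 ≤ 0.001 * u ^ 3 / w ^ 4 := by
  have hwp : 0 < w := by linarith
  have h1 : (5000000 * w ^ 4) ^ 2 ≤ (u ^ 6) ^ 2 := by
    calc (5000000 * w ^ 4) ^ 2 = 25 * (1000000000000 * w ^ 8) := by ring
      _ ≤ 25 * (w * w ^ 8) := by gcongr
      _ ≤ 2.95 ^ 3 * (w * w ^ 8) := by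
        gcongr
        norm_num
      _ = (2.95 * w ^ 3) ^ 3 := by ring
      _ ≤ (u ^ 4) ^ 3 := by gcongr
      _ = (u ^ 6) ^ 2 := by ring
  have h2 : 5000000 * w ^ 4 ≤ u ^ 6 := by
    rwa [pow_le_pow_iff_left₀ (by positivity) (by positivity) (by norm_num)] at h1
  rw [div_le_div_iff₀ (by positivity) (by positivity)]
  have h3 : 0.001 * u ^ 3 * u ^ 3 = 0.001 * u ^ 6 := by ring
  rw [h3]
  have : 0 < w ^ 4 := by positivity
  linarith

theorem succ_four {u : ℝ} (hu : 1000000000000 ≤ u) : (u + 1) ^ 4 ≤ 1.001 * u ^ 4 := by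
  have h : u + 1 ≤ 1.0001 * u := by linarith
  calc (u + 1) ^ 4 ≤ (1.0001 * u) ^ 4 := by gcongr
    _ = 1.0001 ^ 4 * u ^ 4 := by ring
    _ ≤ 1.001 * u ^ 4 := by
      gcongr
      norm_num

theorem succ_three {u : ℝ} (hu : 1000000000000 ≤ u) : (u + 1) ^ 3 ≤ 1.001 * u ^ 3 := by
  have h : u + 1 ≤ 1.0001 * u := by linarith
  calc (u + 1) ^ 3 ≤ (1.0001 * u) ^ 3 := by gcongr
    _ = 1.0001 ^ 3 * u ^ 3 := by ring
    _ ≤ 1.001 * u ^ 3 := by
      gcongr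
      norm_num

end Load

/-- `i ^ 3 ≤ ((i + 1) ^ 4 - i ^ 4) / 4`, so the sum of `i ^ 3` over `IJ i j` is at most
`((imax + 1) ^ 4 - imin ^ 4) / 4 ≤ (51.5 (1 + e) - 2.95) j ^ 3 / 4` and `0.2025 * 48.55 / 4 = 2.458`; the sum of
`1230 / i ^ 3` over `i ^ 4 ≥ 2.95 j ^ 3` is `O(j ^ (-3/2))`. (`s0 ≤ s ≤ j`: `j` is large.) -/
theorem load_bound : ∃ s0 : ℕ, ∀ s i j : ℕ, s0 ≤ s → s ≤ j → LB s i j ≤ 2.5 / j := by
  classical
  refine ⟨1000000000000, ?_⟩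
  intro s i j hs hj
  have hw : (1000000000000 : ℝ) ≤ (j : ℝ) := by exact_mod_cast hs.trans hj
  have hwp : (0 : ℝ) < (j : ℝ) := by linarith
  set F : Finset ℕ := (Finset.Ico s i).filter fun u => IJ u j with hF
  have hmem : ∀ u ∈ F, (1000000000000 : ℝ) ≤ (u : ℝ) ∧ IJ u j := by
    intro u hu
    rw [hF, Finset.mem_filter, Finset.mem_Ico] at hu
    exact ⟨by exact_mod_cast hs.trans hu.1.1, hu.2⟩
  have h1 : LB s i j = ∑ u ∈ F, cbl u j := by
    unfold LB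
    rw [hF, Finset.sum_filter]
    apply Finset.sum_congr rfl
    intro u _
    split_ifs with h
    · rfl
    · unfold cbl
      rw [if_neg h]
  have h2 : ∀ u ∈ F, cbl u j ≤ 0.2035 / (j : ℝ) ^ 4 * (u : ℝ) ^ 3 := by
    intro u hu
    obtain ⟨h3, h4⟩ := hmem u hu
    unfold cbl
    rw [if_pos h4]
    have h5 := Load.small (u := (u : ℝ)) (w := (j : ℝ)) (by linarith) hw h4.1
    have h6 : 0.2035 / (j : ℝ) ^ 4 * (u : ℝ) ^ 3 =
        0.2025 * (u : ℝ) ^ 3 / (j : ℝ) ^ 4 + 0.001 * (u : ℝ) ^ 3 / (j : ℝ) ^ 4 := by ring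
    rw [h6]
    linarith
  rw [h1]
  rcases Finset.eq_empty_or_nonempty F with h0 | hne
  · rw [h0, Finset.sum_empty]
    positivity
  · set a := F.min' hne with ha
    set b := F.max' hne with hb
    obtain ⟨ha1, ha2⟩ := hmem a (F.min'_mem hne)
    obtain ⟨hb1, hb2⟩ := hmem b (F.max'_mem hne)
    have hab : a ≤ b := F.min'_le_max' hne
    have hsub : F ⊆ Finset.Ico a (b + 1) := by
      intro u hu
      rw [Finset.mem_Ico]
      exact ⟨F.min'_le u hu, Nat.lt_succ_of_le (F.le_max' u hu)⟩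
    have h3 : ∑ u ∈ F, (u : ℝ) ^ 3 ≤ (((b : ℝ) + 1) ^ 4 - (a : ℝ) ^ 4) / 4 := by
      refine (Finset.sum_le_sum_of_subset_of_nonneg hsub fun _ _ _ => by positivity).trans ?_
      have := Load.sum_cube_le a (b + 1) (by omega)
      push_cast at this
      exact this
    have h4 : ((b : ℝ) + 1) ^ 4 ≤ 51.61 * (j : ℝ) ^ 3 := by
      have e1 := Load.succ_four hb1
      have e2 := Load.succ_three hw
      have e3 := hb2.2
      have : 0 < (j : ℝ) ^ 3 := by positivity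
      linarith
    have h5 := ha2.1
    have h6 : ∑ u ∈ F, (u : ℝ) ^ 3 ≤ 12.165 * (j : ℝ) ^ 3 := by linarith
    calc ∑ u ∈ F, cbl u j ≤ ∑ u ∈ F, 0.2035 / (j : ℝ) ^ 4 * (u : ℝ) ^ 3 := Finset.sum_le_sum h2
      _ = 0.2035 / (j : ℝ) ^ 4 * ∑ u ∈ F, (u : ℝ) ^ 3 := by rw [Finset.mul_sum]
      _ ≤ 0.2035 / (j : ℝ) ^ 4 * (12.165 * (j : ℝ) ^ 3) := by gcongr
      _ = (0.2035 * 12.165) / j := by
        field_simp
      _ ≤ 2.5 / j := by
        gcongr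
        norm_num

theorem LB_succ (s i j : ℕ) (h : s ≤ i) : LB s (i + 1) j = LB s i j + cbl i j := by
  unfold LB
  rw [Finset.sum_Ico_succ_top h]

theorem LB_nonneg (s i j : ℕ) : 0 ≤ LB s i j :=
  Finset.sum_nonneg fun _ _ => cbl_nonneg _ _

end Pool.Agent.Moser
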