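import Pool.Agent.Lib_MP_cc07e8_co.Step
import Pool.Agent.Lib_MP_cc07e8_co.Compact

/-!
# MP_cc07e8_co, tail theorem
-/

namespace Pool.Agent.Moser

theorem area_ofFn {k : ℕ} (w h : Fin k → ℝ) :
    area ((List.ofFn fun i => (w i, h i) : List (ℝ × ℝ)) : Multiset (ℝ × ℝ)) =
      ∑ i, w i * h i := by
  unfold area
  rw [Multiset.map_coe, Multiset.sum_coe, List.map_ofFn, List.sum_ofFn]
  rfl

theorem Psi_ofFn {k : ℕ} (w h : Fin k → ℝ) :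
    Psi ((List.ofFn fun i => (w i, h i) : List (ℝ × ℝ)) : Multiset (ℝ × ℝ)) =
      ∑ i, (max (w i) (h i) + 3 * min (w i) (h i)) := by
  unfold Psi
  rw [Multiset.map_coe, Multiset.sum_coe, List.map_ofFn, List.sum_ofFn]
  rfl

theorem Packed.mono {k : ℕ} {w h : Fin k → ℝ} {S S' : Set ℕ} {c : ℕ → Fin k} {px py : ℕ → ℝ}
    (hp : Packed w h S c px py) (hS : S' ⊆ S) : Packed w h S' c px py :=
  ⟨fun m hm => hp.1 m (hS hm), fun m hm l hl => hp.2 m (hS hm) l (hS hl)⟩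

theorem exists_state : ∃ s0 : ℕ, ∀ (cs : List (ℝ × ℝ)) (n0 s : ℕ), s0 ≤ s → Start cs n0 s →
    ∀ i : ℕ, s ≤ i → ∃ (A : Finset ℕ) (T : ℕ → ℝ) (R : Multiset (ℝ × ℝ)),
      St cs n0 s i A T R := by
  obtain ⟨s1, h1⟩ := first_state
  obtain ⟨s2, h2⟩ := step
  refine ⟨max s1 s2, ?_⟩
  intro cs n0 s hs hst i hi
  induction i, hi using Nat.le_induction with
  | base => exact ⟨_, _, _, h1 cs n0 s ((le_max_left _ _).trans hs) hst⟩
  | succ i hi ih =>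
    obtain ⟨A, T, R, h3⟩ := ih
    exact h2 cs n0 s i A T R ((le_max_right _ _).trans hs) hi hst h3

/-- Squares of side `1 / m`, `m ≥ n0`, pack perfectly into every finite family of rectangles of the right
total area and total weight (long side plus three times the short side) at most `ε`. -/
theorem tail_explicit : ∃ n1 : ℕ, ∀ n0 : ℕ, n1 ≤ n0 → ∀ (k : ℕ) (w h : Fin k → ℝ),
    (∀ i, 0 < w i ∧ 0 < h i) → ∑ i, (max (w i) (h i) + 3 * min (w i) (h i)) ≤ 1 / 1600 →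
    ∑ i, w i * h i = ∑' m : ℕ, 1 / (((n0 + m : ℕ) : ℝ)) ^ 2 →
    ∃ (c : ℕ → Fin k) (px py : ℕ → ℝ),
      (∀ m, n0 ≤ m → 0 ≤ px m ∧ px m + 1 / (m : ℝ) ≤ w (c m) ∧ 0 ≤ py m ∧
        py m + 1 / (m : ℝ) ≤ h (c m)) ∧
      ∀ m, n0 ≤ m → ∀ l, n0 ≤ l → m ≠ l → c m = c l →
        px m + 1 / (m : ℝ) ≤ px l ∨ px l + 1 / (l : ℝ) ≤ px m ∨
        py m + 1 / (m : ℝ) ≤ py l ∨ py l + 1 / (l : ℝ) ≤ py m := by
  obtain ⟨s0, H⟩ := exists_state
  refine ⟨(s0 + 18) ^ 3, ?_⟩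
  intro n0 hn0 k w h hpos hwt harea
  have hn0pos : 0 < n0 := lt_of_lt_of_le (by positivity) hn0
  -- the family is not empty
  rcases k with _ | k
  · exfalso
    rw [Finset.univ_eq_empty, Finset.sum_empty] at harea
    have hs : Summable fun m : ℕ => 1 / (((n0 + m : ℕ) : ℝ)) ^ 2 := by
      have h1 : Summable fun m : ℕ => 1 / ((m : ℕ) : ℝ) ^ 2 :=
        Real.summable_one_div_nat_pow.2 (by norm_num)
      exact h1.comp_injective (add_right_injective n0)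
    have h2 : 0 < ∑' m : ℕ, 1 / (((n0 + m : ℕ) : ℝ)) ^ 2 :=
      hs.tsum_pos (fun m => by positivity) 0 (by positivity)
    linarith
  -- the cube root
  obtain ⟨hc1, hc2⟩ := cr_spec n0
  have hc3 : s0 + 18 ≤ cr n0 := by
    by_contra hcon
    have : (cr n0 + 1) ^ 3 ≤ (s0 + 18) ^ 3 := Nat.pow_le_pow_left (by omega) 3
    omega
  obtain ⟨s, hs⟩ : ∃ s, cr n0 = s + 17 := ⟨cr n0 - 17, by omega⟩
  have hs0 : s0 ≤ s := by omega
  set cs : List (ℝ × ℝ) := List.ofFn fun i => (w i, h i) with hcs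
  have hstart : Start cs n0 s := by
    refine ⟨?_, ?_, ?_, ?_, ?_⟩
    · intro r hr
      rw [hcs, List.mem_ofFn] at hr
      obtain ⟨i, rfl⟩ := hr
      exact ⟨(hpos i).1.le, (hpos i).2.le⟩
    · rw [hcs, area_ofFn, harea]
    · rw [hcs, Psi_ofFn]
      exact hwt
    · rw [← hs]
      exact hc1
    · have : s + 18 = cr n0 + 1 := by omega
      rw [this]
      exact hc2
  obtain ⟨c, px, py, hp⟩ := compact_packing w h n0 (by
    intro n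
    obtain ⟨i0, hi0⟩ := SS_exhaust n0 n
    obtain ⟨A, T, R, hst⟩ := H cs n0 s hs0 hstart (max i0 s) (le_max_right _ _)
    obtain ⟨c, px, py, hp⟩ := hst.dec.sound (SS n0 (max i0 s)).nodup
    exact ⟨c, px, py, hp.mono fun m hm => hi0 _ (le_max_left _ _) m hm.1 hm.2⟩)
  exact ⟨c, px, py, fun m hm => hp.1 m hm, fun m hm l hl hml hc => hp.2 m hm l hl hml hc⟩

theorem tail : ∃ ε : ℝ, 0 < ε ∧ ∃ n1 : ℕ, ∀ n0 : ℕ, n1 ≤ n0 → ∀ (k : ℕ) (w h : Fin k → ℝ),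
    (∀ i, 0 < w i ∧ 0 < h i) → ∑ i, (max (w i) (h i) + 3 * min (w i) (h i)) ≤ ε →
    ∑ i, w i * h i = ∑' m : ℕ, 1 / (((n0 + m : ℕ) : ℝ)) ^ 2 →
    ∃ (c : ℕ → Fin k) (px py : ℕ → ℝ),
      (∀ m, n0 ≤ m → 0 ≤ px m ∧ px m + 1 / (m : ℝ) ≤ w (c m) ∧ 0 ≤ py m ∧
        py m + 1 / (m : ℝ) ≤ h (c m)) ∧
      ∀ m, n0 ≤ m → ∀ l, n0 ≤ l → m ≠ l → c m = c l →
        px m + 1 / (m : ℝ) ≤ px l ∨ px l + 1 / (l : ℝ) ≤ px m ∨
        py m + 1 / (m : ℝ) ≤ py l ∨ py l + 1 / (l : ℝ) ≤ py m := by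
  obtain ⟨n1, h⟩ := tail_explicit
  exact ⟨1 / 1600, by norm_num, n1, h⟩

end Pool.Agent.Moser
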