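import Pool.Agent.Lib_MP_cc07e8_co.TailDefs

/-!
# MP_cc07e8_co, tail theorem: numerical bound for the number of children
-/

namespace Pool.Agent.Moser

namespace Num

/-- `om` in real variables -/
theorem om_le {u w : ℝ} (hu : 1000000 ≤ u) (hw0 : 0 ≤ w) (h : u ^ 4 ≤ 51.5 * (w + 1) ^ 3) :
    (u + 1) ^ 6 * ((w + 1) ^ 3 - w ^ 3) /
      ((w ^ 3 - (u + 1) ^ 3) * ((w + 1) ^ 3 - (u + 1) ^ 3)) ≤
      3.005 * (u ^ 3 * (u + 2) ^ 3 / w ^ 4) := by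
  have hw : 100000 ≤ w := by
    by_contra hlt
    push Not at hlt
    have h1 : (w + 1) ^ 3 ≤ (100001 : ℝ) ^ 3 := by
      gcongr
      linarith
    have h2 : (1000000 : ℝ) ^ 4 ≤ u ^ 4 := by gcongr
    norm_num at h1 h2
    linarith
  have hwp : 0 < w := by linarith
  have hup : 0 < u := by linarith
  -- (w + 1) ^ 3 ≤ 1.001 w ^ 3
  have h1 : (w + 1) ^ 3 ≤ 1.001 * w ^ 3 := by
    have : w + 1 ≤ 1.0001 * w := by linarith
    calc (w + 1) ^ 3 ≤ (1.0001 * w) ^ 3 := by gcongr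
      _ = 1.0001 ^ 3 * w ^ 3 := by ring
      _ ≤ 1.001 * w ^ 3 := by
        gcongr
        norm_num
  have h2 : (u + 1) ^ 3 ≤ 1.001 * u ^ 3 := by
    have : u + 1 ≤ 1.0001 * u := by linarith
    calc (u + 1) ^ 3 ≤ (1.0001 * u) ^ 3 := by gcongr
      _ = 1.0001 ^ 3 * u ^ 3 := by ring
      _ ≤ 1.001 * u ^ 3 := by
        gcongr
        norm_num
  have h3 : u ^ 3 * 1000000 ≤ u ^ 4 := by
    calc u ^ 3 * 1000000 ≤ u ^ 3 * u := by gcongr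
      _ = u ^ 4 := by ring
  have h4 : (u + 1) ^ 3 ≤ 0.0001 * w ^ 3 := by
    nlinarith
  have hw3 : 0 < w ^ 3 := by positivity
  have hD1 : 0.9999 * w ^ 3 ≤ w ^ 3 - (u + 1) ^ 3 := by linarith
  have hww : w ^ 3 ≤ (w + 1) ^ 3 := by
    gcongr
    linarith
  have hD2 : 0.9999 * w ^ 3 ≤ (w + 1) ^ 3 - (u + 1) ^ 3 := by linarith
  have hN1 : (w + 1) ^ 3 - w ^ 3 ≤ 3.0001 * w ^ 2 := by
    nlinarith
  have hN10 : 0 ≤ (w + 1) ^ 3 - w ^ 3 := by linarith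
  have hU : (u + 1) ^ 6 ≤ 1.0001 * (u ^ 3 * (u + 2) ^ 3) := by
    have h5 : (u + 1) ^ 2 ≤ 1.00001 * (u * (u + 2)) := by nlinarith
    calc (u + 1) ^ 6 = ((u + 1) ^ 2) ^ 3 := by ring
      _ ≤ (1.00001 * (u * (u + 2))) ^ 3 := by gcongr
      _ = 1.00001 ^ 3 * (u ^ 3 * (u + 2) ^ 3) := by ring
      _ ≤ 1.0001 * (u ^ 3 * (u + 2) ^ 3) := by
        gcongr
        norm_num
  have hD : (0.9999 * w ^ 3) * (0.9999 * w ^ 3) ≤
      (w ^ 3 - (u + 1) ^ 3) * ((w + 1) ^ 3 - (u + 1) ^ 3) := by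
    gcongr
    linarith
  have hN : (u + 1) ^ 6 * ((w + 1) ^ 3 - w ^ 3) ≤
      (1.0001 * (u ^ 3 * (u + 2) ^ 3)) * (3.0001 * w ^ 2) := by
    gcongr
  calc (u + 1) ^ 6 * ((w + 1) ^ 3 - w ^ 3) /
      ((w ^ 3 - (u + 1) ^ 3) * ((w + 1) ^ 3 - (u + 1) ^ 3))
      ≤ (1.0001 * (u ^ 3 * (u + 2) ^ 3)) * (3.0001 * w ^ 2) /
        ((0.9999 * w ^ 3) * (0.9999 * w ^ 3)) := by
        apply div_le_div₀ _ hN _ hD
        · positivity
        · positivity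
    _ = (1.0001 * 3.0001 / (0.9999 * 0.9999)) * (u ^ 3 * (u + 2) ^ 3 / w ^ 4) := by
        field_simp
    _ ≤ 3.005 * (u ^ 3 * (u + 2) ^ 3 / w ^ 4) := by
        gcongr
        norm_num

end Num

/-- `cnt i j = om i j (606 / 9000) + 1218`, `om i j ≤ 3 (1 + e) i ^ 6 / j ^ 4` because `IJ i j` forces
`(i + 1) ^ 3 ≤ e j ^ 3` and `j` large; `3 * 606 / 9000 = 0.202`. -/
theorem cnt_le : ∃ i0 : ℕ, ∀ i j : ℕ, i0 ≤ i → IJ i j →
    cnt i j / ((i : ℝ) + 2) ^ 3 ≤ cbl i j := by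
  refine ⟨1000000, ?_⟩
  intro i j hi hIJ
  have hu : (1000000 : ℝ) ≤ (i : ℝ) := by exact_mod_cast hi
  have hw : (0 : ℝ) ≤ (j : ℝ) := Nat.cast_nonneg j
  have h1 := Num.om_le hu hw hIJ.2
  have h2 : om i j ≤ 3.005 * ((i : ℝ) ^ 3 * ((i : ℝ) + 2) ^ 3 / (j : ℝ) ^ 4) := h1
  unfold cbl
  rw [if_pos hIJ]
  unfold cnt
  have hup : (0 : ℝ) < (i : ℝ) := by linarith
  have e1 : (om i j / 9000 + 2) * 606 + 6 = om i j * (606 / 9000) + 1218 := by ring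
  rw [e1, add_div]
  apply add_le_add
  · calc om i j * (606 / 9000) / ((i : ℝ) + 2) ^ 3
        ≤ (3.005 * ((i : ℝ) ^ 3 * ((i : ℝ) + 2) ^ 3 / (j : ℝ) ^ 4)) * (606 / 9000) /
          ((i : ℝ) + 2) ^ 3 := by gcongr
      _ = (3.005 * (606 / 9000)) * (i : ℝ) ^ 3 / (j : ℝ) ^ 4 := by
        field_simp
      _ ≤ 0.2025 * (i : ℝ) ^ 3 / (j : ℝ) ^ 4 := by
        gcongr
        norm_num
  · apply div_le_div₀
    · norm_num
    · norm_num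
    · positivity
    · gcongr
      linarith

theorem cbl_nonneg (i j : ℕ) : 0 ≤ cbl i j := by
  unfold cbl
  split_ifs
  · positivity
  · exact le_refl _

end Pool.Agent.Moser
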