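import Pool.Agent.Lib_MP_cc07e8_co.TailDefs

/-!
# MP_cc07e8_co, tail theorem: growth of the reserve weight
-/

namespace Pool.Agent.Moser

namespace PsiStep

/-- the decrease of the threshold -/
theorem gap {s t : ℝ} (hs : 0 < s) (ht : 0 < t) (h : t ^ 2 = s ^ 2 + 1) :
    25 / (s * (s ^ 2 + 1)) ≤ 50 / s - 50 / t := by
  rw [← h]
  have e : 50 / s - 50 / t - 25 / (s * t ^ 2) = 25 * (2 * t ^ 2 - 2 * s * t - 1) / (s * t ^ 2) := by
    field_simp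
    ring
  have h1 : 0 ≤ 2 * t ^ 2 - 2 * s * t - 1 := by nlinarith [sq_nonneg (t - s)]
  have h2 : 0 ≤ 25 * (2 * t ^ 2 - 2 * s * t - 1) / (s * t ^ 2) := by positivity
  linarith

end PsiStep

/-- increase of the reserve weight in a batch: `area ≤ 1.1 / i ^ 3`, `f ≤ 4 i ^ 2`, at most `2.5 i sqrt i` recycled
strips; `4 sqrt 1.1 + 4.25 + 12.5 ≤ 21` and `50 / sqrt i - 50 / sqrt (i + 1) ≥ 25 / (i + 1) ^ (3/2)` -/
theorem psi_step : ∃ i0 : ℕ, ∀ i : ℕ, i0 ≤ i → ∀ (P a f nb : ℝ), P ≤ 1 / 800 - 50 / Real.sqrt i →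
    a ≤ 1.1 / (i : ℝ) ^ 3 → f ≤ 4 * (i : ℝ) ^ 2 → nb ≤ 2.5 * (i : ℝ) * Real.sqrt i →
    P + 4 * Real.sqrt a + 1.05 * f / ((i : ℝ) ^ 3 * (Nat.sqrt i : ℕ)) + nb * (5 / (i : ℝ) ^ 3) ≤
      1 / 800 - 50 / Real.sqrt ((i + 1 : ℕ) : ℝ) := by
  refine ⟨1000000, ?_⟩
  intro i hi P a f nb hP ha hf hnb
  have hiR : (1000000 : ℝ) ≤ (i : ℝ) := by exact_mod_cast hi
  obtain ⟨s, hsdef⟩ : ∃ s, s = Real.sqrt (i : ℝ) := ⟨_, rfl⟩
  obtain ⟨t, htdef⟩ : ∃ t, t = Real.sqrt ((i + 1 : ℕ) : ℝ) := ⟨_, rfl⟩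
  have hs2 : s ^ 2 = (i : ℝ) := by rw [hsdef]; exact Real.sq_sqrt (Nat.cast_nonneg i)
  have ht2 : t ^ 2 = s ^ 2 + 1 := by
    rw [hs2, htdef, Real.sq_sqrt (Nat.cast_nonneg _)]
    push_cast
    ring
  have hs1000 : 1000 ≤ s := by
    rw [hsdef]
    apply Real.le_sqrt_of_sq_le
    linarith
  have hs0 : 0 < s := by linarith
  have ht0 : 0 < t := by
    rw [htdef]
    exact Real.sqrt_pos.2 (by positivity)
  have hgap := PsiStep.gap hs0 ht0 ht2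
  have hn : s - 1 ≤ ((Nat.sqrt i : ℕ) : ℝ) := by
    have h1 : i < (Nat.sqrt i + 1) * (Nat.sqrt i + 1) := Nat.lt_succ_sqrt i
    have h2 : (i : ℝ) < (((Nat.sqrt i : ℕ) : ℝ) + 1) * (((Nat.sqrt i : ℕ) : ℝ) + 1) := by
      exact_mod_cast h1
    have h3 : s ≤ ((Nat.sqrt i : ℕ) : ℝ) + 1 := by
      rw [hsdef]
      apply Real.sqrt_le_iff.2
      constructor
      · positivity
      · rw [sq]; exact h2.le
    linarith
  obtain ⟨n, hndef⟩ : ∃ n : ℝ, n = ((Nat.sqrt i : ℕ) : ℝ) := ⟨_, rfl⟩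
  rw [← hndef] at hn ⊢
  rw [← hsdef] at hP hnb
  rw [← htdef]
  rw [← hs2] at ha hf hnb ⊢
  have hn0 : 0 < n := by linarith
  have h1 : Real.sqrt a ≤ 1.05 / s ^ 3 := by
    apply Real.sqrt_le_iff.2
    constructor
    · positivity
    · refine ha.trans ?_
      have e : (1.05 / s ^ 3) ^ 2 = 1.1025 / (s ^ 2) ^ 3 := by
        field_simp
        norm_num
      rw [e]
      gcongr
      norm_num
  have h2 : 1.05 * f / ((s ^ 2) ^ 3 * n) ≤ 4.25 / s ^ 3 := by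
    rw [div_le_div_iff₀ (by positivity) (by positivity)]
    have h3 : 1.05 * f * s ^ 3 ≤ 1.05 * (4 * (s ^ 2) ^ 2) * s ^ 3 := by gcongr
    have h4 : 4.2 * s ≤ 4.25 * n := by linarith
    calc 1.05 * f * s ^ 3 ≤ 1.05 * (4 * (s ^ 2) ^ 2) * s ^ 3 := h3
      _ = (4.2 * s) * s ^ 6 := by ring
      _ ≤ (4.25 * n) * s ^ 6 := mul_le_mul_of_nonneg_right h4 (by positivity)
      _ = 4.25 * ((s ^ 2) ^ 3 * n) := by ring
  have h3 : nb * (5 / (s ^ 2) ^ 3) ≤ 12.5 / s ^ 3 := by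
    calc nb * (5 / (s ^ 2) ^ 3) ≤ (2.5 * s ^ 2 * s) * (5 / (s ^ 2) ^ 3) :=
          mul_le_mul_of_nonneg_right hnb (by positivity)
      _ = 12.5 / s ^ 3 := by
          field_simp
          norm_num
  have h4 : 20.95 / s ^ 3 ≤ 25 / (s * (s ^ 2 + 1)) := by
    rw [div_le_div_iff₀ (by positivity) (by positivity)]
    have h5 : s ≤ s ^ 3 := by nlinarith [sq_nonneg s, mul_pos hs0 hs0]
    have h6 : 1000000 * s ≤ s ^ 3 := by
      have : (1000000 : ℝ) ≤ s ^ 2 := by nlinarith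
      calc 1000000 * s ≤ s ^ 2 * s := mul_le_mul_of_nonneg_right this hs0.le
        _ = s ^ 3 := by ring
    nlinarith
  have e : (4.2 : ℝ) / s ^ 3 + 4.25 / s ^ 3 + 12.5 / s ^ 3 = 20.95 / s ^ 3 := by
    rw [← add_div, ← add_div]
    norm_num
  have e2 : 4 * (1.05 / s ^ 3) = 4.2 / s ^ 3 := by
    rw [← mul_div_assoc]
    norm_num
  have h1' : 4 * Real.sqrt a ≤ 4.2 / s ^ 3 := by
    rw [← e2]
    linarith
  linarith

end Pool.Agent.Moser
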