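import Pool.Agent.Lib_MP_cc07e8_co.Full

/-!
# MP_cc07e8_co, tail theorem: reserve lemma
-/

namespace Pool.Agent.Moser

namespace Reserve

theorem area_nonneg {R : Multiset (ℝ × ℝ)} (hR : ∀ r ∈ R, 0 ≤ r.1 ∧ 0 ≤ r.2) : 0 ≤ area R := by
  unfold area
  refine Multiset.sum_nonneg fun t ht => ?_
  obtain ⟨r, hr, rfl⟩ := Multiset.mem_map.1 ht
  exact mul_nonneg (hR r hr).1 (hR r hr).2

theorem floor_ge {t : ℝ} (ht : 8 ≤ t) : 7 / 8 * t ≤ (⌊t⌋₊ : ℝ) := by
  have h := Nat.lt_floor_add_one t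
  linarith

theorem fat_cons_pos {N : ℝ} {r : ℝ × ℝ} (R : Multiset (ℝ × ℝ)) (h : 8 ≤ N * min r.1 r.2) :
    fat N (r ::ₘ R) = r ::ₘ fat N R := by
  classical
  unfold fat
  exact Multiset.filter_cons_of_pos (p := fun r : ℝ × ℝ => 8 ≤ N * min r.1 r.2) _ h

theorem fat_cons_neg {N : ℝ} {r : ℝ × ℝ} (R : Multiset (ℝ × ℝ)) (h : ¬ 8 ≤ N * min r.1 r.2) :
    fat N (r ::ₘ R) = fat N R := by
  classical
  unfold fat
  exact Multiset.filter_cons_of_neg (p := fun r : ℝ × ℝ => 8 ≤ N * min r.1 r.2) _ h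

/-- one fat rectangle, all cases -/
theorem one_fat {N : ℝ} (hN : 0 < N) (Kmax : ℕ) (hK : 1 ≤ Kmax) {a b : ℝ} (ha : 0 ≤ a) (hb : 0 ≤ b)
    (h8 : 8 ≤ N * min a b) : ∃ V : ℕ, (7 / 8) ^ 2 * N ^ 2 * (a * b) ≤ (V : ℝ) ∧
      (∃ (ks : Multiset ℕ) (R' : Multiset (ℝ × ℝ)),
        ks.sum = V ∧ (∀ k ∈ ks, 1 ≤ k ∧ k ≤ Kmax) ∧
        Ref {(a, b)} 0 (ks.map (fun k : ℕ => ((k : ℝ) / N, 1 / N)) + R') ∧
        Psi R' + 1.05 * ks.card / N ≤ wt (a, b) + 1.05 * (V : ℕ) / (N * Kmax)) ∧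
      ∀ f : ℕ, f < V → ∃ (ks : Multiset ℕ) (R' : Multiset (ℝ × ℝ)),
        ks.sum = f ∧ (∀ k ∈ ks, 1 ≤ k ∧ k ≤ Kmax) ∧
        Ref {(a, b)} 0 (ks.map (fun k : ℕ => ((k : ℝ) / N, 1 / N)) + R') ∧
        Psi R' + 1.05 * ks.card / N ≤
          wt (a, b) + 4 * Real.sqrt (a * b) + 1.05 * (f : ℕ) / (N * Kmax) := by
  have key : ∀ x y : ℝ, 0 ≤ x → 8 ≤ N * x → x ≤ y → ∃ V : ℕ,
      (7 / 8) ^ 2 * N ^ 2 * (x * y) ≤ (V : ℝ) ∧
      (∃ (ks : Multiset ℕ) (R' : Multiset (ℝ × ℝ)),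
        ks.sum = V ∧ (∀ k ∈ ks, 1 ≤ k ∧ k ≤ Kmax) ∧
        Ref {(x, y)} 0 (ks.map (fun k : ℕ => ((k : ℝ) / N, 1 / N)) + R') ∧
        Psi R' + 1.05 * ks.card / N ≤ wt (x, y) + 1.05 * (V : ℕ) / (N * Kmax)) ∧
      ∀ f : ℕ, f < V → ∃ (ks : Multiset ℕ) (R' : Multiset (ℝ × ℝ)),
        ks.sum = f ∧ (∀ k ∈ ks, 1 ≤ k ∧ k ≤ Kmax) ∧
        Ref {(x, y)} 0 (ks.map (fun k : ℕ => ((k : ℝ) / N, 1 / N)) + R') ∧
        Psi R' + 1.05 * ks.card / N ≤
          wt (x, y) + 4 * Real.sqrt (x * y) + 1.05 * (f : ℕ) / (N * Kmax) := by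
    intro x y hx0 hx hxy
    refine ⟨⌊N * x⌋₊ * ⌊N * y⌋₊, ?_, ?_, ?_⟩
    · have hy : 8 ≤ N * y := hx.trans (mul_le_mul_of_nonneg_left hxy hN.le)
      have h1 := floor_ge hx
      have h2 := floor_ge hy
      push_cast
      calc (7 / 8) ^ 2 * N ^ 2 * (x * y) = (7 / 8 * (N * x)) * (7 / 8 * (N * y)) := by ring
        _ ≤ (⌊N * x⌋₊ : ℝ) * (⌊N * y⌋₊ : ℝ) :=
          mul_le_mul h1 h2 (by linarith) (Nat.cast_nonneg _)
    · obtain ⟨ks, R', h1, h2, h3, h4⟩ := full_use hN Kmax hK hx hxy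
      rw [h1] at h4
      exact ⟨ks, R', h1, h2, h3, h4⟩
    · intro f hf
      obtain ⟨ks, R', h1, h2, h3, h4⟩ := part_use hN Kmax hK hx hxy f hf
      refine ⟨ks, R', h1, h2, h3, h4.trans ?_⟩
      have h5 : x ≤ Real.sqrt (x * y) := by
        apply Real.le_sqrt_of_sq_le
        nlinarith
      linarith
  rcases le_total a b with hab | hab
  · rw [min_eq_left hab] at h8
    exact key a b ha h8 hab
  · rw [min_eq_right hab] at h8
    obtain ⟨V, hV, ⟨ks, R', h1, h2, h3, h4⟩, hp⟩ := key b a hb h8 hab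
    have hturn : Ref {(a, b)} 0 {(b, a)} := Ref.turn ha hb
    refine ⟨V, by rw [mul_comm a b]; exact hV, ⟨ks, R', h1, h2, ?_, ?_⟩, ?_⟩
    · have := hturn.trans h3
      rwa [add_zero] at this
    · rw [wt_swap a b]
      exact h4
    · intro f hf
      obtain ⟨ks, R', h1, h2, h3, h4⟩ := hp f hf
      refine ⟨ks, R', h1, h2, ?_, ?_⟩
      · have := hturn.trans h3
        rwa [add_zero] at this
      · rw [wt_swap a b, mul_comm a b]
        exact h4

end Reserve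

/-- Reserve lemma. Induction on the multiset `R`: a rectangle which is not fat is kept; a fat rectangle (turned
so that `x ≤ y`) has `⌊N x⌋ ⌊N y⌋ ≥ (7 / 8) ^ 2 N ^ 2 x y` slots; if `f` is at least that, `full_use` and induction
with the rest of `f`, otherwise `part_use` (`x ≤ sqrt (x y) ≤ sqrt (area R)`), and nothing more. For `f = 0`
nothing. -/
theorem reserve {N : ℝ} (hN : 0 < N) (Kmax : ℕ) (hK : 1 ≤ Kmax) (R : Multiset (ℝ × ℝ))
    (hR : ∀ r ∈ R, 0 ≤ r.1 ∧ 0 ≤ r.2) (f : ℕ)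
    (hf : (f : ℝ) ≤ (7 / 8) ^ 2 * N ^ 2 * area (fat N R)) :
    ∃ (ks : Multiset ℕ) (R' : Multiset (ℝ × ℝ)),
      ks.sum = f ∧ (∀ k ∈ ks, 1 ≤ k ∧ k ≤ Kmax) ∧
      Ref R 0 (ks.map (fun k : ℕ => ((k : ℝ) / N, 1 / N)) + R') ∧
      Psi R' + 1.05 * ks.card / N ≤
        Psi R + 4 * Real.sqrt (area R) + 1.05 * (f : ℕ) / (N * Kmax) := by
  induction R using Multiset.induction_on generalizing f with
  | empty =>
    have h0 : fat N 0 = 0 := by
      classical
      simp [fat]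
    rw [h0, area_zero, mul_zero] at hf
    have h1 : f = 0 := by
      have : (f : ℝ) = 0 := le_antisymm hf (Nat.cast_nonneg f)
      exact_mod_cast this
    subst h1
    refine ⟨0, 0, by simp, by simp, ?_, by simp⟩
    simpa using Ref.refl 0
  | cons r R ih =>
    have hRR : ∀ r' ∈ R, 0 ≤ r'.1 ∧ 0 ≤ r'.2 := fun r' hr' => hR r' (Multiset.mem_cons_of_mem hr')
    have hr := hR r (Multiset.mem_cons_self r R)
    have hA := Reserve.area_nonneg hRR
    have hr2 : 0 ≤ r.1 * r.2 := mul_nonneg hr.1 hr.2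
    have hsq : Real.sqrt (area R) ≤ Real.sqrt (area (r ::ₘ R)) := by
      apply Real.sqrt_le_sqrt
      rw [area_cons]
      linarith
    have hsq2 : Real.sqrt (r.1 * r.2) ≤ Real.sqrt (area (r ::ₘ R)) := by
      apply Real.sqrt_le_sqrt
      rw [area_cons]
      linarith
    by_cases h8 : 8 ≤ N * min r.1 r.2
    · obtain ⟨V, hV, ⟨ks, R', h1, h2, h3, h4⟩, hp⟩ :=
        Reserve.one_fat hN Kmax hK hr.1 hr.2 h8
      rw [Reserve.fat_cons_pos R h8, area_cons] at hf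
      rcases lt_or_ge f V with hfV | hfV
      · obtain ⟨ks, R', h1, h2, h3, h4⟩ := hp f hfV
        refine ⟨ks, R' + R, h1, h2, ?_, ?_⟩
        · have h5 := h3.add (Ref.refl R)
          rw [Multiset.singleton_add, add_zero, add_assoc] at h5
          exact h5
        · rw [Psi_add, Psi_cons]
          have : wt (r.1, r.2) = wt r := rfl
          rw [this] at h4
          linarith
      · have hf' : ((f - V : ℕ) : ℝ) ≤ (7 / 8) ^ 2 * N ^ 2 * area (fat N R) := by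
          rw [Nat.cast_sub hfV]
          linarith
        obtain ⟨ks2, R2, g1, g2, g3, g4⟩ := ih hRR (f - V) hf'
        refine ⟨ks + ks2, R' + R2, ?_, ?_, ?_, ?_⟩
        · rw [Multiset.sum_add, h1, g1]
          omega
        · intro k hk
          rcases Multiset.mem_add.1 hk with hk | hk
          · exact h2 k hk
          · exact g2 k hk
        · have h5 := h3.add g3
          rw [Multiset.singleton_add, add_zero] at h5
          rw [Multiset.map_add]
          have e : Multiset.map (fun k : ℕ => ((k : ℝ) / N, 1 / N)) ks +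
              Multiset.map (fun k : ℕ => ((k : ℝ) / N, 1 / N)) ks2 + (R' + R2) =
              Multiset.map (fun k : ℕ => ((k : ℝ) / N, 1 / N)) ks + R' +
              (Multiset.map (fun k : ℕ => ((k : ℝ) / N, 1 / N)) ks2 + R2) := by
            abel
          rw [e]
          exact h5
        · rw [Psi_add, Psi_cons, Multiset.card_add]
          have : wt (r.1, r.2) = wt r := rfl
          rw [this] at h4
          rw [Nat.cast_sub hfV] at g4
          have e1 : 1.05 * ((f : ℝ) - (V : ℝ)) / (N * Kmax) =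
              1.05 * (f : ℝ) / (N * Kmax) - 1.05 * (V : ℝ) / (N * Kmax) := by ring
          have e2 : 1.05 * ((ks.card + ks2.card : ℕ) : ℝ) / N =
              1.05 * (ks.card : ℝ) / N + 1.05 * (ks2.card : ℝ) / N := by
            push_cast
            ring
          rw [e1] at g4
          rw [e2]
          linarith
    · rw [Reserve.fat_cons_neg R h8] at hf
      obtain ⟨ks, R', g1, g2, g3, g4⟩ := ih hRR f hf
      refine ⟨ks, r ::ₘ R', g1, g2, ?_, ?_⟩
      · have h5 := g3.add (Ref.refl {r})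
        rw [add_zero, add_comm R, Multiset.singleton_add, add_assoc,
          add_comm R' {r}, Multiset.singleton_add] at h5
        exact h5
      · rw [Psi_cons, Psi_cons]
        linarith

end Pool.Agent.Moser
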