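import Pool.Agent.Lib_MP_cc07e8_co.Load

/-!
# MP_cc07e8_co, tail theorem: the ripe strips
-/

namespace Pool.Agent.Moser

open Classical in
/-- The ripe strips `B = {m ∈ A | T m < (i + 1) ^ 3}` are those in the window `i`: total length at most
`LB s i i ≤ 2.5 / i`. By `size`: `8 i ^ 9 ≤ m ^ 4 ≤ 60 ^ 3 (i + 1) ^ 9`, so `520 i ^ 2 ≤ m` and `m ^ 2 ≤ i ^ 5` for
large `i`. Slots: `i ^ 3 / m` (natural division) each. `n0 ≤ m ≤ i ^ (5/2) ≤ (i + 2) ^ 3`. Number of strips: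
each has length `1 / m ≥ 1 / (i ^ 2 sqrt i)`. -/
theorem ripe_props : ∃ s0 : ℕ, ∀ (cs : List (ℝ × ℝ)) (n0 s i : ℕ) (A : Finset ℕ) (T : ℕ → ℝ)
    (R : Multiset (ℝ × ℝ)), s0 ≤ s → s ≤ i → St cs n0 s i A T R →
    (∀ m ∈ A.filter (fun m => T m < ((i : ℝ) + 1) ^ 3),
      520 * (i : ℝ) ^ 2 ≤ m ∧ (i : ℝ) ^ 3 ≤ T m ∧ T m < ((i : ℝ) + 1) ^ 3) ∧
    ((∑ m ∈ A.filter (fun m => T m < ((i : ℝ) + 1) ^ 3), i ^ 3 / m : ℕ) : ℝ) ≤
      2.5 * (i : ℝ) ^ 2 ∧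
    ((A.filter fun m => T m < ((i : ℝ) + 1) ^ 3).Nonempty → n0 ≤ (i + 2) ^ 3) ∧
    ((A.filter fun m => T m < ((i : ℝ) + 1) ^ 3).card : ℝ) ≤ 2.5 * (i : ℝ) * Real.sqrt i := by
  obtain ⟨s1, hs1⟩ := load_bound
  refine ⟨max s1 10000000000, fun cs n0 s i A T R h0 hsi st => ?_⟩
  have hs1' : s1 ≤ s := by omega
  have hi : 10000000000 ≤ i := by omega
  have hi' : (10000000000 : ℝ) ≤ i := by exact_mod_cast hi
  have hi0 : (0 : ℝ) < i := by linarith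
  have hi1 : (1 : ℝ) ≤ i := by linarith
  set B := A.filter (fun m => T m < ((i : ℝ) + 1) ^ 3) with hB
  have hBeq : B = A.filter (fun m => Wd i (T m)) := by
    apply Finset.filter_congr
    intro m hm
    unfold Wd
    exact ⟨fun h => ⟨st.ripe m hm, h⟩, fun h => h.2⟩
  have hload : ∑ m ∈ B, 1 / (m : ℝ) ≤ 2.5 / i := by
    rw [hBeq]
    exact (st.load i).trans (hs1 s i i hs1' hsi)
  have hlow : ∀ m ∈ B, 520 * (i : ℝ) ^ 2 ≤ m := by
    intro m hm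
    have hmA := (Finset.mem_filter.1 hm).1
    have h1 := (st.size m hmA).1
    have h2 := st.ripe m hmA
    by_contra hlt
    push Not at hlt
    have h3 : (m : ℝ) ^ 4 < (520 * (i : ℝ) ^ 2) ^ 4 :=
      pow_lt_pow_left₀ hlt (by positivity) (by norm_num)
    have h4 : ((i : ℝ) ^ 3) ^ 3 ≤ T m ^ 3 := pow_le_pow_left₀ (by positivity) h2 3
    have h5 : (520 * (i : ℝ) ^ 2) ^ 4 ≤ 8 * ((i : ℝ) ^ 3) ^ 3 := by
      have : (520 : ℝ) ^ 4 * (i : ℝ) ^ 8 ≤ 8 * i * (i : ℝ) ^ 8 := by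
        apply mul_le_mul_of_nonneg_right _ (by positivity)
        norm_num
        linarith
      calc (520 * (i : ℝ) ^ 2) ^ 4 = (520 : ℝ) ^ 4 * (i : ℝ) ^ 8 := by ring
        _ ≤ 8 * i * (i : ℝ) ^ 8 := this
        _ = 8 * ((i : ℝ) ^ 3) ^ 3 := by ring
    linarith
  have hup : ∀ m ∈ B, (m : ℝ) ^ 4 ≤ 216000 * ((i : ℝ) + 1) ^ 9 := by
    intro m hm
    have hmA := (Finset.mem_filter.1 hm).1
    have h1 := (st.size m hmA).2
    have h2 := (Finset.mem_filter.1 hm).2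
    have h3 := st.ripe m hmA
    have h4 : 0 ≤ T m := le_trans (by positivity) h3
    have h5 : (60 * T m) ^ 3 ≤ (60 * ((i : ℝ) + 1) ^ 3) ^ 3 :=
      pow_le_pow_left₀ (by positivity) (by linarith) 3
    calc (m : ℝ) ^ 4 ≤ (60 * T m) ^ 3 := h1
      _ ≤ (60 * ((i : ℝ) + 1) ^ 3) ^ 3 := h5
      _ = 216000 * ((i : ℝ) + 1) ^ 9 := by ring
  have hpos : ∀ m ∈ B, (0 : ℝ) < m := by
    intro m hm
    have := hlow m hm
    have h2 : 0 < 520 * (i : ℝ) ^ 2 := by positivity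
    linarith
  refine ⟨fun m hm => ⟨hlow m hm, st.ripe m (Finset.mem_filter.1 hm).1,
    (Finset.mem_filter.1 hm).2⟩, ?_, ?_, ?_⟩
  · push_cast
    have h1 : ∀ m ∈ B, ((i ^ 3 / m : ℕ) : ℝ) ≤ (i : ℝ) ^ 3 * (1 / (m : ℝ)) := by
      intro m hm
      have := @Nat.cast_div_le ℝ _ _ _ (i ^ 3) m
      rw [mul_one_div]
      refine this.trans (le_of_eq ?_)
      push_cast
      rfl
    refine (Finset.sum_le_sum h1).trans ?_
    rw [← Finset.mul_sum]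
    calc (i : ℝ) ^ 3 * ∑ m ∈ B, 1 / (m : ℝ) ≤ (i : ℝ) ^ 3 * (2.5 / i) :=
        mul_le_mul_of_nonneg_left hload (by positivity)
      _ = 2.5 * (i : ℝ) ^ 2 := by
        field_simp
  · rintro ⟨m, hm⟩
    have h1 := st.sub m (Finset.mem_filter.1 hm).1
    refine h1.trans ?_
    by_contra hlt
    push Not at hlt
    have h2 : (((i + 2) ^ 3 : ℕ) : ℝ) < m := by exact_mod_cast hlt
    push_cast at h2
    have h3 : (((i : ℝ) + 2) ^ 3) ^ 4 < (m : ℝ) ^ 4 :=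
      pow_lt_pow_left₀ h2 (by positivity) (by norm_num)
    have h4 := hup m hm
    have h5 : 216000 * ((i : ℝ) + 1) ^ 9 ≤ (((i : ℝ) + 2) ^ 3) ^ 4 := by
      have a1 : ((i : ℝ) + 1) ^ 12 ≤ ((i : ℝ) + 2) ^ 12 :=
        pow_le_pow_left₀ (by positivity) (by linarith) 12
      have a2 : (216000 : ℝ) ≤ ((i : ℝ) + 1) ^ 3 := by
        have : (60 : ℝ) ^ 3 ≤ ((i : ℝ) + 1) ^ 3 := pow_le_pow_left₀ (by norm_num) (by linarith) 3
        norm_num at this ⊢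
        linarith
      calc 216000 * ((i : ℝ) + 1) ^ 9 ≤ ((i : ℝ) + 1) ^ 3 * ((i : ℝ) + 1) ^ 9 :=
            mul_le_mul_of_nonneg_right a2 (by positivity)
        _ = ((i : ℝ) + 1) ^ 12 := by ring
        _ ≤ ((i : ℝ) + 2) ^ 12 := a1
        _ = (((i : ℝ) + 2) ^ 3) ^ 4 := by ring
    linarith
  · have hs : 0 < Real.sqrt i := Real.sqrt_pos.2 hi0
    have hsq : Real.sqrt i ^ 2 = i := Real.sq_sqrt hi0.le
    have h1 : ∀ m ∈ B, 1 / ((i : ℝ) ^ 2 * Real.sqrt i) ≤ 1 / (m : ℝ) := by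
      intro m hm
      apply one_div_le_one_div_of_le (hpos m hm)
      by_contra hlt
      push Not at hlt
      have h3 : ((i : ℝ) ^ 2 * Real.sqrt i) ^ 4 < (m : ℝ) ^ 4 :=
        pow_lt_pow_left₀ hlt (by positivity) (by norm_num)
      have h4 : ((i : ℝ) ^ 2 * Real.sqrt i) ^ 4 = (i : ℝ) ^ 10 := by
        calc ((i : ℝ) ^ 2 * Real.sqrt i) ^ 4 = (i : ℝ) ^ 8 * (Real.sqrt i ^ 2) ^ 2 := by ring
          _ = (i : ℝ) ^ 10 := by rw [hsq]; ring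
      have h5 := hup m hm
      have h6 : ((i : ℝ) + 1) ^ 9 ≤ (2 * (i : ℝ)) ^ 9 :=
        pow_le_pow_left₀ (by positivity) (by linarith) 9
      have h7 : 216000 * (2 * (i : ℝ)) ^ 9 ≤ (i : ℝ) ^ 10 := by
        have : (216000 * 512 : ℝ) * (i : ℝ) ^ 9 ≤ i * (i : ℝ) ^ 9 := by
          apply mul_le_mul_of_nonneg_right _ (by positivity)
          norm_num
          linarith
        calc 216000 * (2 * (i : ℝ)) ^ 9 = (216000 * 512 : ℝ) * (i : ℝ) ^ 9 := by ring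
          _ ≤ i * (i : ℝ) ^ 9 := this
          _ = (i : ℝ) ^ 10 := by ring
      rw [h4] at h3
      have h8 : 216000 * ((i : ℝ) + 1) ^ 9 ≤ 216000 * (2 * (i : ℝ)) ^ 9 := by linarith
      linarith
    have h2 : (B.card : ℝ) * (1 / ((i : ℝ) ^ 2 * Real.sqrt i)) ≤ 2.5 / i := by
      have := Finset.card_nsmul_le_sum B (fun m : ℕ => 1 / (m : ℝ)) _ h1
      rw [nsmul_eq_mul] at this
      exact this.trans hload
    have h3 : 0 < (i : ℝ) ^ 2 * Real.sqrt i := by positivity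
    rw [mul_one_div, div_le_iff₀ h3] at h2
    calc (B.card : ℝ) ≤ 2.5 / i * ((i : ℝ) ^ 2 * Real.sqrt i) := h2
      _ = 2.5 * (i : ℝ) * Real.sqrt i := by field_simp

end Pool.Agent.Moser
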