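import Mathlib

/-!
# MP_cc07e8_co, tail theorem: rounding lemma
-/

namespace Pool.Agent.Moser

namespace Round

variable {σ o ι : Type}

open Classical in
/-- floating pairs -/
noncomputable def fl (P : Finset (σ × o)) (x : σ × o → ℝ) : Finset (σ × o) :=
  P.filter fun p => 0 < x p ∧ x p < 1

open Classical in
theorem ext_sum (P F : Finset (σ × o)) (hF : F ⊆ P) (y : {p // p ∈ F} → ℝ) (Q : σ × o → Prop) :
    ∑ p ∈ P.filter Q, (if h : p ∈ F then y ⟨p, h⟩ else 0) =
      ∑ p : {p // p ∈ F}, (if Q p.1 then (1 : ℝ) else 0) * y p := by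
  have h1 : ∑ p ∈ P.filter Q, (if h : p ∈ F then y ⟨p, h⟩ else 0) =
      ∑ p ∈ F.filter Q, (if h : p ∈ F then y ⟨p, h⟩ else 0) := by
    symm
    refine Finset.sum_subset (Finset.filter_subset_filter _ hF) ?_
    intro p hp hp'
    rw [Finset.mem_filter] at hp hp'
    have : p ∉ F := fun h => hp' ⟨h, hp.2⟩
    rw [dif_neg this]
  rw [h1, Finset.sum_filter, ← Finset.sum_coe_sort F]
  refine Finset.sum_congr rfl fun p _ => ?_
  rw [dif_pos p.2]
  split_ifs <;> simp

open Classical in
theorem two_le_floating (S : Finset σ) (O : Finset o) (x : σ × o → ℝ)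
    (h01 : ∀ p ∈ S ×ˢ O, 0 ≤ x p ∧ x p ≤ 1) (hs : ∀ s ∈ S, ∑ b ∈ O, x (s, b) = 1) (s : σ)
    (hsS : s ∈ S) (b : o) (hb : b ∈ O) (hf : 0 < x (s, b) ∧ x (s, b) < 1) :
    2 ≤ ((fl (S ×ˢ O) x).filter fun p => p.1 = s).card := by
  by_contra hcon
  have hcon : ((fl (S ×ˢ O) x).filter fun p => p.1 = s).card ≤ 1 := by omega
  rw [Finset.card_le_one] at hcon
  have hmem : (s, b) ∈ (fl (S ×ˢ O) x).filter fun p => p.1 = s := by
    rw [Finset.mem_filter, fl, Finset.mem_filter]
    exact ⟨⟨Finset.mem_product.mpr ⟨hsS, hb⟩, hf⟩, rfl⟩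
  have hother : ∀ b' ∈ O, b' ≠ b → x (s, b') = 0 ∨ x (s, b') = 1 := by
    intro b' hb' hne
    by_contra h
    rw [not_or] at h
    have hr := h01 (s, b') (Finset.mem_product.mpr ⟨hsS, hb'⟩)
    have hmem' : (s, b') ∈ (fl (S ×ˢ O) x).filter fun p => p.1 = s := by
      rw [Finset.mem_filter, fl, Finset.mem_filter]
      exact ⟨⟨Finset.mem_product.mpr ⟨hsS, hb'⟩, lt_of_le_of_ne hr.1 (Ne.symm h.1),
        lt_of_le_of_ne hr.2 h.2⟩, rfl⟩
    have := hcon _ hmem _ hmem'
    exact hne (congrArg Prod.snd this).symm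
  have hsum := hs s hsS
  rw [← Finset.add_sum_erase O _ hb] at hsum
  by_cases h1 : ∃ b' ∈ O.erase b, x (s, b') = 1
  · obtain ⟨b', hb', hx⟩ := h1
    have : x (s, b') ≤ ∑ b'' ∈ O.erase b, x (s, b'') := by
      refine Finset.single_le_sum (f := fun b'' => x (s, b'')) (fun i hi => ?_) hb'
      exact (h01 (s, i) (Finset.mem_product.mpr ⟨hsS, Finset.mem_of_mem_erase hi⟩)).1
    rw [hx] at this
    linarith [hf.1]
  · push Not at h1
    have : ∑ b'' ∈ O.erase b, x (s, b'') = 0 := by
      refine Finset.sum_eq_zero fun i hi => ?_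
      rcases hother i (Finset.mem_of_mem_erase hi) (Finset.ne_of_mem_erase hi) with h | h
      · exact h
      · exact absurd h (h1 i hi)
    linarith [hf.2]

open Classical in
theorem direction (S : Finset σ) (O : Finset o) (J : Finset ι) (C : ι → σ → o → Prop) (t : ℕ)
    (hC : ∀ s ∈ S, ∀ b ∈ O, (J.filter fun j => C j s b).card ≤ t) (x : σ × o → ℝ)
    (h01 : ∀ p ∈ S ×ˢ O, 0 ≤ x p ∧ x p ≤ 1) (hs : ∀ s ∈ S, ∑ b ∈ O, x (s, b) = 1)
    (hV : (fl (S ×ˢ O) x).Nonempty) :
    ∃ y : σ × o → ℝ, (∀ p, p ∉ fl (S ×ˢ O) x → y p = 0) ∧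
      (∃ p ∈ fl (S ×ˢ O) x, y p ≠ 0) ∧ (∀ s ∈ S, ∑ b ∈ O, y (s, b) = 0) ∧
      ∀ j ∈ J, 2 * t < ((fl (S ×ˢ O) x).filter fun p => C j p.1 p.2).card →
        ∑ p ∈ (S ×ˢ O).filter (fun p => C j p.1 p.2), y p = 0 := by
  set F := fl (S ×ˢ O) x with hFdef
  have hFP : F ⊆ S ×ˢ O := Finset.filter_subset _ _
  let A : Finset σ := S.filter fun s => ∃ b ∈ O, (s, b) ∈ F
  let Act : Finset ι := J.filter fun j => 2 * t < (F.filter fun p => C j p.1 p.2).card
  have hA : 2 * A.card ≤ F.card := by
    have h1 : ∑ s ∈ A, (F.filter fun p => p.1 = s).card ≤ F.card := by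
      have : ∑ s ∈ A, (F.filter fun p => p.1 = s).card = (F.filter fun p => p.1 ∈ A).card := by
        rw [Finset.card_eq_sum_card_fiberwise (f := fun p => p.1) (t := A)]
        · refine Finset.sum_congr rfl fun s hsA => ?_
          congr 1
          ext p
          simp only [Finset.mem_filter]
          constructor
          · rintro ⟨h1, h2⟩; exact ⟨⟨h1, by rw [h2]; exact hsA⟩, h2⟩
          · rintro ⟨⟨h1, _⟩, h2⟩; exact ⟨h1, h2⟩
        · intro p hp
          exact (Finset.mem_filter.mp hp).2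
      rw [this]
      exact Finset.card_le_card (Finset.filter_subset _ _)
    have h2 : ∑ s ∈ A, 2 ≤ ∑ s ∈ A, (F.filter fun p => p.1 = s).card := by
      refine Finset.sum_le_sum fun s hsA => ?_
      obtain ⟨hsS, b, hb, hbF⟩ := Finset.mem_filter.mp hsA
      exact two_le_floating S O x h01 hs s hsS b hb (Finset.mem_filter.mp hbF).2
    rw [Finset.sum_const, smul_eq_mul] at h2
    omega
  have hAct : (2 * t + 1) * Act.card ≤ t * F.card := by
    have h1 : ∑ j ∈ Act, (F.filter fun p => C j p.1 p.2).card =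
        ∑ p ∈ F, (Act.filter fun j => C j p.1 p.2).card := by
      simp only [Finset.card_filter]
      exact Finset.sum_comm
    have h2 : ∑ j ∈ Act, (2 * t + 1) ≤ ∑ j ∈ Act, (F.filter fun p => C j p.1 p.2).card := by
      refine Finset.sum_le_sum fun j hj => ?_
      exact (Finset.mem_filter.mp hj).2
    have h3 : ∑ p ∈ F, (Act.filter fun j => C j p.1 p.2).card ≤ ∑ p ∈ F, t := by
      refine Finset.sum_le_sum fun p hp => ?_
      have hp' := Finset.mem_product.mp (hFP hp)
      refine le_trans (Finset.card_le_card ?_) (hC p.1 hp'.1 p.2 hp'.2)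
      exact Finset.filter_subset_filter _ (Finset.filter_subset _ _)
    rw [Finset.sum_const, smul_eq_mul] at h2 h3
    rw [h1] at h2
    calc (2 * t + 1) * Act.card = Act.card * (2 * t + 1) := mul_comm _ _
      _ ≤ F.card * t := h2.trans h3
      _ = t * F.card := mul_comm _ _
  have hcard : A.card + Act.card < F.card := by
    have hpos : 0 < F.card := Finset.card_pos.mpr hV
    by_contra hcon
    push Not at hcon
    have h1 : F.card ≤ 2 * Act.card := by omega
    have h2 : (2 * t + 1) * F.card ≤ (2 * t + 1) * (2 * Act.card) := Nat.mul_le_mul_left _ h1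
    have h3 : (2 * t + 1) * (2 * Act.card) = 2 * ((2 * t + 1) * Act.card) := by ring
    have h4 : 2 * ((2 * t + 1) * Act.card) ≤ 2 * (t * F.card) := Nat.mul_le_mul_left _ hAct
    have h5 : (2 * t + 1) * F.card = 2 * (t * F.card) + F.card := by ring
    omega
  let M : Matrix ({s // s ∈ A} ⊕ {j // j ∈ Act}) {p // p ∈ F} ℝ := Matrix.of fun c p =>
    match c with
    | Sum.inl s => if p.1.1 = s.1 then 1 else 0
    | Sum.inr j => if C j.1 p.1.1 p.1.2 then 1 else 0
  have hker : LinearMap.ker (Matrix.mulVecLin M) ≠ ⊥ := by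
    apply LinearMap.ker_ne_bot_of_finrank_lt
    rw [Module.finrank_fintype_fun_eq_card, Module.finrank_fintype_fun_eq_card,
      Fintype.card_sum, Fintype.card_coe, Fintype.card_coe, Fintype.card_coe]
    exact hcard
  obtain ⟨y, hy, hy0⟩ := Submodule.exists_mem_ne_zero_of_ne_bot hker
  have hMy : ∀ c, ∑ p, M c p * y p = 0 := by
    intro c
    have := congrFun (LinearMap.mem_ker.mp hy) c
    simpa [Matrix.mulVec, dotProduct] using this
  have hkey : ∀ Q : σ × o → Prop,
      ∑ p ∈ (S ×ˢ O).filter Q, (if h : p ∈ F then y ⟨p, h⟩ else 0) =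
        ∑ p : {p // p ∈ F}, (if Q p.1 then (1 : ℝ) else 0) * y p :=
    fun Q => ext_sum (S ×ˢ O) F hFP y Q
  refine ⟨fun p => if h : p ∈ F then y ⟨p, h⟩ else 0, ?_, ?_, ?_, ?_⟩
  · intro p hp
    exact dif_neg hp
  · obtain ⟨p, hp⟩ := Function.ne_iff.mp hy0
    refine ⟨p.1, p.2, ?_⟩
    show (if h : p.1 ∈ F then y ⟨p.1, h⟩ else 0) ≠ 0
    rw [dif_pos p.2]
    exact hp
  · intro s hsS
    have h1 : ∑ b ∈ O, (if h : (s, b) ∈ F then y ⟨(s, b), h⟩ else 0) =
        ∑ p ∈ (S ×ˢ O).filter (fun p => p.1 = s), (if h : p ∈ F then y ⟨p, h⟩ else 0) := by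
      rw [Finset.sum_filter, Finset.sum_product]
      symm
      rw [Finset.sum_eq_single s]
      · refine Finset.sum_congr rfl fun b _ => ?_
        rw [if_pos rfl]
      · intro s' _ hne
        refine Finset.sum_eq_zero fun b _ => ?_
        rw [if_neg hne]
      · intro h; exact absurd hsS h
    show ∑ b ∈ O, (if h : (s, b) ∈ F then y ⟨(s, b), h⟩ else 0) = 0
    by_cases hsA : s ∈ A
    · rw [h1, hkey]
      exact hMy (Sum.inl ⟨s, hsA⟩)
    · refine Finset.sum_eq_zero fun b hb => ?_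
      rw [dif_neg]
      intro h
      exact hsA (Finset.mem_filter.mpr ⟨hsS, b, hb, h⟩)
  · intro j hj hact
    have hjA : j ∈ Act := Finset.mem_filter.mpr ⟨hj, hact⟩
    rw [hkey]
    exact hMy (Sum.inr ⟨j, hjA⟩)

open Classical in
/-- moving along the direction until a floating coordinate becomes `0` or `1` -/
theorem move (P : Finset (σ × o)) (x y : σ × o → ℝ) (h01 : ∀ p ∈ P, 0 ≤ x p ∧ x p ≤ 1)
    (hy : ∀ p, p ∉ fl P x → y p = 0) (hne : ∃ p ∈ fl P x, y p ≠ 0) :
    ∃ l : ℝ, (∀ p ∈ P, 0 ≤ x p + l * y p ∧ x p + l * y p ≤ 1) ∧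
      (fl P (fun p => x p + l * y p)).card < (fl P x).card := by
  let r : σ × o → ℝ := fun p => if 0 < y p then (1 - x p) / y p else x p / (-y p)
  let T : Finset (σ × o) := (fl P x).filter fun p => y p ≠ 0
  have hT : T.Nonempty := by
    obtain ⟨p, hp, hp'⟩ := hne
    exact ⟨p, Finset.mem_filter.mpr ⟨hp, hp'⟩⟩
  obtain ⟨p0, hp0, hmin⟩ := Finset.exists_min_image T r hT
  have hp0' := Finset.mem_filter.mp hp0
  have hp0F := Finset.mem_filter.mp hp0'.1
  have hr0 : 0 ≤ r p0 := by
    show 0 ≤ (if 0 < y p0 then (1 - x p0) / y p0 else x p0 / (-y p0))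
    split_ifs with h
    · exact div_nonneg (by linarith [hp0F.2.2]) h.le
    · exact div_nonneg hp0F.2.1.le (by linarith)
  have hin : ∀ p ∈ P, 0 ≤ x p + r p0 * y p ∧ x p + r p0 * y p ≤ 1 := by
    intro p hp
    by_cases hyp : y p = 0
    · rw [hyp, mul_zero, add_zero]; exact h01 p hp
    · have hpF : p ∈ fl P x := by
        by_contra h; exact hyp (hy p h)
      have hpT : p ∈ T := Finset.mem_filter.mpr ⟨hpF, hyp⟩
      have hle := hmin p hpT
      have hb := h01 p hp
      rcases lt_or_gt_of_ne hyp with h | h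
      · have hrp : r p = x p / (-y p) := if_neg (by linarith)
        rw [hrp, le_div_iff₀ (by linarith)] at hle
        have h3 : 0 ≤ r p0 * (-y p) := mul_nonneg hr0 (by linarith)
        constructor <;> linarith
      · have hrp : r p = (1 - x p) / y p := if_pos h
        rw [hrp, le_div_iff₀ h] at hle
        have h3 : 0 ≤ r p0 * y p := mul_nonneg hr0 h.le
        constructor <;> linarith
  refine ⟨r p0, hin, ?_⟩
  apply Finset.card_lt_card
  rw [Finset.ssubset_iff_of_subset]
  · refine ⟨p0, hp0'.1, ?_⟩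
    intro h
    have h' : 0 < x p0 + r p0 * y p0 ∧ x p0 + r p0 * y p0 < 1 := (Finset.mem_filter.mp h).2
    rcases lt_or_gt_of_ne hp0'.2 with h1 | h1
    · have hrp : r p0 = x p0 / (-y p0) := if_neg (by linarith)
      rw [hrp] at h'
      have : x p0 / (-y p0) * y p0 = - x p0 := by
        have : y p0 ≠ 0 := h1.ne
        field_simp
      rw [this] at h'
      linarith [h'.1]
    · have hrp : r p0 = (1 - x p0) / y p0 := if_pos h1
      rw [hrp, div_mul_cancel₀ _ h1.ne'] at h'
      linarith [h'.2]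
  · intro p hp
    have hp' := Finset.mem_filter.mp hp
    by_contra h
    have hyp := hy p h
    have h2 : 0 < x p + r p0 * y p ∧ x p + r p0 * y p < 1 := hp'.2
    rw [hyp, mul_zero, add_zero] at h2
    exact h (Finset.mem_filter.mpr ⟨hp'.1, h2⟩)

open Classical in
theorem main (S : Finset σ) (O : Finset o) (J : Finset ι) (C : ι → σ → o → Prop) (t : ℕ)
    (ht : 1 ≤ t) (hC : ∀ s ∈ S, ∀ b ∈ O, (J.filter fun j => C j s b).card ≤ t) (n : ℕ) :
    ∀ x : σ × o → ℝ, (∀ p ∈ S ×ˢ O, 0 ≤ x p ∧ x p ≤ 1) → (∀ s ∈ S, ∑ b ∈ O, x (s, b) = 1) →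
      (fl (S ×ˢ O) x).card ≤ n →
      ∃ x' : σ × o → ℝ, (∀ p ∈ S ×ˢ O, x' p = 0 ∨ x' p = 1) ∧
        (∀ p ∈ S ×ˢ O, (x p = 0 ∨ x p = 1) → x' p = x p) ∧ (∀ s ∈ S, ∑ b ∈ O, x' (s, b) = 1) ∧
        ∀ j ∈ J, |∑ p ∈ (S ×ˢ O).filter (fun p => C j p.1 p.2), x' p -
          ∑ p ∈ (S ×ˢ O).filter (fun p => C j p.1 p.2), x p| < 2 * t := by
  have ht' : (1 : ℝ) ≤ t := by exact_mod_cast ht
  induction n with
  | zero =>
    intro x h01 hs hn
    have hemp : fl (S ×ˢ O) x = ∅ := Finset.card_eq_zero.mp (by omega)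
    refine ⟨x, ?_, fun _ _ _ => rfl, hs, ?_⟩
    · intro p hp
      by_contra h
      rw [not_or] at h
      have hb := h01 p hp
      have : p ∈ fl (S ×ˢ O) x := Finset.mem_filter.mpr ⟨hp, lt_of_le_of_ne hb.1 (Ne.symm h.1),
        lt_of_le_of_ne hb.2 h.2⟩
      rw [hemp] at this
      exact absurd this (Finset.notMem_empty _)
    · intro j _
      rw [sub_self, abs_zero]
      linarith
  | succ n ih =>
    intro x h01 hs hn
    by_cases hV : (fl (S ×ˢ O) x).Nonempty
    swap
    · rw [Finset.not_nonempty_iff_eq_empty] at hV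
      exact ih x h01 hs (by rw [hV]; simp)
    obtain ⟨y, hy1, hy2, hy3, hy4⟩ := direction S O J C t hC x h01 hs hV
    obtain ⟨l, hl1, hl2⟩ := move (S ×ˢ O) x y h01 hy1 hy2
    obtain ⟨x', h1, h2, h3, h4⟩ := ih (fun p => x p + l * y p) hl1 (by
      intro s hsS
      rw [Finset.sum_add_distrib, ← Finset.mul_sum, hy3 s hsS, hs s hsS, mul_zero, add_zero])
      (by omega)
    have hfix : ∀ p ∈ S ×ˢ O, (x p = 0 ∨ x p = 1) → x' p = x p := by
      intro p hp hx
      have hpF : p ∉ fl (S ×ˢ O) x := by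
        intro h
        have := (Finset.mem_filter.mp h).2
        rcases hx with hx | hx <;> rw [hx] at this
        · exact lt_irrefl _ this.1
        · exact lt_irrefl _ this.2
      have hyp := hy1 p hpF
      have := h2 p hp (by simpa [hyp] using hx)
      simpa [hyp] using this
    refine ⟨x', h1, hfix, h3, ?_⟩
    intro j hj
    by_cases hact : 2 * t < ((fl (S ×ˢ O) x).filter fun p => C j p.1 p.2).card
    · have h5 := h4 j hj
      rw [Finset.sum_add_distrib, ← Finset.mul_sum, hy4 j hj hact, mul_zero, add_zero] at h5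
      exact h5
    · push Not at hact
      rw [← Finset.sum_sub_distrib]
      set Q := (S ×ˢ O).filter (fun p => C j p.1 p.2) with hQ
      set FQ := (fl (S ×ˢ O) x).filter (fun p => C j p.1 p.2) with hFQ
      have hsub : FQ ⊆ Q := by
        intro p hp
        obtain ⟨hp1, hp2⟩ := Finset.mem_filter.mp hp
        exact Finset.mem_filter.mpr ⟨(Finset.mem_filter.mp hp1).1, hp2⟩
      have hred : ∑ p ∈ Q, (x' p - x p) = ∑ p ∈ FQ, (x' p - x p) := by
        symm
        refine Finset.sum_subset hsub ?_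
        intro p hp hp'
        obtain ⟨hp1, hp2⟩ := Finset.mem_filter.mp hp
        have hb := h01 p hp1
        have : x p = 0 ∨ x p = 1 := by
          by_contra h
          rw [not_or] at h
          exact hp' (Finset.mem_filter.mpr ⟨Finset.mem_filter.mpr ⟨hp1,
            lt_of_le_of_ne hb.1 (Ne.symm h.1), lt_of_le_of_ne hb.2 h.2⟩, hp2⟩)
        rw [hfix p hp1 this, sub_self]
      rw [hred]
      have hpt : ∀ p ∈ FQ, |x' p - x p| < 1 := by
        intro p hp
        obtain ⟨hp1, hp2⟩ := Finset.mem_filter.mp hp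
        obtain ⟨hp3, hp4⟩ := Finset.mem_filter.mp hp1
        rw [abs_lt]
        rcases h1 p hp3 with h | h <;> rw [h] <;> constructor <;> linarith [hp4.1, hp4.2]
      rcases FQ.eq_empty_or_nonempty with he | hne
      · rw [he, Finset.sum_empty, abs_zero]
        linarith
      · calc |∑ p ∈ FQ, (x' p - x p)| ≤ ∑ p ∈ FQ, |x' p - x p| := Finset.abs_sum_le_sum_abs _ _
          _ < ∑ p ∈ FQ, (1 : ℝ) := Finset.sum_lt_sum_of_nonempty hne hpt
          _ = (FQ.card : ℝ) := by simp
          _ ≤ 2 * t := by exact_mod_cast hact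

end Round

open Classical in
/-- Rounding lemma (Beck-Fiala with hard slot constraints). Proof: real weights `x s b ∈ [0, 1]` on
`S ×ˢ O`, start `x = 1 / #O`. A pair is floating if `0 < x < 1`. Keep: every slot sum is `1`, and every
ACTIVE soft set (a set `j` with more than `2 t` floating pairs) has its initial sum. If `V > 0` pairs are
floating: every slot with a floating pair has at least `2` of them, so at most `V / 2` slots; every active
set has at least `2 t + 1` floating pairs and every pair is in at most `t` sets, so there are at most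
`t V / (2 t + 1) < V / 2` active sets. So there is a nonzero vector on the floating pairs with all slot sums
and all active soft sums `0`; move along it until the first coordinate becomes `0` or `1`. Induction on
`V` (statement of the induction: for every such `x` there is an integral `x'` with the same slot sums, with
`|sum over j of x' - sum of x| < 2 t` for every `j`, `x' = x` where `x ∈ {0, 1}`, `x' ∈ {0, 1}`; for a set which
is not active `|difference| ≤ number of floating pairs, strict`, i.e. `< 2 t`, since each floating value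
changes by less than `1`). At the end `x s b ∈ {0, 1}`, `f s` = the unique `b` with `x s b = 1`. -/
theorem rounding {σ o ι : Type} (S : Finset σ) (O : Finset o) (hO : O.Nonempty) (J : Finset ι)
    (C : ι → σ → o → Prop) (t : ℕ) (ht : 1 ≤ t)
    (hC : ∀ s ∈ S, ∀ b ∈ O, (J.filter fun j => C j s b).card ≤ t) :
    ∃ f : σ → o, (∀ s ∈ S, f s ∈ O) ∧ ∀ j ∈ J,
      |((S.filter fun s => C j s (f s)).card : ℝ) -
        (((S ×ˢ O).filter fun p => C j p.1 p.2).card : ℝ) / O.card| < 2 * t := by
  have hOc : 0 < O.card := Finset.card_pos.mpr hO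
  have hOc' : (0 : ℝ) < O.card := by exact_mod_cast hOc
  obtain ⟨x, h1, _, h3, h4⟩ := Round.main S O J C t ht hC _ (fun _ => 1 / (O.card : ℝ)) (by
    intro p _
    refine ⟨by positivity, ?_⟩
    rw [div_le_one hOc']
    exact_mod_cast hOc) (by
    intro s _
    rw [Finset.sum_const, nsmul_eq_mul]
    field_simp) le_rfl
  have hex : ∀ s ∈ S, ∃ b ∈ O, x (s, b) = 1 ∧ ∀ b' ∈ O, b' ≠ b → x (s, b') = 0 := by
    intro s hs
    have hsum := h3 s hs
    obtain ⟨b, hb, hx⟩ : ∃ b ∈ O, x (s, b) = 1 := by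
      by_contra hcon
      push Not at hcon
      have : ∑ b ∈ O, x (s, b) = 0 := Finset.sum_eq_zero fun b hb => by
        rcases h1 (s, b) (Finset.mem_product.mpr ⟨hs, hb⟩) with h | h
        · exact h
        · exact absurd h (hcon b hb)
      linarith
    refine ⟨b, hb, hx, ?_⟩
    rw [← Finset.add_sum_erase O _ hb, hx] at hsum
    have hz : ∑ b' ∈ O.erase b, x (s, b') = 0 := by linarith
    have hnn : ∀ b' ∈ O.erase b, 0 ≤ x (s, b') := by
      intro b' hb'
      rcases h1 (s, b') (Finset.mem_product.mpr ⟨hs, Finset.mem_of_mem_erase hb'⟩) with h | h <;>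
        rw [h]
      exact zero_le_one
    intro b' hb' hne
    exact (Finset.sum_eq_zero_iff_of_nonneg hnn).mp hz b' (Finset.mem_erase.mpr ⟨hne, hb'⟩)
  obtain ⟨b0, _⟩ := hO
  let f : σ → o := fun s => if h : s ∈ S then (hex s h).choose else b0
  have hf : ∀ s (h : s ∈ S), f s = (hex s h).choose := fun s h => dif_pos h
  refine ⟨f, ?_, ?_⟩
  · intro s hs
    rw [hf s hs]
    exact (hex s hs).choose_spec.1
  · intro j hj
    have h5 := h4 j hj
    have e1 : ∑ p ∈ (S ×ˢ O).filter (fun p => C j p.1 p.2), x p =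
        ((S.filter fun s => C j s (f s)).card : ℝ) := by
      rw [Finset.sum_filter, Finset.sum_product, Finset.card_filter]
      push_cast
      refine Finset.sum_congr rfl fun s hs => ?_
      obtain ⟨hb, hx, hz⟩ := (hex s hs).choose_spec
      rw [← hf s hs] at hb hx hz
      rw [Finset.sum_eq_single (f s)]
      · simp only [hx]
      · intro b' hb' hne
        rw [hz b' hb' hne, ite_self]
      · intro h; exact absurd hb h
    have e2 : ∑ p ∈ (S ×ˢ O).filter (fun p => C j p.1 p.2), (1 / (O.card : ℝ)) =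
        (((S ×ˢ O).filter fun p => C j p.1 p.2).card : ℝ) / O.card := by
      rw [Finset.sum_const, nsmul_eq_mul, mul_one_div]
    rw [e1, e2] at h5
    exact h5

end Pool.Agent.Moser
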