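import Pool.Agent.Lib_MP_cc07e8_co.ShelfGen

/-!
# Filling a shelf by blocks (helper60, for MP_cc07e8_co)

`q` is a strictly increasing sequence of squares.  The column which starts at position `x` has
`nrows x = ⌊H q(x) - θ⌋` squares; consecutive columns with the same number of rows form a block.
-/

namespace Pool.Agent.Moser

open Finset Pool.Agent.Shelf

section

variable {H θ : ℝ} {q : ℕ → ℕ}

/-- lower bound for the gap -/
theorem tgap_ge (hq : StrictMono q) (h0 : 0 < q 0) (hH : 0 ≤ H) {s : ℕ}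
    (hK : 1 ≤ nrows H θ q s) (j : ℕ) : θ / q (cst H θ q s j) ≤ tgap H θ q s j := by
  have h1 := col_fits hq h0 (hK.trans (nrows_cst_ge hq hH s j))
  unfold tgap
  show _ ≤ H - ∑ x ∈ Ico (cst H θ q s j) (cst H θ q s j + nrows H θ q (cst H θ q s j)), 1 / (q x : ℝ)
  linarith

/-- upper bound for the gap -/
theorem tgap_le (hq : StrictMono q) (h0 : 0 < q 0) (hH : 0 ≤ H) {s : ℕ}
    (hK : 1 ≤ nrows H θ q s) (j : ℕ) : tgap H θ q s j ≤ (1 + θ) / q (cst H θ q s j) +
      nrows H θ q (cst H θ q s j) * (1 / (q (cst H θ q s j) : ℝ) -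
        1 / (q (cst H θ q s (j + 1) - 1) : ℝ)) := by
  set x := cst H θ q s j with hx
  set K := nrows H θ q x with hKd
  have hK1 : 1 ≤ K := hK.trans (nrows_cst_ge hq hH s j)
  have hxp : (0 : ℝ) < q x := q_posR hq h0 x
  have hn : cst H θ q s (j + 1) = x + K := rfl
  have h1 : H < (K + 1 + θ) / q x := by
    rw [lt_div_iff₀ hxp]
    have := lt_nrows (H := H) (θ := θ) (q := q) x
    rw [← hKd] at this
    linarith
  have h2 : (K : ℝ) * (1 / (q (x + K - 1) : ℝ)) ≤ ∑ y ∈ Ico x (x + K), 1 / (q y : ℝ) := by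
    calc (K : ℝ) * (1 / (q (x + K - 1) : ℝ))
        = ∑ y ∈ Ico x (x + K), 1 / (q (x + K - 1) : ℝ) := by
          rw [Finset.sum_const, Nat.card_Ico, nsmul_eq_mul, Nat.add_sub_cancel_left]
      _ ≤ _ := by
          apply Finset.sum_le_sum
          intro y hy
          rw [mem_Ico] at hy
          exact inv_anti hq h0 (by omega)
  unfold tgap
  rw [hn, ← hx]
  have h3 : (K + 1 + θ) / (q x : ℝ) = (1 + θ) / q x + K * (1 / (q x : ℝ)) := by
    field_simp
    ring
  rw [mul_sub]
  linarith

theorem shelf_core (hq : StrictMono q) (h0 : 0 < q 0) (hH : 0 < H) (hθ : 0 ≤ θ) {κ : ℕ} {Λ : ℝ} :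
    ∀ J : ℕ, 1 ≤ J → ∀ (s : ℕ) (w : ℝ), 1 ≤ nrows H θ q s →
      (∀ j < J, nrows H θ q (cst H θ q s j) ≤ κ) → 1 ≤ Λ * (H * nrows H θ q s) →
      q (cst H θ q s J) ≤ 2 * q s → cwid H θ q s J ≤ w →
      ∃ Sm : Multiset (ℝ × ℝ), Dec w H ((Ico s (cst H θ q s J)).val.map q)
        (ttops H θ q s J + Sm + {(w - cwid H θ q s J, H)}) ∧
        lng Sm ≤ ((κ : ℝ) + 1 - nrows H θ q s) * H +
          ((κ : ℝ) ^ 2 / 2 + Λ + 1) * (1 / (q s : ℝ) - 1 / (q (cst H θ q s J) : ℝ)) ∧
        sht Sm ≤ (κ + Λ) * (1 / (q s : ℝ) - 1 / (q (cst H θ q s J) : ℝ)) := by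
  intro J
  induction J using Nat.strong_induction_on with
  | _ J ih =>
  intro hJ s w hK hκ hΛ h2 hw
  classical
  set K := nrows H θ q s with hKd
  have hex : ∃ i, i = J ∨ nrows H θ q (cst H θ q s i) ≠ K := ⟨J, Or.inl rfl⟩
  set L := Nat.find hex with hL
  have hLJ : L ≤ J := Nat.find_min' hex (Or.inl rfl)
  have hsame : ∀ i < L, nrows H θ q (cst H θ q s i) = K := by
    intro i hi
    have := Nat.find_min hex hi
    push Not at this
    exact this.2
  have hL1 : 1 ≤ L := by
    by_contra hcon
    have hL0 : L = 0 := by omega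
    have := Nat.find_spec hex
    rw [← hL, hL0] at this
    rcases this with h | h
    · omega
    · exact h rfl
  obtain ⟨l, hl⟩ : ∃ l, L = l + 1 := ⟨L - 1, by omega⟩
  obtain ⟨k, hk⟩ : ∃ k, K = k + 1 := ⟨K - 1, by omega⟩
  have hcst : ∀ i ≤ L, cst H θ q s i = s + K * i := cst_block hsame
  have hend : s + (k + 1) * (l + 1) = cst H θ q s L := by rw [hcst L le_rfl, hk, hl]
  have hκK : K ≤ κ := hκ 0 (by omega)
  have hκR : (K : ℝ) ≤ κ := by exact_mod_cast hκK
  have hK1R : (1 : ℝ) ≤ K := by exact_mod_cast hK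
  -- number of columns of the block
  have hlΛ : (l : ℝ) ≤ Λ := by
    have h3 := hsame l (by omega)
    have h4 := lt_nrows (H := H) (θ := θ) (q := q) (cst H θ q s l)
    rw [h3, hcst l (by omega)] at h4
    have h5 : (K : ℝ) ≤ H * q s - θ := nrows_le hK
    have h6 : (q s : ℝ) + (K * l : ℕ) ≤ q (s + K * l) := by
      exact_mod_cast strict_add hq s (K * l)
    push_cast at h6
    have h7 : H * (K * l) ≤ 1 := by nlinarith
    have h8 : 0 < H * K := by positivity
    by_contra hcon
    rw [not_le] at hcon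
    nlinarith
  obtain ⟨Sb, hdec, hlng, hsht⟩ := gblock hq h0 (H := H) s k l
    (by
      rw [hend]
      exact (hq.monotone (cst_mono s hLJ)).trans h2)
    (by
      have := col_fits hq h0 hK
      rw [← hKd, hk] at this
      have h3 : 0 ≤ θ / (q s : ℝ) := by positivity
      linarith)
  rw [hend] at hdec hlng hsht
  set D := 1 / (q s : ℝ) - 1 / (q (cst H θ q s L) : ℝ) with hD
  have hD0 : 0 ≤ D := by
    have := inv_anti hq h0 (cst_ge (H := H) (θ := θ) (q := q) s L)
    linarith
  have hk1 : ((k : ℝ) + 1) = K := by rw [hk]; push_cast; ring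
  have hlng' : lng Sb ≤ H + ((κ : ℝ) ^ 2 / 2 + Λ + 1) * D := by
    refine hlng.trans ?_
    have h3 : (1 + (l : ℝ) + k * (k + 1) / 2) ≤ (κ : ℝ) ^ 2 / 2 + Λ + 1 := by
      have h4 : (k : ℝ) * (k + 1) ≤ (κ : ℝ) ^ 2 := by
        have hk0 : (0 : ℝ) ≤ k := Nat.cast_nonneg k
        nlinarith
      linarith
    have := mul_le_mul_of_nonneg_right h3 hD0
    linarith
  have hsht' : sht Sb ≤ (κ + Λ) * D := by
    refine hsht.trans ?_
    apply mul_le_mul_of_nonneg_right _ hD0
    linarith
  have hW : ∑ i ∈ range (l + 1), 1 / (q (s + (k + 1) * i) : ℝ) = cwid H θ q s L := by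
    unfold cwid
    rw [← hl]
    apply Finset.sum_congr rfl
    intro i hi
    rw [hcst i (mem_range.1 hi).le, hk]
  have hT : ∑ i ∈ range (l + 1), ({(1 / (q (s + (k + 1) * i + k) : ℝ),
      H - ∑ x ∈ Ico (s + (k + 1) * i) (s + (k + 1) * i + (k + 1)), 1 / (q x : ℝ))} :
        Multiset (ℝ × ℝ)) = ttops H θ q s L := by
    unfold ttops tgap
    rw [← hl]
    apply Finset.sum_congr rfl
    intro i hi
    have hi' := mem_range.1 hi
    have e1 : cst H θ q s (i + 1) - 1 = s + (k + 1) * i + k := by
      rw [hcst (i + 1) hi', hk]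
      have : s + (k + 1) * (i + 1) = s + (k + 1) * i + k + 1 := by ring
      rw [this, Nat.add_sub_cancel]
    have e2 : cst H θ q s (i + 1) = s + (k + 1) * i + (k + 1) := by
      rw [hcst (i + 1) hi', hk]
      ring
    have e3 : cst H θ q s i = s + (k + 1) * i := by rw [hcst i hi'.le, hk]
    rw [e1, e2, e3]
  rw [hW, hT] at hdec
  rcases Nat.lt_or_ge L J with hLt | hGe
  · -- there is a next block
    obtain ⟨J', hJ'⟩ : ∃ J', J = L + J' := ⟨J - L, by omega⟩
    have hJ1 : 1 ≤ J' := by omega
    set s' := cst H θ q s L with hs'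
    have hcst' : ∀ j, cst H θ q s' j = cst H θ q s (L + j) := fun j => (cst_add s L j).symm
    have hK' : K + 1 ≤ nrows H θ q s' := by
      have h3 : K ≤ nrows H θ q s' := nrows_cst_ge hq hH.le s L
      have h4 := Nat.find_spec hex
      rw [← hL, ← hs'] at h4
      rcases h4 with h4 | h4
      · omega
      · omega
    have hK'R : (K : ℝ) + 1 ≤ nrows H θ q s' := by exact_mod_cast hK'
    have hΛ0 : 0 < Λ := by
      by_contra hcon
      rw [not_lt] at hcon
      have : 0 ≤ H * (K : ℝ) := by positivity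
      nlinarith
    obtain ⟨Sc, hdec2, hlng2, hsht2⟩ := ih J' (by omega) hJ1 s' (w - cwid H θ q s L)
      (by omega)
      (by
        intro j hj
        rw [hcst' j]
        exact hκ (L + j) (by omega))
      (by
        refine hΛ.trans ?_
        apply mul_le_mul_of_nonneg_left _ hΛ0.le
        apply mul_le_mul_of_nonneg_left _ hH.le
        linarith)
      (by
        rw [hcst' J', ← hJ']
        refine h2.trans ?_
        have : q s ≤ q s' := hq.monotone (cst_ge s L)
        omega)
      (by
        have : cwid H θ q s J = cwid H θ q s L + cwid H θ q s' J' := by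
          unfold cwid
          rw [hJ', Finset.sum_range_add]
          congr 1
          apply Finset.sum_congr rfl
          intro j _
          rw [hcst' j]
        rw [this] at hw
        linarith)
    have hcw : cwid H θ q s J = cwid H θ q s L + cwid H θ q s' J' := by
      unfold cwid
      rw [hJ', Finset.sum_range_add]
      congr 1
      apply Finset.sum_congr rfl
      intro j _
      rw [hcst' j]
    have htt : ttops H θ q s J = ttops H θ q s L + ttops H θ q s' J' := by
      unfold ttops tgap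
      rw [hJ', Finset.sum_range_add]
      congr 1
      apply Finset.sum_congr rfl
      intro j _
      rw [hcst' j, hcst' (j + 1), ← Nat.add_assoc]
    have hd := hdec.beside hdec2
    refine ⟨Sb + Sc, ?_, ?_, ?_⟩
    · have e1 : cwid H θ q s L + (w - cwid H θ q s L) = w := by ring
      rw [e1] at hd
      have e2 : (Ico s s').val.map q + (Ico s' (cst H θ q s' J')).val.map q =
          (Ico s (cst H θ q s J)).val.map q := by
        rw [hcst' J', ← hJ', ← Multiset.map_add]
        congr 1
        have h5 : s ≤ s' := cst_ge s L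
        have h6 : s' ≤ cst H θ q s J := cst_mono s hLJ
        rw [← Finset.Ico_union_Ico_eq_Ico h5 h6, ← Finset.disjUnion_eq_union _ _
          (Finset.Ico_disjoint_Ico_consecutive s s' (cst H θ q s J))]
        rfl
      rw [e2] at hd
      have e3 : ttops H θ q s L + Sb + (ttops H θ q s' J' + Sc +
          {(w - cwid H θ q s L - cwid H θ q s' J', H)}) =
          ttops H θ q s J + (Sb + Sc) + {(w - cwid H θ q s J, H)} := by
        have e4 : w - cwid H θ q s L - cwid H θ q s' J' = w - cwid H θ q s J := by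
          rw [hcw]; ring
        rw [e4, htt, ← add_assoc]
        congr 1
        exact add_add_add_comm _ _ _ _
      rw [e3] at hd
      exact hd
    · rw [lng_add]
      rw [hcst' J', ← hJ'] at hlng2
      have e5 : 1 / (q s : ℝ) - 1 / (q (cst H θ q s J) : ℝ) =
          D + (1 / (q s' : ℝ) - 1 / (q (cst H θ q s J) : ℝ)) := by
        rw [hD]; ring
      rw [e5, mul_add]
      have h7 : ((κ : ℝ) + 1 - nrows H θ q s') * H ≤ ((κ : ℝ) - K) * H := by
        apply mul_le_mul_of_nonneg_right _ hH.le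
        linarith
      linarith
    · rw [sht_add]
      rw [hcst' J', ← hJ'] at hsht2
      have e5 : 1 / (q s : ℝ) - 1 / (q (cst H θ q s J) : ℝ) =
          D + (1 / (q s' : ℝ) - 1 / (q (cst H θ q s J) : ℝ)) := by
        rw [hD]; ring
      rw [e5, mul_add]
      linarith
  · -- the last block
    have hLeq : L = J := le_antisymm hLJ hGe
    rw [hLeq] at hdec hD
    have hleaf : Dec (w - cwid H θ q s J) H 0 {(w - cwid H θ q s J, H)} :=
      Dec.leaf (by linarith) hH.le
    have hd := hdec.beside hleaf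
    refine ⟨Sb, ?_, ?_, ?_⟩
    · have e1 : cwid H θ q s J + (w - cwid H θ q s J) = w := by ring
      rw [e1, add_zero] at hd
      exact hd
    · rw [← hD]
      have h7 : H ≤ ((κ : ℝ) + 1 - K) * H := by
        have : 0 ≤ ((κ : ℝ) - K) * H := mul_nonneg (by linarith) hH.le
        linarith
      linarith
    · rw [← hD]
      exact hsht'

end

end Pool.Agent.Moser
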