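import Pool.Agent.Lib_MP_cc07e8_co.ShelfLen
import Pool.Agent.Lib_MP_cc07e8_co.ShelfBase

/-!
# Blocks of an arbitrary strictly increasing sequence of squares (helper60, for MP_cc07e8_co)

The block which starts at position `s` has `k + 1` rows and `l + 1` columns; the square in row `r`, column `i`
is `q (s + (k + 1) i + r)`.
-/

namespace Pool.Agent.Moser

open Finset Pool.Agent.Shelf

/-- side of the square in row `r`, column `i` of the block which starts at position `s` -/
noncomputable def gs (q : ℕ → ℕ) (s k r i : ℕ) : ℝ := 1 / (q (s + (k + 1) * i + r) : ℝ)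

section

variable {q : ℕ → ℕ}

theorem good_gs (hq : StrictMono q) (h0 : 0 < q 0) (s k : ℕ) : Good (gs q s k) := by
  refine ⟨fun r i => ?_, fun r i => ?_, fun r i => ?_⟩
  · unfold gs; positivity
  · exact inv_anti hq h0 (by omega)
  · exact inv_anti hq h0 (by nlinarith)

theorem gs_nonneg (q : ℕ → ℕ) (s k r i : ℕ) : 0 ≤ gs q s k r i := by
  unfold gs; positivity

/-- the next column is smaller -/
theorem gs_next (hq : StrictMono q) (h0 : 0 < q 0) (s : ℕ) {k r : ℕ} (hr : r ≤ k) (i : ℕ) :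
    gs q s k 0 (i + 1) ≤ gs q s k r i := by
  apply inv_anti hq h0
  rw [Nat.mul_succ]
  omega

/-- shift of the rows -/
theorem gX_shift (hq : StrictMono q) (h0 : 0 < q 0) (W : ℝ) (s : ℕ) {k r : ℕ} (hr : r ≤ k)
    (l i : ℕ) :
    X W l (gs q s k) r i - X W l (gs q s k) 0 i ≤ gs q s k 0 0 - gs q s k 0 (l + 1) := by
  unfold X
  have h1 : ∑ j ∈ Ico i (l + 1), gs q s k 0 j - ∑ j ∈ Ico i (l + 1), gs q s k r j ≤
      ∑ j ∈ Ico i (l + 1), (gs q s k 0 j - gs q s k 0 (j + 1)) := by
    rw [← Finset.sum_sub_distrib]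
    apply Finset.sum_le_sum
    intro j _
    have := gs_next hq h0 s hr j
    linarith
  have h2 : ∑ j ∈ Ico i (l + 1), (gs q s k 0 j - gs q s k 0 (j + 1)) ≤
      ∑ j ∈ range (l + 1), (gs q s k 0 j - gs q s k 0 (j + 1)) := by
    apply Finset.sum_le_sum_of_subset_of_nonneg
    · intro j hj
      rw [mem_Ico] at hj
      exact mem_range.2 hj.2
    · intro j _ _
      have := gs_next hq h0 s (Nat.zero_le k) j
      linarith
  rw [Finset.sum_range_sub'] at h2
  linarith

theorem gX_nonneg (hq : StrictMono q) (h0 : 0 < q 0) (W : ℝ) (s k r l i : ℕ) :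
    0 ≤ X W l (gs q s k) r i - X W l (gs q s k) 0 i := by
  have := X_row (W := W) (l := l) (good_gs hq h0 s k) i (Nat.zero_le r)
  linarith

/-- height of the columns -/
theorem gY_drop (hq : StrictMono q) (h0 : 0 < q 0) (s : ℕ) {k r : ℕ} (hr : r ≤ k + 1) (l : ℕ) :
    Y (gs q s k) r 0 - Y (gs q s k) r l ≤ r * (gs q s k 0 0 - gs q s k 0 (l + 1)) := by
  unfold Y
  rw [← Finset.sum_sub_distrib]
  calc ∑ t ∈ range r, (gs q s k t 0 - gs q s k t l)
      ≤ ∑ t ∈ range r, (gs q s k 0 0 - gs q s k 0 (l + 1)) := by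
        apply Finset.sum_le_sum
        intro t ht
        have ht' := mem_range.1 ht
        have h1 := gs_next hq h0 s (show t ≤ k by omega) l
        have h2 : gs q s k t 0 ≤ gs q s k 0 0 := inv_anti hq h0 (by omega)
        linarith
    _ = _ := by rw [Finset.sum_const, Finset.card_range, nsmul_eq_mul]

/-- total width of the pockets -/
theorem gpockets_w (hq : StrictMono q) (h0 : 0 < q 0) (W : ℝ) (s k l : ℕ) :
    ∑ r ∈ range k, ∑ i ∈ range l,
      (X W l (gs q s k) (r + 1) (i + 1) - X W l (gs q s k) r (i + 1)) ≤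
      l * (gs q s k 0 0 - gs q s k 0 (l + 1)) := by
  rw [Finset.sum_comm]
  calc ∑ i ∈ range l, ∑ r ∈ range k,
        (X W l (gs q s k) (r + 1) (i + 1) - X W l (gs q s k) r (i + 1))
      ≤ ∑ i ∈ range l, (gs q s k 0 0 - gs q s k 0 (l + 1)) := by
        apply Finset.sum_le_sum
        intro i _
        rw [Finset.sum_range_sub (fun r => X W l (gs q s k) r (i + 1))]
        exact gX_shift hq h0 W s le_rfl l (i + 1)
    _ = _ := by rw [Finset.sum_const, Finset.card_range, nsmul_eq_mul]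

/-- total height of the pockets -/
theorem gpockets_h (hq : StrictMono q) (h0 : 0 < q 0) (s k l : ℕ) :
    ∑ r ∈ range k, ∑ i ∈ range l,
      (Y (gs q s k) (r + 1) i - Y (gs q s k) (r + 1) (i + 1)) ≤
      k * (k + 1) / 2 * (gs q s k 0 0 - gs q s k 0 (l + 1)) := by
  calc ∑ r ∈ range k, ∑ i ∈ range l,
        (Y (gs q s k) (r + 1) i - Y (gs q s k) (r + 1) (i + 1))
      ≤ ∑ r ∈ range k, ((r + 1 : ℕ) : ℝ) * (gs q s k 0 0 - gs q s k 0 (l + 1)) := by
        apply Finset.sum_le_sum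
        intro r hr
        rw [Finset.sum_range_sub']
        have := mem_range.1 hr
        exact gY_drop hq h0 s (by omega) l
    _ = _ := by
        rw [← Finset.sum_mul]
        congr 1
        have e : ∀ t : ℕ, ∑ r ∈ range t, ((r + 1 : ℕ) : ℝ) = t * (t + 1) / 2 := by
          intro t
          induction t with
          | zero => simp
          | succ t ih =>
            rw [Finset.sum_range_succ, ih]
            push_cast
            ring
        exact e k

theorem gdrop_nonneg (hq : StrictMono q) (h0 : 0 < q 0) (s k l : ℕ) :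
    0 ≤ gs q s k 0 0 - gs q s k 0 (l + 1) := by
  have : gs q s k 0 (l + 1) ≤ gs q s k 0 0 := inv_anti hq h0 (by nlinarith)
  linarith

theorem gpockets_lng (hq : StrictMono q) (h0 : 0 < q 0) (W : ℝ) (s k l : ℕ) :
    lng (pockets W k l (gs q s k)) ≤
      (l + k * (k + 1) / 2) * (gs q s k 0 0 - gs q s k 0 (l + 1)) := by
  unfold lng
  rw [msum_pockets]
  have h1 := gpockets_w hq h0 W s k l
  have h2 := gpockets_h hq h0 s k l
  have h3 : ∑ r ∈ range k, ∑ i ∈ range l,
      max (X W l (gs q s k) (r + 1) (i + 1) - X W l (gs q s k) r (i + 1))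
        (Y (gs q s k) (r + 1) i - Y (gs q s k) (r + 1) (i + 1)) ≤
      ∑ r ∈ range k, ∑ i ∈ range l,
      ((X W l (gs q s k) (r + 1) (i + 1) - X W l (gs q s k) r (i + 1)) +
        (Y (gs q s k) (r + 1) i - Y (gs q s k) (r + 1) (i + 1))) := by
    apply Finset.sum_le_sum
    intro r _
    apply Finset.sum_le_sum
    intro i _
    apply max_le_add_of_nonneg
    · have := X_row (W := W) (l := l) (good_gs hq h0 s k) (i + 1) (Nat.le_succ r)
      rw [Nat.succ_eq_add_one] at this
      linarith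
    · have := Y_col (good_gs hq h0 s k) (r + 1) (Nat.le_succ i)
      rw [Nat.succ_eq_add_one] at this
      linarith
  simp only [Finset.sum_add_distrib] at h3
  calc _ ≤ _ := h3
    _ ≤ _ := by
      rw [add_mul]
      exact add_le_add h1 h2

theorem gpockets_sht (hq : StrictMono q) (h0 : 0 < q 0) (W : ℝ) (s k l : ℕ) :
    sht (pockets W k l (gs q s k)) ≤ l * (gs q s k 0 0 - gs q s k 0 (l + 1)) := by
  unfold sht
  rw [msum_pockets]
  refine le_trans ?_ (gpockets_w hq h0 W s k l)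
  apply Finset.sum_le_sum
  intro r _
  apply Finset.sum_le_sum
  intro i _
  exact min_le_left _ _

theorem gX_zero (q : ℕ → ℕ) (s k l : ℕ) :
    X (∑ i ∈ range (l + 1), gs q s k 0 i) l (gs q s k) 0 0 = 0 := by
  unfold X
  rw [← Finset.range_eq_Ico]
  ring

theorem gX_le (hq : StrictMono q) (h0 : 0 < q 0) (s : ℕ) {k r : ℕ} (hr : r ≤ k) (l : ℕ) :
    X (∑ i ∈ range (l + 1), gs q s k 0 i) l (gs q s k) r 0 ≤
      gs q s k 0 0 - gs q s k 0 (l + 1) := by
  have h1 := gX_shift hq h0 (∑ i ∈ range (l + 1), gs q s k 0 i) s hr l 0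
  rw [gX_zero] at h1
  linarith

/-- left gaps and corner: long sides -/
theorem gleft_lng (hq : StrictMono q) (h0 : 0 < q 0) {H : ℝ} (s k l : ℕ)
    (h2 : q (s + (k + 1) * (l + 1)) ≤ 2 * q s) (hH : Y (gs q s k) (k + 1) 0 ≤ H) :
    lng (lefts (∑ i ∈ range (l + 1), gs q s k 0 i) k l (gs q s k) +
      corner (∑ i ∈ range (l + 1), gs q s k 0 i) H k l (gs q s k)) ≤
      H + (gs q s k 0 0 - gs q s k 0 (l + 1)) := by
  set W := ∑ i ∈ range (l + 1), gs q s k 0 i with hW
  set D := gs q s k 0 0 - gs q s k 0 (l + 1) with hD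
  have hD0 : 0 ≤ D := gdrop_nonneg hq h0 s k l
  rw [lng_add]
  unfold lng
  rw [msum_lefts, msum_corner]
  have hDle : D ≤ gs q s k 0 (l + 1) := by
    have e1 : gs q s k 0 0 = 1 / (q s : ℝ) := by simp [gs]
    have e2 : gs q s k 0 (l + 1) = 1 / (q (s + (k + 1) * (l + 1)) : ℝ) := by simp [gs]
    have h3 : (0 : ℝ) < q s := q_posR hq h0 s
    have h4 : (0 : ℝ) < q (s + (k + 1) * (l + 1)) := q_posR hq h0 _
    have h5 : (q (s + (k + 1) * (l + 1)) : ℝ) ≤ 2 * q s := by exact_mod_cast h2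
    have h6 : 1 / (2 * (q s : ℝ)) ≤ gs q s k 0 (l + 1) := by
      rw [e2]
      exact one_div_le_one_div_of_le h4 h5
    have h7 : gs q s k 0 0 = 2 * (1 / (2 * (q s : ℝ))) := by
      rw [e1]
      field_simp
    rw [hD]
    linarith
  have hrow : ∀ r ∈ range (k + 1), max (X W l (gs q s k) r 0) (gs q s k r 0) = gs q s k r 0 := by
    intro r hr
    apply max_eq_right
    have hr' := mem_range.1 hr
    have h3 := gX_le hq h0 s (show r ≤ k by omega) l
    have h4 : gs q s k 0 (l + 1) ≤ gs q s k r 0 := by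
      apply inv_anti hq h0
      rw [Nat.mul_succ]
      nlinarith
    linarith
  rw [Finset.sum_congr rfl hrow]
  have h5 : ∑ r ∈ range (k + 1), gs q s k r 0 = Y (gs q s k) (k + 1) 0 := rfl
  rw [h5]
  have h6 : max (X W l (gs q s k) k 0) (H - Y (gs q s k) (k + 1) 0) ≤
      D + (H - Y (gs q s k) (k + 1) 0) := by
    apply max_le
    · have := gX_le hq h0 s (le_refl k) l
      linarith
    · linarith
  show Y (gs q s k) (k + 1) 0 + max (X W l (gs q s k) k 0) (H - Y (gs q s k) (k + 1) 0) ≤ H + D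
  linarith

/-- left gaps and corner: short sides -/
theorem gleft_sht (hq : StrictMono q) (h0 : 0 < q 0) {H : ℝ} (s k l : ℕ) :
    sht (lefts (∑ i ∈ range (l + 1), gs q s k 0 i) k l (gs q s k) +
      corner (∑ i ∈ range (l + 1), gs q s k 0 i) H k l (gs q s k)) ≤
      (k + 1) * (gs q s k 0 0 - gs q s k 0 (l + 1)) := by
  set W := ∑ i ∈ range (l + 1), gs q s k 0 i with hW
  set D := gs q s k 0 0 - gs q s k 0 (l + 1) with hD
  have hD0 : 0 ≤ D := gdrop_nonneg hq h0 s k l
  rw [sht_add]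
  unfold sht
  rw [msum_lefts, msum_corner, Finset.sum_range_succ']
  have h1 : ∑ r ∈ range k, min (X W l (gs q s k) (r + 1) 0) (gs q s k (r + 1) 0) ≤
      ∑ r ∈ range k, D := by
    apply Finset.sum_le_sum
    intro r hr
    have hr' := mem_range.1 hr
    exact (min_le_left _ _).trans (gX_le hq h0 s (show r + 1 ≤ k by omega) l)
  rw [Finset.sum_const, Finset.card_range, nsmul_eq_mul] at h1
  have h2 : min (X W l (gs q s k) 0 0) (gs q s k 0 0) ≤ 0 := by
    refine (min_le_left _ _).trans ?_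
    rw [hW, gX_zero]
  have h3 : min (X W l (gs q s k) k 0) (H - Y (gs q s k) (k + 1) 0) ≤ D :=
    (min_le_left _ _).trans (gX_le hq h0 s (le_refl k) l)
  show (∑ r ∈ range k, min (X W l (gs q s k) (r + 1) 0) (gs q s k (r + 1) 0) +
    min (X W l (gs q s k) 0 0) (gs q s k 0 0)) +
    min (X W l (gs q s k) k 0) (H - Y (gs q s k) (k + 1) 0) ≤ (k + 1) * D
  linarith

/-- **Block of an arbitrary strictly increasing sequence of squares.** -/
theorem gblock (hq : StrictMono q) (h0 : 0 < q 0) {H : ℝ} (s k l : ℕ)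
    (h2 : q (s + (k + 1) * (l + 1)) ≤ 2 * q s)
    (hH : ∑ x ∈ Ico s (s + (k + 1)), 1 / (q x : ℝ) ≤ H) :
    ∃ Sm : Multiset (ℝ × ℝ),
      Dec (∑ i ∈ range (l + 1), 1 / (q (s + (k + 1) * i) : ℝ)) H
        ((Ico s (s + (k + 1) * (l + 1))).val.map q)
        (∑ i ∈ range (l + 1), {(1 / (q (s + (k + 1) * i + k) : ℝ),
          H - ∑ x ∈ Ico (s + (k + 1) * i) (s + (k + 1) * i + (k + 1)), 1 / (q x : ℝ))} + Sm) ∧
      lng Sm ≤ H + (1 + l + k * (k + 1) / 2) *
        (1 / (q s : ℝ) - 1 / (q (s + (k + 1) * (l + 1)) : ℝ)) ∧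
      sht Sm ≤ (k + 1 + l) * (1 / (q s : ℝ) - 1 / (q (s + (k + 1) * (l + 1)) : ℝ)) := by
  have hsum : ∀ i, ∑ x ∈ Ico (s + (k + 1) * i) (s + (k + 1) * i + (k + 1)), 1 / (q x : ℝ) =
      Y (gs q s k) (k + 1) i := by
    intro i
    rw [Finset.sum_Ico_eq_sum_range]
    unfold Y gs
    rw [Nat.add_sub_cancel_left]
  have hY0 : Y (gs q s k) (k + 1) 0 ≤ H := by
    rw [← hsum 0, Nat.mul_zero, Nat.add_zero]
    exact hH
  have hD : gs q s k 0 0 - gs q s k 0 (l + 1) =
      1 / (q s : ℝ) - 1 / (q (s + (k + 1) * (l + 1)) : ℝ) := by simp [gs]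
  have hdec := shelf_dec (W := ∑ i ∈ range (l + 1), gs q s k 0 i) (H := H) (k := k) (l := l)
    (m := fun r i => q (s + (k + 1) * i + r)) (fun r i => q_pos hq h0 _)
    (fun r i => hq.monotone (by omega)) (fun r i => hq.monotone (by nlinarith)) le_rfl hY0
  refine ⟨pockets (∑ i ∈ range (l + 1), gs q s k 0 i) k l (gs q s k) +
    (lefts (∑ i ∈ range (l + 1), gs q s k 0 i) k l (gs q s k) +
      corner (∑ i ∈ range (l + 1), gs q s k 0 i) H k l (gs q s k)), ?_, ?_, ?_⟩
  · have e1 : ∑ r ∈ range (k + 1), ∑ i ∈ range (l + 1), ({q (s + (k + 1) * i + r)} : Multiset ℕ) =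
        (Ico s (s + (k + 1) * (l + 1))).val.map q := by
      rw [Finset.sum_comm, sum_blocks (fun x => ({q x} : Multiset ℕ)) s (k + 1) (l + 1),
        Finset.sum_eq_multiset_sum]
      have : (Ico s (s + (k + 1) * (l + 1))).val.map (fun x => ({q x} : Multiset ℕ)) =
          ((Ico s (s + (k + 1) * (l + 1))).val.map q).map (fun x => ({x} : Multiset ℕ)) := by
        rw [Multiset.map_map]
        rfl
      rw [this, Multiset.sum_map_singleton]
    have e2 : tops H k l (gs q s k) = ∑ i ∈ range (l + 1), {(1 / (q (s + (k + 1) * i + k) : ℝ),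
          H - ∑ x ∈ Ico (s + (k + 1) * i) (s + (k + 1) * i + (k + 1)), 1 / (q x : ℝ))} := by
      unfold tops
      apply Finset.sum_congr rfl
      intro i _
      rw [hsum i]
      rfl
    have e3 : ∑ i ∈ range (l + 1), 1 / (q (s + (k + 1) * i) : ℝ) =
        ∑ i ∈ range (l + 1), gs q s k 0 i := rfl
    rw [e1] at hdec
    rw [← e2, e3]
    have e4 : tops H k l (gs q s k) +
        (pockets (∑ i ∈ range (l + 1), gs q s k 0 i) k l (gs q s k) +
        (lefts (∑ i ∈ range (l + 1), gs q s k 0 i) k l (gs q s k) +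
        corner (∑ i ∈ range (l + 1), gs q s k 0 i) H k l (gs q s k))) =
        pockets (∑ i ∈ range (l + 1), gs q s k 0 i) k l (gs q s k) +
        (lefts (∑ i ∈ range (l + 1), gs q s k 0 i) k l (gs q s k) +
        (tops H k l (gs q s k) +
        corner (∑ i ∈ range (l + 1), gs q s k 0 i) H k l (gs q s k))) := by
      rw [add_left_comm, add_left_comm (tops H k l (gs q s k)) (lefts _ k l (gs q s k))]
    rw [e4]
    exact hdec
  · rw [lng_add, ← hD]
    have h3 := gpockets_lng hq h0 (∑ i ∈ range (l + 1), gs q s k 0 i) s k l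
    have h4 := gleft_lng hq h0 s k l h2 hY0
    nlinarith
  · rw [sht_add, ← hD]
    have h3 := gpockets_sht hq h0 (∑ i ∈ range (l + 1), gs q s k 0 i) s k l
    have h4 := gleft_sht hq h0 (H := H) s k l
    nlinarith

end

end Pool.Agent.Moser
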