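import Pool.Agent.Lib_MP_cc07e8_co.ShelfDec
import Pool.Agent.Lib_MP_cc07e8_co.Msum

/-!
# Length bounds for the shelf of consecutive squares (helper60, for MP_cc07e8_co)

Columns of `K = k + 1` consecutive squares: the square in row `r`, column `i` has side
`1 / (n + K * i + r)`, `r ≤ k`, `i ≤ l`.
-/

namespace Pool.Agent.Moser

open Finset Pool.Agent.Shelf

/-- the index of the square in row `r`, column `i` -/
def cidx (n k r i : ℕ) : ℕ := n + (k + 1) * i + r

/-- its side -/
noncomputable def cside (n k r i : ℕ) : ℝ := 1 / (cidx n k r i : ℝ)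

theorem msum_pockets (f : ℝ × ℝ → ℝ) (W : ℝ) (k l : ℕ) (a : ℕ → ℕ → ℝ) :
    msum f (pockets W k l a) = ∑ r ∈ range k, ∑ i ∈ range l,
      f (X W l a (r + 1) (i + 1) - X W l a r (i + 1), Y a (r + 1) i - Y a (r + 1) (i + 1)) := by
  simp only [pockets, msum_sum, msum_singleton]

theorem msum_lefts (f : ℝ × ℝ → ℝ) (W : ℝ) (k l : ℕ) (a : ℕ → ℕ → ℝ) :
    msum f (lefts W k l a) = ∑ r ∈ range (k + 1), f (X W l a r 0, a r 0) := by
  simp only [lefts, msum_sum, msum_singleton]

theorem msum_tops (f : ℝ × ℝ → ℝ) (H : ℝ) (k l : ℕ) (a : ℕ → ℕ → ℝ) :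
    msum f (tops H k l a) = ∑ i ∈ range (l + 1), f (a k i, H - Y a (k + 1) i) := by
  simp only [tops, msum_sum, msum_singleton]

theorem msum_corner (f : ℝ × ℝ → ℝ) (W H : ℝ) (k l : ℕ) (a : ℕ → ℕ → ℝ) :
    msum f (corner W H k l a) = f (X W l a k 0, H - Y a (k + 1) 0) := by
  simp only [corner, msum_singleton]

/-! ### the sides -/

theorem cidx_pos {n : ℕ} (hn : 0 < n) (k r i : ℕ) : 0 < cidx n k r i := by
  unfold cidx; omega

theorem cidx_ge (n k r i : ℕ) : n ≤ cidx n k r i := by
  unfold cidx; omega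

/-- decrease of the side in the row direction -/
theorem cside_row {n : ℕ} (hn : 0 < n) (k r i : ℕ) :
    cside n k r i - cside n k (r + 1) i ≤ 1 / (n : ℝ) ^ 2 := by
  have h1 : (0 : ℝ) < n := by exact_mod_cast hn
  have h2 : (n : ℝ) ≤ cidx n k r i := by exact_mod_cast cidx_ge n k r i
  have h3 : ((cidx n k (r + 1) i : ℕ) : ℝ) = cidx n k r i + 1 := by
    have : cidx n k (r + 1) i = cidx n k r i + 1 := by unfold cidx; ring
    rw [this]; push_cast; ring
  unfold cside
  rw [h3]
  have hc : (0 : ℝ) < cidx n k r i := lt_of_lt_of_le h1 h2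
  have e : 1 / (cidx n k r i : ℝ) - 1 / (cidx n k r i + 1 : ℝ) =
      1 / ((cidx n k r i : ℝ) * (cidx n k r i + 1)) := by
    field_simp
    ring
  rw [e]
  apply one_div_le_one_div_of_le (by positivity)
  nlinarith

theorem cside_anti {n : ℕ} (hn : 0 < n) {k r i k' r' i' : ℕ} (h : cidx n k r i ≤ cidx n k' r' i') :
    cside n k' r' i' ≤ cside n k r i := by
  have h1 : (0 : ℝ) < cidx n k r i := by exact_mod_cast cidx_pos hn k r i
  exact one_div_le_one_div_of_le h1 (by exact_mod_cast h)

/-- total decrease of the side in the column direction -/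
theorem cside_col {n : ℕ} (hn : 0 < n) (k r i : ℕ) :
    cside n k r 0 - cside n k r i ≤ ((k + 1) * i : ℕ) / (n : ℝ) ^ 2 := by
  have h1 : (0 : ℝ) < n := by exact_mod_cast hn
  have h2 : (n : ℝ) ≤ cidx n k r 0 := by exact_mod_cast cidx_ge n k r 0
  have h3 : ((cidx n k r i : ℕ) : ℝ) = cidx n k r 0 + ((k + 1) * i : ℕ) := by
    have : cidx n k r i = cidx n k r 0 + (k + 1) * i := by unfold cidx; ring
    rw [this]; push_cast; ring
  unfold cside
  rw [h3]
  set c : ℝ := (cidx n k r 0 : ℝ)
  set t : ℝ := (((k + 1) * i : ℕ) : ℝ) with ht_def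
  have ht : 0 ≤ t := by positivity
  have hc : (0 : ℝ) < c := lt_of_lt_of_le h1 h2
  have e : 1 / c - 1 / (c + t) = t / (c * (c + t)) := by
    field_simp
    ring
  rw [e]
  apply div_le_div_of_nonneg_left ht (by positivity)
  nlinarith

theorem good_cside {n : ℕ} (hn : 0 < n) (k : ℕ) : Good (cside n k) := by
  refine ⟨fun r i => ?_, fun r i => ?_, fun r i => ?_⟩
  · unfold cside; positivity
  · apply cside_anti hn; unfold cidx; omega
  · apply cside_anti hn; unfold cidx; nlinarith

theorem cside_le {n : ℕ} (hn : 0 < n) (k r i : ℕ) : cside n k r i ≤ 1 / (n : ℝ) := by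
  have h1 : (0 : ℝ) < n := by exact_mod_cast hn
  exact one_div_le_one_div_of_le h1 (by exact_mod_cast cidx_ge n k r i)

/-! ### bounds for the gaps -/

/-- shift of the rows -/
theorem X_shift {n : ℕ} (hn : 0 < n) (W : ℝ) (k l r i : ℕ) :
    X W l (cside n k) (r + 1) i - X W l (cside n k) r i ≤ ((l + 1 - i : ℕ) : ℝ) / (n : ℝ) ^ 2 := by
  unfold X
  have : ∑ j ∈ Ico i (l + 1), cside n k r j - ∑ j ∈ Ico i (l + 1), cside n k (r + 1) j ≤
      ∑ j ∈ Ico i (l + 1), 1 / (n : ℝ) ^ 2 := by
    rw [← Finset.sum_sub_distrib]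
    exact Finset.sum_le_sum fun j _ => cside_row hn k r j
  rw [Finset.sum_const, Nat.card_Ico, nsmul_eq_mul, mul_one_div] at this
  linarith

/-- left end of row `r` -/
theorem X_left {n : ℕ} (hn : 0 < n) (W : ℝ) (k l r : ℕ) :
    X W l (cside n k) r 0 ≤ X W l (cside n k) 0 0 + r * (l + 1) / (n : ℝ) ^ 2 := by
  induction r with
  | zero => simp
  | succ r ih =>
    have h := X_shift hn W k l r 0
    have e : ((l + 1 - 0 : ℕ) : ℝ) = (l : ℝ) + 1 := by push_cast; ring
    rw [e] at h
    have e2 : ((r + 1 : ℕ) : ℝ) * (l + 1) / (n : ℝ) ^ 2 =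
        r * (l + 1) / (n : ℝ) ^ 2 + (l + 1) / (n : ℝ) ^ 2 := by
      push_cast; ring
    rw [e2]
    linarith

/-- height of column `i` -/
theorem Y_drop {n : ℕ} (hn : 0 < n) (k r i : ℕ) :
    Y (cside n k) r 0 - Y (cside n k) r i ≤ r * ((k + 1) * i) / (n : ℝ) ^ 2 := by
  unfold Y
  rw [← Finset.sum_sub_distrib]
  calc ∑ s ∈ range r, (cside n k s 0 - cside n k s i)
      ≤ ∑ s ∈ range r, (((k + 1) * i : ℕ) : ℝ) / (n : ℝ) ^ 2 :=
        Finset.sum_le_sum fun s _ => cside_col hn k s i
    _ = r * ((k + 1) * i) / (n : ℝ) ^ 2 := by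
        rw [Finset.sum_const, Finset.card_range, nsmul_eq_mul]
        push_cast
        ring

/-- The total half perimeter of the pockets. -/
theorem pockets_len {n : ℕ} (hn : 0 < n) (W : ℝ) (k l : ℕ) :
    msum (fun r => r.1 + r.2) (pockets W k l (cside n k)) ≤
      (k * (l * (l + 1)) + (k + 1) * l * (k * (k + 1))) / (2 * (n : ℝ) ^ 2) := by
  rw [msum_pockets]
  have h1 : (0 : ℝ) < n := by exact_mod_cast hn
  have hsplit : ∀ r ∈ range k, ∑ i ∈ range l,
      ((X W l (cside n k) (r + 1) (i + 1) - X W l (cside n k) r (i + 1)) +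
        (Y (cside n k) (r + 1) i - Y (cside n k) (r + 1) (i + 1))) ≤
      (l * (l + 1)) / (2 * (n : ℝ) ^ 2) + (r + 1 : ℕ) * ((k + 1) * l) / (n : ℝ) ^ 2 := by
    intro r _
    rw [Finset.sum_add_distrib]
    apply add_le_add
    · calc ∑ i ∈ range l, (X W l (cside n k) (r + 1) (i + 1) - X W l (cside n k) r (i + 1))
          ≤ ∑ i ∈ range l, ((l : ℝ) - i) / (n : ℝ) ^ 2 := by
            apply Finset.sum_le_sum
            intro i hi
            have h := X_shift hn W k l r (i + 1)
            have hil := mem_range.mp hi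
            have e : ((l + 1 - (i + 1) : ℕ) : ℝ) = (l : ℝ) - i := by
              rw [Nat.add_sub_add_right, Nat.cast_sub hil.le]
            rw [e] at h
            exact h
        _ = (l * (l + 1)) / (2 * (n : ℝ) ^ 2) := by
            rw [← Finset.sum_div]
            have e : ∀ t : ℕ, ∑ i ∈ range t, ((l : ℝ) - i) = t * l - t * (t - 1) / 2 := by
              intro t
              induction t with
              | zero => simp
              | succ t ih =>
                rw [Finset.sum_range_succ, ih]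
                push_cast
                ring
            rw [e]
            field_simp
            ring
    · have htel : ∑ i ∈ range l, (Y (cside n k) (r + 1) i - Y (cside n k) (r + 1) (i + 1)) =
          Y (cside n k) (r + 1) 0 - Y (cside n k) (r + 1) l := by
        rw [Finset.sum_range_sub']
      rw [htel]
      exact Y_drop hn k (r + 1) l
  calc _ ≤ ∑ r ∈ range k, ((l * (l + 1)) / (2 * (n : ℝ) ^ 2) +
        (r + 1 : ℕ) * ((k + 1) * l) / (n : ℝ) ^ 2) := Finset.sum_le_sum hsplit
    _ = _ := by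
      rw [Finset.sum_add_distrib, Finset.sum_const, Finset.card_range, nsmul_eq_mul,
        ← Finset.sum_div, ← Finset.sum_mul]
      have e : ∀ t : ℕ, ∑ r ∈ range t, ((r + 1 : ℕ) : ℝ) = t * (t + 1) / 2 := by
        intro t
        induction t with
        | zero => simp
        | succ t ih =>
          rw [Finset.sum_range_succ, ih]
          push_cast
          ring
      rw [e]
      field_simp

theorem sum_blocks {M : Type} [AddCommMonoid M] (f : ℕ → M) (n K L : ℕ) :
    ∑ i ∈ range L, ∑ r ∈ range K, f (n + K * i + r) = ∑ x ∈ Finset.Ico n (n + K * L), f x := by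
  induction L with
  | zero => simp
  | succ L ih =>
    rw [Finset.sum_range_succ, ih, Nat.mul_succ,
      ← Finset.sum_Ico_consecutive f (Nat.le_add_right n (K * L))
        (by omega : n + K * L ≤ n + (K * L + K))]
    congr 1
    rw [Finset.sum_Ico_eq_sum_range]
    have : n + (K * L + K) - (n + K * L) = K := by omega
    rw [this]

/-- The squares of the shelf are `n, ..., n + (k+1)(l+1) - 1`. -/
theorem squares_eq (n k l : ℕ) :
    ∑ r ∈ range (k + 1), ∑ i ∈ range (l + 1), ({cidx n k r i} : Multiset ℕ) =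
      (Finset.Ico n (n + (k + 1) * (l + 1))).val := by
  rw [Finset.sum_comm]
  unfold cidx
  rw [sum_blocks (fun x => ({x} : Multiset ℕ)) n (k + 1) (l + 1), Finset.sum_multiset_singleton]

/-- **The shelf of consecutive squares.** -/
theorem shelf_consecutive {W H : ℝ} {n : ℕ} (hn : 0 < n) (k l : ℕ)
    (hW : ∑ i ∈ range (l + 1), cside n k 0 i ≤ W)
    (hH : ∑ r ∈ range (k + 1), cside n k r 0 ≤ H) :
    Dec W H (Finset.Ico n (n + (k + 1) * (l + 1))).val
      (pockets W k l (cside n k) + (lefts W k l (cside n k) +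
        (tops H k l (cside n k) + corner W H k l (cside n k)))) := by
  rw [← squares_eq]
  apply shelf_dec (m := cidx n k) (cidx_pos hn k) _ _ hW hH
  · intro r i; unfold cidx; omega
  · intro r i; unfold cidx; nlinarith

/-- The gaps at the left border: total half perimeter. -/
theorem lefts_len {W δ : ℝ} {n : ℕ} (hn : 0 < n) (k l : ℕ)
    (hδ : X W l (cside n k) 0 0 ≤ δ) :
    msum (fun r => r.1 + r.2) (lefts W k l (cside n k)) ≤
      ∑ r ∈ range (k + 1), cside n k r 0 + (k + 1) * δ +
        (l + 1) * (k * (k + 1)) / (2 * (n : ℝ) ^ 2) := by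
  rw [msum_lefts]
  have h1 : (0 : ℝ) < n := by exact_mod_cast hn
  calc _ ≤ ∑ r ∈ range (k + 1), ((δ + r * (l + 1) / (n : ℝ) ^ 2) + cside n k r 0) := by
        apply Finset.sum_le_sum
        intro r _
        have := X_left hn W k l r
        show X W l (cside n k) r 0 + cside n k r 0 ≤ _
        linarith
    _ = _ := by
      rw [Finset.sum_add_distrib, Finset.sum_add_distrib, Finset.sum_const, Finset.card_range,
        nsmul_eq_mul, ← Finset.sum_div, ← Finset.sum_mul]
      have e : ∀ t : ℕ, ∑ r ∈ range (t + 1), (r : ℝ) = t * (t + 1) / 2 := by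
        intro t
        induction t with
        | zero => simp
        | succ t ih =>
          rw [Finset.sum_range_succ, ih]
          push_cast
          ring
      rw [e]
      push_cast
      field_simp
      ring

/-- Every gap at the left border is a rectangle `w × 1/(n+r)` with `w ≤ δ + r (l+1) / n²`. -/
theorem lefts_mem {W δ : ℝ} {n : ℕ} (hn : 0 < n) (k l : ℕ)
    (hδ : X W l (cside n k) 0 0 ≤ δ) {q : ℝ × ℝ} (hq : q ∈ lefts W k l (cside n k)) :
    ∃ r ≤ k, q.2 = 1 / ((n + r : ℕ) : ℝ) ∧ q.1 ≤ δ + r * (l + 1) / (n : ℝ) ^ 2 := by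
  unfold lefts at hq
  rw [Multiset.mem_sum] at hq
  obtain ⟨r, hr, hq⟩ := hq
  rw [Multiset.mem_singleton] at hq
  subst hq
  refine ⟨r, by simpa [Nat.lt_succ_iff] using hr, ?_, ?_⟩
  · show cside n k r 0 = _
    unfold cside cidx
    simp
  · have := X_left hn W k l r
    show X W l (cside n k) r 0 ≤ _
    linarith

/-- height of the gap above column `i` -/
theorem top_height {H η : ℝ} {n : ℕ} (hn : 0 < n) (k i : ℕ)
    (hη : H - Y (cside n k) (k + 1) 0 ≤ η) :
    H - Y (cside n k) (k + 1) i ≤ η + (k + 1) * ((k + 1) * i) / (n : ℝ) ^ 2 := by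
  have := Y_drop hn k (k + 1) i
  push_cast at this
  linarith

/-- The gaps at the top: total half perimeter. -/
theorem tops_len {H η : ℝ} {n : ℕ} (hn : 0 < n) (k l : ℕ)
    (hη : H - Y (cside n k) (k + 1) 0 ≤ η) :
    msum (fun r => r.1 + r.2) (tops H k l (cside n k)) ≤
      ∑ i ∈ range (l + 1), cside n k k i + (l + 1) * η +
        (k + 1) ^ 2 * (l * (l + 1)) / (2 * (n : ℝ) ^ 2) := by
  rw [msum_tops]
  have h1 : (0 : ℝ) < n := by exact_mod_cast hn
  calc _ ≤ ∑ i ∈ range (l + 1), (cside n k k i +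
        (η + (k + 1) * ((k + 1) * i) / (n : ℝ) ^ 2)) := by
        apply Finset.sum_le_sum
        intro i _
        have := top_height hn k i hη
        show cside n k k i + (H - Y (cside n k) (k + 1) i) ≤ _
        linarith
    _ = _ := by
      rw [Finset.sum_add_distrib, Finset.sum_add_distrib, Finset.sum_const, Finset.card_range,
        nsmul_eq_mul, ← Finset.sum_div, ← Finset.mul_sum, ← Finset.mul_sum]
      have e : ∀ t : ℕ, ∑ r ∈ range (t + 1), (r : ℝ) = t * (t + 1) / 2 := by
        intro t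
        induction t with
        | zero => simp
        | succ t ih =>
          rw [Finset.sum_range_succ, ih]
          push_cast
          ring
      rw [e]
      push_cast
      field_simp
      ring

/-- Every gap at the top is a rectangle `1/(n+(k+1)i+k) × h` with `h ≤ η + (k+1)² i / n²`. -/
theorem tops_mem {H η : ℝ} {n : ℕ} (hn : 0 < n) (k l : ℕ)
    (hη : H - Y (cside n k) (k + 1) 0 ≤ η) {q : ℝ × ℝ} (hq : q ∈ tops H k l (cside n k)) :
    ∃ i ≤ l, q.1 = 1 / ((n + (k + 1) * i + k : ℕ) : ℝ) ∧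
      q.2 ≤ η + (k + 1) * ((k + 1) * i) / (n : ℝ) ^ 2 := by
  unfold tops at hq
  rw [Multiset.mem_sum] at hq
  obtain ⟨i, hi, hq⟩ := hq
  rw [Multiset.mem_singleton] at hq
  subst hq
  exact ⟨i, by simpa [Nat.lt_succ_iff] using hi, rfl, top_height hn k i hη⟩

/-- Every pocket is small: width at most `(l - i) / n²`, height at most `(r+1)(k+1)/n²`. -/
theorem pockets_mem {W : ℝ} {n : ℕ} (hn : 0 < n) (k l : ℕ) {q : ℝ × ℝ}
    (hq : q ∈ pockets W k l (cside n k)) :
    q.1 ≤ (l : ℝ) / (n : ℝ) ^ 2 ∧ q.2 ≤ (k * (k + 1) : ℝ) / (n : ℝ) ^ 2 := by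
  have h1 : (0 : ℝ) < n := by exact_mod_cast hn
  unfold pockets at hq
  rw [Multiset.mem_sum] at hq
  obtain ⟨r, hr, hq⟩ := hq
  rw [Multiset.mem_sum] at hq
  obtain ⟨i, hi, hq⟩ := hq
  rw [Multiset.mem_singleton] at hq
  subst hq
  have hrk := mem_range.mp hr
  have hil := mem_range.mp hi
  constructor
  · have h := X_shift hn W k l r (i + 1)
    refine h.trans ?_
    apply div_le_div_of_nonneg_right _ (by positivity)
    exact_mod_cast (by omega : l + 1 - (i + 1) ≤ l)
  · show Y (cside n k) (r + 1) i - Y (cside n k) (r + 1) (i + 1) ≤ _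
    unfold Y
    rw [← Finset.sum_sub_distrib]
    have hstep : ∀ s, cside n k s i - cside n k s (i + 1) ≤ ((k + 1 : ℕ) : ℝ) / (n : ℝ) ^ 2 := by
      intro s
      have h := cside_col (n := cidx n k s i) (cidx_pos hn k s i) k 0 1
      have e0 : cside (cidx n k s i) k 0 0 = cside n k s i := by
        unfold cside cidx; simp
      have e1 : cside (cidx n k s i) k 0 1 = cside n k s (i + 1) := by
        have : cidx (cidx n k s i) k 0 1 = cidx n k s (i + 1) := by unfold cidx; ring
        unfold cside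
        rw [this]
      rw [e0, e1, mul_one] at h
      refine h.trans ?_
      apply div_le_div_of_nonneg_left (by positivity) (by positivity)
      have h2 : (n : ℝ) ≤ cidx n k s i := by exact_mod_cast cidx_ge n k s i
      nlinarith
    calc ∑ s ∈ range (r + 1), (cside n k s i - cside n k s (i + 1))
        ≤ ∑ s ∈ range (r + 1), ((k + 1 : ℕ) : ℝ) / (n : ℝ) ^ 2 :=
          Finset.sum_le_sum fun s _ => hstep s
      _ = ((r + 1 : ℕ) : ℝ) * (((k + 1 : ℕ) : ℝ) / (n : ℝ) ^ 2) := by
          rw [Finset.sum_const, Finset.card_range, nsmul_eq_mul]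
      _ ≤ (k : ℝ) * (((k + 1 : ℕ) : ℝ) / (n : ℝ) ^ 2) := by
          apply mul_le_mul_of_nonneg_right _ (by positivity)
          exact_mod_cast hrk
      _ = (k * (k + 1) : ℝ) / (n : ℝ) ^ 2 := by
          push_cast
          ring

end Pool.Agent.Moser
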