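import Pool.Agent.Lib_MP_cc07e8_co.ShelfFill

/-!
# One step of the engine: cutting off and filling a shelf (helper60, for MP_cc07e8_co)
-/

namespace Pool.Agent.Moser

open Finset Pool.Agent.Shelf

section

variable {H θ : ℝ} {q : ℕ → ℕ}

/-- **Theorem B.**  A shelf of height `H` and width `w` is filled with `J` columns. -/
theorem shelf_fill (hq : StrictMono q) (h0 : 0 < q 0) (hH : 0 < H) (hθ : 0 ≤ θ) {J : ℕ}
    (hJ : 1 ≤ J) {w : ℝ} (hK : 1 ≤ nrows H θ q 0) (h2 : q (cst H θ q 0 J) ≤ 2 * q 0)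
    (hw : cwid H θ q 0 J ≤ w) :
    ∃ Sm : Multiset (ℝ × ℝ), Dec w H ((range (cst H θ q 0 J)).val.map q)
      (ttops H θ q 0 J + Sm + {(w - cwid H θ q 0 J, H)}) ∧
      lng Sm ≤ ((nrows H θ q (cst H θ q 0 (J - 1)) : ℝ) + 1 - nrows H θ q 0) * H +
        ((nrows H θ q (cst H θ q 0 (J - 1)) : ℝ) ^ 2 / 2 + 1 / (H * nrows H θ q 0) + 1) *
          (1 / (q 0 : ℝ) - 1 / (q (cst H θ q 0 J) : ℝ)) ∧
      sht Sm ≤ ((nrows H θ q (cst H θ q 0 (J - 1)) : ℝ) + 1 / (H * nrows H θ q 0)) *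
        (1 / (q 0 : ℝ) - 1 / (q (cst H θ q 0 J) : ℝ)) := by
  have hKR : (0 : ℝ) < nrows H θ q 0 := by exact_mod_cast hK
  have key := shelf_core hq h0 hH hθ (κ := nrows H θ q (cst H θ q 0 (J - 1)))
    (Λ := 1 / (H * nrows H θ q 0)) J hJ 0 w hK
    (fun j hj => nrows_mono hq hH.le (cst_mono 0 (by omega)))
    (by rw [one_div, inv_mul_cancel₀ (by positivity)]) h2 hw
  rw [← Finset.range_eq_Ico] at key
  exact key

/-- the number of blocks -/
theorem rows_diff {x : ℕ} (hx : 1 ≤ nrows H θ q x) :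
    (nrows H θ q x : ℝ) + 1 - nrows H θ q 0 ≤ H * ((q x : ℝ) - q 0) + 2 := by
  have h1 := nrows_le hx
  have h2 := lt_nrows (H := H) (θ := θ) (q := q) 0
  linarith

/-- within a block the gaps increase -/
theorem tgap_step (hq : StrictMono q) (h0 : 0 < q 0) {s j K Q : ℕ}
    (h1 : nrows H θ q (cst H θ q s j) = K) (h2 : nrows H θ q (cst H θ q s (j + 1)) = K)
    (hQ : q (cst H θ q s (j + 2)) ≤ Q) :
    (K : ℝ) ^ 2 / (Q : ℝ) ^ 2 ≤ tgap H θ q s (j + 1) - tgap H θ q s j := by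
  set x := cst H θ q s j with hx
  have e1 : cst H θ q s (j + 1) = x + K := by
    show cst H θ q s j + nrows H θ q (cst H θ q s j) = _
    rw [← hx, h1]
  have e2 : cst H θ q s (j + 2) = x + K + K := by
    show cst H θ q s (j + 1) + nrows H θ q (cst H θ q s (j + 1)) = _
    rw [h2, e1]
  have e3 : cst H θ q s (j + 1 + 1) = x + K + K := e2
  unfold tgap
  rw [e3, e1, ← hx, Finset.sum_Ico_eq_sum_range, Finset.sum_Ico_eq_sum_range,
    Nat.add_sub_cancel_left, Nat.add_sub_cancel_left]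
  have e4 : H - ∑ k ∈ range K, 1 / (q (x + K + k) : ℝ) - (H - ∑ k ∈ range K, 1 / (q (x + k) : ℝ)) =
      ∑ k ∈ range K, (1 / (q (x + k) : ℝ) - 1 / (q (x + K + k) : ℝ)) := by
    rw [Finset.sum_sub_distrib]
    ring
  rw [e4]
  calc (K : ℝ) ^ 2 / (Q : ℝ) ^ 2 = ∑ k ∈ range K, (K : ℝ) / (Q : ℝ) ^ 2 := by
        rw [Finset.sum_const, Finset.card_range, nsmul_eq_mul]
        ring
    _ ≤ _ := by
        apply Finset.sum_le_sum
        intro r hr
        have hr' := mem_range.1 hr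
        have ha : (0 : ℝ) < q (x + r) := q_posR hq h0 _
        have hb : (0 : ℝ) < q (x + K + r) := q_posR hq h0 _
        have hab : (q (x + r) : ℝ) + K ≤ q (x + K + r) := by
          have h3 := strict_add hq (x + r) K
          have h4 : x + r + K = x + K + r := by ring
          rw [h4] at h3
          exact_mod_cast h3
        have hbQ : (q (x + K + r) : ℝ) ≤ Q := by
          have h5 : q (x + K + r) ≤ q (x + K + K) := hq.monotone (by omega)
          rw [e2] at hQ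
          exact_mod_cast h5.trans hQ
        rw [div_sub_div _ _ ha.ne' hb.ne', one_mul, mul_one]
        have hQ0 : (0 : ℝ) < Q := lt_of_lt_of_le hb hbQ
        have hK0 : (0 : ℝ) ≤ K := Nat.cast_nonneg K
        rw [div_le_div_iff₀ (by positivity) (by positivity)]
        have h6 : (K : ℝ) * ((q (x + r) : ℝ) * q (x + K + r)) ≤ K * (Q : ℝ) ^ 2 := by
          apply mul_le_mul_of_nonneg_left _ hK0
          nlinarith
        have h7 : (K : ℝ) * (Q : ℝ) ^ 2 ≤ ((q (x + K + r) : ℝ) - q (x + r)) * (Q : ℝ) ^ 2 := by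
          apply mul_le_mul_of_nonneg_right _ (by positivity)
          linarith
        linarith

theorem tgap_steps (hq : StrictMono q) (h0 : 0 < q 0) {s K Q : ℕ} (a t : ℕ)
    (h1 : ∀ i ≤ t, nrows H θ q (cst H θ q s (a + i)) = K)
    (hQ : q (cst H θ q s (a + t + 1)) ≤ Q) :
    t * ((K : ℝ) ^ 2 / (Q : ℝ) ^ 2) ≤ tgap H θ q s (a + t) - tgap H θ q s a := by
  induction t with
  | zero => simp
  | succ t ih =>
    have h2 := ih (fun i hi => h1 i (by omega))
      ((hq.monotone (cst_mono s (by omega))).trans hQ)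
    have h3 := tgap_step hq h0 (s := s) (j := a + t) (K := K) (Q := Q) (h1 t (by omega))
      (h1 (t + 1) le_rfl) hQ
    push_cast
    have e : a + t + 1 = a + (t + 1) := by ring
    rw [e] at h3
    linarith

/-- **Number of gaps of given height.** -/
theorem count_gaps (hq : StrictMono q) (h0 : 0 < q 0) (hH : 0 ≤ H) (s J K : ℕ) (hK : 0 < K)
    {g d : ℝ} (hd : 0 ≤ d) [DecidablePred fun j => nrows H θ q (cst H θ q s j) = K ∧
      g ≤ tgap H θ q s j ∧ tgap H θ q s j ≤ g + d] :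
    (((range J).filter fun j => nrows H θ q (cst H θ q s j) = K ∧
      g ≤ tgap H θ q s j ∧ tgap H θ q s j ≤ g + d).card : ℝ) ≤
      d * (q (cst H θ q s J) : ℝ) ^ 2 / (K : ℝ) ^ 2 + 1 := by
  set S := (range J).filter fun j => nrows H θ q (cst H θ q s j) = K ∧
      g ≤ tgap H θ q s j ∧ tgap H θ q s j ≤ g + d with hS
  have hKR : (0 : ℝ) < K := by exact_mod_cast hK
  have hQ0 : (0 : ℝ) < q (cst H θ q s J) := q_posR hq h0 _
  rcases S.eq_empty_or_nonempty with he | hne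
  · rw [he]
    have : 0 ≤ d * (q (cst H θ q s J) : ℝ) ^ 2 / (K : ℝ) ^ 2 := by positivity
    simp only [Finset.card_empty, Nat.cast_zero]
    linarith
  · set a := S.min' hne with ha
    set b := S.max' hne with hb
    have hab : a ≤ b := S.min'_le_max' hne
    have haS : a ∈ S := S.min'_mem hne
    have hbS : b ∈ S := S.max'_mem hne
    rw [hS, mem_filter, mem_range] at haS hbS
    obtain ⟨t, ht⟩ : ∃ t, b = a + t := ⟨b - a, by omega⟩
    have hconst : ∀ i ≤ t, nrows H θ q (cst H θ q s (a + i)) = K := by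
      intro i hi
      apply le_antisymm
      · have := nrows_mono (θ := θ) hq hH (cst_mono (H := H) (θ := θ) (q := q) s
          (show a + i ≤ b by omega))
        rw [hbS.2.1] at this
        exact this
      · have := nrows_mono (θ := θ) hq hH (cst_mono (H := H) (θ := θ) (q := q) s
          (show a ≤ a + i by omega))
        rw [haS.2.1] at this
        exact this
    have h3 := tgap_steps hq h0 (s := s) (K := K) (Q := q (cst H θ q s J)) a t hconst
      (hq.monotone (cst_mono s (by omega)))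
    rw [← ht] at h3
    have h4 : (t : ℝ) * ((K : ℝ) ^ 2 / (q (cst H θ q s J) : ℝ) ^ 2) ≤ d := by
      linarith [hbS.2.2.2, haS.2.2.1]
    have h5 : (t : ℝ) ≤ d * (q (cst H θ q s J) : ℝ) ^ 2 / (K : ℝ) ^ 2 := by
      rw [le_div_iff₀ (by positivity)]
      rw [← mul_div_assoc, div_le_iff₀ (by positivity)] at h4
      exact h4
    have h6 : S.card ≤ t + 1 := by
      have hsub : S ⊆ Finset.Icc a b := by
        intro j hj
        rw [mem_Icc]
        exact ⟨S.min'_le j hj, S.le_max' j hj⟩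
      have := Finset.card_le_card hsub
      rw [Nat.card_Icc] at this
      omega
    have h7 : (S.card : ℝ) ≤ t + 1 := by exact_mod_cast h6
    linarith

/-- cutting a gap into equal pieces -/
theorem Ref.cuts {a b : ℝ} (ha : 0 ≤ a) (hb : 0 ≤ b) (n : ℕ) :
    Ref {(a, n * b)} 0 (n • {(a, b)}) := by
  induction n with
  | zero =>
    have h : Dec 0 a 0 0 := by
      have := Dec.pack (w := 0) (h := a) (n := 0) (fun i => i.elim0) (fun i => i.elim0)
        (fun i => i.elim0) (fun i => i.elim0) (fun i => i.elim0) (fun i => i.elim0) le_rfl ha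
        (fun i => i.elim0) (fun i => i.elim0) (by simp) (fun i => i.elim0)
      simpa using this
    have h2 := Ref.of_dec h.turn
    simpa using h2
  | succ n ih =>
    have e : ((n + 1 : ℕ) : ℝ) * b = n * b + b := by push_cast; ring
    rw [e]
    have h1 := Ref.cut ha (mul_nonneg (Nat.cast_nonneg n) hb) hb
    have h2 := ih.add (Ref.refl {(a, b)})
    have h3 := h1.trans h2
    rw [succ_nsmul]
    simpa using h3

/-- the columns: bounds while `q ≤ 1.1 q 0` -/
theorem cst_le_mul (hq : StrictMono q) (h0 : 0 < q 0) {K0 M : ℕ} (hθ : 0 ≤ θ)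
    (hHe : H = K0 / (q 0 : ℝ)) (hM : (q M : ℝ) ≤ 1.1 * q 0) :
    ∀ j : ℕ, 1.1 * (K0 : ℝ) * j ≤ M → ((cst H θ q 0 j : ℕ) : ℝ) ≤ 1.1 * K0 * j := by
  have hN : (0 : ℝ) < q 0 := q_posR hq h0 0
  intro j
  induction j with
  | zero => intro _; simp [cst]
  | succ j ih =>
    intro hj
    push_cast at hj ⊢
    have hK0 : (0 : ℝ) ≤ K0 := Nat.cast_nonneg K0
    have h1 : 1.1 * (K0 : ℝ) * j ≤ M := by nlinarith
    have h2 := ih h1
    have h3 : cst H θ q 0 j ≤ M := by
      have : ((cst H θ q 0 j : ℕ) : ℝ) ≤ M := h2.trans h1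
      exact_mod_cast this
    have h4 : (nrows H θ q (cst H θ q 0 j) : ℝ) ≤ 1.1 * K0 := by
      have h5 : (q (cst H θ q 0 j) : ℝ) ≤ 1.1 * q 0 := by
        have : (q (cst H θ q 0 j) : ℝ) ≤ q M := by exact_mod_cast hq.monotone h3
        linarith
      have hH0 : 0 ≤ H := by rw [hHe]; positivity
      have h6 : H * q (cst H θ q 0 j) ≤ 1.1 * K0 := by
        calc H * q (cst H θ q 0 j) ≤ H * (1.1 * q 0) :=
              mul_le_mul_of_nonneg_left h5 hH0
          _ = 1.1 * (H * q 0) := by ring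
          _ = 1.1 * K0 := by rw [hHe, div_mul_cancel₀ _ hN.ne']
      rcases Nat.eq_zero_or_pos (nrows H θ q (cst H θ q 0 j)) with h7 | h7
      · rw [h7, Nat.cast_zero]
        positivity
      · have := nrows_le h7
        linarith
    show ((cst H θ q 0 j + nrows H θ q (cst H θ q 0 j) : ℕ) : ℝ) ≤ _
    push_cast
    nlinarith

/-- **Theorem C.**  Cutting off and filling a shelf of height `K0 / q 0`. -/
theorem shelf_step (hq : StrictMono q) (h0 : 0 < q 0) {X Y : ℝ} {K0 M : ℕ} (hθ : 0 ≤ θ)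
    (hθ1 : θ ≤ 1) (hK0 : 2 ≤ K0) (hX : (K0 : ℝ) / q 0 ≤ X) (hY : 1 ≤ Y * q 0)
    (hM : (q M : ℝ) ≤ 1.1 * q 0)
    (hMb : 1.21 * (K0 : ℝ) * (Y * q 0) + 1.1 * K0 ≤ M) :
    ∃ (J : ℕ) (δ : ℝ) (Sm : Multiset (ℝ × ℝ)), 1 ≤ J ∧ Y * q 0 - 1 < J ∧ (J : ℝ) ≤ 1.1 * (Y * q 0) ∧
      ((cst (K0 / q 0) θ q 0 J : ℕ) : ℝ) ≤ 1.1 * K0 * J ∧
      ((K0 : ℝ) - 1) * J ≤ ((cst (K0 / q 0) θ q 0 J : ℕ) : ℝ) ∧
      0 ≤ δ ∧ δ < 1 / (q (cst (K0 / q 0) θ q 0 J) : ℝ) ∧
      Ref {(X, Y)} ((range (cst (K0 / q 0) θ q 0 J)).val.map q)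
        ({(X - K0 / q 0, Y)} + (ttops (K0 / q 0) θ q 0 J + Sm + K0 • {(δ, 1 / (q 0 : ℝ))})) ∧
      lng Sm ≤ (K0 / q 0 * ((q (cst (K0 / q 0) θ q 0 (J - 1)) : ℝ) - q 0) + 2) * (K0 / q 0) +
        ((1.1 * K0) ^ 2 / 2 + q 0 / (K0 * (K0 - 1)) + 1) *
          (1 / (q 0 : ℝ) - 1 / (q (cst (K0 / q 0) θ q 0 J) : ℝ)) ∧
      sht Sm ≤ (1.1 * K0 + q 0 / (K0 * (K0 - 1))) *
        (1 / (q 0 : ℝ) - 1 / (q (cst (K0 / q 0) θ q 0 J) : ℝ)) := by
  have hN : (0 : ℝ) < q 0 := q_posR hq h0 0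
  have hK0R : (2 : ℝ) ≤ K0 := by exact_mod_cast hK0
  set H : ℝ := K0 / q 0 with hHd
  have hH : 0 < H := by rw [hHd]; positivity
  have hHN : H * q 0 = K0 := by rw [hHd]; field_simp
  have hY0 : 0 < Y := by
    by_contra hcon
    rw [not_lt] at hcon
    nlinarith
  -- number of rows at the start
  have hK1 : 1 ≤ nrows H θ q 0 := by
    unfold nrows
    apply Nat.le_floor
    rw [hHN]
    push_cast
    linarith
  have hK1R : (K0 : ℝ) - 1 ≤ nrows H θ q 0 := by
    have h1 : K0 - 1 ≤ nrows H θ q 0 := by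
      unfold nrows
      apply Nat.le_floor
      rw [hHN, Nat.cast_sub (by omega)]
      push_cast
      linarith
    have h2 : ((K0 - 1 : ℕ) : ℝ) ≤ nrows H θ q 0 := by exact_mod_cast h1
    rw [Nat.cast_sub (by omega)] at h2
    push_cast at h2
    exact h2
  -- the columns do not fit for ever
  have hbig : ∀ j : ℕ, (j : ℝ) ≤ 1.1 * (Y * q 0) + 1 → j / (1.1 * (q 0 : ℝ)) ≤ cwid H θ q 0 j := by
    intro j hj
    unfold cwid
    calc (j : ℝ) / (1.1 * (q 0 : ℝ)) = ∑ i ∈ range j, 1 / (1.1 * (q 0 : ℝ)) := by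
          rw [Finset.sum_const, Finset.card_range, nsmul_eq_mul]
          ring
      _ ≤ _ := by
          apply Finset.sum_le_sum
          intro i hi
          have hi' : (i : ℝ) ≤ j := by exact_mod_cast (mem_range.1 hi).le
          have h1 : 1.1 * (K0 : ℝ) * i ≤ M := by
            refine le_trans ?_ hMb
            nlinarith
          have h2 := cst_le_mul (θ := θ) (H := H) hq h0 hθ hHd hM i h1
          have h3 : cst H θ q 0 i ≤ M := by exact_mod_cast h2.trans h1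
          have h4 : (q (cst H θ q 0 i) : ℝ) ≤ 1.1 * q 0 := by
            have : (q (cst H θ q 0 i) : ℝ) ≤ q M := by exact_mod_cast hq.monotone h3
            linarith
          exact one_div_le_one_div_of_le (q_posR hq h0 _) h4
  classical
  have hex : ∃ j, Y < cwid H θ q 0 (j + 1) := by
    refine ⟨⌊1.1 * (Y * q 0)⌋₊, ?_⟩
    have h1 : 1.1 * (Y * q 0) < (⌊1.1 * (Y * q 0)⌋₊ : ℝ) + 1 := Nat.lt_floor_add_one _
    have h2 : ((⌊1.1 * (Y * q 0)⌋₊ : ℕ) : ℝ) ≤ 1.1 * (Y * q 0) :=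
      Nat.floor_le (by positivity)
    have h3 := hbig (⌊1.1 * (Y * q 0)⌋₊ + 1) (by push_cast; linarith)
    refine lt_of_lt_of_le ?_ h3
    rw [lt_div_iff₀ (by positivity)]
    push_cast
    nlinarith
  set J := Nat.find hex with hJd
  have hJs : Y < cwid H θ q 0 (J + 1) := Nat.find_spec hex
  have hJ1 : 1 ≤ J := by
    by_contra hcon
    have hJ0 : J = 0 := by omega
    rw [hJ0] at hJs
    have : cwid H θ q 0 (0 + 1) = 1 / (q 0 : ℝ) := by simp [cwid, cst]
    rw [this, lt_div_iff₀ hN] at hJs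
    linarith
  have hJw : cwid H θ q 0 J ≤ Y := by
    have := Nat.find_min hex (show J - 1 < Nat.find hex by omega)
    rw [not_lt] at this
    rwa [Nat.sub_add_cancel hJ1] at this
  have hJle : (J : ℝ) ≤ 1.1 * (Y * q 0) := by
    by_contra hcon
    rw [not_le] at hcon
    have hle : J ≤ ⌊1.1 * (Y * q 0)⌋₊ + 1 := by
      have h1 : 1.1 * (Y * q 0) < (⌊1.1 * (Y * q 0)⌋₊ : ℝ) + 1 := Nat.lt_floor_add_one _
      have h2 : ((⌊1.1 * (Y * q 0)⌋₊ : ℕ) : ℝ) ≤ 1.1 * (Y * q 0) :=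
        Nat.floor_le (by positivity)
      have h3 := hbig (⌊1.1 * (Y * q 0)⌋₊ + 1) (by push_cast; linarith)
      by_contra hcon2
      rw [not_le] at hcon2
      have h4 : cwid H θ q 0 (⌊1.1 * (Y * q 0)⌋₊ + 1) ≤ cwid H θ q 0 J := by
        unfold cwid
        apply Finset.sum_le_sum_of_subset_of_nonneg
        · intro i hi
          rw [mem_range] at hi ⊢
          omega
        · intro i _ _
          positivity
      have h5 : ((⌊1.1 * (Y * q 0)⌋₊ + 1 : ℕ) : ℝ) / (1.1 * (q 0 : ℝ)) ≤ Y :=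
        h3.trans (h4.trans hJw)
      rw [div_le_iff₀ (by positivity)] at h5
      push_cast at h5
      nlinarith
    have h2 : (J : ℝ) ≤ 1.1 * (Y * q 0) + 1 := by
      have h3 : (J : ℝ) ≤ ((⌊1.1 * (Y * q 0)⌋₊ + 1 : ℕ) : ℝ) := by exact_mod_cast hle
      have h4 : ((⌊1.1 * (Y * q 0)⌋₊ : ℕ) : ℝ) ≤ 1.1 * (Y * q 0) :=
        Nat.floor_le (by positivity)
      push_cast at h3
      linarith
    have h6 := (hbig J h2).trans hJw
    rw [div_le_iff₀ (by positivity)] at h6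
    nlinarith
  have hJM : 1.1 * (K0 : ℝ) * J ≤ M := by
    refine le_trans ?_ hMb
    nlinarith
  have hcJ := cst_le_mul (θ := θ) (H := H) hq h0 hθ hHd hM J hJM
  have hcM : cst H θ q 0 J ≤ M := by exact_mod_cast hcJ.trans hJM
  have hqJ : (q (cst H θ q 0 J) : ℝ) ≤ 1.1 * q 0 := by
    have : (q (cst H θ q 0 J) : ℝ) ≤ q M := by exact_mod_cast hq.monotone hcM
    linarith
  have hq2 : q (cst H θ q 0 J) ≤ 2 * q 0 := by
    have : (q (cst H θ q 0 J) : ℝ) ≤ 2 * q 0 := by linarith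
    exact_mod_cast this
  have hJlow : Y * q 0 - 1 < J := by
    have h1 : cwid H θ q 0 (J + 1) ≤ ((J : ℝ) + 1) / q 0 := by
      unfold cwid
      calc ∑ j ∈ range (J + 1), 1 / (q (cst H θ q 0 j) : ℝ)
          ≤ ∑ j ∈ range (J + 1), 1 / (q 0 : ℝ) :=
            Finset.sum_le_sum fun j _ => inv_anti hq h0 (Nat.zero_le _)
        _ = _ := by
            rw [Finset.sum_const, Finset.card_range, nsmul_eq_mul]
            push_cast
            ring
    have h2 := lt_of_lt_of_le hJs h1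
    rw [lt_div_iff₀ hN] at h2
    linarith
  have hclow : ((K0 : ℝ) - 1) * J ≤ ((cst H θ q 0 J : ℕ) : ℝ) := by
    have h1 : ∀ j : ℕ, ((K0 : ℝ) - 1) * j ≤ ((cst H θ q 0 j : ℕ) : ℝ) := by
      intro j
      induction j with
      | zero => simp [cst]
      | succ j ih =>
        show _ ≤ ((cst H θ q 0 j + nrows H θ q (cst H θ q 0 j) : ℕ) : ℝ)
        have h2 : (nrows H θ q 0 : ℝ) ≤ nrows H θ q (cst H θ q 0 j) := by
          exact_mod_cast nrows_cst_ge hq hH.le 0 j
        push_cast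
        linarith
    exact h1 J
  have hδ : Y - cwid H θ q 0 J < 1 / (q (cst H θ q 0 J) : ℝ) := by
    have : cwid H θ q 0 (J + 1) = cwid H θ q 0 J + 1 / (q (cst H θ q 0 J) : ℝ) := by
      unfold cwid
      rw [Finset.sum_range_succ]
    linarith
  obtain ⟨Sm, hdec, hlng, hsht⟩ := shelf_fill hq h0 hH hθ hJ1 hK1 hq2 hJw
  have hD0 : 0 ≤ 1 / (q 0 : ℝ) - 1 / (q (cst H θ q 0 J) : ℝ) := by
    have := inv_anti hq h0 (Nat.zero_le (cst H θ q 0 J))
    linarith
  have hκ : (nrows H θ q (cst H θ q 0 (J - 1)) : ℝ) ≤ 1.1 * K0 := by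
    have h1 : 1 ≤ nrows H θ q (cst H θ q 0 (J - 1)) := hK1.trans (nrows_cst_ge hq hH.le 0 _)
    have h2 := nrows_le h1
    have h3 : (q (cst H θ q 0 (J - 1)) : ℝ) ≤ 1.1 * q 0 := by
      have : (q (cst H θ q 0 (J - 1)) : ℝ) ≤ q (cst H θ q 0 J) := by
        exact_mod_cast hq.monotone (cst_mono 0 (by omega))
      linarith
    have h4 : H * q (cst H θ q 0 (J - 1)) ≤ 1.1 * K0 := by
      calc H * q (cst H θ q 0 (J - 1)) ≤ H * (1.1 * q 0) := mul_le_mul_of_nonneg_left h3 hH.le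
        _ = 1.1 * (H * q 0) := by ring
        _ = 1.1 * K0 := by rw [hHN]
    linarith
  have hΛ : 1 / (H * nrows H θ q 0) ≤ q 0 / (K0 * (K0 - 1)) := by
    have e : (q 0 : ℝ) / (K0 * (K0 - 1)) = 1 / (H * (K0 - 1)) := by
      rw [hHd]
      have : (K0 : ℝ) - 1 ≠ 0 := by linarith
      field_simp
    rw [e]
    apply one_div_le_one_div_of_le
    · apply mul_pos hH
      linarith
    · exact mul_le_mul_of_nonneg_left hK1R hH.le
  refine ⟨J, Y - cwid H θ q 0 J, Sm, hJ1, hJlow, hJle, hcJ, hclow, by linarith, hδ, ?_, ?_, ?_⟩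
  · have r1 := Ref.cut' (a := X - H) (b := H) (c := Y) (by linarith) hH.le hY0.le
    have e1 : X - H + H = X := by ring
    rw [e1] at r1
    have r2 := (Ref.turn hH.le hY0.le).trans (Ref.of_dec hdec)
    have e2 : H = K0 * (1 / (q 0 : ℝ)) := by rw [hHd]; ring
    have r3 := Ref.cuts (a := Y - cwid H θ q 0 J) (b := 1 / (q 0 : ℝ)) (by linarith)
      (by positivity) K0
    rw [← e2] at r3
    have r4 := (Ref.refl (ttops H θ q 0 J + Sm)).add r3
    have r5 := r2.trans r4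
    have r6 := r1.trans ((Ref.refl {(X - H, Y)}).add r5)
    have e3 : (0 : Multiset ℕ) + (0 + ((0 : Multiset ℕ) + (range (cst H θ q 0 J)).val.map q +
        (0 + 0))) = (range (cst H θ q 0 J)).val.map q := by
      simp only [zero_add, add_zero]
    rw [e3] at r6
    exact r6
  · refine hlng.trans ?_
    apply add_le_add
    · apply mul_le_mul_of_nonneg_right _ hH.le
      exact rows_diff (hK1.trans (nrows_cst_ge hq hH.le 0 _))
    · apply mul_le_mul_of_nonneg_right _ hD0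
      have h1 : (nrows H θ q (cst H θ q 0 (J - 1)) : ℝ) ^ 2 ≤ (1.1 * K0) ^ 2 := by
        apply pow_le_pow_left₀ (Nat.cast_nonneg _) hκ
      linarith
  · refine hsht.trans ?_
    apply mul_le_mul_of_nonneg_right _ hD0
    linarith

end

end Pool.Agent.Moser
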