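import Pool.Agent.Lib_MP_cc07e8_co.Blocks
import Pool.Agent.Lib_MP_cc07e8_co.Child

/-!
# MP_cc07e8_co, tail theorem: blocks and windows touched
-/

namespace Pool.Agent.Moser

namespace Touch

theorem Tc_sub {c : ℝ} {m : ℕ} (hc : 0 < c) (h : c < m) :
    Tc c m - c = c ^ 2 / (m - c) := by
  have h1 : (0 : ℝ) < m - c := by linarith
  unfold Tc
  field_simp
  ring

theorem sub_eq_div {c : ℝ} {m : ℕ} (hc : 0 < c) (h : c < m) :
    (m : ℝ) - c = c ^ 2 / (Tc c m - c) := by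
  have h1 : (0 : ℝ) < m - c := by linarith
  rw [Tc_sub hc h]
  field_simp

theorem cube_lt {a b : ℝ} (hb : 0 ≤ b) (h : a ^ 3 < b ^ 3) : a < b := lt_of_pow_lt_pow_left₀ 3 hb h

theorem IJ_large {i j : ℕ} (hi : 1000000 ≤ i) (h : IJ i j) : i + 2 ≤ j := by
  obtain ⟨_, h2⟩ := h
  by_contra hj
  have hj' : j + 1 ≤ i + 2 := by omega
  have hj2 : ((j : ℝ) + 1) ≤ (i : ℝ) + 2 := by exact_mod_cast hj'
  have h3 : ((j : ℝ) + 1) ^ 3 ≤ ((i : ℝ) + 2) ^ 3 := by gcongr
  have h4 : 51.5 * ((i : ℝ) + 2) ^ 3 < (i : ℝ) ^ 4 := by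
    obtain ⟨n, rfl⟩ := Nat.exists_eq_add_of_le hi
    push_cast
    have hn : (0 : ℝ) ≤ n := Nat.cast_nonneg n
    rw [← sub_pos]
    ring_nf
    positivity
  linarith

theorem om_nonneg {i j : ℕ} (h : i + 2 ≤ j) : 0 ≤ om i j := by
  have hj : (i : ℝ) + 2 ≤ (j : ℝ) := by exact_mod_cast h
  have h0 : (0 : ℝ) ≤ i := Nat.cast_nonneg i
  have h1 : ((i : ℝ) + 1) ^ 3 ≤ (j : ℝ) ^ 3 := by gcongr; linarith
  have h2 : (j : ℝ) ^ 3 ≤ ((j : ℝ) + 1) ^ 3 := by gcongr; linarith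
  unfold om
  apply div_nonneg
  · apply mul_nonneg (by positivity)
    linarith
  · apply mul_nonneg
    · linarith
    · linarith

/-- two squares with children in the same window are close -/
theorem close {i j : ℕ} (hij : i + 2 ≤ j) {c : ℝ} (hc0 : 0 < c) (hc : c < ((i : ℝ) + 1) ^ 3)
    {m1 m2 : ℕ} (h1 : c < m1) (h2 : c < m2) (w1 : Wd j (Tc c m1)) (w2 : Wd j (Tc c m2)) :
    (m2 : ℝ) - m1 ≤ om i j := by
  have hj : (i : ℝ) + 2 ≤ (j : ℝ) := by exact_mod_cast hij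
  have h0 : (0 : ℝ) ≤ i := Nat.cast_nonneg i
  have ha : ((i : ℝ) + 1) ^ 3 < (j : ℝ) ^ 3 := by gcongr; linarith
  have hb : (j : ℝ) ^ 3 < ((j : ℝ) + 1) ^ 3 := by gcongr; linarith
  obtain ⟨w3, w4⟩ := w1
  obtain ⟨w5, w6⟩ := w2
  have e1 := sub_eq_div hc0 h1
  have e2 := sub_eq_div hc0 h2
  have e : (m2 : ℝ) - m1 = c ^ 2 / (Tc c m2 - c) - c ^ 2 / (Tc c m1 - c) := by
    rw [← e1, ← e2]; ring
  rw [e]
  have p1 : 0 < (j : ℝ) ^ 3 - c := by linarith
  have p2 : 0 < ((j : ℝ) + 1) ^ 3 - c := by linarith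
  have q1 : 0 < (j : ℝ) ^ 3 - ((i : ℝ) + 1) ^ 3 := by linarith
  have q2 : 0 < ((j : ℝ) + 1) ^ 3 - ((i : ℝ) + 1) ^ 3 := by linarith
  have h3 : c ^ 2 / (Tc c m2 - c) ≤ c ^ 2 / ((j : ℝ) ^ 3 - c) :=
    div_le_div_of_nonneg_left (by positivity) p1 (by linarith)
  have h4 : c ^ 2 / (((j : ℝ) + 1) ^ 3 - c) ≤ c ^ 2 / (Tc c m1 - c) :=
    div_le_div_of_nonneg_left (by positivity) (by linarith) (by linarith)
  have h5 : c ^ 2 / ((j : ℝ) ^ 3 - c) - c ^ 2 / (((j : ℝ) + 1) ^ 3 - c) =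
      c ^ 2 * (((j : ℝ) + 1) ^ 3 - (j : ℝ) ^ 3) /
        (((j : ℝ) ^ 3 - c) * (((j : ℝ) + 1) ^ 3 - c)) := by
    rw [div_sub_div _ _ p1.ne' p2.ne']
    congr 1
    ring
  have h6 : c ^ 2 * (((j : ℝ) + 1) ^ 3 - (j : ℝ) ^ 3) /
        (((j : ℝ) ^ 3 - c) * (((j : ℝ) + 1) ^ 3 - c)) ≤ om i j := by
    unfold om
    have hcc : c ^ 2 ≤ ((i : ℝ) + 1) ^ 6 := by
      calc c ^ 2 ≤ (((i : ℝ) + 1) ^ 3) ^ 2 := by gcongr
        _ = ((i : ℝ) + 1) ^ 6 := by ring
    have hd : 0 ≤ ((j : ℝ) + 1) ^ 3 - (j : ℝ) ^ 3 := by linarith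
    apply div_le_div₀
    · positivity
    · exact mul_le_mul_of_nonneg_right hcc hd
    · positivity
    · apply mul_le_mul
      · linarith
      · linarith
      · linarith
      · linarith
  linarith

end Touch

open Touch

open Classical in
/-- `Wd j (Tc c m)` means `c (j+1)^3 / ((j+1)^3 - c) < m ≤ c j^3 / (j^3 - c)`, an interval of length
`c ^ 2 ((j+1)^3 - j^3) / ((j^3 - c) ((j+1)^3 - c)) ≤ om i j` (`IJ i j` gives `j ^ 3 > (i + 1) ^ 3` for large
`i`); the blocks are disjoint intervals of length `9000`, so at most `length / 9000 + 2` of them meet it. -/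
theorem touch_blocks : ∃ i0 : ℕ, ∀ i j : ℕ, i0 ≤ i → IJ i j → ∀ c : ℝ, (i : ℝ) ^ 3 ≤ c →
    c < ((i : ℝ) + 1) ^ 3 →
    (((Bl i).filter fun b => ∃ m ∈ sub i b, Wd j (Tc c m)).card : ℝ) ≤ om i j / 9000 + 2 := by
  obtain ⟨i1, H1⟩ := child_props
  refine ⟨max i1 1000000, fun i j hi hij c hc1 hc2 => ?_⟩
  have hi1 : i1 ≤ i := (le_max_left _ _).trans hi
  have hi2 : 1000000 ≤ i := (le_max_right _ _).trans hi
  have hij' := IJ_large hi2 hij
  have hi3 : (0 : ℝ) < i := by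
    have : 0 < i := by omega
    exact_mod_cast this
  have hc0 : 0 < c := lt_of_lt_of_le (by positivity) hc1
  set S := (Bl i).filter fun b => ∃ m ∈ sub i b, Wd j (Tc c m) with hS
  have hom := om_nonneg hij'
  rcases S.eq_empty_or_nonempty with he | hne
  · rw [he]
    simp only [Finset.card_empty, Nat.cast_zero]
    positivity
  · have hmin := S.min'_mem hne
    have hmax := S.max'_mem hne
    set b1 := S.min' hne
    set b2 := S.max' hne
    have hsub : S ⊆ Finset.Icc b1 b2 := fun b hb =>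
      Finset.mem_Icc.2 ⟨S.min'_le b hb, S.le_max' b hb⟩
    have hcard := Finset.card_le_card hsub
    rw [Nat.card_Icc] at hcard
    rw [hS, Finset.mem_filter] at hmin hmax
    obtain ⟨hb1, m1, hm1, w1⟩ := hmin
    obtain ⟨hb2, m2, hm2, w2⟩ := hmax
    have f1 := mem_sub_bounds (by omega) hb1 hm1
    have f2 := mem_sub_bounds (by omega) hb2 hm2
    have c1 := (H1 i m1 hi1 f1.1 f1.2.1 c hc1 hc2).1
    have c2 := (H1 i m2 hi1 f2.1 f2.2.1 c hc1 hc2).1
    have hcl := close hij' hc0 hc2 c1 c2 w1 w2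
    have k : 9000 * b2 + m1 + 1 ≤ m2 + 9000 * b1 + 9000 := by
      have := f1.2.2.2
      have := f2.2.2.2
      omega
    have k' : 9000 * (b2 : ℝ) + m1 + 1 ≤ m2 + 9000 * b1 + 9000 := by exact_mod_cast k
    have k2 : (S.card : ℝ) + b1 ≤ b2 + 1 := by
      have : S.card + b1 ≤ b2 + 1 := by
        have : b1 ≤ b2 := S.min'_le _ (S.max'_mem hne)
        omega
      exact_mod_cast this
    have k3 : om i j / 9000 * 9000 = om i j := by norm_num
    linarith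

open Classical in
/-- `|Tc c m - Tc c m'| ≤ 600 c ^ 2 / ((m - c) (m' - c)) ≤ 67 (i + 1) ^ 2` for `m, m'` in the same
sub-block, and the windows which are reached have length at least `3 j ^ 2`, `(j + 1) ^ 3 > i ^ 4 / 51.5`, which
is more for large `i`; so the values `Tc c m` are in at most two (consecutive) windows. -/
theorem touch_windows : ∃ i0 : ℕ, ∀ i b : ℕ, i0 ≤ i → b ∈ Bl i → ∀ c : ℝ, (i : ℝ) ^ 3 ≤ c →
    c < ((i : ℝ) + 1) ^ 3 → ∀ J : Finset ℕ,
    (J.filter fun j => ∃ m ∈ sub i b, Wd j (Tc c m)).card ≤ 2 := by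
  obtain ⟨i1, H1⟩ := child_props
  refine ⟨max i1 1000000, fun i b hi hb c hc1 hc2 J => ?_⟩
  have hi1 : i1 ≤ i := (le_max_left _ _).trans hi
  have hi2 : 1000000 ≤ i := (le_max_right _ _).trans hi
  have hi3 : (0 : ℝ) < i := by
    have : 0 < i := by omega
    exact_mod_cast this
  have hc0 : 0 < c := lt_of_lt_of_le (by positivity) hc1
  set S := J.filter fun j => ∃ m ∈ sub i b, Wd j (Tc c m) with hS
  rcases S.eq_empty_or_nonempty with he | hne
  · rw [he]; simp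
  · have hmin := S.min'_mem hne
    set j0 := S.min' hne with hj0
    have hsub : S ⊆ {j0, j0 + 1} := by
      intro j hj
      have hle : j0 ≤ j := S.min'_le j hj
      by_contra hcon
      rw [Finset.mem_insert, Finset.mem_singleton, not_or] at hcon
      have hj2 : j0 + 2 ≤ j := by omega
      rw [hS, Finset.mem_filter] at hmin hj
      obtain ⟨_, m1, hm1, w1⟩ := hmin
      obtain ⟨_, m2, hm2, w2⟩ := hj
      have f1 := mem_sub_bounds (by omega) hb hm1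
      have f2 := mem_sub_bounds (by omega) hb hm2
      have c1 := H1 i m1 hi1 f1.1 f1.2.1 c hc1 hc2
      have c2 := H1 i m2 hi1 f2.1 f2.2.1 c hc1 hc2
      obtain ⟨q, hq, hsb⟩ := sub_eq (by omega) hb
      rw [hsb, Finset.mem_Ico] at hm1 hm2
      have hdist : (m1 : ℝ) - m2 ≤ 600 := by
        have : m1 ≤ m2 + 600 := by omega
        have : (m1 : ℝ) ≤ m2 + 600 := by exact_mod_cast this
        linarith
      have e1 := Tc_sub hc0 c1.1
      have e2 := Tc_sub hc0 c2.1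
      have g1 : 3 * (i : ℝ) ^ 2 ≤ m1 - c := by
        have : ((i : ℝ) + 2) ^ 3 ≤ m1 := by exact_mod_cast f1.1
        nlinarith
      have g2 : 3 * (i : ℝ) ^ 2 ≤ m2 - c := by
        have : ((i : ℝ) + 2) ^ 3 ≤ m2 := by exact_mod_cast f2.1
        nlinarith
      have p : 0 < 3 * (i : ℝ) ^ 2 := by positivity
      have hdiff : Tc c m2 - Tc c m1 ≤ 67 * ((i : ℝ) + 1) ^ 2 := by
        have e : Tc c m2 - Tc c m1 = c ^ 2 / (m2 - c) - c ^ 2 / (m1 - c) := by
          rw [← e1, ← e2]; ring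
        rw [e, div_sub_div _ _ (by linarith) (by linarith), div_le_iff₀ (by nlinarith)]
        have e' : c ^ 2 * ((m1 : ℝ) - c) - (m2 - c) * c ^ 2 = c ^ 2 * (m1 - m2) := by ring
        rw [e']
        have h1 : c ^ 2 * ((m1 : ℝ) - m2) ≤ (((i : ℝ) + 1) ^ 3) ^ 2 * 600 := by
          calc c ^ 2 * ((m1 : ℝ) - m2) ≤ c ^ 2 * 600 := by
                apply mul_le_mul_of_nonneg_left hdist (by positivity)
            _ ≤ (((i : ℝ) + 1) ^ 3) ^ 2 * 600 := by gcongr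
        have h2 : 67 * ((i : ℝ) + 1) ^ 2 * ((3 * (i : ℝ) ^ 2) * (3 * (i : ℝ) ^ 2)) ≤
            67 * ((i : ℝ) + 1) ^ 2 * (((m2 : ℝ) - c) * (m1 - c)) := by
          gcongr
          linarith
        have h3 : (((i : ℝ) + 1) ^ 3) ^ 2 * 600 ≤
            67 * ((i : ℝ) + 1) ^ 2 * ((3 * (i : ℝ) ^ 2) * (3 * (i : ℝ) ^ 2)) := by
          clear_value S
          obtain ⟨n, rfl⟩ := Nat.exists_eq_add_of_le hi2
          push_cast
          have hn : (0 : ℝ) ≤ n := Nat.cast_nonneg n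
          rw [← sub_nonneg]
          ring_nf
          positivity
        linarith
      have hw : ((j0 : ℝ) + 2) ^ 3 ≤ Tc c m2 := by
        have : ((j0 : ℝ) + 2) ≤ j := by exact_mod_cast hj2
        have : ((j0 : ℝ) + 2) ^ 3 ≤ (j : ℝ) ^ 3 := by gcongr
        exact this.trans w2.1
      have hw1 := w1.2
      have hbig : 4.9 * ((i : ℝ) + 1) < (j0 : ℝ) + 1 := by
        apply cube_lt (by positivity)
        have h1 := c1.2.2.2.2.2
        have h2 : 51.5 * (4.9 * ((i : ℝ) + 1)) ^ 3 ≤ (i : ℝ) ^ 4 := by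
          clear_value S
          obtain ⟨n, rfl⟩ := Nat.exists_eq_add_of_le hi2
          push_cast
          have hn : (0 : ℝ) ≤ n := Nat.cast_nonneg n
          rw [← sub_nonneg]
          ring_nf
          positivity
        linarith
      have h0 : (0 : ℝ) ≤ j0 := Nat.cast_nonneg _
      have hfin : 67 * ((i : ℝ) + 1) ^ 2 ≤ 3 * ((j0 : ℝ) + 1) ^ 2 := by
        have : (4.9 * ((i : ℝ) + 1)) ^ 2 ≤ ((j0 : ℝ) + 1) ^ 2 := by gcongr
        nlinarith
      nlinarith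
    exact (Finset.card_le_card hsub).trans Finset.card_le_two

end Pool.Agent.Moser
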