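import Pool.Agent.Lib_MP_cc07e8_co.Round
import Pool.Agent.Lib_MP_cc07e8_co.Touch

/-!
# MP_cc07e8_co, tail theorem: spreading the recycled slots over the blocks
-/

namespace Pool.Agent.Moser

namespace Spread

/-- the soft sets: blocks and windows -/
def CC (i : ℕ) (T : ℕ → ℝ) : ℕ ⊕ ℕ → ℕ × ℕ → ℕ → Prop
  | Sum.inl b', _, b => b = b'
  | Sum.inr j, s, b => ∃ m ∈ sub i b, Wd j (Tc (T s.1) m)

open Classical in
theorem card_prod_le {σ o : Type} (S : Finset σ) (O : Finset o) (P : σ × o → Prop) (c : ℝ)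
    (h : ∀ s ∈ S, ((O.filter fun b => P (s, b)).card : ℝ) ≤ c) :
    (((S ×ˢ O).filter P).card : ℝ) ≤ S.card * c := by
  rw [Finset.card_filter]
  push_cast
  rw [Finset.sum_product, ← nsmul_eq_mul]
  apply Finset.sum_le_card_nsmul
  intro s hs
  have h1 := h s hs
  rw [Finset.card_filter] at h1
  push_cast at h1
  exact h1

end Spread

open Classical in
/-- Apply `rounding` with `t = 3` to `S`, `O = Bl i` and the soft sets: for every block `b ∈ Bl i` the pairs
`(s, b)`, for every window `j ≤ (i + 1) ^ 4` the pairs `(s, b)` such that `Tc (T s) m` is in the window `j` for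
some `m ∈ sub i b` (`touch_windows`: a pair is in at most `1 + 2` sets). The number of pairs of the second
kind is at most `#S (om i j / 9000 + 2)` by `touch_blocks` (`IJ i j` implies `j ≤ (i + 1) ^ 4`). -/
theorem spread : ∃ i0 : ℕ, ∀ i : ℕ, i0 ≤ i → ∀ (S : Finset (ℕ × ℕ)) (T : ℕ → ℝ),
    (∀ s ∈ S, (i : ℝ) ^ 3 ≤ T s.1 ∧ T s.1 < ((i : ℝ) + 1) ^ 3) →
    ∃ f : ℕ × ℕ → ℕ, (∀ s ∈ S, f s ∈ Bl i) ∧
      (∀ b ∈ Bl i, |((S.filter fun s => f s = b).card : ℝ) - (S.card : ℝ) / (Bl i).card| < 6) ∧
      ∀ j : ℕ, IJ i j →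
        ((S.filter fun s => ∃ m ∈ sub i (f s), Wd j (Tc (T s.1) m)).card : ℝ) ≤
          (S.card : ℝ) / (Bl i).card * (om i j / 9000 + 2) + 6 := by
  obtain ⟨i1, h1⟩ := card_Bl
  obtain ⟨i2, h2⟩ := touch_blocks
  obtain ⟨i3, h3⟩ := touch_windows
  refine ⟨max 1 (max i1 (max i2 i3)), ?_⟩
  intro i hi S T hS
  have hi1 : 1 ≤ i := (le_max_left _ _).trans hi
  have hi' : max i1 (max i2 i3) ≤ i := (le_max_right _ _).trans hi
  have hii1 : i1 ≤ i := (le_max_left _ _).trans hi'
  have hi'' : max i2 i3 ≤ i := (le_max_right _ _).trans hi'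
  have hii2 : i2 ≤ i := (le_max_left _ _).trans hi''
  have hii3 : i3 ≤ i := (le_max_right _ _).trans hi''
  have hcard := (h1 i hii1).1
  have hiR : (1 : ℝ) ≤ (i : ℝ) := by exact_mod_cast hi1
  have hpos : (0 : ℝ) < ((Bl i).card : ℝ) := by
    refine lt_of_lt_of_le ?_ hcard
    positivity
  have hne : (Bl i).Nonempty := by
    rw [← Finset.card_pos]
    exact_mod_cast hpos
  have key := rounding S (Bl i) hne
    ((Bl i).disjSum (Finset.range ((i + 1) ^ 4 + 1))) (Spread.CC i T) 3 (by norm_num) (by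
      intro s hs b hb
      have hsub : (((Bl i).disjSum (Finset.range ((i + 1) ^ 4 + 1))).filter
          fun j => Spread.CC i T j s b) ⊆
          ({Sum.inl b} : Finset (ℕ ⊕ ℕ)) ∪
            ((Finset.range ((i + 1) ^ 4 + 1)).filter
              fun j => ∃ m ∈ sub i b, Wd j (Tc (T s.1) m)).image Sum.inr := by
        intro j hj
        rw [Finset.mem_filter] at hj
        obtain ⟨hj1, hj2⟩ := hj
        rw [Finset.mem_union]
        rcases j with b' | j
        · left
          have hj2' : b = b' := hj2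
          rw [Finset.mem_singleton, hj2']
        · right
          rw [Finset.mem_image]
          refine ⟨j, ?_, rfl⟩
          rw [Finset.mem_filter]
          exact ⟨Finset.inr_mem_disjSum.1 hj1, hj2⟩
      refine (Finset.card_le_card hsub).trans ((Finset.card_union_le _ _).trans ?_)
      rw [Finset.card_singleton]
      have h4 := h3 i b hii3 hb (T s.1) (hS s hs).1 (hS s hs).2 (Finset.range ((i + 1) ^ 4 + 1))
      have h5 := Finset.card_image_le (s := (Finset.range ((i + 1) ^ 4 + 1)).filter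
              fun j => ∃ m ∈ sub i b, Wd j (Tc (T s.1) m)) (f := (Sum.inr : ℕ → ℕ ⊕ ℕ))
      omega)
  obtain ⟨f, hf1, hf2⟩ := key
  refine ⟨f, hf1, ?_, ?_⟩
  · intro b hb
    have h4 := hf2 (Sum.inl b) (Finset.inl_mem_disjSum.2 hb)
    have e1 : (S.filter fun s => Spread.CC i T (Sum.inl b) s (f s)) =
        S.filter fun s => f s = b := by
      ext s
      rw [Finset.mem_filter, Finset.mem_filter]
      exact Iff.rfl
    have e2 : ((S ×ˢ Bl i).filter fun p => Spread.CC i T (Sum.inl b) p.1 p.2) =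
        S ×ˢ ({b} : Finset ℕ) := by
      ext p
      rw [Finset.mem_filter, Finset.mem_product, Finset.mem_product, Finset.mem_singleton]
      constructor
      · rintro ⟨⟨h5, -⟩, h6⟩
        exact ⟨h5, h6⟩
      · rintro ⟨h5, h6⟩
        exact ⟨⟨h5, h6 ▸ hb⟩, h6⟩
    rw [e1, e2, Finset.card_product, Finset.card_singleton, mul_one] at h4
    norm_num at h4
    exact h4
  · intro j hj
    have hjN : j ∈ Finset.range ((i + 1) ^ 4 + 1) := by
      rw [Finset.mem_range]
      have h5 := hj.1
      have h6 : (j : ℝ) ≤ (i : ℝ) ^ 4 := by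
        rcases Nat.eq_zero_or_pos j with h0 | h0
        · rw [h0]
          push_cast
          positivity
        · have h7 : (1 : ℝ) ≤ (j : ℝ) := by exact_mod_cast h0
          have h8 : (j : ℝ) ≤ (j : ℝ) ^ 3 := by
            nlinarith [mul_pos (lt_of_lt_of_le one_pos h7) (lt_of_lt_of_le one_pos h7)]
          have h9 : (0 : ℝ) ≤ (j : ℝ) ^ 3 := by positivity
          linarith
      have h7 : j ≤ i ^ 4 := by exact_mod_cast h6
      have h8 : i ^ 4 ≤ (i + 1) ^ 4 := Nat.pow_le_pow_left (Nat.le_succ i) 4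
      omega
    have h4 := hf2 (Sum.inr j) (Finset.inr_mem_disjSum.2 hjN)
    have e1 : (S.filter fun s => Spread.CC i T (Sum.inr j) s (f s)) =
        S.filter fun s => ∃ m ∈ sub i (f s), Wd j (Tc (T s.1) m) := by
      ext s
      rw [Finset.mem_filter, Finset.mem_filter]
      exact Iff.rfl
    rw [e1] at h4
    have h5 : (((S ×ˢ Bl i).filter fun p => Spread.CC i T (Sum.inr j) p.1 p.2).card : ℝ) ≤
        S.card * (om i j / 9000 + 2) := by
      apply Spread.card_prod_le
      intro s hs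
      have h6 := h2 i j hii2 hj (T s.1) (hS s hs).1 (hS s hs).2
      have e3 : ((Bl i).filter fun b => Spread.CC i T (Sum.inr j) s b) =
          (Bl i).filter fun b => ∃ m ∈ sub i b, Wd j (Tc (T s.1) m) := by
        ext b
        rw [Finset.mem_filter, Finset.mem_filter]
        exact Iff.rfl
      have e4 : ((Bl i).filter fun b => Spread.CC i T (Sum.inr j) (s, b).1 (s, b).2) =
          (Bl i).filter fun b => Spread.CC i T (Sum.inr j) s b := rfl
      rw [e4, e3]
      exact h6
    have h6 := (abs_lt.1 h4).2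
    have h7 : (((S ×ˢ Bl i).filter fun p => Spread.CC i T (Sum.inr j) p.1 p.2).card : ℝ) /
        ((Bl i).card : ℝ) ≤ (S.card : ℝ) / (Bl i).card * (om i j / 9000 + 2) := by
      rw [div_mul_eq_mul_div]
      gcongr
    norm_num at h6
    linarith

end Pool.Agent.Moser
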