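import Pool.Agent.Lib_MP_cc07e8_co.Assign
import Pool.Agent.Lib_MP_cc07e8_co.Ripe
import Pool.Agent.Lib_MP_cc07e8_co.Fat
import Pool.Agent.Lib_MP_cc07e8_co.Reserve
import Pool.Agent.Lib_MP_cc07e8_co.Fill
import Pool.Agent.Lib_MP_cc07e8_co.PsiStep

/-!
# MP_cc07e8_co, tail theorem: one batch
-/

namespace Pool.Agent.Moser

/-- the first state -/
theorem first_state : ∃ s0 : ℕ, ∀ (cs : List (ℝ × ℝ)) (n0 s : ℕ), s0 ≤ s → Start cs n0 s →
    St cs n0 s s ∅ 0 (cs : Multiset (ℝ × ℝ)) := by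
  obtain ⟨s1, hs1⟩ := SS_start
  refine ⟨max s1 6400000000, ?_⟩
  intro cs n0 s hs h
  have h1 : s1 ≤ s := (le_max_left _ _).trans hs
  have h2 : 6400000000 ≤ s := (le_max_right _ _).trans hs
  have h3 : SS n0 s = ∅ := hs1 s n0 h1 h.lo
  refine ⟨?_, by simp, by simp, by simp, by simp, ?_, ?_⟩
  · rw [h3]
    have : strips ∅ 0 = 0 := by simp [strips]
    rw [this, zero_add]
    exact DecL.refl cs h.nonneg
  · intro j
    simpa using LB_nonneg s s j
  · refine h.psi.trans ?_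
    have h4 : (80000 : ℝ) ≤ Real.sqrt s := by
      apply Real.le_sqrt_of_sq_le
      have : (6400000000 : ℝ) ≤ s := by exact_mod_cast h2
      norm_num
      linarith
    have h5 : 50 / Real.sqrt s ≤ 50 / 80000 :=
      div_le_div_of_nonneg_left (by norm_num) (by norm_num) h4
    linarith

/-- strips of a disjoint union -/
theorem strips_union {A B : Finset ℕ} (h : Disjoint A B) [DecidableEq ℕ] (T : ℕ → ℝ) :
    strips (A ∪ B) T = strips A T + strips B T := by
  unfold strips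
  rw [← Finset.disjUnion_eq_union A B h, Finset.disjUnion_val, Multiset.map_add]

theorem strips_congr {A : Finset ℕ} {T T' : ℕ → ℝ} (h : ∀ m ∈ A, T m = T' m) :
    strips A T = strips A T' := by
  unfold strips
  apply Multiset.map_congr rfl
  intro m hm
  rw [h m hm]

theorem strips_eq_sum (A : Finset ℕ) (T : ℕ → ℝ) :
    strips A T = ∑ m ∈ A, {(1 / (m : ℝ), 1 / T m)} := by
  classical
  induction A using Finset.induction_on with
  | empty => simp [strips]
  | insert a s ha ih =>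
    rw [Finset.sum_insert ha, ← ih]
    unfold strips
    rw [Finset.insert_val_of_notMem ha, Multiset.map_cons, Multiset.singleton_add]

open Classical in
/-- one batch -/
theorem step : ∃ s0 : ℕ, ∀ (cs : List (ℝ × ℝ)) (n0 s i : ℕ) (A : Finset ℕ) (T : ℕ → ℝ)
    (R : Multiset (ℝ × ℝ)), s0 ≤ s → s ≤ i → Start cs n0 s → St cs n0 s i A T R →
    ∃ (A' : Finset ℕ) (T' : ℕ → ℝ) (R' : Multiset (ℝ × ℝ)), St cs n0 s (i + 1) A' T' R' := by
  obtain ⟨i1, H1⟩ := assign
  obtain ⟨i2, H2⟩ := ripe_props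
  obtain ⟨i3, H3⟩ := fat_area
  obtain ⟨i4, H4⟩ := fill_recycled
  obtain ⟨i5, H5⟩ := fill_segs
  obtain ⟨i6, H6⟩ := psi_step
  obtain ⟨i7, H7⟩ := child_props
  obtain ⟨i8, H8⟩ := cnt_le
  obtain ⟨i9, H9⟩ := card_MM
  refine ⟨i1 + i2 + i3 + i4 + i5 + i6 + i7 + i8 + i9 + 100, ?_⟩
  intro cs n0 s i A T R hs hsi hst h
  have hi : 1 ≤ i := by omega
  have hi100 : 100 ≤ i := by omega
  have hir : (100 : ℝ) ≤ i := by exact_mod_cast hi100
  have hipos : (0 : ℝ) < i := by linarith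
  set B : Finset ℕ := A.filter (fun m => T m < ((i : ℝ) + 1) ^ 3) with hB
  obtain ⟨hB1, hB2, hB3, hB4⟩ := H2 cs n0 s i A T R (by omega) hsi h
  rw [← hB] at hB1 hB2 hB3 hB4
  obtain ⟨g, F, src, hMM, hsrc1, hsrc2, hcnt⟩ := H1 i n0 (by omega) B T (fun m => i ^ 3 / m)
    (fun m hm => (hB1 m hm).2) hB2 hB3
  obtain ⟨hfat, harea⟩ := H3 cs n0 s i A T R (by omega) hsi hst h
  set ms : ℕ → Multiset ℕ := fun m => (Multiset.range (i ^ 3 / m)).map (g m) with hms
  set N : ℝ := (i : ℝ) ^ 3 with hN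
  have hNpos : 0 < N := by positivity
  -- members of the batch
  have hFle : F.val ≤ (MM n0 i).val := by
    rw [hMM]
    exact Multiset.le_add_right _ _
  have hmsle : ∀ m ∈ B, ms m ≤ (MM n0 i).val := by
    intro m hm
    rw [hMM]
    refine le_trans ?_ (Multiset.le_add_left _ _)
    exact Finset.single_le_sum (f := ms) (fun j _ => Multiset.zero_le _) hm
  have hFmem : ∀ m ∈ F.val, (i + 2) ^ 3 ≤ m ∧ m < (i + 17) ^ 3 + 9000 := fun m hm =>
    (MM_bounds (n0 := n0) hi (Finset.mem_def.2 (Multiset.mem_of_le hFle hm))).2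
  have hmsmem : ∀ m0 ∈ B, ∀ m ∈ ms m0, (i + 2) ^ 3 ≤ m ∧ m < (i + 17) ^ 3 + 9000 :=
    fun m0 hm0 m hm => (MM_bounds (n0 := n0) hi
      (Finset.mem_def.2 (Multiset.mem_of_le (hmsle m0 hm0) hm))).2
  have hsrc : ∀ m ∈ MM n0 i, (i : ℝ) ^ 3 ≤ src m ∧ src m < ((i : ℝ) + 1) ^ 3 := by
    intro m hm
    have hm' : m ∈ (MM n0 i).val := Finset.mem_def.1 hm
    rw [hMM, Multiset.mem_add] at hm'
    rcases hm' with hm' | hm'
    · rw [hsrc2 m hm']
      refine ⟨le_rfl, ?_⟩
      exact pow_lt_pow_left₀ (by linarith) hipos.le (by norm_num)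
    · rw [Multiset.mem_sum] at hm'
      obtain ⟨m0, hm0, hm1⟩ := hm'
      rw [Multiset.mem_map] at hm1
      obtain ⟨k, hk, rfl⟩ := hm1
      rw [hsrc1 m0 hm0 k (Multiset.mem_range.1 hk)]
      exact (hB1 m0 hm0).2
  have hchild : ∀ m ∈ MM n0 i, ((i : ℝ) + 1) ^ 3 ≤ Tc (src m) m ∧
      8 * Tc (src m) m ^ 3 ≤ (m : ℝ) ^ 4 ∧ (m : ℝ) ^ 4 ≤ (60 * Tc (src m) m) ^ 3 ∧
      2.95 * Tc (src m) m ≤ (i : ℝ) ^ 4 ∧ (i : ℝ) ^ 4 ≤ 51.5 * Tc (src m) m := by
    intro m hm
    obtain ⟨b1, b2, b3⟩ := MM_bounds hi hm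
    exact (H7 i m (by omega) b2 b3 (src m) (hsrc m hm).1 (hsrc m hm).2).2
  -- the reserve
  have hFcard : (F.card : ℝ) ≤ 4 * (i : ℝ) ^ 2 := by
    have h1 : F.card ≤ (MM n0 i).card := Multiset.card_le_card hFle
    have h2 := H9 n0 i (by omega)
    have h3 : (F.card : ℝ) ≤ ((MM n0 i).card : ℝ) := by exact_mod_cast h1
    linarith
  have hRnn : ∀ r ∈ R, 0 ≤ r.1 ∧ 0 ≤ r.2 := fun r hr =>
    h.dec.rect_nonneg r (Multiset.mem_add.2 (Or.inr hr))
  have hf : (F.card : ℝ) ≤ (7 / 8) ^ 2 * N ^ 2 * area (fat N R) := by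
    have h1 : (7 / 8) ^ 2 * N ^ 2 * (0.1 / N) ≤ (7 / 8) ^ 2 * N ^ 2 * area (fat N R) :=
      mul_le_mul_of_nonneg_left hfat (by positivity)
    have h2 : (7 / 8 : ℝ) ^ 2 * N ^ 2 * (0.1 / N) = (7 / 8) ^ 2 * 0.1 * N := by
      field_simp
    rw [h2] at h1
    have h3 : 4 * (i : ℝ) ^ 2 ≤ (7 / 8) ^ 2 * 0.1 * N := by
      rw [hN]
      have h4 : (i : ℝ) ^ 3 = (i : ℝ) ^ 2 * i := by ring
      rw [h4]
      nlinarith [sq_nonneg (i : ℝ), mul_le_mul_of_nonneg_left hir (sq_nonneg (i : ℝ))]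
    linarith
  have hK : 1 ≤ Nat.sqrt i := by
    rw [Nat.le_sqrt]
    omega
  obtain ⟨ks, R1, hks1, hks2, hRef1, hPsi1⟩ := reserve hNpos (Nat.sqrt i) hK R hRnn F.card hf
  obtain ⟨gaps, hRef2, hPsi2⟩ := H5 i (by omega) ks F.val hks2 hks1.symm hFmem
  -- recycled strips
  have hrec : ∀ m ∈ B, ∃ gap : ℝ × ℝ, Ref {(1 / (m : ℝ), 1 / T m)} (ms m)
      ((ms m).map (fun m' : ℕ => (1 / (m' : ℝ), 1 / Tc (T m) m')) + {gap}) ∧
      wt gap ≤ 5 / (i : ℝ) ^ 3 := by
    intro m hm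
    exact H4 i m (by omega) (hB1 m hm).1 (T m) (hB1 m hm).2.1 (hB1 m hm).2.2 (ms m)
      (by rw [hms]; simp) (hmsmem m hm)
  choose! gap hgap1 hgap2 using hrec
  set A0 : Finset ℕ := A.filter (fun m => ¬ T m < ((i : ℝ) + 1) ^ 3) with hA0
  set T' : ℕ → ℝ := fun m => if m ∈ MM n0 i then Tc (src m) m else T m with hT'
  set R2 : Multiset (ℝ × ℝ) := R1 + gaps + ∑ m ∈ B, {gap m} with hR2
  have hdisA : ∀ m ∈ A, m ∉ MM n0 i := by
    intro m hm hm'
    have h1 := (mem_SS hi).1 (h.old m hm)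
    have h2 := (mem_MM hi).1 hm'
    omega
  have hdis : Disjoint A0 (MM n0 i) := by
    rw [Finset.disjoint_left]
    intro m hm
    exact hdisA m (Finset.mem_of_mem_filter m hm)
  have hT1 : ∀ m ∈ MM n0 i, T' m = Tc (src m) m := fun m hm => if_pos hm
  have hT2 : ∀ m ∈ A, T' m = T m := fun m hm => if_neg (hdisA m hm)
  have hsplit : strips A T = strips B T + strips A0 T := by
    rw [← strips_union (Finset.disjoint_filter_filter_not A A _) T]
    congr 1
    exact (Finset.filter_union_filter_not_eq _ A).symm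
  have hnew : strips (MM n0 i) T' = F.val.map (fun m : ℕ => (1 / (m : ℝ), 1 / Tc N m)) +
      ∑ m ∈ B, (ms m).map (fun m' : ℕ => (1 / (m' : ℝ), 1 / Tc (T m) m')) := by
    have e1 : strips (MM n0 i) T' = strips (MM n0 i) fun m => Tc (src m) m := strips_congr hT1
    rw [e1]
    have e2 : ∀ φ : ℕ → ℝ × ℝ, (MM n0 i).val.map φ = F.val.map φ + ∑ m ∈ B, (ms m).map φ := by
      intro φ
      rw [hMM, Multiset.map_add]
      have e4 : (∑ m ∈ B, ms m).map φ = ∑ m ∈ B, (ms m).map φ :=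
        map_sum (Multiset.mapAddMonoidHom φ) ms B
      rw [e4]
    have e3 : strips (MM n0 i) (fun m => Tc (src m) m) =
        (MM n0 i).val.map fun m : ℕ => (1 / (m : ℝ), 1 / Tc (src m) m) := rfl
    rw [e3, e2]
    refine congrArg₂ (fun a b => a + b) ?_ ?_
    · apply Multiset.map_congr rfl
      intro m hm
      rw [hsrc2 m (Finset.mem_def.2 hm)]
    · refine Finset.sum_congr rfl fun m hm => ?_
      apply Multiset.map_congr rfl
      intro m' hm'
      rw [hms, Multiset.mem_map] at hm'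
      obtain ⟨k, hk, rfl⟩ := hm'
      rw [hsrc1 m hm k (Multiset.mem_range.1 hk)]
  refine ⟨A0 ∪ MM n0 i, T', R2, ?_, ?_, ?_, ?_, ?_, ?_, ?_⟩
  · -- the decomposition
    have r1 : Ref R F.val (F.val.map (fun m : ℕ => (1 / (m : ℝ), 1 / Tc N m)) + gaps + R1) := by
      have := hRef1.trans (hRef2.add (Ref.refl R1))
      rw [zero_add, add_zero] at this
      exact this
    have r2 : Ref (strips B T) (∑ m ∈ B, ms m) (∑ m ∈ B,
        ((ms m).map (fun m' : ℕ => (1 / (m' : ℝ), 1 / Tc (T m) m')) + {gap m})) := by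
      rw [strips_eq_sum]
      exact Ref.sum B _ _ _ hgap1
    have r3 : Ref (strips A T + R) ((MM n0 i).val) (strips (A0 ∪ MM n0 i) T' + R2) := by
      have r4 := (r2.add (Ref.refl (strips A0 T))).add r1
      rw [← hsplit] at r4
      have e1 : (∑ m ∈ B, ms m) + 0 + F.val = (MM n0 i).val := by
        rw [add_zero, add_comm, hMM]
      have e2 : (∑ m ∈ B, ((ms m).map (fun m' : ℕ => (1 / (m' : ℝ), 1 / Tc (T m) m')) +
          {gap m})) + strips A0 T +
          (F.val.map (fun m : ℕ => (1 / (m : ℝ), 1 / Tc N m)) + gaps + R1) =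
          strips (A0 ∪ MM n0 i) T' + R2 := by
        rw [strips_union hdis, hnew, strips_congr (A := A0) (T := T') (T' := T)
          fun m hm => hT2 m (Finset.mem_of_mem_filter m hm), Finset.sum_add_distrib, hR2]
        abel
      rw [e1, e2] at r4
      exact r4
    have r5 := r3 cs (SS n0 i).val 0 (by rw [add_zero]; exact h.dec)
    rw [add_zero, ← SS_succ hi] at r5
    exact r5
  · intro m hm
    rw [mem_SS (by omega)]
    rcases Finset.mem_union.1 hm with hm | hm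
    · have h1 := (mem_SS hi).1 (h.old m (Finset.mem_of_mem_filter m hm))
      omega
    · have h1 := (mem_MM hi).1 hm
      omega
  · intro m hm
    rcases Finset.mem_union.1 hm with hm | hm
    · exact h.sub m (Finset.mem_of_mem_filter m hm)
    · exact ((mem_MM hi).1 hm).1
  · intro m hm
    push_cast
    rcases Finset.mem_union.1 hm with hm | hm
    · rw [hT2 m (Finset.mem_of_mem_filter m hm)]
      exact not_lt.1 (Finset.mem_filter.1 hm).2
    · rw [hT1 m hm]
      exact (hchild m hm).1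
  · intro m hm
    rcases Finset.mem_union.1 hm with hm | hm
    · rw [hT2 m (Finset.mem_of_mem_filter m hm)]
      exact h.size m (Finset.mem_of_mem_filter m hm)
    · rw [hT1 m hm]
      exact ⟨(hchild m hm).2.1, (hchild m hm).2.2.1⟩
  · -- loads
    intro j
    rw [LB_succ s i j hsi]
    have h1 : ∑ m ∈ (A0 ∪ MM n0 i).filter (fun m => Wd j (T' m)), 1 / (m : ℝ) ≤
        ∑ m ∈ A.filter (fun m => Wd j (T m)), 1 / (m : ℝ) +
        ∑ m ∈ (MM n0 i).filter (fun m => Wd j (Tc (src m) m)), 1 / (m : ℝ) := by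
      rw [Finset.filter_union, Finset.sum_union (Finset.disjoint_filter_filter hdis)]
      refine add_le_add ?_ ?_
      · refine Finset.sum_le_sum_of_subset_of_nonneg ?_ fun m _ _ => by positivity
        intro m hm
        rw [Finset.mem_filter] at hm ⊢
        have hmA : m ∈ A := Finset.mem_of_mem_filter m hm.1
        rw [hT2 m hmA] at hm
        exact ⟨hmA, hm.2⟩
      · refine Finset.sum_le_sum_of_subset_of_nonneg ?_ fun m _ _ => by positivity
        intro m hm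
        rw [Finset.mem_filter] at hm ⊢
        rw [hT1 m hm.1] at hm
        exact hm
    refine h1.trans (add_le_add (h.load j) ?_)
    by_cases hIJ : IJ i j
    · refine le_trans ?_ (H8 i j (by omega) hIJ)
      have h2 : ∑ m ∈ (MM n0 i).filter (fun m => Wd j (Tc (src m) m)), 1 / (m : ℝ) ≤
          ((MM n0 i).filter fun m => Wd j (Tc (src m) m)).card • (1 / ((i : ℝ) + 2) ^ 3) := by
        refine Finset.sum_le_card_nsmul _ _ _ fun m hm => ?_
        have h3 := (MM_bounds hi (Finset.mem_of_mem_filter m hm)).2.1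
        have h4 : ((i : ℝ) + 2) ^ 3 ≤ m := by exact_mod_cast h3
        exact one_div_le_one_div_of_le (by positivity) h4
      refine h2.trans ?_
      rw [nsmul_eq_mul, mul_one_div]
      exact div_le_div_of_nonneg_right (hcnt j hIJ) (by positivity)
    · have h2 : (MM n0 i).filter (fun m => Wd j (Tc (src m) m)) = ∅ := by
        rw [Finset.filter_eq_empty_iff]
        intro m hm hw
        exact hIJ (IJ_of_Wd (hchild m hm).2.2.2.1 (hchild m hm).2.2.2.2 hw)
      rw [h2, Finset.sum_empty]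
      exact cbl_nonneg i j
  · -- weights
    have h1 := H6 i (by omega) (Psi R) (area R) F.card B.card h.psi harea hFcard hB4
    refine le_trans ?_ h1
    rw [hR2, Psi_add, Psi_add, Psi_sum]
    have h2 : ∑ m ∈ B, Psi {gap m} ≤ B.card • (5 / (i : ℝ) ^ 3) := by
      refine Finset.sum_le_card_nsmul _ _ _ fun m hm => ?_
      rw [Psi_singleton]
      exact hgap2 m hm
    rw [nsmul_eq_mul] at h2
    have h3 : Psi R1 + 1.05 * ks.card / N ≤
        Psi R + 4 * Real.sqrt (area R) + 1.05 * (F.card : ℕ) / (N * (Nat.sqrt i : ℕ)) := hPsi1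
    linarith

end Pool.Agent.Moser
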