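import Pool.Agent.Lib_MP_cc07e8_co.Geo

/-!
# MP_cc07e8_co, tail theorem: definitions

Blocks of 9000 consecutive integers, sub-blocks of 600; batch `i` gets one sub-block of every block `b`
with `(i + 2) ^ 3 ≤ 9000 b < (i + 17) ^ 3`.
-/

namespace Pool.Agent.Moser

/-- weight of a rectangle: long side plus three times the short side -/
noncomputable def wt (r : ℝ × ℝ) : ℝ := max r.1 r.2 + 3 * min r.1 r.2

/-- total weight -/
noncomputable def Psi (ρ : Multiset (ℝ × ℝ)) : ℝ := (ρ.map wt).sum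

@[simp] theorem Psi_zero : Psi 0 = 0 := by simp [Psi]

@[simp] theorem Psi_add (ρ σ : Multiset (ℝ × ℝ)) : Psi (ρ + σ) = Psi ρ + Psi σ := by
  simp [Psi]

@[simp] theorem Psi_singleton (r : ℝ × ℝ) : Psi {r} = wt r := by simp [Psi]

@[simp] theorem Psi_cons (r : ℝ × ℝ) (ρ : Multiset (ℝ × ℝ)) : Psi (r ::ₘ ρ) = wt r + Psi ρ := by
  simp [Psi]

/-- `Psi` as an additive homomorphism -/
noncomputable def PsiHom : Multiset (ℝ × ℝ) →+ ℝ := ⟨⟨Psi, Psi_zero⟩, Psi_add⟩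

theorem Psi_sum {ι : Type} (s : Finset ι) (f : ι → Multiset (ℝ × ℝ)) :
    Psi (∑ i ∈ s, f i) = ∑ i ∈ s, Psi (f i) := map_sum PsiHom f s

theorem wt_swap (a b : ℝ) : wt (a, b) = wt (b, a) := by
  simp [wt, max_comm, min_comm]

theorem wt_nonneg {r : ℝ × ℝ} (h1 : 0 ≤ r.1) (h2 : 0 ≤ r.2) : 0 ≤ wt r := by
  unfold wt
  have : 0 ≤ max r.1 r.2 := le_max_of_le_left h1
  have := le_min h1 h2
  linarith

/-- `wt (a, b) ≤ a + 3 b`, whichever side is longer (for `a ≤ b` it is even equal to `b + 3 a`) -/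
theorem wt_le (a b : ℝ) (hab : b ≤ a) : wt (a, b) = a + 3 * b := by
  simp [wt, max_eq_left hab, min_eq_right hab]

theorem wt_le' {a b : ℝ} (hab : a ≤ b) : wt (a, b) = b + 3 * a := by
  simp [wt, max_eq_right hab, min_eq_left hab]

/-- integer cube root -/
def cr (x : ℕ) : ℕ := Nat.findGreatest (fun k => k ^ 3 ≤ x) x

/-- the batch of the square `m` -/
def bat (m : ℕ) : ℕ := cr (9000 * (m / 9000)) - 2 - (m % 9000) / 600

/-- the blocks of batch `i` -/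
def Bl (i : ℕ) : Finset ℕ :=
  (Finset.range ((i + 17) ^ 3)).filter fun b => (i + 2) ^ 3 ≤ 9000 * b ∧ 9000 * b < (i + 17) ^ 3

/-- the sub-block of the block `b` which belongs to batch `i` -/
def sub (i b : ℕ) : Finset ℕ := (Finset.Ico (9000 * b) (9000 * (b + 1))).filter fun m => bat m = i

/-- the squares `m ≥ n0` of batch `i` -/
def MM (n0 i : ℕ) : Finset ℕ :=
  (Finset.range ((i + 17) ^ 3 + 9000)).filter fun m => n0 ≤ m ∧ bat m = i

/-- the squares `m ≥ n0` of the batches before `i` -/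
def SS (n0 i : ℕ) : Finset ℕ :=
  (Finset.range ((i + 17) ^ 3 + 9000)).filter fun m => n0 ≤ m ∧ bat m < i

/-- inverse width of the child of the square `m` in a strip of inverse width `c`:
`1 / Tc c m = 1 / c - 1 / m` -/
noncomputable def Tc (c : ℝ) (m : ℕ) : ℝ := c * m / (m - c)

/-- `t` is in the window `j` -/
def Wd (j : ℕ) (t : ℝ) : Prop := (j : ℝ) ^ 3 ≤ t ∧ t < ((j : ℝ) + 1) ^ 3

/-- children of batch `i` can be in window `j` -/
def IJ (i j : ℕ) : Prop :=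
  2.95 * (j : ℝ) ^ 3 ≤ (i : ℝ) ^ 4 ∧ (i : ℝ) ^ 4 ≤ 51.5 * ((j : ℝ) + 1) ^ 3

/-- upper bound for the length of `{m | Tc c m ∈ window j}`, `c ≤ (i + 1) ^ 3` -/
noncomputable def om (i j : ℕ) : ℝ :=
  ((i : ℝ) + 1) ^ 6 * (((j : ℝ) + 1) ^ 3 - (j : ℝ) ^ 3) /
    (((j : ℝ) ^ 3 - ((i : ℝ) + 1) ^ 3) * (((j : ℝ) + 1) ^ 3 - ((i : ℝ) + 1) ^ 3))

/-- upper bound for the number of children of batch `i` in window `j` -/
noncomputable def cnt (i j : ℕ) : ℝ := (om i j / 9000 + 2) * 606 + 6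

open Classical in
/-- upper bound for the length of the children of batch `i` in window `j` -/
noncomputable def cbl (i j : ℕ) : ℝ :=
  if IJ i j then 0.2025 * (i : ℝ) ^ 3 / (j : ℝ) ^ 4 + 1230 / (i : ℝ) ^ 3 else 0

/-- load of the window `j` by the batches from `s` to `i - 1` -/
noncomputable def LB (s i j : ℕ) : ℝ := ∑ i' ∈ Finset.Ico s i, cbl i' j

/-- the fat rectangles -/
noncomputable def fat (N : ℝ) (R : Multiset (ℝ × ℝ)) : Multiset (ℝ × ℝ) :=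
  open Classical in R.filter fun r => 8 ≤ N * min r.1 r.2

/-- the strips: the strip over the square `m` has sides `1 / m` and `1 / T m` -/
noncomputable def strips (A : Finset ℕ) (T : ℕ → ℝ) : Multiset (ℝ × ℝ) :=
  A.val.map fun m : ℕ => (1 / (m : ℝ), 1 / T m)

open Classical in
/-- state before batch `i`: containers `cs`, squares `m ≥ n0`, first batch `s` -/
structure St (cs : List (ℝ × ℝ)) (n0 s i : ℕ) (A : Finset ℕ) (T : ℕ → ℝ)
    (R : Multiset (ℝ × ℝ)) : Prop where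
  dec : DecL cs (SS n0 i).val (strips A T + R)
  old : ∀ m ∈ A, m ∈ SS n0 i
  sub : ∀ m ∈ A, n0 ≤ m
  ripe : ∀ m ∈ A, (i : ℝ) ^ 3 ≤ T m
  size : ∀ m ∈ A, 8 * T m ^ 3 ≤ (m : ℝ) ^ 4 ∧ (m : ℝ) ^ 4 ≤ (60 * T m) ^ 3
  load : ∀ j : ℕ, ∑ m ∈ A.filter (fun m => Wd j (T m)), 1 / (m : ℝ) ≤ LB s i j
  psi : Psi R ≤ 1 / 800 - 50 / Real.sqrt i

/-- hypotheses on the containers, `n0` and the first batch `s` -/
structure Start (cs : List (ℝ × ℝ)) (n0 s : ℕ) : Prop where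
  nonneg : ∀ r ∈ cs, 0 ≤ r.1 ∧ 0 ≤ r.2
  area : area (cs : Multiset (ℝ × ℝ)) = ∑' k : ℕ, 1 / (((n0 + k : ℕ) : ℝ)) ^ 2
  psi : Psi (cs : Multiset (ℝ × ℝ)) ≤ 1 / 1600
  lo : (s + 17) ^ 3 ≤ n0
  hi : n0 < (s + 18) ^ 3

end Pool.Agent.Moser
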