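import Pool.Agent.Lib_MP_cc07e8_co.Blocks

/-!
# MP_cc07e8_co, tail theorem: the remaining area
-/

namespace Pool.Agent.Moser

namespace TailSum

/-- the tail of `∑ 1 / m ^ 2` -/
noncomputable def tl (a : ℕ) : ℝ := ∑' k : ℕ, 1 / (((a + k : ℕ) : ℝ)) ^ 2

theorem summ (a : ℕ) : Summable fun k : ℕ => 1 / (((a + k : ℕ) : ℝ)) ^ 2 := by
  have h : Summable fun n : ℕ => 1 / (n : ℝ) ^ 2 := Real.summable_one_div_nat_pow.2 (by norm_num)
  have h2 := (summable_nat_add_iff a).2 h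
  refine h2.congr fun k => ?_
  rw [add_comm]

theorem tl_split {a b : ℕ} (h : a ≤ b) :
    tl a = ∑ m ∈ Finset.Ico a b, 1 / (m : ℝ) ^ 2 + tl b := by
  rw [Finset.sum_Ico_eq_sum_range]
  unfold tl
  rw [← (summ a).sum_add_tsum_nat_add (b - a)]
  congr 1
  apply tsum_congr
  intro k
  have : a + (k + (b - a)) = b + k := by omega
  rw [this]

theorem le_tl {a : ℕ} (ha : 1 ≤ a) : 1 / (a : ℝ) ≤ tl a := by
  have ha' : (1 : ℝ) ≤ a := by exact_mod_cast ha
  have h1 : ∀ n : ℕ, 1 / (a : ℝ) - 1 / ((a : ℝ) + n) ≤ tl a := by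
    intro n
    have h2 : ∑ k ∈ Finset.range n, (1 / ((a : ℝ) + k) - 1 / ((a : ℝ) + (k + 1 : ℕ))) =
        1 / ((a : ℝ) + (0 : ℕ)) - 1 / ((a : ℝ) + n) :=
      Finset.sum_range_sub' (fun k : ℕ => 1 / ((a : ℝ) + k)) n
    have h3 : ∑ k ∈ Finset.range n, (1 / ((a : ℝ) + k) - 1 / ((a : ℝ) + (k + 1 : ℕ))) ≤
        ∑ k ∈ Finset.range n, 1 / (((a + k : ℕ) : ℝ)) ^ 2 := by
      apply Finset.sum_le_sum
      intro k _
      push_cast
      have hk : (0 : ℝ) ≤ k := Nat.cast_nonneg k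
      have hp : (0 : ℝ) < a + k := by linarith
      rw [div_sub_div _ _ (by positivity) (by positivity),
        div_le_div_iff₀ (by positivity) (by positivity)]
      nlinarith
    have h4 := (summ a).sum_le_tsum (Finset.range n) (fun i _ => by positivity)
    simp only [Nat.cast_zero, add_zero] at h2
    unfold tl
    linarith
  have h5 : Filter.Tendsto (fun n : ℕ => 1 / (a : ℝ) - 1 / ((a : ℝ) + n)) Filter.atTop
      (nhds (1 / (a : ℝ) - 0)) := by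
    apply Filter.Tendsto.sub tendsto_const_nhds
    apply Filter.Tendsto.div_atTop tendsto_const_nhds
    exact Filter.tendsto_atTop_add_const_left _ _ tendsto_natCast_atTop_atTop
  rw [sub_zero] at h5
  exact le_of_tendsto' h5 h1

theorem tl_le {a : ℕ} (ha : 2 ≤ a) : tl a ≤ 1 / ((a : ℝ) - 1) := by
  have ha' : (2 : ℝ) ≤ a := by exact_mod_cast ha
  unfold tl
  apply Real.tsum_le_of_sum_range_le
  · intro n; positivity
  · intro n
    have h2 : ∑ k ∈ Finset.range n, (1 / ((a : ℝ) - 1 + k) - 1 / ((a : ℝ) - 1 + (k + 1 : ℕ))) =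
        1 / ((a : ℝ) - 1 + (0 : ℕ)) - 1 / ((a : ℝ) - 1 + n) :=
      Finset.sum_range_sub' (fun k : ℕ => 1 / ((a : ℝ) - 1 + k)) n
    have h3 : ∑ k ∈ Finset.range n, 1 / (((a + k : ℕ) : ℝ)) ^ 2 ≤
        ∑ k ∈ Finset.range n, (1 / ((a : ℝ) - 1 + k) - 1 / ((a : ℝ) - 1 + (k + 1 : ℕ))) := by
      apply Finset.sum_le_sum
      intro k _
      push_cast
      have hk : (0 : ℝ) ≤ k := Nat.cast_nonneg k
      have hp : (0 : ℝ) < a - 1 + k := by linarith
      have hp2 : (0 : ℝ) < a - 1 + (k + 1) := by linarith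
      have hp3 : (0 : ℝ) < a + k := by linarith
      rw [div_sub_div _ _ hp.ne' hp2.ne', div_le_div_iff₀ (by positivity) (by positivity)]
      nlinarith
    have h4 : 0 ≤ 1 / ((a : ℝ) - 1 + n) := by
      have hn : (0 : ℝ) ≤ n := Nat.cast_nonneg n
      have : (0 : ℝ) < a - 1 + n := by linarith
      positivity
    simp only [Nat.cast_zero, add_zero] at h2
    linarith

theorem sqa_val (S : Finset ℕ) : sqa S.val = ∑ m ∈ S, 1 / (m : ℝ) ^ 2 := by
  have h1 : S.val = ∑ m ∈ S, ({m} : Multiset ℕ) := (Finset.sum_multiset_singleton S).symm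
  rw [h1, sqa_sum]
  refine Finset.sum_congr rfl fun m _ => ?_
  rw [sqa_singleton, div_pow, one_pow]

end TailSum

open TailSum Blocks

/-- The squares which are not in `SS n0 i` (`n0 ≤ m`): they include all `m ≥ (i + 18) ^ 3` (`n0 < (s + 18) ^ 3`,
`mem_SS`, `cr_spec`), and all satisfy `bat m ≥ i`, so `m ≥ (i + 2) ^ 3`. `∑_{m ≥ a} 1 / m ^ 2` is between `1 / a`
and `1 / (a - 1)`. -/
theorem tail_sum : ∃ s0 : ℕ, ∀ n0 s i : ℕ, s0 ≤ s → s ≤ i → n0 < (s + 18) ^ 3 →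
    1 / ((i : ℝ) + 18) ^ 3 ≤ (∑' k : ℕ, 1 / (((n0 + k : ℕ) : ℝ)) ^ 2) - sqa (SS n0 i).val ∧
    (∑' k : ℕ, 1 / (((n0 + k : ℕ) : ℝ)) ^ 2) - sqa (SS n0 i).val ≤ 1.1 / (i : ℝ) ^ 3 := by
  refine ⟨100, fun n0 s i hs hsi hn => ?_⟩
  have hi1 : 1 ≤ i := by omega
  have hi : 100 ≤ i := by omega
  obtain ⟨A, hA⟩ : ∃ A : ℕ, A = (i + 18) ^ 3 := ⟨_, rfl⟩
  obtain ⟨B, hB⟩ : ∃ B : ℕ, B = (i + 2) ^ 3 := ⟨_, rfl⟩
  have hle : (s + 18) ^ 3 ≤ A := by
    rw [hA]
    exact Nat.pow_le_pow_left (by omega) 3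
  have hn0 : n0 ≤ A := by omega
  have hBA : B ≤ A := by
    rw [hA, hB]
    exact Nat.pow_le_pow_left (by omega) 3
  obtain ⟨D, hD⟩ : ∃ D : ℕ, D = (i + 17) ^ 3 := ⟨_, rfl⟩
  obtain ⟨E, hE⟩ : ∃ E : ℕ, E = 8999 := ⟨_, rfl⟩
  have hA2 : D + E ≤ A := by
    have h1 : (i + 18) ^ 3 = (i + 17) ^ 3 + (3 * (i + 17) ^ 2 + 3 * (i + 17) + 1) := by ring
    have h2 : 117 ^ 2 ≤ (i + 17) ^ 2 := Nat.pow_le_pow_left (by omega) 2
    rw [hA, hD, hE, h1]
    have h3 : 8999 ≤ 3 * (i + 17) ^ 2 + 3 * (i + 17) + 1 := by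
      have h4 : 117 ^ 2 = 13689 := by norm_num
      rw [h4] at h2
      clear hA hB hD hE h1 h4
      omega
    exact Nat.add_le_add_left h3 _
  have hSS : ∀ m ∈ SS n0 i, n0 ≤ m ∧ m < A := by
    intro m hm
    rw [mem_SS hi1] at hm
    refine ⟨hm.1, ?_⟩
    by_contra hcon
    rw [not_lt] at hcon
    have h2 : D ≤ 9000 * (m / 9000) := by
      clear hA hB hD
      omega
    rw [hD] at h2
    have h3 := le_cr h2
    clear hA hB hD hE
    have h4 := hm.2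
    unfold bat at h4
    omega
  have hnot : ∀ m, n0 ≤ m → m ∉ SS n0 i → B ≤ m := by
    intro m hm hnm
    rw [mem_SS hi1, not_and, not_lt] at hnm
    have h1 := hnm hm
    have h2 : i + 2 ≤ cr (9000 * (m / 9000)) := by
      unfold bat at h1
      omega
    have h3 := (Nat.pow_le_pow_left h2 3).trans (cr_spec (9000 * (m / 9000))).1
    rw [← hB] at h3
    clear hA hB hD hE
    omega
  have hsub : SS n0 i ⊆ Finset.Ico n0 A := by
    intro m hm
    have := hSS m hm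
    exact Finset.mem_Ico.2 this
  clear hA2 hSS hE hD hle
  generalize SS n0 i = S at *
  have e1 := sqa_val S
  have e2 := Finset.sum_sdiff (f := fun m : ℕ => 1 / (m : ℝ) ^ 2) hsub
  have e3 := tl_split hn0
  have e4 : (∑' k : ℕ, 1 / (((n0 + k : ℕ) : ℝ)) ^ 2) - sqa S.val =
      ∑ m ∈ Finset.Ico n0 A \ S, 1 / (m : ℝ) ^ 2 + tl A := by
    change tl n0 - _ = _
    rw [e3, e1]
    linarith
  rw [e4]
  constructor
  · have h1 : 0 ≤ ∑ m ∈ Finset.Ico n0 A \ S, 1 / (m : ℝ) ^ 2 :=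
      Finset.sum_nonneg fun m _ => by positivity
    have h2 : 1 ≤ A := by
      rw [hA]
      exact Nat.one_le_pow _ _ (by omega)
    have h3 := le_tl h2
    have hAr : (A : ℝ) = ((i : ℝ) + 18) ^ 3 := by rw [hA]; push_cast; ring
    rw [hAr] at h3
    linarith
  · have h1 : ∑ m ∈ Finset.Ico n0 A \ S, 1 / (m : ℝ) ^ 2 ≤
        ∑ m ∈ Finset.Ico B A, 1 / (m : ℝ) ^ 2 := by
      apply Finset.sum_le_sum_of_subset_of_nonneg
      · intro m hm
        rw [Finset.mem_sdiff, Finset.mem_Ico] at hm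
        rw [Finset.mem_Ico]
        exact ⟨hnot m hm.1.1 hm.2, hm.1.2⟩
      · intro m _ _
        positivity
    have h2 := tl_split hBA
    have hB2 : 2 ≤ B := by
      have h5 : 2 ^ 3 ≤ (i + 2) ^ 3 := Nat.pow_le_pow_left (by omega) 3
      rw [← hB] at h5
      exact le_trans (by norm_num) h5
    have h3 := tl_le hB2
    have h4 : 1 / ((B : ℝ) - 1) ≤ 1.1 / (i : ℝ) ^ 3 := by
      have hi' : (100 : ℝ) ≤ i := by exact_mod_cast hi
      have hBr : (B : ℝ) = ((i : ℝ) + 2) ^ 3 := by rw [hB]; push_cast; ring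
      rw [hBr, div_le_div_iff₀ (by nlinarith [sq_nonneg (i : ℝ)]) (by positivity)]
      nlinarith [sq_nonneg (i : ℝ)]
    linarith

end Pool.Agent.Moser
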